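import Mathlib

section

/-!
# Iterating a homogeneous polynomial map on vectors in an algebra: norms and degrees
-/

set_option autoImplicit false

namespace Pool.Agent.Helper36

open Polynomial

variable {O A B : Type*} [CommRing O] [CommRing A] [Algebra O A] [CommRing B] [Algebra O B]
variable {ι : Type*}

/-- one application of the polynomial map `F` to a vector with entries in an algebra -/
noncomputable def step (F : ι → MvPolynomial ι O) (u : ι → A) : ι → A :=
  fun i => MvPolynomial.aeval u (F i)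

/-- the iterates -/
noncomputable def iter (F : ι → MvPolynomial ι O) (w : ι → A) (k : ℕ) : ι → A := (step F)^[k] w

lemma iter_zero (F : ι → MvPolynomial ι O) (w : ι → A) : iter F w 0 = w := rfl

lemma iter_succ (F : ι → MvPolynomial ι O) (w : ι → A) (k : ℕ) :
    iter F w (k + 1) = step F (iter F w k) := Function.iterate_succ_apply' _ _ _

lemma iter_succ' (F : ι → MvPolynomial ι O) (w : ι → A) (k : ℕ) :
    iter F w (k + 1) = iter F (step F w) k := rfl

lemma iter_add (F : ι → MvPolynomial ι O) (w : ι → A) (j k : ℕ) :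
    iter F w (j + k) = iter F (iter F w k) j := Function.iterate_add_apply _ _ _ _

/-- iteration commutes with algebra homomorphisms -/
lemma step_map (F : ι → MvPolynomial ι O) (ψ : A →ₐ[O] B) (u : ι → A) :
    step F (fun i => ψ (u i)) = fun i => ψ (step F u i) := by
  funext i
  simp only [step]
  rw [← MvPolynomial.comp_aeval_apply]

lemma iter_map (F : ι → MvPolynomial ι O) (ψ : A →ₐ[O] B) (w : ι → A) (k : ℕ) :
    iter F (fun i => ψ (w i)) k = fun i => ψ (iter F w k i) := by
  induction k with
  | zero => rfl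
  | succ k ih => rw [iter_succ, ih, step_map, iter_succ]

/-- homogeneity -/
lemma aeval_smul_homogeneous {d : ℕ} {G : MvPolynomial ι O} (hG : G.IsHomogeneous d) (c : A)
    (u : ι → A) : MvPolynomial.aeval (fun i => c * u i) G = c ^ d * MvPolynomial.aeval u G := by
  rw [MvPolynomial.aeval_def, MvPolynomial.aeval_def, MvPolynomial.eval₂_eq, MvPolynomial.eval₂_eq,
    Finset.mul_sum]
  refine Finset.sum_congr rfl fun m hm => ?_
  have hd : ∑ i ∈ m.support, m i = d := by
    have := hG (MvPolynomial.mem_support_iff.1 hm)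
    rw [Finsupp.weight_apply] at this
    simpa [Finsupp.sum] using this
  have h1 : ∏ i ∈ m.support, (c * u i) ^ m i = c ^ d * ∏ i ∈ m.support, u i ^ m i := by
    rw [← hd, ← Finset.prod_pow_eq_pow_sum, ← Finset.prod_mul_distrib]
    exact Finset.prod_congr rfl fun i _ => mul_pow _ _ _
  rw [h1]; ring

/-! ### Norm bounds -/

/-! ### Degree bounds -/

end Pool.Agent.Helper36

end

section

/-!
# Growth of heights along an orbit
-/

set_option autoImplicit false

namespace Pool.Agent.Helper36

open Height Function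

/-! ### The Nullstellensatz input -/

section null

variable {K L : Type*} [Field K] [Field L] [Algebra K L] [IsAlgClosed L]
variable {ι : Type*} [Fintype ι]

lemma homogeneousComponent_mul_of_homogeneous {R σ : Type*} [CommRing R] {d : ℕ}
    {F : MvPolynomial σ R}
    (hF : F.IsHomogeneous d) (a : MvPolynomial σ R) (M : ℕ) :
    MvPolynomial.homogeneousComponent (M + d) (a * F) =
      MvPolynomial.homogeneousComponent M a * F := by
  classical
  conv_lhs => rw [← MvPolynomial.sum_homogeneousComponent (φ := a), Finset.sum_mul, map_sum]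
  have h1 : ∀ i, MvPolynomial.homogeneousComponent (M + d)
      (MvPolynomial.homogeneousComponent i a * F) =
      if i = M then MvPolynomial.homogeneousComponent i a * F else 0 := by
    intro i
    have h2 : (MvPolynomial.homogeneousComponent i a * F).IsHomogeneous (i + d) :=
      (MvPolynomial.homogeneousComponent_isHomogeneous i a).mul hF
    rw [MvPolynomial.homogeneousComponent_of_mem (h2 : _ ∈ MvPolynomial.homogeneousSubmodule σ R _)]
    have : (M + d = i + d) ↔ (i = M) := by omega
    simp only [this]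
  simp only [h1]
  rw [Finset.sum_ite_eq']
  split_ifs with h
  · rfl
  · rw [MvPolynomial.homogeneousComponent_eq_zero, zero_mul]
    rw [Finset.mem_range] at h
    omega

/-- homogeneous polynomials over `K` without common zeros over an algebraically closed extension
generate a power of the irrelevant ideal -/
theorem exists_nullstellensatz {d : ℕ} (F : ι → MvPolynomial ι K)
    (hF : ∀ i, (F i).IsHomogeneous d)
    (hnz : ∀ x : ι → L, (∀ i, MvPolynomial.aeval x (F i) = 0) → x = 0) :
    ∃ (M : ℕ) (q : ι × ι → MvPolynomial ι K), (∀ a, (q a).IsHomogeneous M) ∧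
      ∀ k, ∑ j, q (k, j) * F j = MvPolynomial.X k ^ (M + d) := by
  classical
  have h1 : ∀ k : ι, ∃ r : ℕ, (MvPolynomial.X k : MvPolynomial ι K) ^ r ∈
      Ideal.span (Set.range F) := by
    intro k
    have h2 : (MvPolynomial.X k : MvPolynomial ι K) ∈ (Ideal.span (Set.range F)).radical := by
      rw [← MvPolynomial.vanishingIdeal_zeroLocus_eq_radical (K := L)]
      rw [MvPolynomial.mem_vanishingIdeal_iff]
      intro x hx
      rw [MvPolynomial.mem_zeroLocus_iff] at hx
      have : x = 0 := hnz x fun i => hx _ (Ideal.subset_span ⟨i, rfl⟩)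
      rw [this]
      simp
    exact h2
  choose r hr using h1
  set M : ℕ := ∑ k, r k with hM
  have h3 : ∀ k : ι, (MvPolynomial.X k : MvPolynomial ι K) ^ (M + d) ∈
      Ideal.span (Set.range F) := by
    intro k
    refine Ideal.mem_of_dvd _ (pow_dvd_pow _ ?_) (hr k)
    have : r k ≤ M := Finset.single_le_sum (f := r) (fun _ _ => Nat.zero_le _) (Finset.mem_univ k)
    omega
  have h4 : ∀ k : ι, ∃ c : ι → MvPolynomial ι K, ∑ j, c j * F j = MvPolynomial.X k ^ (M + d) := by
    intro k
    have := h3 k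
    rw [Ideal.mem_span_range_iff_exists_fun] at this
    exact this
  choose c hc using h4
  refine ⟨M, fun a => MvPolynomial.homogeneousComponent M (c a.1 a.2),
    fun a => MvPolynomial.homogeneousComponent_isHomogeneous _ _, fun k => ?_⟩
  have h5 := congrArg (MvPolynomial.homogeneousComponent (M + d)) (hc k)
  rw [map_sum] at h5
  simp only [homogeneousComponent_mul_of_homogeneous (hF _)] at h5
  rw [h5]
  exact MvPolynomial.homogeneousComponent_eq_self (MvPolynomial.isHomogeneous_X_pow k _)

end null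

/-! ### Heights along an orbit -/

section growth

variable {K : Type*} [Field K] [AdmissibleAbsValues K]
variable {ι : Type*} [Fintype ι]

omit [AdmissibleAbsValues K] [Fintype ι] in
lemma step_eq_eval (F : ι → MvPolynomial ι K) (x : ι → K) :
    step F x = fun i => MvPolynomial.eval x (F i) := by
  funext i
  exact congrArg (fun φ => φ (F i)) (MvPolynomial.coe_aeval_eq_eval x)

theorem exists_logHeight_step_ge {L : Type*} [Field L] [Algebra K L] [IsAlgClosed L] {d : ℕ}
    (F : ι → MvPolynomial ι K) (hF : ∀ i, (F i).IsHomogeneous d)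
    (hnz : ∀ x : ι → L, (∀ i, MvPolynomial.aeval x (F i) = 0) → x = 0) :
    ∃ C : ℝ, ∀ x : ι → K, C + d * logHeight x ≤ logHeight (step F x) := by
  obtain ⟨M, q, hq, h⟩ := exists_nullstellensatz F hF hnz
  obtain ⟨C, hC⟩ := logHeight_eval_ge' (N := d) hq
  refine ⟨C, fun x => ?_⟩
  rw [step_eq_eval]
  apply hC F
  intro k
  have := congrArg (MvPolynomial.eval x) (h k)
  rw [map_sum] at this
  simpa using this

/-- two vectors represent the same projective point -/
def PEq {ι : Type*} (x y : ι → K) : Prop := ∃ c : K, c ≠ 0 ∧ y = c • x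

omit [AdmissibleAbsValues K] [Fintype ι] in
lemma PEq.step {d : ℕ} {F : ι → MvPolynomial ι K} (hF : ∀ i, (F i).IsHomogeneous d)
    {x y : ι → K} (h : PEq x y) : PEq (step F x) (step F y) := by
  obtain ⟨c, hc, rfl⟩ := h
  refine ⟨c ^ d, pow_ne_zero _ hc, ?_⟩
  funext i
  rw [Pi.smul_apply, smul_eq_mul]
  exact aeval_smul_homogeneous (hF i) c x

omit [AdmissibleAbsValues K] [Fintype ι] in
lemma PEq.iter {d : ℕ} {F : ι → MvPolynomial ι K} (hF : ∀ i, (F i).IsHomogeneous d)
    {x y : ι → K} (h : PEq x y) (k : ℕ) : PEq (iter F x k) (iter F y k) := by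
  induction k with
  | zero => exact h
  | succ k ih => rw [iter_succ, iter_succ]; exact ih.step hF

omit [AdmissibleAbsValues K] [Fintype ι] in
lemma PEq.refl {x : ι → K} : PEq x x := ⟨1, one_ne_zero, by simp⟩

omit [AdmissibleAbsValues K] [Fintype ι] in
lemma PEq.symm {x y : ι → K} (h : PEq x y) : PEq y x := by
  obtain ⟨c, hc, rfl⟩ := h
  exact ⟨c⁻¹, inv_ne_zero hc, by rw [smul_smul, inv_mul_cancel₀ hc, one_smul]⟩

omit [AdmissibleAbsValues K] [Fintype ι] in
lemma PEq.trans {x y z : ι → K} (h : PEq x y) (h' : PEq y z) : PEq x z := by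
  obtain ⟨c, hc, rfl⟩ := h
  obtain ⟨e, he, rfl⟩ := h'
  exact ⟨e * c, mul_ne_zero he hc, by rw [smul_smul]⟩

/-- Northcott for projective points: an infinite sequence of nonzero vectors of bounded height
contains two proportional ones. -/
theorem exists_PEq_of_bounded [Northcott (mulHeight₁ (K := K))] (P : ℕ → ι → K)
    (hP : ∀ n, P n ≠ 0) (B : ℝ) (hB : ∀ n, mulHeight (P n) ≤ B) :
    ∃ n m, n < m ∧ PEq (P n) (P m) := by
  classical
  have h1 : ∀ n, ∃ i, P n i ≠ 0 := fun n => Function.ne_iff.1 (hP n)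
  choose j hj using h1
  set Q : ℕ → ι → K := fun n i => P n i / P n (j n) with hQ
  have hfin : {x : K | mulHeight₁ x ≤ B}.Finite := Northcott.finite_le B
  have hmem : ∀ n, Q n ∈ Set.pi Set.univ fun _ : ι => {x : K | mulHeight₁ x ≤ B} := by
    intro n i _
    change mulHeight₁ (P n i / P n (j n)) ≤ B
    rw [mulHeight₁_div_eq_mulHeight]
    refine le_trans ?_ (hB n)
    have := mulHeight_comp_le ![i, j n] (P n)
    refine le_trans (le_of_eq ?_) this
    congr 1
    funext l
    fin_cases l <;> rfl
  have hfin2 : (Set.pi Set.univ fun _ : ι => {x : K | mulHeight₁ x ≤ B}).Finite :=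
    Set.Finite.pi fun _ => hfin
  obtain ⟨n, -, m, -, hnm, heq⟩ := Set.infinite_univ.exists_ne_map_eq_of_mapsTo
    (fun n _ => hmem n) hfin2
  have key : ∀ n m, Q n = Q m → PEq (P n) (P m) := by
    intro n m h
    refine ⟨P m (j m) / P n (j n), div_ne_zero (hj m) (hj n), ?_⟩
    funext i
    have h2 := congrFun h i
    simp only [hQ] at h2
    rw [Pi.smul_apply, smul_eq_mul]
    have h3 := hj n
    have h4 := hj m
    field_simp at h2 ⊢
    linear_combination -h2
  rcases lt_or_gt_of_ne hnm with h | h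
  · exact ⟨n, m, h, key n m heq⟩
  · exact ⟨m, n, h, key m n heq.symm⟩

/-- Heights grow exponentially along an orbit that is not preperiodic. -/
theorem growth [Northcott (mulHeight₁ (K := K))] {L : Type*} [Field L] [Algebra K L]
    [IsAlgClosed L] {d : ℕ} (hd : 2 ≤ d)
    (F : ι → MvPolynomial ι K) (hF : ∀ i, (F i).IsHomogeneous d)
    (hnz : ∀ x : ι → L, (∀ i, MvPolynomial.aeval x (F i) = 0) → x = 0)
    (P : ℕ → ι → K) (hP : ∀ n, P n ≠ 0) (hstep : ∀ n, P (n + 1) = step F (P n)) :
    (∃ n m, n < m ∧ PEq (P n) (P m)) ∨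
      ∃ n₀, ∀ n, n₀ ≤ n → (d : ℝ) ^ (n - n₀) ≤ logHeight (P n) := by
  obtain ⟨C, hC⟩ := exists_logHeight_step_ge F hF hnz
  set c : ℝ := max 0 (-C) with hc
  have hc0 : 0 ≤ c := le_max_left _ _
  have hcC : -c ≤ C := by
    have : -C ≤ c := le_max_right _ _
    linarith
  by_cases h : ∀ n, logHeight (P n) ≤ c + 1
  · left
    apply exists_PEq_of_bounded P hP (Real.exp (c + 1))
    intro n
    have := h n
    rw [logHeight_eq_log_mulHeight] at this
    exact (Real.log_le_iff_le_exp (mulHeight_pos _)).1 this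
  · right
    push Not at h
    obtain ⟨n₀, hn₀⟩ := h
    refine ⟨n₀, ?_⟩
    have hd2 : (2 : ℝ) ≤ d := by exact_mod_cast hd
    have key : ∀ j : ℕ, (d : ℝ) ^ j + c ≤ logHeight (P (n₀ + j)) := by
      intro j
      induction j with
      | zero => simp only [pow_zero, add_zero]; linarith
      | succ j ih =>
        have h1 := hC (P (n₀ + j))
        rw [← hstep] at h1
        have h2 : (d : ℝ) * ((d : ℝ) ^ j + c) ≤ d * logHeight (P (n₀ + j)) :=
          mul_le_mul_of_nonneg_left ih (by linarith)
        have h3 : 2 * c ≤ d * c := mul_le_mul_of_nonneg_right hd2 hc0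
        rw [pow_succ]
        change (d : ℝ) ^ j * d + c ≤ logHeight (P (n₀ + j + 1))
        nlinarith
    intro n hn
    obtain ⟨j, rfl⟩ := Nat.exists_eq_add_of_le hn
    rw [Nat.add_sub_cancel_left]
    have := key j
    linarith

end growth

end Pool.Agent.Helper36

end

section

/-!
# From the Krull dimension of the coordinate ring to algebraic relations
-/

set_option autoImplicit false

namespace Pool.Agent.Helper36

/-- Krull dimension does not drop in an injective integral extension. -/
lemma ringKrullDim_le_of_integral {R S : Type*} [CommRing R] [CommRing S] [Algebra R S]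
    [FaithfulSMul R S] [Algebra.IsIntegral R S] : ringKrullDim R ≤ ringKrullDim S := by
  unfold ringKrullDim Order.krullDim
  apply iSup_le
  intro l
  have hinj : Function.Injective (algebraMap R S) := FaithfulSMul.algebraMap_injective R S
  obtain ⟨Q, -, hQ, hQl⟩ := Ideal.exists_ideal_over_prime_of_isIntegral
    (S := S) (RelSeries.head l).asIdeal (⊥ : Ideal S) (by
      intro x hx
      have : algebraMap R S x = 0 := hx
      rw [hinj (this.trans (map_zero _).symm)]
      exact Ideal.zero_mem _)
  have : Q.LiesOver (RelSeries.head l).asIdeal := ⟨hQl.symm⟩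
  obtain ⟨L, hL, -, -⟩ := Ideal.exists_ltSeries_of_hasGoingUp (S := S) l Q
  rw [← hL]
  exact le_iSup (fun L : LTSeries (PrimeSpectrum S) => ((L.length : ℕ∞) : WithBot ℕ∞)) L

/-- In a domain of finite type of Krull dimension at most two, any three elements are
algebraically dependent. -/
lemma exists_relation_of_krullDim {k D : Type} [Field k] [CommRing D] [IsDomain D] [Algebra k D]
    [Algebra.FiniteType k D] (hdim : ringKrullDim D ≤ 2) (v : Fin 3 → D) :
    ∃ Q : MvPolynomial (Fin 3) k, Q ≠ 0 ∧ MvPolynomial.aeval v Q = 0 := by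
  obtain ⟨s, g, hginj, hgint⟩ := exists_integral_inj_algHom_of_fg k D
  let _ : Algebra (MvPolynomial (Fin s) k) D := g.toRingHom.toAlgebra
  have hmap : algebraMap (MvPolynomial (Fin s) k) D = g.toRingHom := rfl
  have : IsScalarTower k (MvPolynomial (Fin s) k) D := by
    apply IsScalarTower.of_algebraMap_eq
    intro x
    rw [hmap]
    exact (g.commutes x).symm
  have : FaithfulSMul (MvPolynomial (Fin s) k) D := by
    rw [faithfulSMul_iff_algebraMap_injective]
    exact hginj
  have hint : Algebra.IsIntegral (MvPolynomial (Fin s) k) D := ⟨hgint⟩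
  have h1 : ringKrullDim (MvPolynomial (Fin s) k) ≤ ringKrullDim D := ringKrullDim_le_of_integral
  rw [MvPolynomial.ringKrullDim_of_isNoetherianRing, ringKrullDim_eq_zero_of_field, zero_add,
    Nat.card_fin] at h1
  have hs : s ≤ 2 := by
    have := h1.trans hdim
    exact_mod_cast this
  by_contra hcon
  push Not at hcon
  have hv : AlgebraicIndependent k v := by
    rw [algebraicIndependent_iff]
    intro p hp
    by_contra hne
    exact hcon p hne hp
  have h2 := hv.cardinalMk_le_trdeg
  have h3 : Algebra.trdeg k (MvPolynomial (Fin s) k) + Algebra.trdeg (MvPolynomial (Fin s) k) D =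
      Algebra.trdeg k D := trdeg_add_eq k (MvPolynomial (Fin s) k)
  have h4 : Algebra.trdeg (MvPolynomial (Fin s) k) D = 0 := trdeg_eq_zero
  rw [h4, add_zero, MvPolynomial.trdeg_of_isDomain] at h3
  rw [← h3] at h2
  simp only [Cardinal.mk_fintype, Fintype.card_fin, Cardinal.lift_natCast, Nat.cast_le] at h2
  omega

/-- Any three coordinates satisfy a nontrivial relation modulo the radical. -/
lemma exists_relation_radical {k ι : Type} [Field k] [Finite ι] (I : Ideal (MvPolynomial ι k))
    (hdim : ringKrullDim (MvPolynomial ι k ⧸ I) ≤ 2) (v : Fin 3 → MvPolynomial ι k) :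
    ∃ Q : MvPolynomial (Fin 3) k, Q ≠ 0 ∧ MvPolynomial.aeval v Q ∈ I.radical := by
  classical
  have hfin : I.minimalPrimes.Finite := Ideal.finite_minimalPrimes_of_isNoetherianRing _ I
  have h1 : ∀ 𝔮 ∈ I.minimalPrimes, ∃ Q : MvPolynomial (Fin 3) k, Q ≠ 0 ∧
      MvPolynomial.aeval v Q ∈ 𝔮 := by
    intro 𝔮 h𝔮
    have hprime : 𝔮.IsPrime := h𝔮.1.1
    have hle : I ≤ 𝔮 := h𝔮.1.2
    have hd : ringKrullDim (MvPolynomial ι k ⧸ 𝔮) ≤ 2 :=
      (ringKrullDim_le_of_surjective (Ideal.Quotient.factor hle)
        (Ideal.Quotient.factor_surjective hle)).trans hdim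
    obtain ⟨Q, hQ0, hQ⟩ := exists_relation_of_krullDim (k := k) hd
      (fun i => Ideal.Quotient.mk 𝔮 (v i))
    refine ⟨Q, hQ0, ?_⟩
    rw [← Ideal.Quotient.eq_zero_iff_mem]
    have h2 : Ideal.Quotient.mkₐ k 𝔮 (MvPolynomial.aeval v Q) =
        MvPolynomial.aeval (fun i => Ideal.Quotient.mk 𝔮 (v i)) Q := by
      rw [MvPolynomial.comp_aeval_apply]; rfl
    exact h2.trans hQ
  choose! Q hQ0 hQ using h1
  refine ⟨∏ 𝔮 ∈ hfin.toFinset, Q 𝔮, ?_, ?_⟩
  · rw [Finset.prod_ne_zero_iff]
    intro 𝔮 h𝔮
    exact hQ0 𝔮 (hfin.mem_toFinset.1 h𝔮)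
  · rw [← Ideal.sInf_minimalPrimes, Ideal.mem_sInf]
    intro 𝔮 h𝔮
    rw [map_prod]
    rw [← Finset.mul_prod_erase _ _ (hfin.mem_toFinset.2 h𝔮)]
    exact 𝔮.mul_mem_right _ (hQ 𝔮 h𝔮)

end Pool.Agent.Helper36

end

section

/-!
# Unions of arithmetic progressions and gap sets
-/

set_option autoImplicit false

namespace Pool.Agent.Helper36

/-- the union of the arithmetic progressions `{a * m + b : m ≥ 0}`, `(a, b) ∈ T` -/
def APSet (T : Finset (ℕ × ℕ)) : Set ℕ := {n : ℕ | ∃ p ∈ T, ∃ m : ℕ, n = p.1 * m + p.2}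

/-- a set with a doubling gap: `2 n ≤ m + B` for all elements `n < m` -/
def Gap (A : Set ℕ) : Prop := ∃ B : ℕ, ∀ n ∈ A, ∀ m ∈ A, n < m → 2 * n ≤ m + B

/-- finite unions of arithmetic progressions and gap sets -/
def Good (A : Set ℕ) : Prop :=
  ∃ (T : Finset (ℕ × ℕ)) (r : ℕ) (L : Fin r → Set ℕ), (∀ i, Gap (L i)) ∧ A = APSet T ∪ ⋃ i, L i

lemma APSet_union (T T' : Finset (ℕ × ℕ)) : APSet (T ∪ T') = APSet T ∪ APSet T' := by
  classical
  ext n
  simp only [APSet, Set.mem_ofPred_eq, Finset.mem_union, Set.mem_union]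
  constructor
  · rintro ⟨p, hp | hp, m, hm⟩
    · exact Or.inl ⟨p, hp, m, hm⟩
    · exact Or.inr ⟨p, hp, m, hm⟩
  · rintro (⟨p, hp, m, hm⟩ | ⟨p, hp, m, hm⟩)
    · exact ⟨p, Or.inl hp, m, hm⟩
    · exact ⟨p, Or.inr hp, m, hm⟩

lemma APSet_empty : APSet ∅ = ∅ := by
  ext n; simp [APSet]

lemma APSet_of_finite {A : Set ℕ} (hA : A.Finite) : ∃ T, A = APSet T := by
  classical
  refine ⟨hA.toFinset.image fun n => (0, n), ?_⟩
  ext n
  simp only [APSet, Finset.mem_image, Set.Finite.mem_toFinset, Set.mem_ofPred_eq]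
  constructor
  · intro h
    exact ⟨(0, n), ⟨n, h, rfl⟩, 0, by simp⟩
  · rintro ⟨_, ⟨n', hn', rfl⟩, m, hm⟩
    simp only [zero_mul, zero_add] at hm
    rw [hm]; exact hn'

lemma APSet_univ : ∃ T, (Set.univ : Set ℕ) = APSet T := by
  refine ⟨{(1, 0)}, ?_⟩
  ext n
  simp [APSet]

/-- A set closed under adding `k`, up to finitely many exceptions, is a finite union of
arithmetic progressions. -/
lemma APSet_of_evClosed {A : Set ℕ} {k : ℕ} (hk : 0 < k) (h : {n ∈ A | n + k ∉ A}.Finite) :
    ∃ T, A = APSet T := by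
  classical
  obtain ⟨b, hb⟩ := h.bddAbove
  have hcl : ∀ n ∈ A, b < n → n + k ∈ A := by
    intro n hn hbn
    by_contra hc
    have := hb (show n ∈ {n ∈ A | n + k ∉ A} from ⟨hn, hc⟩)
    omega
  have hcl' : ∀ m n, n ∈ A → b < n → n + k * m ∈ A := by
    intro m
    induction m with
    | zero => intro n hn _; simpa using hn
    | succ m ih =>
      intro n hn hbn
      have := hcl _ (ih n hn hbn) (by omega)
      rwa [Nat.mul_succ, ← add_assoc]
  -- the elements beyond `b`, in each residue class
  have hex : ∀ r : ℕ, (∃ n, n ∈ A ∧ b < n ∧ n % k = r) → ∃ n₀, (n₀ ∈ A ∧ b < n₀ ∧ n₀ % k = r) ∧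
      ∀ n, n ∈ A ∧ b < n ∧ n % k = r → n₀ ≤ n := by
    intro r hr
    exact ⟨Nat.find hr, Nat.find_spec hr, fun n hn => Nat.find_min' hr hn⟩
  choose! f hf using hex
  obtain ⟨T₀, hT₀⟩ := APSet_of_finite (A := A ∩ Set.Iic b) ((Set.finite_Iic b).inter_of_right A)
  refine ⟨T₀ ∪ ((Finset.range k).filter
    (fun r => ∃ n, n ∈ A ∧ b < n ∧ n % k = r)).image (fun r => (k, f r)), ?_⟩
  rw [APSet_union, ← hT₀]
  ext n
  simp only [Set.mem_union, Set.mem_inter_iff, Set.mem_Iic, APSet, Finset.mem_image,
    Finset.mem_filter, Finset.mem_range, Set.mem_ofPred_eq]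
  constructor
  · intro hn
    rcases Nat.lt_or_ge b n with hbn | hbn
    · right
      have hr : ∃ n', n' ∈ A ∧ b < n' ∧ n' % k = n % k := ⟨n, hn, hbn, rfl⟩
      obtain ⟨⟨h1, h2, h3⟩, h4⟩ := hf (n % k) hr
      have h5 := h4 n ⟨hn, hbn, rfl⟩
      refine ⟨(k, f (n % k)), ⟨n % k, ⟨Nat.mod_lt _ hk, hr⟩, rfl⟩, (n - f (n % k)) / k, ?_⟩
      have h6 : k ∣ n - f (n % k) := (Nat.modEq_iff_dvd' h5).1 h3
      simp only
      rw [Nat.mul_div_cancel' h6]
      omega
    · exact Or.inl ⟨hn, hbn⟩
  · rintro (⟨hn, -⟩ | ⟨_, ⟨r, ⟨_, hr⟩, rfl⟩, m, rfl⟩)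
    · exact hn
    · obtain ⟨⟨h1, h2, h3⟩, h4⟩ := hf r hr
      simp only
      rw [add_comm]
      exact hcl' m _ h1 h2

lemma Good.of_AP {A : Set ℕ} (h : ∃ T, A = APSet T) : Good A := by
  obtain ⟨T, hT⟩ := h
  refine ⟨T, 0, Fin.elim0, fun i => i.elim0, ?_⟩
  rw [hT]; simp

lemma Good.union {A A' : Set ℕ} (h : Good A) (h' : Good A') : Good (A ∪ A') := by
  classical
  obtain ⟨T, r, L, hL, rfl⟩ := h
  obtain ⟨T', r', L', hL', rfl⟩ := h'
  refine ⟨T ∪ T', r + r', Fin.append L L', ?_, ?_⟩
  · intro i
    refine Fin.addCases (fun i => ?_) (fun i => ?_) i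
    · rw [Fin.append_left]; exact hL i
    · rw [Fin.append_right]; exact hL' i
  · rw [APSet_union]
    have : ⋃ i, Fin.append L L' i = (⋃ i, L i) ∪ ⋃ i, L' i := by
      ext n
      simp only [Set.mem_iUnion, Set.mem_union]
      constructor
      · rintro ⟨i, hi⟩
        revert hi
        refine Fin.addCases (fun i => ?_) (fun i => ?_) i
        · rw [Fin.append_left]; exact fun h => Or.inl ⟨i, h⟩
        · rw [Fin.append_right]; exact fun h => Or.inr ⟨i, h⟩
      · rintro (⟨i, hi⟩ | ⟨i, hi⟩)
        · exact ⟨Fin.castAdd r' i, by rwa [Fin.append_left]⟩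
        · exact ⟨Fin.natAdd r i, by rwa [Fin.append_right]⟩
    rw [this]
    ext n
    simp only [Set.mem_union]
    tauto

lemma Good.empty : Good ∅ := Good.of_AP ⟨∅, APSet_empty.symm⟩

lemma Good.biUnion {α : Type*} (s : Finset α) (A : α → Set ℕ) (h : ∀ i ∈ s, Good (A i)) :
    Good (⋃ i ∈ s, A i) := by
  classical
  induction s using Finset.induction_on with
  | empty => simpa using Good.empty
  | insert a s ha ih =>
    rw [Finset.set_biUnion_insert]
    exact (h a (Finset.mem_insert_self _ _)).union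
      (ih fun i hi => h i (Finset.mem_insert_of_mem hi))

/-! ### Counting -/

end Pool.Agent.Helper36

end

section

/-!
# Clearing denominators and descent of coefficients
-/

set_option autoImplicit false

namespace Pool.Agent.Helper36

open Polynomial Height Height.AdmissibleAbsValues Function

/-! ### Functionals applied to coefficients -/

section functional

variable {K L : Type*} [Field K] [Field L] [Algebra K L] {σ : Type*}

/-- apply a linear functional to the coefficients -/
noncomputable def mapLin (ρ : L →ₗ[K] K) (g : MvPolynomial σ L) : MvPolynomial σ K :=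
  ∑ m ∈ g.support, MvPolynomial.monomial m (ρ (g.coeff m))

lemma coeff_mapLin (ρ : L →ₗ[K] K) (g : MvPolynomial σ L) (m : σ →₀ ℕ) :
    (mapLin ρ g).coeff m = ρ (g.coeff m) := by
  classical
  rw [mapLin, MvPolynomial.coeff_sum]
  simp only [MvPolynomial.coeff_monomial]
  rw [Finset.sum_ite_eq']
  split_ifs with h
  · rfl
  · rw [MvPolynomial.notMem_support_iff.1 h, map_zero]

lemma eval_mapLin (ρ : L →ₗ[K] K) (g : MvPolynomial σ L) (x : σ → K) :
    MvPolynomial.eval x (mapLin ρ g) =
      ρ (MvPolynomial.eval (fun i => algebraMap K L (x i)) g) := by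
  rw [mapLin, map_sum, MvPolynomial.eval_eq (fun i => algebraMap K L (x i)) g, map_sum]
  refine Finset.sum_congr rfl fun m _ => ?_
  have h1 : g.coeff m * ∏ i ∈ m.support, (algebraMap K L (x i)) ^ m i =
      (∏ i ∈ m.support, x i ^ m i) • g.coeff m := by
    rw [Algebra.smul_def, map_prod, mul_comm]
    simp only [map_pow]
  rw [h1, map_smul, MvPolynomial.eval_monomial, smul_eq_mul, mul_comm, Finsupp.prod]

lemma mapLin_isHomogeneous (ρ : L →ₗ[K] K) {g : MvPolynomial σ L} {e : ℕ}
    (hg : g.IsHomogeneous e) : (mapLin ρ g).IsHomogeneous e := by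
  intro m hm
  apply hg
  intro h
  apply hm
  rw [coeff_mapLin, h, map_zero]

lemma exists_functional {c : L} (hc : c ≠ 0) : ∃ ρ : L →ₗ[K] K, ρ c ≠ 0 := by
  by_contra h
  push Not at h
  exact hc ((Module.forall_dual_apply_eq_zero_iff K c).1 h)

lemma exists_mapLin_ne_zero {g : MvPolynomial σ L} (hg : g ≠ 0) :
    ∃ ρ : L →ₗ[K] K, mapLin ρ g ≠ 0 := by
  obtain ⟨m, hm⟩ := MvPolynomial.ne_zero_iff.1 hg
  obtain ⟨ρ, hρ⟩ := exists_functional (K := K) hm
  refine ⟨ρ, MvPolynomial.ne_zero_iff.2 ⟨m, ?_⟩⟩
  rwa [coeff_mapLin]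

end functional

/-! ### Clearing denominators -/

section denominators

variable {O K : Type*} [CommRing O] [IsDomain O] [Field K] [Algebra O K] [IsFractionRing O K]

end denominators

/-! ### The component theorem over the field -/

section overField

variable {K : Type*} [Field K] [AdmissibleAbsValues K]
variable {ι : Type*} [Fintype ι]

end overField

end Pool.Agent.Helper36

end

section

/-!
# Dynamical Mordell-Lang for curves and regular polynomial maps: definitions
-/

set_option autoImplicit false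

namespace Pool.Agent.Helper65.RP

open MvPolynomial Filter Topology

/-! ### Orders of sequences along an ultrafilter -/

section ord
variable {Ω : Type} [NormedField Ω]

/-- The sequence `u` is almost everywhere nonzero and `- log ‖u n‖ / s n` tends to `α`. -/
def HasOrd (𝒰 : Ultrafilter ℕ) (s : ℕ → ℝ) (u : ℕ → Ω) (α : ℝ) : Prop :=
  (∀ᶠ n in (𝒰 : Filter ℕ), u n ≠ 0) ∧
    Tendsto (fun n => -Real.log ‖u n‖ / s n) (𝒰 : Filter ℕ) (𝓝 α)

/-- The sequence `u` has order at least `α`. -/
def GeOrd (𝒰 : Ultrafilter ℕ) (s : ℕ → ℝ) (u : ℕ → Ω) (α : ℝ) : Prop :=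
  ∀ ε : ℝ, 0 < ε → ∀ᶠ n in (𝒰 : Filter ℕ), ‖u n‖ ≤ Real.exp (-(α - ε) * s n)

end ord

section pol
variable {K Kb Ω : Type} [Field K] [Field Kb] [Algebra K Kb] [NormedField Ω] [Algebra K Ω]
  [Algebra Kb Ω] {N : ℕ}

/-- A sequence of `K`-points that tends to infinity at the place given by `Ω`, with scale `s`; the
coordinate `i₀` has the largest possible size, and all coordinates are algebraic over `K(x_{i₀})`. -/
structure Lev (Ω : Type) [NormedField Ω] [Algebra K Ω] (𝒰 : Ultrafilter ℕ) (s : ℕ → ℝ)
    (z : ℕ → Fin N → K) (i₀ : Fin N) : Prop where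
  hs : Tendsto s (𝒰 : Filter ℕ) atTop
  top : HasOrd 𝒰 s (fun n => algebraMap K Ω (z n i₀)) (-1)
  ge : ∀ i, GeOrd 𝒰 s (fun n => algebraMap K Ω (z n i)) (-1)
  alg : ∀ i, ∃ R : Polynomial (Polynomial K), R ≠ 0 ∧
    ∀ᶠ n in (𝒰 : Filter ℕ), (R.map (Polynomial.evalRingHom (z n i₀))).eval (z n i) = 0

end pol

/-- One distinguished absolute value of `K` (given by the embedding in `Ω`, with multiplicity `n`),
the other ones `abv`, the product inequality on a ring `O` of integers, and the Subspace theorem
with algebraic coefficients at the distinguished place. -/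
structure PD (K Ω : Type) [Field K] [NormedField Ω] [Algebra K Ω] (Λ : Type) [Fintype Λ] where
  n : ℕ
  hn : 0 < n
  abv : Λ → AbsoluteValue K ℝ
  O : Subring K
  frac : ∀ x : K, ∃ y ∈ O, y ≠ 0 ∧ x * y ∈ O
  one_le : ∀ x ∈ O, x ≠ 0 → 1 ≤ ‖algebraMap K Ω x‖ ^ n * ∏ l, abv l x
  sub : ∀ (M : ℕ) (A : Matrix (Fin M) (Fin M) Ω), 2 ≤ M → (∀ i j, IsAlgebraic K (A i j)) →
    A.det ≠ 0 → ∀ δ B : ℝ, 0 < δ →
    ∃ 𝒲 : Finset (Submodule K (Fin M → K)), (∀ W ∈ 𝒲, W ≠ ⊤) ∧
      ∀ (Q : ℝ) (a : Fin M → ℝ) (b : Λ → ℝ) (y : Fin M → K), 1 ≤ Q → (∀ i, y i ∈ O) →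
        (∀ i, Q ^ (-B) ≤ a i ∧ a i ≤ Q ^ B) → (∀ l, Q ^ (-B) ≤ b l ∧ b l ≤ Q ^ B) →
        (∀ i, ‖∑ j, A i j * algebraMap K Ω (y j)‖ ≤ a i) → (∀ l i, abv l (y i) ≤ b l) →
        (∏ i, a i) ^ n * ∏ l, b l ^ M ≤ Q ^ (-δ) → ∃ W ∈ 𝒲, y ∈ W

/-- The growth conditions at the places other than the distinguished one. -/
structure Grow {K Ω : Type} [Field K] [NormedField Ω] [Algebra K Ω] {Λ : Type} [Fintype Λ]
    (Z : PD K Ω Λ) (g : Λ → ℝ) (𝒰 : Ultrafilter ℕ) (s : ℕ → ℝ) {N : ℕ} (z : ℕ → Fin N → K) :
    Prop where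
  pos : ∀ l, 0 ≤ g l
  int : ∀ᶠ n in (𝒰 : Filter ℕ), ∀ i, z n i ∈ Z.O
  le : ∀ ε : ℝ, 0 < ε → ∀ᶠ n in (𝒰 : Filter ℕ), ∀ l i, Z.abv l (z n i) ≤ Real.exp ((g l + ε) * s n)

/-- The iterates of `f`, as polynomials. -/
noncomputable def iter {K : Type} [Field K] {N : ℕ} (f : Fin N → MvPolynomial (Fin N) K) :
    ℕ → Fin N → MvPolynomial (Fin N) K
  | 0 => X
  | k + 1 => fun i => bind₁ (iter f k) (f i)

end Pool.Agent.Helper65.RP

end

section

namespace Pool.Agent.Helper65.RP
end Pool.Agent.Helper65.RP

/-!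
# Dynamical Mordell-Lang for curves and regular polynomial maps: a bound for the dimension

A projective variety that meets the hyperplane at infinity in finitely many points has an affine
part of dimension at most one.
-/

set_option autoImplicit false

namespace Pool.Agent.Helper57.RP

open MvPolynomial Pool.Agent.Helper65.RP

/-- The Krull dimension does not go up in an integral extension. -/
lemma ringKrullDim_le_of_isIntegral {A R : Type*} [CommRing A] [CommRing R] [Algebra A R]
    [Algebra.IsIntegral A R] : ringKrullDim R ≤ ringKrullDim A := by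
  unfold ringKrullDim
  refine Order.krullDim_le_of_strictMono
    (fun P => PrimeSpectrum.comap (algebraMap A R) P) ?_
  intro P Q h
  have h1 : P.asIdeal < Q.asIdeal := h
  exact Ideal.IsIntegral.comap_lt_comap h1

/-- The Nullstellensatz: if the origin is the only zero, the variables are nilpotent. -/
lemma exists_pow_mem {K : Type} [Field K] [Algebra K ℂ] {N : ℕ}
    (I : Ideal (MvPolynomial (Fin (N + 1)) K))
    (h : ∀ x : Fin (N + 1) → ℂ, (∀ g ∈ I, aeval x g = 0) → x = 0) :
    ∃ r : ℕ, 0 < r ∧ ∀ i, (X i : MvPolynomial (Fin (N + 1)) K) ^ r ∈ I := by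
  classical
  have h1 : ∀ k : Fin (N + 1), ∃ r : ℕ, (X k : MvPolynomial (Fin (N + 1)) K) ^ r ∈ I := by
    intro k
    have h2 : (X k : MvPolynomial (Fin (N + 1)) K) ∈ I.radical := by
      rw [← MvPolynomial.vanishingIdeal_zeroLocus_eq_radical (K := ℂ)]
      rw [MvPolynomial.mem_vanishingIdeal_iff]
      intro x hx
      rw [MvPolynomial.mem_zeroLocus_iff] at hx
      have : x = 0 := h x hx
      rw [this]
      simp
    exact h2
  choose r hr using h1
  refine ⟨1 + ∑ k, r k, by omega, ?_⟩
  intro i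
  have h2 : r i ≤ 1 + ∑ k, r k :=
    le_trans (Finset.single_le_sum (f := r) (fun _ _ => Nat.zero_le _) (Finset.mem_univ i))
      (Nat.le_add_left _ _)
  exact I.pow_mem_of_pow_mem (hr i) h2

attribute [local instance] MvPolynomial.gradedAlgebra

end Pool.Agent.Helper57.RP

end

section

namespace Pool.Agent.Helper36
end Pool.Agent.Helper36
namespace Pool.Agent.Helper57.RP
end Pool.Agent.Helper57.RP

/-!
# Closed sets which do not meet a linear subspace of codimension two have dimension at most one
-/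

set_option autoImplicit false

namespace Pool.Agent.Helper30.RED

open MvPolynomial
open Pool.Agent.Helper36 (homogeneousComponent_mul_of_homogeneous)
open Pool.Agent.Helper57.RP (ringKrullDim_le_of_isIntegral exists_pow_mem)

variable {K : Type} [Field K]

/-- The module generated by the small monomials. -/
theorem krull_le_of_rel2 {N : ℕ} (J : Ideal (MvPolynomial (Fin N) K))
    (l l' : MvPolynomial (Fin N) K) (r : ℕ) (hr : 0 < r)
    (h : ∀ i : Fin N, ∃ v w : MvPolynomial (Fin N) K, v.totalDegree < r ∧ w.totalDegree < r ∧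
      X i ^ r - (v * l + w * l') ∈ J) :
    ringKrullDim (MvPolynomial (Fin N) K ⧸ J) ≤ 2 := by
  classical
  let φ : MvPolynomial (Fin 2) K →ₐ[K] (MvPolynomial (Fin N) K ⧸ J) :=
    aeval ![Ideal.Quotient.mk J l, Ideal.Quotient.mk J l']
  let _ : Algebra (MvPolynomial (Fin 2) K) (MvPolynomial (Fin N) K ⧸ J) := φ.toRingHom.toAlgebra
  have hmap : ∀ q : MvPolynomial (Fin 2) K,
      algebraMap (MvPolynomial (Fin 2) K) (MvPolynomial (Fin N) K ⧸ J) q = φ q :=
    fun _ => rfl
  let T : Set (Fin N →₀ ℕ) := Set.Iic (Finsupp.equivFunOnFinite.symm fun _ => r)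
  have hT : T.Finite := Set.finite_Iic _
  let W : Submodule (MvPolynomial (Fin 2) K) (MvPolynomial (Fin N) K ⧸ J) :=
    Submodule.span (MvPolynomial (Fin 2) K) ((fun s => Ideal.Quotient.mk J (monomial s 1)) '' T)
  have hsmul : ∀ (a : K) (w : MvPolynomial (Fin N) K), Ideal.Quotient.mk J w ∈ W →
      Ideal.Quotient.mk J (C a * w) ∈ W := by
    intro a w hw
    have h1 : Ideal.Quotient.mk J (C a * w) = (C a : MvPolynomial (Fin 2) K) •
        Ideal.Quotient.mk J w := by
      rw [Algebra.smul_def, hmap, map_mul]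
      congr 1
      simp only [φ, aeval_C]
      rfl
    rw [h1]
    exact W.smul_mem _ hw
  have hlmul : ∀ w : MvPolynomial (Fin N) K, Ideal.Quotient.mk J w ∈ W →
      Ideal.Quotient.mk J (w * l) ∈ W := by
    intro w hw
    have h1 : Ideal.Quotient.mk J (w * l) = (X 0 : MvPolynomial (Fin 2) K) •
        Ideal.Quotient.mk J w := by
      rw [Algebra.smul_def, hmap, map_mul, mul_comm]
      congr 1
      simp [φ, aeval_X]
    rw [h1]
    exact W.smul_mem _ hw
  have hlmul' : ∀ w : MvPolynomial (Fin N) K, Ideal.Quotient.mk J w ∈ W →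
      Ideal.Quotient.mk J (w * l') ∈ W := by
    intro w hw
    have h1 : Ideal.Quotient.mk J (w * l') = (X 1 : MvPolynomial (Fin 2) K) •
        Ideal.Quotient.mk J w := by
      rw [Algebra.smul_def, hmap, map_mul, mul_comm]
      congr 1
      simp [φ, aeval_X]
    rw [h1]
    exact W.smul_mem _ hw
  have hmain : ∀ n : ℕ, ∀ p : MvPolynomial (Fin N) K, p.totalDegree ≤ n →
      Ideal.Quotient.mk J p ∈ W := by
    intro n
    induction n using Nat.strong_induction_on with
    | _ n ih =>
      intro p hp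
      have h1 : p = ∑ s ∈ p.support, C (p.coeff s) * monomial s 1 := by
        conv_lhs => rw [p.as_sum]
        apply Finset.sum_congr rfl
        intro s _
        rw [C_mul_monomial, mul_one]
      rw [h1, map_sum]
      apply W.sum_mem
      intro s hs
      apply hsmul
      have hsd : (s.sum fun _ e => e) ≤ n := le_trans (le_totalDegree hs) hp
      by_cases hsT : s ∈ T
      · exact Submodule.subset_span ⟨s, hsT, rfl⟩
      · have h2 : ∃ i, r < s i := by
          by_contra hcon
          push Not at hcon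
          exact hsT (fun i => hcon i)
        obtain ⟨i, hi⟩ := h2
        obtain ⟨v, w, hv, hw, huv⟩ := h i
        let s' : Fin N →₀ ℕ := s - Finsupp.single i r
        have hs' : s = s' + Finsupp.single i r := by
          refine (tsub_add_cancel_of_le ?_).symm
          rw [Finsupp.single_le_iff]
          exact hi.le
        have hdeg : (s.sum fun _ e => e) = (s'.sum fun _ e => e) + r := by
          conv_lhs => rw [hs']
          rw [Finsupp.sum_add_index' (fun _ => rfl) (fun _ _ _ => rfl),
            Finsupp.sum_single_index rfl]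
        have hm : (monomial s (1 : K)) = monomial s' 1 * X i ^ r := by
          conv_lhs => rw [hs']
          rw [X_pow_eq_monomial, monomial_mul, one_mul]
        have hm2 : Ideal.Quotient.mk J (monomial s (1 : K)) =
            Ideal.Quotient.mk J (monomial s' 1 * v * l) +
              Ideal.Quotient.mk J (monomial s' 1 * w * l') := by
          rw [← map_add, hm, Ideal.Quotient.eq]
          have : monomial s' 1 * X i ^ r - (monomial s' 1 * v * l + monomial s' 1 * w * l') =
              monomial s' 1 * (X i ^ r - (v * l + w * l')) := by ring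
          rw [this]
          exact J.mul_mem_left _ huv
        rw [hm2]
        have hs'd : (monomial s' (1 : K)).totalDegree ≤ (s'.sum fun _ e => e) := by
          exact totalDegree_monomial_le _ _
        apply W.add_mem
        · apply hlmul
          apply ih (n - 1) (by omega)
          refine le_trans (totalDegree_mul _ _) ?_
          omega
        · apply hlmul'
          apply ih (n - 1) (by omega)
          refine le_trans (totalDegree_mul _ _) ?_
          omega
  have htop : W = ⊤ := by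
    rw [eq_top_iff]
    intro x _
    obtain ⟨p, rfl⟩ := Ideal.Quotient.mk_surjective x
    exact hmain _ p le_rfl
  have hfin : Module.Finite (MvPolynomial (Fin 2) K) (MvPolynomial (Fin N) K ⧸ J) := by
    refine ⟨?_⟩
    rw [← htop]
    exact Submodule.fg_span (hT.image _)
  have hint : Algebra.IsIntegral (MvPolynomial (Fin 2) K) (MvPolynomial (Fin N) K ⧸ J) :=
    Algebra.IsIntegral.of_finite _ _
  refine le_trans (ringKrullDim_le_of_isIntegral (A := MvPolynomial (Fin 2) K)) ?_
  rw [MvPolynomial.ringKrullDim_of_isNoetherianRing, ringKrullDim_eq_zero_of_field, zero_add,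
    Nat.card_fin]
  exact le_rfl

attribute [local instance] MvPolynomial.gradedAlgebra

/-- If a closed set does not meet `l₀ = l₁ = 0`, then its dimension is at most one. -/
theorem krull_le_two [Algebra K ℂ] {N : ℕ} {S : Set (MvPolynomial (Fin (N + 1)) K)}
    (hS : ∀ g ∈ S, ∃ e : ℕ, g.IsHomogeneous e) {l₀ l₁ : MvPolynomial (Fin (N + 1)) K}
    (h0 : l₀.IsHomogeneous 1) (h1 : l₁.IsHomogeneous 1)
    (hno : ∀ z : Fin (N + 1) → ℂ, (∀ g ∈ S, aeval z g = 0) → aeval z l₀ = 0 → aeval z l₁ = 0 →
      z = 0) : ringKrullDim (MvPolynomial (Fin (N + 1)) K ⧸ Ideal.span S) ≤ 2 := by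
  classical
  obtain ⟨r, hr, hX⟩ := exists_pow_mem (K := K) (Ideal.span (insert l₀ (insert l₁ S))) (by
    intro x hx
    exact hno x (fun g hg => hx g (Ideal.subset_span (Set.mem_insert_of_mem _
      (Set.mem_insert_of_mem _ hg)))) (hx _ (Ideal.subset_span (Set.mem_insert _ _)))
      (hx _ (Ideal.subset_span (Set.mem_insert_of_mem _ (Set.mem_insert _ _)))))
  have hhom : ∀ g ∈ Ideal.span S, ∀ n, homogeneousComponent n g ∈ Ideal.span S := by
    intro g hg n
    have h2 : (Ideal.span S).IsHomogeneous (homogeneousSubmodule (Fin (N + 1)) K) := by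
      refine Ideal.homogeneous_span _ _ fun x hx => ?_
      obtain ⟨e, he⟩ := hS x hx
      exact ⟨e, he⟩
    exact homogeneousComponent_mem_of_mem h2 hg n
  refine krull_le_of_rel2 _ l₀ l₁ r hr fun i => ?_
  have h2 := hX i
  rw [Ideal.mem_span_insert] at h2
  obtain ⟨a, z, hz, hza⟩ := h2
  rw [Ideal.mem_span_insert] at hz
  obtain ⟨b, g, hg, rfl⟩ := hz
  refine ⟨homogeneousComponent (r - 1) a, homogeneousComponent (r - 1) b, ?_, ?_, ?_⟩
  · refine lt_of_le_of_lt (homogeneousComponent_isHomogeneous _ _).totalDegree_le ?_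
    omega
  · refine lt_of_le_of_lt (homogeneousComponent_isHomogeneous _ _).totalDegree_le ?_
    omega
  · have h3 := congrArg (homogeneousComponent r) hza
    have h4 : homogeneousComponent r (X i ^ r : MvPolynomial (Fin (N + 1)) K) = X i ^ r := by
      rw [homogeneousComponent_of_mem ((mem_homogeneousSubmodule _ _).2 (isHomogeneous_X_pow i r)),
        if_pos rfl]
    have h5 : ∀ p l : MvPolynomial (Fin (N + 1)) K, l.IsHomogeneous 1 →
        homogeneousComponent r (p * l) = homogeneousComponent (r - 1) p * l := by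
      intro p l hl
      obtain ⟨r', rfl⟩ : ∃ r', r = r' + 1 := ⟨r - 1, by omega⟩
      rw [Nat.add_sub_cancel]
      exact homogeneousComponent_mul_of_homogeneous hl p r'
    rw [h4, map_add, map_add, h5 _ _ h0, h5 _ _ h1] at h3
    rw [h3]
    have h6 : homogeneousComponent (r - 1) a * l₀ +
        (homogeneousComponent (r - 1) b * l₁ + homogeneousComponent r g) -
        (homogeneousComponent (r - 1) a * l₀ + homogeneousComponent (r - 1) b * l₁) =
        homogeneousComponent r g := by ring
    rw [h6]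
    exact hhom g hg r

end Pool.Agent.Helper30.RED

end

section

namespace Pool.Agent.Helper36
end Pool.Agent.Helper36

/-!
# Intersections of unions of arithmetic progressions and gap sets
-/

set_option autoImplicit false

namespace Pool.Agent.Helper33.GC

open Pool.Agent.Helper36

/-- a finite union of arithmetic progressions is, up to finitely many exceptions, closed under
adding multiples of a suitable number -/
lemma APSet_evClosed (T : Finset (ℕ × ℕ)) :
    ∃ k : ℕ, 0 < k ∧ ∀ l : ℕ, {n ∈ APSet T | n + k * l ∉ APSet T}.Finite := by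
  classical
  refine ⟨∏ p ∈ T, (if p.1 = 0 then 1 else p.1), ?_, fun l => ?_⟩
  · refine Finset.prod_pos fun p _ => ?_
    split_ifs with h
    · exact Nat.one_pos
    · exact Nat.pos_of_ne_zero h
  · refine (T.image Prod.snd).finite_toSet.subset ?_
    rintro n ⟨⟨p, hp, m, rfl⟩, hn⟩
    rw [Finset.mem_coe, Finset.mem_image]
    refine ⟨p, hp, ?_⟩
    by_cases h0 : p.1 = 0
    · rw [h0, zero_mul, zero_add]
    · exfalso
      apply hn
      have hdvd : p.1 ∣ ∏ p ∈ T, (if p.1 = 0 then 1 else p.1) := by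
        have := Finset.dvd_prod_of_mem (fun p : ℕ × ℕ => if p.1 = 0 then 1 else p.1) hp
        simpa [h0] using this
      obtain ⟨c, hc⟩ := hdvd
      refine ⟨p, hp, m + c * l, ?_⟩
      rw [hc]
      ring

lemma APSet_inter (T T' : Finset (ℕ × ℕ)) : ∃ U, APSet T ∩ APSet T' = APSet U := by
  obtain ⟨k, hk, h⟩ := APSet_evClosed T
  obtain ⟨k', hk', h'⟩ := APSet_evClosed T'
  apply APSet_of_evClosed (k := k * k') (Nat.mul_pos hk hk')
  refine ((h k').union (h' k)).subset ?_
  rintro n ⟨⟨h1, h2⟩, h3⟩
  by_cases h4 : n + k * k' ∈ APSet T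
  · right
    refine ⟨h2, fun h5 => h3 ⟨h4, ?_⟩⟩
    rwa [mul_comm k k']
  · left
    exact ⟨h1, h4⟩

end Pool.Agent.Helper33.GC

end

section

/-!
# Project TG: places with a product formula, contact of points

`K` is a field with an admissible family of absolute values (Mathlib: heights), for instance a
number field. `ls f` is the sum of a function over all absolute values of the family (with
multiplicity); `FS f` says that `f` vanishes at almost all non-archimedean absolute values.
-/

set_option autoImplicit false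

namespace Pool.Agent.Helper29.TG

open Height AdmissibleAbsValues

variable {K : Type} [Field K]

/-- The maximum norm of a vector. -/
noncomputable def nm {ι : Type} (v : AbsoluteValue K ℝ) (x : ι → K) : ℝ := ⨆ i, v (x i)

variable [AdmissibleAbsValues K]

end Pool.Agent.Helper29.TG

end
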