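import Mathlib

section

/-!
# Divisors of forms are forms
-/

set_option autoImplicit false
open MvPolynomial

namespace Pool.Agent.Helper30.TP

section forms

variable {σ : Type} {K : Type*} [CommRing K]

/-- the homomorphism `f(x) ↦ f(λ x)` -/
noncomputable def Gam : MvPolynomial σ K →ₐ[K] Polynomial (MvPolynomial σ K) :=
  aeval (fun i => Polynomial.X * Polynomial.C (X i))

lemma Gam_monomial (u : σ →₀ ℕ) (a : K) :
    Gam (monomial u a) = Polynomial.monomial u.degree (monomial u a) := by
  induction u using Finsupp.induction_linear generalizing a with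
  | zero =>
    have h1 : (monomial 0 a : MvPolynomial σ K) = algebraMap K _ a := rfl
    rw [h1, AlgHom.commutes, map_zero]
    rfl
  | add f g hf hg =>
    have h1 : (monomial (f + g) a : MvPolynomial σ K) = monomial f a * monomial g 1 := by
      rw [monomial_mul, mul_one]
    rw [h1, map_mul, hf, hg, Polynomial.monomial_mul_monomial, map_add]
  | single i n =>
    have h1 : (monomial (Finsupp.single i n) a : MvPolynomial σ K) = C a * X i ^ n := by
      rw [X_pow_eq_monomial, C_mul_monomial, mul_one]
    have h2 : Gam (C a : MvPolynomial σ K) = Polynomial.C (C a) := by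
      rw [← algebraMap_eq, AlgHom.commutes]; rfl
    rw [h1, map_mul, map_pow, h2, Finsupp.degree_single]
    have h3 : Gam (X i : MvPolynomial σ K) = Polynomial.X * Polynomial.C (X i) := by simp [Gam]
    rw [h3, mul_pow, ← Polynomial.C_mul_X_pow_eq_monomial, Polynomial.C_mul, Polynomial.C_pow]
    ring

lemma Gam_coeff (f : MvPolynomial σ K) (n : ℕ) :
    (Gam f).coeff n = homogeneousComponent n f := by
  classical
  induction f using MvPolynomial.induction_on' with
  | monomial u a =>
    rw [Gam_monomial, Polynomial.coeff_monomial,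
      homogeneousComponent_of_mem (isHomogeneous_monomial a rfl)]
    by_cases h : u.degree = n
    · rw [if_pos h, if_pos h.symm]
    · rw [if_neg h, if_neg (Ne.symm h)]
  | add f g hf hg => rw [map_add, Polynomial.coeff_add, hf, hg, map_add]

lemma Gam_form {f : MvPolynomial σ K} {d : ℕ} (hf : f.IsHomogeneous d) :
    Gam f = Polynomial.C f * Polynomial.X ^ d := by
  ext1 n
  rw [Gam_coeff, Polynomial.coeff_C_mul_X_pow, homogeneousComponent_of_mem hf]

/-- divisors of forms are forms -/
lemma form_of_mul [IsDomain K] {f a b : MvPolynomial σ K} {d : ℕ} (hf : f.IsHomogeneous d)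
    (h0 : f ≠ 0) (hab : f = a * b) :
    ∃ i j : ℕ, a.IsHomogeneous i ∧ b.IsHomogeneous j ∧ i + j = d := by
  have ha0 : a ≠ 0 := by rintro rfl; exact h0 (by rw [hab, zero_mul])
  have hb0 : b ≠ 0 := by rintro rfl; exact h0 (by rw [hab, mul_zero])
  have hinj : Function.Injective (Gam : MvPolynomial σ K →ₐ[K] _) := by
    intro u v huv
    ext m
    have h1 := congrArg (fun q => coeff m (Polynomial.coeff q m.degree)) huv
    simp only [Gam_coeff, coeff_homogeneousComponent, if_pos] at h1
    exact h1
  have hGa : Gam a ≠ 0 := fun h => ha0 (hinj (by rw [h, map_zero]))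
  have hGb : Gam b ≠ 0 := fun h => hb0 (hinj (by rw [h, map_zero]))
  have h1 : Gam a * Gam b = Polynomial.C f * Polynomial.X ^ d := by
    rw [← map_mul, ← hab, Gam_form hf]
  have h2 : (Gam a).natDegree + (Gam b).natDegree = d := by
    rw [← Polynomial.natDegree_mul hGa hGb, h1, Polynomial.natDegree_C_mul_X_pow _ _ h0]
  have h3 : (Gam a).natTrailingDegree + (Gam b).natTrailingDegree = d := by
    rw [← Polynomial.natTrailingDegree_mul hGa hGb, h1, Polynomial.C_mul_X_pow_eq_monomial,
      Polynomial.natTrailingDegree_monomial h0]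
  have h4 := Polynomial.natTrailingDegree_le_natDegree (Gam a)
  have h5 := Polynomial.natTrailingDegree_le_natDegree (Gam b)
  have key : ∀ c : MvPolynomial σ K, (Gam c).natTrailingDegree = (Gam c).natDegree →
      c.IsHomogeneous (Gam c).natDegree := by
    intro c hc
    have h6 : ∀ n, n ≠ (Gam c).natDegree → homogeneousComponent n c = 0 := by
      intro n hn
      rw [← Gam_coeff]
      rcases lt_or_gt_of_ne hn with h | h
      · exact Polynomial.coeff_eq_zero_of_lt_natTrailingDegree (by omega)
      · exact Polynomial.coeff_eq_zero_of_natDegree_lt h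
    rw [← sum_homogeneousComponent c]
    have h7 : ∀ i ∈ Finset.range (c.totalDegree + 1), (homogeneousComponent i c).IsHomogeneous
        (Gam c).natDegree := by
      intro i _
      by_cases hi : i = (Gam c).natDegree
      · rw [← hi]; exact homogeneousComponent_isHomogeneous _ _
      · rw [h6 i hi]; exact isHomogeneous_zero _ _ _
    have h8 := IsHomogeneous.sum (Finset.range (c.totalDegree + 1))
      (fun i => homogeneousComponent i c) _ h7
    rwa [sum_homogeneousComponent c] at h8 ⊢
  refine ⟨_, _, key a (by omega), key b (by omega), h2⟩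

end forms

end Pool.Agent.Helper30.TP

end

section

/-!
# An elementary form of the Strassmann / Hansel argument

Let `R` be a local domain of characteristic zero with a rational prime `p` in its maximal ideal and
with `⋂ p^k R = 0`.  If `β : ℕ → R` is given by a Mahler expansion
`β n = ∑ m, c m * p^(2 m) * (n choose m)` and vanishes infinitely often, then `β = 0`.
-/

set_option autoImplicit false

open Polynomial Finset

namespace Pool.Agent.Helper37

section Hansel

variable {R : Type*} [CommRing R]

/-- division by a monic linear factor keeps divisibility of the upper coefficients -/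
lemma coeff_dvd_of_X_sub_C_mul (a t : R) (Q : R[X]) (j : ℕ)
    (h : ∀ i, j + 1 ≤ i → a ∣ ((X - C t) * Q).coeff i) :
    ∀ i, j ≤ i → a ∣ Q.coeff i := by
  -- descending induction
  have key : ∀ k i, Q.natDegree + 1 ≤ i + k → j ≤ i → a ∣ Q.coeff i := by
    intro k
    induction k with
    | zero =>
      intro i hi _
      rw [coeff_eq_zero_of_natDegree_lt (by omega)]
      exact dvd_zero _
    | succ k ih =>
      intro i hi hj
      have h1 := ih (i + 1) (by omega) (by omega)
      have h2 := h (i + 1) (by omega)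
      have h3 : ((X - C t) * Q).coeff (i + 1) = Q.coeff i - t * Q.coeff (i + 1) := by
        rw [sub_mul, coeff_sub, coeff_X_mul, coeff_C_mul]
      rw [h3] at h2
      have := dvd_add h2 (Dvd.dvd.mul_left h1 t)
      simpa using this
  intro i hi
  exact key (Q.natDegree + 1) i (by omega) hi

/-- dividing by a product of monic linear factors -/
lemma coeff_dvd_of_prod_mul (a : R) (s : Finset R) (Q : R[X]) (j : ℕ)
    (h : ∀ i, j + s.card ≤ i → a ∣ ((∏ t ∈ s, (X - C t)) * Q).coeff i) :
    ∀ i, j ≤ i → a ∣ Q.coeff i := by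
  classical
  induction s using Finset.induction_on generalizing Q j with
  | empty => simpa using h
  | insert t s hts ih =>
    rw [Finset.card_insert_of_notMem hts] at h
    have h1 : ∀ i, (j + 1) + s.card ≤ i → a ∣ ((∏ t ∈ s, (X - C t)) * ((X - C t) * Q)).coeff i := by
      intro i hi
      have := h i (by omega)
      rw [Finset.prod_insert hts] at this
      convert this using 2
      ring
    exact coeff_dvd_of_X_sub_C_mul a t Q j (ih _ _ h1)

/-- if all coefficients of index `≥ #s` of `P` are divisible by `a` and `P` vanishes on `s`, then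
all values of `P` are divisible by `a` -/
lemma dvd_eval_of_roots [IsDomain R] (a : R) (P : R[X]) (s : Finset R)
    (hs : ∀ t ∈ s, P.eval t = 0) (h : ∀ i, s.card ≤ i → a ∣ P.coeff i) (x : R) :
    a ∣ P.eval x := by
  classical
  by_cases hP : P = 0
  · simp [hP]
  have hdvd : (∏ t ∈ s, (X - C t)) ∣ P := by
    have h1 : (s.val.map fun t => X - C t).prod ∣ P := by
      rw [Multiset.prod_X_sub_C_dvd_iff_le_roots hP]
      rw [Multiset.le_iff_subset s.nodup]
      intro t ht
      rw [mem_roots hP]
      exact hs t (by simpa using ht)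
    exact h1
  obtain ⟨Q, rfl⟩ := hdvd
  have h2 := coeff_dvd_of_prod_mul a s Q 0 (by simpa using h)
  rw [eval_mul]
  apply Dvd.dvd.mul_left
  rw [eval_eq_sum_range]
  apply Finset.dvd_sum
  intro i _
  exact Dvd.dvd.mul_right (h2 i (Nat.zero_le _)) _

variable [IsLocalRing R]

/-- an integer prime to `p` is a unit of `R` -/
lemma isUnit_natCast_of_not_dvd (p : ℕ) (hp : p.Prime) (hpR : (p : R) ∈ IsLocalRing.maximalIdeal R)
    (u : ℕ) (hu : ¬ p ∣ u) : IsUnit (u : R) := by
  have hc : Nat.Coprime u p := ((Nat.Prime.coprime_iff_not_dvd hp).2 hu).symm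
  have h1 : (Nat.gcdA u p : R) * u + (Nat.gcdB u p : R) * p = 1 := by
    have h := Nat.gcd_eq_gcd_ab u p
    rw [hc.gcd_eq_one] at h
    have h' := congrArg (fun z : ℤ => (z : R)) h
    push_cast at h'
    rw [h']
    ring
  by_contra hne
  have h2 : (u : R) ∈ IsLocalRing.maximalIdeal R := by
    rw [IsLocalRing.mem_maximalIdeal]; exact hne
  have h3 : (1 : R) ∈ IsLocalRing.maximalIdeal R := by
    rw [← h1]
    exact Ideal.add_mem _ (Ideal.mul_mem_left _ _ h2) (Ideal.mul_mem_left _ _ hpR)
  exact (Ideal.ne_top_iff_one _).1 (IsLocalRing.maximalIdeal.isMaximal R).ne_top h3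

/-- `m!` divides `p^m` in `R` -/
lemma factorial_dvd_pow (p : ℕ) (hp : p.Prime) (hpR : (p : R) ∈ IsLocalRing.maximalIdeal R)
    (m : ℕ) : ((m.factorial : ℕ) : R) ∣ (p : R) ^ m := by
  have := Fact.mk hp
  obtain ⟨e, u, hu, he⟩ := Nat.exists_eq_pow_mul_and_not_dvd (Nat.factorial_ne_zero m) p hp.ne_one
  have hle : e ≤ m := by
    have h1 : e = padicValNat p m.factorial := by
      rw [he, padicValNat.mul (pow_ne_zero _ hp.ne_zero) (by rintro rfl; simp at hu),
        padicValNat.prime_pow, padicValNat.eq_zero_of_not_dvd hu, add_zero]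
    have h2 := sub_one_mul_padicValNat_factorial (p := p) m
    have h3 : 1 * padicValNat p m.factorial ≤ (p - 1) * padicValNat p m.factorial :=
      Nat.mul_le_mul_right _ (by have := hp.two_le; omega)
    rw [h1]
    omega
  have hU := isUnit_natCast_of_not_dvd p hp hpR u hu
  rw [he]
  push_cast
  obtain ⟨v, hv⟩ := hU
  refine ⟨(v⁻¹ : Rˣ) * (p : R) ^ (m - e), ?_⟩
  calc (p : R) ^ m = (p : R) ^ e * (p : R) ^ (m - e) := by rw [← pow_add]; congr 1; omega
    _ = (p : R) ^ e * (u : R) * ((v⁻¹ : Rˣ) * (p : R) ^ (m - e)) := by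
      rw [← hv]
      have : (v : R) * (v⁻¹ : Rˣ) = 1 := by simp
      calc (p : R) ^ e * (p : R) ^ (m - e) = (p : R) ^ e * ((v : R) * (v⁻¹ : Rˣ)) * (p : R) ^ (m - e) := by
            rw [this, mul_one]
        _ = _ := by ring

/-- **Hansel's lemma**. -/
theorem hansel [IsDomain R] [CharZero R] (p : ℕ) (hp : p.Prime)
    (hpR : (p : R) ∈ IsLocalRing.maximalIdeal R)
    (hsep : ∀ x : R, (∀ k : ℕ, (p : R) ^ k ∣ x) → x = 0)
    (β c : ℕ → R)
    (hβ : ∀ n, β n = ∑ m ∈ range (n + 1), c m * (p : R) ^ (2 * m) * (n.choose m : R))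
    (hinf : {n : ℕ | β n = 0}.Infinite) : ∀ n, β n = 0 := by
  classical
  choose e he using fun m => factorial_dvd_pow (R := R) p hp hpR m
  intro n
  apply hsep
  intro k
  -- choose k zeros
  obtain ⟨Z, hZ, hZc⟩ := hinf.exists_subset_card_eq k
  -- bound
  obtain ⟨M, hM⟩ : ∃ M, n ≤ M ∧ ∀ z ∈ Z, z ≤ M := by
    refine ⟨max n (Z.sup id), le_max_left _ _, fun z hz => le_max_of_le_right ?_⟩
    exact Finset.le_sup (f := id) hz
  let P : R[X] := ∑ m ∈ range (M + 1), C (c m * (p : R) ^ m * e m) * descPochhammer R m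
  have hcoeff : ∀ i, (p : R) ^ i ∣ P.coeff i := by
    intro i
    simp only [P, finsetSum_coeff, coeff_C_mul]
    apply Finset.dvd_sum
    intro m _
    by_cases hmi : i ≤ m
    · apply Dvd.dvd.mul_right
      apply Dvd.dvd.mul_right
      apply Dvd.dvd.mul_left
      exact pow_dvd_pow _ hmi
    · rw [coeff_eq_zero_of_natDegree_lt (by
        have := descPochhammer_natDegree (R := R) m
        omega)]
      simp
  have heval : ∀ x : ℕ, x ≤ M → P.eval (x : R) = β x := by
    intro x hx
    simp only [P, eval_finsetSum, eval_mul, eval_C]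
    rw [hβ x]
    have hsub : range (x + 1) ⊆ range (M + 1) := by
      intro y hy; simp only [Finset.mem_range] at hy ⊢; omega
    rw [← Finset.sum_subset hsub]
    · apply Finset.sum_congr rfl
      intro m _
      rw [descPochhammer_eval_eq_descFactorial, Nat.descFactorial_eq_factorial_mul_choose]
      push_cast
      have := he m
      calc c m * (p : R) ^ m * e m * ((m.factorial : R) * (x.choose m : R))
          = c m * (p : R) ^ m * ((m.factorial : R) * e m) * (x.choose m : R) := by ring
        _ = c m * (p : R) ^ m * (p : R) ^ m * (x.choose m : R) := by rw [← this]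
        _ = _ := by ring
    · intro m hm hm'
      simp only [Finset.mem_range] at hm hm'
      rw [descPochhammer_eval_eq_descFactorial, Nat.descFactorial_of_lt (by omega)]
      simp
  rw [← heval n hM.1]
  have hcard : (Z.image (fun z : ℕ => (z : R))).card = k := by
    rw [Finset.card_image_of_injective _ Nat.cast_injective, hZc]
  apply dvd_eval_of_roots _ _ (Z.image (fun z : ℕ => (z : R)))
  · intro t ht
    simp only [Finset.mem_image] at ht
    obtain ⟨z, hz, rfl⟩ := ht
    rw [heval z (hM.2 z hz)]
    exact hZ hz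
  · intro i hi
    rw [hcard] at hi
    exact (pow_dvd_pow _ hi).trans (hcoeff i)

end Hansel

end Pool.Agent.Helper37

end

section

/-!
# The `p`-adic engine for return sets of polynomial maps with unit Jacobian along an orbit
-/

set_option autoImplicit false

open MvPolynomial Finset

namespace Pool.Agent.Helper37

section Basic

variable {R : Type*} [CommRing R] {σ : Type*}

/-- one step of the polynomial self-map `F` of affine space, over an `R`-algebra `S` -/
noncomputable def step (F : σ → MvPolynomial σ R) {S : Type*} [CommRing S] [Algebra R S]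
    (x : σ → S) : σ → S := fun i => aeval x (F i)

lemma step_map (F : σ → MvPolynomial σ R) {S S' : Type*} [CommRing S] [Algebra R S]
    [CommRing S'] [Algebra R S'] (φ : S →ₐ[R] S') (x : σ → S) :
    step F (fun i => φ (x i)) = fun i => φ (step F x i) := by
  funext i
  simp only [step]
  rw [← MvPolynomial.comp_aeval_apply]

lemma step_iterate_map (F : σ → MvPolynomial σ R) {S S' : Type*} [CommRing S] [Algebra R S]
    [CommRing S'] [Algebra R S'] (φ : S →ₐ[R] S') (n : ℕ) (x : σ → S) :
    (step F)^[n] (fun i => φ (x i)) = fun i => φ ((step F)^[n] x i) := by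
  induction n generalizing x with
  | zero => rfl
  | succ n ih =>
    rw [Function.iterate_succ_apply, Function.iterate_succ_apply, step_map, ih]

/-- first order Taylor expansion -/
lemma taylor [Fintype σ] {S : Type*} [CommRing S] [Algebra R S] (q : S) (a w : σ → S)
    (P : MvPolynomial σ R) :
    ∃ r : S, aeval (fun i => a i + q * w i) P
      = aeval a P + q * (∑ j, aeval a (pderiv j P) * w j) + q ^ 2 * r := by
  classical
  induction P using MvPolynomial.induction_on with
  | C c => exact ⟨0, by simp⟩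
  | add P Q hP hQ =>
    obtain ⟨r, hr⟩ := hP
    obtain ⟨s, hs⟩ := hQ
    refine ⟨r + s, ?_⟩
    rw [map_add, hr, hs, map_add]
    simp only [map_add, add_mul, Finset.sum_add_distrib]
    ring
  | mul_X P i hP =>
    obtain ⟨r, hr⟩ := hP
    refine ⟨r * a i + (∑ j, aeval a (pderiv j P) * w j) * w i + q * r * w i, ?_⟩
    rw [map_mul, hr, aeval_X, map_mul, aeval_X]
    have h1 : ∑ j, aeval a (pderiv j (P * X i)) * w j
        = (∑ j, aeval a (pderiv j P) * w j) * a i + aeval a P * w i := by
      have h2 : ∀ j, aeval a (pderiv j (P * X i)) * w j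
          = aeval a (pderiv j P) * w j * a i + aeval a P * (if j = i then w i else 0) := by
        intro j
        rw [Derivation.leibniz, pderiv_X]
        by_cases hji : j = i
        · subst hji
          simp
          ring
        · rw [Pi.single_eq_of_ne (Ne.symm hji)]
          simp [hji]
          ring
      simp only [h2, Finset.sum_add_distrib, ← Finset.sum_mul, ← Finset.mul_sum]
      simp
    rw [h1]
    ring

/-- the Jacobian matrix of the polynomial map `F` at `x` -/
noncomputable def jac (F : σ → MvPolynomial σ R) (x : σ → R) : Matrix σ σ R :=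
  Matrix.of fun i j => eval x (pderiv j (F i))

end Basic

section Orbit

variable {R : Type*} [CommRing R] {σ : Type*} [Fintype σ] [DecidableEq σ]

/-- Jacobian of the `n`-th iterate at `x` (as a product of Jacobians along the orbit) -/
noncomputable def jprod (F : σ → MvPolynomial σ R) (x : σ → R) : ℕ → Matrix σ σ R
  | 0 => 1
  | n + 1 => jac F ((step F)^[n] x) * jprod F x n

lemma jprod_add (F : σ → MvPolynomial σ R) (x : σ → R) (n k : ℕ) :
    jprod F x (n + k) = jprod F ((step F)^[n] x) k * jprod F x n := by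
  induction k with
  | zero => simp [jprod]
  | succ k ih =>
    rw [← add_assoc]
    simp only [jprod]
    rw [ih, ← Function.iterate_add_apply, add_comm n k, Matrix.mul_assoc]

lemma isUnit_det_jprod (F : σ → MvPolynomial σ R) (x : σ → R)
    (h : ∀ n, IsUnit (jac F ((step F)^[n] x)).det) (n : ℕ) : IsUnit (jprod F x n).det := by
  induction n with
  | zero => simp [jprod]
  | succ n ih => simp only [jprod]; rw [Matrix.det_mul]; exact (h n).mul ih

/-- Taylor expansion of iterates at the generic point of a residue polydisc -/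
lemma iterate_taylor (F : σ → MvPolynomial σ R) (a : σ → R) (q : R) (n : ℕ) :
    ∃ r : σ → MvPolynomial σ R,
      (step F)^[n] (fun i => (C (a i) + C q * X i : MvPolynomial σ R))
        = fun i => C ((step F)^[n] a i) + C q * (∑ j, C (jprod F a n i j) * X j)
            + C q ^ 2 * r i := by
  induction n with
  | zero =>
    refine ⟨0, ?_⟩
    funext i
    simp [jprod, Matrix.one_apply]
  | succ n ih =>
    obtain ⟨r, hr⟩ := ih
    set b := (step F)^[n] a with hb
    set w : σ → MvPolynomial σ R := fun i => (∑ j, C (jprod F a n i j) * X j) + C q * r i with hw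
    have h1 : (step F)^[n] (fun i => (C (a i) + C q * X i : MvPolynomial σ R))
        = fun i => C (b i) + C q * w i := by
      rw [hr]; funext i; simp only [hw]; ring
    have h2 : ∀ i, ∃ s : MvPolynomial σ R, aeval (fun i => (C (b i) + C q * w i)) (F i)
        = C (eval b (F i)) + C q * (∑ j, C (eval b (pderiv j (F i))) * w j) + C q ^ 2 * s := by
      intro i
      obtain ⟨s, hs⟩ := taylor (R := R) (C q : MvPolynomial σ R) (fun i => C (b i)) w (F i)
      refine ⟨s, ?_⟩
      rw [hs]
      have h3 : ∀ P : MvPolynomial σ R, aeval (fun i => (C (b i) : MvPolynomial σ R)) P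
          = C (eval b P) := by
        intro P
        have := MvPolynomial.aeval_algebraMap_apply (MvPolynomial σ R) b P
        simpa [MvPolynomial.algebraMap_eq, MvPolynomial.coe_aeval_eq_eval, Function.comp_def] using this
      simp only [h3]
    choose s hs using h2
    refine ⟨fun i => (∑ j, C (eval b (pderiv j (F i))) * r j) + s i, ?_⟩
    rw [Function.iterate_succ_apply', h1]
    funext i
    simp only [step]
    rw [hs i]
    have h4 : (step F)^[n + 1] a i = eval b (F i) := by
      rw [Function.iterate_succ_apply', ← hb]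
      simp [step]
    rw [h4]
    have h5 : (∑ j, C (eval b (pderiv j (F i))) * w j : MvPolynomial σ R)
        = (∑ j, C (jprod F a (n + 1) i j) * X j)
          + C q * (∑ j, C (eval b (pderiv j (F i))) * r j) := by
      simp only [hw, mul_add, Finset.sum_add_distrib]
      congr 1
      · simp only [jprod, Matrix.mul_apply, jac, Matrix.of_apply, map_sum, map_mul, Finset.sum_mul,
          Finset.mul_sum]
        rw [Finset.sum_comm]
        refine Finset.sum_congr rfl fun j _ => Finset.sum_congr rfl fun k _ => ?_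
        rw [hb]; ring
      · rw [Finset.mul_sum]
        refine Finset.sum_congr rfl fun j _ => by ring
    rw [h5]
    ring

/-- Periodicity of residues and Jacobians along the orbit: after some time `n₀`, a suitable iterate
`F^k` is congruent to the identity modulo `q` on the residue polydisc of `b = F^{n₀}(a)`. -/
lemma exists_return (F : σ → MvPolynomial σ R) (a : σ → R) (q : R)
    [Finite (R ⧸ Ideal.span {q ^ 2})] [Finite (R ⧸ Ideal.span {q})]
    (h : ∀ n, IsUnit (jac F ((step F)^[n] a)).det) :
    ∃ n₀ k, 0 < k ∧ ∃ r : σ → MvPolynomial σ R,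
      (step F)^[k] (fun i => (C ((step F)^[n₀] a i) + C q * X i : MvPolynomial σ R))
        = fun i => C ((step F)^[n₀] a i) + C q * (X i + C q * r i) := by
  classical
  let st : ℕ → (σ → R ⧸ Ideal.span {q ^ 2}) × (Matrix σ σ (R ⧸ Ideal.span {q})) := fun n =>
    (fun i => Ideal.Quotient.mk _ ((step F)^[n] a i), (jprod F a n).map (Ideal.Quotient.mk _))
  obtain ⟨n, n', hne, heq⟩ := Finite.exists_ne_map_eq_of_infinite st
  wlog hlt : n < n' generalizing n n'
  · exact this n' n hne.symm heq.symm (by omega)
  obtain ⟨k, rfl⟩ : ∃ k, n' = n + k := ⟨n' - n, by omega⟩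
  refine ⟨n, k, by omega, ?_⟩
  set b := (step F)^[n] a with hb
  obtain ⟨r, hr⟩ := iterate_taylor F b q k
  have hst1 : ∀ i, q ^ 2 ∣ (step F)^[k] b i - b i := by
    intro i
    have h1 := congrFun (congrArg Prod.fst heq) i
    simp only [st] at h1
    rw [Ideal.Quotient.eq, Ideal.mem_span_singleton] at h1
    rw [add_comm n k, Function.iterate_add_apply, ← hb] at h1
    rw [← neg_sub]
    exact (dvd_neg).2 h1
  have hst2 : ∀ i j, q ∣ (jprod F a (n + k) - jprod F a n) i j := by
    intro i j
    have h1 := congrFun (congrFun (congrArg Prod.snd heq) i) j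
    simp only [st, Matrix.map_apply] at h1
    rw [Ideal.Quotient.eq, Ideal.mem_span_singleton] at h1
    rw [Matrix.sub_apply, ← neg_sub]
    exact (dvd_neg).2 h1
  have hst3 : ∀ i j, q ∣ (jprod F b k - 1) i j := by
    intro i j
    have hu := isUnit_det_jprod F a h n
    have h2 : (jprod F b k - 1) = (jprod F a (n + k) - jprod F a n) * (jprod F a n)⁻¹ := by
      rw [jprod_add, ← hb]
      have : jprod F b k * jprod F a n - jprod F a n = (jprod F b k - 1) * jprod F a n := by
        rw [Matrix.sub_mul, Matrix.one_mul]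
      rw [this, Matrix.mul_assoc, Matrix.mul_nonsing_inv _ hu, Matrix.mul_one]
    rw [h2, Matrix.mul_apply]
    apply Finset.dvd_sum
    intro l _
    exact Dvd.dvd.mul_right (hst2 i l) _
  choose c hc using hst1
  choose e he using hst3
  refine ⟨fun i => C (c i) + (∑ j, C (e i j) * X j) + r i, ?_⟩
  rw [hr]
  funext i
  have h1 : (step F)^[k] b i = b i + q ^ 2 * c i := by rw [← hc i]; ring
  have h2 : ∀ j, jprod F b k i j = (1 : Matrix σ σ R) i j + q * e i j := by
    intro j; rw [← he i j, Matrix.sub_apply]; ring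
  rw [h1]
  simp only [h2, map_add, map_mul, add_mul, Finset.sum_add_distrib]
  have h3 : (∑ j, C ((1 : Matrix σ σ R) i j) * X j : MvPolynomial σ R) = X i := by
    simp [Matrix.one_apply]
  have h4 : (∑ j, C q * C (e i j) * X j : MvPolynomial σ R) = C q * ∑ j, C (e i j) * X j := by
    rw [Finset.mul_sum]; exact Finset.sum_congr rfl fun j _ => by ring
  rw [h3, h4, map_pow]
  ring

end Orbit

section Mahler

variable {R : Type*} [CommRing R] {σ : Type*}

lemma dvd_aeval_sub (q : R) (r : σ → MvPolynomial σ R) (P : MvPolynomial σ R) :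
    (C q : MvPolynomial σ R) ∣ aeval (fun i => (X i + C q * r i : MvPolynomial σ R)) P - P := by
  induction P using MvPolynomial.induction_on with
  | C c => simp [MvPolynomial.algebraMap_eq]
  | add P Q hP hQ =>
    have := dvd_add hP hQ
    rw [map_add]
    convert this using 1
    ring
  | mul_X P i hP =>
    obtain ⟨s, hs⟩ := hP
    refine ⟨s * X i + (P + C q * s) * r i, ?_⟩
    rw [map_mul, aeval_X]
    have : aeval (fun i => (X i + C q * r i : MvPolynomial σ R)) P = P + C q * s := by
      rw [← hs]; ring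
    rw [this]
    ring

/-- Mahler expansion of a polynomial along the orbit of a map congruent to the identity. -/
lemma exists_mahler (q : R) (r : σ → MvPolynomial σ R) (u : ℕ → σ → R)
    (hu : ∀ s, u (s + 1) = fun i => eval (u s) (X i + C q * r i)) (g : MvPolynomial σ R) :
    ∃ c : ℕ → R, ∀ n, eval (u n) g = ∑ m ∈ range (n + 1), c m * q ^ m * (n.choose m : R) := by
  let T : Module.End R (MvPolynomial σ R) :=
    (aeval (fun i => (X i + C q * r i : MvPolynomial σ R))).toLinearMap
  let D : Module.End R (MvPolynomial σ R) := T - 1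
  have hD : ∀ m P, (C q : MvPolynomial σ R) ^ m ∣ (D ^ m) P := by
    intro m
    induction m with
    | zero => intro P; simp
    | succ m ih =>
      intro P
      rw [pow_succ' D m, pow_succ' (C q : MvPolynomial σ R) m]
      change _ ∣ D ((D ^ m) P)
      obtain ⟨s, hs⟩ := ih P
      rw [hs]
      have h1 : D (C q ^ m * s) = C q ^ m * D s := by
        simp only [D, T, LinearMap.sub_apply, Module.End.one_apply, AlgHom.toLinearMap_apply,
          map_mul, map_pow]
        have : aeval (fun i => (X i + C q * r i : MvPolynomial σ R)) (C q : MvPolynomial σ R) = C q := by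
          simp [MvPolynomial.algebraMap_eq]
        rw [this]; ring
      rw [h1, mul_comm (C q) (C q ^ m)]
      exact mul_dvd_mul_left _ (dvd_aeval_sub q r s)
  have hT : ∀ n P, eval (u n) P = eval (u 0) ((T ^ n) P) := by
    intro n
    induction n with
    | zero => intro P; simp
    | succ n ih =>
      intro P
      rw [pow_succ]
      change _ = eval (u 0) ((T ^ n) (T P))
      rw [← ih (T P), hu n]
      have h := MvPolynomial.comp_aeval_apply (R := R)
        (f := fun i => (X i + C q * r i : MvPolynomial σ R))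
        (aeval (u n) : MvPolynomial σ R →ₐ[R] R) P
      simp only [MvPolynomial.aeval_eq_eval] at h
      simp only [T, AlgHom.toLinearMap_apply]
      exact h.symm
  choose c hc using fun m => hD m g
  refine ⟨fun m => eval (u 0) (c m), fun n => ?_⟩
  rw [hT n g]
  have h1 : T = D + 1 := by simp [D]
  rw [h1, (Commute.one_right D).add_pow]
  simp only [LinearMap.sum_apply, map_sum, one_pow, mul_one]
  refine Finset.sum_congr rfl fun m _ => ?_
  have h2 : (D ^ m * ((n.choose m : ℕ) : Module.End R (MvPolynomial σ R))) g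
      = (n.choose m : MvPolynomial σ R) * ((D ^ m) g) := by
    change (D ^ m) (((n.choose m : ℕ) : Module.End R (MvPolynomial σ R)) g) = _
    rw [Module.End.natCast_apply, map_nsmul, nsmul_eq_mul]
  rw [h2, hc m]
  simp
  ring

end Mahler

end Pool.Agent.Helper37

end

section

set_option autoImplicit false

open MvPolynomial Finset

namespace Pool.Agent.Helper37

section Main

variable {R : Type*} [CommRing R] {σ : Type*} [Fintype σ] [DecidableEq σ]

/-- **The engine.**  If `F` has unit Jacobian along the orbit of `a`, then the orbit can be cut into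
finitely many progressions on each of which every polynomial vanishes either everywhere or only
finitely often. -/
theorem finite_or_all [IsDomain R] [CharZero R] [IsLocalRing R] (p : ℕ) (hp : p.Prime)
    (hpR : (p : R) ∈ IsLocalRing.maximalIdeal R)
    (hsep : ∀ x : R, (∀ k : ℕ, (p : R) ^ k ∣ x) → x = 0)
    [Finite (R ⧸ Ideal.span {((p : R) ^ 2) ^ 2})] [Finite (R ⧸ Ideal.span {(p : R) ^ 2})]
    (F : σ → MvPolynomial σ R) (a : σ → R)
    (h : ∀ n, IsUnit (jac F ((step F)^[n] a)).det) :
    ∃ n₀ k, 0 < k ∧ ∀ (G : MvPolynomial σ R) (m : ℕ), n₀ ≤ m →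
      {s : ℕ | eval ((step F)^[m + k * s] a) G = 0}.Infinite →
      ∀ s, eval ((step F)^[m + k * s] a) G = 0 := by
  obtain ⟨n₀, k, hk, r, hr⟩ := exists_return F a ((p : R) ^ 2) h
  refine ⟨n₀, k, hk, ?_⟩
  intro G m hm
  obtain ⟨m', rfl⟩ : ∃ m', m = n₀ + m' := ⟨m - n₀, by omega⟩
  set b := (step F)^[n₀] a with hb
  set q : R := (p : R) ^ 2 with hq
  let u : ℕ → σ → R := fun s => Nat.rec (0 : σ → R) (fun _ v i => eval v (X i + C q * r i)) s
  have hu : ∀ s, u (s + 1) = fun i => eval (u s) (X i + C q * r i) := fun s => rfl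
  have hstep : ∀ n (v : σ → R), (step F)^[n] (fun i => b i + q * v i)
      = fun i => eval v ((step F)^[n] (fun i => (C (b i) + C q * X i : MvPolynomial σ R)) i) := by
    intro n v
    have h1 := step_iterate_map F (aeval v : MvPolynomial σ R →ₐ[R] R) n
      (fun i => (C (b i) + C q * X i : MvPolynomial σ R))
    simp only [MvPolynomial.aeval_eq_eval] at h1
    have h2 : (fun i => b i + q * v i)
        = fun i => eval v (C (b i) + C q * X i : MvPolynomial σ R) := by
      funext i; simp
    rw [h2]
    exact h1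
  have horb : ∀ s, (step F)^[k * s] b = fun i => b i + q * u s i := by
    intro s
    induction s with
    | zero => funext i; simp [u]
    | succ s ih =>
      rw [Nat.mul_succ, add_comm, Function.iterate_add_apply, ih, hstep k (u s), hr, hu s]
      funext i
      simp
  set g : MvPolynomial σ R :=
    aeval ((step F)^[m'] (fun i => (C (b i) + C q * X i : MvPolynomial σ R))) G with hg
  have hval : ∀ s, eval ((step F)^[n₀ + m' + k * s] a) G = eval (u s) g := by
    intro s
    have h1 : (step F)^[n₀ + m' + k * s] a = (step F)^[m'] ((step F)^[k * s] b) := by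
      rw [hb, ← Function.iterate_add_apply, ← Function.iterate_add_apply]
      congr 1
      ring
    rw [h1, horb s, hstep m' (u s), hg]
    have h2 := MvPolynomial.comp_aeval_apply (R := R)
        (f := (step F)^[m'] (fun i => (C (b i) + C q * X i : MvPolynomial σ R)))
        (aeval (u s) : MvPolynomial σ R →ₐ[R] R) G
    simp only [MvPolynomial.aeval_eq_eval] at h2
    exact h2.symm
  intro hinf s
  obtain ⟨c, hc⟩ := exists_mahler q r u hu g
  rw [hval]
  refine hansel p hp hpR hsep (fun n => eval (u n) g) c ?_ ?_ s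
  · intro n
    change eval (u n) g = _
    rw [hc n]
    refine Finset.sum_congr rfl fun m _ => ?_
    rw [hq, ← pow_mul]
  · refine hinf.mono ?_
    intro s hs
    simp only [Set.mem_ofPred_eq] at hs ⊢
    rw [← hval]; exact hs

/-- Extension of the engine to polynomials with coefficients in any extension field `L`. -/
theorem finite_or_all_ext [IsDomain R] [CharZero R] [IsDiscreteValuationRing R] (p : ℕ)
    (hp : p.Prime)
    (hpR : (p : R) ∈ IsLocalRing.maximalIdeal R)
    [Finite (IsLocalRing.ResidueField R)]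
    {L : Type*} [Field L] [Algebra R L] (hRL : Function.Injective (algebraMap R L))
    (F : σ → MvPolynomial σ R) (a : σ → R)
    (h : ∀ n, IsUnit (jac F ((step F)^[n] a)).det) :
    ∃ n₀ k, 0 < k ∧ ∀ (G : MvPolynomial σ L) (m : ℕ), n₀ ≤ m →
      {s : ℕ | eval (fun i => algebraMap R L ((step F)^[m + k * s] a i)) G = 0}.Infinite →
      ∀ s, eval (fun i => algebraMap R L ((step F)^[m + k * s] a i)) G = 0 := by
  classical
  have hp0 : (p : R) ≠ 0 := by exact_mod_cast hp.ne_zero
  -- finiteness of the quotients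
  have hfin : ∀ x : R, x ≠ 0 → Finite (R ⧸ Ideal.span {x}) := by
    intro x hx
    have hfg : (IsLocalRing.maximalIdeal R).FG := IsNoetherian.noetherian _
    have : Finite (R ⧸ IsLocalRing.maximalIdeal R) := ‹Finite (IsLocalRing.ResidueField R)›
    obtain ⟨ϖ, hϖ⟩ := IsDiscreteValuationRing.exists_irreducible R
    obtain ⟨n, hn⟩ := IsDiscreteValuationRing.associated_pow_irreducible hx hϖ
    have h1 : Ideal.span {x} = IsLocalRing.maximalIdeal R ^ n := by
      rw [hϖ.maximalIdeal_eq, Ideal.span_singleton_pow]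
      exact Ideal.span_singleton_eq_span_singleton.2 hn
    rw [h1]
    exact Ideal.finite_quotient_pow hfg n
  have := hfin (((p : R) ^ 2) ^ 2) (by positivity)
  have := hfin ((p : R) ^ 2) (by positivity)
  have hsep : ∀ x : R, (∀ k : ℕ, (p : R) ^ k ∣ x) → x = 0 := by
    intro x hx
    by_contra hne
    have h1 : (Ideal.span {(p : R)}) ≠ ⊤ := by
      intro htop
      rw [Ideal.span_singleton_eq_top] at htop
      exact (IsLocalRing.mem_maximalIdeal _).1 hpR htop
    have h2 := Ideal.iInf_pow_eq_bot_of_isDomain (Ideal.span {(p : R)}) h1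
    have h3 : x ∈ (⨅ i : ℕ, (Ideal.span {(p : R)}) ^ i) := by
      rw [Ideal.mem_iInf]
      intro i
      rw [Ideal.span_singleton_pow, Ideal.mem_span_singleton]
      exact hx i
    rw [h2] at h3
    exact hne (Ideal.mem_bot.1 h3)
  obtain ⟨n₀, k, hk, hmain⟩ := finite_or_all p hp hpR hsep F a h
  refine ⟨n₀, k, hk, ?_⟩
  intro G m hm hinf s
  -- the module generated by the coefficients
  let M : Submodule R L := Submodule.span R (G.support.image (fun d => coeff d G) : Finset L)
  have : Module.Finite R M := Module.Finite.span_finset R _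
  have : Module.IsTorsionFree R L := by
    exact Module.IsTorsionFree.of_smul_eq_zero (by
      intro r x hrx
      rw [Algebra.smul_def] at hrx
      rcases mul_eq_zero.1 hrx with h | h
      · left; exact hRL (by rw [h, map_zero])
      · right; exact h)
  have : Module.Free R M := Module.free_of_finite_type_torsion_free'
  let B := Module.Free.chooseBasis R M
  have hmem : ∀ d, coeff d G ∈ M := by
    intro d
    by_cases hd : d ∈ G.support
    · exact Submodule.subset_span (by
        simp only [Finset.coe_image, Set.mem_image, Finset.mem_coe]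
        exact ⟨d, hd, rfl⟩)
    · rw [MvPolynomial.notMem_support_iff.1 hd]; exact M.zero_mem
  let v : (σ → R) → M := fun x => ∑ d ∈ G.support, (∏ i, x i ^ d i) • (⟨coeff d G, hmem d⟩ : M)
  let Gj : Module.Free.ChooseBasisIndex R M → MvPolynomial σ R := fun j =>
    ∑ d ∈ G.support, monomial d (B.repr (⟨coeff d G, hmem d⟩ : M) j)
  have hv : ∀ x : σ → R, ((v x : M) : L) = eval (fun i => algebraMap R L (x i)) G := by
    intro x
    rw [MvPolynomial.eval_eq']
    simp only [v, AddSubmonoidClass.coe_finsetSum, Submodule.coe_smul]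
    refine Finset.sum_congr rfl fun d _ => ?_
    rw [Algebra.smul_def, mul_comm, map_prod]
    simp
  have hGj : ∀ (x : σ → R) j, eval x (Gj j) = B.repr (v x) j := by
    intro x j
    simp only [Gj, v, map_sum, map_smul, Finsupp.coe_finsetSum, Finset.sum_apply,
      Finsupp.smul_apply, smul_eq_mul]
    refine Finset.sum_congr rfl fun d _ => ?_
    rw [MvPolynomial.eval_monomial, Finsupp.prod_fintype _ _ (by simp)]
    ring
  have hiff : ∀ x : σ → R, eval (fun i => algebraMap R L (x i)) G = 0 ↔ ∀ j, eval x (Gj j) = 0 := by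
    intro x
    rw [← hv x]
    simp only [hGj]
    rw [ZeroMemClass.coe_eq_zero]
    constructor
    · intro h0 j; rw [h0]; simp
    · intro h0
      apply B.repr.injective
      ext j
      rw [h0 j]; simp
  rw [hiff]
  intro j
  refine hmain (Gj j) m hm ?_ s
  refine hinf.mono ?_
  intro s hs
  simp only [Set.mem_ofPred_eq] at hs ⊢
  exact (hiff _).1 hs j

/-- Bookkeeping: a set of natural numbers which on each progression `m + k * s` (`m ≥ n₀`) is
finite or everything is a finite union of arithmetic progressions. -/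
lemma exists_progressions (A : Set ℕ) (n₀ k : ℕ) (hk : 0 < k)
    (h : ∀ m, n₀ ≤ m → {s : ℕ | m + k * s ∈ A}.Infinite → ∀ s, m + k * s ∈ A) :
    ∃ T : Finset (ℕ × ℕ), A = {n : ℕ | ∃ p ∈ T, ∃ m : ℕ, n = p.1 * m + p.2} := by
  classical
  let B : Finset ℕ := (Finset.Ico n₀ (n₀ + k)).filter (fun m => ∀ s, m + k * s ∈ A)
  let U : Set ℕ := {n | ∃ m ∈ B, ∃ s, n = m + k * s}
  have hfin : (A \ U).Finite := by
    have hsub : A \ U ⊆ (Set.Iio n₀) ∪ ⋃ m ∈ Finset.Ico n₀ (n₀ + k) \ B,
        (fun s => m + k * s) '' {s : ℕ | m + k * s ∈ A} := by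
      intro n hn
      by_cases hn0 : n < n₀
      · left; exact hn0
      · right
        have h1 : n = (n₀ + (n - n₀) % k) + k * ((n - n₀) / k) := by
          have := Nat.mod_add_div (n - n₀) k
          omega
        have h2 : (n - n₀) % k < k := Nat.mod_lt _ hk
        simp only [Set.mem_iUnion]
        refine ⟨n₀ + (n - n₀) % k, ?_, ?_⟩
        · simp only [Finset.mem_sdiff, Finset.mem_Ico]
          refine ⟨by omega, fun hB => hn.2 ?_⟩
          exact ⟨_, hB, _, h1⟩
        · refine ⟨(n - n₀) / k, ?_, h1.symm⟩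
          simp only [Set.mem_ofPred_eq]
          rw [← h1]; exact hn.1
    refine Set.Finite.subset ?_ hsub
    refine (Set.finite_Iio n₀).union ?_
    refine Set.Finite.biUnion (Finset.finite_toSet _) ?_
    intro m hm
    apply Set.Finite.image
    by_contra hinf
    simp only [Finset.coe_sdiff, Set.mem_sdiff, Finset.mem_coe, Finset.mem_Ico] at hm
    apply hm.2
    simp only [B, Finset.mem_filter, Finset.mem_Ico]
    exact ⟨hm.1, h m hm.1.1 hinf⟩
  refine ⟨B.image (fun m => (k, m)) ∪ hfin.toFinset.image (fun n => (0, n)), ?_⟩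
  ext n
  simp only [Set.mem_ofPred_eq, Finset.mem_union, Finset.mem_image, Set.Finite.mem_toFinset]
  constructor
  · intro hn
    by_cases hU : n ∈ U
    · obtain ⟨m, hm, s, hs⟩ := hU
      exact ⟨(k, m), Or.inl ⟨m, hm, rfl⟩, s, by rw [hs]; ring⟩
    · exact ⟨(0, n), Or.inr ⟨n, ⟨hn, hU⟩, rfl⟩, 0, by simp⟩
  · rintro ⟨q, (⟨m, hm, rfl⟩ | ⟨n', hn', rfl⟩), s, hs⟩
    · have := (Finset.mem_filter.1 hm).2 s
      rw [hs]
      simpa [add_comm] using this
    · rw [hs]
      simpa using hn'.1

/-- Return sets of orbits with unit Jacobians over a discrete valuation ring. -/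
theorem returnSet_progressions [IsDomain R] [CharZero R] [IsDiscreteValuationRing R] (p : ℕ)
    (hp : p.Prime)
    (hpR : (p : R) ∈ IsLocalRing.maximalIdeal R)
    [Finite (IsLocalRing.ResidueField R)]
    {L : Type*} [Field L] [Algebra R L] (hRL : Function.Injective (algebraMap R L))
    (F : σ → MvPolynomial σ R) (a : σ → R)
    (h : ∀ n, IsUnit (jac F ((step F)^[n] a)).det) (S : Set (MvPolynomial σ L)) :
    ∃ T : Finset (ℕ × ℕ),
      {n : ℕ | ∀ g ∈ S, eval (fun i => algebraMap R L ((step F)^[n] a i)) g = 0}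
        = {n : ℕ | ∃ p ∈ T, ∃ m : ℕ, n = p.1 * m + p.2} := by
  obtain ⟨n₀, k, hk, hmain⟩ := finite_or_all_ext p hp hpR hRL F a h
  apply exists_progressions _ n₀ k hk
  intro m hm hinf s g hg
  refine hmain g m hm (hinf.mono ?_) s
  intro s hs
  exact hs g hg

end Main

end Pool.Agent.Helper37

end

section

/-!
# The discrete valuation ring cut out by an embedding into `ℚ_p`
-/

set_option autoImplicit false

open Module

namespace Pool.Agent.Helper37

section Comap

variable (p : ℕ) [hp : Fact p.Prime] {K₀ : Type*} [Field K₀] (ι : K₀ →+* ℚ_[p])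

end Comap

section Transcendental

open Cardinal

/-- `ℚ_p` contains arbitrarily large finite algebraically independent families over `ℚ` -/
lemma exists_algebraicIndependent_padic (p : ℕ) [hp : Fact p.Prime] (r : ℕ) :
    ∃ s : Fin r → ℚ_[p], AlgebraicIndependent ℚ s := by
  obtain ⟨B, hB⟩ := exists_isTranscendenceBasis ℚ ℚ_[p]
  have hinf : B.Infinite := by
    intro hfin
    have halg := hB.isAlgebraic
    have hcount : #(Algebra.adjoin ℚ (Set.range ((↑) : B → ℚ_[p]))) ≤ ℵ₀ := by
      rw [Algebra.adjoin_range_eq_range_aeval ℚ (fun x : B => (x : ℚ_[p]))]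
      have h1 : #(MvPolynomial B ℚ) ≤ ℵ₀ := by
        refine (MvPolynomial.cardinalMk_le_max (σ := B) (R := ℚ)).trans ?_
        have : Countable B := hfin.countable.to_subtype
        simp
      exact (mk_range_le (f := fun P : MvPolynomial B ℚ =>
        MvPolynomial.aeval (R := ℚ) (fun x : B => (x : ℚ_[p])) P)).trans h1
    have h3 := Algebra.IsAlgebraic.cardinalMk_le_max
      (Algebra.adjoin ℚ (Set.range ((↑) : B → ℚ_[p]))) ℚ_[p]
    have h4 : #ℚ_[p] ≤ ℵ₀ := h3.trans (max_le hcount le_rfl)
    have h5 := continuum_le_cardinal_of_nontriviallyNormedField ℚ_[p]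
    exact absurd (h5.trans h4) (not_le.2 aleph0_lt_continuum)
  have : Infinite B := hinf.to_subtype
  let e : Fin r ↪ B := (Fin.valEmbedding.trans (Infinite.natEmbedding B))
  exact ⟨fun i => (e i : ℚ_[p]), hB.1.comp e e.injective⟩

end Transcendental

end Pool.Agent.Helper37

end

section

/-!
# Counting matrices sending a projective point to a given one; the product measure
-/

set_option autoImplicit false

open Finset Function
open scoped LinearAlgebra.Projectivization

namespace Pool.Agent.Helper38.Dml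

section mat

variable {k : Type*} [Field k] [Fintype k] [DecidableEq k] {m : ℕ}

/-- the matrix `A` sends the projective point `x` to the projective point `y` -/
def Hits (A : Matrix (Fin m) (Fin m) k) (x y : ℙ k (Fin m → k)) : Prop :=
  ∃ h : A.mulVec x.rep ≠ 0, Projectivization.mk k (A.mulVec x.rep) h = y

omit [Fintype k] [DecidableEq k] in
theorem Hits.unique {A : Matrix (Fin m) (Fin m) k} {x y y' : ℙ k (Fin m → k)}
    (h : Hits A x y) (h' : Hits A x y') : y = y' := by
  obtain ⟨_, rfl⟩ := h
  obtain ⟨_, rfl⟩ := h'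
  rfl

end mat

end Pool.Agent.Helper38.Dml

end

section

namespace Pool.Agent.Helper37
end Pool.Agent.Helper37
namespace Pool.Agent.Helper38.Dml
end Pool.Agent.Helper38.Dml

/-!
# General coefficients
-/

set_option autoImplicit false

open Function

namespace Pool.Agent.Helper38.Sym

open Pool.Agent.Helper37 Pool.Agent.Helper38.Dml

theorem map_eval_gen {R S : Type*} [CommRing R] [CommRing S] (φ : R →+* S) {m : ℕ}
    (x : Fin m → R) (P : MvPolynomial (Fin m) R) :
    φ (MvPolynomial.eval x P) = MvPolynomial.eval (fun i => φ (x i)) (MvPolynomial.map φ P) := by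
  rw [MvPolynomial.eval_map]
  have h := MvPolynomial.eval₂_comp_left φ (RingHom.id R) x P
  rw [RingHom.comp_id] at h
  exact h

end Pool.Agent.Helper38.Sym

end

section

/-!
# Exponential polynomials with roots in a group

`EP M` is the space of the sequences `s ↦ ∑ c * s ^ a * μ ^ s` with roots `μ` in the group `M`.
-/

set_option autoImplicit false

namespace Pool.Agent.Helper65.TNL

open Finset

variable {k : Type*} [Field k]

/-- The monomial sequence `s ↦ s ^ a * μ ^ s`. -/
def mono (a : ℕ) (μ : k) : ℕ → k := fun s => (s : k) ^ a * μ ^ s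

/-- Exponential polynomials with roots in the group `M`. -/
def EP (M : Subgroup kˣ) : Submodule k (ℕ → k) :=
  Submodule.span k {f | ∃ (a : ℕ) (μ : kˣ), μ ∈ M ∧ f = mono a (μ : k)}

variable {M : Subgroup kˣ}

theorem mono_mem (a : ℕ) {μ : kˣ} (hμ : μ ∈ M) : mono a (μ : k) ∈ EP M :=
  Submodule.subset_span ⟨a, μ, hμ, rfl⟩

theorem pow_mem_EP {μ : kˣ} (hμ : μ ∈ M) : (fun s => (μ : k) ^ s) ∈ EP M := by
  have h := mono_mem 0 hμ
  have e : mono 0 (μ : k) = fun s => (μ : k) ^ s := by
    funext s
    simp [mono]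
  rwa [e] at h

theorem const_mem_EP (c : k) : (fun _ => c) ∈ EP M := by
  have h := Submodule.smul_mem (EP M) c (pow_mem_EP (M := M) (one_mem M))
  have e : (c • fun s : ℕ => ((1 : kˣ) : k) ^ s) = fun _ => c := by
    funext s
    simp
  rwa [e] at h

theorem id_mem_EP : (fun s : ℕ => (s : k)) ∈ EP M := by
  have h := mono_mem (M := M) 1 (one_mem M)
  have e : mono 1 ((1 : kˣ) : k) = fun s : ℕ => (s : k) := by
    funext s
    simp [mono]
  rwa [e] at h

theorem mul_mem_EP {f g : ℕ → k} (hf : f ∈ EP M) (hg : g ∈ EP M) :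
    (fun s => f s * g s) ∈ EP M := by
  have key : f * g ∈ EP M := by
    induction hf using Submodule.span_induction with
    | mem x hx =>
      obtain ⟨a, μ, hμ, rfl⟩ := hx
      induction hg using Submodule.span_induction with
      | mem y hy =>
        obtain ⟨b, ν, hν, rfl⟩ := hy
        have e : mono a (μ : k) * mono b (ν : k) = mono (a + b) ((μ * ν : kˣ) : k) := by
          funext s
          simp only [Pi.mul_apply, mono, Units.val_mul, pow_add, mul_pow]
          ring
        rw [e]
        exact mono_mem _ (mul_mem hμ hν)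
      | zero => simp
      | add y z _ _ hy hz => rw [mul_add]; exact Submodule.add_mem _ hy hz
      | smul c y _ hy => rw [mul_smul_comm]; exact Submodule.smul_mem _ c hy
    | zero => simp
    | add y z _ _ hy hz => rw [add_mul]; exact Submodule.add_mem _ hy hz
    | smul c y _ hy => rw [smul_mul_assoc]; exact Submodule.smul_mem _ c hy
  exact key

/-- The shift operator. -/
def shift : (ℕ → k) →ₗ[k] (ℕ → k) where
  toFun f := fun s => f (s + 1)
  map_add' _ _ := rfl
  map_smul' _ _ := rfl

end Pool.Agent.Helper65.TNL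

end

section

/-!
# Linear recurrences with exponential polynomials on the right hand side
-/

set_option autoImplicit false

namespace Pool.Agent.Helper65.TNL

open Finset Polynomial

variable {k : Type*} [Field k] {M : Subgroup kˣ}

/-- The operator `shift - μ`. -/
def sub (μ : k) : (ℕ → k) →ₗ[k] (ℕ → k) := shift - μ • LinearMap.id

@[simp] theorem sub_apply (μ : k) (f : ℕ → k) (s : ℕ) : sub μ f s = f (s + 1) - μ * f s := rfl

/-- `shift - μ` maps monomials to combinations of monomials with the same root. -/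
theorem sub_mono (μ ν : k) (a : ℕ) :
    sub μ (mono a ν) = (ν - μ) • mono a ν + ν • ∑ b ∈ range a, (a.choose b : k) • mono b ν := by
  funext s
  simp only [sub_apply, mono, Pi.add_apply, Pi.smul_apply, Finset.sum_apply, smul_eq_mul]
  have h : ((s : k) + 1) ^ a = ∑ b ∈ range a, (s : k) ^ b * (a.choose b : k) + (s : k) ^ a := by
    rw [add_pow, Finset.sum_range_succ]
    simp
  rw [Nat.cast_add, Nat.cast_one, h, pow_succ]
  have h2 : (∑ b ∈ range a, (a.choose b : k) * ((s : k) ^ b * ν ^ s))
      = (∑ b ∈ range a, (s : k) ^ b * (a.choose b : k)) * ν ^ s := by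
    rw [Finset.sum_mul]
    exact Finset.sum_congr rfl fun b _ => by ring
  rw [h2]
  ring

end Pool.Agent.Helper65.TNL

end

section

/-!
# Independence of exponential polynomials
-/

set_option autoImplicit false

namespace Pool.Agent.Helper65.TNL

open Finset Polynomial

variable {k : Type*} [Field k] {M : Subgroup kˣ}

/-- An exponential polynomial is a finite sum of polynomials times exponentials. -/
theorem exists_poly {f : ℕ → k} (hf : f ∈ EP M) :
    ∃ (S : Finset kˣ) (P : kˣ → k[X]), (∀ μ ∈ S, μ ∈ M) ∧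
      ∀ s : ℕ, f s = ∑ μ ∈ S, (P μ).eval (s : k) * (μ : k) ^ s := by
  classical
  induction hf using Submodule.span_induction with
  | mem x hx =>
    obtain ⟨a, μ, hμ, rfl⟩ := hx
    refine ⟨{μ}, fun _ => X ^ a, fun ν hν => by rw [mem_singleton.1 hν]; exact hμ, fun s => ?_⟩
    rw [sum_singleton, eval_pow, eval_X]
    rfl
  | zero => exact ⟨∅, fun _ => 0, fun ν hν => by simp at hν, fun s => by simp⟩
  | add y z _ _ hy hz =>
    obtain ⟨S, P, hS, hP⟩ := hy
    obtain ⟨S', P', hS', hP'⟩ := hz
    refine ⟨S ∪ S', fun μ => (if μ ∈ S then P μ else 0) + (if μ ∈ S' then P' μ else 0),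
      fun ν hν => ?_, fun s => ?_⟩
    · rcases mem_union.1 hν with h | h
      · exact hS ν h
      · exact hS' ν h
    · rw [Pi.add_apply, hP, hP']
      have h1 : ∀ μ : kˣ, ((if μ ∈ S then P μ else 0) + (if μ ∈ S' then P' μ else 0)).eval (s : k)
            * (μ : k) ^ s
          = (if μ ∈ S then (P μ).eval (s : k) * (μ : k) ^ s else 0)
            + (if μ ∈ S' then (P' μ).eval (s : k) * (μ : k) ^ s else 0) := by
        intro μ
        split_ifs <;> simp [add_mul]
      rw [Finset.sum_congr rfl fun μ _ => h1 μ, Finset.sum_add_distrib, Finset.sum_ite_mem,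
        Finset.sum_ite_mem, Finset.union_inter_cancel_left, Finset.union_inter_cancel_right]
  | smul c y _ hy =>
    obtain ⟨S, P, hS, hP⟩ := hy
    refine ⟨S, fun μ => C c * P μ, hS, fun s => ?_⟩
    rw [Pi.smul_apply, hP, smul_eq_mul, Finset.mul_sum]
    refine Finset.sum_congr rfl fun μ _ => ?_
    rw [eval_mul, eval_C]
    ring

theorem poly_mem_gen (Q : k[X]) (ρ : k) :
    (fun s : ℕ => Q.eval (s : k) * ρ ^ s) ∈ Module.End.maxGenEigenspace (shift (k := k)) ρ := by
  have hm : ∀ a, mono a ρ ∈ Module.End.maxGenEigenspace (shift (k := k)) ρ := by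
    intro a
    induction a using Nat.strong_induction_on with
    | _ a ih =>
      have h1 : sub ρ (mono a ρ) ∈ Module.End.maxGenEigenspace (shift (k := k)) ρ := by
        rw [sub_mono, sub_self, zero_smul, zero_add]
        refine Submodule.smul_mem _ _ (Submodule.sum_mem _ fun b hb =>
          Submodule.smul_mem _ _ (ih b (mem_range.1 hb)))
      rw [Module.End.mem_maxGenEigenspace] at h1 ⊢
      obtain ⟨n, hn⟩ := h1
      refine ⟨n + 1, ?_⟩
      rw [pow_succ]
      exact hn
  have e : (fun s : ℕ => Q.eval (s : k) * ρ ^ s)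
      = ∑ a ∈ range (Q.natDegree + 1), Q.coeff a • mono a ρ := by
    funext s
    rw [Finset.sum_apply, eval_eq_sum_range, Finset.sum_mul]
    refine Finset.sum_congr rfl fun a _ => ?_
    rw [Pi.smul_apply, smul_eq_mul, mono]
    ring
  rw [e]
  exact Submodule.sum_mem _ fun a _ => Submodule.smul_mem _ _ (hm a)

/-- Polynomials times exponentials with distinct nonzero roots are independent. -/
theorem poly_indep [CharZero k] {ι : Type*} (S : Finset ι) (ρ : ι → k)
    (hρ : Set.InjOn ρ S) (hne : ∀ i ∈ S, ρ i ≠ 0) (Q : ι → k[X])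
    (h : ∀ s : ℕ, ∑ i ∈ S, (Q i).eval (s : k) * ρ i ^ s = 0) : ∀ i ∈ S, Q i = 0 := by
  classical
  have hind := (iSupIndep_iff_finsetSum_eq_zero_imp_eq_zero _).1
    (Module.End.independent_maxGenEigenspace (shift (k := k)))
  have h0 : ∀ i ∈ S, (fun s : ℕ => (Q i).eval (s : k) * ρ i ^ s) = 0 := by
    have h1 := hind (S.image ρ) (fun r => ∑ i ∈ S.filter (fun i => ρ i = r),
      fun s : ℕ => (Q i).eval (s : k) * ρ i ^ s) ?_ ?_
    · intro i hi
      have h2 := h1 (ρ i) (mem_image_of_mem ρ hi)
      have h3 : S.filter (fun j => ρ j = ρ i) = {i} := by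
        ext j
        rw [mem_filter, mem_singleton]
        constructor
        · rintro ⟨hj, hji⟩
          exact hρ hj hi hji
        · rintro rfl
          exact ⟨hi, rfl⟩
      rw [h3, sum_singleton] at h2
      exact h2
    · intro r _
      refine Submodule.sum_mem _ fun i hi => ?_
      rw [← (mem_filter.1 hi).2]
      exact poly_mem_gen (Q i) (ρ i)
    · rw [Finset.sum_fiberwise_of_maps_to (fun i hi => mem_image_of_mem ρ hi)]
      funext s
      rw [Finset.sum_apply]
      exact h s
  intro i hi
  have h1 : ∀ s : ℕ, (Q i).eval (s : k) = 0 := by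
    intro s
    have h2 := congrFun (h0 i hi) s
    exact (mul_eq_zero.1 h2).resolve_right (pow_ne_zero _ (hne i hi))
  refine Polynomial.eq_zero_of_infinite_isRoot _ (Set.Infinite.mono ?_
    (Set.infinite_range_of_injective (Nat.cast_injective (R := k))))
  rintro _ ⟨s, rfl⟩
  exact h1 s

/-- The group has no torsion. -/
def TorFree (M : Subgroup kˣ) : Prop := ∀ μ ∈ M, ∀ t : ℕ, 0 < t → μ ^ t = 1 → μ = 1

/-- An exponential polynomial is zero if it vanishes on the progression `N * m + c` and the group
of the roots has no elements of order dividing `N`. -/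
theorem eq_zero_aux [CharZero k] {N : ℕ} (hN : 0 < N) (hM : ∀ μ ∈ M, μ ^ N = 1 → μ = 1)
    {f : ℕ → k} (hf : f ∈ EP M) (c : ℕ) (h : ∀ m, f (N * m + c) = 0) : f = 0 := by
  classical
  obtain ⟨S, P, hS, hP⟩ := exists_poly hf
  have hN' : (N : k) ≠ 0 := Nat.cast_ne_zero.2 hN.ne'
  have hQ := poly_indep S (fun μ : kˣ => ((μ ^ N : kˣ) : k)) ?_ (fun μ _ => (μ ^ N : kˣ).ne_zero)
    (fun μ => C ((μ : k) ^ c) * (P μ).comp (C (N : k) * X + C (c : k))) ?_
  · funext s
    rw [hP s]
    refine Finset.sum_eq_zero fun μ hμ => ?_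
    have h1 := hQ μ hμ
    have h2 : (P μ).comp (C (N : k) * X + C (c : k)) = 0 := by
      rcases mul_eq_zero.1 h1 with h3 | h3
      · rw [C_eq_zero] at h3
        exact absurd h3 (pow_ne_zero _ μ.ne_zero)
      · exact h3
    have h3 : P μ = 0 := by
      have h4 := congrArg (fun Q => Q.comp (C (N : k)⁻¹ * X - C ((N : k)⁻¹ * (c : k)))) h2
      simp only [comp_assoc, zero_comp] at h4
      have h5 : (C (N : k) * X + C (c : k)).comp (C (N : k)⁻¹ * X - C ((N : k)⁻¹ * (c : k)))
          = X := by
        rw [add_comp, mul_comp, C_comp, X_comp, C_comp, mul_sub, ← mul_assoc, ← C_mul, ← C_mul,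
          ← mul_assoc, mul_inv_cancel₀ hN', C_1, one_mul, one_mul]
        ring
      rw [h5, comp_X] at h4
      exact h4
    rw [h3, eval_zero, zero_mul]
  · intro μ hμ ν hν hμν
    have h1 : μ ^ N = ν ^ N := Units.ext hμν
    have h2 : (μ * ν⁻¹) ^ N = 1 := by
      rw [mul_pow, inv_pow, h1, mul_inv_cancel]
    have h3 := hM (μ * ν⁻¹) (mul_mem (hS μ hμ) (inv_mem (hS ν hν))) h2
    exact mul_inv_eq_one.1 h3
  · intro m
    rw [← h m, hP]
    refine Finset.sum_congr rfl fun μ _ => ?_
    rw [eval_mul, eval_C, eval_comp, eval_add, eval_mul, eval_C, eval_X, eval_C,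
      Units.val_pow_eq_pow_val, Nat.cast_add, Nat.cast_mul, pow_add, pow_mul]
    ring

/-- An exponential polynomial with roots in a torsion free group is zero if it vanishes on a
progression. -/
theorem eq_zero_of_progression [CharZero k] (hM : TorFree M) {f : ℕ → k} (hf : f ∈ EP M)
    {N : ℕ} (hN : 0 < N) (c : ℕ) (h : ∀ m, f (N * m + c) = 0) : f = 0 :=
  eq_zero_aux hN (fun μ hμ h1 => hM μ hμ N hN h1) hf c h

end Pool.Agent.Helper65.TNL

end

section

/-!
# Embeddings of finitely generated fields into fields of `p`-adic numbers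
-/

set_option autoImplicit false

open Polynomial

namespace Pool.Agent.Helper38.Dml

/-- a nonconstant integral polynomial has zeros modulo arbitrarily large primes -/
theorem exists_prime_root (g : ℤ[X]) (hg : 0 < g.natDegree) (N : ℕ) :
    ∃ p, N < p ∧ p.Prime ∧ ∃ n : ℤ, (p : ℤ) ∣ g.eval n := by
  by_cases hc : g.eval 0 = 0
  · obtain ⟨p, hp, hpp⟩ := Nat.exists_infinite_primes (N + 1)
    exact ⟨p, by omega, hpp, 0, by rw [hc]; exact dvd_zero _⟩
  set c := g.eval 0 with hcdef
  have hne : ∀ b : ℤ, g - C b ≠ 0 := by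
    intro b h
    rw [sub_eq_zero] at h
    rw [h] at hg
    simp at hg
  have hfin : {z : ℤ | (g - C c).eval z = 0 ∨ (g - C (-c)).eval z = 0}.Finite := by
    have h1 : {z : ℤ | (g - C c).IsRoot z}.Finite := Polynomial.finite_setOfPred_isRoot (hne c)
    have h2 : {z : ℤ | (g - C (-c)).IsRoot z}.Finite := Polynomial.finite_setOfPred_isRoot (hne (-c))
    exact h1.union h2
  have hM : ((N.factorial : ℕ) : ℤ) ≠ 0 := by exact_mod_cast N.factorial_ne_zero
  have hinf : (Set.range (fun y : ℤ => c * N.factorial * y)).Infinite := by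
    apply Set.infinite_range_of_injective
    intro y y' h
    exact mul_left_cancel₀ (mul_ne_zero hc hM) h
  obtain ⟨z, ⟨y, rfl⟩, hz⟩ := hinf.exists_notMem_finite hfin
  simp only [Set.mem_ofPred_eq, eval_sub, eval_C, not_or] at hz
  obtain ⟨t, ht⟩ := Polynomial.sub_dvd_eval_sub (c * N.factorial * y) 0 g
  rw [sub_zero, ← hcdef] at ht
  have h1 : g.eval (c * N.factorial * y) = c * (1 + N.factorial * y * t) := by linarith
  have h2 : (1 + N.factorial * y * t : ℤ).natAbs ≠ 1 := by
    intro h
    rcases Int.natAbs_eq_iff.1 h with h3 | h3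
    · apply hz.1
      rw [h1, h3]; simp
    · apply hz.2
      rw [h1, h3]; simp
  obtain ⟨p, hp, hpd⟩ := Nat.exists_prime_and_dvd h2
  refine ⟨p, ?_, hp, c * N.factorial * y, ?_⟩
  · by_contra hle
    have h4 : p ∣ N.factorial := (Nat.Prime.dvd_factorial hp).2 (not_lt.1 hle)
    have h5 : (p : ℤ) ∣ 1 + N.factorial * y * t := Int.natCast_dvd.2 hpd
    have h6 : (p : ℤ) ∣ N.factorial * y * t :=
      ((Int.natCast_dvd_natCast.2 h4).mul_right y).mul_right t
    have h7 : (p : ℤ) ∣ 1 := (Int.dvd_add_left h6).1 h5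
    have h8 : p ∣ 1 := by exact_mod_cast h7
    exact hp.one_lt.ne' (Nat.dvd_one.1 h8)
  · rw [h1]
    exact (Int.natCast_dvd.2 hpd).mul_left c

/-- algebraic independence is stable under affine changes of the variables -/
theorem algebraicIndependent_affine {σ A : Type*} [CommRing A] [Algebra ℚ A] {x : σ → A}
    (hx : AlgebraicIndependent ℚ x) (a b : σ → ℚ) (hb : ∀ i, b i ≠ 0) :
    AlgebraicIndependent ℚ (fun i => algebraMap ℚ A (a i) + algebraMap ℚ A (b i) * x i) := by
  rw [algebraicIndependent_iff_injective_aeval] at hx ⊢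
  let f : MvPolynomial σ ℚ →ₐ[ℚ] MvPolynomial σ ℚ :=
    MvPolynomial.aeval (fun i => MvPolynomial.C (a i) + MvPolynomial.C (b i) * MvPolynomial.X i)
  let f' : MvPolynomial σ ℚ →ₐ[ℚ] MvPolynomial σ ℚ :=
    MvPolynomial.aeval (fun i => MvPolynomial.C (b i)⁻¹ * (MvPolynomial.X i - MvPolynomial.C (a i)))
  have h1 : MvPolynomial.aeval (fun i => algebraMap ℚ A (a i) + algebraMap ℚ A (b i) * x i)
      = (MvPolynomial.aeval x).comp f := by
    apply MvPolynomial.algHom_ext
    intro i
    simp only [f, AlgHom.comp_apply, MvPolynomial.aeval_X, map_add, map_mul, MvPolynomial.aeval_C]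
  have h2 : f'.comp f = AlgHom.id ℚ _ := by
    apply MvPolynomial.algHom_ext
    intro i
    simp only [f, f', AlgHom.comp_apply, MvPolynomial.aeval_X, map_add, map_mul,
      MvPolynomial.aeval_C, AlgHom.id_apply]
    change MvPolynomial.C (a i) + MvPolynomial.C (b i) * (MvPolynomial.C (b i)⁻¹
      * (MvPolynomial.X i - MvPolynomial.C (a i))) = MvPolynomial.X i
    rw [← mul_assoc, ← map_mul, mul_inv_cancel₀ (hb i), map_one]
    ring
  have h3 : Function.Injective f := by
    apply Function.LeftInverse.injective (g := f')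
    intro P
    exact congrArg (fun F : MvPolynomial σ ℚ →ₐ[ℚ] MvPolynomial σ ℚ => F P) h2
  rw [h1]
  exact hx.comp h3

/-- algebraically independent `p`-adic integers congruent to given integers modulo `p` -/
theorem exists_algebraicIndependent_near (p : ℕ) [hp : Fact p.Prime] (r : ℕ) (τ : Fin r → ℤ) :
    ∃ s : Fin r → ℤ_[p], AlgebraicIndependent ℤ (fun i => (s i : ℚ_[p])) ∧
      ∀ i, PadicInt.toZMod (s i) = (τ i : ZMod p) := by
  obtain ⟨x, hx⟩ := Pool.Agent.Helper37.exists_algebraicIndependent_padic p r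
  have hn : ∃ n : ℕ, ∀ i, ‖(p : ℚ_[p]) ^ n * x i‖ ≤ 1 := by
    have h1 : ∀ i, ∃ n : ℕ, ∀ n', n ≤ n' → ‖(p : ℚ_[p]) ^ n' * x i‖ ≤ 1 := by
      intro i
      have hp1 : ((p : ℝ)⁻¹) < 1 := inv_lt_one_of_one_lt₀ (by exact_mod_cast hp.out.one_lt)
      obtain ⟨n, hn⟩ := exists_pow_lt_of_lt_one (y := (p : ℝ)⁻¹) (x := (‖x i‖ + 1)⁻¹)
        (by positivity) hp1
      refine ⟨n, fun n' hn' => ?_⟩
      rw [norm_mul, norm_pow, Padic.norm_p]
      have h2 : ((p : ℝ)⁻¹) ^ n' ≤ (‖x i‖ + 1)⁻¹ :=
        (pow_le_pow_of_le_one (by positivity) hp1.le hn').trans hn.le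
      calc ((p : ℝ)⁻¹) ^ n' * ‖x i‖ ≤ (‖x i‖ + 1)⁻¹ * ‖x i‖ :=
            mul_le_mul_of_nonneg_right h2 (norm_nonneg _)
        _ ≤ 1 := by
            rw [inv_mul_le_iff₀ (by positivity)]
            linarith [norm_nonneg (x i)]
    choose n hn using h1
    refine ⟨∑ i, n i, fun i => hn i _ (Finset.single_le_sum (fun _ _ => Nat.zero_le _)
      (Finset.mem_univ i))⟩
  obtain ⟨n, hn⟩ := hn
  let w : Fin r → ℤ_[p] := fun i => ⟨(p : ℚ_[p]) ^ n * x i, hn i⟩
  refine ⟨fun i => (τ i : ℤ_[p]) + p * w i, ?_, ?_⟩
  · have h1 := algebraicIndependent_affine hx (fun i => (τ i : ℚ)) (fun _ => (p : ℚ) ^ (n + 1))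
      (fun i => pow_ne_zero _ (by exact_mod_cast hp.out.ne_zero))
    have h2 := h1.restrictScalars (R := ℤ) (by
      intro a b h
      exact_mod_cast h)
    convert h2 using 2 with i
    have h3 : ((p * w i : ℤ_[p]) : ℚ_[p]) = p * (p ^ n * x i) := by
      rw [PadicInt.coe_mul, PadicInt.coe_natCast]
    rw [PadicInt.coe_add, h3, PadicInt.coe_intCast]
    simp only [map_pow, map_intCast, map_natCast]
    ring
  · intro i
    simp

theorem exists_clear {P Q : Type*} [CommRing P] [IsDomain P] [Field Q] [Algebra P Q]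
    [IsFractionRing P Q] (f : Q[X]) (hf : f.Separable) (hdeg : 0 < f.natDegree) :
    ∃ (g U V : P[X]) (E b : P), b ≠ 0 ∧ E ≠ 0 ∧ U * g + V * derivative g = C E ∧
      0 < g.natDegree ∧ g.map (algebraMap P Q) = C (algebraMap P Q b) * f := by
  obtain ⟨u, v, huv⟩ := hf
  obtain ⟨b, hb, hg⟩ := IsLocalization.integerNormalization_spec (nonZeroDivisors P) f
  obtain ⟨b₁, hb₁, hu⟩ := IsLocalization.integerNormalization_spec (nonZeroDivisors P) u
  obtain ⟨b₂, hb₂, hv⟩ := IsLocalization.integerNormalization_spec (nonZeroDivisors P) v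
  set g := IsLocalization.integerNormalization (nonZeroDivisors P) f
  set U := IsLocalization.integerNormalization (nonZeroDivisors P) u
  set V := IsLocalization.integerNormalization (nonZeroDivisors P) v
  have hPQ : Function.Injective (algebraMap P Q) := IsFractionRing.injective P Q
  have hb0 : b ≠ 0 := nonZeroDivisors.ne_zero hb
  have hE : b * b₁ * b₂ ≠ 0 := mul_ne_zero (mul_ne_zero hb0 (nonZeroDivisors.ne_zero hb₁))
    (nonZeroDivisors.ne_zero hb₂)
  have hsm : ∀ (c : P) (q : Q[X]), c • q = C (algebraMap P Q c) * q := by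
    intro c q
    ext n
    rw [coeff_smul, coeff_C_mul, Algebra.smul_def]
  have hbQ : algebraMap P Q b ≠ 0 := by
    intro h
    exact hb0 (hPQ (by rw [h, map_zero]))
  refine ⟨g, C b₂ * U, C b₁ * V, b * b₁ * b₂, b, hb0, hE, ?_, ?_, ?_⟩
  · apply Polynomial.map_injective _ hPQ
    simp only [Polynomial.map_add, Polynomial.map_mul, Polynomial.map_C, ← derivative_map, hg, hu,
      hv]
    rw [hsm, hsm, hsm, derivative_C_mul, map_mul, C_mul, map_mul, C_mul]
    calc _ = C (algebraMap P Q b) * C (algebraMap P Q b₁) * C (algebraMap P Q b₂)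
          * (u * f + v * derivative f) := by ring
      _ = _ := by rw [huv, mul_one]
  · have h1 : (g.map (algebraMap P Q)).natDegree = g.natDegree :=
      Polynomial.natDegree_map_eq_of_injective hPQ g
    rw [← h1, hg, hsm, Polynomial.natDegree_C_mul hbQ]
    exact hdeg
  · rw [hg, hsm]

end Pool.Agent.Helper38.Dml

end

section

namespace Pool.Agent.Helper38.Dml
end Pool.Agent.Helper38.Dml

/-!
# Cassels embedding with integrality (SS-17)
-/

set_option autoImplicit false

namespace Pool.Agent.Helper33.SS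

open Polynomial Pool.Agent.Helper38.Dml

/-- Zeros in `ℚ_p` of a polynomial in one variable over a polynomial ring, specialised at
algebraically independent `p`-adic integers at which a given polynomial is a unit, for all large
primes `p` modulo which a suitable integral polynomial has a zero. -/
theorem root_int (r : ℕ) (g U V : Polynomial (MvPolynomial (Fin r) ℤ))
    (E : MvPolynomial (Fin r) ℤ) (hE : E ≠ 0) (h : U * g + V * derivative g = C E)
    (hg : 0 < g.natDegree) :
    ∃ g₀ : ℤ[X], 0 < g₀.natDegree ∧ ∃ M : ℕ, ∀ p : ℕ, M < p → ∀ hp : p.Prime,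
      (∃ n : ℤ, (p : ℤ) ∣ g₀.eval n) → haveI := Fact.mk hp;
      ∃ s : Fin r → ℤ_[p], AlgebraicIndependent ℤ (fun i => (s i : ℚ_[p])) ∧
        ‖MvPolynomial.eval₂Hom (Int.castRingHom ℤ_[p]) s E‖ = 1 ∧
        ∃ z : ℚ_[p], g.eval₂ ((PadicInt.Coe.ringHom (p := p)).comp
          (MvPolynomial.eval₂Hom (Int.castRingHom ℤ_[p]) s)) z = 0 := by
  have hg0 : g ≠ 0 := by
    rintro rfl
    simp at hg
  have hDE : g.leadingCoeff * E ≠ 0 := mul_ne_zero (leadingCoeff_ne_zero.2 hg0) hE
  have hτ : ∃ τ : Fin r → ℤ, MvPolynomial.eval τ (g.leadingCoeff * E) ≠ 0 := by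
    by_contra hcon
    push Not at hcon
    exact hDE (MvPolynomial.funext (fun τ => by rw [hcon τ, map_zero]))
  obtain ⟨τ, hτ⟩ := hτ
  rw [map_mul] at hτ
  have hD : MvPolynomial.eval τ g.leadingCoeff ≠ 0 := left_ne_zero_of_mul hτ
  have hEτ : MvPolynomial.eval τ E ≠ 0 := right_ne_zero_of_mul hτ
  have hdeg : 0 < (g.map (MvPolynomial.eval τ)).natDegree := by
    rwa [Polynomial.natDegree_map_of_leadingCoeff_ne_zero _ hD]
  refine ⟨g.map (MvPolynomial.eval τ), hdeg, (MvPolynomial.eval τ E).natAbs, ?_⟩
  rintro p hpN hp ⟨n, hn⟩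
  have := Fact.mk hp
  obtain ⟨s, hs, hsτ⟩ := exists_algebraicIndependent_near p r τ
  set θ : MvPolynomial (Fin r) ℤ →+* ℤ_[p] := MvPolynomial.eval₂Hom (Int.castRingHom ℤ_[p]) s
    with hθ
  have hθmod : (PadicInt.toZMod (p := p)).comp θ = (Int.castRingHom (ZMod p)).comp
      (MvPolynomial.eval τ) := by
    apply MvPolynomial.ringHom_ext
    · intro c
      simp [hθ]
    · intro i
      simp [hθ, hsτ i]
  have hEp : ((MvPolynomial.eval τ E : ℤ) : ZMod p) ≠ 0 := by
    intro h3
    have h4 : (p : ℤ) ∣ MvPolynomial.eval τ E := (ZMod.intCast_zmod_eq_zero_iff_dvd _ _).1 h3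
    have h5 : p ∣ (MvPolynomial.eval τ E).natAbs := Int.natCast_dvd.1 h4
    have h6 := Nat.le_of_dvd (Int.natAbs_pos.2 hEτ) h5
    omega
  have hnorm : ∀ x : ℤ_[p], PadicInt.toZMod x = 0 ↔ ‖x‖ < 1 := by
    intro x
    rw [← RingHom.mem_ker, PadicInt.ker_toZMod, IsLocalRing.mem_maximalIdeal, PadicInt.mem_nonunits]
  have hE1 : ‖θ E‖ = 1 := by
    have h1 : PadicInt.toZMod (θ E) ≠ 0 := by
      have h2 := congrArg (fun f : MvPolynomial (Fin r) ℤ →+* ZMod p => f E) hθmod
      simp only [RingHom.comp_apply, eq_intCast] at h2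
      rw [h2]
      exact hEp
    exact le_antisymm (PadicInt.norm_le_one _) (not_lt.1 (mt (hnorm _).2 h1))
  refine ⟨s, hs, hE1, ?_⟩
  set G : ℤ_[p][X] := g.map θ with hG
  have hmod : ∀ q : Polynomial (MvPolynomial (Fin r) ℤ), PadicInt.toZMod ((q.map θ).eval (n : ℤ_[p]))
      = (((q.map (MvPolynomial.eval τ)).eval n : ℤ) : ZMod p) := by
    intro q
    rw [eval_map, eval_map, hom_eval₂, hθmod]
    have h1 := hom_eval₂ q (MvPolynomial.eval τ) (Int.castRingHom (ZMod p)) n
    simp only [eq_intCast] at h1
    rw [h1, map_intCast]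
  have h1 : PadicInt.toZMod (G.eval (n : ℤ_[p])) = 0 := by
    rw [hG, hmod, ZMod.intCast_zmod_eq_zero_iff_dvd]
    exact hn
  have h2 : PadicInt.toZMod ((derivative G).eval (n : ℤ_[p])) ≠ 0 := by
    intro h0
    have h3 := congrArg (fun q : Polynomial (MvPolynomial (Fin r) ℤ) =>
      PadicInt.toZMod ((q.map θ).eval (n : ℤ_[p]))) h
    simp only [Polynomial.map_add, Polynomial.map_mul, eval_add, eval_mul, map_add, map_mul] at h3
    rw [← hG, h1, ← derivative_map, ← hG, h0, mul_zero, mul_zero, add_zero] at h3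
    rw [hmod, Polynomial.map_C, eval_C] at h3
    exact hEp h3.symm
  have h3 : ‖(derivative G).eval (n : ℤ_[p])‖ = 1 := by
    have := mt (hnorm _).2 h2
    exact le_antisymm (PadicInt.norm_le_one _) (not_lt.1 this)
  obtain ⟨z, hz, _⟩ := hensels_lemma (F := G) (a := (n : ℤ_[p])) (by
    rw [coe_aeval_eq_eval, h3, one_pow]
    exact (hnorm _).1 h1)
  rw [coe_aeval_eq_eval] at hz
  refine ⟨(z : ℚ_[p]), ?_⟩
  have h5 := hom_eval₂ g θ (PadicInt.Coe.ringHom (p := p)) z
  change _ = g.eval₂ _ (z : ℚ_[p]) at h5
  rw [← h5, ← eval_map, ← hG, hz, map_zero]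

theorem embed_ext {P Q K L : Type*} [CommRing P] [IsDomain P] [Field Q] [Algebra P Q]
    [IsFractionRing P Q] [Field K] [Algebra Q K] [Field L] (pb : PowerBasis Q K) (θ : P →+* L)
    (hθ : Function.Injective θ) (z : L) (b : P) (hb : b ≠ 0) (g : P[X])
    (hg : g.map (algebraMap P Q) = C (algebraMap P Q b) * minpoly Q pb.gen)
    (hz : g.eval₂ θ z = 0) :
    ∃ φ : K →+* L, φ.comp ((algebraMap Q K).comp (algebraMap P Q)) = θ := by
  have hτ : (IsFractionRing.lift (K := Q) hθ).comp (algebraMap P Q) = θ := by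
    apply RingHom.ext
    intro c
    exact IsFractionRing.lift_algebraMap hθ c
  generalize (IsFractionRing.lift (K := Q) hθ) = τ at hτ
  let _ : Algebra Q L := τ.toAlgebra
  have hz2 : aeval z (minpoly Q pb.gen) = 0 := by
    have h1 : (g.map (algebraMap P Q)).eval₂ τ z = 0 := by
      rw [eval₂_map, hτ]
      exact hz
    rw [hg, eval₂_mul, eval₂_C] at h1
    rcases mul_eq_zero.1 h1 with h2 | h2
    · exact absurd (IsFractionRing.injective P Q (((map_eq_zero τ).1 h2).trans (map_zero _).symm)) hb
    · exact h2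
  refine ⟨(pb.lift z hz2).toRingHom, ?_⟩
  rw [← RingHom.comp_assoc]
  have h3 : (pb.lift z hz2).toRingHom.comp (algebraMap Q K) = τ := by
    apply RingHom.ext
    intro c
    exact (pb.lift z hz2).commutes c
  rw [h3, hτ]

theorem norm_le_one_of_root {P : Type*} [CommRing P] (p : ℕ) [Fact p.Prime] (θ : P →+* ℤ_[p])
    (q : P[X]) (hq : ‖θ q.leadingCoeff‖ = 1) (x : ℚ_[p])
    (hx : q.eval₂ ((PadicInt.Coe.ringHom (p := p)).comp θ) x = 0) : ‖x‖ ≤ 1 := by
  have h0 : θ q.leadingCoeff ≠ 0 := by
    intro h
    rw [h, norm_zero] at hq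
    exact zero_ne_one hq
  have h1 : aeval x (q.map θ) = 0 := by
    rw [aeval_def, eval₂_map]
    exact hx
  have h2 := isIntegral_leadingCoeff_smul (q.map θ) x h1
  rw [leadingCoeff_map_of_leadingCoeff_ne_zero θ h0] at h2
  obtain ⟨u, hu⟩ := PadicInt.isUnit_iff.2 hq
  have h3 : IsIntegral ℤ_[p] x := by
    have h4 : x = (↑u⁻¹ : ℤ_[p]) • (θ q.leadingCoeff • x) := by
      rw [smul_smul, ← hu, Units.inv_mul, one_smul]
    rw [h4]
    exact h2.smul _
  obtain ⟨y, hy⟩ := IsIntegrallyClosed.isIntegral_iff.1 h3
  rw [← hy]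
  exact PadicInt.norm_le_one y

/-- A finitely generated field of characteristic zero embeds into `ℚ_p`, for arbitrarily large primes
`p`, such that given elements become integral. Proof: adapt `exists_padic_root_all` and
`exists_embedding_all` of `Pool.Agent.Helper38.Dml.Embed`: with a transcendence basis `x` in `K`,
every given element `c` is a zero of a polynomial over `P = ℤ[x]` with leading coefficient
`D_c ≠ 0`; choose the point `τ` there such that also `∏ D_c (τ) ≠ 0`, and `p` larger than this
integer; then `D_c (s)` is a unit and `φ c` is integral over the `p`-adic integers. -/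
theorem exists_padic_int {K : Type*} [Field K] [Algebra ℚ K]
    (hK : (⊤ : IntermediateField ℚ K).FG) (S : Finset K) (N : ℕ) :
    ∃ p, N < p ∧ ∃ hp : p.Prime, haveI := Fact.mk hp; ∃ φ : K →+* ℚ_[p], ∀ c ∈ S, ‖φ c‖ ≤ 1 := by
  classical
  have : CharZero K := algebraRat.charZero K
  obtain ⟨S', hS⟩ := hK
  have hmem : ∀ x : K, x ∈ IntermediateField.adjoin ℚ (S' : Set K) := fun x => by
    rw [hS]; trivial
  -- K is algebraic over the ring generated by S'
  have halg : Algebra.IsAlgebraic (Algebra.adjoin ℤ (S' : Set K)) K := by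
    constructor
    intro x
    refine IntermediateField.adjoin_induction ℚ
      (p := fun x _ => IsAlgebraic (Algebra.adjoin ℤ (S' : Set K)) x) ?_ ?_ ?_ ?_ ?_ (hmem x)
    · intro x hx
      exact isAlgebraic_algebraMap (⟨x, Algebra.subset_adjoin hx⟩ : Algebra.adjoin ℤ (S' : Set K))
    · intro q
      have h0 : IsAlgebraic ℤ q :=
        (IsFractionRing.isAlgebraic_iff ℤ ℚ ℚ).2 (isAlgebraic_algebraMap q)
      have h1 : IsAlgebraic ℤ (algebraMap ℚ K q) := h0.algebraMap
      exact h1.extendScalars (FaithfulSMul.algebraMap_injective ℤ (Algebra.adjoin ℤ (S' : Set K)))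
    · intro x y _ _ hx hy
      exact hx.add hy
    · intro x _ hx
      exact hx.inv
    · intro x y _ _ hx hy
      exact hx.mul hy
  obtain ⟨t, htS, ht⟩ := exists_isTranscendenceBasis_subset (R := ℤ) (S' : Set K)
  have htfin : t.Finite := S'.finite_toSet.subset htS
  have : Fintype t := htfin.fintype
  obtain ⟨r, ⟨e⟩⟩ : ∃ r, Nonempty (Fin r ≃ t) := ⟨_, ⟨(Fintype.equivFin t).symm⟩⟩
  have hx := ht.comp_equiv e
  set x : Fin r → K := fun i => (e i : K) with hxdef
  have hxi : AlgebraicIndependent ℤ x := hx.1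
  let P := MvPolynomial (Fin r) ℤ
  let _ : Algebra P K := (MvPolynomial.aeval x : P →ₐ[ℤ] K).toRingHom.toAlgebra
  have hinj : Function.Injective (algebraMap P K) := hxi
  have : FaithfulSMul P K := (faithfulSMul_iff_algebraMap_injective P K).2 hinj
  have halgP : Algebra.IsAlgebraic P K := by
    have h1 : Algebra.IsAlgebraic (Algebra.adjoin ℤ (Set.range x)) K := hx.isAlgebraic
    refine Algebra.IsAlgebraic.of_ringHom_of_comp_eq (S := Algebra.adjoin ℤ (Set.range x)) (B := K)
      hxi.aevalEquiv (RingHom.id K) hxi.aevalEquiv.surjective (fun _ _ h => h) ?_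
    apply RingHom.ext
    intro P'
    change ((hxi.aevalEquiv P' : Algebra.adjoin ℤ (Set.range x)) : K) = MvPolynomial.aeval x P'
    exact hxi.algebraMap_aevalEquiv P'
  let Q := FractionRing P
  let _ : Algebra Q K := FractionRing.liftAlgebra P K
  have : IsScalarTower P Q K := FractionRing.isScalarTower_liftAlgebra P K
  have halgQ : Algebra.IsAlgebraic Q K := IsFractionRing.comap_isAlgebraic_iff.1 halgP
  have htop : IntermediateField.adjoin Q (S' : Set K) = ⊤ := by
    rw [eq_top_iff]
    intro y _
    refine IntermediateField.adjoin_induction ℚ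
      (p := fun y _ => y ∈ IntermediateField.adjoin Q (S' : Set K)) ?_ ?_ ?_ ?_ ?_ (hmem y)
    · intro y hy
      exact IntermediateField.subset_adjoin _ _ hy
    · intro q
      rw [eq_ratCast]
      exact SubfieldClass.ratCast_mem _ q
    · intro y z _ _ hy hz
      exact add_mem hy hz
    · intro y _ hy
      exact inv_mem hy
    · intro y z _ _ hy hz
      exact mul_mem hy hz
  have hfin : FiniteDimensional Q K := by
    have h1 : FiniteDimensional Q (IntermediateField.adjoin Q (S' : Set K)) :=
      IntermediateField.finiteDimensional_adjoin (fun y _ => (halgQ.isAlgebraic y).isIntegral)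
    rw [htop] at h1
    exact LinearEquiv.finiteDimensional (IntermediateField.topEquiv (F := Q) (E := K)).toLinearEquiv
  let pb := Field.powerBasisOfFiniteOfSeparable Q K
  set f := minpoly Q pb.gen with hf
  have hfint : IsIntegral Q pb.gen := (halgQ.isAlgebraic pb.gen).isIntegral
  have hfsep : f.Separable := (minpoly.irreducible hfint).separable
  have hfdeg : 0 < f.natDegree := minpoly.natDegree_pos hfint
  obtain ⟨g, U, V, E, b, hb0, hE, hbez, hgdeg, hg⟩ := exists_clear (P := P) f hfsep hfdeg
  have hq : ∀ c : K, ∃ q : P[X], q ≠ 0 ∧ aeval c q = 0 := fun c => halgP.isAlgebraic c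
  choose q hq0 hqc using hq
  set D : P := ∏ c ∈ S, (q c).leadingCoeff with hDdef
  have hD0 : D ≠ 0 := Finset.prod_ne_zero_iff.2 (fun c _ => leadingCoeff_ne_zero.2 (hq0 c))
  obtain ⟨g₀, hg₀, M, hM⟩ := root_int r g (C D * U) (C D * V) (D * E) (mul_ne_zero hD0 hE) (by
    rw [C_mul, ← hbez]; ring) hgdeg
  obtain ⟨p, hpN, hp, hn⟩ := exists_prime_root g₀ hg₀ (N + M)
  refine ⟨p, by omega, hp, ?_⟩
  have := Fact.mk hp
  obtain ⟨s, hs, hnorm, z, hz⟩ := hM p (by omega) hp hn
  set θ : P →+* ℤ_[p] := MvPolynomial.eval₂Hom (Int.castRingHom ℤ_[p]) s with hθ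
  have h4 : (PadicInt.Coe.ringHom (p := p)).comp θ =
      (MvPolynomial.aeval (fun i => (s i : ℚ_[p])) :
      MvPolynomial (Fin r) ℤ →ₐ[ℤ] ℚ_[p]).toRingHom := by
    apply MvPolynomial.ringHom_ext
    · intro c
      simp [hθ]
    · intro i
      have h5 : (PadicInt.Coe.ringHom (p := p)) (s i) = (s i : ℚ_[p]) := rfl
      simp [hθ, h5]
  have hinj2 : Function.Injective ((PadicInt.Coe.ringHom (p := p)).comp θ) := by
    rw [h4]
    exact hs
  obtain ⟨φ, hφ⟩ := embed_ext pb _ hinj2 z b hb0 g hg hz
  refine ⟨φ, fun c hc => ?_⟩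
  have hφP : φ.comp (algebraMap P K) = (PadicInt.Coe.ringHom (p := p)).comp θ := by
    rw [IsScalarTower.algebraMap_eq P Q K, hφ]
  refine norm_le_one_of_root p θ (q c) ?_ (φ c) ?_
  · rw [map_mul, norm_mul] at hnorm
    have h5 : ‖θ D‖ = 1 := by
      refine le_antisymm (PadicInt.norm_le_one _) ?_
      rw [← hnorm]
      exact mul_le_of_le_one_right (norm_nonneg _) (PadicInt.norm_le_one _)
    rw [hDdef, ← Finset.mul_prod_erase S _ hc, map_mul, norm_mul] at h5
    refine le_antisymm (PadicInt.norm_le_one _) ?_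
    rw [← h5]
    exact mul_le_of_le_one_right (norm_nonneg _) (PadicInt.norm_le_one _)
  · rw [← hφP]
    have h6 := hom_eval₂ (q c) (algebraMap P K) φ c
    rw [← h6]
    have h7 : eval₂ (algebraMap P K) c (q c) = 0 := hqc c
    rw [h7, map_zero]

end Pool.Agent.Helper33.SS

end

section

/-!
# Skolem's theorem for exponential polynomials with roots in a torsion free group
-/

set_option autoImplicit false

namespace Pool.Agent.Helper65.TNL

open Finset

/-- The zeros of an exponential polynomial: if there are infinitely many, they contain a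
progression. -/
theorem exists_progression {K : Type*} [Field K] [CharZero K] {ι : Type} [Fintype ι]
    (c : ι → K) (a : ι → ℕ) (μ : ι → Kˣ)
    (hinf : {s : ℕ | ∑ i, c i * ((s : K) ^ a i * (μ i : K) ^ s) = 0}.Infinite) :
    ∃ N : ℕ, 0 < N ∧ ∃ t : ℕ, ∀ m : ℕ,
      ∑ i, c i * (((N * m + t : ℕ) : K) ^ a i * (μ i : K) ^ (N * m + t)) = 0 := by
  classical
  -- the field generated by all the constants
  set T : Finset K := (univ.image c) ∪ (univ.image fun i => (μ i : K)) ∪
    (univ.image fun i => ((μ i)⁻¹ : Kˣ).val) with hT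
  set K' : IntermediateField ℚ K := IntermediateField.adjoin ℚ (T : Set K) with hK'
  have hfg : (⊤ : IntermediateField ℚ K').FG := by
    have h1 : K'.FG := ⟨T, rfl⟩
    exact (IntermediateField.fg_top_iff).2 (IntermediateField.essFiniteType_iff.2 h1)
  have hmem : ∀ x ∈ T, x ∈ K' := fun x hx => IntermediateField.subset_adjoin ℚ _ hx
  have hc : ∀ i, c i ∈ K' := fun i => hmem _ (by
    rw [hT]; exact mem_union_left _ (mem_union_left _ (mem_image_of_mem _ (mem_univ i))))
  have hμ : ∀ i, (μ i : K) ∈ K' := fun i => hmem _ (by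
    rw [hT]
    exact mem_union_left _ (mem_union_right _ (mem_image_of_mem (fun i => (μ i : K)) (mem_univ i))))
  set c' : ι → K' := fun i => ⟨c i, hc i⟩ with hc'
  set μ' : ι → K' := fun i => ⟨(μ i : K), hμ i⟩ with hμ'
  have hne : ∀ i, μ' i ≠ 0 := by
    intro i h
    exact (μ i).ne_zero (congrArg Subtype.val h)
  obtain ⟨p, -, hp, φ, hφ⟩ := Pool.Agent.Helper33.SS.exists_padic_int hfg
    ((univ.image μ') ∪ (univ.image fun i => (μ' i)⁻¹)) 0
  have := Fact.mk hp
  have h1 : ∀ i, ‖φ (μ' i)‖ ≤ 1 := fun i => hφ _ (mem_union_left _ (mem_image_of_mem μ' (mem_univ i)))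
  have h2 : ∀ i, ‖φ (μ' i)⁻¹‖ ≤ 1 := fun i =>
    hφ _ (mem_union_right _ (mem_image_of_mem (fun i => (μ' i)⁻¹) (mem_univ i)))
  set u : ι → ℤ_[p] := fun i => ⟨φ (μ' i), h1 i⟩ with hu
  set w : ι → ℤ_[p] := fun i => ⟨φ (μ' i)⁻¹, h2 i⟩ with hw
  have huw : ∀ i, u i * w i = 1 := by
    intro i
    apply PadicInt.ext
    rw [PadicInt.coe_mul, PadicInt.coe_one]
    show φ (μ' i) * φ (μ' i)⁻¹ = 1
    rw [← map_mul, mul_inv_cancel₀ (hne i), map_one]
  have hunit : ∀ i, IsUnit (u i) := fun i => IsUnit.of_mul_eq_one _ (huw i)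
  -- the polynomial map
  set F : Option ι → MvPolynomial (Option ι) ℤ_[p] := fun j => match j with
    | none => MvPolynomial.X none + 1
    | some i => MvPolynomial.C (u i) * MvPolynomial.X (some i) with hF
  set x : Option ι → ℤ_[p] := fun j => match j with
    | none => 0
    | some _ => 1 with hx
  have horb : ∀ n, (Pool.Agent.Helper37.step F)^[n] x = fun j => match j with
      | none => (n : ℤ_[p])
      | some i => u i ^ n := by
    intro n
    induction n with
    | zero =>
      funext j
      cases j with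
      | none => simp [hx]
      | some i => simp [hx]
    | succ n ih =>
      rw [Function.iterate_succ_apply', ih]
      funext j
      cases j with
      | none => simp [Pool.Agent.Helper37.step, hF]
      | some i => simp [Pool.Agent.Helper37.step, hF, pow_succ, mul_comm]
  have hjac : ∀ y, Pool.Agent.Helper37.jac F y = Matrix.diagonal (fun j => match j with
      | none => (1 : ℤ_[p])
      | some i => u i) := by
    intro y
    ext j l
    cases j with
    | none =>
      cases l with
      | none => simp [Pool.Agent.Helper37.jac, hF, MvPolynomial.pderiv_X]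
      | some i => simp [Pool.Agent.Helper37.jac, hF, MvPolynomial.pderiv_X]
    | some i =>
      cases l with
      | none => simp [Pool.Agent.Helper37.jac, hF, MvPolynomial.pderiv_X]
      | some i' =>
        by_cases hii : i' = i
        · subst hii
          simp [Pool.Agent.Helper37.jac, hF, MvPolynomial.pderiv_X]
        · have h3 : (some i : Option ι) ≠ some i' := fun h => hii (Option.some_inj.1 h).symm
          simp [Pool.Agent.Helper37.jac, hF, MvPolynomial.pderiv_X, h3, Matrix.diagonal_apply_ne]
  obtain ⟨T', hT'⟩ := Pool.Agent.Helper37.returnSet_progressions (R := ℤ_[p]) p hp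
    (by rw [IsLocalRing.mem_maximalIdeal]; exact PadicInt.p_nonunit)
    (L := ℚ_[p]) (FaithfulSMul.algebraMap_injective ℤ_[p] ℚ_[p]) F x
    (by
      intro n
      rw [hjac, Matrix.det_diagonal]
      rw [IsUnit.prod_univ_iff]
      intro j
      cases j with
      | none => exact isUnit_one
      | some i => exact hunit i)
    {∑ i, MvPolynomial.C (φ (c' i)) * (MvPolynomial.X none ^ a i * MvPolynomial.X (some i))}
  have hset : {s : ℕ | ∑ i, c i * ((s : K) ^ a i * (μ i : K) ^ s) = 0}
      = {n : ℕ | ∃ p ∈ T', ∃ m : ℕ, n = p.1 * m + p.2} := by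
    rw [← hT']
    ext s
    simp only [Set.mem_ofPred_eq, Set.mem_singleton_iff, forall_eq]
    have e1 : (MvPolynomial.eval fun i => algebraMap ℤ_[p] ℚ_[p]
          ((Pool.Agent.Helper37.step F)^[s] x i))
          (∑ i, MvPolynomial.C (φ (c' i)) * (MvPolynomial.X none ^ a i * MvPolynomial.X (some i)))
        = φ (∑ i, c' i * ((s : K') ^ a i * μ' i ^ s)) := by
      rw [horb, map_sum, map_sum]
      refine Finset.sum_congr rfl fun i _ => ?_
      simp only [map_mul, map_pow, MvPolynomial.eval_C, MvPolynomial.eval_X, map_natCast]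
      rfl
    rw [e1, map_eq_zero]
    have e2 : ((∑ i, c' i * ((s : K') ^ a i * μ' i ^ s) : K') : K)
        = ∑ i, c i * ((s : K) ^ a i * (μ i : K) ^ s) := by
      push_cast
      rfl
    rw [← e2]
    exact ZeroMemClass.coe_eq_zero
  rw [hset] at hinf
  -- an infinite progression
  have h3 : ∃ q ∈ T', 0 < q.1 := by
    by_contra hcon
    push Not at hcon
    apply hinf
    refine Set.Finite.subset (T'.image Prod.snd).finite_toSet ?_
    rintro n ⟨q, hq, m, rfl⟩
    have h4 : q.1 = 0 := Nat.le_zero.1 (hcon q hq)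
    rw [h4, zero_mul, zero_add]
    exact mem_coe.2 (mem_image_of_mem _ hq)
  obtain ⟨q, hq, hq0⟩ := h3
  refine ⟨q.1, hq0, q.2, fun m => ?_⟩
  have h4 : q.1 * m + q.2 ∈ {s : ℕ | ∑ i, c i * ((s : K) ^ a i * (μ i : K) ^ s) = 0} := by
    rw [hset]
    exact ⟨q, hq, m, rfl⟩
  exact h4

/-- **Skolem's theorem.** An exponential polynomial with roots in a torsion free group and with
infinitely many zeros is zero. -/
theorem skolem {k : Type*} [Field k] [CharZero k] {M : Subgroup kˣ} (hM : TorFree M)
    {f : ℕ → k} (hf : f ∈ EP M) (hinf : {s : ℕ | f s = 0}.Infinite) : f = 0 := by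
  classical
  -- write `f` as a finite sum of monomials
  have h1 : ∃ (n : ℕ) (c : Fin n → k) (a : Fin n → ℕ) (μ : Fin n → kˣ),
      ∀ s : ℕ, f s = ∑ i, c i * ((s : k) ^ a i * (μ i : k) ^ s) := by
    clear hinf
    induction hf using Submodule.span_induction with
    | mem x hx =>
      obtain ⟨a, μ, hμ, rfl⟩ := hx
      exact ⟨1, fun _ => 1, fun _ => a, fun _ => μ, fun s => by simp [mono]⟩
    | zero => exact ⟨0, fun _ => 0, fun _ => 0, fun _ => 1, fun s => by simp⟩
    | add y z _ _ hy hz =>
      obtain ⟨n, c, a, μ, h⟩ := hy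
      obtain ⟨n', c', a', μ', h'⟩ := hz
      refine ⟨n + n', Fin.append c c', Fin.append a a', Fin.append μ μ', fun s => ?_⟩
      rw [Pi.add_apply, h, h', Fin.sum_univ_add]
      simp
    | smul b y _ hy =>
      obtain ⟨n, c, a, μ, h⟩ := hy
      refine ⟨n, fun i => b * c i, a, μ, fun s => ?_⟩
      rw [Pi.smul_apply, h, smul_eq_mul, Finset.mul_sum]
      exact Finset.sum_congr rfl fun i _ => by ring
  obtain ⟨n, c, a, μ, h⟩ := h1
  obtain ⟨N, hN, t, hNt⟩ := exists_progression c a μ (by
    refine hinf.mono fun s hs => ?_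
    rw [Set.mem_ofPred_eq, ← h s]
    exact hs)
  refine eq_zero_of_progression hM hf hN t fun m => ?_
  rw [h]
  exact hNt m

end Pool.Agent.Helper65.TNL

end
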