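import Pool.Agent.Helper29.MF.T01
import Pool.Agent.Helper29.MF.T02

section

set_option autoImplicit false
set_option linter.style.haveILetI false

namespace Pool.Agent.Helper16

open Polynomial IntermediateField

section Fin

variable {K N : Type} [Field K] [Field N] [Algebra K N]

theorem intOver_of_monic {t y : N} (P : N[X]) (hP : P.Monic) (hc : ∀ j, IntOver K t (P.coeff j))
    (hy : P.eval y = 0) : IntOver K t y := by
  letI := algX K t
  let C := integralClosure K[X] N
  have hl : P ∈ Polynomial.lifts (algebraMap C N) := by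
    rw [Polynomial.lifts_iff_coeff_lifts]
    intro j
    exact ⟨⟨P.coeff j, hc j⟩, rfl⟩
  obtain ⟨Q, hQ, -, hQm⟩ := Polynomial.lifts_and_natDegree_eq_and_monic hl hP
  have h1 : IsIntegral C y := by
    refine ⟨Q, hQm, ?_⟩
    rw [← Polynomial.eval_map, hQ, hy]
  exact isIntegral_trans (R := K[X]) (A := C) y h1

theorem intOver_inv_aeval_mul {s : N} (hs0 : s ≠ 0) (a : K[X]) (e : ℕ) (he : a.natDegree ≤ e) :
    IntOver K s⁻¹ (aeval s a * s⁻¹ ^ e) := by
  rw [Polynomial.aeval_eq_sum_range' (n := e + 1) (by omega), Finset.sum_mul]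
  refine Finset.sum_induction _ (fun x => IntOver K s⁻¹ x) (fun _ _ => IntOver.add)
    (IntOver.zero _) ?_
  intro i hi
  rw [Finset.mem_range] at hi
  have h1 : a.coeff i • s ^ i * s⁻¹ ^ e = a.coeff i • (s⁻¹ ^ (e - i)) := by
    rw [smul_mul_assoc]
    congr 1
    have : e = i + (e - i) := by omega
    rw [this, pow_add, ← mul_assoc, ← mul_pow, mul_inv_cancel₀ hs0, one_pow, one_mul]
    congr 1
    omega
  rw [h1]
  exact ((IntOver.self _).pow _).smul _

theorem exists_twist {s x : N} (hs0 : s ≠ 0) (hx : IntOver K s x) :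
    ∃ e : ℕ, ∀ e', e ≤ e' → IntOver K s⁻¹ (s⁻¹ ^ e' * x) := by
  obtain ⟨P, hP, hP0⟩ := hx
  let e := P.support.sup (fun j => (P.coeff j).natDegree)
  have he : ∀ j, (P.coeff j).natDegree ≤ e := by
    intro j
    by_cases hj : j ∈ P.support
    · exact Finset.le_sup (f := fun j => (P.coeff j).natDegree) hj
    · rw [Polynomial.notMem_support_iff.1 hj]; simp
  have main : IntOver K s⁻¹ (s⁻¹ ^ e * x) := by
    let P' : N[X] := P.map (aeval s : K[X] →ₐ[K] N).toRingHom
    have hP' : P'.Monic := hP.map _
    refine intOver_of_monic (scaleRoots P' (s⁻¹ ^ e)) ?_ ?_ ?_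
    · exact (monic_scaleRoots_iff _).2 hP'
    · intro j
      rw [coeff_scaleRoots]
      rcases lt_trichotomy j P'.natDegree with hj | hj | hj
      · obtain ⟨k, hk⟩ : ∃ k, P'.natDegree - j = k + 1 := ⟨P'.natDegree - j - 1, by omega⟩
        rw [hk, pow_succ, mul_comm ((s⁻¹ ^ e) ^ k), ← mul_assoc]
        refine IntOver.mul ?_ (((IntOver.self _).pow _).pow _)
        rw [Polynomial.coeff_map]
        exact intOver_inv_aeval_mul hs0 _ _ (he j)
      · rw [hj, hP'.coeff_natDegree, Nat.sub_self, pow_zero, one_mul]
        simpa using IntOver.const (K := K) s⁻¹ 1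
      · rw [coeff_eq_zero_of_natDegree_lt hj, zero_mul]
        exact IntOver.zero _
    · have h0 : P'.eval x = 0 := by
        rw [Polynomial.eval_map]; exact hP0
      have := scaleRoots_eval₂_mul (f := RingHom.id N) (p := P') (r := x) (s := s⁻¹ ^ e)
      simp only [RingHom.id_apply, eval₂_id] at this
      rw [this, h0, mul_zero]
  refine ⟨e, fun e' he' => ?_⟩
  obtain ⟨d, rfl⟩ := Nat.exists_eq_add_of_le he'
  rw [pow_add, mul_comm (s⁻¹ ^ e), mul_assoc]
  exact ((IntOver.self _).pow _).mul main

theorem transcendental_ne_zero {s : N} (hs : Transcendental K s) : s ≠ 0 := by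
  rintro rfl
  exact hs isAlgebraic_zero

theorem transcendental_inv {s : N} (hs : Transcendental K s) : Transcendental K s⁻¹ := by
  intro h
  apply hs
  simpa using IsAlgebraic.inv h

theorem adjoin_inv_eq (s : N) : K⟮s⁻¹⟯ = K⟮s⟯ := by
  apply le_antisymm
  · rw [adjoin_simple_le_iff]
    exact inv_mem (mem_adjoin_simple_self K s)
  · rw [adjoin_simple_le_iff]
    have := inv_mem (mem_adjoin_simple_self K s⁻¹)
    rwa [inv_inv] at this

theorem finrank_inv (s : N) : Module.finrank K⟮s⁻¹⟯ N = Module.finrank K⟮s⟯ N := by
  rw [adjoin_inv_eq]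

theorem finiteDimensional_inv (s : N) [h : FiniteDimensional K⟮s⟯ N] :
    FiniteDimensional K⟮s⁻¹⟯ N := by
  rw [adjoin_inv_eq]; exact h

/-- The integral closure of `K[s]` in a finite extension of `K(s)` is a finite module. -/
theorem finite_integralClosure (s : N) (hs : Transcendental K s) [FiniteDimensional K⟮s⟯ N] :
    @Module.Finite K[X] (@integralClosure K[X] N _ _ (algX K s)) _ _
      (@Algebra.toModule _ _ _ _ (@Subalgebra.algebra _ _ _ _ (algX K s) _)) := by
  classical
  letI := algX K s
  letI := algXF K s
  haveI := towerXF (K := K) s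
  haveI := towerX (K := K) s
  haveI := isFractionRing_algXF s hs
  haveI := faithfulX s hs
  haveI := finiteDimensional_inv (K := K) s
  have hs0 := transcendental_ne_zero hs
  obtain ⟨S, ω, hω⟩ := FiniteDimensional.exists_is_basis_integral K[X] K⟮s⟯ N
  let B := integralClosure K[X] N
  let ω' : S → B := fun i => ⟨ω i, hω i⟩
  let B₀ : Submodule K[X] B := Submodule.span K[X] (Set.range ω')
  haveI : Module.Finite K[X] B₀ := Module.Finite.span_of_finite K[X] (Set.finite_range ω')
  have hcardS : Fintype.card S = Module.finrank K⟮s⟯ N := (Module.finrank_eq_card_basis ω).symm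
  -- uniform twist for the basis
  choose e he using fun i => exists_twist hs0 (show IntOver K s (ω i) from hω i)
  let E := Finset.univ.sup e
  have hE : ∀ i, IntOver K s⁻¹ (s⁻¹ ^ E * ω i) := fun i =>
    he i E (Finset.le_sup (Finset.mem_univ i))
  haveI : Module.Finite K (B ⧸ B₀) := by
    have hr : Module.rank K (B ⧸ B₀) ≤ ((Module.finrank K⟮s⟯ N * E : ℕ) : Cardinal) := by
      apply rank_le
      intro T hT
      let bj : T → B := fun j => (B₀.mkQ_surjective j.1).choose
      have hbj : ∀ j, B₀.mkQ (bj j) = j.1 := fun j => (B₀.mkQ_surjective j.1).choose_spec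
      choose c hc using fun j => exists_twist hs0 (show IntOver K s ((bj j : B) : N) from (bj j).2)
      let M := Finset.univ.sup c
      let D := M + E
      have hD : ∀ j, IntOver K s⁻¹ (s⁻¹ ^ D * ((bj j : B) : N)) := fun j =>
        hc j D ((Finset.le_sup (Finset.mem_univ j)).trans (Nat.le_add_right M E))
      let γ : (S × Fin (M + 1)) ⊕ T → N := Sum.elim (fun x => s ^ x.2.val * ω x.1) (fun j => (bj j : N))
      have hγ : ∀ x, IntOver K s (γ x) := by
        rintro (⟨i, a⟩ | j)
        · exact ((IntOver.self s).pow _).mul (hω i)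
        · exact (bj j).2
      have hcard := card_le_of_indep_mod (K := K) s⁻¹ (transcendental_inv hs) (D + 1)
        (fun x => s⁻¹ ^ D * γ x) (by
          rintro (⟨i, a⟩ | j)
          · change IntOver K s⁻¹ (s⁻¹ ^ D * (s ^ a.val * ω i))
            have h1 : s⁻¹ ^ D * (s ^ a.val * ω i) = s⁻¹ ^ (M - a.val) * (s⁻¹ ^ E * ω i) := by
              have h2 : D = (M - a.val) + E + a.val := by
                have := a.isLt
                omega
              rw [h2, pow_add, pow_add]
              have h3 : s⁻¹ ^ a.val * s ^ a.val = 1 := by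
                rw [← mul_pow, inv_mul_cancel₀ hs0, one_pow]
              linear_combination (s⁻¹ ^ (M - a.val) * s⁻¹ ^ E * ω i) * h3
            rw [h1]
            exact ((IntOver.self _).pow _).mul (hE i)
          · exact hD j) (by
          intro d y hy hd
          have h1 : ∑ x, d x • (s⁻¹ ^ D * γ x) = s⁻¹ ^ D * ∑ x, d x • γ x := by
            rw [Finset.mul_sum]
            refine Finset.sum_congr rfl fun x _ => ?_
            rw [mul_smul_comm]
          rw [h1, pow_succ, mul_assoc] at hd
          have h2 : ∑ x, d x • γ x = s⁻¹ * y :=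
            mul_left_cancel₀ (pow_ne_zero D (inv_ne_zero hs0)) hd
          have h3 : ∑ x, d x • γ x = 0 := by
            apply eq_zero_of_intOver (K := K) hs
            · exact Finset.sum_induction _ (fun x => IntOver K s x) (fun _ _ => IntOver.add)
                (IntOver.zero _) (fun x _ => (hγ x).smul _)
            · rw [h2, ← mul_assoc, mul_inv_cancel₀ hs0, one_mul]
              exact hy
          rw [Fintype.sum_sum_type] at h3
          -- reduce modulo B₀
          let z : B := ∑ x : S × Fin (M + 1), (C (d (Sum.inl x)) * X ^ x.2.val : K[X]) • ω' x.1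
          have hz : z ∈ B₀ := Submodule.sum_mem _ fun x _ =>
            Submodule.smul_mem _ _ (Submodule.subset_span ⟨x.1, rfl⟩)
          have hzN : (z : N) = ∑ x : S × Fin (M + 1), d (Sum.inl x) • γ (Sum.inl x) := by
            simp only [z, AddSubmonoidClass.coe_finsetSum]
            refine Finset.sum_congr rfl fun x _ => ?_
            rw [Subalgebra.coe_smul, Algebra.smul_def, algX_apply]
            simp only [map_mul, aeval_C, map_pow, aeval_X, Algebra.smul_def, ω', γ, Sum.elim_inl]
            ring
          have h4 : z + ∑ j, d (Sum.inr j) • bj j = 0 := by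
            apply Subtype.ext
            rw [AddMemClass.coe_add, hzN, AddSubmonoidClass.coe_finsetSum]
            exact h3
          have h5 : ∑ j : T, d (Sum.inr j) • (j : B ⧸ B₀) = 0 := by
            have h6 := congrArg (B₀.mkQ) h4
            rw [map_add, map_zero, Submodule.mkQ_apply, (Submodule.Quotient.mk_eq_zero B₀).2 hz,
              zero_add, map_sum] at h6
            rw [← h6]
            refine Finset.sum_congr rfl fun j _ => ?_
            rw [← hbj j]
            rfl
          have h7 : ∀ j, d (Sum.inr j) = 0 :=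
            Fintype.linearIndependent_iff.1 hT (fun j => d (Sum.inr j)) h5
          have h8 : ∑ x : S × Fin (M + 1), d (Sum.inl x) • γ (Sum.inl x) = 0 := by
            rw [← h3]
            simp [h7]
          have h9 : ∀ i : S, (∑ a : Fin (M + 1), C (d (Sum.inl (i, a))) * X ^ a.val : K[X]) = 0 := by
            have hli : LinearIndependent K[X] (fun i => ω i) :=
              (LinearIndependent.iff_fractionRing K[X] K⟮s⟯).2 ω.linearIndependent
            refine Fintype.linearIndependent_iff.1 hli _ ?_
            rw [← h8, Fintype.sum_prod_type]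
            refine Finset.sum_congr rfl fun i _ => ?_
            rw [Finset.sum_smul]
            refine Finset.sum_congr rfl fun a _ => ?_
            rw [Algebra.smul_def, algX_apply]
            simp only [map_mul, aeval_C, map_pow, aeval_X, Algebra.smul_def, γ, Sum.elim_inl]
            ring
          funext x
          rcases x with ⟨i, a⟩ | j
          · have h10 := congrArg (fun p => Polynomial.coeff p a.val) (h9 i)
            simp only [finsetSum_coeff, coeff_C_mul_X_pow, coeff_zero] at h10
            rw [Finset.sum_eq_single a] at h10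
            · simpa using h10
            · intro a' _ ha'
              rw [if_neg]
              intro h
              exact ha' (Fin.ext h.symm)
            · intro h
              exact absurd (Finset.mem_univ a) h
          · exact h7 j)
      rw [Fintype.card_sum, Fintype.card_prod, Fintype.card_fin, hcardS, finrank_inv,
        Fintype.card_coe] at hcard
      have h11 : D + 1 = (M + 1) + E := by omega
      have h12 : Module.finrank K⟮s⟯ N * (D + 1) =
          Module.finrank K⟮s⟯ N * (M + 1) + Module.finrank K⟮s⟯ N * E := by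
        rw [h11, Nat.mul_add]
      rw [h12] at hcard
      exact Nat.le_of_add_le_add_left hcard
    have hlt : Module.rank K (B ⧸ B₀) < Cardinal.aleph0 := lt_of_le_of_lt hr (Cardinal.natCast_lt_aleph0)
    exact Module.rank_lt_aleph0_iff.1 hlt
  haveI : Module.Finite K[X] (B ⧸ B₀) := Module.Finite.of_restrictScalars_finite K K[X] (B ⧸ B₀)
  exact Module.Finite.of_submodule_quotient B₀

end Fin

end Pool.Agent.Helper16

end

section

set_option autoImplicit false
set_option linter.style.haveILetI false

namespace Pool.Agent.Helper16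

open Polynomial IntermediateField IsDedekindDomain

theorem valuation_eq_of_le {N : Type} [Field N] (v w : Valuation N (WithZero (Multiplicative ℤ)))
    (hv : Function.Surjective v) (hw : Function.Surjective w)
    (h : ∀ x, w x ≤ 1 → v x ≤ 1) : v = w := by
  have h1 : ∀ x, w x = 1 → v x = 1 := by
    intro x hx
    have hx0 : x ≠ 0 := by
      rintro rfl
      rw [map_zero] at hx
      exact zero_ne_one hx
    refine le_antisymm (h x hx.le) ?_
    have := h x⁻¹ (by rw [map_inv₀, hx, inv_one])
    rw [map_inv₀] at this
    exact (inv_le_one₀ (zero_lt_iff.2 (by simpa using hx0))).1 this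
  obtain ⟨p, hp⟩ := hw (WithZero.exp (-1 : ℤ))
  have hp0 : p ≠ 0 := by
    rintro rfl
    rw [map_zero] at hp
    exact WithZero.exp_ne_zero hp.symm
  have h2 : ∀ x (n : ℤ), x ≠ 0 → w x = WithZero.exp (-n) → v x = (v p) ^ n := by
    intro x n hx hn
    have h3 : w (x * (p ^ n)⁻¹) = 1 := by
      rw [map_mul, map_inv₀, map_zpow₀, hn, hp, ← WithZero.exp_zsmul]
      simp
    have h4 := h1 _ h3
    rw [map_mul, map_inv₀, map_zpow₀] at h4
    exact (mul_inv_eq_one₀ (zpow_ne_zero _ (by simpa using hp0))).1 h4
  have h5 : v p ≤ 1 := h p (by rw [hp, ← WithZero.exp_zero, WithZero.exp_le_exp]; norm_num)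
  have hvp0 : v p ≠ 0 := by simpa using hp0
  have key : ∀ x, x ≠ 0 → WithZero.log (v x) = WithZero.log (v p) * (-WithZero.log (w x)) := by
    intro x hx
    have hwx : w x ≠ 0 := by simpa using hx
    have := h2 x (-WithZero.log (w x)) hx (by rw [neg_neg, WithZero.exp_log hwx])
    rw [this, WithZero.log_zpow]
    simp [mul_comm]
  obtain ⟨y, hy⟩ := hv (WithZero.exp (-1 : ℤ))
  have hy0 : y ≠ 0 := by
    rintro rfl
    rw [map_zero] at hy
    exact WithZero.exp_ne_zero hy.symm
  have h6 := key y hy0
  rw [hy, WithZero.log_exp] at h6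
  have h7 : WithZero.log (v p) ≤ 0 := by
    have := (WithZero.log_le_log hvp0 one_ne_zero).2 h5
    simpa using this
  have h8 : WithZero.log (v p) = -1 := by
    have h9 : WithZero.log (v p) * WithZero.log (w y) = 1 := by linarith
    rcases Int.eq_one_or_neg_one_of_mul_eq_one h9 with h | h
    · omega
    · exact h
  ext x
  by_cases hx : x = 0
  · subst hx; simp
  · have h10 := key x hx
    rw [h8] at h10
    have h11 : WithZero.log (v x) = WithZero.log (w x) := by linarith
    rw [← WithZero.exp_log (show v x ≠ 0 by simpa using hx), h11,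
      WithZero.exp_log (show w x ≠ 0 by simpa using hx)]

section Ded

variable {K N : Type} [Field K] [Field N] [Algebra K N]

/-- The integral closure of `K[s]` in `N`. -/
@[reducible] noncomputable def IC (K : Type) {N : Type} [Field K] [Field N] [Algebra K N] (s : N) :
    @Subalgebra K[X] N _ _ (algX K s) := @integralClosure K[X] N _ _ (algX K s)

theorem isDedekindDomain_IC (s : N) (hs : Transcendental K s) [FiniteDimensional K⟮s⟯ N] :
    IsDedekindDomain (IC K s) := by
  letI := algX K s
  letI := algXF K s
  haveI := towerXF (K := K) s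
  haveI := isFractionRing_algXF s hs
  haveI := faithfulX s hs
  haveI := finite_integralClosure s hs
  haveI : IsNoetherianRing (IC K s) := IsNoetherianRing.of_finite K[X] (IC K s)
  haveI : IsIntegrallyClosed (IC K s) :=
    integralClosure.isIntegrallyClosedOfFiniteExtension K⟮s⟯
  haveI : Ring.DimensionLEOne (IC K s) := Ring.DimensionLEOne.of_isIntegral K[X] (IC K s)
  exact { }

theorem isFractionRing_IC (s : N) (hs : Transcendental K s) [FiniteDimensional K⟮s⟯ N] :
    IsFractionRing (IC K s) N := by
  letI := algX K s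
  letI := algXF K s
  haveI := towerXF (K := K) s
  haveI := isFractionRing_algXF s hs
  haveI := faithfulX s hs
  exact integralClosure.isFractionRing_of_finite_extension K⟮s⟯ N

end Ded

end Pool.Agent.Helper16

end

section

set_option autoImplicit false
set_option linter.style.haveILetI false

namespace Pool.Agent.Helper16

open Polynomial IntermediateField IsDedekindDomain

section Ded

variable {K N : Type} [Field K] [Field N] [Algebra K N]

/-- Elements integral over `K[s]` are regular at all places where `s` is regular. -/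
theorem IntOver.mem_ring {s x : N} (hx : IntOver K s x) (v : Place K N) (hs : v.val s ≤ 1) :
    v.val x ≤ 1 := by
  have := hx.mem_valuationSubring v.val.valuationSubring (fun a => v.val_algebraMap_le a) hs
  exact this

/-- The place attached to a prime of the integral closure of `K[s]`. -/
noncomputable def placeOfPrime (s : N) (hs : Transcendental K s) [FiniteDimensional K⟮s⟯ N]
    (P : HeightOneSpectrum (IC K s)) : Place K N :=
  haveI := isDedekindDomain_IC s hs
  haveI := isFractionRing_IC s hs
  { val := P.valuation N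
    surj := P.valuation_surjective N
    triv := by
      intro a ha
      have h1 : IsUnit (⟨algebraMap K N a, IntOver.const s a⟩ : IC K s) := by
        refine ⟨⟨⟨algebraMap K N a, IntOver.const s a⟩, ⟨algebraMap K N a⁻¹, IntOver.const s a⁻¹⟩,
          ?_, ?_⟩, rfl⟩
        · apply Subtype.ext
          change algebraMap K N a * algebraMap K N a⁻¹ = 1
          rw [← map_mul, mul_inv_cancel₀ ha, map_one]
        · apply Subtype.ext
          change algebraMap K N a⁻¹ * algebraMap K N a = 1
          rw [← map_mul, inv_mul_cancel₀ ha, map_one]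
      have h2 := P.valuation_of_algebraMap (K := N) (⟨algebraMap K N a, IntOver.const s a⟩ : IC K s)
      have h3 : P.intValuation (⟨algebraMap K N a, IntOver.const s a⟩ : IC K s) = 1 := by
        rw [HeightOneSpectrum.intValuation_eq_one_iff]
        intro hmem
        exact P.isPrime.ne_top (Ideal.eq_top_of_isUnit_mem _ hmem h1)
      rw [h3] at h2
      exact h2 }

theorem placeOfPrime_val_algebraMap (s : N) (hs : Transcendental K s) [FiniteDimensional K⟮s⟯ N]
    (P : HeightOneSpectrum (IC K s)) (b : IC K s) : (placeOfPrime s hs P).val (b : N) ≤ 1 := by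
  haveI := isDedekindDomain_IC s hs
  haveI := isFractionRing_IC s hs
  exact P.valuation_le_one (K := N) b

theorem placeOfPrime_val_lt (s : N) (hs : Transcendental K s) [FiniteDimensional K⟮s⟯ N]
    (P : HeightOneSpectrum (IC K s)) (b : IC K s) :
    (placeOfPrime s hs P).val (b : N) < 1 ↔ b ∈ P.asIdeal := by
  haveI := isDedekindDomain_IC s hs
  haveI := isFractionRing_IC s hs
  exact P.valuation_lt_one_iff_mem (K := N) b

theorem exists_placeOfPrime (s : N) (hs : Transcendental K s) [FiniteDimensional K⟮s⟯ N]
    (v : Place K N) (hv : v.val s ≤ 1) : ∃ P, placeOfPrime s hs P = v := by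
  haveI := isDedekindDomain_IC s hs
  haveI := isFractionRing_IC s hs
  let P : Ideal (IC K s) :=
    { carrier := {b | v.val (b : N) < 1}
      add_mem' := fun {a b} ha hb => v.val.map_add_lt ha hb
      zero_mem' := by
        change v.val ((0 : IC K s) : N) < 1
        simp
      smul_mem' := by
        intro c b hb
        change v.val ((c * b : IC K s) : N) < 1
        have h1 : ((c * b : IC K s) : N) = (c : N) * (b : N) := rfl
        rw [h1, map_mul, mul_comm]
        exact mul_lt_one_of_lt_of_le hb (IntOver.mem_ring (K := K) c.2 v hv) }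
  have hmem : ∀ b : IC K s, b ∈ P ↔ v.val (b : N) < 1 := fun b => Iff.rfl
  have hprime : P.IsPrime := by
    refine ⟨?_, ?_⟩
    · rw [Ideal.ne_top_iff_one, hmem]
      have h1 : ((1 : IC K s) : N) = 1 := rfl
      rw [h1, map_one]
      exact lt_irrefl _
    · intro a b hab
      rw [hmem] at hab
      have h1 : ((a * b : IC K s) : N) = (a : N) * (b : N) := rfl
      rw [h1, map_mul] at hab
      by_contra hcon
      rw [not_or, hmem, hmem, not_lt, not_lt] at hcon
      exact absurd hab (not_lt.2 (one_le_mul hcon.1 hcon.2))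
  have hbot : P ≠ ⊥ := by
    intro h0
    obtain ⟨y, hy⟩ := v.surj (WithZero.exp (1 : ℤ))
    obtain ⟨a, b, hb, hab⟩ := IsFractionRing.div_surjective (A := IC K s) y
    have hu : ∀ c : IC K s, c ≠ 0 → v.val (c : N) = 1 := by
      intro c hc
      refine le_antisymm (IntOver.mem_ring (K := K) c.2 v hv) ?_
      by_contra hlt
      rw [not_le] at hlt
      have : c ∈ P := hlt
      rw [h0] at this
      exact hc this
    have hb0 : b ≠ 0 := nonZeroDivisors.ne_zero hb
    have h1 : v.val (algebraMap (IC K s) N b) = 1 := hu b hb0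
    rw [← hab, map_div₀, h1, div_one] at hy
    by_cases ha : a = 0
    · rw [ha, map_zero, map_zero] at hy
      exact WithZero.exp_ne_zero hy.symm
    · have h2 : v.val (algebraMap (IC K s) N a) = 1 := hu a ha
      rw [h2, ← WithZero.exp_zero, WithZero.exp_inj] at hy
      omega
  let Q : HeightOneSpectrum (IC K s) := ⟨P, hprime, hbot⟩
  refine ⟨Q, ?_⟩
  apply Place.ext_val
  symm
  apply valuation_eq_of_le _ _ v.surj (placeOfPrime s hs Q).surj
  intro x hx
  obtain ⟨n, d, hnd⟩ := Q.exists_primeCompl_mul_eq_of_integer (K := N) x hx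
  have hd : v.val (algebraMap (IC K s) N d) = 1 := by
    refine le_antisymm (IntOver.mem_ring (K := K) d.1.2 v hv) ?_
    by_contra hlt
    rw [not_le] at hlt
    exact d.2 hlt
  have h1 := congrArg v.val hnd
  rw [map_mul, hd, mul_one] at h1
  rw [h1]
  exact IntOver.mem_ring (K := K) n.2 v hv

theorem placeOfPrime_injective (s : N) (hs : Transcendental K s) [FiniteDimensional K⟮s⟯ N] :
    Function.Injective (placeOfPrime (K := K) s hs) := by
  intro P Q h
  apply HeightOneSpectrum.ext
  ext b
  rw [← placeOfPrime_val_lt s hs P, ← placeOfPrime_val_lt s hs Q, h]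

end Ded

end Pool.Agent.Helper16

end

section

set_option autoImplicit false
set_option linter.style.haveILetI false

namespace Pool.Agent.Helper16

open Polynomial IntermediateField IsDedekindDomain

section Ded

variable {K N : Type} [Field K] [Field N] [Algebra K N]

/-- `s` as an element of the integral closure of `K[s]`. -/
def sIC (K : Type) {N : Type} [Field K] [Field N] [Algebra K N] (s : N) : IC K s :=
  ⟨s, IntOver.self s⟩

theorem algebraMap_X_IC (s : N) :
    letI := algX K s
    algebraMap K[X] (IC K s) X = sIC K s := by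
  letI := algX K s
  apply Subtype.ext
  change aeval s (X : K[X]) = s
  simp

theorem liesOver_of_mem (s : N) (P : HeightOneSpectrum (IC K s)) (h : sIC K s ∈ P.asIdeal) :
    letI := algX K s
    P.asIdeal.LiesOver (Ideal.span {(X : K[X])}) := by
  letI := algX K s
  have hmax : (Ideal.span {(X : K[X])}).IsMaximal :=
    PrincipalIdealRing.isMaximal_of_irreducible irreducible_X
  refine ⟨?_⟩
  apply hmax.eq_of_le
  · intro h1
    apply P.isPrime.ne_top
    rw [Ideal.eq_top_iff_one] at h1 ⊢
    simpa using h1
  · rw [Ideal.span_singleton_le_iff_mem]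
    change algebraMap K[X] (IC K s) X ∈ P.asIdeal
    rw [algebraMap_X_IC]
    exact h

theorem exists_resEquiv (s : N) (hs : Transcendental K s) [FiniteDimensional K⟮s⟯ N]
    (P : HeightOneSpectrum (IC K s)) :
    letI := algX K s
    haveI := towerX (K := K) s
    Nonempty ((IC K s ⧸ P.asIdeal) ≃ₐ[K] (placeOfPrime s hs P).resField) := by
  letI := algX K s
  haveI := towerX (K := K) s
  haveI := isDedekindDomain_IC s hs
  haveI := isFractionRing_IC s hs
  haveI : P.asIdeal.IsMaximal := P.isMaximal
  let v := placeOfPrime s hs P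
  let ψ : IC K s →ₐ[K] v.resField :=
    { toFun := fun b => IsLocalRing.residue v.ring ⟨(b : N), placeOfPrime_val_algebraMap s hs P b⟩
      map_one' := map_one _
      map_mul' := fun a b => by rw [← map_mul]; rfl
      map_zero' := map_zero _
      map_add' := fun a b => by rw [← map_add]; rfl
      commutes' := fun a => by
        have h1 : (⟨((algebraMap K (IC K s) a : IC K s) : N),
            placeOfPrime_val_algebraMap s hs P _⟩ : v.ring) = algebraMap K v.ring a := by
          rfl
        rw [h1]
        rfl }
  have hψ : ∀ b, ψ b = 0 ↔ b ∈ P.asIdeal := by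
    intro b
    change IsLocalRing.residue v.ring _ = 0 ↔ _
    rw [IsLocalRing.residue_eq_zero_iff, Place.mem_maximalIdeal]
    exact placeOfPrime_val_lt s hs P b
  have hsurj : Function.Surjective ψ := by
    intro r
    obtain ⟨⟨x, hx⟩, rfl⟩ := IsLocalRing.residue_surjective r
    obtain ⟨n, d, hnd⟩ := P.exists_primeCompl_mul_eq_of_integer (K := N) x hx
    obtain ⟨e, i, hi, he⟩ := P.isMaximal.exists_inv d.2
    refine ⟨n * e, ?_⟩
    change IsLocalRing.residue v.ring _ = IsLocalRing.residue v.ring _
    rw [← sub_eq_zero, ← map_sub, IsLocalRing.residue_eq_zero_iff, Place.mem_maximalIdeal]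
    have h1 : (n * e : IC K s) = (n : N) * (e : N) := rfl
    have h2 : (e : N) * ((d : IC K s) : N) + (i : N) = 1 := by
      have := congrArg (Subtype.val) he
      exact this
    have h3 : x * ((d : IC K s) : N) = (n : N) := hnd
    have h4 : ((n * e : IC K s) : N) - x = - (x * (i : N)) := by
      rw [h1, ← h3]
      linear_combination x * h2
    change v.val (((n * e : IC K s) : N) - x) < 1
    rw [h4, Valuation.map_neg, map_mul, mul_comm]
    exact mul_lt_one_of_lt_of_le ((placeOfPrime_val_lt s hs P i).2 hi) hx
  have hker : RingHom.ker ψ = P.asIdeal := by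
    ext b
    exact hψ b
  exact ⟨(Ideal.quotientEquivAlgOfEq K hker.symm).trans (Ideal.quotientKerAlgEquivOfSurjective hsurj)⟩

theorem deg_placeOfPrime (s : N) (hs : Transcendental K s) [FiniteDimensional K⟮s⟯ N]
    (P : HeightOneSpectrum (IC K s)) (h : sIC K s ∈ P.asIdeal) :
    letI := algX K s
    (placeOfPrime s hs P).deg = P.asIdeal.inertiaDeg K[X] ∧
      Module.Finite K (placeOfPrime s hs P).resField := by
  letI := algX K s
  haveI := towerX (K := K) s
  haveI := isDedekindDomain_IC s hs
  haveI := isFractionRing_IC s hs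
  haveI := finite_integralClosure s hs
  have hmax : (Ideal.span {(X : K[X])}).IsMaximal :=
    PrincipalIdealRing.isMaximal_of_irreducible irreducible_X
  haveI : P.asIdeal.IsMaximal := P.isMaximal
  haveI := liesOver_of_mem s P h
  obtain ⟨e1⟩ := exists_resEquiv s hs P
  haveI : Module.Free (K[X] ⧸ Ideal.span {(X : K[X])}) (IC K s ⧸ P.asIdeal) := by
    letI := Ideal.Quotient.field (Ideal.span {(X : K[X])})
    infer_instance
  have h1 : Module.finrank K (K[X] ⧸ Ideal.span {(X : K[X])}) = 1 := by
    rw [finrank_quotient_span_eq_natDegree, natDegree_X]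
  constructor
  · rw [Place.deg, ← e1.toLinearEquiv.finrank_eq,
      Ideal.inertiaDeg_eq_of_isMaximal (Ideal.span {(X : K[X])})]
    have h2 := Module.finrank_mul_finrank K (K[X] ⧸ Ideal.span {(X : K[X])}) (IC K s ⧸ P.asIdeal)
    rw [h1, one_mul] at h2
    exact h2.symm
  · haveI : Module.Finite K (K[X] ⧸ Ideal.span {(X : K[X])}) :=
      Module.finite_of_finrank_pos (by rw [h1]; exact one_pos)
    haveI : Module.Finite (K[X] ⧸ Ideal.span {(X : K[X])}) (IC K s ⧸ P.asIdeal) :=
      Module.Finite.of_restrictScalars_finite K[X] _ _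
    haveI : Module.Finite K (IC K s ⧸ P.asIdeal) :=
      Module.Finite.trans (K[X] ⧸ Ideal.span {(X : K[X])}) _
    exact Module.Finite.equiv e1.toLinearEquiv

theorem map_span_X (s : N) :
    letI := algX K s
    (Ideal.span {(X : K[X])}).map (algebraMap K[X] (IC K s)) = Ideal.span {sIC K s} := by
  letI := algX K s
  rw [Ideal.map_span, Set.image_singleton, algebraMap_X_IC]

theorem sIC_ne_zero {s : N} (hs : Transcendental K s) : sIC K s ≠ 0 := by
  intro h
  exact transcendental_ne_zero hs (congrArg Subtype.val h)

theorem ord_placeOfPrime (s : N) (hs : Transcendental K s) [FiniteDimensional K⟮s⟯ N]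
    (P : HeightOneSpectrum (IC K s)) (h : sIC K s ∈ P.asIdeal) :
    letI := algX K s
    (placeOfPrime s hs P).ord s = (P.asIdeal.ramificationIdx K[X] : ℤ) := by
  letI := algX K s
  haveI := towerX (K := K) s
  haveI := isDedekindDomain_IC s hs
  haveI := isFractionRing_IC s hs
  haveI := liesOver_of_mem s P h
  haveI := P.isPrime
  have hmap := map_span_X (K := K) s
  have hne : (Ideal.span {(X : K[X])}).map (algebraMap K[X] (IC K s)) ≠ ⊥ := by
    rw [hmap]
    simpa using sIC_ne_zero hs
  rw [Ideal.IsDedekindDomain.ramificationIdx_eq_multiplicity (Ideal.span {(X : K[X])}) P.asIdeal hne,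
    hmap]
  have h1 := P.valuation_of_algebraMap (K := N) (sIC K s)
  rw [P.intValuation_eq_exp_neg_multiplicity (sIC_ne_zero hs)] at h1
  have h2 : (placeOfPrime s hs P).val s = WithZero.exp (-(multiplicity P.asIdeal (Ideal.span {sIC K s}) : ℤ)) := h1
  rw [Place.ord, h2, WithZero.log_exp, neg_neg]

/-- The zeros of `s`, and the formula `∑ ord_v(s) deg(v) = [N : K(s)]`. -/
theorem sum_zeros (s : N) (hs : Transcendental K s) [FiniteDimensional K⟮s⟯ N] :
    ∃ S : Finset (Place K N), (∀ v, v ∈ S ↔ v.val s < 1) ∧
      ∑ v ∈ S, v.ord s * (v.deg : ℤ) = (Module.finrank K⟮s⟯ N : ℤ) := by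
  classical
  letI := algX K s
  letI := algXF K s
  haveI := towerXF (K := K) s
  haveI := towerX (K := K) s
  haveI := isFractionRing_algXF s hs
  haveI := faithfulX s hs
  haveI := isDedekindDomain_IC s hs
  haveI := isFractionRing_IC s hs
  haveI := finite_integralClosure s hs
  have hmax : (Ideal.span {(X : K[X])}).IsMaximal :=
    PrincipalIdealRing.isMaximal_of_irreducible irreducible_X
  haveI : (Ideal.span {(X : K[X])}).IsPrime := hmax.isPrime
  let p := Ideal.span {(X : K[X])}
  letI : Fintype (p.primesOver (IC K s)) := Fintype.ofFinite _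
  have hp0 : p ≠ ⊥ := by
    simp [p]
  let F : p.primesOver (IC K s) → HeightOneSpectrum (IC K s) := fun q =>
    ⟨q.1, q.2.1, Ideal.ne_bot_of_mem_primesOver hp0 q.2⟩
  have hF : ∀ q, sIC K s ∈ (F q).asIdeal := by
    intro q
    have h1 : p ≤ q.1.under K[X] := by
      rw [← q.2.2.over]
    have h2 : (X : K[X]) ∈ q.1.under K[X] := h1 (Ideal.mem_span_singleton_self X)
    have h3 : algebraMap K[X] (IC K s) X ∈ q.1 := h2
    rw [algebraMap_X_IC] at h3
    exact h3
  have hFinj : Function.Injective F := by
    intro q r h
    apply Subtype.ext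
    exact congrArg HeightOneSpectrum.asIdeal h
  refine ⟨Finset.univ.image (fun q => placeOfPrime s hs (F q)), ?_, ?_⟩
  · intro v
    rw [Finset.mem_image]
    constructor
    · rintro ⟨q, -, rfl⟩
      exact (placeOfPrime_val_lt s hs (F q) (sIC K s)).2 (hF q)
    · intro hv
      obtain ⟨P, rfl⟩ := exists_placeOfPrime s hs v hv.le
      have h1 : sIC K s ∈ P.asIdeal := (placeOfPrime_val_lt s hs P (sIC K s)).1 hv
      refine ⟨⟨P.asIdeal, P.isPrime, liesOver_of_mem s P h1⟩, Finset.mem_univ _, rfl⟩
  · rw [Finset.sum_image (fun a _ b _ h => hFinj (placeOfPrime_injective s hs h))]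
    have h1 := Ideal.sum_ramification_inertia_eq_finrank p (IC K s)
    have h2 := IsFractionRing.finrank_eq K[X] K⟮s⟯ (IC K s) N
    rw [h2, ← h1]
    push_cast
    refine Finset.sum_congr rfl fun q _ => ?_
    rw [ord_placeOfPrime s hs (F q) (hF q), (deg_placeOfPrime s hs (F q) (hF q)).1]

end Ded

end Pool.Agent.Helper16

end

section

set_option autoImplicit false
set_option linter.style.haveILetI false

namespace Pool.Agent.Helper16

open Polynomial IntermediateField IsDedekindDomain

section

variable {K N : Type} [Field K] [Field N] [Algebra K N]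

theorem finiteDimensional_of_fg_of_isAlgebraic (F E : Type) [Field F] [Field E] [Algebra F E]
    [Algebra.EssFiniteType F E] [Algebra.IsAlgebraic F E] : FiniteDimensional F E := by
  obtain ⟨S, hS⟩ := IntermediateField.fg_top F E
  haveI : FiniteDimensional F (IntermediateField.adjoin F (S : Set E)) :=
    IntermediateField.finiteDimensional_adjoin (fun x _ => (Algebra.IsAlgebraic.isAlgebraic x).isIntegral)
  rw [hS] at this
  exact (IntermediateField.topEquiv (F := F) (E := E)).toLinearEquiv.finiteDimensional

theorem IsFunctionField.finiteDimensional (h : IsFunctionField K N) (f : N)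
    (hf : Transcendental K f) : FiniteDimensional K⟮f⟯ N := by
  haveI := h.1
  have h1 : AlgebraicIndependent K (fun _ : Unit => f) :=
    algebraicIndependent_unique_type_iff.2 hf
  have h2 : IsTranscendenceBasis K (fun _ : Unit => f) :=
    h1.isTranscendenceBasis_of_trdeg_le_of_finite (by rw [h.2]; simp)
  have h3 := h2.isAlgebraic_field
  have h4 : Set.range (fun _ : Unit => f) = {f} := Set.range_const
  rw [h4] at h3
  haveI : Algebra.EssFiniteType K⟮f⟯ N := Algebra.EssFiniteType.of_comp K K⟮f⟯ N
  exact finiteDimensional_of_fg_of_isAlgebraic K⟮f⟯ N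

theorem Place.val_eq_one_of_algebraic (v : Place K N) {f : N} (hf : IsAlgebraic K f) (hf0 : f ≠ 0) :
    v.val f = 1 := by
  have h1 : ∀ g : N, IsAlgebraic K g → v.val g ≤ 1 := by
    intro g hg
    have h2 : IntOver K (0 : N) g := IntOver.of_isIntegral hg.isIntegral
    exact h2.mem_ring v (by simp)
  refine le_antisymm (h1 f hf) ?_
  have := h1 f⁻¹ hf.inv
  rw [map_inv₀] at this
  exact (inv_le_one₀ (zero_lt_iff.2 (by simpa using hf0))).1 this

theorem Place.transcendental_of_val_ne_one (v : Place K N) {f : N} (hf0 : f ≠ 0)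
    (hv : v.val f ≠ 1) : Transcendental K f :=
  fun hf => hv (v.val_eq_one_of_algebraic hf hf0)

theorem Place.exists_uniformizer (v : Place K N) : ∃ f : N, f ≠ 0 ∧ v.val f = WithZero.exp (-1 : ℤ) := by
  obtain ⟨f, hf⟩ := v.surj (WithZero.exp (-1 : ℤ))
  refine ⟨f, ?_, hf⟩
  rintro rfl
  rw [map_zero] at hf
  exact WithZero.exp_ne_zero hf.symm

theorem exp_neg_one_lt : WithZero.exp (-1 : ℤ) < 1 := by
  rw [← WithZero.exp_zero, WithZero.exp_lt_exp]; norm_num

theorem Place.finite_resField (hN : IsFunctionField K N) (v : Place K N) :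
    Module.Finite K v.resField := by
  obtain ⟨f, hf0, hf⟩ := v.exists_uniformizer
  have hlt : v.val f < 1 := by rw [hf]; exact exp_neg_one_lt
  have htr := v.transcendental_of_val_ne_one hf0 hlt.ne
  haveI := hN.finiteDimensional f htr
  obtain ⟨P, rfl⟩ := exists_placeOfPrime f htr v hlt.le
  exact (deg_placeOfPrime f htr P ((placeOfPrime_val_lt f htr P (sIC K f)).1 hlt)).2

/-- Zeros of a transcendental element. -/
theorem IsFunctionField.zeros (hN : IsFunctionField K N) (f : N) (hf : Transcendental K f) :
    ∃ S : Finset (Place K N), (∀ v, v ∈ S ↔ v.val f < 1) ∧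
      ∑ v ∈ S, v.ord f * (v.deg : ℤ) = (Module.finrank K⟮f⟯ N : ℤ) ∧
      0 < Module.finrank K⟮f⟯ N := by
  haveI := hN.finiteDimensional f hf
  obtain ⟨S, h1, h2⟩ := sum_zeros f hf
  exact ⟨S, h1, h2, Module.finrank_pos⟩

/-- The product formula. -/
theorem IsFunctionField.product_formula (hN : IsFunctionField K N) (f : N) :
    ∃ S : Finset (Place K N), (∀ v, v ∈ S ↔ v.ord f ≠ 0) ∧
      ∑ v ∈ S, v.ord f * (v.deg : ℤ) = 0 := by
  classical
  by_cases hf0 : f = 0
  · subst hf0
    exact ⟨∅, fun v => by simp [v.ord_zero], by simp⟩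
  by_cases hf : IsAlgebraic K f
  · refine ⟨∅, fun v => ?_, by simp⟩
    simp [(v.ord_eq_zero_iff hf0).2 (v.val_eq_one_of_algebraic hf hf0)]
  · obtain ⟨S, h1, h2, -⟩ := hN.zeros f hf
    obtain ⟨T, h3, h4, -⟩ := hN.zeros f⁻¹ (transcendental_inv hf)
    rw [finrank_inv] at h4
    have hT : ∀ v : Place K N, v ∈ T ↔ 1 < v.val f := by
      intro v
      rw [h3, map_inv₀, inv_lt_one₀ (zero_lt_iff.2 (by simpa using hf0))]
    have hdisj : Disjoint S T := by
      rw [Finset.disjoint_left]
      intro v hv hv'
      rw [h1] at hv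
      rw [hT] at hv'
      exact lt_asymm hv hv'
    refine ⟨S ∪ T, fun v => ?_, ?_⟩
    · rw [Finset.mem_union, h1, hT, Ne, v.ord_eq_zero_iff hf0]
      constructor
      · rintro (h | h)
        · exact h.ne
        · exact h.ne'
      · intro h
        exact lt_or_gt_of_ne h
    · rw [Finset.sum_union hdisj, h2]
      have h5 : ∑ v ∈ T, v.ord f * (v.deg : ℤ) = - ∑ v ∈ T, v.ord f⁻¹ * (v.deg : ℤ) := by
        rw [← Finset.sum_neg_distrib]
        refine Finset.sum_congr rfl fun v _ => ?_
        rw [v.ord_inv]
        ring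
      rw [h5, h4]
      ring

end

end Pool.Agent.Helper16

end

section

set_option autoImplicit false
set_option linter.style.haveILetI false

namespace Pool.Agent.Helper16

open Polynomial IntermediateField IsDedekindDomain

section

variable {K N : Type} [Field K] [Field N] [Algebra K N]

/-- Functions with bounded pole order at a place. -/
def Place.filt (v : Place K N) (k : ℤ) : Submodule K N where
  carrier := {f | v.val f ≤ WithZero.exp k}
  add_mem' := fun {a b} ha hb => (v.val.map_add a b).trans (max_le ha hb)
  zero_mem' := by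
    change v.val 0 ≤ _
    rw [map_zero]
    exact zero_le
  smul_mem' := by
    intro c x hx
    change v.val (c • x) ≤ _
    rw [Algebra.smul_def, map_mul]
    calc v.val (algebraMap K N c) * v.val x ≤ 1 * v.val x := by
          gcongr
          exact v.val_algebraMap_le c
      _ = v.val x := one_mul _
      _ ≤ _ := hx

theorem Place.finrank_le_cut (v : Place K N) (hv : Module.Finite K v.resField) (k : ℤ)
    (W : Submodule K N) [FiniteDimensional K W] (hW : W ≤ v.filt (k + 1)) :
    Module.finrank K W ≤ Module.finrank K (W ⊓ v.filt k : Submodule K N) + v.deg := by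
  obtain ⟨π, hπ0, hπ⟩ := v.exists_uniformizer
  have hmem : ∀ f ∈ W, f * π ^ (k + 1) ∈ v.ring := by
    intro f hf
    have h1 : v.val f ≤ WithZero.exp (k + 1) := hW hf
    rw [v.mem_ring, map_mul, map_zpow₀, hπ, ← WithZero.exp_zsmul]
    calc v.val f * WithZero.exp ((k + 1) • (-1 : ℤ)) ≤
          WithZero.exp (k + 1) * WithZero.exp ((k + 1) • (-1 : ℤ)) := by gcongr
      _ = 1 := by
          rw [← WithZero.exp_add]
          simp
  let T : W →ₗ[K] v.resField :=
    { toFun := fun f => v.res ((f : N) * π ^ (k + 1))
      map_add' := by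
        intro f g
        rw [← v.res_add (hmem _ f.2) (hmem _ g.2), ← add_mul]
        rfl
      map_smul' := by
        intro c f
        have h1 : ((c • f : W) : N) * π ^ (k + 1) = algebraMap K N c * ((f : N) * π ^ (k + 1)) := by
          rw [Submodule.coe_smul, Algebra.smul_def, mul_assoc]
        rw [h1, v.res_mul (v.ring.algebraMap_mem c) (hmem _ f.2), v.res_algebraMap,
          RingHom.id_apply, Algebra.smul_def] }
  have h1 := LinearMap.finrank_range_add_finrank_ker T
  have h2 : Module.finrank K (LinearMap.range T) ≤ v.deg := Submodule.finrank_le _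
  have h3 : Module.finrank K (LinearMap.ker T) ≤
      Module.finrank K (W ⊓ v.filt k : Submodule K N) := by
    have h4 : ∀ f : LinearMap.ker T, ((f : W) : N) ∈ (W ⊓ v.filt k : Submodule K N) := by
      intro f
      refine ⟨(f : W).2, ?_⟩
      have h5 : v.res (((f : W) : N) * π ^ (k + 1)) = 0 := f.2
      rw [v.res_eq_zero_iff (hmem _ (f : W).2), map_mul, map_zpow₀, hπ, ← WithZero.exp_zsmul] at h5
      change v.val ((f : W) : N) ≤ _
      by_cases h6 : ((f : W) : N) = 0
      · rw [h6, map_zero]
        exact zero_le
      · have h7 : v.val ((f : W) : N) ≠ 0 := by simpa using h6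
        rw [← WithZero.exp_log h7] at h5 ⊢
        rw [← WithZero.exp_add, ← WithZero.exp_zero, WithZero.exp_lt_exp] at h5
        rw [WithZero.exp_le_exp]
        simp at h5
        omega
    let ι : LinearMap.ker T →ₗ[K] (W ⊓ v.filt k : Submodule K N) :=
      { toFun := fun f => ⟨((f : W) : N), h4 f⟩
        map_add' := fun f g => rfl
        map_smul' := fun c f => rfl }
    apply LinearMap.finrank_le_finrank_of_injective (f := ι)
    intro f g hfg
    have h8 : ((f : W) : N) = ((g : W) : N) :=
      congrArg (fun z : (W ⊓ v.filt k : Submodule K N) => (z : N)) hfg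
    exact Subtype.ext (Subtype.ext h8)
  omega

theorem Place.finrank_le_cut_nat (v : Place K N) (hv : Module.Finite K v.resField) (k : ℕ)
    (W : Submodule K N) [FiniteDimensional K W] (hW : W ≤ v.filt k) :
    Module.finrank K W ≤ Module.finrank K (W ⊓ v.filt 0 : Submodule K N) + k * v.deg := by
  induction k generalizing W with
  | zero =>
    have : W ⊓ v.filt 0 = W := inf_eq_left.2 (by simpa using hW)
    rw [this]
    omega
  | succ k ih =>
    have h1 := v.finrank_le_cut hv k W (by simpa using hW)
    haveI : FiniteDimensional K (W ⊓ v.filt (k : ℤ) : Submodule K N) :=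
      Submodule.finiteDimensional_inf_left _ _
    have h2 := ih (W ⊓ v.filt (k : ℤ)) inf_le_right
    have h3 : (W ⊓ v.filt (k : ℤ)) ⊓ v.filt 0 ≤ W ⊓ v.filt 0 :=
      inf_le_inf_right _ inf_le_left
    have h4 : Module.finrank K ((W ⊓ v.filt (k : ℤ)) ⊓ v.filt 0 : Submodule K N) ≤
        Module.finrank K (W ⊓ v.filt 0 : Submodule K N) := by
      haveI : FiniteDimensional K (W ⊓ v.filt 0 : Submodule K N) :=
        Submodule.finiteDimensional_inf_left _ _
      exact Submodule.finrank_mono h3
    have h5 : (k + 1) * v.deg = k * v.deg + v.deg := by ring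
    omega

theorem finrank_le_cut_finset (hres : ∀ v : Place K N, Module.Finite K v.resField)
    (T : Finset (Place K N)) (k : Place K N → ℕ)
    (W : Submodule K N) [FiniteDimensional K W] (hW : ∀ v ∈ T, W ≤ v.filt (k v)) :
    Module.finrank K W ≤
      Module.finrank K (W ⊓ ⨅ v ∈ T, v.filt 0 : Submodule K N) + ∑ v ∈ T, k v * v.deg := by
  classical
  induction T using Finset.induction_on with
  | empty =>
    have h0 : W ⊓ ⨅ v ∈ (∅ : Finset (Place K N)), v.filt 0 = W := by simp
    rw [h0]
    simp
  | insert a T ha ih =>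
    have h1 := ih (fun v hv => hW v (Finset.mem_insert_of_mem hv))
    haveI : FiniteDimensional K (W ⊓ ⨅ v ∈ T, v.filt 0 : Submodule K N) :=
      Submodule.finiteDimensional_inf_left _ _
    have h2 := a.finrank_le_cut_nat (hres a) (k a) (W ⊓ ⨅ v ∈ T, v.filt 0)
      (inf_le_left.trans (hW a (Finset.mem_insert_self _ _)))
    rw [Finset.sum_insert ha]
    have h3 : (W ⊓ ⨅ v ∈ T, v.filt 0) ⊓ a.filt 0 = W ⊓ ⨅ v ∈ insert a T, v.filt 0 := by
      rw [Finset.iInf_insert, inf_assoc, inf_comm (⨅ v ∈ T, v.filt 0)]
    rw [h3] at h2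
    omega

end

end Pool.Agent.Helper16

end
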