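import Pool.Agent.Helper29.MF.T08
import Pool.Agent.Helper29.MF.T03

section

namespace Pool.Agent.Helper16
end Pool.Agent.Helper16
namespace Pool.Agent.Helper33
end Pool.Agent.Helper33
namespace Pool.Agent.Helper45.FF
end Pool.Agent.Helper45.FF
namespace Pool.Agent.Helper45.S4
end Pool.Agent.Helper45.S4
namespace Pool.Agent.Helper47.RR
end Pool.Agent.Helper47.RR

/-!
# Derivations of one-variable function fields: the order of a derivation at a place, the degree
of the canonical divisor (Kaehler version) and the Hurwitz formula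
-/

set_option autoImplicit false
set_option linter.style.haveILetI false

namespace Pool.Agent.Helper31.RRK

open Polynomial IntermediateField Pool.Agent.Helper16 Pool.Agent.Helper33 Pool.Agent.Helper45.FF
open Pool.Agent.Helper45.S4 Pool.Agent.Helper47.RR

section unique

variable {k L M : Type} [Field k] [Field L] [Field M] [Algebra k L] [Algebra k M] [Algebra L M]
  [IsScalarTower k L M]

omit [IsScalarTower k L M] in
/-- A derivation which kills a separating element is zero. -/
theorem deriv_eq_zero (t : L) [Algebra.IsSeparable k⟮t⟯ L] (D : Derivation k L M)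
    (h : D t = 0) : D = 0 := by
  have h0 : ∀ y ∈ k⟮t⟯, D y = 0 := by
    intro y hy
    induction hy using IntermediateField.adjoin_induction with
    | mem z hz => rw [Set.mem_singleton_iff.1 hz, h]
    | algebraMap c => simp
    | add a b _ _ ha hb => rw [map_add, ha, hb, add_zero]
    | inv a _ ha => rw [Derivation.leibniz_inv, ha, smul_zero]
    | mul a b _ _ ha hb => rw [Derivation.leibniz, ha, hb, smul_zero, smul_zero, add_zero]
  let D' : Derivation k⟮t⟯ L M := Derivation.mk'
    { toFun := D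
      map_add' := fun a b => map_add D a b
      map_smul' := by
        rintro ⟨y, hy⟩ b
        change D (y * b) = y • D b
        rw [Derivation.leibniz, h0 y hy, smul_zero, add_zero] }
    (fun a b => by
      change D (a * b) = _
      rw [Derivation.leibniz]
      rfl)
  haveI : Algebra.FormallyEtale k⟮t⟯ L := Algebra.FormallyEtale.of_isSeparable _ _
  haveI : Algebra.FormallyUnramified k⟮t⟯ L := inferInstance
  haveI : Subsingleton (Ω[L⁄k⟮t⟯]) := inferInstance
  have h1 : D' = 0 := by
    have := (D'.liftKaehlerDifferential_comp)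
    rw [← this]
    ext a
    have h2 : KaehlerDifferential.D k⟮t⟯ L a = 0 := Subsingleton.elim _ _
    simp [h2]
  ext a
  exact congrArg (fun E : Derivation k⟮t⟯ L M => E a) h1

omit [Algebra L M] [IsScalarTower k L M] in
theorem exists_separating [IsAlgClosed k] (hN : IsFunctionField k L) :
    ∃ t : L, Transcendental k t ∧ Algebra.IsSeparable k⟮t⟯ L := by
  classical
  haveI := hN.1
  obtain ⟨S, hS1, hS2⟩ := exists_isTranscendenceBasis_and_isSeparable_of_perfectField k L
  have hcard : S.card = 1 := by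
    have h3 := hS1.lift_cardinalMk_eq_trdeg
    rw [hN.2] at h3
    simpa using h3
  obtain ⟨t, rfl⟩ := Finset.card_eq_one.1 hcard
  refine ⟨t, ?_, ?_⟩
  · have := hS1.1
    have h2 := this.transcendental ⟨t, by simp⟩
    exact h2
  · rw [Finset.coe_singleton] at hS2
    exact hS2

/-- There is a nonzero derivation. -/
theorem exists_ne_zero [IsAlgClosed k] (hN : IsFunctionField k L) :
    ∃ D : Derivation k L L, D ≠ 0 := by
  obtain ⟨t, ht, hs⟩ := exists_separating hN
  obtain ⟨D, hD⟩ := exists_deriv t ht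
  refine ⟨D, ?_⟩
  rintro rfl
  simp at hD

/-- The space of derivations is one-dimensional. -/
theorem exists_eq_smul [IsAlgClosed k] (hN : IsFunctionField k L) {D : Derivation k L L}
    (hD : D ≠ 0) (D' : Derivation k L L) : ∃ h : L, D' = h • D := by
  obtain ⟨t, ht, hs⟩ := exists_separating hN
  have hDt : D t ≠ 0 := fun h => hD (deriv_eq_zero t D h)
  refine ⟨D' t / D t, ?_⟩
  rw [← sub_eq_zero]
  apply deriv_eq_zero t
  simp only [Derivation.coe_sub, Derivation.coe_smul, Pi.sub_apply, Pi.smul_apply, smul_eq_mul]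
  field_simp
  ring

end unique

section ord

variable {k L : Type} [Field k] [Field L] [Algebra k L]

theorem exists_bound [IsAlgClosed k] (hN : IsFunctionField k L) (D : Derivation k L L)
    (v : Place k L) : ∃ B : ℤ, ∀ x, v.val x ≤ 1 → v.val (D x) ≤ WithZero.exp B := by
  obtain ⟨t, ht, hs⟩ := exists_separating hN
  obtain ⟨D0, hD0⟩ := exists_deriv t ht
  have hne : D0 ≠ 0 := by
    rintro rfl
    simp at hD0
  obtain ⟨h, rfl⟩ := exists_eq_smul hN hne D
  obtain ⟨P, hP1, hP2⟩ := exists_psys_aux hN t ht D0 hD0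
  have hB : ∀ x, v.val x ≤ 1 → v.val (D0 x) ≤ WithZero.exp (P.e v : ℤ) := by
    intro x hx
    by_cases hDx : D0 x = 0
    · rw [hDx, map_zero]; exact zero_le
    · have hx0 : x ≠ 0 := by rintro rfl; exact hDx (map_zero D0)
      rw [val_le_exp_iff v _ hDx]
      have := P.ord_D' v x hx0 (by rw [hP1]; exact hDx) (by
        rw [hP2]; exact (v.ord_nonneg_iff hx0).2 hx)
      rw [hP1, hP2] at this
      exact this
  by_cases h0 : h = 0
  · refine ⟨0, fun x _ => ?_⟩
    rw [h0, zero_smul]
    simp
  refine ⟨P.e v - v.ord h, fun x hx => ?_⟩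
  have hv : v.val h = WithZero.exp (-(v.ord h)) := by
    have h00 : v.val h ≠ 0 := by simpa using h0
    rw [Place.ord, neg_neg, WithZero.exp_log h00]
  rw [Derivation.coe_smul, Pi.smul_apply, smul_eq_mul, map_mul, hv, sub_eq_neg_add,
    WithZero.exp_add]
  exact mul_le_mul_right (hB x hx) _

variable (v : Place k L) (D : Derivation k L L)

/-- The order of a derivation at a place: the order of `D π`, for any uniformiser `π`. -/
noncomputable def ordDer : ℤ := v.ord (D v.exists_uniformizer.choose)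

theorem val_D_le_pi' [IsAlgClosed k] (hN : IsFunctionField k L) {π : L}
    (hπ : v.val π = WithZero.exp (-1 : ℤ)) {x : L} (hx : v.val x ≤ 1) :
    v.val (D x) ≤ v.val (D π) := by
  obtain ⟨B, hB⟩ := exists_bound hN D v
  exact val_D_le_pi v D hN B hB π hπ x hx

theorem exists_frac_ring (x : L) : ∃ a b : L, v.val a ≤ 1 ∧ v.val b ≤ 1 ∧ b ≠ 0 ∧ x = a * b⁻¹ := by
  rcases le_total (v.val x) 1 with h | h
  · exact ⟨x, 1, h, by simp, one_ne_zero, by simp⟩
  · by_cases hx : x = 0
    · exact ⟨0, 1, by simp, by simp, one_ne_zero, by simp [hx]⟩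
    refine ⟨1, x⁻¹, by simp, ?_, inv_ne_zero hx, by simp⟩
    rw [map_inv₀]
    exact inv_le_one_of_one_le₀ h

theorem D_pi_ne_zero [IsAlgClosed k] (hN : IsFunctionField k L) (hD : D ≠ 0) {π : L}
    (hπ : v.val π = WithZero.exp (-1 : ℤ)) : D π ≠ 0 := by
  intro h0
  apply hD
  have h1 : ∀ x, v.val x ≤ 1 → D x = 0 := by
    intro x hx
    have h2 := val_D_le_pi' v D hN hπ hx
    rw [h0, map_zero] at h2
    have h3 : v.val (D x) = 0 := le_antisymm h2 zero_le
    simpa using h3
  ext x
  obtain ⟨a, b, ha, hb, -, rfl⟩ := exists_frac_ring v x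
  rw [Derivation.leibniz, Derivation.leibniz_inv, h1 a ha, h1 b hb]
  simp

theorem ord_D_pi [IsAlgClosed k] (hN : IsFunctionField k L) {π : L}
    (hπ : v.val π = WithZero.exp (-1 : ℤ)) : v.ord (D π) = ordDer v D := by
  have h1 := v.exists_uniformizer.choose_spec
  have h2 := val_D_le_pi' v D hN hπ (x := v.exists_uniformizer.choose)
    (by rw [h1.2]; exact exp_neg_one_lt.le)
  have h3 := val_D_le_pi' v D hN h1.2 (x := π) (by rw [hπ]; exact exp_neg_one_lt.le)
  rw [ordDer, Place.ord, Place.ord, le_antisymm h2 h3]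

variable {D}

theorem ordDer_le [IsAlgClosed k] (hN : IsFunctionField k L) {x : L} (hx : v.val x ≤ 1)
    (hDx : D x ≠ 0) : ordDer v D ≤ v.ord (D x) := by
  obtain ⟨π, -, hπ⟩ := v.exists_uniformizer
  have hD : D ≠ 0 := by
    rintro rfl
    exact hDx rfl
  rw [← ord_D_pi v D hN hπ, Place.ord, Place.ord, neg_le_neg_iff,
    WithZero.log_le_log (by simpa using hDx) (by simpa using D_pi_ne_zero v D hN hD hπ)]
  exact val_D_le_pi' v D hN hπ hx

theorem ordDer_smul [IsAlgClosed k] (hN : IsFunctionField k L) (hD : D ≠ 0) {h : L}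
    (h0 : h ≠ 0) : ordDer v (h • D) = v.ord h + ordDer v D := by
  obtain ⟨π, -, hπ⟩ := v.exists_uniformizer
  rw [← ord_D_pi v _ hN hπ, ← ord_D_pi v _ hN hπ, Derivation.coe_smul, Pi.smul_apply,
    smul_eq_mul, v.ord_mul h0 (D_pi_ne_zero v D hN hD hπ)]

/-- the values of a function and of its derivative -/
theorem le_ord_D [IsAlgClosed k] (hN : IsFunctionField k L) {x : L} (hDx : D x ≠ 0) :
    v.ord x - 1 + ordDer v D ≤ v.ord (D x) := by
  obtain ⟨π, hπ0, hπ⟩ := v.exists_uniformizer
  have hD : D ≠ 0 := by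
    rintro rfl
    exact hDx rfl
  have hDπ := D_pi_ne_zero v D hN hD hπ
  let E : WithZero (Multiplicative ℤ) := v.val (D π) * WithZero.exp 1
  have h1 : v.val (D π) ≤ E * v.val π := by
    simp only [E]
    rw [hπ, mul_assoc, ← WithZero.exp_add]
    simp
  let n : ℤ := v.ord x
  have hx : x ≠ 0 := by
    rintro rfl
    exact hDx (map_zero D)
  have hx0 : v.val x ≠ 0 := by simpa using hx
  have hvx : v.val x = WithZero.exp (-n) := by
    change v.val x = WithZero.exp (-(-WithZero.log (v.val x)))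
    rw [neg_neg, WithZero.exp_log hx0]
  let u : L := x * π ^ (-n)
  have hu : v.val u = 1 := by
    rw [map_mul, map_zpow₀, hπ, hvx, ← WithZero.exp_zsmul, ← WithZero.exp_add]
    simp
  have hxu : x = π ^ n * u := by
    change x = π ^ n * (x * π ^ (-n))
    rw [zpow_neg]
    field_simp
  have h2 : v.val (D u) ≤ E * v.val u := by
    rw [hu, mul_one]
    refine (val_D_le_pi' v D hN hπ hu.le).trans ?_
    simp only [E]
    refine le_mul_of_one_le_right' ?_
    rw [← WithZero.exp_zero, WithZero.exp_le_exp]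
    norm_num
  have h3 := val_D_mul v D E _ _ (val_D_zpow v D E π h1 n) h2
  have hval : v.val (D π) = WithZero.exp (-(ordDer v D)) := by
    have h0 : v.val (D π) ≠ 0 := by simpa using hDπ
    rw [← ord_D_pi v D hN hπ, Place.ord, neg_neg, WithZero.exp_log h0]
  simp only [E] at h3
  rw [← hxu, hvx, hval, ← WithZero.exp_add, ← WithZero.exp_add, val_le_exp_iff v _ hDx] at h3
  change n - 1 + _ ≤ _
  omega

/-- tame case: the exact order of the derivative -/
theorem ord_D_eq [IsAlgClosed k] (hN : IsFunctionField k L) (hD : D ≠ 0) {x : L}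
    (hx : ((v.ord x : ℤ) : k) ≠ 0) :
    D x ≠ 0 ∧ v.ord (D x) = v.ord x - 1 + ordDer v D := by
  obtain ⟨π, hπ0, hπ⟩ := v.exists_uniformizer
  have hDπ := D_pi_ne_zero v D hN hD hπ
  have hDπv : v.val (D π) ≠ 0 := by simpa using hDπ
  have hx' : x ≠ 0 := by
    rintro rfl
    rw [v.ord_zero] at hx
    simp at hx
  obtain ⟨n, hn⟩ : ∃ n : ℤ, v.ord x = n := ⟨_, rfl⟩
  rw [hn] at hx
  have hx0 : v.val x ≠ 0 := by simpa using hx'
  have hvx : v.val x = WithZero.exp (-n) := by
    rw [← hn, Place.ord, neg_neg, WithZero.exp_log hx0]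
  obtain ⟨u, hu'⟩ : ∃ u, u = x * π ^ (-n) := ⟨_, rfl⟩
  have hu : v.val u = 1 := by
    rw [hu', map_mul, map_zpow₀, hπ, hvx, ← WithZero.exp_zsmul, ← WithZero.exp_add]
    simp
  have hxu : x = π ^ n * u := by
    rw [hu', zpow_neg]
    field_simp
  have hDx : D x = ((n : ℤ) : L) * π ^ (n - 1) * u * D π + π ^ n * D u := by
    conv_lhs => rw [hxu]
    rw [Derivation.leibniz, Derivation.leibniz_zpow]
    simp only [smul_eq_mul, zsmul_eq_mul]
    ring
  have hcast : v.val ((n : ℤ) : L) = 1 := by
    have := v.triv ((n : ℤ) : k) hx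
    rwa [map_intCast] at this
  have h1 : v.val (((n : ℤ) : L) * π ^ (n - 1) * u * D π) =
      WithZero.exp (-(n - 1)) * v.val (D π) := by
    rw [map_mul, map_mul, map_mul, hcast, hu, map_zpow₀, hπ, one_mul, mul_one,
      ← WithZero.exp_zsmul]
    congr 2
    simp
  have h2 : v.val (π ^ n * D u) < v.val (((n : ℤ) : L) * π ^ (n - 1) * u * D π) := by
    rw [h1, map_mul, map_zpow₀, hπ, ← WithZero.exp_zsmul]
    have h3 := val_D_le_pi' v D hN hπ hu.le
    calc WithZero.exp (n • (-1 : ℤ)) * v.val (D u)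
        ≤ WithZero.exp (n • (-1 : ℤ)) * v.val (D π) := mul_le_mul_right h3 _
      _ < WithZero.exp (-(n - 1)) * v.val (D π) := by
          refine mul_lt_mul_of_pos_right ?_ (zero_lt_iff.2 hDπv)
          rw [WithZero.exp_lt_exp]
          simp
  have h4 : v.val (D x) = WithZero.exp (-(n - 1)) * v.val (D π) := by
    rw [hDx, Valuation.map_add_eq_of_lt_left _ h2, h1]
  have h5 : v.val (D x) ≠ 0 := by
    rw [h4]
    exact mul_ne_zero WithZero.exp_ne_zero hDπv
  refine ⟨by simpa using h5, ?_⟩
  rw [hn, ← ord_D_pi v D hN hπ, Place.ord, Place.ord, h4,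
    WithZero.log_mul WithZero.exp_ne_zero hDπv, WithZero.log_exp]
  ring

theorem ordDer_finite [IsAlgClosed k] (hN : IsFunctionField k L) (hD : D ≠ 0) :
    {v : Place k L | ordDer v D ≠ 0}.Finite := by
  obtain ⟨t, ht, hs⟩ := exists_separating hN
  obtain ⟨D0, hD0⟩ := exists_deriv t ht
  have hne : D0 ≠ 0 := by
    rintro rfl
    simp at hD0
  obtain ⟨P, hP1, hP2⟩ := exists_psys_aux hN t ht D0 hD0
  have hfin : ∀ x : L, {v : Place k L | v.ord x ≠ 0}.Finite := by
    intro x
    obtain ⟨S, h1, -⟩ := hN.product_formula x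
    refine S.finite_toSet.subset ?_
    intro v hv
    exact (h1 v).2 hv
  obtain ⟨h, rfl⟩ := exists_eq_smul hN hne D
  have h0 : h ≠ 0 := by
    rintro rfl
    exact hD (zero_smul _ _)
  have h1 : {v : Place k L | ordDer v D0 ≠ 0} ⊆ {v | P.e v ≠ 0} ∪ {v | v.ord t ≠ 0} := by
    intro v hv
    by_contra hcon
    simp only [Set.mem_union, Set.mem_ofPred_eq, not_or, not_not] at hcon
    apply hv
    apply le_antisymm
    · have h2 : v.val t ≤ 1 := (v.ord_nonneg_iff (transcendental_ne_zero ht)).1 hcon.2.ge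
      have h3 := ordDer_le v hN (D := D0) h2 (by rw [hD0]; exact one_ne_zero)
      rw [hD0, v.ord_one] at h3
      exact h3
    · obtain ⟨π, hπ0, hπ⟩ := v.exists_uniformizer
      have h4 := P.ord_D' v π hπ0 (by rw [hP1]; exact D_pi_ne_zero v D0 hN hne hπ) (by
        rw [hP2]; exact (v.ord_nonneg_iff hπ0).2 (by rw [hπ]; exact exp_neg_one_lt.le))
      rw [hP1, hP2, hcon.1] at h4
      rw [← ord_D_pi v D0 hN hπ]
      change -((0 : ℕ) : ℤ) ≤ v.ord (D0 π) at h4
      simpa using h4
  refine (((P.e_finite.union (hfin t)).subset h1).union (hfin h)).subset ?_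
  intro v hv
  by_contra hcon
  simp only [Set.mem_union, Set.mem_ofPred_eq, not_or, not_not] at hcon
  apply hv
  rw [ordDer_smul v hN hne h0, hcon.1, hcon.2, add_zero]

end ord

end Pool.Agent.Helper31.RRK

end
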