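import Pool.Agent.Helper29.MF.T06
import Pool.Agent.Helper29.MF.T15
import Pool.Agent.Helper29.MF.T11
import Pool.Agent.Helper29.MF.T04

section

namespace Pool.Agent.Helper16
end Pool.Agent.Helper16
namespace Pool.Agent.Helper30.TP
end Pool.Agent.Helper30.TP

/-!
# The cross product of two points dominates the minors of two forms of the same degree
-/

set_option autoImplicit false

namespace Pool.Agent.Helper38.TQ

open MvPolynomial
open Pool.Agent.Helper16 (Place IsFunctionField)
open Pool.Agent.Helper30.TP (gs nrm)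

/-- A monomial of positive degree has a variable. -/
theorem exists_single {m : Fin 3 →₀ ℕ} {e : ℕ} (hm : m.degree = e + 1) :
    ∃ (i : Fin 3) (m' : Fin 3 →₀ ℕ), m = m' + Finsupp.single i 1 ∧ m'.degree = e := by
  obtain ⟨i, hi⟩ : ∃ i, m i ≠ 0 := by
    by_contra hcon
    push Not at hcon
    have : m = 0 := Finsupp.ext hcon
    rw [this] at hm
    simp at hm
  have h1 : Finsupp.single i 1 ≤ m := by
    rw [Finsupp.single_le_iff]
    omega
  refine ⟨i, m - Finsupp.single i 1, (tsub_add_cancel_of_le h1).symm, ?_⟩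
  have h2 : m.degree = (m - Finsupp.single i 1).degree + 1 := by
    conv_lhs => rw [← tsub_add_cancel_of_le h1]
    rw [map_add, Finsupp.degree_single]
  omega

/-- The value of a monomial. -/
def wmon {K : Type} [Field K] (y : Fin 3 → K) (m : Fin 3 →₀ ℕ) : K := ∏ i, y i ^ m i

theorem wmon_add_single {K : Type} [Field K] (y : Fin 3 → K) (m : Fin 3 →₀ ℕ) (i : Fin 3) :
    wmon y (m + Finsupp.single i 1) = wmon y m * y i := by
  classical
  unfold wmon
  simp only [Finsupp.add_apply, pow_add, Finset.prod_mul_distrib]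
  congr 1
  rw [Finset.prod_eq_single i]
  · simp
  · intro j _ hj
    rw [Finsupp.single_apply, if_neg (Ne.symm hj), pow_zero]
  · intro h
    exact absurd (Finset.mem_univ _) h

theorem val_wmon_le {k K : Type} [Field k] [Field K] [Algebra k K] (b : Place k K)
    (y : Fin 3 → K) : ∀ (e : ℕ) (m : Fin 3 →₀ ℕ), m.degree = e →
      b.val (wmon y m) ≤ nrm b y ^ e := by
  intro e
  induction e with
  | zero =>
    intro m hm
    have h0 : m = 0 := by
      rwa [Finsupp.degree_eq_zero_iff] at hm
    rw [h0]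
    simp [wmon]
  | succ e ih =>
    intro m hm
    obtain ⟨i, m', rfl, hm'⟩ := exists_single hm
    rw [wmon_add_single, map_mul, pow_succ]
    exact mul_le_mul' (ih m' hm') (Pool.Agent.Helper30.TP.val_le_nrm b y i)

theorem wmon_wedge {k K : Type} [Field k] [Field K] [Algebra k K] (b : Place k K)
    (y y' : Fin 3 → K) : ∀ (e : ℕ) (m n : Fin 3 →₀ ℕ), m.degree = e + 1 → n.degree = e + 1 →
      b.val (wmon y m * wmon y' n - wmon y n * wmon y' m) ≤
        nrm b (crossProduct y y') * nrm b y ^ e * nrm b y' ^ e := by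
  intro e
  induction e with
  | zero =>
    intro m n hm hn
    obtain ⟨i, m', rfl, hm'⟩ := exists_single hm
    obtain ⟨j, n', rfl, hn'⟩ := exists_single hn
    have h1 : m' = 0 := by rwa [Finsupp.degree_eq_zero_iff] at hm'
    have h2 : n' = 0 := by rwa [Finsupp.degree_eq_zero_iff] at hn'
    subst h1
    subst h2
    rw [wmon_add_single, wmon_add_single, wmon_add_single, wmon_add_single]
    have h3 : ∀ z : Fin 3 → K, wmon z 0 = 1 := fun z => by simp [wmon]
    rw [h3, h3, one_mul, one_mul, one_mul, one_mul, pow_zero, pow_zero, mul_one, mul_one]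
    exact Pool.Agent.Helper30.TP.Cl_val_pq b y y' i j
  | succ e ih =>
    intro m n hm hn
    obtain ⟨i, m', rfl, hm'⟩ := exists_single hm
    obtain ⟨j, n', rfl, hn'⟩ := exists_single hn
    rw [wmon_add_single, wmon_add_single, wmon_add_single, wmon_add_single]
    have h1 : wmon y m' * y i * (wmon y' n' * y' j) - wmon y n' * y j * (wmon y' m' * y' i) =
        wmon y m' * wmon y' n' * (y i * y' j - y j * y' i) +
          y j * y' i * (wmon y m' * wmon y' n' - wmon y n' * wmon y' m') := by ring
    rw [h1]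
    refine (b.val.map_add _ _).trans (max_le ?_ ?_)
    · rw [map_mul, map_mul]
      calc b.val (wmon y m') * b.val (wmon y' n') * b.val (y i * y' j - y j * y' i)
          ≤ nrm b y ^ (e + 1) * nrm b y' ^ (e + 1) * nrm b (crossProduct y y') :=
            mul_le_mul' (mul_le_mul' (val_wmon_le b y _ _ hm') (val_wmon_le b y' _ _ hn'))
              (Pool.Agent.Helper30.TP.Cl_val_pq b y y' i j)
        _ = _ := by rw [mul_comm, mul_assoc]
    · rw [map_mul, map_mul]
      calc b.val (y j) * b.val (y' i) * b.val (wmon y m' * wmon y' n' - wmon y n' * wmon y' m')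
          ≤ nrm b y * nrm b y' * (nrm b (crossProduct y y') * nrm b y ^ e * nrm b y' ^ e) :=
            mul_le_mul' (mul_le_mul' (Pool.Agent.Helper30.TP.val_le_nrm b y j)
              (Pool.Agent.Helper30.TP.val_le_nrm b y' i)) (ih m' n' hm' hn')
        _ = _ := by
          rw [pow_succ, pow_succ]
          ac_rfl

theorem wedge_le {k K : Type} [Field k] [Field K] [Algebra k K] (b : Place k K) {e : ℕ}
    {P Q : MvPolynomial (Fin 3) K} (hP : P.IsHomogeneous (e + 1)) (hQ : Q.IsHomogeneous (e + 1))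
    (y y' : Fin 3 → K) :
    b.val (eval y P * eval y' Q - eval y Q * eval y' P) ≤
      gs b P * gs b Q * (nrm b (crossProduct y y') * nrm b y ^ e * nrm b y' ^ e) := by
  classical
  have hev : ∀ (R : MvPolynomial (Fin 3) K) (z : Fin 3 → K),
      eval z R = ∑ m ∈ R.support, R.coeff m * wmon z m := by
    intro R z
    rw [eval_eq']
    rfl
  have h1 : eval y P * eval y' Q - eval y Q * eval y' P =
      ∑ m ∈ P.support, ∑ n ∈ Q.support,
        P.coeff m * Q.coeff n * (wmon y m * wmon y' n - wmon y n * wmon y' m) := by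
    rw [hev, hev, hev, hev, Finset.sum_mul_sum, Finset.sum_mul_sum, Finset.sum_comm (s := Q.support),
      ← Finset.sum_sub_distrib]
    refine Finset.sum_congr rfl fun m _ => ?_
    rw [← Finset.sum_sub_distrib]
    refine Finset.sum_congr rfl fun n _ => ?_
    ring
  rw [h1]
  refine b.val.map_sum_le fun m hm => b.val.map_sum_le fun n hn => ?_
  rw [map_mul, map_mul]
  have hdm : m.degree = e + 1 := by
    have := hP (mem_support_iff.1 hm)
    rw [← this, Finsupp.degree_eq_weight_one]
    rfl
  have hdn : n.degree = e + 1 := by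
    have := hQ (mem_support_iff.1 hn)
    rw [← this, Finsupp.degree_eq_weight_one]
    rfl
  exact mul_le_mul' (mul_le_mul' (Pool.Agent.Helper30.TP.formHeight_le b P m)
    (Pool.Agent.Helper30.TP.formHeight_le b Q n)) (wmon_wedge b y y' e m n hdm hdn)

end Pool.Agent.Helper38.TQ

end

section

/-!
# Points on a complex curve: any three linear forms are dependent
-/

set_option autoImplicit false

namespace Pool.Agent.Helper38.TQ

open MvPolynomial

variable {ν : ℕ}

/-- the Nullstellensatz for a curve -/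
theorem dim_null {S : Set (MvPolynomial (Fin (ν + 1)) ℂ)} (hS : ∀ g ∈ S, ∃ e, g.IsHomogeneous e)
    {l₀ l₁ : MvPolynomial (Fin (ν + 1)) ℂ} (h0 : l₀.IsHomogeneous 1) (h1 : l₁.IsHomogeneous 1)
    (hno : ∀ z : Fin (ν + 1) → ℂ, (∀ g ∈ S, eval z g = 0) → eval z l₀ = 0 → eval z l₁ = 0 →
      z = 0) :
    ∃ (s : ℕ) (A B : Fin (ν + 1) → MvPolynomial (Fin (ν + 1)) ℂ),
      (∀ j, (A j).IsHomogeneous s) ∧ (∀ j, (B j).IsHomogeneous s) ∧
      ∀ j, ∀ z : Fin (ν + 1) → ℂ, (∀ g ∈ S, eval z g = 0) →
        z j ^ (s + 1) = eval z (A j) * eval z l₀ + eval z (B j) * eval z l₁ := by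
  classical
  have h2 : ∀ j : Fin (ν + 1), ∃ r : ℕ, (X j : MvPolynomial (Fin (ν + 1)) ℂ) ^ r ∈
      Ideal.span (insert l₀ (insert l₁ S)) := by
    intro j
    have h3 : (X j : MvPolynomial (Fin (ν + 1)) ℂ) ∈
        (Ideal.span (insert l₀ (insert l₁ S))).radical := by
      rw [← vanishingIdeal_zeroLocus_eq_radical (K := ℂ)]
      rw [mem_vanishingIdeal_iff]
      intro z hz
      rw [mem_zeroLocus_iff] at hz
      have h4 : z = 0 := by
        refine hno z (fun g hg => ?_) ?_ ?_
        · have := hz g (Ideal.subset_span (Set.mem_insert_of_mem _ (Set.mem_insert_of_mem _ hg)))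
          exact this
        · have := hz l₀ (Ideal.subset_span (Set.mem_insert _ _))
          exact this
        · have := hz l₁ (Ideal.subset_span (Set.mem_insert_of_mem _ (Set.mem_insert _ _)))
          exact this
      rw [h4]
      simp
    exact h3
  choose r hr using h2
  set s : ℕ := ∑ k, r k with hs
  have h3 : ∀ j, (X j : MvPolynomial (Fin (ν + 1)) ℂ) ^ (s + 1) ∈
      Ideal.span (insert l₀ (insert l₁ S)) := by
    intro j
    refine Ideal.mem_of_dvd _ (pow_dvd_pow _ ?_) (hr j)
    have : r j ≤ s := Finset.single_le_sum (f := r) (fun _ _ => Nat.zero_le _) (Finset.mem_univ j)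
    omega
  have h4 : ∀ j, ∃ (A B : MvPolynomial (Fin (ν + 1)) ℂ), A.IsHomogeneous s ∧ B.IsHomogeneous s ∧
      ∀ z : Fin (ν + 1) → ℂ, (∀ g ∈ S, eval z g = 0) →
        z j ^ (s + 1) = eval z A * eval z l₀ + eval z B * eval z l₁ := by
    intro j
    obtain ⟨A, w, hw, hAw⟩ := Ideal.mem_span_insert.1 (h3 j)
    obtain ⟨B, v, hv, hBv⟩ := Ideal.mem_span_insert.1 hw
    refine ⟨homogeneousComponent s A, homogeneousComponent s B,
      homogeneousComponent_isHomogeneous _ _, homogeneousComponent_isHomogeneous _ _, ?_⟩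
    intro z hz
    have h5 := congrArg (homogeneousComponent (s + 1)) hAw
    rw [hBv, map_add, map_add, Pool.Agent.Helper36.homogeneousComponent_mul_of_homogeneous h0,
      Pool.Agent.Helper36.homogeneousComponent_mul_of_homogeneous h1,
      homogeneousComponent_eq_self (isHomogeneous_X_pow j _)] at h5
    have h6 : ∀ v ∈ Ideal.span S, ∀ n, eval z (homogeneousComponent n v) = 0 := by
      intro v hv
      refine Submodule.span_induction (p := fun v _ => ∀ n, eval z (homogeneousComponent n v) = 0)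
        ?_ ?_ ?_ ?_ hv
      · intro g hg n
        obtain ⟨e, he⟩ := hS g hg
        rw [homogeneousComponent_of_mem he]
        split_ifs
        · exact hz g hg
        · exact map_zero _
      · intro n
        rw [map_zero, map_zero]
      · intro a b _ _ ha hb n
        rw [map_add, map_add, ha, hb, add_zero]
      · intro a b _ hb n
        rw [smul_eq_mul]
        have h7 : homogeneousComponent n (a * b) =
            ∑ p ∈ Finset.range (b.totalDegree + 1), homogeneousComponent n
              (a * homogeneousComponent p b) := by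
          rw [← map_sum, ← Finset.mul_sum, sum_homogeneousComponent]
        rw [h7, map_sum]
        refine Finset.sum_eq_zero fun p _ => ?_
        by_cases hp : p ≤ n
        · obtain ⟨t, rfl⟩ := Nat.exists_eq_add_of_le' hp
          rw [Pool.Agent.Helper36.homogeneousComponent_mul_of_homogeneous
            (homogeneousComponent_isHomogeneous p b), map_mul, hb, mul_zero]
        · have h8 : homogeneousComponent n (a * homogeneousComponent p b) = 0 := by
            have h9 : a * homogeneousComponent p b =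
                ∑ q ∈ Finset.range (a.totalDegree + 1),
                  homogeneousComponent q a * homogeneousComponent p b := by
              rw [← Finset.sum_mul, sum_homogeneousComponent]
            rw [h9, map_sum]
            refine Finset.sum_eq_zero fun q _ => ?_
            rw [homogeneousComponent_of_mem ((homogeneousComponent_isHomogeneous q a).mul
              (homogeneousComponent_isHomogeneous p b)), if_neg (by omega)]
          rw [h8, map_zero]
    have h7 := congrArg (eval z) h5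
    rw [map_add, map_add, map_mul, map_mul, h6 v hv, add_zero, map_pow, eval_X] at h7
    exact h7
  choose A B hA hB h using h4
  exact ⟨s, A, B, hA, hB, h⟩

/-- forms of large degree on a curve -/
theorem dim_reduce {S : Set (MvPolynomial (Fin (ν + 1)) ℂ)} {l₀ l₁ : MvPolynomial (Fin (ν + 1)) ℂ}
    {s : ℕ} {A B : Fin (ν + 1) → MvPolynomial (Fin (ν + 1)) ℂ}
    (hA : ∀ j, (A j).IsHomogeneous s) (hB : ∀ j, (B j).IsHomogeneous s)
    (h : ∀ j, ∀ z : Fin (ν + 1) → ℂ, (∀ g ∈ S, eval z g = 0) →
        z j ^ (s + 1) = eval z (A j) * eval z l₀ + eval z (B j) * eval z l₁)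
    {M : ℕ} (hM : (ν + 1) * (s + 1) ≤ M + 1) (P : MvPolynomial (Fin (ν + 1)) ℂ)
    (hP : P.IsHomogeneous (M + 1)) :
    ∃ Q₀ Q₁ : MvPolynomial (Fin (ν + 1)) ℂ, Q₀.IsHomogeneous M ∧ Q₁.IsHomogeneous M ∧
      ∀ z : Fin (ν + 1) → ℂ, (∀ g ∈ S, eval z g = 0) →
        eval z P = eval z l₀ * eval z Q₀ + eval z l₁ * eval z Q₁ := by
  classical
  -- monomials
  have key : ∀ u : Fin (ν + 1) →₀ ℕ, u.degree = M + 1 →
      ∃ Q₀ Q₁ : MvPolynomial (Fin (ν + 1)) ℂ, Q₀.IsHomogeneous M ∧ Q₁.IsHomogeneous M ∧
      ∀ z : Fin (ν + 1) → ℂ, (∀ g ∈ S, eval z g = 0) →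
        eval z (monomial u (1 : ℂ)) = eval z l₀ * eval z Q₀ + eval z l₁ * eval z Q₁ := by
    intro u hu
    obtain ⟨j, hj⟩ : ∃ j, s + 1 ≤ u j := by
      by_contra hcon
      push Not at hcon
      have h1 : u.degree = ∑ j, u j := Finsupp.degree_eq_sum u
      have h2 : ∑ j, u j < ∑ _j : Fin (ν + 1), (s + 1) :=
        Finset.sum_lt_sum_of_nonempty Finset.univ_nonempty fun j _ => hcon j
      rw [Finset.sum_const, Finset.card_univ, Fintype.card_fin, smul_eq_mul] at h2
      omega
    set w : Fin (ν + 1) →₀ ℕ := u - Finsupp.single j (s + 1) with hw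
    have hle : Finsupp.single j (s + 1) ≤ u := by
      rw [Finsupp.single_le_iff]; exact hj
    have huw : u = w + Finsupp.single j (s + 1) := (tsub_add_cancel_of_le hle).symm
    have hwd : w.degree + s = M := by
      have := congrArg Finsupp.degree huw
      rw [map_add, Finsupp.degree_single, hu] at this
      omega
    have hwh : (monomial w (1 : ℂ)).IsHomogeneous w.degree := isHomogeneous_monomial _ rfl
    refine ⟨monomial w 1 * A j, monomial w 1 * B j, ?_, ?_, ?_⟩
    · have := hwh.mul (hA j)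
      rwa [hwd] at this
    · have := hwh.mul (hB j)
      rwa [hwd] at this
    · intro z hz
      have h1 : (monomial u (1 : ℂ)) = monomial w 1 * X j ^ (s + 1) := by
        rw [X_pow_eq_monomial, monomial_mul, one_mul, ← huw]
      rw [h1, map_mul, map_pow, eval_X, h j z hz, map_mul, map_mul]
      ring
  choose! Q₀ Q₁ hQ₀ hQ₁ hQ using key
  refine ⟨∑ u ∈ P.support, C (coeff u P) * Q₀ u, ∑ u ∈ P.support, C (coeff u P) * Q₁ u, ?_, ?_, ?_⟩
  · refine IsHomogeneous.sum _ _ _ fun u hu => ?_
    have hud : u.degree = M + 1 := by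
      by_contra hc
      exact (mem_support_iff.1 hu) (hP.coeff_eq_zero hc)
    have := (isHomogeneous_C (Fin (ν + 1)) (coeff u P)).mul (hQ₀ u hud)
    rwa [zero_add] at this
  · refine IsHomogeneous.sum _ _ _ fun u hu => ?_
    have hud : u.degree = M + 1 := by
      by_contra hc
      exact (mem_support_iff.1 hu) (hP.coeff_eq_zero hc)
    have := (isHomogeneous_C (Fin (ν + 1)) (coeff u P)).mul (hQ₁ u hud)
    rwa [zero_add] at this
  · intro z hz
    conv_lhs => rw [P.as_sum]
    rw [map_sum, map_sum, map_sum, Finset.mul_sum, Finset.mul_sum, ← Finset.sum_add_distrib]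
    refine Finset.sum_congr rfl fun u hu => ?_
    have hud : u.degree = M + 1 := by
      by_contra hc
      exact (mem_support_iff.1 hu) (hP.coeff_eq_zero hc)
    have h1 : (monomial u (coeff u P)) = C (coeff u P) * monomial u (1 : ℂ) := by
      rw [C_mul_monomial, mul_one]
    rw [h1, map_mul, hQ u hud z hz, map_mul, map_mul, eval_C]
    ring

/-- iterated reduction -/
theorem dim_expand {S : Set (MvPolynomial (Fin (ν + 1)) ℂ)} {l₀ l₁ : MvPolynomial (Fin (ν + 1)) ℂ}
    {s : ℕ} {A B : Fin (ν + 1) → MvPolynomial (Fin (ν + 1)) ℂ}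
    (hA : ∀ j, (A j).IsHomogeneous s) (hB : ∀ j, (B j).IsHomogeneous s)
    (h : ∀ j, ∀ z : Fin (ν + 1) → ℂ, (∀ g ∈ S, eval z g = 0) →
        z j ^ (s + 1) = eval z (A j) * eval z l₀ + eval z (B j) * eval z l₁)
    (r : ℕ) : ∀ P : MvPolynomial (Fin (ν + 1)) ℂ, P.IsHomogeneous ((ν + 1) * (s + 1) + r) →
    ∃ G : ℕ → MvPolynomial (Fin (ν + 1)) ℂ, (∀ i, (G i).IsHomogeneous ((ν + 1) * (s + 1))) ∧
      ∀ z : Fin (ν + 1) → ℂ, (∀ g ∈ S, eval z g = 0) →
        eval z P = ∑ i ∈ Finset.range (r + 1),
          eval z l₀ ^ i * eval z l₁ ^ (r - i) * eval z (G i) := by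
  induction r with
  | zero =>
    intro P hP
    exact ⟨fun _ => P, fun _ => hP, fun z _ => by simp⟩
  | succ r ih =>
    intro P hP
    obtain ⟨Q₀, Q₁, hQ₀, hQ₁, hQ⟩ := dim_reduce hA hB h
      (M := (ν + 1) * (s + 1) + r) (by omega) P hP
    obtain ⟨G, hG, hG'⟩ := ih Q₀ hQ₀
    obtain ⟨G₁, hG₁, hG₁'⟩ := ih Q₁ hQ₁
    refine ⟨fun i => (if i = 0 then 0 else G (i - 1)) + (if i ≤ r then G₁ i else 0), ?_, ?_⟩
    · intro i
      refine IsHomogeneous.add ?_ ?_
      · split_ifs
        · exact isHomogeneous_zero _ _ _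
        · exact hG _
      · split_ifs
        · exact hG₁ _
        · exact isHomogeneous_zero _ _ _
    · intro z hz
      rw [hQ z hz, hG' z hz, hG₁' z hz]
      simp only [map_add, mul_add, Finset.sum_add_distrib]
      congr 1
      · rw [Finset.sum_range_succ' _ (r + 1)]
        simp only [if_true, map_zero, mul_zero, add_zero]
        rw [Finset.mul_sum]
        refine Finset.sum_congr rfl fun i hi => ?_
        rw [if_neg (Nat.succ_ne_zero i), Nat.add_sub_cancel, Nat.add_sub_add_right]
        ring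
      · rw [Finset.sum_range_succ _ (r + 1)]
        rw [if_neg (by omega), map_zero, mul_zero, add_zero, Finset.mul_sum]
        refine Finset.sum_congr rfl fun i hi => ?_
        have hi' : i ≤ r := by
          have := Finset.mem_range.1 hi; omega
        rw [if_pos hi', Nat.succ_sub hi', pow_succ]
        ring

theorem onCurve {K : Type} [Field K] [Algebra K ℂ] {x : ℕ → Fin (ν + 1) → K} {U : Ultrafilter ℕ}
    {S : Set (MvPolynomial (Fin (ν + 1)) ℂ)} (hS : ∀ g ∈ S, ∃ e, g.IsHomogeneous e)
    {l₀ l₁ : MvPolynomial (Fin (ν + 1)) ℂ} (h0 : l₀.IsHomogeneous 1) (h1 : l₁.IsHomogeneous 1)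
    (hno : ∀ z : Fin (ν + 1) → ℂ, (∀ g ∈ S, eval z g = 0) → eval z l₀ = 0 → eval z l₁ = 0 →
      z = 0)
    (hU : ∀ᶠ n in (U : Filter ℕ), ∀ g ∈ S, eval (fun i => algebraMap K ℂ (x n i)) g = 0) :
    OnCurve U x := by
  classical
  intro m
  obtain ⟨s, A, B, hA, hB, h⟩ := dim_null hS h0 h1 hno
  set M0 : ℕ := (ν + 1) * (s + 1) with hM0
  -- forms of degree `M0`
  have hfin : FiniteDimensional ℂ (homogeneousSubmodule (Fin (ν + 1)) ℂ M0) := by
    have hle : homogeneousSubmodule (Fin (ν + 1)) ℂ M0 ≤ restrictTotalDegree (Fin (ν + 1)) ℂ M0 := by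
      intro p hp
      rw [mem_restrictTotalDegree]
      exact ((mem_homogeneousSubmodule _ _).1 hp).totalDegree_le
    have hf : FiniteDimensional ℂ (restrictTotalDegree (Fin (ν + 1)) ℂ M0) := by
      infer_instance
    exact Submodule.finiteDimensional_of_le hle
  set D : ℕ := Module.finrank ℂ (homogeneousSubmodule (Fin (ν + 1)) ℂ M0) with hD
  set r : ℕ := 2 * D with hr
  -- the points of the curve
  let Z : Type := {z : Fin (ν + 1) → ℂ // ∀ g ∈ S, eval z g = 0}
  let Φ : (Fin (r + 1) → homogeneousSubmodule (Fin (ν + 1)) ℂ M0) →ₗ[ℂ] (Z → ℂ) :=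
    { toFun := fun G z => ∑ i : Fin (r + 1), eval z.1 l₀ ^ (i : ℕ) * eval z.1 l₁ ^ (r - i) *
        eval z.1 (G i).1
      map_add' := by
        intro G G'
        funext z
        simp only [Pi.add_apply, Submodule.coe_add, map_add, mul_add, Finset.sum_add_distrib]
      map_smul' := by
        intro c G
        funext z
        simp only [Pi.smul_apply, Submodule.coe_smul, smul_eval, RingHom.id_apply, smul_eq_mul,
          Finset.mul_sum]
        refine Finset.sum_congr rfl fun i _ => ?_
        ring }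
  let mf : Fin 3 → MvPolynomial (Fin (ν + 1)) ℂ := fun j => ∑ i, C (algebraMap K ℂ (m j i)) * X i
  have hmf : ∀ j, (mf j).IsHomogeneous 1 := by
    intro j
    refine IsHomogeneous.sum _ _ _ fun i _ => ?_
    have := (isHomogeneous_C (Fin (ν + 1)) (algebraMap K ℂ (m j i))).mul
      (isHomogeneous_X ℂ i)
    rwa [zero_add] at this
  let Ψ : homogeneousSubmodule (Fin 3) ℂ (M0 + r) →ₗ[ℂ] (Z → ℂ) :=
    { toFun := fun G z => eval (fun j => eval z.1 (mf j)) G.1
      map_add' := by
        intro G G'
        funext z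
        simp only [Pi.add_apply, Submodule.coe_add, map_add]
      map_smul' := by
        intro c G
        funext z
        simp only [Pi.smul_apply, Submodule.coe_smul, smul_eval, RingHom.id_apply, smul_eq_mul] }
  have hrange : ∀ G, Ψ G ∈ LinearMap.range Φ := by
    intro G
    have hhom : (bind₁ mf G.1).IsHomogeneous (M0 + r) := by
      have h1 := ((mem_homogeneousSubmodule _ _).1 G.2).aeval mf hmf
      rw [one_mul] at h1
      exact h1
    obtain ⟨Q, hQ, hQ'⟩ := dim_expand hA hB h r (bind₁ mf G.1) hhom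
    refine ⟨fun i => ⟨Q i, (mem_homogeneousSubmodule _ _).2 (hQ i)⟩, ?_⟩
    funext z
    have h2 := hQ' z.1 z.2
    change ∑ i : Fin (r + 1), eval z.1 l₀ ^ (i : ℕ) * eval z.1 l₁ ^ (r - i) *
        eval z.1 (Q i) = eval (fun j => eval z.1 (mf j)) G.1
    rw [← Fin.sum_univ_eq_sum_range (fun i => eval z.1 l₀ ^ i * eval z.1 l₁ ^ (r - i) *
        eval z.1 (Q i)) (r + 1)] at h2
    rw [← h2]
    have h3 : eval z.1 (bind₁ mf G.1) = eval (fun j => eval z.1 (mf j)) G.1 := by
      have := eval₂Hom_bind₁ (RingHom.id ℂ) z.1 mf G.1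
      exact this
    exact h3
  obtain ⟨hfin3, hdim3⟩ := Pool.Agent.Helper30.TP.finrank_forms ℂ (M0 + r)
  have hninj : ¬ Function.Injective Ψ := by
    intro hinj
    have h1 : Function.Injective (Ψ.codRestrict (LinearMap.range Φ) hrange) := by
      intro a b hab
      apply hinj
      exact congrArg Subtype.val hab
    have hfr : FiniteDimensional ℂ (LinearMap.range Φ) := by infer_instance
    have h2 := LinearMap.finrank_le_finrank_of_injective h1
    have h3 : Module.finrank ℂ (LinearMap.range Φ) ≤ (r + 1) * D := by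
      refine (LinearMap.finrank_range_le Φ).trans ?_
      rw [Module.finrank_pi_fintype]
      simp [hD]
    rw [hdim3] at h2
    have h4 : (r + 2).choose 2 ≤ (M0 + r + 2).choose 2 := Nat.choose_le_choose 2 (by omega)
    have h5 : (r + 2).choose 2 * 2 = (r + 2) * (r + 1) := by
      rw [Nat.choose_two_right, Nat.div_mul_cancel]
      · rfl
      · exact (Nat.even_mul_pred_self (r + 2)).two_dvd
    have h6 : (r + 2) * (r + 1) ≤ 2 * ((r + 1) * D) := by
      calc (r + 2) * (r + 1) = (r + 2).choose 2 * 2 := h5.symm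
        _ ≤ ((r + 1) * D) * 2 := by
            apply Nat.mul_le_mul_right
            omega
        _ = _ := by ring
    have h7 : (r + 2) * (r + 1) = 2 * ((r + 1) * D) + 2 * (r + 1) := by
      rw [hr]; ring
    omega
  obtain ⟨G, hG, hG0⟩ : ∃ G, Ψ G = 0 ∧ G ≠ 0 := by
    rw [← LinearMap.ker_eq_bot, Submodule.eq_bot_iff] at hninj
    push Not at hninj
    obtain ⟨G, hG, hG0⟩ := hninj
    exact ⟨G, LinearMap.mem_ker.1 hG, hG0⟩
  obtain ⟨g, hg⟩ := G
  have hg0 : g ≠ 0 := by
    rintro rfl
    exact hG0 rfl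
  have hgh : g.IsHomogeneous (M0 + r) := (mem_homogeneousSubmodule _ _).1 hg
  -- a form over `K`
  obtain ⟨ℓ, hℓ⟩ : ∃ ℓ : ℂ →ₗ[K] K, Pool.Agent.Helper30.TP.lam ℓ g ≠ 0 := by
    obtain ⟨t, ht⟩ := Pool.Agent.Helper30.TP.ultra_expand (Module.Basis.ofVectorSpace K ℂ) g
    by_contra hcon
    push Not at hcon
    apply hg0
    rw [ht]
    apply Finset.sum_eq_zero
    intro l _
    rw [hcon, map_zero, mul_zero]
  refine ⟨Pool.Agent.Helper30.TP.lam ℓ g, M0 + r, Pool.Agent.Helper30.TP.ultra_lam_hom ℓ hgh, hℓ, ?_⟩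
  filter_upwards [hU] with n hn
  rw [Pool.Agent.Helper30.TP.ultra_eval_lam]
  have h2 : eval (fun j => eval (fun i => algebraMap K ℂ (x n i)) (mf j)) g = 0 :=
    congrFun hG ⟨fun i => algebraMap K ℂ (x n i), hn⟩
  have h3 : (fun j => algebraMap K ℂ (∑ i, m j i * x n i)) =
      fun j => eval (fun i => algebraMap K ℂ (x n i)) (mf j) := by
    funext j
    simp only [mf, map_sum, map_mul, eval_C, eval_X]
  rw [h3, h2, map_zero]

end Pool.Agent.Helper38.TQ

end

section

/-!
# Closed sets of dimension at most one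
-/

set_option autoImplicit false

namespace Pool.Agent.Helper38.TQ

open MvPolynomial

variable {ν : ℕ}

/-- The sequences of points over subfields of `ℂ` in the closed set lie on curves. -/
def CurveSet (S : Set (MvPolynomial (Fin (ν + 1)) ℂ)) : Prop :=
  ∀ (K : Type) [Field K] [Algebra K ℂ] (y : ℕ → Fin (ν + 1) → K) (U : Ultrafilter ℕ),
    (∀ᶠ n in (U : Filter ℕ), ∀ g ∈ S, eval (fun i => algebraMap K ℂ (y n i)) g = 0) →
      OnCurve U y

theorem curveSet_of_forms {S : Set (MvPolynomial (Fin (ν + 1)) ℂ)}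
    (hS : ∀ g ∈ S, ∃ e, g.IsHomogeneous e)
    {l₀ l₁ : MvPolynomial (Fin (ν + 1)) ℂ} (h0 : l₀.IsHomogeneous 1) (h1 : l₁.IsHomogeneous 1)
    (hno : ∀ z : Fin (ν + 1) → ℂ, (∀ g ∈ S, eval z g = 0) → eval z l₀ = 0 → eval z l₁ = 0 →
      z = 0) : CurveSet S :=
  fun _ _ _ _ _ hU => onCurve hS h0 h1 hno hU

/-- Homogeneous relations between three linear forms on a cone of dimension at most two. -/
theorem exists_relation_linear {S : Set (MvPolynomial (Fin (ν + 1)) ℂ)}
    (hS : ∀ g ∈ S, ∃ e, g.IsHomogeneous e)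
    (hdim : ringKrullDim (MvPolynomial (Fin (ν + 1)) ℂ ⧸ Ideal.span S) ≤ 2)
    (c : Fin 3 → Fin (ν + 1) → ℂ) :
    ∃ (e : ℕ) (Q : MvPolynomial (Fin 3) ℂ), Q.IsHomogeneous e ∧ Q ≠ 0 ∧
      ∀ x : Fin (ν + 1) → ℂ, (∀ g ∈ S, eval x g = 0) →
        eval (fun j => ∑ i, c j i * x i) Q = 0 := by
  classical
  obtain ⟨Q, hQ0, hQ⟩ := Pool.Agent.Helper36.exists_relation_radical (Ideal.span S) hdim
    (fun j => ∑ i, C (c j i) * X i)
  have hvan : ∀ x : Fin (ν + 1) → ℂ, (∀ g ∈ S, eval x g = 0) →
      eval (fun j => ∑ i, c j i * x i) Q = 0 := by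
    intro x hx
    obtain ⟨n, hn⟩ := hQ
    have hspan : ∀ g ∈ Ideal.span S, eval x g = 0 := by
      intro g hg
      induction hg using Submodule.span_induction with
      | mem g hg => exact hx g hg
      | zero => rw [map_zero]
      | add a b _ _ ha hb => rw [map_add, ha, hb, add_zero]
      | smul a b _ hb => rw [smul_eq_mul, map_mul, hb, mul_zero]
    have h1 := hspan _ hn
    rw [map_pow] at h1
    have h2 := eq_zero_of_pow_eq_zero h1
    have h3 : ∀ Q : MvPolynomial (Fin 3) ℂ, eval x (aeval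
        (fun j => (∑ i, C (c j i) * X i : MvPolynomial (Fin (ν + 1)) ℂ)) Q) =
        eval (fun j => ∑ i, c j i * x i) Q := by
      intro Q
      induction Q using MvPolynomial.induction_on with
      | C a => simp
      | add p q hp hq => simp only [map_add, hp, hq]
      | mul_X p i hp =>
        rw [map_mul, map_mul, map_mul, hp, aeval_X, eval_X]
        congr 1
        simp
    rwa [h3] at h2
  obtain ⟨e, he⟩ : ∃ e, homogeneousComponent e Q ≠ 0 := by
    by_contra hcon
    push Not at hcon
    apply hQ0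
    rw [← sum_homogeneousComponent Q]
    exact Finset.sum_eq_zero fun i _ => hcon i
  refine ⟨e, _, homogeneousComponent_isHomogeneous e Q, he, fun x hx => ?_⟩
  set v : Fin 3 → ℂ := fun j => ∑ i, c j i * x i with hv
  set R : Polynomial ℂ := ∑ i ∈ Finset.range (Q.totalDegree + 1),
    Polynomial.C (eval v (homogeneousComponent i Q)) * Polynomial.X ^ i with hR
  have hR0 : R = 0 := by
    apply Polynomial.zero_of_eval_zero
    intro l
    have h1 : eval (fun i => l * v i) Q = 0 := by
      have h2 := hvan (fun i => l * x i) (by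
        intro g hg
        obtain ⟨n, hn⟩ := hS g hg
        have h3 := eval_smul_hom hn l x
        rw [hx g hg, mul_zero] at h3
        exact h3)
      rw [← h2]
      congr 2
      funext j
      rw [hv]
      simp only [Finset.mul_sum]
      refine Finset.sum_congr rfl fun i _ => ?_
      ring
    rw [← sum_homogeneousComponent Q, map_sum] at h1
    rw [hR, Polynomial.eval_finsetSum, ← h1]
    refine Finset.sum_congr rfl fun i _ => ?_
    have h4 : eval (fun i => l * v i) (homogeneousComponent i Q) =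
        l ^ i * eval v (homogeneousComponent i Q) :=
      eval_smul_hom (ν := 2) (homogeneousComponent_isHomogeneous i Q) l v
    rw [h4, Polynomial.eval_mul, Polynomial.eval_C, Polynomial.eval_pow, Polynomial.eval_X,
      mul_comm]
  have hcoef := congrArg (fun p => p.coeff e) hR0
  simp only [hR, Polynomial.finsetSum_coeff, Polynomial.coeff_C_mul_X_pow,
    Polynomial.coeff_zero] at hcoef
  rw [Finset.sum_ite_eq] at hcoef
  split_ifs at hcoef with h
  · exact hcoef
  · rw [homogeneousComponent_eq_zero, map_zero]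
    rw [Finset.mem_range] at h
    omega

/-- Closed sets of dimension at most one (Krull dimension of the cone at most two). -/
theorem curveSet_of_krull {S : Set (MvPolynomial (Fin (ν + 1)) ℂ)}
    (hS : ∀ g ∈ S, ∃ e, g.IsHomogeneous e)
    (hdim : ringKrullDim (MvPolynomial (Fin (ν + 1)) ℂ ⧸ Ideal.span S) ≤ 2) : CurveSet S := by
  intro K _ _ y U hU m
  obtain ⟨e, Q, hQ, hQ0, hQv⟩ := exists_relation_linear hS hdim
    (fun j i => algebraMap K ℂ (m j i))
  obtain ⟨ρ, hρ⟩ := Pool.Agent.Helper36.exists_mapLin_ne_zero (K := K) hQ0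
  refine ⟨_, e, Pool.Agent.Helper36.mapLin_isHomogeneous ρ hQ, hρ, ?_⟩
  filter_upwards [hU] with n hn
  rw [Pool.Agent.Helper36.eval_mapLin]
  have h1 := hQv _ hn
  have h2 : (fun j => algebraMap K ℂ (∑ i, m j i * y n i)) =
      fun j => ∑ i, algebraMap K ℂ (m j i) * algebraMap K ℂ (y n i) := by
    funext j
    rw [map_sum]
    exact Finset.sum_congr rfl fun i _ => map_mul _ _ _
  rw [h2, h1, map_zero]

end Pool.Agent.Helper38.TQ

end
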