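import Pool.Agent.Helper29.MF.T15

section

namespace Pool.Agent.Helper16
end Pool.Agent.Helper16
namespace Pool.Agent.Helper36
end Pool.Agent.Helper36
namespace Pool.Agent.Helper38.TQ
end Pool.Agent.Helper38.TQ

/-!
# Heights of forms in several variables, and the Jacobian determinant
-/

set_option autoImplicit false

namespace Pool.Agent.Helper30.TKN

open MvPolynomial
open Pool.Agent.Helper16 (Place IsFunctionField)
open Pool.Agent.Helper36 (step iter)
open Pool.Agent.Helper38.TQ

variable {ν : ℕ}

section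

variable {k K : Type} [Field k] [Field K] [Algebra k K]

/-- The maximum norm of a polynomial at a place. -/
noncomputable def gs (b : Place k K) (P : MvPolynomial (Fin (ν + 1)) K) :
    WithZero (Multiplicative ℤ) :=
  P.support.sup fun m => b.val (P.coeff m)

theorem formHeight_le (b : Place k K) (P : MvPolynomial (Fin (ν + 1)) K)
    (m : Fin (ν + 1) →₀ ℕ) : b.val (P.coeff m) ≤ gs b P := by
  by_cases h : m ∈ P.support
  · exact Finset.le_sup (f := fun m => b.val (P.coeff m)) h
  · rw [notMem_support_iff.1 h, map_zero]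
    exact zero_le

theorem formHeight_gs_le {b : Place k K} {P : MvPolynomial (Fin (ν + 1)) K}
    {c : WithZero (Multiplicative ℤ)} (h : ∀ m, b.val (P.coeff m) ≤ c) : gs b P ≤ c :=
  Finset.sup_le fun m _ => h m

theorem formHeight_exists {b : Place k K} {P : MvPolynomial (Fin (ν + 1)) K} (hP : P ≠ 0) :
    ∃ m, P.coeff m ≠ 0 ∧ gs b P = b.val (P.coeff m) := by
  obtain ⟨m, hm, h⟩ := Finset.exists_mem_eq_sup P.support (support_nonempty.2 hP)
    (fun m => b.val (P.coeff m))
  exact ⟨m, mem_support_iff.1 hm, h⟩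

theorem formHeight_pos {b : Place k K} {P : MvPolynomial (Fin (ν + 1)) K} (hP : P ≠ 0) :
    0 < gs b P := by
  obtain ⟨m, hm, h⟩ := formHeight_exists (b := b) hP
  rw [h]
  exact zero_lt_iff.2 (by simpa using hm)

theorem formHeight_zero (b : Place k K) : gs b (0 : MvPolynomial (Fin (ν + 1)) K) = 0 := by
  unfold gs
  rw [support_zero, Finset.sup_empty]
  rfl

theorem formHeight_support [IsAlgClosed k] (hK : IsFunctionField k K)
    {P : MvPolynomial (Fin (ν + 1)) K} (hP : P ≠ 0) :
    (Function.support fun b : Place k K => WithZero.log (gs b P)).Finite := by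
  classical
  have h1 : (⋃ m ∈ P.support,
      Function.support fun b : Place k K => WithZero.log (b.val (P.coeff m))).Finite :=
    Set.Finite.biUnion (Finset.finite_toSet _)
      fun m hm => (finsum_log hK _ (mem_support_iff.1 hm)).1
  refine h1.subset fun b hb => ?_
  obtain ⟨m, hm, h⟩ := formHeight_exists (b := b) hP
  simp only [Set.mem_iUnion]
  refine ⟨m, mem_support_iff.2 hm, ?_⟩
  rw [Function.mem_support] at hb ⊢
  rwa [← h]

/-- The size of the value of a form. -/
theorem low_val_eval_le (b : Place k K) {P : MvPolynomial (Fin (ν + 1)) K} {e : ℕ}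
    (hP : P.IsHomogeneous e) (y : Fin (ν + 1) → K) :
    b.val (eval y P) ≤ gs b P * nrm b y ^ e := by
  rw [eval_eq]
  refine b.val.map_sum_le fun m hm => ?_
  have hd : ∑ i ∈ m.support, m i = e := by
    have := hP (MvPolynomial.mem_support_iff.1 hm)
    rw [Finsupp.weight_apply] at this
    simpa [Finsupp.sum] using this
  rw [map_mul, map_prod]
  refine mul_le_mul' (formHeight_le b P m) ?_
  rw [← hd, ← Finset.prod_pow_eq_pow_sum]
  refine Finset.prod_le_prod' fun i _ => ?_
  rw [map_pow]
  exact pow_le_pow_left' (val_le_nrm b y i) _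

/-- The height is nonnegative. -/
theorem low_ht_nonneg [IsAlgClosed k] (hK : IsFunctionField k K) {x : Fin (ν + 1) → K}
    (hx : x ≠ 0) : 0 ≤ ht k x := by
  obtain ⟨i0, hi0⟩ : ∃ i, x i ≠ 0 := by
    by_contra h
    push Not at h
    exact hx (funext h)
  rw [← ht_smul hK (inv_ne_zero hi0) hx]
  unfold ht
  refine finsum_nonneg fun b => ?_
  have h1 : (1 : WithZero (Multiplicative ℤ)) ≤ nrm b ((x i0)⁻¹ • x) := by
    have := val_le_nrm b ((x i0)⁻¹ • x) i0
    rwa [Pi.smul_apply, smul_eq_mul, inv_mul_cancel₀ hi0, map_one] at this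
  rw [← WithZero.log_one, WithZero.log_le_log one_ne_zero (lt_of_lt_of_le zero_lt_one h1).ne']
  exact h1

end

end Pool.Agent.Helper30.TKN

end

section

namespace Pool.Agent.Helper16
end Pool.Agent.Helper16
namespace Pool.Agent.Helper36
end Pool.Agent.Helper36
namespace Pool.Agent.Helper38.TQ
end Pool.Agent.Helper38.TQ

/-!
# Good reduction
-/

set_option autoImplicit false

namespace Pool.Agent.Helper30.TKN

open MvPolynomial
open Pool.Agent.Helper16 (Place IsFunctionField)
open Pool.Agent.Helper36 (step iter iter_zero iter_succ iter_succ' iter_add iter_map exists_nullstellensatz)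
open Pool.Agent.Helper38.TQ

variable {ν : ℕ}

variable {k K : Type} [Field k] [Field K] [Algebra k K]

theorem RedP.unique {b : Place k K} {P : MvPolynomial (Fin (ν + 1)) K}
    {p q : MvPolynomial (Fin (ν + 1)) k}
    (hp : RedP b P p) (hq : RedP b P q) : p = q := by
  ext m
  by_contra hne
  have h1 : p.coeff m - q.coeff m ≠ 0 := sub_ne_zero.2 hne
  have h2 := b.triv _ h1
  have h3 : algebraMap k K (p.coeff m - q.coeff m) =
      (P.coeff m - algebraMap k K (q.coeff m)) - (P.coeff m - algebraMap k K (p.coeff m)) := by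
    rw [map_sub]; ring
  rw [h3] at h2
  have h4 := b.val.map_sub_lt (hq m) (hp m)
  rw [h2] at h4
  exact lt_irrefl _ h4

theorem RedP.integral {b : Place k K} {P : MvPolynomial (Fin (ν + 1)) K}
    {p : MvPolynomial (Fin (ν + 1)) k}
    (hp : RedP b P p) (m : Fin (ν + 1) →₀ ℕ) : b.val (P.coeff m) ≤ 1 := by
  have h1 : P.coeff m = (P.coeff m - algebraMap k K (p.coeff m)) + algebraMap k K (p.coeff m) := by
    ring
  rw [h1]
  exact (b.val.map_add _ _).trans (max_le (hp m).le (b.val_algebraMap_le _))

theorem redP_map (b : Place k K) (p : MvPolynomial (Fin (ν + 1)) k) :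
    RedP b (map (algebraMap k K) p) p := by
  intro m
  rw [coeff_map, sub_self, map_zero]
  exact zero_lt_one

theorem redP_C_X (b : Place k K) (i : Fin (ν + 1)) : RedP b (X i) (X i) := by
  have h := redP_map b (X i : MvPolynomial (Fin (ν + 1)) k)
  rwa [map_X] at h

theorem RedP.add {b : Place k K} {P Q : MvPolynomial (Fin (ν + 1)) K}
    {p q : MvPolynomial (Fin (ν + 1)) k}
    (hp : RedP b P p) (hq : RedP b Q q) : RedP b (P + Q) (p + q) := by
  intro m
  have h1 : (P + Q).coeff m - algebraMap k K ((p + q).coeff m) =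
      (P.coeff m - algebraMap k K (p.coeff m)) + (Q.coeff m - algebraMap k K (q.coeff m)) := by
    rw [coeff_add, coeff_add, map_add]; ring
  rw [h1]
  exact b.val.map_add_lt (hp m) (hq m)

theorem RedP.neg {b : Place k K} {P : MvPolynomial (Fin (ν + 1)) K}
    {p : MvPolynomial (Fin (ν + 1)) k}
    (hp : RedP b P p) : RedP b (-P) (-p) := by
  intro m
  have h1 : (-P).coeff m - algebraMap k K ((-p).coeff m) =
      -(P.coeff m - algebraMap k K (p.coeff m)) := by
    rw [coeff_neg, coeff_neg, map_neg]; ring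
  rw [h1, Valuation.map_neg]
  exact hp m

theorem redP_zero (b : Place k K) : RedP b (0 : MvPolynomial (Fin (ν + 1)) K) 0 := by
  intro m
  rw [coeff_zero, coeff_zero, map_zero, sub_zero, map_zero]
  exact zero_lt_one

theorem redP_one (b : Place k K) : RedP b (1 : MvPolynomial (Fin (ν + 1)) K) 1 := by
  have h := redP_map b (1 : MvPolynomial (Fin (ν + 1)) k)
  rwa [map_one] at h

theorem RedP.mul {b : Place k K} {P Q : MvPolynomial (Fin (ν + 1)) K}
    {p q : MvPolynomial (Fin (ν + 1)) k}
    (hp : RedP b P p) (hq : RedP b Q q) : RedP b (P * Q) (p * q) := by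
  classical
  intro m
  have h1 : (P * Q).coeff m - algebraMap k K ((p * q).coeff m) =
      ∑ x ∈ Finset.HasAntidiagonal.antidiagonal m, ((P.coeff x.1 - algebraMap k K (p.coeff x.1)) * Q.coeff x.2 +
        (Q.coeff x.2 - algebraMap k K (q.coeff x.2)) * algebraMap k K (p.coeff x.1)) := by
    rw [coeff_mul, coeff_mul, map_sum, ← Finset.sum_sub_distrib]
    refine Finset.sum_congr rfl fun x _ => ?_
    rw [map_mul]; ring
  rw [h1]
  refine b.val.map_sum_lt one_ne_zero fun x _ => ?_
  refine b.val.map_add_lt ?_ ?_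
  · rw [map_mul]
    exact mul_lt_one_of_lt_of_le (hp _) (hq.integral _)
  · rw [map_mul]
    exact mul_lt_one_of_lt_of_le (hq _) (b.val_algebraMap_le _)

theorem RedP.sum {b : Place k K} {ι : Type} (s : Finset ι)
    {P : ι → MvPolynomial (Fin (ν + 1)) K}
    {p : ι → MvPolynomial (Fin (ν + 1)) k} (h : ∀ i ∈ s, RedP b (P i) (p i)) :
    RedP b (∑ i ∈ s, P i) (∑ i ∈ s, p i) := by
  classical
  induction s using Finset.induction_on with
  | empty => rw [Finset.sum_empty, Finset.sum_empty]; exact redP_zero b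
  | insert a s ha ih =>
    rw [Finset.sum_insert ha, Finset.sum_insert ha]
    exact (h a (Finset.mem_insert_self _ _)).add (ih fun i hi => h i (Finset.mem_insert_of_mem hi))

theorem RedP.prod {b : Place k K} {ι : Type} (s : Finset ι)
    {P : ι → MvPolynomial (Fin (ν + 1)) K}
    {p : ι → MvPolynomial (Fin (ν + 1)) k} (h : ∀ i ∈ s, RedP b (P i) (p i)) :
    RedP b (∏ i ∈ s, P i) (∏ i ∈ s, p i) := by
  classical
  induction s using Finset.induction_on with
  | empty => rw [Finset.prod_empty, Finset.prod_empty]; exact redP_one b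
  | insert a s ha ih =>
    rw [Finset.prod_insert ha, Finset.prod_insert ha]
    exact (h a (Finset.mem_insert_self _ _)).mul (ih fun i hi => h i (Finset.mem_insert_of_mem hi))

theorem RedP.pow {b : Place k K} {P : MvPolynomial (Fin (ν + 1)) K}
    {p : MvPolynomial (Fin (ν + 1)) k}
    (hp : RedP b P p) (n : ℕ) : RedP b (P ^ n) (p ^ n) := by
  induction n with
  | zero => rw [pow_zero, pow_zero]; exact redP_one b
  | succ n ih => rw [pow_succ, pow_succ]; exact ih.mul hp

theorem RedP.pderiv {b : Place k K} {P : MvPolynomial (Fin (ν + 1)) K}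
    {p : MvPolynomial (Fin (ν + 1)) k}
    (hp : RedP b P p) (j : Fin (ν + 1)) :
    RedP b (MvPolynomial.pderiv j P) (MvPolynomial.pderiv j p) := by
  intro m
  rw [coeff_pderiv, coeff_pderiv]
  have h1 : ∀ (c : k), algebraMap k K (c * ((m j : k) + 1)) =
      algebraMap k K c * algebraMap k K ((m j : k) + 1) := fun c => map_mul _ _ _
  have h2 : ((m j : K) + 1) = algebraMap k K ((m j : k) + 1) := by simp
  rw [h1, h2, ← sub_mul, map_mul]
  exact mul_lt_one_of_lt_of_le (hp _) (b.val_algebraMap_le _)

/-- Specialisation of values. -/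
theorem RedP.eval {b : Place k K} {P : MvPolynomial (Fin (ν + 1)) K}
    {p : MvPolynomial (Fin (ν + 1)) k}
    (hp : RedP b P p) {u : Fin (ν + 1) → K} {z : Fin (ν + 1) → k}
    (hu : ∀ i, b.val (u i - algebraMap k K (z i)) < 1) :
    b.val (MvPolynomial.eval u P - algebraMap k K (MvPolynomial.eval z p)) < 1 := by
  have hu1 : ∀ i, b.val (u i) ≤ 1 := by
    intro i
    have h1 : u i = (u i - algebraMap k K (z i)) + algebraMap k K (z i) := by ring
    rw [h1]
    exact (b.val.map_add _ _).trans (max_le (hu i).le (b.val_algebraMap_le _))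
  have h1 := (val_aeval_sub_lt b u z hu p).2
  have h2 : aeval u p = MvPolynomial.eval u (map (algebraMap k K) p) := (eval_map_k p u).symm
  have h3 : aeval z p = MvPolynomial.eval z p :=
    congrArg (fun φ => φ p) (coe_aeval_eq_eval z)
  rw [h2, h3] at h1
  have h4 : MvPolynomial.eval u P - algebraMap k K (MvPolynomial.eval z p) =
      MvPolynomial.eval u (P - map (algebraMap k K) p) +
        (MvPolynomial.eval u (map (algebraMap k K) p) -
          algebraMap k K (MvPolynomial.eval z p)) := by
    rw [map_sub]; ring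
  rw [h4]
  refine b.val.map_add_lt ?_ h1
  rw [eval_eq]
  refine b.val.map_sum_lt one_ne_zero fun m _ => ?_
  rw [map_mul, map_prod]
  refine mul_lt_one_of_lt_of_le ?_ ?_
  · rw [coeff_sub, coeff_map]
    exact hp m
  · refine Finset.prod_le_one' fun i _ => ?_
    rw [map_pow]
    exact pow_le_one' (hu1 i) _

theorem redP_exists [IsAlgClosed k] (hK : IsFunctionField k K) (b : Place k K)
    {P : MvPolynomial (Fin (ν + 1)) K} {e : ℕ} (hP : P.IsHomogeneous e)
    (h : ∀ m, b.val (P.coeff m) ≤ 1) : ∃ p, RedP b P p ∧ p.IsHomogeneous e := by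
  classical
  have h1 : ∀ m, ∃ c : k, b.val (P.coeff m - algebraMap k K c) < 1 ∧
      (P.coeff m = 0 → c = 0) := by
    intro m
    by_cases h0 : P.coeff m = 0
    · exact ⟨0, by simp [h0], fun _ => rfl⟩
    · obtain ⟨c, hc⟩ := exists_residue hK b (P.coeff m) (h m)
      exact ⟨c, hc, fun h => absurd h h0⟩
  choose c hc hc0 using h1
  have h2 : ∀ m, (∑ n ∈ P.support, monomial n (c n)).coeff m = c m := by
    intro m
    rw [coeff_sum]
    simp only [coeff_monomial]
    rw [Finset.sum_ite_eq']
    split_ifs with h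
    · rfl
    · exact (hc0 m (notMem_support_iff.1 h)).symm
  refine ⟨∑ n ∈ P.support, monomial n (c n), fun m => ?_, ?_⟩
  · rw [h2]
    exact hc m
  · refine IsHomogeneous.sum _ _ _ fun n hn => ?_
    refine isHomogeneous_monomial _ ?_
    have := hP (mem_support_iff.1 hn)
    rw [← this, Finsupp.degree_eq_weight_one]
    rfl

end Pool.Agent.Helper30.TKN

end

section

namespace Pool.Agent.Helper16
end Pool.Agent.Helper16
namespace Pool.Agent.Helper36
end Pool.Agent.Helper36
namespace Pool.Agent.Helper38.TQ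
end Pool.Agent.Helper38.TQ

/-!
# Good reduction: finiteness and orbits
-/

set_option autoImplicit false

namespace Pool.Agent.Helper30.TKN

open MvPolynomial
open Pool.Agent.Helper16 (Place IsFunctionField)
open Pool.Agent.Helper36 (step iter iter_zero iter_succ iter_succ' iter_add iter_map exists_nullstellensatz)
open Pool.Agent.Helper38.TQ

variable {ν : ℕ}

variable {k K : Type} [Field k] [Field K] [Algebra k K]

theorem Good2_fin [IsAlgClosed k] (hK : IsFunctionField k K) (P : MvPolynomial (Fin (ν + 1)) K) :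
    {b : Place k K | ¬ ∀ m, b.val (P.coeff m) ≤ 1}.Finite := by
  by_cases hP : P = 0
  · refine (Set.finite_empty).subset ?_
    intro b hb
    refine hb fun m => ?_
    rw [hP, coeff_zero, map_zero]
    exact zero_le_one
  · refine (formHeight_support hK hP).subset ?_
    intro b hb h0
    refine hb fun m => ?_
    have h1 : 0 < gs b P := formHeight_pos hP
    have h2 : WithZero.log (gs b P) = 0 := h0
    have h3 : gs b P ≤ 1 := by
      by_contra hcon
      rw [not_le] at hcon
      have h4 := (WithZero.log_lt_log one_ne_zero h1.ne').2 hcon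
      rw [WithZero.log_one, h2] at h4
      exact lt_irrefl _ h4
    exact (formHeight_le b P m).trans h3

/-- Almost all places have good reduction. -/
theorem good_finite [IsAlgClosed k] [Algebra K ℂ] (hK : IsFunctionField k K) {d : ℕ}
    {F : Fin (ν + 1) → MvPolynomial (Fin (ν + 1)) K}
    (hF : IsEndo d fun i => map (algebraMap K ℂ) (F i)) : {b : Place k K | ¬ Good d b F}.Finite := by
  have hhom : ∀ i, (F i).IsHomogeneous d := by
    intro i m hm
    refine hF.hom i ?_
    rw [coeff_map]
    simpa using hm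
  obtain ⟨M, q, hq1, hq2⟩ := exists_nullstellensatz (L := ℂ) F hhom (by
    intro x hx
    refine hF.nz x fun i => ?_
    have h := hx i
    rw [eval_map]
    exact h)
  have hfin : ((⋃ i : Fin (ν + 1), {b : Place k K | ¬ ∀ m, b.val ((F i).coeff m) ≤ 1}) ∪
      ⋃ a : Fin (ν + 1) × Fin (ν + 1), {b : Place k K | ¬ ∀ m, b.val ((q a).coeff m) ≤ 1}).Finite :=
    (Set.finite_iUnion fun i => Good2_fin hK (F i)).union
      (Set.finite_iUnion fun a => Good2_fin hK (q a))
  refine hfin.subset ?_
  intro b hb
  by_contra hcon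
  apply hb
  rw [Set.mem_union, not_or, Set.mem_iUnion, Set.mem_iUnion, not_exists, not_exists] at hcon
  have h1 : ∀ i m, b.val ((F i).coeff m) ≤ 1 := fun i => not_not.1 (hcon.1 i)
  have h2 : ∀ a m, b.val ((q a).coeff m) ≤ 1 := fun a => not_not.1 (hcon.2 a)
  choose f hf1 hf2 using fun i => redP_exists hK b (hhom i) (h1 i)
  choose r hr1 hr2 using fun a => redP_exists hK b (hq1 a) (h2 a)
  refine ⟨f, ⟨hF.two_le, hf2, ?_⟩, hf1⟩
  intro x hx
  funext j
  have h3 : ∑ i, r (j, i) * f i = X j ^ (M + d) := by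
    refine RedP.unique (P := X j ^ (M + d)) ?_ ((redP_C_X b j).pow _)
    rw [← hq2 j]
    exact RedP.sum _ fun i _ => (hr1 (j, i)).mul (hf1 i)
  have h4 := congrArg (eval x) h3
  rw [map_sum, map_pow, eval_X] at h4
  simp only [map_mul, hx, mul_zero, Finset.sum_const_zero] at h4
  exact eq_zero_of_pow_eq_zero h4.symm

theorem GoodRed.step [IsAlgClosed k] {d : ℕ} {b : Place k K} {F : Fin (ν + 1) → MvPolynomial (Fin (ν + 1)) K}
    {f : Fin (ν + 1) → MvPolynomial (Fin (ν + 1)) k} (hF : ∀ i, (F i).IsHomogeneous d) (h : GoodRed d b F f)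
    {x : Fin (ν + 1) → K} {z : Fin (ν + 1) → k} (hx : Red b x z) :
    Red b (Pool.Agent.Helper36.step F x) (Pool.Agent.Helper36.step f z) := by
  obtain ⟨hz, c, hc, h1⟩ := hx
  refine ⟨step_ne_zero h.endo hz, c ^ d, pow_ne_zero _ hc, fun i => ?_⟩
  have h2 := (h.red i).eval (u := c • x) (z := z) h1
  rw [eval_smul_hom (hF i)] at h2
  have h3 : Pool.Agent.Helper36.step F x i = eval x (F i) :=
    congrArg (fun φ => φ (F i)) (coe_aeval_eq_eval x)
  have h4 : Pool.Agent.Helper36.step f z i = eval z (f i) :=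
    congrArg (fun φ => φ (f i)) (coe_aeval_eq_eval z)
  rw [h3, h4]
  exact h2

theorem GoodRed.iter [IsAlgClosed k] {d : ℕ} {b : Place k K} {F : Fin (ν + 1) → MvPolynomial (Fin (ν + 1)) K}
    {f : Fin (ν + 1) → MvPolynomial (Fin (ν + 1)) k} (hF : ∀ i, (F i).IsHomogeneous d) (h : GoodRed d b F f)
    {x : Fin (ν + 1) → K} {z : Fin (ν + 1) → k} (hx : Red b x z) (n : ℕ) :
    Red b (Pool.Agent.Helper36.iter F x n) (Pool.Agent.Helper36.iter f z n) := by
  induction n with
  | zero => exact hx
  | succ n ih =>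
    rw [iter_succ, iter_succ]
    exact h.step hF ih

end Pool.Agent.Helper30.TKN

end

section

namespace Pool.Agent.Helper16
end Pool.Agent.Helper16
namespace Pool.Agent.Helper36
end Pool.Agent.Helper36
namespace Pool.Agent.Helper38.TQ
end Pool.Agent.Helper38.TQ

/-!
# Growth of the heights
-/

set_option autoImplicit false

namespace Pool.Agent.Helper30.TKN

open MvPolynomial
open Pool.Agent.Helper16 (Place IsFunctionField)
open Pool.Agent.Helper36 (step iter iter_zero iter_succ iter_succ' iter_add iter_map exists_nullstellensatz)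
open Pool.Agent.Helper38.TQ

variable {ν : ℕ}

variable {k K : Type} [Field k] [IsAlgClosed k] [Field K] [Algebra k K] [Algebra K ℂ]

theorem homog_of_endo {d : ℕ} {F : Fin (ν + 1) → MvPolynomial (Fin (ν + 1)) K}
    (hF : IsEndo d fun i => map (algebraMap K ℂ) (F i)) (i : Fin (ν + 1)) : (F i).IsHomogeneous d :=
  IsHomogeneous.of_map (algebraMap K ℂ).injective (hF.hom i)

theorem growth_aeval_zero {d : ℕ} {F : Fin (ν + 1) → MvPolynomial (Fin (ν + 1)) K}
    (hF : IsEndo d fun i => map (algebraMap K ℂ) (F i)) (y : Fin (ν + 1) → ℂ)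
    (hy : ∀ i, aeval y (F i) = 0) : y = 0 := by
  refine hF.nz y fun i => ?_
  have h := hy i
  rw [eval_map]
  rw [aeval_def] at h
  exact h

theorem step_ne_zeroK {d : ℕ} {F : Fin (ν + 1) → MvPolynomial (Fin (ν + 1)) K}
    (hF : IsEndo d fun i => map (algebraMap K ℂ) (F i)) {x : Fin (ν + 1) → K} (hx : x ≠ 0) :
    step F x ≠ 0 := by
  intro h
  apply hx
  have h1 : (fun i => algebraMap K ℂ (x i)) = 0 := by
    apply growth_aeval_zero hF
    intro i
    have h2 := congrFun h i
    have h3 : aeval x (F i) = 0 := h2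
    have h4 : aeval (fun i => algebraMap K ℂ (x i)) (F i) = algebraMap K ℂ (aeval x (F i)) := by
      have h5 : (fun i => algebraMap K ℂ (x i)) = fun i => (Algebra.ofId K ℂ) (x i) := rfl
      rw [h5, ← comp_aeval_apply]
      rfl
    rw [h4, h3, map_zero]
  funext i
  have h2 := congrFun h1 i
  exact (map_eq_zero (algebraMap K ℂ)).1 h2

theorem iter_ne_zeroK {d : ℕ} {F : Fin (ν + 1) → MvPolynomial (Fin (ν + 1)) K}
    (hF : IsEndo d fun i => map (algebraMap K ℂ) (F i)) {x : Fin (ν + 1) → K} (hx : x ≠ 0) (n : ℕ) :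
    iter F x n ≠ 0 := by
  induction n with
  | zero => exact hx
  | succ n ih =>
    rw [iter_succ]
    exact step_ne_zeroK hF ih

theorem growth_loc (hK : IsFunctionField k K) {d : ℕ} {F : Fin (ν + 1) → MvPolynomial (Fin (ν + 1)) K}
    (hF : IsEndo d fun i => map (algebraMap K ℂ) (F i)) :
    ∃ c : Place k K → ℤ, (Function.support c).Finite ∧ (∀ b, 0 ≤ c b) ∧
      ∀ (b : Place k K) (y : Fin (ν + 1) → K), y ≠ 0 →
        |WithZero.log (nrm b (step F y)) - d * WithZero.log (nrm b y)| ≤ c b := by
  classical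
  have hhom := fun i => homog_of_endo hF i
  obtain ⟨M, q, hq, h⟩ := exists_nullstellensatz (L := ℂ) F hhom (growth_aeval_zero hF)
  have hsup : ∀ P : MvPolynomial (Fin (ν + 1)) K,
      (Function.support fun b : Place k K => max 0 (WithZero.log (gs b P))).Finite := by
    intro P
    by_cases h0 : P = 0
    · rw [h0]
      simp [formHeight_zero]
    · refine (formHeight_support hK h0).subset fun b hb => ?_
      rw [Function.mem_support] at hb ⊢
      intro h1
      apply hb
      rw [h1, max_self]
  set c : Place k K → ℤ := fun b => ∑ i : Fin (ν + 1), max 0 (WithZero.log (gs b (F i))) +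
    ∑ a : Fin (ν + 1) × Fin (ν + 1), max 0 (WithZero.log (gs b (q a))) with hc
  have hc1 : ∀ b : Place k K, 0 ≤ ∑ i : Fin (ν + 1), max 0 (WithZero.log (gs b (F i))) := fun b =>
    Finset.sum_nonneg fun i _ => le_max_left _ _
  have hc2 : ∀ b : Place k K, 0 ≤ ∑ a : Fin (ν + 1) × Fin (ν + 1), max 0 (WithZero.log (gs b (q a))) := fun b =>
    Finset.sum_nonneg fun i _ => le_max_left _ _
  have hcF : ∀ (b : Place k K) i, gs b (F i) ≤ WithZero.exp (c b) := by
    intro b i
    apply WithZero.le_exp_of_log_le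
    have h1 : max 0 (WithZero.log (gs b (F i))) ≤ ∑ i : Fin (ν + 1), max 0 (WithZero.log (gs b (F i))) :=
      Finset.single_le_sum (f := fun i => max 0 (WithZero.log (gs b (F i))))
        (fun i _ => le_max_left _ _) (Finset.mem_univ i)
    have h2 := le_max_right 0 (WithZero.log (gs b (F i)))
    have h3 := hc2 b
    simp only [hc]
    linarith
  have hcq : ∀ (b : Place k K) a, gs b (q a) ≤ WithZero.exp (c b) := by
    intro b a
    apply WithZero.le_exp_of_log_le
    have h1 : max 0 (WithZero.log (gs b (q a))) ≤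
        ∑ a : Fin (ν + 1) × Fin (ν + 1), max 0 (WithZero.log (gs b (q a))) :=
      Finset.single_le_sum (f := fun a => max 0 (WithZero.log (gs b (q a))))
        (fun i _ => le_max_left _ _) (Finset.mem_univ a)
    have h2 := le_max_right 0 (WithZero.log (gs b (q a)))
    have h3 := hc1 b
    simp only [hc]
    linarith
  refine ⟨c, ?_, fun b => add_nonneg (hc1 b) (hc2 b), fun b y hy => ?_⟩
  · have h1 : ((⋃ i : Fin (ν + 1), Function.support fun b : Place k K =>
        max 0 (WithZero.log (gs b (F i)))) ∪ (⋃ a : Fin (ν + 1) × Fin (ν + 1),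
        Function.support fun b : Place k K => max 0 (WithZero.log (gs b (q a))))).Finite :=
      (Set.finite_iUnion fun i => hsup _).union (Set.finite_iUnion fun a => hsup _)
    refine h1.subset fun b hb => ?_
    rw [Function.mem_support] at hb
    by_contra hcon
    apply hb
    simp only [Set.mem_union, Set.mem_iUnion, Function.mem_support, not_or, not_exists,
      not_not] at hcon
    simp only [hc]
    rw [Finset.sum_eq_zero fun i _ => hcon.1 i, Finset.sum_eq_zero fun a _ => hcon.2 a, add_zero]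
  · have hn0 := nrm_ne_zero (b := b) hy
    have hs0 := nrm_ne_zero (b := b) (step_ne_zeroK hF hy)
    have he0 : WithZero.exp (c b) ≠ 0 := WithZero.exp_ne_zero
    rw [abs_le]
    constructor
    · -- the lower bound
      obtain ⟨i, hi⟩ := exists_val_eq_nrm b y
      have h1 : b.val (y i ^ (M + d)) ≤
          WithZero.exp (c b) * nrm b y ^ M * nrm b (step F y) := by
        have h2 := congrArg (eval y) (h i)
        rw [map_pow, eval_X, map_sum] at h2
        rw [← h2]
        refine b.val.map_sum_le fun j _ => ?_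
        rw [map_mul, map_mul]
        refine mul_le_mul' ((low_val_eval_le b (hq _) y).trans (mul_le_mul' (hcq b _) le_rfl)) ?_
        have h3 : eval y (F j) = step F y j := by
          rw [← coe_aeval_eq_eval]
          rfl
        rw [h3]
        exact val_le_nrm b (step F y) j
      rw [map_pow, hi, ← WithZero.log_le_log (pow_ne_zero _ hn0)
        (mul_ne_zero (mul_ne_zero he0 (pow_ne_zero _ hn0)) hs0),
        WithZero.log_mul (mul_ne_zero he0 (pow_ne_zero _ hn0)) hs0,
        WithZero.log_mul he0 (pow_ne_zero _ hn0), WithZero.log_exp, WithZero.log_pow,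
        WithZero.log_pow, nsmul_eq_mul, nsmul_eq_mul] at h1
      push_cast at h1
      linarith
    · -- the upper bound
      have h1 : nrm b (step F y) ≤ WithZero.exp (c b) * nrm b y ^ d := by
        refine nrm_le fun i => ?_
        have h3 : eval y (F i) = step F y i := by
          rw [← coe_aeval_eq_eval]
          rfl
        rw [← h3]
        exact (low_val_eval_le b (hhom i) y).trans (mul_le_mul' (hcF b i) le_rfl)
      rw [← WithZero.log_le_log hs0 (mul_ne_zero he0 (pow_ne_zero _ hn0)),
        WithZero.log_mul he0 (pow_ne_zero _ hn0), WithZero.log_exp, WithZero.log_pow,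
        nsmul_eq_mul] at h1
      linarith

theorem growth (hK : IsFunctionField k K) {d : ℕ} {F : Fin (ν + 1) → MvPolynomial (Fin (ν + 1)) K}
    (hF : IsEndo d fun i => map (algebraMap K ℂ) (F i)) :
    ∃ C : ℤ, 0 ≤ C ∧ ∀ y : Fin (ν + 1) → K, y ≠ 0 → |ht k (step F y) - d * ht k y| ≤ C := by
  obtain ⟨c, hcs, hc0, hc⟩ := growth_loc hK hF
  refine ⟨∑ᶠ b : Place k K, c b, finsum_nonneg hc0, fun y hy => ?_⟩
  have h1 := nrm_support hK y hy
  have h2 := nrm_support hK _ (step_ne_zeroK hF hy)
  have h3 : (Function.support fun b : Place k K => (d : ℤ) * WithZero.log (nrm b y)).Finite := by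
    refine h1.subset fun b hb => ?_
    rw [Function.mem_support] at hb ⊢
    exact right_ne_zero_of_mul hb
  unfold ht
  rw [mul_finsum, abs_le]
  constructor
  · have h4 : ∑ᶠ b : Place k K, (d : ℤ) * WithZero.log (nrm b y) ≤
        ∑ᶠ b : Place k K, (WithZero.log (nrm b (step F y)) + c b) := by
      refine finsum_le_finsum' h3 ((h2.union hcs).subset (Function.support_add _ _)) fun b => ?_
      have := (abs_le.1 (hc b y hy)).1
      linarith
    rw [finsum_add_distrib h2 hcs] at h4
    linarith
  · have h4 : ∑ᶠ b : Place k K, WithZero.log (nrm b (step F y)) ≤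
        ∑ᶠ b : Place k K, ((d : ℤ) * WithZero.log (nrm b y) + c b) := by
      refine finsum_le_finsum' h2 ((h3.union hcs).subset (Function.support_add _ _)) fun b => ?_
      have := (abs_le.1 (hc b y hy)).2
      linarith
    rw [finsum_add_distrib h3 hcs] at h4
    linarith

theorem growth_pow (c m : ℕ) : ∀ n, m + 2 * (c * (m + 4) + 1) ≤ n →
    c * (n + 1) < 2 ^ (n - m) := by
  intro n hn
  obtain ⟨j, rfl⟩ := Nat.exists_eq_add_of_le (show m ≤ n by omega)
  have h1 : m + j - m = j := by omega
  rw [h1]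
  set s := j / 2 with hs
  have hs1 : c * (m + 4) + 1 ≤ s := by omega
  have h2 : s + 1 ≤ 2 ^ s := Nat.lt_two_pow_self
  have h3 : (2 : ℕ) ^ (2 * s) ≤ 2 ^ j := Nat.pow_le_pow_right (by norm_num) (by omega)
  have h4 : (s + 1) * (s + 1) ≤ 2 ^ (2 * s) := by
    rw [two_mul, pow_add]
    exact Nat.mul_le_mul h2 h2
  have h5 : m + j + 1 ≤ (m + 4) * (s + 1) := by
    have : j ≤ 2 * s + 1 := by omega
    nlinarith
  calc c * (m + j + 1) ≤ c * ((m + 4) * (s + 1)) := Nat.mul_le_mul le_rfl h5
    _ = (c * (m + 4)) * (s + 1) := by ring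
    _ < (s + 1) * (s + 1) := Nat.mul_lt_mul_of_pos_right (by omega) (by omega)
    _ ≤ 2 ^ j := h4.trans h3

/-- Exponential growth. -/
theorem ht_growth (hK : IsFunctionField k K) {d : ℕ} {F : Fin (ν + 1) → MvPolynomial (Fin (ν + 1)) K}
    (hF : IsEndo d fun i => map (algebraMap K ℂ) (F i)) {x : Fin (ν + 1) → K} (hx : x ≠ 0)
    (hunb : ∀ B : ℤ, ∃ n, B < ht k (iter F x n)) (C : ℤ) :
    ∃ n₁ : ℕ, ∀ n, n₁ ≤ n → C * (n + 1) < ht k (iter F x n) := by
  obtain ⟨C₀, hC₀, hC⟩ := growth hK hF
  obtain ⟨m, hm⟩ := hunb C₀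
  have hd : (2 : ℤ) ≤ d := by exact_mod_cast hF.two_le
  have key : ∀ j : ℕ, (2 : ℤ) ^ j + C₀ ≤ ht k (iter F x (m + j)) := by
    intro j
    induction j with
    | zero => simp; omega
    | succ j ih =>
      have h1 := (abs_le.1 (hC _ (iter_ne_zeroK hF hx (m + j)))).1
      rw [← iter_succ] at h1
      have h2 : (0 : ℤ) ≤ 2 ^ j := by positivity
      have h3 : 0 ≤ ht k (iter F x (m + j)) := by linarith
      have h4 : 2 * ht k (iter F x (m + j)) ≤ d * ht k (iter F x (m + j)) :=
        mul_le_mul_of_nonneg_right hd h3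
      rw [show m + (j + 1) = m + j + 1 by omega, pow_succ]
      linarith
  refine ⟨m + 2 * (C.toNat * (m + 4) + 1), fun n hn => ?_⟩
  have h1 := growth_pow C.toNat m n hn
  have h2 := key (n - m)
  rw [show m + (n - m) = n by omega] at h2
  have h3 : ((C.toNat * (n + 1) : ℕ) : ℤ) < ((2 ^ (n - m) : ℕ) : ℤ) := by exact_mod_cast h1
  push_cast at h3
  have h4 : C ≤ (C.toNat : ℤ) := Int.self_le_toNat C
  have h5 : C * ((n : ℤ) + 1) ≤ (C.toNat : ℤ) * ((n : ℤ) + 1) :=
    mul_le_mul_of_nonneg_right h4 (by positivity)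
  linarith

/-- The points of the orbit are distinct. -/
theorem distinct_of_unbounded (hK : IsFunctionField k K) {d : ℕ}
    {F : Fin (ν + 1) → MvPolynomial (Fin (ν + 1)) K}
    (hF : IsEndo d fun i => map (algebraMap K ℂ) (F i)) {x : Fin (ν + 1) → K} (hx : x ≠ 0)
    (hunb : ∀ B : ℤ, ∃ n, B < ht k (iter F x n)) (n n' : ℕ) (h : n ≠ n') :
    ¬ PEq (iter F x n) (iter F x n') := by
  have key : ∀ n p : ℕ, 0 < p → ¬ PEq (iter F x n) (iter F x (n + p)) := by
    intro n p hp hP
    have hhom := fun i => homog_of_endo hF i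
    -- the heights along the progression
    have h1 : ∀ j, ht k (iter F x (n + j + p)) = ht k (iter F x (n + j)) := by
      intro j
      have h2 : PEq (iter F (iter F x n) j) (iter F (iter F x (n + p)) j) :=
        Pool.Agent.Helper36.PEq.iter hhom hP j
      obtain ⟨c, hc, h3⟩ := h2
      rw [← iter_add, ← iter_add] at h3
      rw [show n + j + p = j + (n + p) by omega, h3, show j + n = n + j by omega]
      exact ht_smul hK hc (iter_ne_zeroK hF hx _)
    have h2 : ∀ t : ℕ, ht k (iter F x (n + t * p)) = ht k (iter F x n) := by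
      intro t
      induction t with
      | zero => simp
      | succ t ih =>
        rw [show n + (t + 1) * p = n + t * p + p by ring, h1, ih]
    obtain ⟨n₁, hn₁⟩ := ht_growth hK hF hx hunb (ht k (iter F x n) + 1)
    have h3 : n₁ ≤ n + n₁ * p := by
      have : n₁ * 1 ≤ n₁ * p := Nat.mul_le_mul le_rfl hp
      omega
    have h4 := hn₁ _ h3
    rw [h2] at h4
    have h5 := low_ht_nonneg hK (iter_ne_zeroK hF hx n)
    have h6 : (0 : ℤ) ≤ ((n + n₁ * p : ℕ) : ℤ) := by positivity
    nlinarith
  rcases Nat.lt_or_gt_of_ne h with h1 | h1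
  · obtain ⟨p, rfl⟩ := Nat.exists_eq_add_of_le h1.le
    exact key n p (by omega)
  · obtain ⟨p, rfl⟩ := Nat.exists_eq_add_of_le h1.le
    intro h2
    obtain ⟨c, hc, h3⟩ := h2
    apply key n' p (by omega)
    refine ⟨c⁻¹, inv_ne_zero hc, ?_⟩
    rw [h3, smul_smul, inv_mul_cancel₀ hc, one_smul]

end Pool.Agent.Helper30.TKN

end
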