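import Pool.Agent.Helper29.MF.T06
import Pool.Agent.Helper29.MF.T16
import Pool.Agent.Helper29.MF.T17
import Pool.Agent.Helper29.MF.T15
import Pool.Agent.Helper29.MF.T11
import Pool.Agent.Helper29.MF.T05
import Pool.Agent.Helper29.MF.T19

section

namespace Pool.Agent.Helper16
end Pool.Agent.Helper16

/-!
# A plane model near a place
-/

set_option autoImplicit false

namespace Pool.Agent.Helper38.TPN

open Polynomial IntermediateField
open Pool.Agent.Helper16 (Place IsFunctionField algX algXF algXF_apply isFractionRing_algXF)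

variable {k K : Type} [Field k] [Field K] [Algebra k K]

/-- The data of a plane model adapted to a place. -/
structure Model {k : Type} [Field k] {ι : Type} (Q : k[X][X]) (a q r e : k[X])
    (P : ι → k[X][X]) (u : ι → k[X]) (ρ m N : ℕ) : Prop where
  le₁ : 2 * ρ + 1 ≤ N
  le₂ : ρ + m + 1 ≤ N
  evQ : Q.eval a = X ^ N * r
  evD : (derivative Q).eval a = X ^ ρ * e
  e0 : e.coeff 0 ≠ 0
  q0 : q.coeff 0 ≠ 0
  evP : ∀ i, (P i).eval a = X ^ (m + 1) * u i

end Pool.Agent.Helper38.TPN

end

section

namespace Pool.Agent.Helper16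
end Pool.Agent.Helper16
namespace Pool.Agent.Helper36
end Pool.Agent.Helper36

/-!
# Points of a curve without common reductions
-/

set_option autoImplicit false

namespace Pool.Agent.Helper38.TQ

open MvPolynomial
open Pool.Agent.Helper16 (Place IsFunctionField)
open Pool.Agent.Helper36 (step iter iter_zero iter_succ iter_succ' iter_add iter_map)

variable {ν : ℕ}

section

variable {k K : Type} [Field k] [IsAlgClosed k] [Field K] [Algebra k K]

theorem ht_iter_large (hK : IsFunctionField k K) {d : ℕ}
    {F : Fin (ν + 1) → MvPolynomial (Fin (ν + 1)) k} (hF : IsEndo d F) {x : Fin (ν + 1) → K}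
    (hx : x ≠ 0) (hxc : ¬ IsConst k x) (n : ℕ) : (n : ℤ) < ht k (iter F x n) := by
  rw [ht_iter hK hF x hx]
  have h1 := one_le_ht hK x hx hxc
  have h2 : (n : ℤ) < d ^ n := by
    have h3 : n < 2 ^ n := Nat.lt_two_pow_self
    have h4 : 2 ^ n ≤ d ^ n := Nat.pow_le_pow_left hF.two_le n
    exact_mod_cast h3.trans_le h4
  have h3 : (d : ℤ) ^ n ≤ d ^ n * ht k x := le_mul_of_one_le_right (by positivity) h1
  omega

end

end Pool.Agent.Helper38.TQ

end

section

namespace Pool.Agent.Helper16
end Pool.Agent.Helper16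
namespace Pool.Agent.Helper30.TP
end Pool.Agent.Helper30.TP

/-!
# Function fields generated by complex points
-/

set_option autoImplicit false

namespace Pool.Agent.Helper38.TQ

open MvPolynomial
open Pool.Agent.Helper16 (Place IsFunctionField)
open Pool.Agent.Helper30.TP (emb_mem_range emb_isAlgebraic emb_trdeg_le)

variable {ν : ℕ}

theorem emb_alg_map {R S L : Type} [CommRing R] [CommRing S] [Field L] [Algebra R L] [Algebra S L]
    (f : R →+* S) (hf : Function.Injective f) (hfc : ∀ r, algebraMap S L (f r) = algebraMap R L r)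
    {x : L} (h : IsAlgebraic R x) : IsAlgebraic S x := by
  obtain ⟨p, hp0, hp⟩ := h
  refine ⟨p.map f, (Polynomial.map_ne_zero_iff hf).2 hp0, ?_⟩
  rw [Polynomial.aeval_def, Polynomial.eval₂_map]
  have h1 : (algebraMap S L).comp f = algebraMap R L := RingHom.ext hfc
  rw [h1, ← Polynomial.aeval_def, hp]

theorem emb_const_of_range {k : Type} [Field k] [Algebra k ℂ] {v : Fin (ν + 1) → ℂ}
    (h : ∀ j, ∃ c : k, algebraMap k ℂ c = v j) : IsConst k v := by
  choose z hz using h
  refine ⟨z, 1, one_ne_zero, ?_⟩
  funext i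
  rw [hz, one_mul]

theorem emb_range_of_const {k : Type} [Field k] [Algebra k ℂ] {v : Fin (ν + 1) → ℂ}
    {i₀ : Fin (ν + 1)} (hv : v i₀ = 1) (h : IsConst k v) (j : Fin (ν + 1)) :
    ∃ c : k, algebraMap k ℂ c = v j := by
  obtain ⟨z, c, hc, hx⟩ := h
  have h1 : c * algebraMap k ℂ (z i₀) = 1 := by rw [← hv, hx]
  have h2 : c = (algebraMap k ℂ (z i₀))⁻¹ := eq_inv_of_mul_eq_one_left h1
  refine ⟨(z i₀)⁻¹ * z j, ?_⟩
  rw [map_mul, map_inv₀, ← h2, hx]

open IntermediateField.algebraAdjoinAdjoin in
theorem emb_transc_adjoin {k : Type} [Field k] [Algebra k ℂ] {T : Set ℂ}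
    (hT : AlgebraicIndependent k ((↑) : T → ℂ)) {t : ℂ} (ht : t ∈ T) :
    Transcendental (IntermediateField.adjoin k (T \ {t})) t := by
  have h1 : Transcendental (Algebra.adjoin k (((↑) : T → ℂ) '' {y | y ≠ ⟨t, ht⟩})) t := by
    have := hT.transcendental_adjoin (s := {y | y ≠ ⟨t, ht⟩}) (i := ⟨t, ht⟩) (fun h => h rfl)
    exact this
  have h2 : ((↑) : T → ℂ) '' {y | y ≠ ⟨t, ht⟩} = T \ {t} := by
    ext y
    constructor
    · rintro ⟨z, hz, rfl⟩
      refine ⟨z.2, fun h => hz (Subtype.ext h)⟩
    · rintro ⟨h3, h4⟩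
      exact ⟨⟨y, h3⟩, fun h => h4 (congrArg Subtype.val h), rfl⟩
  rw [h2] at h1
  intro h
  apply h1
  exact (IsFractionRing.isAlgebraic_iff (Algebra.adjoin k (T \ {t}))
    (IntermediateField.adjoin k (T \ {t})) ℂ).2 h

/-- A maximal algebraically independent family of coordinates. -/
theorem emb_basis {k : Type} [Field k] [Algebra k ℂ] (s : Set ℂ) :
    ∃ T : Set ℂ, T ⊆ s ∧ AlgebraicIndependent k ((↑) : T → ℂ) ∧
      ∀ x ∈ s, IsAlgebraic (Algebra.adjoin k T) x := by
  obtain ⟨T, -, hT⟩ := exists_maximal_algebraicIndependent (R := k) (A := ℂ) ∅ s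
    (Set.empty_subset _)
    ((algebraicIndependent_empty_iff ..).mpr <| FaithfulSMul.algebraMap_injective k ℂ)
  refine ⟨T, hT.1.2, hT.1.1, ?_⟩
  intro x hx
  by_contra hno
  have h1 : AlgebraicIndepOn k id (insert x T) := by
    apply hT.1.1.insert
    rw [Set.image_id]
    exact hno
  have h2 : insert x T ⊆ T := hT.2 ⟨h1, Set.insert_subset hx hT.1.2⟩ (Set.subset_insert _ _)
  apply hno
  exact isAlgebraic_algebraMap (⟨x, Algebra.subset_adjoin (h2 (Set.mem_insert _ _))⟩ :
    Algebra.adjoin k T)

/-- Over a suitable algebraically closed extension of `k` the coordinates of the point generate a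
function field of one variable. -/
theorem exists_function_field {k : Type} [Field k] [IsAlgClosed k] [Algebra k ℂ]
    (v : Fin (ν + 1) → ℂ) (i₀ : Fin (ν + 1)) (hv : v i₀ = 1) (hvc : ¬ IsConst k v) :
    ∃ (k' : Type) (_ : Field k') (_ : IsAlgClosed k') (_ : Algebra k k') (_ : Algebra k' ℂ),
      IsScalarTower k k' ℂ ∧ ¬ IsConst k' v ∧
        IsFunctionField k' (IntermediateField.adjoin k' (Set.range v)) := by
  obtain ⟨T, hTs, hTi, hTa⟩ := emb_basis (k := k) (Set.range v)
  have hne : T.Nonempty := by
    by_contra hempty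
    rw [Set.not_nonempty_iff_eq_empty] at hempty
    apply hvc
    apply emb_const_of_range
    intro j
    apply emb_mem_range
    have h1 := hTa (v j) ⟨j, rfl⟩
    rw [hempty, Algebra.adjoin_empty] at h1
    exact h1.restrictScalars k
  obtain ⟨t, ht⟩ := hne
  obtain ⟨j₁, hj₁⟩ := hTs ht
  let K0 := IntermediateField.adjoin k (T \ {t})
  let K' := algebraicClosure K0 ℂ
  have : IsAlgClosed K' := IsAlgClosure.isAlgClosed K0
  have htow : IsScalarTower k K' ℂ := IsScalarTower.of_algebraMap_eq (fun _ => rfl)
  have htr : Transcendental K' t := by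
    intro h
    exact emb_transc_adjoin hTi ht (h.restrictScalars K0)
  refine ⟨K', inferInstance, inferInstance, inferInstance, inferInstance, htow, ?_, ?_, ?_⟩
  · intro h
    obtain ⟨c, hc⟩ := emb_range_of_const hv h j₁
    apply htr
    rw [← hj₁, ← hc]
    exact isAlgebraic_algebraMap c
  · exact IntermediateField.essFiniteType_iff.2
      (IntermediateField.fg_adjoin_of_finite (Set.finite_range v))
  · apply le_antisymm
    · let A1 := IntermediateField.adjoin K' ({t} : Set ℂ)
      let A2 := algebraicClosure A1 ℂ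
      have htow2 : IsScalarTower K' A1 A2 := IsScalarTower.of_algebraMap_eq (fun _ => rfl)
      have htr2 : Algebra.trdeg K' A2 ≤ 1 := by
        rw [← trdeg_add_eq K' A1 (A := A2), trdeg_eq_zero (R := A1) (A := A2), add_zero]
        have h1 := emb_trdeg_le (k := K') ({t} : Set ℂ)
        rwa [Cardinal.mk_singleton] at h1
      have hsub : ∀ x ∈ Algebra.adjoin k T, x ∈ A1 := by
        intro x hx
        induction hx using Algebra.adjoin_induction with
        | mem x hx =>
          by_cases hxt : x = t
          · rw [hxt]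
            exact IntermediateField.subset_adjoin _ _ rfl
          · have h2 : x ∈ K0 := IntermediateField.subset_adjoin _ _ ⟨hx, hxt⟩
            have h3 : x ∈ K' := mem_algebraicClosure_iff.2
              (isAlgebraic_algebraMap (⟨x, h2⟩ : K0))
            exact A1.algebraMap_mem ⟨x, h3⟩
        | algebraMap r => exact A1.algebraMap_mem (algebraMap k K' r)
        | add x y _ _ hx hy => exact add_mem hx hy
        | mul x y _ _ hx hy => exact mul_mem hx hy
      have hle : IntermediateField.adjoin K' (Set.range v) ≤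
          IntermediateField.restrictScalars K' A2 := by
        rw [IntermediateField.adjoin_le_iff]
        rintro _ ⟨j, rfl⟩
        have h2 : v j ∈ A2 := by
          rw [mem_algebraicClosure_iff]
          let f : Algebra.adjoin k T →+* A1 :=
            { toFun := fun r => ⟨r, hsub r r.2⟩
              map_one' := rfl
              map_mul' := fun _ _ => rfl
              map_zero' := rfl
              map_add' := fun _ _ => rfl }
          exact emb_alg_map f (fun a b hab => Subtype.ext (congrArg (Subtype.val : A1 → ℂ) hab))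
            (fun _ => rfl) (hTa (v j) ⟨j, rfl⟩)
        exact h2
      exact (trdeg_le_of_injective (IntermediateField.inclusion hle)
        (IntermediateField.inclusion_injective hle)).trans htr2
    · rw [Cardinal.one_le_iff_ne_zero, trdeg_ne_zero_iff]
      refine ⟨⟨t, IntermediateField.subset_adjoin _ _ ⟨j₁, hj₁⟩⟩, fun h => htr ?_⟩
      exact h.algHom (IntermediateField.adjoin K' (Set.range v)).val

end Pool.Agent.Helper38.TQ

end

section

namespace Pool.Agent.Helper16
end Pool.Agent.Helper16
namespace Pool.Agent.Helper36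
end Pool.Agent.Helper36

/-!
# Preperiodic complex points are defined over the field of definition of the map
-/

set_option autoImplicit false

namespace Pool.Agent.Helper38.TQ

open MvPolynomial
open Pool.Agent.Helper16 (Place IsFunctionField)
open Pool.Agent.Helper36 (step iter iter_zero iter_succ iter_succ' iter_add iter_map)

variable {ν : ℕ}

/-- Base change of an endomorphism. -/
theorem IsEndo.map {k k' : Type} [Field k] [IsAlgClosed k] [Field k'] [Algebra k k'] {d : ℕ}
    {F : Fin (ν + 1) → MvPolynomial (Fin (ν + 1)) k} (hF : IsEndo d F) :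
    IsEndo d (fun i => MvPolynomial.map (algebraMap k k') (F i)) := by
  refine ⟨hF.two_le, fun i => (hF.hom i).map _, fun w hw => ?_⟩
  by_contra hne
  apply step_ne_zero hF (L := k') hne
  funext i
  have h1 := hw i
  rw [eval_map] at h1
  exact h1

theorem iter_map_base {k k' L : Type} [Field k] [Field k'] [Field L] [Algebra k k'] [Algebra k L]
    [Algebra k' L] [IsScalarTower k k' L] (F : Fin (ν + 1) → MvPolynomial (Fin (ν + 1)) k)
    (x : Fin (ν + 1) → L) (n : ℕ) :
    iter (fun i => MvPolynomial.map (algebraMap k k') (F i)) x n = iter F x n := by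
  induction n with
  | zero => rfl
  | succ n ih =>
    rw [iter_succ, iter_succ, ih]
    funext i
    exact MvPolynomial.aeval_map_algebraMap k' (iter F x n) (F i)

theorem isConst_smul {k L : Type} [Field k] [Field L] [Algebra k L] {x : Fin (ν + 1) → L}
    {c : L} (hc : c ≠ 0) : IsConst k (c • x) ↔ IsConst k x := by
  constructor
  · rintro ⟨z, s, hs, h⟩
    refine ⟨z, c⁻¹ * s, mul_ne_zero (inv_ne_zero hc) hs, ?_⟩
    funext i
    have h1 := congrFun h i
    rw [Pi.smul_apply, smul_eq_mul] at h1
    rw [mul_assoc, ← h1, ← mul_assoc, inv_mul_cancel₀ hc, one_mul]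
  · rintro ⟨z, s, hs, h⟩
    refine ⟨z, c * s, mul_ne_zero hc hs, ?_⟩
    funext i
    rw [Pi.smul_apply, smul_eq_mul, h, mul_assoc]

end Pool.Agent.Helper38.TQ

end

section

namespace Pool.Agent.Helper16
end Pool.Agent.Helper16
namespace Pool.Agent.Helper36
end Pool.Agent.Helper36

/-!
# Complex points and curves in projective space
-/

set_option autoImplicit false

namespace Pool.Agent.Helper38.TQ

open MvPolynomial
open Pool.Agent.Helper16 (Place IsFunctionField)
open Pool.Agent.Helper36 (step iter iter_zero iter_succ iter_succ' iter_add iter_map)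

variable {ν : ℕ}

/-- The orbit of a point with coordinates in a subfield `K`, over `ℂ`. -/
theorem orbit_eq {k k' : Type} [Field k] [Field k'] [Algebra k k'] [Algebra k ℂ]
    [Algebra k' ℂ] [IsScalarTower k k' ℂ] {K : Type} [Field K] [Algebra k' K] [Algebra K ℂ]
    [IsScalarTower k' K ℂ] {d : ℕ}
    {F : Fin (ν + 1) → MvPolynomial (Fin (ν + 1)) k} (hF : IsEndo d F) (y : Fin (ν + 1) → K)
    (c : ℂ) (n : ℕ) :
    iter F (fun i => c * algebraMap K ℂ (y i)) n =
      c ^ d ^ n • fun i => algebraMap K ℂ
        (iter (fun i => MvPolynomial.map (algebraMap k k') (F i)) y n i) := by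
  have h2 : (fun i => c * algebraMap K ℂ (y i)) = c • fun i => algebraMap K ℂ (y i) := rfl
  rw [h2, iter_smul hF]
  congr 1
  have h1 := iter_map (fun i => MvPolynomial.map (algebraMap k k') (F i))
    (IsScalarTower.toAlgHom k' K ℂ) y n
  rw [iter_map_base] at h1
  exact h1

end Pool.Agent.Helper38.TQ

end

section

namespace Pool.Agent.Helper16
end Pool.Agent.Helper16
namespace Pool.Agent.Helper30.TKN
end Pool.Agent.Helper30.TKN
namespace Pool.Agent.Helper36
end Pool.Agent.Helper36
namespace Pool.Agent.Helper38.TQ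
end Pool.Agent.Helper38.TQ

/-!
# Orbits of bounded height over a function field: reduction to specialisations
-/

set_option autoImplicit false

namespace Pool.Agent.Helper30.RED

open MvPolynomial
open Pool.Agent.Helper16 (Place IsFunctionField)
open Pool.Agent.Helper36 (step iter iter_zero iter_succ iter_succ' iter_add iter_map)
open Pool.Agent.Helper38.TQ
open Pool.Agent.Helper30.TKN

variable {ν : ℕ} {k K : Type} [Field k] [IsAlgClosed k] [Field K] [Algebra k K]

/-- A function field has infinitely many places. -/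
theorem infinite_places (hK : IsFunctionField k K) : Infinite (Place k K) := by
  obtain ⟨t, ht⟩ : ∃ t : K, Transcendental k t := by
    have h1 : Algebra.trdeg k K ≠ 0 := by rw [hK.2]; exact one_ne_zero
    rw [trdeg_ne_zero_iff] at h1
    exact h1.transcendental
  have h1 : ∀ c : k, ∃ b : Place k K, b.val (t - algebraMap k K c) < 1 := by
    intro c
    have h2 : Transcendental k (t - algebraMap k K c) := by
      intro h
      apply ht
      have h3 := h.add (isAlgebraic_algebraMap (R := k) (A := K) c)
      rwa [sub_add_cancel] at h3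
    obtain ⟨S, hS, hsum, hpos⟩ := hK.zeros _ h2
    have hne : S.Nonempty := by
      rw [Finset.nonempty_iff_ne_empty]
      rintro rfl
      rw [Finset.sum_empty] at hsum
      omega
    obtain ⟨b, hb⟩ := hne
    exact ⟨b, (hS b).1 hb⟩
  choose b hb using h1
  have hinj : Function.Injective b := by
    intro c c' hcc
    by_contra hne
    have h3 := hb c'
    rw [← hcc] at h3
    have h4 : (b c).val (algebraMap k K (c' - c)) < 1 := by
      have h5 : algebraMap k K (c' - c) = (t - algebraMap k K c) - (t - algebraMap k K c') := by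
        rw [map_sub]; ring
      rw [h5]
      exact ((b c).val.map_sub _ _).trans_lt (max_lt (hb c) h3)
    rw [(b c).triv _ (sub_ne_zero.2 (Ne.symm hne))] at h4
    exact lt_irrefl _ h4
  haveI : Infinite k := IsAlgClosed.instInfinite
  exact Infinite.of_injective b hinj

/-- A nonzero value of a form vanishes at few places. -/
theorem card_zeros_le (hK : IsFunctionField k K) {g : MvPolynomial (Fin (ν + 1)) K} {e : ℕ}
    (hg : g.IsHomogeneous e) (hg0 : g ≠ 0) {y : Fin (ν + 1) → K} (hy0 : y ≠ 0)
    (hy : eval y g ≠ 0) (T : Finset (Place k K))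
    (hT : ∀ b ∈ T, b.val (eval y g) < nrm b y ^ e ∧ WithZero.log (gs b g) = 0) :
    (T.card : ℤ) ≤ e * ht k y + ∑ᶠ b : Place k K, WithZero.log (gs b g) := by
  classical
  have h1 := nrm_support hK y hy0
  obtain ⟨h2, h3⟩ := finsum_log hK _ hy
  have h5 := formHeight_support hK hg0
  have h4 : (Function.support fun b : Place k K =>
      (e : ℤ) * WithZero.log (nrm b y)).Finite := by
    refine h1.subset ?_
    intro b hb h
    apply hb
    have h' : WithZero.log (nrm b y) = 0 := h
    show (e : ℤ) * WithZero.log (nrm b y) = 0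
    rw [h', mul_zero]
  have h6 : (Function.support fun b : Place k K =>
      (e : ℤ) * WithZero.log (nrm b y) + WithZero.log (gs b g)).Finite :=
    (h4.union h5).subset (Function.support_add _ _)
  have h7 : (Function.support fun b : Place k K =>
      (e : ℤ) * WithZero.log (nrm b y) + WithZero.log (gs b g) -
        WithZero.log (b.val (eval y g))).Finite :=
    (h6.union h2).subset (Function.support_sub _ _)
  have hsum : ∑ᶠ b : Place k K, ((e : ℤ) * WithZero.log (nrm b y) + WithZero.log (gs b g) -
      WithZero.log (b.val (eval y g))) = e * ht k y +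
        ∑ᶠ b : Place k K, WithZero.log (gs b g) := by
    unfold ht
    rw [finsum_sub_distrib h6 h2, h3, sub_zero, finsum_add_distrib h4 h5, mul_finsum]
  have hnn : ∀ b : Place k K, 0 ≤ (e : ℤ) * WithZero.log (nrm b y) + WithZero.log (gs b g) -
      WithZero.log (b.val (eval y g)) := by
    intro b
    have h0 : b.val (eval y g) ≠ 0 := (map_ne_zero b.val).2 hy
    have h1 := low_val_eval_le b hg y
    have h3 : gs b g * nrm b y ^ e ≠ 0 := by
      intro h
      rw [h, le_zero_iff] at h1
      exact h0 h1
    have h2 := (WithZero.log_le_log h0 h3).2 h1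
    rw [WithZero.log_mul (left_ne_zero_of_mul h3) (right_ne_zero_of_mul h3), WithZero.log_pow,
      nsmul_eq_mul] at h2
    linarith
  have hone : ∀ b ∈ T, 1 ≤ (e : ℤ) * WithZero.log (nrm b y) + WithZero.log (gs b g) -
      WithZero.log (b.val (eval y g)) := by
    intro b hb
    obtain ⟨hb1, hb2⟩ := hT b hb
    have h0 : b.val (eval y g) ≠ 0 := (map_ne_zero b.val).2 hy
    have hn : nrm b y ≠ 0 := nrm_ne_zero hy0
    have h3 := (WithZero.log_lt_log h0 (pow_ne_zero e hn)).2 hb1
    rw [WithZero.log_pow, nsmul_eq_mul] at h3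
    rw [hb2]
    omega
  rw [← hsum, finsum_eq_sum_of_support_subset (s := h7.toFinset ∪ T) _ (by
    rw [Finset.coe_union, Set.Finite.coe_toFinset]
    exact Set.subset_union_left)]
  calc (T.card : ℤ) = ∑ b ∈ T, (1 : ℤ) := by simp
    _ ≤ ∑ b ∈ T, ((e : ℤ) * WithZero.log (nrm b y) + WithZero.log (gs b g) -
          WithZero.log (b.val (eval y g))) := Finset.sum_le_sum hone
    _ ≤ _ := Finset.sum_le_sum_of_subset_of_nonneg Finset.subset_union_right
        fun b _ _ => hnn b

/-- The reduction of the value vanishes exactly if the value is small. -/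
theorem red_eval_iff {b : Place k K} {g : MvPolynomial (Fin (ν + 1)) K} {e : ℕ}
    (hg : g.IsHomogeneous e) {γ : MvPolynomial (Fin (ν + 1)) k} (hγ : RedP b g γ)
    {y : Fin (ν + 1) → K} {w : Fin (ν + 1) → k} (hy : Red b y w) :
    eval w γ = 0 ↔ b.val (eval y g) < nrm b y ^ e := by
  obtain ⟨hw, c, hc, h1⟩ := hy
  have hy0 : y ≠ 0 := by
    rintro rfl
    apply hw
    funext i
    by_contra h
    have h2 := h1 i
    rw [Pi.zero_apply, mul_zero, zero_sub, Valuation.map_neg, b.triv _ h] at h2
    exact lt_irrefl _ h2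
  have hn : nrm b (c • y) = 1 := nrm_red hw h1
  have h2 := hγ.eval (u := c • y) (z := w) h1
  rw [eval_smul_hom hg] at h2
  have hc' : b.val c ≠ 0 := (map_ne_zero b.val).2 hc
  have hn' : b.val c * nrm b y = 1 := by rw [← nrm_smul, hn]
  have hny : nrm b y = (b.val c)⁻¹ := eq_inv_of_mul_eq_one_right hn'
  have hiff : b.val (eval y g) < nrm b y ^ e ↔ b.val (c ^ e * eval y g) < 1 := by
    rw [hny, map_mul, map_pow, inv_pow, mul_comm, ← lt_mul_inv_iff₀ (zero_lt_iff.2
      (pow_ne_zero e hc')), one_mul]
  rw [hiff]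
  constructor
  · intro h
    rwa [h, map_zero, sub_zero] at h2
  · intro h
    by_contra hne
    have h3 : b.val (algebraMap k K (eval w γ)) < 1 := by
      have h4 : algebraMap k K (eval w γ) = c ^ e * eval y g -
          (c ^ e * eval y g - algebraMap k K (eval w γ)) := by ring
      rw [h4]
      exact (b.val.map_sub _ _).trans_lt (max_lt h h2)
    rw [b.triv _ hne] at h3
    exact lt_irrefl _ h3

/-- If the heights of the points of an orbit are bounded, then the return set to a hypersurface is
a finite intersection of return sets of specialisations. -/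
theorem exists_specialisations [Algebra K ℂ] (hK : IsFunctionField k K) {d : ℕ}
    {F : Fin (ν + 1) → MvPolynomial (Fin (ν + 1)) K}
    (hF : IsEndo d fun i => map (algebraMap K ℂ) (F i)) {x : Fin (ν + 1) → K} (hx : x ≠ 0)
    (B : ℤ) (hB : ∀ n, ht k (iter F x n) ≤ B) {g : MvPolynomial (Fin (ν + 1)) K} {e : ℕ}
    (hg : g.IsHomogeneous e) (hg0 : g ≠ 0) (A : Set (Place k K)) (hA : A.Finite) :
    ∃ (r : ℕ) (b : Fin r → Place k K) (f : Fin r → Fin (ν + 1) → MvPolynomial (Fin (ν + 1)) k)
      (z : Fin r → Fin (ν + 1) → k) (γ : Fin r → MvPolynomial (Fin (ν + 1)) k),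
      (∀ s, b s ∉ A ∧ GoodRed d (b s) F (f s) ∧ Red (b s) x (z s) ∧ RedP (b s) g (γ s) ∧
        (γ s).IsHomogeneous e) ∧
      ∀ n, eval (iter F x n) g = 0 ↔ ∀ s, eval (iter (f s) (z s) n) (γ s) = 0 := by
  classical
  have hhom : ∀ i, (F i).IsHomogeneous d := by
    intro i m hm
    refine hF.hom i ?_
    rw [coeff_map]
    simpa using hm
  haveI := infinite_places hK
  set H : ℤ := ∑ᶠ b : Place k K, WithZero.log (gs b g) with hH
  set bad : Set (Place k K) := A ∪ {b | ¬ Good d b F} ∪
    {b | WithZero.log (gs b g) ≠ 0} with hbad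
  have hbadfin : bad.Finite := (hA.union (good_finite hK hF)).union (formHeight_support hK hg0)
  have hinf : (badᶜ).Infinite := hbadfin.infinite_compl
  set r : ℕ := (e * B + H).toNat + 1 with hr
  obtain ⟨T, hT, hTc⟩ := hinf.exists_subset_card_eq r
  let ι := T.equivFin
  have hTr : T.card = r := hTc
  let b : Fin r → Place k K := fun s => ((T.equivFinOfCardEq hTr).symm s : Place k K)
  have hbT : ∀ s, b s ∈ T := fun s => ((T.equivFinOfCardEq hTr).symm s).2
  have hbinj : Function.Injective b := by
    intro s s' h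
    exact (T.equivFinOfCardEq hTr).symm.injective (Subtype.ext h)
  have hnb : ∀ s, b s ∉ bad := fun s => hT (hbT s)
  have hgood : ∀ s, Good d (b s) F := by
    intro s
    by_contra h
    exact hnb s (Or.inl (Or.inr h))
  have hlog : ∀ s, WithZero.log (gs (b s) g) = 0 := by
    intro s
    by_contra h
    exact hnb s (Or.inr h)
  have hint : ∀ s m, (b s).val (g.coeff m) ≤ 1 := by
    intro s m
    have h1 : 0 < gs (b s) g := formHeight_pos hg0
    have h3 : gs (b s) g ≤ 1 := by
      by_contra hcon
      rw [not_le] at hcon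
      have h4 := (WithZero.log_lt_log one_ne_zero h1.ne').2 hcon
      rw [WithZero.log_one, hlog s] at h4
      exact lt_irrefl _ h4
    exact (formHeight_le (b s) g m).trans h3
  choose f hf using hgood
  choose z hz using fun s => exists_red hK (b s) x hx
  choose γ hγ1 hγ2 using fun s => redP_exists hK (b s) hg (hint s)
  refine ⟨r, b, f, z, γ, fun s => ⟨fun h => hnb s (Or.inl (Or.inl h)), hf s, hz s, hγ1 s,
    hγ2 s⟩, fun n => ?_⟩
  have hred : ∀ s, Red (b s) (iter F x n) (iter (f s) (z s) n) := fun s =>
    (hf s).iter hhom (hz s) n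
  have hne : iter F x n ≠ 0 := by
    intro h0
    have hr0 : 0 < r := by omega
    obtain ⟨hw, c, hc, h1⟩ := hred ⟨0, hr0⟩
    apply hw
    funext i
    by_contra h
    have h2 := h1 i
    rw [h0, Pi.zero_apply, mul_zero, zero_sub, Valuation.map_neg, (b ⟨0, hr0⟩).triv _ h] at h2
    exact lt_irrefl _ h2
  constructor
  · intro h0 s
    rw [red_eval_iff hg (hγ1 s) (hred s), h0, map_zero]
    exact zero_lt_iff.2 (pow_ne_zero e (nrm_ne_zero hne))
  · intro hall
    by_contra h0
    have h1 := card_zeros_le hK hg hg0 hne h0 T (by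
      intro b' hb'
      obtain ⟨s, rfl⟩ : ∃ s, b s = b' := by
        refine ⟨T.equivFinOfCardEq hTr ⟨b', hb'⟩, ?_⟩
        change (((T.equivFinOfCardEq hTr).symm (T.equivFinOfCardEq hTr ⟨b', hb'⟩) : T) :
          Place k K) = b'
        rw [Equiv.symm_apply_apply]
      exact ⟨(red_eval_iff hg (hγ1 s) (hred s)).1 (hall s), hlog s⟩)
    rw [hTr, ← hH] at h1
    have h2 : (e : ℤ) * ht k (iter F x n) ≤ e * B :=
      mul_le_mul_of_nonneg_left (hB n) (Int.natCast_nonneg e)
    have h3 := Int.self_le_toNat (e * B + H)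
    have h4 : (r : ℤ) = ((e * B + H).toNat : ℤ) + 1 := by rw [hr]; push_cast; ring
    omega

end Pool.Agent.Helper30.RED

end

section

namespace Pool.Agent.Helper16
end Pool.Agent.Helper16
namespace Pool.Agent.Helper30.TKN
end Pool.Agent.Helper30.TKN
namespace Pool.Agent.Helper30.TP
end Pool.Agent.Helper30.TP
namespace Pool.Agent.Helper36
end Pool.Agent.Helper36
namespace Pool.Agent.Helper38.TQ
end Pool.Agent.Helper38.TQ

/-!
# Induction on the transcendence degree
-/

set_option autoImplicit false

namespace Pool.Agent.Helper30.RED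

open MvPolynomial
open Pool.Agent.Helper16 (Place IsFunctionField)
open Pool.Agent.Helper36 (step iter iter_zero iter_succ iter_succ' iter_add iter_map)
open Pool.Agent.Helper38.TQ
open Pool.Agent.Helper30.TKN
open Pool.Agent.Helper30.TP (emb_mem_range emb_trdeg_le)

variable {ν : ℕ}

/-! ### Fields -/

theorem alg_mono {F E : Type} [Field F] [Field E] [Algebra F ℂ] [Algebra E ℂ]
    (h : ∀ a : F, algebraMap F ℂ a ∈ Set.range (algebraMap E ℂ)) {c : ℂ}
    (hc : IsAlgebraic F c) : IsAlgebraic E c := by
  choose φ hφ using h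
  let ψ : F →+* E :=
    { toFun := φ
      map_zero' := (algebraMap E ℂ).injective (by rw [hφ, map_zero, map_zero])
      map_one' := (algebraMap E ℂ).injective (by rw [hφ, map_one, map_one])
      map_add' := fun a b => (algebraMap E ℂ).injective (by
        rw [hφ, map_add, map_add, hφ, hφ])
      map_mul' := fun a b => (algebraMap E ℂ).injective (by
        rw [hφ, map_mul, map_mul, hφ, hφ]) }
  obtain ⟨p, hp0, hp⟩ := hc
  refine ⟨p.map ψ, ?_, ?_⟩
  · intro h0
    exact hp0 ((Polynomial.map_eq_zero ψ).1 h0)
  · rw [Polynomial.aeval_def, Polynomial.eval₂_map]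
    have h1 : (algebraMap E ℂ).comp ψ = algebraMap F ℂ := RingHom.ext fun a => hφ a
    rw [h1]
    exact hp

/-- Finitely many numbers which are algebraic over `k(t)` lie in a function field of one
variable. -/
theorem isFunctionField_adjoin {k : Type} [Field k] [IsAlgClosed k] [Algebra k ℂ] {t : ℂ}
    (ht : t ∉ Set.range (algebraMap k ℂ)) {s : Set ℂ} (hs : s.Finite)
    (hsa : ∀ c ∈ s, IsAlgebraic (IntermediateField.adjoin k {t}) c) :
    IsFunctionField k (IntermediateField.adjoin k (insert t s)) := by
  have htr : Transcendental k t := by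
    intro h
    obtain ⟨c, hc⟩ := emb_mem_range h
    exact ht ⟨c, hc⟩
  set K := IntermediateField.adjoin k (insert t s) with hK
  refine ⟨IntermediateField.essFiniteType_iff.2
    (IntermediateField.fg_adjoin_of_finite (hs.insert t)), ?_⟩
  apply le_antisymm
  · set F₁ := IntermediateField.adjoin k {t} with hF₁
    let A : IntermediateField F₁ ℂ := algebraicClosure F₁ ℂ
    have h1 : Algebra.trdeg k A ≤ 1 := by
      have h2 := trdeg_add_eq k F₁ (A := A)
      have h3 : Algebra.trdeg F₁ A = 0 := trdeg_eq_zero
      rw [h3, add_zero] at h2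
      rw [← h2]
      have h4 := emb_trdeg_le (k := k) ({t} : Set ℂ)
      rwa [Cardinal.mk_singleton] at h4
    have hle : K ≤ A.restrictScalars k := by
      rw [hK, IntermediateField.adjoin_le_iff]
      intro c hc
      change c ∈ A
      rw [mem_algebraicClosure_iff]
      rcases hc with rfl | hc
      · exact isAlgebraic_algebraMap (R := F₁) (A := ℂ)
          (⟨c, IntermediateField.subset_adjoin k {c} rfl⟩ : F₁)
      · exact hsa c hc
    exact (trdeg_le_of_injective (IntermediateField.inclusion hle)
      (IntermediateField.inclusion_injective hle)).trans h1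
  · rw [Cardinal.one_le_iff_ne_zero, trdeg_ne_zero_iff]
    refine ⟨⟨⟨t, IntermediateField.subset_adjoin k _ (Set.mem_insert _ _)⟩, ?_⟩⟩
    intro h
    exact htr (IsAlgebraic.algHom K.val h)

theorem exists_lift {k : Type} [Field k] [Algebra k ℂ] (K : IntermediateField k ℂ)
    {σ : Type} {p : MvPolynomial σ ℂ} (h : ∀ c ∈ p.coeffs, c ∈ K) :
    ∃ P : MvPolynomial σ K, map (algebraMap K ℂ) P = p := by
  have h1 : p ∈ Set.range (map (σ := σ) (algebraMap K ℂ)) := by
    rw [mem_range_map_iff_coeffs_subset]
    intro c hc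
    exact ⟨⟨c, h c hc⟩, rfl⟩
  exact h1

/-- The specialisation of an integral polynomial. -/
theorem redP_exists' {k K : Type} [Field k] [IsAlgClosed k] [Field K] [Algebra k K]
    (hK : IsFunctionField k K) (b : Place k K)
    {P : MvPolynomial (Fin (ν + 1)) K} (h : ∀ m, b.val (P.coeff m) ≤ 1) : ∃ p, RedP b P p := by
  classical
  have h1 : ∀ m, ∃ c : k, b.val (P.coeff m - algebraMap k K c) < 1 ∧
      (P.coeff m = 0 → c = 0) := by
    intro m
    by_cases h0 : P.coeff m = 0
    · exact ⟨0, by simp [h0], fun _ => rfl⟩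
    · obtain ⟨c, hc⟩ := exists_residue hK b (P.coeff m) (h m)
      exact ⟨c, hc, fun h => absurd h h0⟩
  choose c hc hc0 using h1
  refine ⟨∑ n ∈ P.support, monomial n (c n), fun m => ?_⟩
  have h2 : (∑ n ∈ P.support, monomial n (c n)).coeff m = c m := by
    rw [coeff_sum]
    simp only [coeff_monomial]
    rw [Finset.sum_ite_eq']
    split_ifs with h
    · rfl
    · exact (hc0 m (notMem_support_iff.1 h)).symm
  rw [h2]
  exact hc m

/-- The values of the forms at the points of the orbit, over `K` and over `ℂ`. -/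
theorem eval_iter_map {K : Type} [Field K] [Algebra K ℂ]
    (F : Fin (ν + 1) → MvPolynomial (Fin (ν + 1)) K) (x : Fin (ν + 1) → K)
    (g : MvPolynomial (Fin (ν + 1)) K) (n : ℕ) :
    eval (iter (fun i => map (algebraMap K ℂ) (F i)) (fun i => algebraMap K ℂ (x i)) n)
      (map (algebraMap K ℂ) g) = 0 ↔ eval (iter F x n) g = 0 := by
  have h1 : ∀ n, iter (fun i => map (algebraMap K ℂ) (F i)) (fun i => algebraMap K ℂ (x i)) n =
      fun i => algebraMap K ℂ (iter F x n i) := by
    intro n
    induction n with
    | zero => rfl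
    | succ n ih =>
      rw [iter_succ, ih, iter_succ]
      funext i
      change eval _ (map (algebraMap K ℂ) (F i)) = algebraMap K ℂ (eval (iter F x n) (F i))
      exact (Pool.Agent.Helper38.Sym.map_eval_gen (algebraMap K ℂ) _ _).symm
  rw [h1, ← Pool.Agent.Helper38.Sym.map_eval_gen, map_eq_zero_iff _ (algebraMap K ℂ).injective]

/-- Finitely many of the forms define the same closed set. -/
theorem exists_finite_subfamily {σ : Type} [Finite σ] (S : Set (MvPolynomial σ ℂ)) :
    ∃ S₀ : Finset (MvPolynomial σ ℂ), (S₀ : Set (MvPolynomial σ ℂ)) ⊆ S ∧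
      ∀ y : σ → ℂ, (∀ g ∈ S₀, eval y g = 0) → ∀ g ∈ S, eval y g = 0 := by
  obtain ⟨S₀, h1, h2⟩ := (Submodule.fg_span_iff_fg_span_finset_subset (R := MvPolynomial σ ℂ) S).1
    (IsNoetherian.noetherian _)
  refine ⟨S₀, h1, fun y hy g hg => ?_⟩
  have h3 : g ∈ Ideal.span (S₀ : Set (MvPolynomial σ ℂ)) := by
    have h4 : g ∈ Submodule.span (MvPolynomial σ ℂ) S := Submodule.subset_span hg
    rw [h2] at h4
    exact h4
  have h5 : Ideal.span (S₀ : Set (MvPolynomial σ ℂ)) ≤ RingHom.ker (eval y) := by
    rw [Ideal.span_le]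
    intro p hp
    exact hy p hp
  exact h5 h3

end Pool.Agent.Helper30.RED

end
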