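import Mathlib
import Pool.Agent.Helper29.MF.T19
import Pool.Agent.Helper29.MF.T06
import Pool.Agent.Helper29.MF.T18
import Pool.Agent.Helper29.MF.T15
import Pool.Agent.Helper29.MF.T05
import Pool.Agent.Helper29.MF.T45
import Pool.Agent.Helper29.MF.T10
import Pool.Agent.Helper29.MF.T11
import Pool.Agent.Helper29.MF.T04

section

namespace Pool.Agent.Helper16
end Pool.Agent.Helper16
namespace Pool.Agent.Helper30.TKN
end Pool.Agent.Helper30.TKN
namespace Pool.Agent.Helper38.TQ
end Pool.Agent.Helper38.TQ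

/-!
# Heights and algebraic relations of bounded degree
-/

set_option autoImplicit false

namespace Pool.Agent.Helper38.TQK

open MvPolynomial
open Pool.Agent.Helper16 (Place IsFunctionField)
open Pool.Agent.Helper38.TQ
open Pool.Agent.Helper30.TKN

variable {ν : ℕ}

/-- A linear dependence of monomials gives a polynomial relation. -/
theorem exists_poly_of_dependent {k K : Type} [Field k] [Field K] [Algebra k K] (t u : K)
    (D₁ D₂ : ℕ)
    (h : ¬ LinearIndependent k
      (fun p : Fin (D₁ + 1) × Fin (D₂ + 1) => t ^ (p.1 : ℕ) * u ^ (p.2 : ℕ))) :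
    ∃ P : MvPolynomial (Fin 2) k, P ≠ 0 ∧ P.totalDegree ≤ D₁ + D₂ ∧ aeval ![t, u] P = 0 := by
  classical
  rw [Fintype.not_linearIndependent_iff] at h
  obtain ⟨g, hg, p₀, hp₀⟩ := h
  set ex : Fin (D₁ + 1) × Fin (D₂ + 1) → (Fin 2 →₀ ℕ) := fun p =>
    Finsupp.single 0 (p.1 : ℕ) + Finsupp.single 1 (p.2 : ℕ) with hex
  have hinj : Function.Injective ex := by
    intro p q hpq
    have h0 := DFunLike.congr_fun hpq 0
    have h1 := DFunLike.congr_fun hpq 1
    simp [hex] at h0 h1
    exact Prod.ext (Fin.ext h0) (Fin.ext h1)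
  refine ⟨∑ p, monomial (ex p) (g p), ?_, ?_, ?_⟩
  · intro h0
    apply hp₀
    have h1 := congrArg (coeff (ex p₀)) h0
    rw [coeff_sum, coeff_zero] at h1
    simp only [coeff_monomial] at h1
    rw [Finset.sum_eq_single p₀] at h1
    · simpa using h1
    · intro q _ hq
      rw [if_neg fun h => hq (hinj h)]
    · intro h
      exact absurd (Finset.mem_univ _) h
  · refine totalDegree_finsetSum_le fun p _ => ?_
    refine (totalDegree_monomial_le _ _).trans ?_
    have h1 : (ex p).sum (fun _ e => e) = (p.1 : ℕ) + (p.2 : ℕ) := by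
      rw [hex]
      rw [Finsupp.sum_fintype _ _ (fun _ => rfl), Fin.sum_univ_two]
      simp
    have h2 := p.1.2
    have h3 := p.2.2
    change (ex p).sum (fun _ e => e) ≤ _
    omega
  · rw [map_sum]
    rw [← hg]
    refine Finset.sum_congr rfl fun p _ => ?_
    rw [aeval_monomial, Algebra.smul_def]
    congr 1
    rw [hex]
    rw [Finsupp.prod_fintype _ _ (fun _ => pow_zero _), Fin.prod_univ_two]
    simp

variable {k K : Type} [Field k] [IsAlgClosed k] [Field K] [Algebra k K]

theorem log_nrm_pair_nonneg (b : Place k K) (u : K) :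
    0 ≤ WithZero.log (nrm b ![1, u]) := by
  have h1 : (1 : WithZero (Multiplicative ℤ)) ≤ nrm b ![1, u] := by
    have := val_le_nrm b ![1, u] 0
    simpa using this
  rw [← WithZero.log_one, WithZero.log_le_log one_ne_zero (lt_of_lt_of_le zero_lt_one h1).ne']
  exact h1

theorem pair_ne_zero (u : K) : (![1, u] : Fin 2 → K) ≠ 0 := by
  intro h
  have := congrFun h 0
  simp at this

theorem val_le_exp_pair (b : Place k K) (u : K) :
    b.val u ≤ WithZero.exp (WithZero.log (nrm b ![1, u])) := by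
  rw [WithZero.exp_log (nrm_ne_zero (pair_ne_zero u))]
  have := val_le_nrm b ![1, u] 1
  simpa using this

/-- Elements of bounded height satisfy algebraic relations of bounded degree. -/
theorem exists_relation (hK : IsFunctionField k K) (t : K) (B : ℤ) :
    ∃ D : ℕ, ∀ u : K, ht k ![1, u] ≤ B →
      ∃ P : MvPolynomial (Fin 2) k, P ≠ 0 ∧ P.totalDegree ≤ D ∧ aeval ![t, u] P = 0 := by
  classical
  set m : ℕ := (ht k ![1, t]).toNat with hm
  set B' : ℕ := B.toNat with hB'
  have hpos : ∀ u : K, 0 ≤ ht k ![1, u] := fun u =>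
    low_ht_nonneg (ν := 1) hK (pair_ne_zero u)
  refine ⟨(2 * B' + 1) + (2 * m + 1), fun u hu => ?_⟩
  refine exists_poly_of_dependent t u (2 * B' + 1) (2 * m + 1) ?_
  intro hind
  set v : Fin (2 * B' + 1 + 1) × Fin (2 * m + 1 + 1) → K :=
    fun p => t ^ (p.1 : ℕ) * u ^ (p.2 : ℕ) with hv
  set W : Submodule k K := Submodule.span k (Set.range v) with hW
  have hWfin : FiniteDimensional k W := FiniteDimensional.span_of_finite k (Set.finite_range v)
  have hrank : Module.finrank k W = (2 * B' + 1 + 1) * (2 * m + 1 + 1) := by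
    rw [hW, finrank_span_eq_card hind]
    simp
  have hst := nrm_support hK ![1, t] (pair_ne_zero t)
  have hsu := nrm_support hK ![1, u] (pair_ne_zero u)
  set T : Finset (Place k K) := hst.toFinset ∪ hsu.toFinset with hT
  set κ : Place k K → ℕ := fun b => (2 * B' + 1) * (WithZero.log (nrm b ![1, t])).toNat +
    (2 * m + 1) * (WithZero.log (nrm b ![1, u])).toNat with hκ
  have hκz : ∀ b, (κ b : ℤ) = (2 * B' + 1) * WithZero.log (nrm b ![1, t]) +
      (2 * m + 1) * WithZero.log (nrm b ![1, u]) := by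
    intro b
    rw [hκ]
    push_cast
    rw [Int.toNat_of_nonneg (log_nrm_pair_nonneg b t), Int.toNat_of_nonneg
      (log_nrm_pair_nonneg b u)]
  have hpow : ∀ (b : Place k K) (w : K) (n M : ℕ), n ≤ M →
      b.val w ^ n ≤ WithZero.exp ((M : ℤ) * WithZero.log (nrm b ![1, w])) := by
    intro b w n M hnM
    have h1 : b.val w ^ n ≤ WithZero.exp ((n : ℤ) * WithZero.log (nrm b ![1, w])) := by
      have h2 := pow_le_pow_left' (val_le_exp_pair b w) n
      rwa [← WithZero.exp_nsmul, nsmul_eq_mul] at h2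
    refine h1.trans ?_
    rw [WithZero.exp_le_exp]
    exact mul_le_mul_of_nonneg_right (by exact_mod_cast hnM) (log_nrm_pair_nonneg b w)
  have hWb : ∀ b : Place k K, W ≤ b.filt (κ b) := by
    intro b
    rw [hW, Submodule.span_le]
    rintro _ ⟨p, rfl⟩
    change b.val (t ^ (p.1 : ℕ) * u ^ (p.2 : ℕ)) ≤ WithZero.exp (κ b : ℤ)
    rw [map_mul, map_pow, map_pow, hκz, WithZero.exp_add]
    have h1 := p.1.2
    have h2 := p.2.2
    refine mul_le_mul' ?_ ?_
    · have := hpow b t p.1 (2 * B' + 1) (by omega)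
      push_cast at this
      exact this
    · have := hpow b u p.2 (2 * m + 1) (by omega)
      push_cast at this
      exact this
  have hcut := Pool.Agent.Helper16.finrank_le_cut_finset
    (fun b : Place k K => b.finite_resField hK) T κ W (fun b _ => hWb b)
  -- the remaining functions are constant
  have hone : Module.finrank k (W ⊓ ⨅ b ∈ T, b.filt 0 : Submodule k K) ≤ 1 := by
    have h1 : (W ⊓ ⨅ b ∈ T, b.filt 0 : Submodule k K) ≤ Submodule.span k {(1 : K)} := by
      intro f hf
      obtain ⟨hfW, hfT⟩ := hf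
      have h2 : ∀ b : Place k K, b.val f ≤ 1 := by
        intro b
        by_cases hb : b ∈ T
        · have h3 : f ∈ b.filt 0 := by
            have h4 := (Submodule.mem_iInf _).1 hfT b
            exact (Submodule.mem_iInf _).1 h4 hb
          have h4 : b.val f ≤ WithZero.exp (0 : ℤ) := h3
          rwa [WithZero.exp_zero] at h4
        · rw [hT, Finset.mem_union, not_or, Set.Finite.mem_toFinset, Set.Finite.mem_toFinset,
            Function.notMem_support, Function.notMem_support] at hb
          have h3 : (κ b : ℤ) = 0 := by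
            rw [hκz, hb.1, hb.2, mul_zero, mul_zero, add_zero]
          have h4 : b.val f ≤ WithZero.exp (κ b : ℤ) := hWb b hfW
          rwa [h3, WithZero.exp_zero] at h4
      obtain ⟨c, hc⟩ := Pool.Agent.Helper30.TP.formHeight_place hK f h2
      rw [Submodule.mem_span_singleton]
      exact ⟨c, by rw [Algebra.smul_def, mul_one, hc]⟩
    calc Module.finrank k (W ⊓ ⨅ b ∈ T, b.filt 0 : Submodule k K)
        ≤ Module.finrank k (Submodule.span k {(1 : K)}) := Submodule.finrank_mono h1
      _ ≤ 1 := by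
        have := finrank_span_le_card (R := k) ({(1 : K)} : Set K)
        simpa using this
  have hsum : ((∑ b ∈ T, κ b * b.deg : ℕ) : ℤ) ≤ (2 * B' + 1) * m + (2 * m + 1) * B' := by
    have h1 : ((∑ b ∈ T, κ b * b.deg : ℕ) : ℤ) = ∑ b ∈ T,
        ((2 * B' + 1) * WithZero.log (nrm b ![1, t]) +
          (2 * m + 1) * WithZero.log (nrm b ![1, u])) := by
      push_cast
      refine Finset.sum_congr rfl fun b _ => ?_
      rw [deg_eq_one hK b, hκz]
      push_cast
      ring
    have h2 : ht k ![1, t] = ∑ b ∈ T, WithZero.log (nrm b ![1, t]) :=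
      finsum_eq_sum_of_support_subset _ fun b hb => by
        rw [hT, Finset.coe_union]
        exact Or.inl (by simpa using hb)
    have h3 : ht k ![1, u] = ∑ b ∈ T, WithZero.log (nrm b ![1, u]) :=
      finsum_eq_sum_of_support_subset _ fun b hb => by
        rw [hT, Finset.coe_union]
        exact Or.inr (by simpa using hb)
    rw [h1, Finset.sum_add_distrib, ← Finset.mul_sum, ← Finset.mul_sum, ← h2, ← h3]
    have h4 : ht k ![1, t] = m := (Int.toNat_of_nonneg (hpos t)).symm
    have h5 : ht k ![1, u] ≤ B' := hu.trans (Int.self_le_toNat B)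
    rw [h4]
    have h6 : (2 * (m : ℤ) + 1) * ht k ![1, u] ≤ (2 * m + 1) * B' :=
      mul_le_mul_of_nonneg_left h5 (by positivity)
    linarith
  rw [hrank] at hcut
  have h7 : (((2 * B' + 1 + 1) * (2 * m + 1 + 1) : ℕ) : ℤ) ≤
      1 + ((2 * B' + 1) * m + (2 * m + 1) * B') := by
    refine (Int.ofNat_le.2 (hcut.trans (Nat.add_le_add_right hone _))).trans ?_
    push_cast at hsum ⊢
    linarith
  push_cast at h7
  have h8 : (0 : ℤ) ≤ (B' : ℤ) * m := by positivity
  have h9 : (0 : ℤ) ≤ (B' : ℤ) := by positivity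
  have h10 : (0 : ℤ) ≤ (m : ℤ) := by positivity
  nlinarith

/-- Quotients of coordinates have smaller height. -/
theorem ht_pair_le (hK : IsFunctionField k K) {x : Fin (ν + 1) → K} (i j : Fin (ν + 1))
    (hj : x j ≠ 0) : ht k ![1, x i / x j] ≤ ht k x := by
  have hx : x ≠ 0 := fun h => hj (by rw [h]; rfl)
  rw [← ht_smul hK (inv_ne_zero hj) hx]
  unfold ht
  refine finsum_le_finsum' (nrm_support hK _ (pair_ne_zero _))
    (nrm_support hK _ (smul_ne_zero (inv_ne_zero hj) hx)) fun b => ?_
  have h1 : nrm b ![1, x i / x j] ≤ nrm b ((x j)⁻¹ • x) := by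
    refine nrm_le fun l => ?_
    fin_cases l
    · have := val_le_nrm b ((x j)⁻¹ • x) j
      rw [Pi.smul_apply, smul_eq_mul, inv_mul_cancel₀ hj] at this
      simpa using this
    · have := val_le_nrm b ((x j)⁻¹ • x) i
      rw [Pi.smul_apply, smul_eq_mul, mul_comm, ← div_eq_mul_inv] at this
      simpa using this
  rw [WithZero.log_le_log (nrm_ne_zero (pair_ne_zero _))
    (nrm_ne_zero (smul_ne_zero (inv_ne_zero hj) hx))]
  exact h1

end Pool.Agent.Helper38.TQK

end

section

namespace Pool.Agent.Helper16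
end Pool.Agent.Helper16
namespace Pool.Agent.Helper30.TP
end Pool.Agent.Helper30.TP

/-!
# The function field generated by finitely many algebraic functions
-/

set_option autoImplicit false

namespace Pool.Agent.Helper38.TQK

open MvPolynomial
open Pool.Agent.Helper16 (Place IsFunctionField)
open Pool.Agent.Helper30.TP (emb_mem_range emb_trdeg_le)

/-- The number `c` is algebraic over `k(t)`. -/
def Alg (k : Type) [Field k] [Algebra k ℂ] (t c : ℂ) : Prop :=
  ∃ P : MvPolynomial (Fin 2) k, P ≠ 0 ∧ aeval ![t, c] P = 0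

/-- The quotients of the coordinates satisfy relations over `k(t)` of degree at most `D`. -/
def HeightLe {ν : ℕ} (k : Type) [Field k] [Algebra k ℂ] (t : ℂ) (D : ℕ)
    (x : Fin (ν + 1) → ℂ) : Prop :=
  ∀ i j, x j ≠ 0 → ∃ P : MvPolynomial (Fin 2) k, P ≠ 0 ∧ P.totalDegree ≤ D ∧
    aeval ![t, x i / x j] P = 0

theorem isAlgebraic_of_rel {k : Type} [Field k] [Algebra k ℂ] {t c : ℂ} (ht : Transcendental k t)
    {P : MvPolynomial (Fin 2) k} (hP : P ≠ 0) (h : aeval ![t, c] P = 0) :
    IsAlgebraic (IntermediateField.adjoin k {t}) c := by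
  classical
  set F₁ := IntermediateField.adjoin k {t} with hF₁
  let t' : F₁ := ⟨t, IntermediateField.subset_adjoin k {t} rfl⟩
  have ht' : Transcendental k t' := by
    intro h0
    exact ht (IsAlgebraic.algHom F₁.val h0)
  let φ : MvPolynomial (Fin 1) k →ₐ[k] F₁ := aeval fun _ => t'
  have hφ : Function.Injective φ := by
    have h1 : AlgebraicIndependent k (fun _ : Fin 1 => t') :=
      algebraicIndependent_unique_type_iff.2 ht'
    exact h1
  let σ : Fin 2 → Fin 2 := Equiv.swap 0 1
  have hσ : Function.Injective σ := (Equiv.swap 0 1).injective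
  have key : ∀ P : MvPolynomial (Fin 2) k, Polynomial.aeval c (Polynomial.map
      (φ : MvPolynomial (Fin 1) k →+* F₁) (finSuccEquiv k 1 (rename σ P))) = aeval ![t, c] P := by
    intro P
    induction P using MvPolynomial.induction_on with
    | C a =>
      rw [rename_C, aeval_C]
      have h1 : finSuccEquiv k 1 (C a) = Polynomial.C (C a) := by
        have := (finSuccEquiv k 1).commutes a
        simpa using this
      rw [h1, Polynomial.map_C, Polynomial.aeval_C]
      have h2 : (φ : MvPolynomial (Fin 1) k →+* F₁) (C a) = algebraMap k F₁ a := by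
        change φ (C a) = _
        exact φ.commutes a
      rw [h2, ← IsScalarTower.algebraMap_apply]
    | add p q hp hq =>
      simp only [map_add, Polynomial.map_add, hp, hq]
    | mul_X p i hp =>
      simp only [map_mul, Polynomial.map_mul, hp, rename_X, aeval_X]
      congr 1
      fin_cases i
      · have h1 : σ 0 = Fin.succ 0 := by decide
        change Polynomial.aeval c (Polynomial.map _ (finSuccEquiv k 1 (X (σ 0)))) = t
        rw [h1, finSuccEquiv_X_succ, Polynomial.map_C, Polynomial.aeval_C]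
        have h2 : (φ : MvPolynomial (Fin 1) k →+* F₁) (X 0) = t' := by
          change φ (X 0) = _
          exact aeval_X _ _
        rw [h2]
        rfl
      · have h1 : σ 1 = 0 := by decide
        change Polynomial.aeval c (Polynomial.map _ (finSuccEquiv k 1 (X (σ 1)))) = c
        rw [h1, finSuccEquiv_X_zero, Polynomial.map_X, Polynomial.aeval_X]
  refine ⟨Polynomial.map (φ : MvPolynomial (Fin 1) k →+* F₁) (finSuccEquiv k 1 (rename σ P)),
    ?_, by rw [key, h]⟩
  intro h0
  have h1 := (Polynomial.map_eq_zero_iff (f := (φ : MvPolynomial (Fin 1) k →+* F₁)) hφ).1 h0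
  have h2 : rename σ P = 0 := by
    have := (map_eq_zero_iff (finSuccEquiv k 1) (finSuccEquiv k 1).injective).1 h1
    exact this
  exact hP ((map_eq_zero_iff (rename σ) (rename_injective σ hσ)).1 h2)

/-- Finitely many numbers which are algebraic over `k(t)` lie in a function field of one
variable. -/
theorem exists_field_of_algebraic {k : Type} [Field k] [IsAlgClosed k] [Algebra k ℂ] {t : ℂ}
    (ht : t ∉ Set.range (algebraMap k ℂ)) {s : Set ℂ} (hs : s.Finite) (hsa : ∀ c ∈ s, Alg k t c) :
    IsFunctionField k (IntermediateField.adjoin k (insert t s)) := by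
  have htr : Transcendental k t := by
    intro h
    obtain ⟨c, hc⟩ := emb_mem_range h
    exact ht ⟨c, hc⟩
  set K := IntermediateField.adjoin k (insert t s) with hK
  refine ⟨IntermediateField.essFiniteType_iff.2
    (IntermediateField.fg_adjoin_of_finite (hs.insert t)), ?_⟩
  apply le_antisymm
  · set F₁ := IntermediateField.adjoin k {t} with hF₁
    let A : IntermediateField F₁ ℂ := algebraicClosure F₁ ℂ
    have h1 : Algebra.trdeg k A = 1 ∨ Algebra.trdeg k A ≤ 1 := by
      right
      have h2 := trdeg_add_eq k F₁ (A := A)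
      have h3 : Algebra.trdeg F₁ A = 0 := trdeg_eq_zero
      rw [h3, add_zero] at h2
      rw [← h2]
      have h4 := emb_trdeg_le (k := k) ({t} : Set ℂ)
      rwa [Cardinal.mk_singleton] at h4
    have hle : K ≤ A.restrictScalars k := by
      rw [hK, IntermediateField.adjoin_le_iff]
      intro c hc
      change c ∈ A
      rw [mem_algebraicClosure_iff]
      rcases hc with rfl | hc
      · exact isAlgebraic_algebraMap (R := F₁) (A := ℂ)
          (⟨c, IntermediateField.subset_adjoin k {c} rfl⟩ : F₁)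
      · obtain ⟨P, hP, h⟩ := hsa c hc
        exact isAlgebraic_of_rel htr hP h
    have h5 := trdeg_le_of_injective (IntermediateField.inclusion hle)
      (IntermediateField.inclusion_injective hle)
    rcases h1 with h1 | h1
    · exact h5.trans h1.le
    · exact h5.trans h1
  · rw [Cardinal.one_le_iff_ne_zero, trdeg_ne_zero_iff]
    refine ⟨⟨⟨t, IntermediateField.subset_adjoin k _ (Set.mem_insert _ _)⟩, ?_⟩⟩
    intro h
    exact htr (IsAlgebraic.algHom K.val h)

end Pool.Agent.Helper38.TQK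

end

section

namespace Pool.Agent.Helper16
end Pool.Agent.Helper16
namespace Pool.Agent.Helper30.TKN
end Pool.Agent.Helper30.TKN
namespace Pool.Agent.Helper36
end Pool.Agent.Helper36
namespace Pool.Agent.Helper38.TQ
end Pool.Agent.Helper38.TQ

/-!
# Curves in projective space over function fields
-/

set_option autoImplicit false

namespace Pool.Agent.Helper38.TQK

open MvPolynomial
open Pool.Agent.Helper16 (Place IsFunctionField)
open Pool.Agent.Helper36 (step iter iter_zero iter_succ iter_succ' iter_add iter_map)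
open Pool.Agent.Helper38.TQ
open Pool.Agent.Helper30.TKN

variable {ν : ℕ}

/-- The orbit of a point over `K`, over the complex numbers. -/
theorem orbit_complex {K : Type} [Field K] [Algebra K ℂ] {d : ℕ}
    {F : Fin (ν + 1) → MvPolynomial (Fin (ν + 1)) K}
    (hF : IsEndo d fun i => map (algebraMap K ℂ) (F i)) (x : Fin (ν + 1) → K) (c : ℂ) (n : ℕ) :
    (fun (x : Fin (ν + 1) → ℂ) (i : Fin (ν + 1)) =>
        eval x (map (algebraMap K ℂ) (F i)))^[n] (fun i => c * algebraMap K ℂ (x i)) =
      c ^ d ^ n • fun i => algebraMap K ℂ (iter F x n i) := by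
  have h1 : (fun (x : Fin (ν + 1) → ℂ) (i : Fin (ν + 1)) => eval x (map (algebraMap K ℂ) (F i))) =
      step fun i => map (algebraMap K ℂ) (F i) := by
    funext x i
    rfl
  rw [h1]
  have h2 : (fun i => c * algebraMap K ℂ (x i)) = c • fun i => algebraMap K ℂ (x i) := rfl
  rw [h2]
  change iter (fun i => map (algebraMap K ℂ) (F i)) (c • fun i => algebraMap K ℂ (x i)) n = _
  rw [iter_smul hF]
  congr 1
  induction n with
  | zero => rfl
  | succ n ih =>
    rw [iter_succ, ih]
    funext i
    change eval _ (map (algebraMap K ℂ) (F i)) = algebraMap K ℂ (iter F x (n + 1) i)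
    rw [iter_succ]
    exact (Pool.Agent.Helper38.Sym.map_eval_gen (algebraMap K ℂ) _ _).symm

end Pool.Agent.Helper38.TQK

end

section

namespace Pool.Agent.Helper16
end Pool.Agent.Helper16
namespace Pool.Agent.Helper30.TKN
end Pool.Agent.Helper30.TKN
namespace Pool.Agent.Helper36
end Pool.Agent.Helper36
namespace Pool.Agent.Helper38.TQ
end Pool.Agent.Helper38.TQ

/-!
# Curves in projective space over function fields: elementary form
-/

set_option autoImplicit false

namespace Pool.Agent.Helper38.TQK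

open MvPolynomial
open Pool.Agent.Helper16 (Place IsFunctionField)
open Pool.Agent.Helper36 (step iter iter_zero iter_succ iter_succ' iter_add iter_map)
open Pool.Agent.Helper38.TQ
open Pool.Agent.Helper30.TKN

variable {ν : ℕ}

/-- Data over a function field: a map and a point with coefficients algebraic over `k(t)`. -/
theorem exists_data {k : Type} [Field k] [IsAlgClosed k] [Algebra k ℂ] {t : ℂ}
    (ht : t ∉ Set.range (algebraMap k ℂ)) {d : ℕ}
    {f : Fin (ν + 1) → MvPolynomial (Fin (ν + 1)) ℂ} (hf : IsEndo d f)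
    (hfc : ∀ i m, Alg k t ((f i).coeff m)) {a : Fin (ν + 1) → ℂ} (ha : a ≠ 0)
    (hac : ∀ i, Alg k t (a i)) :
    ∃ (K : IntermediateField k ℂ) (F : Fin (ν + 1) → MvPolynomial (Fin (ν + 1)) K)
      (x : Fin (ν + 1) → K), IsFunctionField k K ∧ t ∈ K ∧
      (∀ i, map (algebraMap K ℂ) (F i) = f i) ∧ (∀ i, algebraMap K ℂ (x i) = a i) ∧ x ≠ 0 ∧
      IsEndo d fun i => map (algebraMap K ℂ) (F i) := by
  classical
  set s : Set ℂ := (⋃ i, ((f i).coeffs : Set ℂ)) ∪ Set.range a with hs
  have hsf : s.Finite := (Set.finite_iUnion fun i => (f i).coeffs.finite_toSet).union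
    (Set.finite_range a)
  have hsa : ∀ c ∈ s, Alg k t c := by
    rintro c (hc | ⟨i, rfl⟩)
    · obtain ⟨i, hi⟩ := Set.mem_iUnion.1 hc
      obtain ⟨m, hm⟩ := mem_coeffs_iff.1 hi
      rw [hm.2]
      exact hfc i m
    · exact hac i
  set K := IntermediateField.adjoin k (insert t s) with hK
  have hfun := exists_field_of_algebraic ht hsf hsa
  have hmem : ∀ c ∈ s, c ∈ K := fun c hc =>
    IntermediateField.subset_adjoin k _ (Set.mem_insert_of_mem _ hc)
  have hlift : ∀ i, ∃ g : MvPolynomial (Fin (ν + 1)) K, map (algebraMap K ℂ) g = f i := by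
    intro i
    have h1 : f i ∈ Set.range (map (σ := Fin (ν + 1)) (algebraMap K ℂ)) := by
      rw [mem_range_map_iff_coeffs_subset]
      intro c hc
      exact ⟨⟨c, hmem c (Or.inl (Set.mem_iUnion.2 ⟨i, hc⟩))⟩, rfl⟩
    exact h1
  choose F hF using hlift
  refine ⟨K, F, fun i => ⟨a i, hmem _ (Or.inr ⟨i, rfl⟩)⟩, hfun,
    IntermediateField.subset_adjoin k _ (Set.mem_insert _ _), hF, fun i => rfl, ?_, ?_⟩
  · intro h
    apply ha
    funext i
    have h1 := congrArg (algebraMap K ℂ) (congrFun h i)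
    rw [Pi.zero_apply, map_zero] at h1
    exact h1
  · have h1 : (fun i => map (algebraMap K ℂ) (F i)) = f := funext hF
    rw [h1]
    exact hf

/-- Points of bounded height satisfy relations of bounded degree. -/
theorem heightLe_of_ht {k : Type} [Field k] [IsAlgClosed k] [Algebra k ℂ]
    {K : IntermediateField k ℂ} (hK : IsFunctionField k K) {t : ℂ} (ht : t ∈ K) (B : ℤ) :
    ∃ D : ℕ, ∀ x : Fin (ν + 1) → K, Pool.Agent.Helper38.TQ.ht k x ≤ B →
      HeightLe k t D fun i => algebraMap K ℂ (x i) := by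
  obtain ⟨D, hD⟩ := exists_relation hK (⟨t, ht⟩ : K) B
  refine ⟨D, fun x hx i j hj => ?_⟩
  have hj' : x j ≠ 0 := fun h => hj (by
    change algebraMap K ℂ (x j) = 0
    rw [h, map_zero])
  obtain ⟨P, hP, hPD, hP0⟩ := hD (x i / x j) ((ht_pair_le hK i j hj').trans hx)
  refine ⟨P, hP, hPD, ?_⟩
  have h1 : (![t, algebraMap K ℂ (x i) / algebraMap K ℂ (x j)] : Fin 2 → ℂ) =
      fun l => K.val ((![⟨t, ht⟩, x i / x j] : Fin 2 → K) l) := by
    funext l
    fin_cases l
    · rfl
    · change algebraMap K ℂ (x i) / algebraMap K ℂ (x j) = algebraMap K ℂ (x i / x j)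
      rw [map_div₀]
  rw [h1, ← comp_aeval_apply, hP0, map_zero]

end Pool.Agent.Helper38.TQK

end

section

namespace Pool.Agent.Helper16
end Pool.Agent.Helper16
namespace Pool.Agent.Helper30.TKN
end Pool.Agent.Helper30.TKN
namespace Pool.Agent.Helper36
end Pool.Agent.Helper36
namespace Pool.Agent.Helper38.TQ
end Pool.Agent.Helper38.TQ

/-!
# Post-critically finite endomorphisms, algebraic form
-/

set_option autoImplicit false

namespace Pool.Agent.Helper38.PC

open MvPolynomial
open Pool.Agent.Helper16 (Place IsFunctionField)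
open Pool.Agent.Helper36 (step iter iter_zero iter_succ iter_succ' iter_add iter_map)
open Pool.Agent.Helper38.TQ
open Pool.Agent.Helper30.TKN

variable {ν : ℕ}

/-- The post-critical hypersurface is contained in the hypersurface `g = 0`: `g` divides `g ∘ F`
with quotient `q`, and the Jacobian determinant divides a power of `q`. -/
structure Data {k : Type} [Field k] (F : Fin (ν + 1) → MvPolynomial (Fin (ν + 1)) k) (e E : ℕ)
    (g q c : MvPolynomial (Fin (ν + 1)) k) : Prop where
  hom : g.IsHomogeneous e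
  ne : g ≠ 0
  comp : aeval F g = g * q
  dvd : jf F * c = q ^ E
  homq : ∃ m, q.IsHomogeneous m
  homc : ∃ m, c.IsHomogeneous m

end Pool.Agent.Helper38.PC

end

section

namespace Pool.Agent.Helper16
end Pool.Agent.Helper16
namespace Pool.Agent.Helper30.TP
end Pool.Agent.Helper30.TP
namespace Pool.Agent.Helper36
end Pool.Agent.Helper36

/-!
# Orbits which meet a curve along an arithmetic progression
-/

set_option autoImplicit false

namespace Pool.Agent.Helper30.TK2

open MvPolynomial
open Pool.Agent.Helper16 (Place IsFunctionField)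
open Pool.Agent.Helper36 (step iter iter_zero iter_succ iter_succ' iter_add iter_map)
open Pool.Agent.Helper30.TP

/-! ### Unions of residue classes -/

theorem exists_progressions {T : Set ℕ} {n₁ M : ℕ} (hM : 0 < M)
    (h : ∀ s < M, (∀ l, n₁ + M * l + s ∈ T) ∨ {l | n₁ + M * l + s ∈ T}.Finite) :
    ∃ Q : Finset (ℕ × ℕ), T = {n | ∃ q ∈ Q, ∃ k, n = q.1 * k + q.2} := by
  classical
  set full : ℕ → Prop := fun s => ∀ l, n₁ + M * l + s ∈ T with hfull
  set A : Set ℕ := {n | n ∈ T ∧ (n < n₁ ∨ ¬ full ((n - n₁) % M))} with hA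
  have hAfin : A.Finite := by
    refine Set.Finite.subset ((Set.finite_lt_nat n₁).union
      (Set.Finite.biUnion (Set.finite_lt_nat M) (t := fun s =>
        (fun l => n₁ + M * l + s) '' {l | ¬ full s ∧ n₁ + M * l + s ∈ T}) ?_)) ?_
    · intro s hs
      apply Set.Finite.image
      by_cases hf : full s
      · simp [hf]
      · exact ((h s hs).resolve_left hf).subset fun l hl => hl.2
    · rintro n ⟨hnT, hn⟩
      rcases Nat.lt_or_ge n n₁ with hlt | hge
      · exact Or.inl hlt
      · right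
        have hnf := hn.resolve_left (by omega)
        rw [Set.mem_iUnion₂]
        have h1 : n₁ + M * ((n - n₁) / M) + (n - n₁) % M = n := by
          have := Nat.div_add_mod (n - n₁) M
          omega
        exact ⟨(n - n₁) % M, Nat.mod_lt _ hM, (n - n₁) / M,
          ⟨hnf, by rw [h1]; exact hnT⟩, h1⟩
  refine ⟨hAfin.toFinset.image (fun n => (0, n)) ∪
    ((Finset.range M).filter fun s => full s).image (fun s => (M, n₁ + s)), ?_⟩
  ext n
  simp only [Set.mem_setOf_eq, Finset.mem_union, Finset.mem_image, Set.Finite.mem_toFinset,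
    Finset.mem_filter, Finset.mem_range]
  constructor
  · intro hn
    by_cases hnA : n ∈ A
    · exact ⟨(0, n), Or.inl ⟨n, hnA, rfl⟩, 0, by simp⟩
    · have h2 : n₁ ≤ n ∧ full ((n - n₁) % M) := by
        by_contra hcon
        apply hnA
        refine ⟨hn, ?_⟩
        by_contra h3
        push Not at h3
        exact hcon ⟨h3.1, h3.2⟩
      refine ⟨(M, n₁ + (n - n₁) % M), Or.inr ⟨(n - n₁) % M, ⟨Nat.mod_lt _ hM, h2.2⟩, rfl⟩,
        (n - n₁) / M, ?_⟩
      have := Nat.div_add_mod (n - n₁) M
      have := h2.1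
      simp only
      omega
  · rintro ⟨q, hq | hq, k, rfl⟩
    · obtain ⟨n, hn, rfl⟩ := hq
      simpa using hn.1
    · obtain ⟨s, ⟨-, hs⟩, rfl⟩ := hq
      have := hs k
      rwa [show M * k + (n₁ + s) = n₁ + M * k + s by ring]

/-! ### The image of a curve -/

section

variable {K : Type} [Field K]

end

end Pool.Agent.Helper30.TK2

end

section

namespace Pool.Agent.Helper29.TG
end Pool.Agent.Helper29.TG
namespace Pool.Agent.Helper36
end Pool.Agent.Helper36

/-!
# The key lemma in projective space of any dimension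
-/

set_option autoImplicit false

namespace Pool.Agent.Helper72.PN

open MvPolynomial
open Pool.Agent.Helper36 (step iter)
open Pool.Agent.Helper29.TG

variable {ν : ℕ} {K : Type} [Field K]

/-- `v` is a place of good reduction of `F` for the data `g`, `q`, `c`. -/
structure GoodV (v : AbsoluteValue K ℝ) (F : Fin (ν + 1) → MvPolynomial (Fin (ν + 1)) K) (d : ℕ)
    (g q c : MvPolynomial (Fin (ν + 1)) K) : Prop where
  na : IsNonarchimedean v
  F_int : ∀ i m, v ((F i).coeff m) ≤ 1
  F_nm : ∀ x : Fin (ν + 1) → K, nm v (step F x) = nm v x ^ d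
  g_int : ∀ m, v (g.coeff m) ≤ 1
  q_int : ∀ m, v (q.coeff m) ≤ 1
  c_int : ∀ m, v (c.coeff m) ≤ 1

section aux

variable {ι : Type} [Finite ι]

end aux

end Pool.Agent.Helper72.PN

end

section

/-!
# Finite unions of progressions are closed under intersection
-/

set_option autoImplicit false

namespace Pool.Agent.Helper38.PC

/-- A finite union of progressions. -/
def FU (R : Set ℕ) : Prop :=
  ∃ T : Finset (ℕ × ℕ), R = {n : ℕ | ∃ p ∈ T, ∃ m : ℕ, n = p.1 * m + p.2}

/-- Eventually periodic sets. -/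
def EP (R : Set ℕ) : Prop := ∃ n₁ M : ℕ, 0 < M ∧ ∀ n, n₁ ≤ n → (n ∈ R ↔ n + M ∈ R)

theorem ep_mul {R : Set ℕ} {n₁ M : ℕ} (h : ∀ n, n₁ ≤ n → (n ∈ R ↔ n + M ∈ R)) (c : ℕ) :
    ∀ n, n₁ ≤ n → (n ∈ R ↔ n + M * c ∈ R) := by
  induction c with
  | zero => intro n _; rw [mul_zero, add_zero]
  | succ c ih =>
    intro n hn
    rw [ih n hn, h (n + M * c) (by omega)]
    rw [show n + M * (c + 1) = n + M * c + M by ring]

theorem EP.common {R S : Set ℕ} (hR : EP R) (hS : EP S) :
    ∃ n₁ M : ℕ, 0 < M ∧ ∀ n, n₁ ≤ n → ((n ∈ R ↔ n + M ∈ R) ∧ (n ∈ S ↔ n + M ∈ S)) := by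
  obtain ⟨n₁, M, hM, h⟩ := hR
  obtain ⟨n₂, N, hN, h'⟩ := hS
  refine ⟨max n₁ n₂, M * N, Nat.mul_pos hM hN, fun n hn => ⟨?_, ?_⟩⟩
  · exact ep_mul h N n (le_trans (le_max_left _ _) hn)
  · rw [mul_comm M N]
    exact ep_mul h' M n (le_trans (le_max_right _ _) hn)

theorem EP.union {R S : Set ℕ} (hR : EP R) (hS : EP S) : EP (R ∪ S) := by
  obtain ⟨n₁, M, hM, h⟩ := hR.common hS
  exact ⟨n₁, M, hM, fun n hn => or_congr (h n hn).1 (h n hn).2⟩

theorem EP.inter {R S : Set ℕ} (hR : EP R) (hS : EP S) : EP (R ∩ S) := by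
  obtain ⟨n₁, M, hM, h⟩ := hR.common hS
  exact ⟨n₁, M, hM, fun n hn => and_congr (h n hn).1 (h n hn).2⟩

theorem ep_single (a b : ℕ) : EP {n | ∃ m : ℕ, n = a * m + b} := by
  rcases Nat.eq_zero_or_pos a with rfl | ha
  · refine ⟨b + 1, 1, one_pos, fun n hn => ?_⟩
    simp only [Set.mem_ofPred_eq, zero_mul, zero_add, exists_const]
    omega
  · refine ⟨b, a, ha, fun n hn => ⟨?_, ?_⟩⟩
    · rintro ⟨m, rfl⟩
      exact ⟨m + 1, by ring⟩
    · rintro ⟨m, hm⟩
      rcases m with _ | m
      · exfalso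
        rw [mul_zero] at hm
        omega
      · exact ⟨m, by
          have : a * (m + 1) = a * m + a := by ring
          omega⟩

theorem FU.ep {R : Set ℕ} (hR : FU R) : EP R := by
  classical
  obtain ⟨T, rfl⟩ := hR
  induction T using Finset.induction_on with
  | empty =>
    refine ⟨0, 1, one_pos, fun n _ => ?_⟩
    simp
  | insert p T _ ih =>
    have h : {n : ℕ | ∃ q ∈ insert p T, ∃ m : ℕ, n = q.1 * m + q.2} =
        {n | ∃ m : ℕ, n = p.1 * m + p.2} ∪ {n : ℕ | ∃ q ∈ T, ∃ m : ℕ, n = q.1 * m + q.2} := by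
      ext n
      simp only [Set.mem_ofPred_eq, Set.mem_union, Finset.mem_insert]
      constructor
      · rintro ⟨q, rfl | hq, h⟩
        · exact Or.inl h
        · exact Or.inr ⟨q, hq, h⟩
      · rintro (h | ⟨q, hq, h⟩)
        · exact ⟨p, Or.inl rfl, h⟩
        · exact ⟨q, Or.inr hq, h⟩
    rw [h]
    exact (ep_single _ _).union ih

theorem EP.fu {R : Set ℕ} (hR : EP R) : FU R := by
  obtain ⟨n₁, M, hM, h⟩ := hR
  refine Pool.Agent.Helper30.TK2.exists_progressions (n₁ := n₁) hM fun s _ => ?_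
  by_cases hs : n₁ + s ∈ R
  · left
    intro l
    have h1 := (ep_mul h l (n₁ + s) (by omega)).1 hs
    rwa [show n₁ + M * l + s = n₁ + s + M * l by ring]
  · right
    have h2 : {l | n₁ + M * l + s ∈ R} = ∅ := by
      apply Set.eq_empty_of_forall_notMem
      intro l hl
      apply hs
      rw [ep_mul h l (n₁ + s) (by omega)]
      have h3 : n₁ + M * l + s ∈ R := hl
      rwa [show n₁ + M * l + s = n₁ + s + M * l by ring] at h3
    rw [h2]
    exact Set.finite_empty

theorem FU.inter {R S : Set ℕ} (hR : FU R) (hS : FU S) : FU (R ∩ S) :=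
  (hR.ep.inter hS.ep).fu

theorem FU.union {R S : Set ℕ} (hR : FU R) (hS : FU S) : FU (R ∪ S) :=
  (hR.ep.union hS.ep).fu

end Pool.Agent.Helper38.PC

end

section

namespace Pool.Agent.Helper38.PC
end Pool.Agent.Helper38.PC

/-!
# Surfaces: if all return sets for curves are finite unions of progressions, then the return sets
for surfaces are finite unions of progressions and of sets whose gaps tend to infinity
-/

set_option autoImplicit false

namespace Pool.Agent.Helper89.TNG

open MvPolynomial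
open Pool.Agent.Helper38.PC (FU EP ep_mul)

/-- The gaps of the set tend to infinity. -/
def Gaps (E : Set ℕ) : Prop := ∀ l, 0 < l → {n | n ∈ E ∧ n + l ∈ E}.Finite

theorem ep_of_add {S : Set ℕ} {l : ℕ} (hl : 0 < l) (h : ∀ n ∈ S, n + l ∈ S) : EP S := by
  classical
  have hc : ∀ n ∈ S, ∀ c, n + l * c ∈ S := by
    intro n hn c
    induction c with
    | zero => simpa using hn
    | succ c ih =>
      have h1 := h _ ih
      rw [show n + l * (c + 1) = n + l * c + l by ring]
      exact h1
  -- an element of `S` in every class which meets `S`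
  have h1 : ∀ r : ℕ, ∃ m : ℕ, ∀ n ∈ S, n % l = r → m % l = r ∧ m ∈ S := by
    intro r
    by_cases hr : ∃ n ∈ S, n % l = r
    · obtain ⟨m, hm, hm'⟩ := hr
      exact ⟨m, fun _ _ _ => ⟨hm', hm⟩⟩
    · push Not at hr
      exact ⟨0, fun n hn hn' => absurd hn' (hr n hn)⟩
  choose m hm using h1
  refine ⟨(Finset.range l).sup m, l, hl, fun n hn => ⟨h n, fun hn' => ?_⟩⟩
  have h2 : (n + l) % l = n % l := Nat.add_mod_right n l
  obtain ⟨h3, h4⟩ := hm (n % l) (n + l) hn' h2
  have h5 : m (n % l) ≤ n := by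
    refine le_trans ?_ hn
    exact Finset.le_sup (f := m) (Finset.mem_range.2 (Nat.mod_lt _ hl))
  have h6 : n = m (n % l) + l * (n / l - m (n % l) / l) := by
    have h7 := Nat.mod_add_div n l
    have h8 := Nat.mod_add_div (m (n % l)) l
    rw [h3] at h8
    have h9 : m (n % l) / l ≤ n / l := Nat.div_le_div_right h5
    rw [Nat.mul_sub]
    have h10 : l * (m (n % l) / l) ≤ l * (n / l) := Nat.mul_le_mul_left _ h9
    omega
  rw [h6]
  exact hc _ h4 _

theorem ep_biUnion {ι : Type} (s : Finset ι) {R : ι → Set ℕ} (h : ∀ i ∈ s, EP (R i)) :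
    EP (⋃ i ∈ s, R i) := by
  classical
  induction s using Finset.induction_on with
  | empty => exact ⟨0, 1, one_pos, fun n _ => by simp⟩
  | insert a s ha ih =>
    rw [Finset.set_biUnion_insert]
    exact (h a (Finset.mem_insert_self _ _)).union
      (ih fun i hi => h i (Finset.mem_insert_of_mem hi))

section

variable {N : ℕ} {K : Type} [Field K]

/-- The times at which the point `y n` is a zero of all the elements of `S`. -/
def ret (y : ℕ → Fin (N + 1) → K) (S : Set (MvPolynomial (Fin (N + 1)) K)) : Set ℕ :=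
  {n | ∀ g ∈ S, eval (y n) g = 0}

/-- All the elements are forms. -/
def Forms (S : Set (MvPolynomial (Fin (N + 1)) K)) : Prop := ∀ g ∈ S, ∃ e, g.IsHomogeneous e

/-- Composition with the `l`-th iterate. -/
noncomputable def cmpN (F : Fin (N + 1) → MvPolynomial (Fin (N + 1)) K) (l : ℕ)
    (g : MvPolynomial (Fin (N + 1)) K) : MvPolynomial (Fin (N + 1)) K :=
  (fun P => aeval F P)^[l] g

theorem cmpN_hom {F : Fin (N + 1) → MvPolynomial (Fin (N + 1)) K} {d : ℕ}
    (hF : ∀ i, (F i).IsHomogeneous d) (l : ℕ) {g : MvPolynomial (Fin (N + 1)) K} {e : ℕ}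
    (hg : g.IsHomogeneous e) : (cmpN F l g).IsHomogeneous (d ^ l * e) := by
  unfold cmpN
  induction l with
  | zero => simpa using hg
  | succ l ih =>
    rw [Function.iterate_succ_apply']
    have h1 := ih.aeval F hF
    rw [show d ^ (l + 1) * e = d * (d ^ l * e) by ring]
    exact h1

theorem cmpN_add (F : Fin (N + 1) → MvPolynomial (Fin (N + 1)) K) (l : ℕ)
    (g g' : MvPolynomial (Fin (N + 1)) K) : cmpN F l (g + g') = cmpN F l g + cmpN F l g' := by
  unfold cmpN
  induction l with
  | zero => rfl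
  | succ l ih =>
    rw [Function.iterate_succ_apply', ih, Function.iterate_succ_apply',
      Function.iterate_succ_apply']
    exact map_add _ _ _

theorem cmpN_sum (F : Fin (N + 1) → MvPolynomial (Fin (N + 1)) K) (l : ℕ) {ι : Type}
    (s : Finset ι) (g : ι → MvPolynomial (Fin (N + 1)) K) :
    cmpN F l (∑ i ∈ s, g i) = ∑ i ∈ s, cmpN F l (g i) := by
  classical
  induction s using Finset.induction_on with
  | empty =>
    rw [Finset.sum_empty, Finset.sum_empty]
    have h := cmpN_add F l 0 0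
    rw [add_zero] at h
    simpa using h
  | insert a s ha ih => rw [Finset.sum_insert ha, Finset.sum_insert ha, cmpN_add, ih]

variable {F : Fin (N + 1) → MvPolynomial (Fin (N + 1)) K} {y : ℕ → Fin (N + 1) → K}

theorem eval_cmpN (hy : ∀ n, y (n + 1) = fun i => eval (y n) (F i)) (l n : ℕ)
    (g : MvPolynomial (Fin (N + 1)) K) : eval (y n) (cmpN F l g) = eval (y (n + l)) g := by
  have h1 : ∀ (n : ℕ) (P : MvPolynomial (Fin (N + 1)) K),
      eval (y n) (aeval F P) = eval (y (n + 1)) P := by
    intro n P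
    rw [hy]
    induction P using MvPolynomial.induction_on with
    | C a => simp
    | add p q hp hq => rw [map_add, map_add, hp, hq, map_add]
    | mul_X p i hp => rw [map_mul, map_mul, hp, aeval_X, map_mul, eval_X]
  unfold cmpN
  induction l generalizing g with
  | zero => rfl
  | succ l ih =>
    rw [Function.iterate_succ_apply, ih, h1]
    rfl

/-- The homogeneous elements of a homogeneous ideal. -/
theorem ret_forms {P : Ideal (MvPolynomial (Fin (N + 1)) K)}
    (hP : ∀ g ∈ P, ∀ m, homogeneousComponent m g ∈ P) (n : ℕ) :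
    n ∈ ret y {g | g ∈ P ∧ ∃ e, g.IsHomogeneous e} ↔ n ∈ ret y (P : Set _) := by
  constructor
  · intro h g hg
    rw [← sum_homogeneousComponent g, map_sum]
    exact Finset.sum_eq_zero fun i _ =>
      h _ ⟨hP g hg i, i, homogeneousComponent_isHomogeneous i g⟩
  · intro h g hg
    exact h g hg.1

theorem krull_quot {A : Type} [CommRing A] {P J : Ideal A} [P.IsPrime] (hPJ : P ≤ J)
    (hJP : ¬ J ≤ P) {m : ℕ} (h : ringKrullDim (A ⧸ P) ≤ (m + 1 : ℕ)) :
    ringKrullDim (A ⧸ J) ≤ m := by
  obtain ⟨g, hgJ, hgP⟩ := Set.not_subset.1 hJP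
  have h1 : Ideal.Quotient.mk P g ∈ nonZeroDivisors (A ⧸ P) := by
    rw [mem_nonZeroDivisors_iff_ne_zero]
    intro h0
    exact hgP (Ideal.Quotient.eq_zero_iff_mem.1 h0)
  have h2 := ringKrullDim_quotient_succ_le_of_nonZeroDivisor h1
  have h3 : ringKrullDim (A ⧸ J) ≤
      ringKrullDim ((A ⧸ P) ⧸ Ideal.span {Ideal.Quotient.mk P g}) := by
    have h4 : ∀ a ∈ Ideal.span {Ideal.Quotient.mk P g}, Ideal.Quotient.factor hPJ a = 0 := by
      intro a ha
      rw [Ideal.mem_span_singleton] at ha
      obtain ⟨c, rfl⟩ := ha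
      rw [map_mul, Ideal.Quotient.factor_mk, Ideal.Quotient.eq_zero_iff_mem.2 hgJ, zero_mul]
    refine ringKrullDim_le_of_surjective (Ideal.Quotient.lift _ (Ideal.Quotient.factor hPJ) h4) ?_
    exact Ideal.Quotient.lift_surjective_of_surjective _ h4 (Ideal.Quotient.factor_surjective hPJ)
  have h5 := (add_le_add_left h3 1).trans (h2.trans h)
  have h6 : ringKrullDim (A ⧸ J) + 1 ≤ (m : WithBot ℕ∞) + 1 := by
    push_cast at h5
    exact h5
  exact ENat.WithBot.add_le_add_one_right_iff.1 h6

/-- The prime case. -/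
theorem prime_case {d : ℕ} (hF : ∀ i, (F i).IsHomogeneous d)
    (hy : ∀ n, y (n + 1) = fun i => eval (y n) (F i)) {m : ℕ}
    (hdml : ∀ S : Set (MvPolynomial (Fin (N + 1)) K), Forms S →
      ringKrullDim (MvPolynomial (Fin (N + 1)) K ⧸ Ideal.span S) ≤ m → EP (ret y S))
    {P : Ideal (MvPolynomial (Fin (N + 1)) K)} (hPp : P.IsPrime)
    (hP : ∀ g ∈ P, ∀ m, homogeneousComponent m g ∈ P)
    (hdim : ringKrullDim (MvPolynomial (Fin (N + 1)) K ⧸ P) ≤ (m + 1 : ℕ)) :
    EP (ret y (P : Set _)) ∨ Gaps (ret y (P : Set _)) := by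
  classical
  by_cases h1 : ∃ l, 0 < l ∧ ∀ g ∈ P, cmpN F l g ∈ P
  · obtain ⟨l, hl, h⟩ := h1
    left
    refine ep_of_add hl fun n hn g hg => ?_
    rw [← eval_cmpN hy]
    exact hn _ (h g hg)
  push Not at h1
  by_cases h2 : Gaps (ret y (P : Set _))
  · exact Or.inr h2
  left
  unfold Gaps at h2
  push Not at h2
  obtain ⟨l, hl, hinf⟩ := h2
  -- the forms in `P`
  set PF : Set (MvPolynomial (Fin (N + 1)) K) := {g | g ∈ P ∧ ∃ e, g.IsHomogeneous e} with hPF
  set S₀ : Set (MvPolynomial (Fin (N + 1)) K) := PF ∪ cmpN F l '' PF with hS₀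
  have hPFforms : Forms PF := fun g hg => hg.2
  have himg : ∀ l, Forms (cmpN F l '' PF) := by
    rintro l _ ⟨g, hg, rfl⟩
    obtain ⟨e, he⟩ := hg.2
    exact ⟨_, cmpN_hom hF l he⟩
  have hS₀forms : Forms S₀ := by
    rintro g (hg | hg)
    · exact hPFforms g hg
    · exact himg l g hg
  have hretc : ∀ l n, n ∈ ret y (cmpN F l '' PF) ↔ n + l ∈ ret y (P : Set _) := by
    intro l n
    rw [← ret_forms hP]
    constructor
    · intro h g hg
      rw [← eval_cmpN hy]
      exact h _ ⟨g, hg, rfl⟩
    · rintro h _ ⟨g, hg, rfl⟩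
      rw [eval_cmpN hy]
      exact h g hg
  have hret₀ : ∀ n, n ∈ ret y S₀ ↔ n ∈ ret y (P : Set _) ∧ n + l ∈ ret y (P : Set _) := by
    intro n
    rw [← hretc l, ← ret_forms hP]
    constructor
    · exact fun h => ⟨fun g hg => h g (Or.inl hg), fun g hg => h g (Or.inr hg)⟩
    · rintro ⟨h, h'⟩ g (hg | hg)
      · exact h g hg
      · exact h' g hg
  -- the span
  have hPspan : P ≤ Ideal.span PF := by
    intro g hg
    rw [← sum_homogeneousComponent g]
    exact Ideal.sum_mem _ fun i _ => Ideal.subset_span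
      ⟨hP g hg i, i, homogeneousComponent_isHomogeneous i g⟩
  have hPle : P ≤ Ideal.span S₀ := hPspan.trans (Ideal.span_mono Set.subset_union_left)
  have hnle : ¬ Ideal.span S₀ ≤ P := by
    intro hle
    obtain ⟨g, hg, hg'⟩ := h1 l hl
    apply hg'
    rw [← sum_homogeneousComponent g, cmpN_sum]
    exact Ideal.sum_mem _ fun i _ => hle (Ideal.subset_span (Or.inr ⟨_, ⟨hP g hg i, i,
      homogeneousComponent_isHomogeneous i g⟩, rfl⟩))
  have hdim₀ : ringKrullDim (MvPolynomial (Fin (N + 1)) K ⧸ Ideal.span S₀) ≤ m :=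
    krull_quot hPle hnle hdim
  have hEP₀ := hdml S₀ hS₀forms hdim₀
  obtain ⟨n₁, M, hM, h⟩ := hEP₀
  have hinf₀ : (ret y S₀).Infinite := by
    have h3 : ret y S₀ = {n | n ∈ ret y (P : Set _) ∧ n + l ∈ ret y (P : Set _)} :=
      Set.ext fun n => hret₀ n
    rw [h3]
    exact hinf
  obtain ⟨a, ha, ha'⟩ := hinf₀.exists_gt n₁
  have haM : ∀ s, a + M * s ∈ ret y S₀ := fun s => (ep_mul h s a ha'.le).1 ha
  -- the classes
  have hEPr : ∀ r, EP (ret y (S₀ ∪ cmpN F r '' PF)) := by
    intro r
    refine hdml _ ?_ (le_trans ?_ hdim₀)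
    · rintro g (hg | hg)
      · exact hS₀forms g hg
      · exact himg r g hg
    · exact ringKrullDim_le_of_surjective
        (Ideal.Quotient.factor (Ideal.span_mono Set.subset_union_left))
        (Ideal.Quotient.factor_surjective _)
  have hretr : ∀ r s, a + M * s ∈ ret y (S₀ ∪ cmpN F r '' PF) ↔
      a + r + M * s ∈ ret y (P : Set _) := by
    intro r s
    rw [show a + r + M * s = a + M * s + r by ring, ← hretc r]
    constructor
    · exact fun h g hg => h g (Or.inr hg)
    · rintro h g (hg | hg)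
      · exact haM s g hg
      · exact h g hg
  choose nr Mr hMr hr using hEPr
  set Mst := ∏ r ∈ Finset.range M, Mr r with hMst
  have hMst0 : 0 < Mst := Finset.prod_pos fun r _ => hMr r
  refine ⟨a + M + (Finset.range M).sup nr, M * Mst, Nat.mul_pos hM hMst0, fun n hn => ?_⟩
  obtain ⟨r, s, hrM, hn'⟩ : ∃ r s, r < M ∧ n = a + r + M * s := by
    refine ⟨(n - a) % M, (n - a) / M, Nat.mod_lt _ hM, ?_⟩
    have h3 := Nat.mod_add_div (n - a) M
    have h4 : a ≤ n := by omega
    rw [add_assoc, h3, Nat.add_sub_cancel' h4]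
  obtain ⟨q, hq⟩ : Mr r ∣ Mst := Finset.dvd_prod_of_mem Mr (Finset.mem_range.2 hrM)
  have h4 : nr r ≤ a + M * s := by
    have h5 : nr r ≤ (Finset.range M).sup nr :=
      Finset.le_sup (f := nr) (Finset.mem_range.2 hrM)
    omega
  have h5 := ep_mul (hr r) (M * q) (a + M * s) h4
  have h6 : a + M * s + Mr r * (M * q) = a + M * (s + Mst) := by
    rw [hq]
    ring
  rw [h6, hretr, hretr] at h5
  rw [hn']
  have h7 : a + r + M * s + M * Mst = a + r + M * (s + Mst) := by ring
  rw [h7]
  exact h5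

theorem minimal_hom {I P : Ideal (MvPolynomial (Fin (N + 1)) K)}
    (hI : ∃ S, Forms S ∧ I = Ideal.span S) (hP : P ∈ I.minimalPrimes) :
    ∀ g ∈ P, ∀ m, homogeneousComponent m g ∈ P := by
  classical
  letI := MvPolynomial.gradedAlgebra (σ := Fin (N + 1)) (R := K)
  obtain ⟨S, hS, rfl⟩ := hI
  have hPp : P.IsPrime := hP.1.1
  set Q := (P.homogeneousCore (homogeneousSubmodule (Fin (N + 1)) K)) with hQ
  have hQp : Q.toIdeal.IsPrime := Ideal.IsPrime.homogeneousCore hPp
  have hQle : Q.toIdeal ≤ P := Ideal.toIdeal_homogeneousCore_le _ P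
  have hSQ : Ideal.span S ≤ Q.toIdeal := by
    rw [Ideal.span_le]
    intro g hg
    obtain ⟨e, he⟩ := hS g hg
    exact Ideal.mem_homogeneousCore_of_homogeneous_of_mem ⟨e, he⟩
      (hP.1.2 (Ideal.subset_span hg))
  have hPQ : P ≤ Q.toIdeal := hP.2 ⟨hQp, hSQ⟩ hQle
  intro g hg m
  have h1 := Q.isHomogeneous m (hPQ hg)
  have h2 : ((DirectSum.decompose (homogeneousSubmodule (Fin (N + 1)) K) g m :
      homogeneousSubmodule (Fin (N + 1)) K m) : MvPolynomial (Fin (N + 1)) K) =
      homogeneousComponent m g := decomposition.decompose'_apply g m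
  rw [h2] at h1
  exact hQle h1

/-- Return sets for closed sets of dimension one more. -/
theorem gaps {d : ℕ} (hF : ∀ i, (F i).IsHomogeneous d)
    (hy : ∀ n, y (n + 1) = fun i => eval (y n) (F i)) {m : ℕ}
    (hdml : ∀ S : Set (MvPolynomial (Fin (N + 1)) K), Forms S →
      ringKrullDim (MvPolynomial (Fin (N + 1)) K ⧸ Ideal.span S) ≤ m → FU (ret y S))
    {S : Set (MvPolynomial (Fin (N + 1)) K)} (hS : Forms S)
    (hdim : ringKrullDim (MvPolynomial (Fin (N + 1)) K ⧸ Ideal.span S) ≤ (m + 1 : ℕ)) :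
    ∃ (P : Set ℕ) (t : ℕ) (E : Fin t → Set ℕ), FU P ∧ (∀ i, Gaps (E i)) ∧
      ret y S = P ∪ ⋃ i, E i := by
  classical
  set I := Ideal.span S with hI
  have hfin : I.minimalPrimes.Finite := Ideal.finite_minimalPrimes_of_isNoetherianRing _ I
  have hcase : ∀ P ∈ I.minimalPrimes, EP (ret y (P : Set _)) ∨ Gaps (ret y (P : Set _)) := by
    intro P hP
    refine prime_case hF hy (m := m) (fun S' hS' hd => (hdml S' hS' hd).ep) hP.1.1
      (minimal_hom ⟨S, hS, hI⟩ hP) (le_trans ?_ hdim)
    exact ringKrullDim_le_of_surjective (Ideal.Quotient.factor hP.1.2)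
      (Ideal.Quotient.factor_surjective _)
  have hret : ∀ n, n ∈ ret y S ↔ ∃ P ∈ I.minimalPrimes, n ∈ ret y (P : Set _) := by
    intro n
    constructor
    · intro h
      have h1 : I ≤ RingHom.ker (eval (y n)) := by
        rw [hI, Ideal.span_le]
        exact fun g hg => h g hg
      have h2 : (RingHom.ker (eval (y n))).IsPrime := RingHom.ker_isPrime _
      obtain ⟨P, hP, hle⟩ := Ideal.exists_minimalPrimes_le h1
      exact ⟨P, hP, fun g hg => hle hg⟩
    · rintro ⟨P, hP, h⟩ g hg
      exact h g (hP.1.2 (Ideal.subset_span hg))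
  obtain ⟨A, hA⟩ : ∃ A : Finset (Ideal (MvPolynomial (Fin (N + 1)) K)),
      ∀ P, P ∈ A ↔ P ∈ I.minimalPrimes ∧ EP (ret y (P : Set _)) :=
    ⟨hfin.toFinset.filter (fun P : Ideal (MvPolynomial (Fin (N + 1)) K) =>
      EP (ret y (P : Set _))), fun P => by rw [Finset.mem_filter, Set.Finite.mem_toFinset]⟩
  obtain ⟨B, hB⟩ : ∃ B : Finset (Ideal (MvPolynomial (Fin (N + 1)) K)),
      ∀ P, P ∈ B ↔ P ∈ I.minimalPrimes ∧ ¬ EP (ret y (P : Set _)) :=
    ⟨hfin.toFinset.filter (fun P : Ideal (MvPolynomial (Fin (N + 1)) K) =>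
      ¬ EP (ret y (P : Set _))), fun P => by rw [Finset.mem_filter, Set.Finite.mem_toFinset]⟩
  refine ⟨⋃ P ∈ A, ret y (P : Set _), B.card, fun i => ret y ((B.equivFin.symm i).1 : Set _),
    (ep_biUnion A fun P hP => ((hA P).1 hP).2).fu, fun i => ?_, ?_⟩
  · have h1 := (hB _).1 (B.equivFin.symm i).2
    exact (hcase _ h1.1).resolve_left h1.2
  · ext n
    rw [hret, Set.mem_union, Set.mem_iUnion₂, Set.mem_iUnion]
    constructor
    · rintro ⟨P, hP, hn⟩
      by_cases h1 : EP (ret y (P : Set _))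
      · exact Or.inl ⟨P, (hA P).2 ⟨hP, h1⟩, hn⟩
      · have h2 : P ∈ B := (hB P).2 ⟨hP, h1⟩
        refine Or.inr ⟨B.equivFin ⟨P, h2⟩, ?_⟩
        rw [Equiv.symm_apply_apply]
        exact hn
    · rintro (⟨P, hP, hn⟩ | ⟨i, hn⟩)
      · exact ⟨P, ((hA P).1 hP).1, hn⟩
      · exact ⟨_, ((hB _).1 (B.equivFin.symm i).2).1, hn⟩

end

end Pool.Agent.Helper89.TNG

end
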