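import Mathlib

section

/-!
# Place systems

An abstract one-variable function field `K` over a constant field `k` in characteristic `p`:
a family of discrete valuations `ord v : K → ℤ` (junk value at `0`), with the product formula
(all places have degree one), a derivation `D` of `K` whose kernel consists of `p`-th powers,
and the (weak) compatibility of `D` with the valuations up to a finitely supported error `e`.
-/

set_option autoImplicit false

namespace Pool.Agent.Helper33

/-- An abstract discrete valuation, additive notation, with junk value at `0`. -/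
structure DV (K : Type*) [Field K] where
  /-- the order function (junk value at `0`) -/
  o : K → ℤ
  mul : ∀ x y : K, x ≠ 0 → y ≠ 0 → o (x * y) = o x + o y
  add : ∀ x y : K, x ≠ 0 → y ≠ 0 → x + y ≠ 0 → min (o x) (o y) ≤ o (x + y)

/-- A place system: an abstract function field of one variable `K` over `k` in characteristic `p`. -/
structure PlaceSys (p : ℕ) (k K V : Type*) [Field k] [Field K] [Algebra k K] where
  /-- the valuation attached to a place -/
  pl : V → DV K
  /-- every nonzero element has finitely many zeros and poles -/
  ord_finite : ∀ x : K, x ≠ 0 → {v : V | (pl v).o x ≠ 0}.Finite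
  /-- the product formula -/
  sum_ord : ∀ x : K, x ≠ 0 → ∑ᶠ v, (pl v).o x = 0
  /-- the derivation -/
  D : K → K
  D_add : ∀ x y : K, D (x + y) = D x + D y
  D_mul : ∀ x y : K, D (x * y) = x * D y + y * D x
  /-- the kernel of `D` consists of `p`-th powers -/
  D_eq_zero : ∀ x : K, D x = 0 → ∃ y : K, y ^ p = x
  /-- the error term -/
  e : V → ℕ
  e_finite : {v : V | e v ≠ 0}.Finite
  ord_D : ∀ (v : V) (x : K), x ≠ 0 → D x ≠ 0 → (pl v).o x - 1 - (e v : ℤ) ≤ (pl v).o (D x)
  ord_D' : ∀ (v : V) (x : K), x ≠ 0 → D x ≠ 0 → 0 ≤ (pl v).o x → -(e v : ℤ) ≤ (pl v).o (D x)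
  /-- an element without zeros and poles is constant -/
  const : ∀ x : K, x ≠ 0 → (∀ v, (pl v).o x = 0) → ∃ c : k, algebraMap k K c = x

end Pool.Agent.Helper33

end

section

/-!
# Place systems (any characteristic)

Same as `PlaceSys`, without any hypothesis on the characteristic and on the kernel of the derivation.
-/

set_option autoImplicit false

namespace Pool.Agent.Helper33

/-- A place system: an abstract function field of one variable `K` over `k`, any characteristic. -/
structure PSys (k K V : Type*) [Field k] [Field K] [Algebra k K] where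
  /-- the valuation attached to a place -/
  pl : V → DV K
  /-- every nonzero element has finitely many zeros and poles -/
  ord_finite : ∀ x : K, x ≠ 0 → {v : V | (pl v).o x ≠ 0}.Finite
  /-- the product formula -/
  sum_ord : ∀ x : K, x ≠ 0 → ∑ᶠ v, (pl v).o x = 0
  /-- the derivation -/
  D : K → K
  D_add : ∀ x y : K, D (x + y) = D x + D y
  D_mul : ∀ x y : K, D (x * y) = x * D y + y * D x
  /-- the error term -/
  e : V → ℕ
  e_finite : {v : V | e v ≠ 0}.Finite
  ord_D : ∀ (v : V) (x : K), x ≠ 0 → D x ≠ 0 → (pl v).o x - 1 - (e v : ℤ) ≤ (pl v).o (D x)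
  ord_D' : ∀ (v : V) (x : K), x ≠ 0 → D x ≠ 0 → 0 ≤ (pl v).o x → -(e v : ℤ) ≤ (pl v).o (D x)
  /-- an element without zeros and poles is constant -/
  const : ∀ x : K, x ≠ 0 → (∀ v, (pl v).o x = 0) → ∃ c : k, algebraMap k K c = x

end Pool.Agent.Helper33

end
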