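import Mathlib

section

set_option autoImplicit false

/-!
# Hypersurface sections drop the transcendence degree by at most one; curves through points
-/

namespace Pool.Agent.Helper8.AlgCut

open MvPolynomial

theorem trdeg_quot_prime {κ : Type} [Field κ] {s : ℕ} (π : MvPolynomial (Fin s) κ)
    (hπ : Prime π) (r : ℕ) (hs : r + 1 ≤ s) :
    (r : Cardinal) ≤ Algebra.trdeg κ (MvPolynomial (Fin s) κ ⧸ Ideal.span {π}) := by
  have : (Ideal.span {π}).IsPrime := (Ideal.span_singleton_prime hπ.ne_zero).2 hπ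
  obtain ⟨i, hi⟩ : ∃ i, i ∈ π.vars := by
    by_contra hcon
    push Not at hcon
    have h1 : π.vars = ∅ := Finset.eq_empty_of_forall_notMem hcon
    rw [vars_eq_empty_iff_eq_C] at h1
    have h2 : π.coeff 0 ≠ 0 := by
      intro h0
      rw [h0, map_zero] at h1
      exact hπ.ne_zero h1
    apply hπ.not_isUnit
    rw [h1]
    exact (isUnit_iff_ne_zero.2 h2).map C
  have hdi : π.degreeOf i ≠ 0 := mem_vars_iff_degreeOf_ne_zero.1 hi
  let y : {j : Fin s // j ≠ i} → MvPolynomial (Fin s) κ ⧸ Ideal.span {π} :=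
    fun j => Ideal.Quotient.mk _ (X j.1)
  have hy : AlgebraicIndependent κ y := by
    rw [algebraicIndependent_iff]
    intro Q hQ
    by_contra hQ0
    have h1 : aeval y Q = Ideal.Quotient.mk (Ideal.span {π}) (rename Subtype.val Q) := by
      have : (aeval y : MvPolynomial {j : Fin s // j ≠ i} κ →ₐ[κ] _) =
          (Ideal.Quotient.mkₐ κ (Ideal.span {π})).comp (rename Subtype.val) := by
        apply MvPolynomial.algHom_ext
        intro j
        simp [y]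
      rw [this]
      rfl
    rw [h1, Ideal.Quotient.eq_zero_iff_mem, Ideal.mem_span_singleton] at hQ
    obtain ⟨g, hg⟩ := hQ
    have h2 : rename Subtype.val Q ≠ 0 := by
      intro h
      exact hQ0 (rename_injective _ Subtype.val_injective (by simpa using h))
    have h3 : g ≠ 0 := by
      rintro rfl
      rw [mul_zero] at hg
      exact h2 hg
    have h4 := degreeOf_mul_eq (n := i) hπ.ne_zero h3
    rw [← hg] at h4
    have h5 : (rename Subtype.val Q).degreeOf i = 0 := by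
      by_contra h
      have := mem_vars_rename _ _ (mem_vars_iff_degreeOf_ne_zero.2 h)
      obtain ⟨j, -, hj⟩ := this
      exact j.2 hj
    omega
  have h6 := hy.cardinalMk_le_trdeg
  refine le_trans ?_ h6
  rw [Cardinal.mk_fintype]
  have : Fintype.card {j : Fin s // j ≠ i} = s - 1 := by
    rw [Fintype.card_subtype_compl]; simp
  rw [this]
  exact_mod_cast (by omega : r ≤ s - 1)

/-- Pulling a prime back from a quotient. -/
theorem pull {κ R : Type} [Field κ] [CommRing R] [Algebra κ R]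
    (u : R →ₐ[κ] κ) (P : Ideal R) (hPu : P ≤ RingHom.ker u) (u' : (R ⧸ P) →ₐ[κ] κ)
    (hu' : ∀ x, u' (Ideal.Quotient.mk P x) = u x) (Q : Ideal (R ⧸ P)) (hQ : Q.IsPrime)
    (hQu : Q ≤ RingHom.ker u') :
    (Q.comap (Ideal.Quotient.mk P)).IsPrime ∧ P ≤ Q.comap (Ideal.Quotient.mk P) ∧
      Q.comap (Ideal.Quotient.mk P) ≤ RingHom.ker u ∧
      Algebra.trdeg κ ((R ⧸ P) ⧸ Q) ≤ Algebra.trdeg κ (R ⧸ Q.comap (Ideal.Quotient.mk P)) := by
  refine ⟨Ideal.comap_isPrime _ _, ?_, ?_, ?_⟩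
  · intro x hx
    rw [Ideal.mem_comap, Ideal.Quotient.eq_zero_iff_mem.2 hx]
    exact zero_mem _
  · intro x hx
    have := hQu (Ideal.mem_comap.1 hx)
    rw [RingHom.mem_ker] at this ⊢
    rw [← hu']
    exact this
  · have hs : Function.Surjective
        (Ideal.quotientMapₐ Q (Ideal.Quotient.mkₐ κ P) le_rfl :
          (R ⧸ Q.comap (Ideal.Quotient.mkₐ κ P)) →ₐ[κ] ((R ⧸ P) ⧸ Q)) :=
      Ideal.quotientMap_surjective (f := (Ideal.Quotient.mkₐ κ P).toRingHom)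
        (H := le_rfl) Ideal.Quotient.mk_surjective
    exact trdeg_le_of_surjective _ hs

end Pool.Agent.Helper8.AlgCut

end

section

namespace Pool.Agent.Helper8.AlgCut
end Pool.Agent.Helper8.AlgCut

set_option autoImplicit false

/-!
# Curves through a point of an integral affine variety avoiding a hypersurface (MP_0b9e0b_ag)
-/

namespace Pool.Agent.Helper40.AlgAvoid

open MvPolynomial Pool.Agent.Helper8.AlgCut

theorem cut_min {κ R : Type} [Field κ] [CommRing R] [IsDomain R] [Algebra κ R]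
    [Algebra.FiniteType κ R] (r : ℕ) (hr : ((r + 1 : ℕ) : Cardinal) ≤ Algebra.trdeg κ R)
    (f : R) (hf0 : f ≠ 0) (P : Ideal R) (hP : P ∈ (Ideal.span {f}).minimalPrimes) :
    (r : Cardinal) ≤ Algebra.trdeg κ (R ⧸ P) := by
  obtain ⟨s, g, hgi, hgf⟩ := exists_finite_inj_algHom_of_fg κ R
  let _ : Algebra (MvPolynomial (Fin s) κ) R := g.toRingHom.toAlgebra
  have hmap : ∀ x, algebraMap (MvPolynomial (Fin s) κ) R x = g x := fun _ => rfl
  have : IsScalarTower κ (MvPolynomial (Fin s) κ) R := IsScalarTower.of_algebraMap_eq'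
    (g.comp_algebraMap).symm
  have : Module.Finite (MvPolynomial (Fin s) κ) R := hgf
  have : Algebra.IsIntegral (MvPolynomial (Fin s) κ) R := inferInstance
  have : FaithfulSMul (MvPolynomial (Fin s) κ) R :=
    (faithfulSMul_iff_algebraMap_injective _ _).2 hgi
  have : IsNoetherianRing R := Algebra.FiniteType.isNoetherianRing κ R
  have htr : Algebra.trdeg κ R = s := by
    have h := trdeg_add_eq κ (MvPolynomial (Fin s) κ) (A := R)
    rw [trdeg_eq_zero (R := MvPolynomial (Fin s) κ) (A := R), add_zero,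
      MvPolynomial.trdeg_of_isDomain] at h
    rw [← h]
    simp
  have hs : r + 1 ≤ s := by
    rw [htr] at hr
    exact_mod_cast hr
  have hPp : P.IsPrime := hP.isPrime
  have hfP : f ∈ P := hP.1.2 (Ideal.mem_span_singleton_self f)
  have hht : P.height ≤ 1 := Ideal.height_le_one_of_isPrincipal_of_mem_minimalPrimes _ P hP
  have hq : P.under (MvPolynomial (Fin s) κ) ≠ ⊥ :=
    Ideal.comap_ne_bot_of_integral_mem hf0 hfP (Algebra.IsIntegral.isIntegral f)
  obtain ⟨π, hπP, hπ⟩ := Ideal.IsPrime.exists_mem_prime_of_ne_bot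
    (inferInstance : (P.under (MvPolynomial (Fin s) κ)).IsPrime) hq
  have hπp : (Ideal.span {π}).IsPrime := (Ideal.span_singleton_prime hπ.ne_zero).2 hπ
  have hqe : Ideal.span {π} = P.under (MvPolynomial (Fin s) κ) := by
    by_contra hne
    have hlt : Ideal.span {π} < P.under (MvPolynomial (Fin s) κ) := by
      refine lt_of_le_of_ne ?_ hne
      rwa [Ideal.span_singleton_le_iff_mem]
    obtain ⟨Q, hQP, hQp, hQo⟩ := Ideal.exists_ideal_lt_liesOver_of_lt P hlt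
    have hQ0 : ⊥ < Q := by
      rw [bot_lt_iff_ne_bot]
      rintro rfl
      have h1 : π ∈ (⊥ : Ideal R).under (MvPolynomial (Fin s) κ) := by
        rw [← hQo.over]
        exact Ideal.mem_span_singleton_self π
      exact hπ.ne_zero (by simpa using h1)
    have hbot : (⊥ : Ideal R).IsPrime := Ideal.isPrime_bot
    have h1 := Ideal.height_strict_mono_of_isPrime hQ0
    have h2 := Ideal.height_strict_mono_of_isPrime hQP
    have h3 : (1 : ℕ∞) ≤ Q.height := Order.one_le_iff_pos.2 (lt_of_le_of_lt bot_le h1)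
    exact absurd hht (not_le.2 (lt_of_le_of_lt h3 h2))
  let φ : (MvPolynomial (Fin s) κ ⧸ Ideal.span {π}) →ₐ[κ] R ⧸ P :=
    Ideal.quotientMapₐ P g (by rw [hqe]; exact le_rfl)
  have hφ : Function.Injective φ := by
    have hge : (P.comap g.toRingHom) = Ideal.span {π} := hqe.symm
    exact Ideal.quotientMap_injective' (f := g.toRingHom) (H := hge.ge) hge.le
  exact le_trans (trdeg_quot_prime π hπ r hs) (trdeg_le_of_injective φ hφ)

/-- The residue ring at a rational point has transcendence degree zero. -/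
theorem trdeg_ker {κ R : Type} [Field κ] [CommRing R] [Algebra κ R] (u : R →ₐ[κ] κ)
    (P : Ideal R) (hP : P = RingHom.ker u) : Algebra.trdeg κ (R ⧸ P) = 0 := by
  have hPu : P ≤ RingHom.ker u := hP.le
  have hinj : Function.Injective (Ideal.Quotient.liftₐ P u (fun a ha => hPu ha)) := by
    rw [injective_iff_map_eq_zero]
    intro a
    obtain ⟨a, rfl⟩ := Ideal.Quotient.mk_surjective a
    intro ha
    rw [Ideal.Quotient.eq_zero_iff_mem, hP]
    exact ha
  have h3 := trdeg_le_of_injective _ hinj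
  have h4 : Algebra.trdeg κ κ = 0 := trdeg_eq_zero
  rw [h4] at h3
  exact le_antisymm h3 bot_le

theorem ker_isMaximal {κ R : Type} [Field κ] [CommRing R] [Algebra κ R] (u : R →ₐ[κ] κ) :
    (RingHom.ker u).IsMaximal := by
  apply RingHom.ker_isMaximal_of_surjective
  intro c
  exact ⟨algebraMap κ R c, by simp⟩

/-- One step: a nonzero prime below the point avoiding `f`. -/
theorem step {κ R : Type} [Field κ] [CommRing R] [IsDomain R] [Algebra κ R]
    [Algebra.FiniteType κ R] (u : R →ₐ[κ] κ) (htr : ((1 + 1 : ℕ) : Cardinal) ≤ Algebra.trdeg κ R)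
    (f : R) (hf : f ≠ 0) :
    ∃ 𝔮 : Ideal R, 𝔮.IsPrime ∧ 𝔮 ≠ ⊥ ∧ f ∉ 𝔮 ∧ 𝔮 ≤ RingHom.ker u ∧
      (1 : Cardinal) ≤ Algebra.trdeg κ (R ⧸ 𝔮) := by
  classical
  have : IsNoetherianRing R := Algebra.FiniteType.isNoetherianRing κ R
  have hmax := ker_isMaximal u
  have hfin := Ideal.finite_minimalPrimes_of_isNoetherianRing R (Ideal.span {f})
  obtain ⟨h, hhu, hh⟩ : ∃ h ∈ RingHom.ker u,
      ∀ P ∈ insert ⊥ hfin.toFinset, h ∉ (P : Ideal R) := by
    by_contra hcon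
    push Not at hcon
    have hsub : ((RingHom.ker u : Ideal R) : Set R) ⊆
        ⋃ P ∈ (↑(insert ⊥ hfin.toFinset) : Set (Ideal R)), ((P : Ideal R) : Set R) := by
      intro h hh
      obtain ⟨P, hP, hhP⟩ := hcon h hh
      exact Set.mem_biUnion (Finset.mem_coe.2 hP) hhP
    rw [Ideal.subset_union_prime (⊥ : Ideal R) (⊥ : Ideal R)] at hsub
    · obtain ⟨P, hP, hPu⟩ := hsub
      rw [Finset.mem_insert, Set.Finite.mem_toFinset] at hP
      rcases hP with rfl | hP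
      · have h1 : (⊥ : Ideal R) = RingHom.ker u := le_antisymm bot_le hPu
        have h2 := trdeg_ker u ⊥ h1
        rw [(AlgEquiv.quotientBot κ R).trdeg_eq] at h2
        rw [h2] at htr
        exact absurd htr (by simp)
      · have h1 : P = RingHom.ker u := (hmax.eq_of_le hP.isPrime.ne_top hPu).symm
        have h2 := cut_min 1 htr f hf P hP
        rw [trdeg_ker u P h1] at h2
        exact absurd h2 (by simp)
    · intro P hP _ _
      rw [Finset.mem_insert, Set.Finite.mem_toFinset] at hP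
      rcases hP with rfl | hP
      · exact Ideal.isPrime_bot
      · exact hP.isPrime
  have hh0 : h ≠ 0 := by
    intro h0
    exact hh ⊥ (Finset.mem_insert_self _ _) (by rw [h0]; exact zero_mem _)
  have hle : Ideal.span {h} ≤ RingHom.ker u := by
    rw [Ideal.span_singleton_le_iff_mem]
    exact hhu
  obtain ⟨Q, hQ, hQu⟩ := Ideal.exists_minimalPrimes_le hle
  have hQp : Q.IsPrime := hQ.isPrime
  have hhQ : h ∈ Q := hQ.1.2 (Ideal.mem_span_singleton_self h)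
  refine ⟨Q, hQp, ?_, ?_, hQu, ?_⟩
  · rintro rfl
    exact hh0 (by simpa using hhQ)
  · intro hfQ
    have hle2 : Ideal.span {f} ≤ Q := by
      rw [Ideal.span_singleton_le_iff_mem]
      exact hfQ
    obtain ⟨P, hP, hPQ⟩ := Ideal.exists_minimalPrimes_le hle2
    have hPp : P.IsPrime := hP.isPrime
    have hfP : f ∈ P := hP.1.2 (Ideal.mem_span_singleton_self f)
    rcases hPQ.lt_or_eq with hlt | rfl
    · have hht : Q.height ≤ 1 := Ideal.height_le_one_of_isPrincipal_of_mem_minimalPrimes _ Q hQ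
      have hP0 : ⊥ < P := by
        rw [bot_lt_iff_ne_bot]
        rintro rfl
        exact hf (by simpa using hfP)
      have hbot : (⊥ : Ideal R).IsPrime := Ideal.isPrime_bot
      have h1 := Ideal.height_strict_mono_of_isPrime hP0
      have h2 := Ideal.height_strict_mono_of_isPrime hlt
      have h3 : (1 : ℕ∞) ≤ P.height := Order.one_le_iff_pos.2 (lt_of_le_of_lt bot_le h1)
      exact absurd hht (not_le.2 (lt_of_le_of_lt h3 h2))
    · exact hh P (Finset.mem_insert_of_mem (hfin.mem_toFinset.2 hP)) hhQ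
  · simpa using cut_min 1 htr h hh0 Q hQ

end Pool.Agent.Helper40.AlgAvoid

end

section

set_option autoImplicit false
set_option linter.unusedSectionVars false

/-! PL-15. Dimension theory for primes of a finitely generated algebra over a field.

`trdeg_lt`: strict monotonicity (a nonzero element of `𝔮/𝔭` is transcendental over the lifts of an
algebraically independent family of `A/𝔮`).
`exists_cut`: a minimal prime over `𝔭 ⊔ (f)`, `f ∉ 𝔭`, is the preimage of a minimal prime over `(f)`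
in `A/𝔭`: `cut_min`, with `Ideal.exists_minimalPrimes_le`.
`finite_div`: primes `𝔯 > 𝔭` with `trdeg A/𝔯 + 1 ≥ d = trdeg A/𝔭` which contain `f ∉ 𝔭` are minimal
over `𝔭 ⊔ (f)`. -/

namespace Pool.Agent.PL

variable {κ A : Type} [Field κ] [CommRing A] [Algebra κ A] [Algebra.FiniteType κ A]

omit [Algebra.FiniteType κ A] in
/-- The quotient map `A/𝔭 → A/𝔮`. -/
theorem quot_factor (𝔭 𝔮 : Ideal A) (h : 𝔭 ≤ 𝔮) :
    ∃ g : (A ⧸ 𝔭) →ₐ[κ] (A ⧸ 𝔮), ∀ a : A, g (Ideal.Quotient.mk 𝔭 a) = Ideal.Quotient.mk 𝔮 a :=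
  ⟨Ideal.Quotient.factorₐ κ h, fun a => rfl⟩

theorem exists_indep {R : Type} [CommRing R] [IsDomain R] [Algebra κ R] (d : ℕ)
    (hd : ((d : ℕ) : Cardinal) ≤ Algebra.trdeg κ R) :
    ∃ x : Fin d → R, AlgebraicIndependent κ x := by
  obtain ⟨s, hs⟩ := exists_isTranscendenceBasis κ R
  rw [← hs.cardinalMk_eq_trdeg, ← Cardinal.mk_fin, Cardinal.le_def] at hd
  obtain ⟨e⟩ := hd
  exact ⟨fun i => (e i : R), hs.1.comp e e.injective⟩

theorem indep_lift {R S : Type} [CommRing R] [IsDomain R] [Algebra κ R] [CommRing S] [IsDomain S]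
    [Algebra κ S] (g : R →ₐ[κ] S) (f : R) (hf : f ≠ 0) (hgf : g f = 0) (d : ℕ) (x : Fin d → R)
    (hx : AlgebraicIndependent κ (g ∘ x)) :
    ((d + 1 : ℕ) : Cardinal) ≤ Algebra.trdeg κ R := by
  have hx0 : AlgebraicIndependent κ x := hx.of_comp g
  have htr : Transcendental (Algebra.adjoin κ (Set.range x)) f := by
    intro halg
    obtain ⟨q, hq0, hq⟩ := halg.exists_nonzero_coeff_and_aeval_eq_zero
      (mem_nonZeroDivisors_of_ne_zero hf)
    apply hq0
    have h1 : f ∣ (algebraMap (Algebra.adjoin κ (Set.range x)) R (q.coeff 0)) := by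
      have h2 := map_dvd (Polynomial.aeval f) (Polynomial.X_dvd_sub_C (p := q))
      rw [map_sub, hq, zero_sub, dvd_neg, Polynomial.aeval_X, Polynomial.aeval_C] at h2
      exact h2
    obtain ⟨r, hr⟩ := h1
    have h3 : g ((q.coeff 0 : Algebra.adjoin κ (Set.range x)) : R) = 0 := by
      have h4 : ((q.coeff 0 : Algebra.adjoin κ (Set.range x)) : R) = f * r := hr
      rw [h4, map_mul, hgf, zero_mul]
    have hmem : ((q.coeff 0 : Algebra.adjoin κ (Set.range x)) : R) ∈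
        (MvPolynomial.aeval x : MvPolynomial (Fin d) κ →ₐ[κ] R).range := by
      rw [← Algebra.adjoin_range_eq_range_aeval]
      exact (q.coeff 0).2
    obtain ⟨P, hP⟩ := hmem
    have hP' : MvPolynomial.aeval x P = ((q.coeff 0 : Algebra.adjoin κ (Set.range x)) : R) := hP
    have h5 : MvPolynomial.aeval (g ∘ x) P = 0 := by
      rw [← h3, ← hP']
      have : (MvPolynomial.aeval (g ∘ x) : MvPolynomial (Fin d) κ →ₐ[κ] S) =
          g.comp (MvPolynomial.aeval x) := by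
        apply MvPolynomial.algHom_ext
        intro i
        simp
      rw [this]
      rfl
    have h6 : P = 0 := (algebraicIndependent_iff.1 hx) P h5
    apply Subtype.ext
    rw [← hP', h6, map_zero]
    rfl
  have hO := (hx0.option_iff_transcendental f).2 htr
  have h7 := hO.cardinalMk_le_trdeg
  refine le_trans ?_ h7
  rw [Cardinal.mk_fintype, Fintype.card_option, Fintype.card_fin]

theorem trdeg_lt (𝔭 𝔮 : Ideal A) (h𝔭 : 𝔭.IsPrime) (h𝔮 : 𝔮.IsPrime) (h : 𝔭 < 𝔮) (d : ℕ)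
    (hd : ((d : ℕ) : Cardinal) ≤ Algebra.trdeg κ (A ⧸ 𝔮)) :
    ((d + 1 : ℕ) : Cardinal) ≤ Algebra.trdeg κ (A ⧸ 𝔭) := by
  obtain ⟨g, hg⟩ := quot_factor (κ := κ) 𝔭 𝔮 h.le
  obtain ⟨y, hy⟩ := exists_indep d hd
  obtain ⟨f, hfq, hfp⟩ := SetLike.exists_of_lt h
  choose x hx using fun i => Ideal.Quotient.mk_surjective (y i)
  refine indep_lift g (Ideal.Quotient.mk 𝔭 f) ?_ ?_ d (fun i => Ideal.Quotient.mk 𝔭 (x i)) ?_
  · rwa [Ne, Ideal.Quotient.eq_zero_iff_mem]
  · rw [hg, Ideal.Quotient.eq_zero_iff_mem]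
    exact hfq
  · have : g ∘ (fun i => Ideal.Quotient.mk 𝔭 (x i)) = y := by
      funext i
      simp only [Function.comp_apply]
      rw [hg, hx]
    rw [this]
    exact hy

/-- A minimal prime over `𝔭 ⊔ (f)`. -/
theorem cut_sup (𝔭 𝔮 : Ideal A) (h𝔭 : 𝔭.IsPrime) (f : A) (hf : f ∉ 𝔭)
    (h𝔮 : 𝔮 ∈ (𝔭 ⊔ Ideal.span {f}).minimalPrimes) (d : ℕ)
    (hd : ((d + 1 : ℕ) : Cardinal) ≤ Algebra.trdeg κ (A ⧸ 𝔭)) :
    ((d : ℕ) : Cardinal) ≤ Algebra.trdeg κ (A ⧸ 𝔮) := by
  have hq : 𝔮.IsPrime := h𝔮.isPrime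
  have hpq : 𝔭 ≤ 𝔮 := le_sup_left.trans h𝔮.1.2
  have hfq : f ∈ 𝔮 := h𝔮.1.2 (Ideal.mem_sup_right (Ideal.mem_span_singleton_self f))
  set Q : Ideal (A ⧸ 𝔭) := 𝔮.map (Ideal.Quotient.mk 𝔭) with hQ
  have hker : RingHom.ker (Ideal.Quotient.mk 𝔭) ≤ 𝔮 := by rwa [Ideal.mk_ker]
  have hQp : Q.IsPrime := Ideal.map_isPrime_of_surjective Ideal.Quotient.mk_surjective hker
  have hQc : Q.comap (Ideal.Quotient.mk 𝔭) = 𝔮 := by
    rw [hQ, Ideal.comap_map_of_surjective _ Ideal.Quotient.mk_surjective, sup_eq_left]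
    intro a ha
    rw [Ideal.mem_comap, Ideal.mem_bot, Ideal.Quotient.eq_zero_iff_mem] at ha
    exact hpq ha
  have hmin : Q ∈ (Ideal.span {Ideal.Quotient.mk 𝔭 f}).minimalPrimes := by
    refine ⟨⟨hQp, ?_⟩, ?_⟩
    · rw [Ideal.span_singleton_le_iff_mem]
      exact Ideal.mem_map_of_mem _ hfq
    · rintro P ⟨hP, hfP⟩ hPQ
      have h1 : P.comap (Ideal.Quotient.mk 𝔭) ≤ 𝔮 := by
        rw [← hQc]
        exact Ideal.comap_mono hPQ
      have h2 : 𝔭 ⊔ Ideal.span {f} ≤ P.comap (Ideal.Quotient.mk 𝔭) := by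
        refine sup_le ?_ ?_
        · intro a ha
          rw [Ideal.mem_comap, Ideal.Quotient.eq_zero_iff_mem.2 ha]
          exact zero_mem _
        · rw [Ideal.span_singleton_le_iff_mem, Ideal.mem_comap]
          exact hfP (Ideal.mem_span_singleton_self _)
      have h3 : 𝔮 ≤ P.comap (Ideal.Quotient.mk 𝔭) :=
        h𝔮.2 ⟨Ideal.comap_isPrime _ _, h2⟩ h1
      rw [hQ, Ideal.map_le_iff_le_comap]
      exact h3
  have hf0 : Ideal.Quotient.mk 𝔭 f ≠ 0 := by rwa [Ne, Ideal.Quotient.eq_zero_iff_mem]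
  have h4 := Helper40.AlgAvoid.cut_min d hd _ hf0 Q hmin
  have e : ((A ⧸ 𝔭) ⧸ Q) ≃ₐ[κ] (A ⧸ 𝔮) := by
    rw [hQ]
    exact DoubleQuot.quotQuotEquivQuotOfLEₐ κ hpq
  rwa [e.trdeg_eq] at h4

theorem exists_cut (𝔭 𝔪 : Ideal A) (h𝔭 : 𝔭.IsPrime) (h𝔪 : 𝔪.IsPrime) (h : 𝔭 ≤ 𝔪) (f : A)
    (hf : f ∉ 𝔭) (hf𝔪 : f ∈ 𝔪) (d : ℕ)
    (hd : ((d + 1 : ℕ) : Cardinal) ≤ Algebra.trdeg κ (A ⧸ 𝔭)) :
    ∃ 𝔮 : Ideal A, 𝔮.IsPrime ∧ 𝔭 < 𝔮 ∧ 𝔮 ≤ 𝔪 ∧ f ∈ 𝔮 ∧
      ((d : ℕ) : Cardinal) ≤ Algebra.trdeg κ (A ⧸ 𝔮) := by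
  have hle : 𝔭 ⊔ Ideal.span {f} ≤ 𝔪 := by
    refine sup_le h ?_
    rwa [Ideal.span_singleton_le_iff_mem]
  obtain ⟨𝔮, h𝔮, h𝔮𝔪⟩ := Ideal.exists_minimalPrimes_le hle
  have hfq : f ∈ 𝔮 := h𝔮.1.2 (Ideal.mem_sup_right (Ideal.mem_span_singleton_self f))
  refine ⟨𝔮, h𝔮.isPrime, lt_of_le_of_ne (le_sup_left.trans h𝔮.1.2) ?_, h𝔮𝔪, hfq,
    cut_sup 𝔭 𝔮 h𝔭 f hf h𝔮 d hd⟩
  rintro rfl
  exact hf hfq

end Pool.Agent.PL

end

section

/-!
# A hypersurface section of a curve has dimension zero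
-/

set_option autoImplicit false

namespace Pool.Agent.Helper89.TNL

open MvPolynomial

section ZD

variable {ν : ℕ} {K : Type} [Field K]

theorem zd_cut (𝔭 𝔪 : Ideal (MvPolynomial (Fin (ν + 1)) K)) (h𝔭 : 𝔭.IsPrime) (h𝔪 : 𝔪.IsPrime)
    (h : 𝔭 ≤ 𝔪) (f : MvPolynomial (Fin (ν + 1)) K) (hf : f ∈ 𝔪) (d : ℕ)
    (hd : ((d + 1 : ℕ) : Cardinal) ≤ Algebra.trdeg K (MvPolynomial (Fin (ν + 1)) K ⧸ 𝔭)) :
    ∃ 𝔮 : Ideal (MvPolynomial (Fin (ν + 1)) K), 𝔮.IsPrime ∧ 𝔭 ≤ 𝔮 ∧ 𝔮 ≤ 𝔪 ∧ f ∈ 𝔮 ∧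
      ((d : ℕ) : Cardinal) ≤ Algebra.trdeg K (MvPolynomial (Fin (ν + 1)) K ⧸ 𝔮) := by
  by_cases hfp : f ∈ 𝔭
  · refine ⟨𝔭, h𝔭, le_rfl, h, hfp, le_trans ?_ hd⟩
    exact_mod_cast Nat.le_succ d
  · obtain ⟨𝔮, h1, h2, h3, h4, h5⟩ := PL.exists_cut (κ := K) 𝔭 𝔪 h𝔭 h𝔪 h f hfp hf d hd
    exact ⟨𝔮, h1, h2.le, h3, h4, h5⟩

/-- The dimension of the cone over a curve. -/
theorem zd_trdeg {I : Ideal (MvPolynomial (Fin (ν + 1)) K)}
    (hp : I.IsPrime) (hh : ∀ P ∈ I, ∀ m, homogeneousComponent m P ∈ I)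
    (hfin : ∃ (l₀ l₁ : Fin (ν + 1) → K) (s : ℕ), ∀ i,
      (X i ^ s : MvPolynomial (Fin (ν + 1)) K) ∈
        I ⊔ Ideal.span {∑ j, C (l₀ j) * X j, ∑ j, C (l₁ j) * X j}) :
    ¬ ((3 : ℕ) : Cardinal) ≤ Algebra.trdeg K (MvPolynomial (Fin (ν + 1)) K ⧸ I) := by
  intro h3
  obtain ⟨l₀, l₁, s, hs⟩ := hfin
  set 𝔪 : Ideal (MvPolynomial (Fin (ν + 1)) K) :=
    RingHom.ker (constantCoeff : MvPolynomial (Fin (ν + 1)) K →+* K) with h𝔪
  have h𝔪p : 𝔪.IsPrime := RingHom.ker_isPrime _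
  have hI : I ≤ 𝔪 := by
    intro P hP
    rw [h𝔪, RingHom.mem_ker]
    by_contra h0
    have h1 := hh P hP 0
    rw [homogeneousComponent_zero] at h1
    refine hp.ne_top (Ideal.eq_top_of_isUnit_mem _ h1 ?_)
    exact (isUnit_iff_ne_zero.2 h0).map C
  have hl : ∀ l : Fin (ν + 1) → K, ∑ j, C (l j) * X j ∈ 𝔪 := by
    intro l
    rw [h𝔪, RingHom.mem_ker, map_sum]
    refine Finset.sum_eq_zero fun j _ => ?_
    rw [map_mul, constantCoeff_X, mul_zero]
  obtain ⟨q₁, hq₁, hIq₁, hq₁m, hlq₁, hd₁⟩ := zd_cut I 𝔪 hp h𝔪p hI _ (hl l₀) 2 h3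
  obtain ⟨q₂, hq₂, hq₁q₂, hq₂m, hlq₂, hd₂⟩ := zd_cut q₁ 𝔪 hq₁ h𝔪p hq₁m _ (hl l₁) 1 hd₁
  have hX : ∀ i, (X i : MvPolynomial (Fin (ν + 1)) K) ∈ q₂ := by
    intro i
    refine hq₂.mem_of_pow_mem s ?_
    have h1 : I ⊔ Ideal.span {∑ j, C (l₀ j) * X j, ∑ j, C (l₁ j) * X j} ≤ q₂ := by
      refine sup_le (hIq₁.trans hq₁q₂) ?_
      rw [Ideal.span_le]
      rintro x (rfl | rfl)
      · exact hq₁q₂ hlq₁
      · exact hlq₂
    exact h1 (hs i)
  have hsurj : ∀ a : MvPolynomial (Fin (ν + 1)) K ⧸ q₂,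
      ∃ c : K, a = algebraMap K (MvPolynomial (Fin (ν + 1)) K ⧸ q₂) c := by
    intro a
    obtain ⟨P, rfl⟩ := Ideal.Quotient.mk_surjective a
    induction P using MvPolynomial.induction_on with
    | C c => exact ⟨c, rfl⟩
    | add P Q hP hQ =>
      obtain ⟨c, hc⟩ := hP
      obtain ⟨c', hc'⟩ := hQ
      exact ⟨c + c', by rw [map_add, hc, hc', map_add]⟩
    | mul_X P i _ =>
      refine ⟨0, ?_⟩
      rw [map_zero, Ideal.Quotient.eq_zero_iff_mem]
      exact Ideal.mul_mem_left _ _ (hX i)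
  have halg : Algebra.IsAlgebraic K (MvPolynomial (Fin (ν + 1)) K ⧸ q₂) := by
    constructor
    intro a
    obtain ⟨c, rfl⟩ := hsurj a
    exact isAlgebraic_algebraMap c
  rw [trdeg_eq_zero] at hd₂
  exact absurd hd₂ (by simp)

theorem zd_hom {I : Ideal (MvPolynomial (Fin (ν + 1)) K)}
    (hh : ∀ P ∈ I, ∀ m, homogeneousComponent m P ∈ I)
    {h : MvPolynomial (Fin (ν + 1)) K} {n : ℕ} (hn : h.IsHomogeneous n)
    {P : MvPolynomial (Fin (ν + 1)) K} (hP : P ∈ I ⊔ Ideal.span {h}) (m : ℕ) :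
    homogeneousComponent m P ∈ I ⊔ Ideal.span {h} := by
  letI : GradedAlgebra (homogeneousSubmodule (Fin (ν + 1)) K) := MvPolynomial.gradedAlgebra
  have h1 : (I ⊔ Ideal.span {h}).IsHomogeneous (homogeneousSubmodule (Fin (ν + 1)) K) := by
    refine Ideal.IsHomogeneous.sup ?_ ?_
    · intro i P hP
      have h2 := decomposition.decompose'_apply P i
      have h3 := hh P hP i
      rw [← h2] at h3
      exact h3
    · refine Ideal.homogeneous_span _ _ ?_
      rintro x rfl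
      exact ⟨n, hn⟩
  exact homogeneousComponent_mem_of_mem h1 hP m

theorem zd_comp (l l' : Fin (ν + 1) → K) (ρ : MvPolynomial (Fin 2) K) (m : ℕ) :
    homogeneousComponent m (aeval ![∑ j, C (l j) * X j, ∑ j, C (l' j) * X j] ρ :
      MvPolynomial (Fin (ν + 1)) K) =
      aeval ![∑ j, C (l j) * X j, ∑ j, C (l' j) * X j] (homogeneousComponent m ρ) := by
  classical
  have hg : ∀ i : Fin 2, ((![∑ j, C (l j) * X j, ∑ j, C (l' j) * X j] :
      Fin 2 → MvPolynomial (Fin (ν + 1)) K) i).IsHomogeneous 1 := by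
    intro i
    have h0 : ∀ l : Fin (ν + 1) → K,
        (∑ j, C (l j) * X j : MvPolynomial (Fin (ν + 1)) K).IsHomogeneous 1 := by
      intro l
      refine IsHomogeneous.sum _ _ _ fun j _ => ?_
      exact (isHomogeneous_X K j).C_mul _
    fin_cases i
    · exact h0 l
    · exact h0 l'
  have h1 : ∀ j, (aeval ![∑ j, C (l j) * X j, ∑ j, C (l' j) * X j]
      (homogeneousComponent j ρ) : MvPolynomial (Fin (ν + 1)) K).IsHomogeneous j := by
    intro j
    have := (homogeneousComponent_isHomogeneous j ρ).aeval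
      (![∑ j, C (l j) * X j, ∑ j, C (l' j) * X j] : Fin 2 → MvPolynomial (Fin (ν + 1)) K) hg
    rwa [one_mul] at this
  conv_lhs => rw [← sum_homogeneousComponent ρ, map_sum, map_sum]
  rw [Finset.sum_congr rfl fun j _ => homogeneousComponent_of_mem (h1 j)]
  rw [Finset.sum_ite_eq]
  split_ifs with hm
  · rfl
  · rw [homogeneousComponent_eq_zero, map_zero]
    rw [Finset.mem_range, not_lt] at hm
    omega

end ZD

theorem zeroDim {ν : ℕ} {K : Type} [Field K] {I : Ideal (MvPolynomial (Fin (ν + 1)) K)}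
    (hp : I.IsPrime) (hh : ∀ P ∈ I, ∀ m, homogeneousComponent m P ∈ I)
    (hfin : ∃ (l₀ l₁ : Fin (ν + 1) → K) (s : ℕ), ∀ i,
      (X i ^ s : MvPolynomial (Fin (ν + 1)) K) ∈
        I ⊔ Ideal.span {∑ j, C (l₀ j) * X j, ∑ j, C (l₁ j) * X j})
    {h : MvPolynomial (Fin (ν + 1)) K} {n : ℕ} (hn : h.IsHomogeneous n) (hI : h ∉ I)
    (l l' : Fin (ν + 1) → K) :
    ∃ (ρ : MvPolynomial (Fin 2) K) (m : ℕ), ρ ≠ 0 ∧ ρ.IsHomogeneous m ∧
      aeval ![∑ j, C (l j) * X j, ∑ j, C (l' j) * X j] ρ ∈ I ⊔ Ideal.span {h} := by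
  classical
  set J : Ideal (MvPolynomial (Fin (ν + 1)) K) := I ⊔ Ideal.span {h} with hJ
  set g : Fin 2 → MvPolynomial (Fin (ν + 1)) K :=
    ![∑ j, C (l j) * X j, ∑ j, C (l' j) * X j] with hg
  have h3 := zd_trdeg hp hh hfin
  -- a relation modulo each prime
  have hrel : ∀ q : Ideal (MvPolynomial (Fin (ν + 1)) K), q ∈ J.minimalPrimes →
      ∃ ρ : MvPolynomial (Fin 2) K, ρ ≠ 0 ∧ aeval g ρ ∈ q := by
    intro q hq
    have hqp : q.IsPrime := hq.isPrime
    have hJq : J ≤ q := hq.1.2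
    have hlt : I < q := by
      refine lt_of_le_of_ne (le_sup_left.trans hJq) ?_
      rintro rfl
      exact hI (hJq (Ideal.mem_sup_right (Ideal.mem_span_singleton_self h)))
    by_contra hcon
    push Not at hcon
    apply h3
    refine PL.trdeg_lt (κ := K) I q hp hqp hlt 2 ?_
    have hind : AlgebraicIndependent K fun i : Fin 2 => Ideal.Quotient.mkₐ K q (g i) := by
      rw [algebraicIndependent_iff]
      intro ρ hρ
      by_contra hρ0
      refine hcon ρ hρ0 ?_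
      rw [← comp_aeval_apply] at hρ
      exact Ideal.Quotient.eq_zero_iff_mem.1 hρ
    have := hind.cardinalMk_le_trdeg
    rwa [Cardinal.mk_fin] at this
  have hfinm : J.minimalPrimes.Finite :=
    Ideal.finite_minimalPrimes_of_isNoetherianRing _ J
  choose! ρ hρ0 hρ using hrel
  set Q : MvPolynomial (Fin 2) K := ∏ q ∈ hfinm.toFinset, ρ q with hQ
  have hQ0 : Q ≠ 0 := by
    rw [hQ, Finset.prod_ne_zero_iff]
    intro q hq
    exact hρ0 q (hfinm.mem_toFinset.1 hq)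
  have hQr : aeval g Q ∈ J.radical := by
    rw [← Ideal.sInf_minimalPrimes, Ideal.mem_sInf]
    intro q hq
    have hqm : q ∈ hfinm.toFinset := hfinm.mem_toFinset.2 hq
    rw [hQ, map_prod, ← Finset.mul_prod_erase _ _ hqm]
    exact Ideal.mul_mem_right _ _ (hρ q hq)
  obtain ⟨N, hN⟩ := hQr
  have hR0 : Q ^ N ≠ 0 := pow_ne_zero _ hQ0
  have hR : aeval g (Q ^ N) ∈ J := by
    rw [map_pow]
    exact hN
  obtain ⟨m, hm⟩ : ∃ m, homogeneousComponent m (Q ^ N) ≠ 0 := by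
    by_contra hcon
    push Not at hcon
    apply hR0
    rw [← sum_homogeneousComponent (Q ^ N)]
    exact Finset.sum_eq_zero fun i _ => hcon i
  refine ⟨homogeneousComponent m (Q ^ N), m, hm, homogeneousComponent_isHomogeneous _ _, ?_⟩
  rw [hg, ← zd_comp l l' (Q ^ N) m]
  exact zd_hom hh hn hR m

end Pool.Agent.Helper89.TNL

end
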