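import Pool.Agent.Helper29.MF.T20

section

namespace Pool.Agent.Helper16
end Pool.Agent.Helper16
namespace Pool.Agent.Helper30.TKN
end Pool.Agent.Helper30.TKN
namespace Pool.Agent.Helper36
end Pool.Agent.Helper36
namespace Pool.Agent.Helper38.TQ
end Pool.Agent.Helper38.TQ

/-!
# Generators of the ideal of a curve
-/

set_option autoImplicit false

namespace Pool.Agent.Helper63.TN

open MvPolynomial
open Pool.Agent.Helper16 (Place IsFunctionField)
open Pool.Agent.Helper36 (step iter)
open Pool.Agent.Helper38.TQ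
open Pool.Agent.Helper30.TKN

variable {ν : ℕ} {k K : Type} [Field k] [Field K] [Algebra k K]

theorem pull_succ_eq (F : Fin (ν + 1) → MvPolynomial (Fin (ν + 1)) K) (N : ℕ)
    (G : MvPolynomial (Fin (ν + 1)) K) : pull F (N + 1) G = aeval F (pull F N G) := by
  unfold pull
  rw [Function.iterate_succ_apply']

theorem aeval_pull (F : Fin (ν + 1) → MvPolynomial (Fin (ν + 1)) K) (N : ℕ)
    (G : MvPolynomial (Fin (ν + 1)) K) {L : Type} [Field L] [Algebra K L]
    (u : Fin (ν + 1) → L) : aeval u (pull F N G) = aeval (iter F u N) G := by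
  induction N generalizing u with
  | zero => rfl
  | succ N ih =>
    rw [pull_succ_eq, Pool.Agent.Helper36.iter_succ', ← ih]
    exact comp_aeval_apply F (aeval u) (pull F N G)

theorem pull_hom {d : ℕ} {F : Fin (ν + 1) → MvPolynomial (Fin (ν + 1)) K}
    (hF : ∀ i, (F i).IsHomogeneous d) (N : ℕ) {G : MvPolynomial (Fin (ν + 1)) K} {e : ℕ}
    (hG : G.IsHomogeneous e) : (pull F N G).IsHomogeneous (e * d ^ N) := by
  induction N with
  | zero =>
    rw [pow_zero, mul_one]
    exact hG
  | succ N ih =>
    rw [pull_succ_eq]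
    have h := ih.aeval F hF
    rwa [show d * (e * d ^ N) = e * d ^ (N + 1) by ring] at h

end Pool.Agent.Helper63.TN

end

section

namespace Pool.Agent.Helper16
end Pool.Agent.Helper16
namespace Pool.Agent.Helper30.TKN
end Pool.Agent.Helper30.TKN
namespace Pool.Agent.Helper36
end Pool.Agent.Helper36
namespace Pool.Agent.Helper38.TQ
end Pool.Agent.Helper38.TQ

/-!
# The number of places at which two points coincide
-/

set_option autoImplicit false

namespace Pool.Agent.Helper63.TN

open MvPolynomial
open Pool.Agent.Helper16 (Place IsFunctionField)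
open Pool.Agent.Helper36 (step iter)
open Pool.Agent.Helper38.TQ
open Pool.Agent.Helper30.TKN

variable {ν : ℕ} {k K : Type} [Field k] [Field K] [Algebra k K]

/-- The minors of the two points, up to constants. -/
theorem minor_sub {v : Place k K} {y y' : Fin (ν + 1) → K}
    {z z' : Fin (ν + 1) → k} {c c' : K} (hz' : z' ≠ 0)
    (h : ∀ i, v.val (c * y i - algebraMap k K (z i)) < 1)
    (h' : ∀ i, v.val (c' * y' i - algebraMap k K (z' i)) < 1) (p q : Fin (ν + 1)) :
    v.val (c * c' * (y p * y' q - y q * y' p) - algebraMap k K (z p * z' q - z q * z' p)) < 1 := by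
  have n2 : nrm v (c' • y') = 1 := nrm_red hz' h'
  have h8 : ∀ i j, v.val ((c * y i - algebraMap k K (z i)) * (c' * y' j) +
      algebraMap k K (z i) * (c' * y' j - algebraMap k K (z' j))) < 1 := by
    intro i j
    have hy1 : v.val (c' * y' j) ≤ 1 := by
      rw [← n2]; exact val_le_nrm v (c' • y') j
    refine (v.val.map_add _ _).trans_lt (max_lt ?_ ?_)
    · rw [map_mul]
      exact mul_lt_one_of_lt_of_le (h i) hy1
    · rw [map_mul, mul_comm]
      exact mul_lt_one_of_lt_of_le (h' j) (v.val_algebraMap_le _)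
  have h9 : c * c' * (y p * y' q - y q * y' p) - algebraMap k K (z p * z' q - z q * z' p) =
      ((c * y p - algebraMap k K (z p)) * (c' * y' q) +
            algebraMap k K (z p) * (c' * y' q - algebraMap k K (z' q)))
          - ((c * y q - algebraMap k K (z q)) * (c' * y' p) +
            algebraMap k K (z q) * (c' * y' p - algebraMap k K (z' p))) := by
    simp only [map_sub, map_mul]
    ring
  rw [h9]
  exact (v.val.map_sub _ _).trans_lt (max_lt (h8 p q) (h8 q p))

theorem nrm_mul_of_red {v : Place k K} {y y' : Fin (ν + 1) → K} {z z' : Fin (ν + 1) → k}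
    {c c' : K} (hz : z ≠ 0) (hz' : z' ≠ 0)
    (h : ∀ i, v.val (c * y i - algebraMap k K (z i)) < 1)
    (h' : ∀ i, v.val (c' * y' i - algebraMap k K (z' i)) < 1) :
    v.val (c * c') * (nrm v y * nrm v y') = 1 := by
  have n1 : nrm v (c • y) = 1 := nrm_red hz h
  have n2 : nrm v (c' • y') = 1 := nrm_red hz' h'
  rw [nrm_smul] at n1 n2
  rw [map_mul, mul_mul_mul_comm, n1, n2, one_mul]

/-- Points with the same reduction, over an extension. -/
theorem same_of_red [IsAlgClosed k] {v : Place k K} {y y' : Fin (ν + 1) → K}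
    {z z' : Fin (ν + 1) → k} (h : Red v y z) (h' : Red v y' z') (hz : PEq z z') :
    Same v y y' := by
  obtain ⟨hz0, c, hc, h1⟩ := h
  obtain ⟨hz0', c', hc', h1'⟩ := h'
  obtain ⟨t, ht, rfl⟩ := hz
  intro p q
  have h2 := minor_sub hz0' h1 h1' p q
  have h3 : z p * (t • z) q - z q * (t • z) p = 0 := by
    simp only [Pi.smul_apply, smul_eq_mul]
    ring
  rw [h3, map_zero, sub_zero, map_mul, ← nrm_mul_of_red hz0 hz0' h1 h1'] at h2
  exact lt_of_mul_lt_mul_left h2 zero_le

theorem red_of_same [IsAlgClosed k] (hK : IsFunctionField k K) {v : Place k K}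
    {y y' : Fin (ν + 1) → K} (hy : y ≠ 0) (hy' : y' ≠ 0) {z : Fin (ν + 1) → k} (h : Red v y z)
    (hs : Same v y y') : Red v y' z := by
  obtain ⟨hz0, c, hc, h1⟩ := h
  obtain ⟨i0, hi0⟩ := exists_val_eq_nrm v y'
  have hn' := nrm_ne_zero (b := v) hy'
  have hy0 : y' i0 ≠ 0 := by
    intro h0
    rw [h0, map_zero] at hi0
    exact hn' hi0.symm
  have hc' : (y' i0)⁻¹ ≠ 0 := inv_ne_zero hy0
  have hle : ∀ i, v.val ((y' i0)⁻¹ * y' i) ≤ 1 := by
    intro i
    rw [map_mul, map_inv₀, hi0]
    calc (nrm v y')⁻¹ * v.val (y' i) ≤ (nrm v y')⁻¹ * nrm v y' :=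
          mul_le_mul_right (val_le_nrm v y' i) _
      _ = 1 := inv_mul_cancel₀ hn'
  choose z' hz' using fun i => exists_residue hK v ((y' i0)⁻¹ * y' i) (hle i)
  have hz0' : z' ≠ 0 := by
    intro h0
    have h2 := hz' i0
    rw [h0, Pi.zero_apply, map_zero, sub_zero, inv_mul_cancel₀ hy0, map_one] at h2
    exact lt_irrefl _ h2
  have hmin : ∀ p q, z p * z' q - z q * z' p = 0 := by
    intro p q
    by_contra hne
    have h2 := minor_sub hz0' h1 hz' p q
    have h3 : v.val (c * (y' i0)⁻¹ * (y p * y' q - y q * y' p)) < 1 := by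
      rw [map_mul, ← nrm_mul_of_red hz0 hz0' h1 hz']
      refine mul_lt_mul_of_pos_left (hs p q) (zero_lt_iff.2 ?_)
      simpa using ⟨hc, hy0⟩
    have h4 : v.val (algebraMap k K (z p * z' q - z q * z' p)) < 1 := by
      have h5 : algebraMap k K (z p * z' q - z q * z' p) =
          c * (y' i0)⁻¹ * (y p * y' q - y q * y' p) -
            (c * (y' i0)⁻¹ * (y p * y' q - y q * y' p) -
              algebraMap k K (z p * z' q - z q * z' p)) := by ring
      rw [h5]
      exact (v.val.map_sub _ _).trans_lt (max_lt h3 h2)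
    rw [v.triv _ hne] at h4
    exact lt_irrefl _ h4
  obtain ⟨t, ht, hzt⟩ := peq_of_minors hz0 hz0' hmin
  refine ⟨hz0, algebraMap k K t⁻¹ * (y' i0)⁻¹, mul_ne_zero (by simpa using ht) hc', fun i => ?_⟩
  have h6 : algebraMap k K t⁻¹ * (y' i0)⁻¹ * y' i - algebraMap k K (z i) =
      algebraMap k K t⁻¹ * ((y' i0)⁻¹ * y' i - algebraMap k K (z' i)) := by
    rw [hzt, Pi.smul_apply, smul_eq_mul, mul_sub, ← map_mul, inv_mul_cancel_left₀ ht]
    ring
  rw [h6, map_mul, v.triv _ (inv_ne_zero ht), one_mul]
  exact hz' i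

end Pool.Agent.Helper63.TN

end

section

namespace Pool.Agent.Helper16
end Pool.Agent.Helper16
namespace Pool.Agent.Helper30.TKN
end Pool.Agent.Helper30.TKN
namespace Pool.Agent.Helper36
end Pool.Agent.Helper36
namespace Pool.Agent.Helper38.TQ
end Pool.Agent.Helper38.TQ

/-!
# From a nearby point to a closed point
-/

set_option autoImplicit false

namespace Pool.Agent.Helper63.TN

open MvPolynomial
open Pool.Agent.Helper16 (Place IsFunctionField)
open Pool.Agent.Helper36 (step iter)
open Pool.Agent.Helper38.TQ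
open Pool.Agent.Helper30.TKN

variable {ν : ℕ} {k K : Type} [Field k] [Field K] [Algebra k K]

theorem algHom_algebraMap {L K' : Type} [Field L] [Field K'] [Algebra k L] [Algebra K L]
    [IsScalarTower k K L] [Algebra k K'] [Algebra K K'] [IsScalarTower k K K'] (σ : L →ₐ[K] K')
    (a : k) : σ (algebraMap k L a) = algebraMap k K' a := by
  rw [IsScalarTower.algebraMap_apply k K L, AlgHom.commutes,
    ← IsScalarTower.algebraMap_apply k K K']

/-- The place of `L` induced by an embedding into a field with a place over `b`. -/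
noncomputable def pullPlace {L K' : Type} [Field L] [Field K'] [Algebra k L] [Algebra K L]
    [IsScalarTower k K L] [Algebra k K'] [Algebra K K'] [IsScalarTower k K K'] (σ : L →ₐ[K] K')
    {b : Place k K} {b' : Place k K'} (hb : Ext b' b) : Place k L where
  val := b'.val.comap (σ : L →+* K')
  surj := by
    intro γ
    obtain ⟨a, ha⟩ := b.surj γ
    refine ⟨algebraMap K L a, ?_⟩
    rw [Valuation.comap_apply]
    change b'.val (σ (algebraMap K L a)) = γ
    rw [AlgHom.commutes, hb a, ha]
  triv := by
    intro a ha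
    rw [Valuation.comap_apply]
    change b'.val (σ (algebraMap k L a)) = 1
    rw [algHom_algebraMap (K := K) σ a]
    exact b'.triv a ha

/-- A point over a large valued field which is a multiple of a conjugate of a point `A` over a
finite extension gives a place of the field of `A`. -/
theorem descend [IsAlgClosed k] (hK : IsFunctionField k K) {K' : Type} [Field K'] [Algebra k K']
    [Algebra K K'] [IsScalarTower k K K'] {b : Place k K} {b' : Place k K'} (hb : Ext b' b)
    (A : FinPt ν k K) {w : Fin (ν + 1) → K'} (hw : Conj A w) {z : Fin (ν + 1) → k}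
    (hz : Red b' w z) : ∃ v : Place k A.L, Ext v b ∧ Red v A.y z := by
  obtain ⟨σ, c, hc, rfl⟩ := hw
  obtain ⟨hz0, c', hc', h1⟩ := hz
  refine ⟨pullPlace σ hb, ?_, hz0, ?_⟩
  · intro a
    change b'.val (σ (algebraMap K A.L a)) = b.val a
    rw [AlgHom.commutes, hb a]
  obtain ⟨i₀, hi₀⟩ : ∃ i, z i ≠ 0 := by
    by_contra hcon
    push Not at hcon
    exact hz0 (funext hcon)
  -- the value of the coordinate `i₀` is one
  set u : Fin (ν + 1) → K' := fun i => c' * (c * σ (A.y i)) with hu
  have h1' : ∀ i, b'.val (u i - algebraMap k K' (z i)) < 1 := h1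
  have h2 : b'.val (u i₀) = 1 := by
    have h3 : u i₀ = (u i₀ - algebraMap k K' (z i₀)) + algebraMap k K' (z i₀) := by ring
    rw [h3, Valuation.map_add_eq_of_lt_right]
    · exact b'.triv _ hi₀
    · rw [b'.triv _ hi₀]
      exact h1' i₀
  have hu0 : u i₀ ≠ 0 := by
    intro h0
    rw [h0, map_zero] at h2
    exact zero_ne_one h2
  have hy0 : σ (A.y i₀) ≠ 0 := by
    intro h0
    apply hu0
    simp only [hu, h0, mul_zero]
  have hy0' : A.y i₀ ≠ 0 := by
    intro h0
    apply hy0
    rw [h0, map_zero]
  have hzL : algebraMap k A.L (z i₀) ≠ 0 := by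
    intro h0
    exact hi₀ ((map_eq_zero (algebraMap k A.L)).1 h0)
  refine ⟨algebraMap k A.L (z i₀) * (A.y i₀)⁻¹, mul_ne_zero hzL (inv_ne_zero hy0'), fun i => ?_⟩
  change b'.val (σ (algebraMap k A.L (z i₀) * (A.y i₀)⁻¹ * A.y i - algebraMap k A.L (z i))) < 1
  rw [map_sub, map_mul, map_mul, map_inv₀, algHom_algebraMap (K := K) σ,
    algHom_algebraMap (K := K) σ]
  have h4 : algebraMap k K' (z i₀) * (σ (A.y i₀))⁻¹ * σ (A.y i) - algebraMap k K' (z i) =
      (algebraMap k K' (z i₀) * (u i - algebraMap k K' (z i)) -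
        algebraMap k K' (z i) * (u i₀ - algebraMap k K' (z i₀))) * (u i₀)⁻¹ := by
    simp only [hu]
    field_simp
    ring
  rw [h4, map_mul, map_inv₀, h2, inv_one, mul_one]
  have h5 : ∀ (a : k) (t : K'), b'.val t < 1 → b'.val (algebraMap k K' a * t) < 1 := by
    intro a t ht
    by_cases ha : a = 0
    · rw [ha, map_zero, zero_mul, map_zero]
      exact zero_lt_one
    · rw [map_mul, b'.triv a ha, one_mul]
      exact ht
  exact (b'.val.map_sub _ _).trans_lt (max_lt (h5 _ _ (h1' i)) (h5 _ _ (h1' i₀)))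

theorem aeval_conj {L K' : Type} [Field L] [Field K'] [Algebra K L] [Algebra K K']
    (σ : L →ₐ[K] K') (y : Fin (ν + 1) → L) (G : MvPolynomial (Fin (ν + 1)) K) :
    aeval (fun i => σ (y i)) G = σ (aeval y G) := by
  rw [← MvPolynomial.comp_aeval_apply]

theorem aeval_conj_hom {L K' : Type} [Field L] [Field K'] [Algebra K L] [Algebra K K']
    (σ : L →ₐ[K] K') (c : K') (y : Fin (ν + 1) → L) {m : ℕ} {G : MvPolynomial (Fin (ν + 1)) K}
    (hG : G.IsHomogeneous m) :
    aeval (fun i => c * σ (y i)) G = c ^ m * σ (aeval y G) := by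
  rw [Pool.Agent.Helper36.aeval_smul_homogeneous hG c (fun i => σ (y i)), aeval_conj]

theorem iter_conj {d : ℕ} {F : Fin (ν + 1) → MvPolynomial (Fin (ν + 1)) K}
    (hF : ∀ i, (F i).IsHomogeneous d) {L K' : Type} [Field L] [Field K'] [Algebra K L]
    [Algebra K K'] (σ : L →ₐ[K] K') (c : K') (y : Fin (ν + 1) → L) (N : ℕ) :
    iter F (fun i => c * σ (y i)) N = fun i => c ^ d ^ N * σ (iter F y N i) := by
  induction N with
  | zero =>
    funext i
    rw [pow_zero, pow_one]
    rfl
  | succ N ih =>
    rw [Pool.Agent.Helper36.iter_succ, ih]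
    funext i
    change aeval (fun i => c ^ d ^ N * σ (iter F y N i)) (F i) = _
    rw [aeval_conj_hom σ (c ^ d ^ N) (iter F y N) (hF i), ← pow_mul, ← pow_succ,
      Pool.Agent.Helper36.iter_succ]
    rfl

theorem Conj.per {d : ℕ} {F : Fin (ν + 1) → MvPolynomial (Fin (ν + 1)) K}
    (hF : ∀ i, (F i).IsHomogeneous d) {A : FinPt ν k K} {K' : Type} [Field K'] [Algebra K K']
    {w : Fin (ν + 1) → K'} (hw : Conj A w) (N : ℕ) (h : ∃ γ : K', iter F w N = γ • w) :
    ∃ γ : A.L, iter F A.y N = γ • A.y := by
  obtain ⟨σ, c, hc, rfl⟩ := hw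
  obtain ⟨γ, hγ⟩ := h
  rw [iter_conj hF σ c A.y N] at hγ
  have hinj : Function.Injective σ := σ.toRingHom.injective
  obtain ⟨i₀, hi₀⟩ : ∃ i, A.y i ≠ 0 := by
    by_contra hcon
    push Not at hcon
    exact A.ne (funext hcon)
  have h1 : ∀ i, c ^ d ^ N * σ (iter F A.y N i) = γ * (c * σ (A.y i)) := fun i => congrFun hγ i
  have hcp : c ^ d ^ N ≠ 0 := pow_ne_zero _ hc
  refine ⟨iter F A.y N i₀ * (A.y i₀)⁻¹, ?_⟩
  funext i
  apply hinj
  have hs0 : σ (A.y i₀) ≠ 0 := by
    intro h0
    exact hi₀ (hinj (by rw [h0, map_zero]))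
  rw [Pi.smul_apply, smul_eq_mul, map_mul, map_mul, map_inv₀]
  apply mul_left_cancel₀ hcp
  have h2 : c ^ d ^ N * (σ (iter F A.y N i₀) * (σ (A.y i₀))⁻¹ * σ (A.y i)) =
      c ^ d ^ N * σ (iter F A.y N i₀) * (σ (A.y i₀))⁻¹ * σ (A.y i) := by ring
  rw [h1 i, h2, h1 i₀]
  field_simp

/-- The polynomials over the extension. -/
theorem goodRed_above {d : ℕ} {F : Fin (ν + 1) → MvPolynomial (Fin (ν + 1)) K}
    {L : Type} [Field L] [Algebra k L] [Algebra K L] [IsScalarTower k K L]
    {b : Place k K} {v : Place k L} (hv : Above v b)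
    {f : Fin (ν + 1) → MvPolynomial (Fin (ν + 1)) k} (hf : GoodRed d b F f) :
    GoodRed d v (fun i => map (algebraMap K L) (F i)) f := by
  obtain ⟨e, he, hve⟩ := hv
  refine ⟨hf.endo, fun i m => ?_⟩
  rw [coeff_map, IsScalarTower.algebraMap_apply k K L, ← map_sub, hve]
  exact pow_lt_one₀ zero_le (hf.red i m) he.ne'

/-- Reduction and iteration over a finite extension. -/
theorem red_iter_ext [IsAlgClosed k] (hK : IsFunctionField k K) {d : ℕ}
    {F : Fin (ν + 1) → MvPolynomial (Fin (ν + 1)) K} (hF : ∀ i, (F i).IsHomogeneous d)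
    {L : Type} [Field L] [Algebra k L] [Algebra K L] [IsScalarTower k K L]
    {b : Place k K} {v : Place k L} (hv : Above v b)
    {f : Fin (ν + 1) → MvPolynomial (Fin (ν + 1)) k} (hf : GoodRed d b F f)
    {y : Fin (ν + 1) → L} {z : Fin (ν + 1) → k} (hz : Red v y z) (m : ℕ) :
    Red v (iter F y m) (iter f z m) := by
  have hg := goodRed_above hv hf
  induction m with
  | zero => exact hz
  | succ m ih =>
    rw [Pool.Agent.Helper36.iter_succ, Pool.Agent.Helper36.iter_succ]
    obtain ⟨hz0, c, hc, h1⟩ := ih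
    refine ⟨step_ne_zero hf.endo hz0, c ^ d, pow_ne_zero _ hc, fun i => ?_⟩
    have h2 := (hg.red i).eval (u := fun i => c * iter F y m i) (z := iter f z m) h1
    have h3 : MvPolynomial.eval (fun i => c * iter F y m i) (map (algebraMap K L) (F i)) =
        aeval (fun i => c * iter F y m i) (F i) := by
      rw [eval_map, aeval_def]
    rw [h3, Pool.Agent.Helper36.aeval_smul_homogeneous (hF i)] at h2
    exact h2

theorem red_inc {L : Type} [Field L] [Algebra k L] [Algebra K L] [IsScalarTower k K L]
    {b : Place k K} {v : Place k L} (hv : Above v b) {y : Fin (ν + 1) → K}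
    {z : Fin (ν + 1) → k} (hz : Red b y z) : Red v (inc L y) z := by
  obtain ⟨e, he, hve⟩ := hv
  obtain ⟨hz0, c, hc, h1⟩ := hz
  refine ⟨hz0, algebraMap K L c, ?_, fun i => ?_⟩
  · intro h0
    exact hc ((map_eq_zero (algebraMap K L)).1 h0)
  · change v.val (algebraMap K L c * algebraMap K L (y i) - algebraMap k L (z i)) < 1
    rw [IsScalarTower.algebraMap_apply k K L, ← map_mul, ← map_sub, hve]
    exact pow_lt_one₀ zero_le (h1 i) he.ne'

end Pool.Agent.Helper63.TN

end

section

namespace Pool.Agent.Helper16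
end Pool.Agent.Helper16
namespace Pool.Agent.Helper30.TKN
end Pool.Agent.Helper30.TKN
namespace Pool.Agent.Helper36
end Pool.Agent.Helper36
namespace Pool.Agent.Helper38.TQ
end Pool.Agent.Helper38.TQ

/-!
# Projective curves are finite over a line
-/

set_option autoImplicit false

namespace Pool.Agent.Helper63.TN

open MvPolynomial
open Pool.Agent.Helper16 (Place IsFunctionField)
open Pool.Agent.Helper36 (step iter)
open Pool.Agent.Helper38.TQ
open Pool.Agent.Helper30.TKN

variable {ν : ℕ} {k K : Type} [Field k] [Field K] [Algebra k K]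

/-- The linear form over `K` with constant coefficients `c`. -/
private noncomputable def clf (K : Type) [Field K] [Algebra k K] (c : Fin (ν + 1) → k) :
    MvPolynomial (Fin (ν + 1)) K :=
  ∑ i, C (algebraMap k K (c i)) * X i

private theorem clf_add (c : Fin (ν + 1) → k) (i : Fin (ν + 1)) (t : k) :
    clf K (c + Pi.single i t) = clf K c + C (algebraMap k K t) * X i := by
  classical
  unfold clf
  simp only [Pi.add_apply, map_add, add_mul, Finset.sum_add_distrib]
  congr 1
  rw [Finset.sum_eq_single i]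
  · simp
  · intro j _ hj
    simp [Pi.single_eq_of_ne hj]
  · intro h; exact absurd (Finset.mem_univ _) h

/-- A nonzero form in three variables does not vanish at some constant point `(-t₀, -t₁, 1)`. -/
private theorem exists_value [Infinite k] {e : ℕ} {P : MvPolynomial (Fin 3) K}
    (hP : P.IsHomogeneous e) (hP0 : P ≠ 0) :
    ∃ t₀ t₁ : k, eval ![-(algebraMap k K t₀), -(algebraMap k K t₁), 1] P ≠ 0 := by
  classical
  by_contra hcon
  push Not at hcon
  have h1 : P * X 2 = 0 := by
    refine funext_set (fun _ => Set.range (algebraMap k K))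
      (fun _ => Set.infinite_range_of_injective (algebraMap k K).injective) fun x hx => ?_
    rw [map_zero, map_mul, eval_X]
    choose y hy using fun j => hx j (Set.mem_univ j)
    rcases eq_or_ne (x 2) 0 with h0 | h0
    · rw [h0, mul_zero]
    · have hy2 : algebraMap k K (y 2) ≠ 0 := by rw [hy 2]; exact h0
      have h2 := hcon (-(y 0 / y 2)) (-(y 1 / y 2))
      have h3 : x = x 2 • ![-(algebraMap k K (-(y 0 / y 2))), -(algebraMap k K (-(y 1 / y 2))),
          1] := by
        funext j
        fin_cases j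
        · simp only [Fin.zero_eta, Pi.smul_apply, Matrix.cons_val_zero, smul_eq_mul, map_neg,
            neg_neg, map_div₀]
          rw [← hy 0, ← hy 2]
          field_simp
        · simp only [Fin.mk_one, Pi.smul_apply, Matrix.cons_val_one, Matrix.cons_val_zero,
            smul_eq_mul, map_neg, neg_neg, map_div₀]
          rw [← hy 1, ← hy 2]
          field_simp
        · simp
      have h4 : eval x P = 0 := by
        rw [h3]
        have h5 := Pool.Agent.Helper36.aeval_smul_homogeneous hP (x 2)
          ![-(algebraMap k K (-(y 0 / y 2))), -(algebraMap k K (-(y 1 / y 2))), 1]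
        rw [show eval (x 2 • ![-(algebraMap k K (-(y 0 / y 2))),
          -(algebraMap k K (-(y 1 / y 2))), 1]) P = aeval (x 2 •
          ![-(algebraMap k K (-(y 0 / y 2))), -(algebraMap k K (-(y 1 / y 2))), 1]) P from
          (congrArg (fun φ => φ P) (coe_aeval_eq_eval _)).symm]
        refine h5.trans ?_
        rw [show aeval ![-(algebraMap k K (-(y 0 / y 2))), -(algebraMap k K (-(y 1 / y 2))), 1] P =
          eval ![-(algebraMap k K (-(y 0 / y 2))), -(algebraMap k K (-(y 1 / y 2))), 1] P from
          congrArg (fun φ => φ P) (coe_aeval_eq_eval _), h2, mul_zero]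
      rw [h4, zero_mul]
  rcases mul_eq_zero.1 h1 with h2 | h2
  · exact hP0 h2
  · exact X_ne_zero _ h2

/-- If any three linear forms satisfy a relation, then two linear forms with coefficients in `k`
generate, together with the ideal, a power of the irrelevant ideal. -/
theorem fin_of_rel3 [IsAlgClosed k] {I : Ideal (MvPolynomial (Fin (ν + 1)) K)} (h : Rel3 I) :
    ∃ (a₀ a₁ : Fin (ν + 1) → k) (s : ℕ), ∀ i, (X i ^ s : MvPolynomial (Fin (ν + 1)) K) ∈
      I ⊔ Ideal.span {∑ j, C (algebraMap k K (a₀ j)) * X j, ∑ j, C (algebraMap k K (a₁ j)) * X j} := by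
  classical
  have : Infinite k := IsAlgClosed.instInfinite
  have key : ∀ S : Finset (Fin (ν + 1)), ∃ c₀ c₁ : Fin (ν + 1) → k,
      ∀ i ∈ S, (X i : MvPolynomial (Fin (ν + 1)) K) ∈
        (I ⊔ Ideal.span {clf K c₀, clf K c₁}).radical := by
    intro S
    induction S using Finset.induction_on with
    | empty => exact ⟨0, 0, by simp⟩
    | insert i S hi ih =>
      obtain ⟨c₀, c₁, hc⟩ := ih
      obtain ⟨P, e, hP, hP0, hPI⟩ := h ![fun j => algebraMap k K (c₀ j),
        fun j => algebraMap k K (c₁ j), Pi.single i 1]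
      obtain ⟨t₀, t₁, ht⟩ := exists_value (k := k) hP hP0
      set c₀' := c₀ + Pi.single i t₀ with hc₀'
      set c₁' := c₁ + Pi.single i t₁ with hc₁'
      set I' := I ⊔ Ideal.span {clf K c₀', clf K c₁'} with hI'
      have hI : I ≤ I' := le_sup_left
      have hl₀ : clf K c₀' ∈ I' := Ideal.mem_sup_right (Ideal.subset_span (Set.mem_insert _ _))
      have hl₁ : clf K c₁' ∈ I' := Ideal.mem_sup_right
        (Ideal.subset_span (Set.mem_insert_of_mem _ rfl))
      have hlX₀ : clf K c₀ = clf K c₀' + C (-(algebraMap k K t₀)) * X i := by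
        rw [hc₀', clf_add, map_neg]
        ring
      have hlX₁ : clf K c₁ = clf K c₁' + C (-(algebraMap k K t₁)) * X i := by
        rw [hc₁', clf_add, map_neg]
        ring
      have hX : (X i : MvPolynomial (Fin (ν + 1)) K) ∈ I'.radical := by
        refine ⟨e, ?_⟩
        have h1 : Ideal.Quotient.mk I' (aeval (fun j => ∑ i', C (![fun j => algebraMap k K (c₀ j),
            fun j => algebraMap k K (c₁ j), Pi.single i 1] j i') * X i' :
            Fin 3 → MvPolynomial (Fin (ν + 1)) K) P) = 0 :=
          Ideal.Quotient.eq_zero_iff_mem.2 (hI hPI)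
        have h3 : ∀ p : MvPolynomial (Fin (ν + 1)) K, Ideal.Quotient.mk I' p =
            Ideal.Quotient.mkₐ K I' p := fun _ => rfl
        rw [h3, MvPolynomial.comp_aeval_apply] at h1
        have h4 : (fun j => Ideal.Quotient.mkₐ K I' (∑ i', C (![fun j => algebraMap k K (c₀ j),
            fun j => algebraMap k K (c₁ j), Pi.single i 1] j i') * X i' :
            MvPolynomial (Fin (ν + 1)) K)) = fun j => Ideal.Quotient.mkₐ K I' (X i) *
              algebraMap K _ (![-(algebraMap k K t₀), -(algebraMap k K t₁), (1 : K)] j) := by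
          funext j
          fin_cases j
          · have h5 : Ideal.Quotient.mkₐ K I' (clf K c₀) = Ideal.Quotient.mkₐ K I' (X i) *
                algebraMap K _ (-(algebraMap k K t₀)) := by
              rw [hlX₀, map_add, map_mul]
              have h6 : Ideal.Quotient.mkₐ K I' (clf K c₀') = 0 :=
                Ideal.Quotient.eq_zero_iff_mem.2 hl₀
              rw [h6, zero_add, mul_comm]
              congr 1
            exact h5
          · have h5 : Ideal.Quotient.mkₐ K I' (clf K c₁) = Ideal.Quotient.mkₐ K I' (X i) *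
                algebraMap K _ (-(algebraMap k K t₁)) := by
              rw [hlX₁, map_add, map_mul]
              have h6 : Ideal.Quotient.mkₐ K I' (clf K c₁') = 0 :=
                Ideal.Quotient.eq_zero_iff_mem.2 hl₁
              rw [h6, zero_add, mul_comm]
              congr 1
            exact h5
          · have h5 : (∑ i', C ((Pi.single i 1 : Fin (ν + 1) → K) i') * X i' :
                MvPolynomial (Fin (ν + 1)) K) = X i := by
              rw [Finset.sum_eq_single i]
              · simp
              · intro j _ hj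
                simp [Pi.single_eq_of_ne hj]
              · intro h; exact absurd (Finset.mem_univ _) h
            change Ideal.Quotient.mkₐ K I' (∑ i', C ((Pi.single i 1 : Fin (ν + 1) → K) i') * X i') =
              Ideal.Quotient.mkₐ K I' (X i) * algebraMap K _ (1 : K)
            rw [h5, map_one, mul_one]
        rw [h4, Pool.Agent.Helper36.aeval_smul_homogeneous hP] at h1
        have h5 : aeval (fun j => algebraMap K (MvPolynomial (Fin (ν + 1)) K ⧸ I')
            (![-(algebraMap k K t₀), -(algebraMap k K t₁), (1 : K)] j)) P =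
            algebraMap K _ (eval ![-(algebraMap k K t₀), -(algebraMap k K t₁), 1] P) := by
          have h6 := aeval_algebraMap_apply (B := MvPolynomial (Fin (ν + 1)) K ⧸ I')
            (![-(algebraMap k K t₀), -(algebraMap k K t₁), (1 : K)]) P
          refine Eq.trans h6 ?_
          exact congrArg _ (congrArg (fun φ => φ P) (coe_aeval_eq_eval _))
        rw [h5] at h1
        have h6 : Ideal.Quotient.mkₐ K I' (X i) ^ e = 0 := by
          have h7 := congrArg (fun w => w * algebraMap K (MvPolynomial (Fin (ν + 1)) K ⧸ I')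
            (eval ![-(algebraMap k K t₀), -(algebraMap k K t₁), 1] P)⁻¹) h1
          simp only [zero_mul] at h7
          rwa [mul_assoc, ← map_mul, mul_inv_cancel₀ ht, map_one, mul_one] at h7
        rw [← map_pow] at h6
        exact Ideal.Quotient.eq_zero_iff_mem.1 h6
      have hlr₀ : clf K c₀ ∈ I'.radical := by
        rw [hlX₀]
        exact I'.radical.add_mem (Ideal.le_radical hl₀) (I'.radical.mul_mem_left _ hX)
      have hlr₁ : clf K c₁ ∈ I'.radical := by
        rw [hlX₁]
        exact I'.radical.add_mem (Ideal.le_radical hl₁) (I'.radical.mul_mem_left _ hX)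
      refine ⟨c₀', c₁', fun j hj => ?_⟩
      rw [Finset.mem_insert] at hj
      rcases hj with rfl | hj
      · exact hX
      · have h1 : I ⊔ Ideal.span {clf K c₀, clf K c₁} ≤ I'.radical := by
          refine sup_le (hI.trans Ideal.le_radical) ?_
          rw [Ideal.span_le]
          rintro w (rfl | rfl)
          · exact hlr₀
          · exact hlr₁
        have h2 := Ideal.radical_mono h1 (hc j hj)
        rwa [Ideal.radical_idem] at h2
  obtain ⟨c₀, c₁, hc⟩ := key Finset.univ
  choose n hn using fun i => hc i (Finset.mem_univ i)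
  refine ⟨c₀, c₁, ∑ i, n i, fun i => ?_⟩
  have h1 : n i ≤ ∑ i, n i := Finset.single_le_sum (fun _ _ => Nat.zero_le _) (Finset.mem_univ i)
  obtain ⟨r, hr⟩ := Nat.exists_eq_add_of_le h1
  rw [hr, pow_add]
  exact Ideal.mul_mem_right _ _ (hn i)

end Pool.Agent.Helper63.TN

end

section

namespace Pool.Agent.Helper16
end Pool.Agent.Helper16
namespace Pool.Agent.Helper30.TKN
end Pool.Agent.Helper30.TKN
namespace Pool.Agent.Helper36
end Pool.Agent.Helper36
namespace Pool.Agent.Helper38.TQ
end Pool.Agent.Helper38.TQ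

/-!
# The curve swept out by a sequence of points
-/

set_option autoImplicit false

namespace Pool.Agent.Helper63.TN

open MvPolynomial
open Pool.Agent.Helper16 (Place IsFunctionField)
open Pool.Agent.Helper36 (step iter)
open Pool.Agent.Helper38.TQ
open Pool.Agent.Helper30.TKN

variable {ν : ℕ} {k K : Type} [Field k] [Field K] [Algebra k K]

/-- The restriction of the polynomial `G` to the line spanned by `v`. -/
noncomputable def vanLine (v : Fin (ν + 1) → K) (G : MvPolynomial (Fin (ν + 1)) K) :
    Polynomial K :=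
  aeval (fun i => Polynomial.C (v i) * Polynomial.X) G

omit [Algebra k K] in
theorem eval_vanLine (v : Fin (ν + 1) → K) (G : MvPolynomial (Fin (ν + 1)) K) (c : K) :
    Polynomial.eval c (vanLine v G) = eval (c • v) G := by
  unfold vanLine
  induction G using MvPolynomial.induction_on with
  | C a => simp
  | add p q hp hq => rw [map_add, Polynomial.eval_add, hp, hq, map_add]
  | mul_X p i hp =>
    rw [map_mul, Polynomial.eval_mul, hp, aeval_X, map_mul, eval_X, Polynomial.eval_mul,
      Polynomial.eval_C, Polynomial.eval_X, Pi.smul_apply, smul_eq_mul, mul_comm (v i) c]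

omit [Algebra k K] in
theorem vanLine_eq_zero [Infinite K] (v : Fin (ν + 1) → K) (G : MvPolynomial (Fin (ν + 1)) K) :
    vanLine v G = 0 ↔ ∀ c : K, eval (c • v) G = 0 := by
  constructor
  · intro h c
    rw [← eval_vanLine, h, Polynomial.eval_zero]
  · intro h
    apply Polynomial.zero_of_eval_zero
    intro c
    rw [eval_vanLine, h]

omit [Algebra k K] in
theorem vanLine_hom [Infinite K] {v : Fin (ν + 1) → K} {G : MvPolynomial (Fin (ν + 1)) K}
    (h : ∀ c : K, eval (c • v) G = 0) (m : ℕ) : eval v (homogeneousComponent m G) = 0 := by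
  set R : Polynomial K := ∑ i ∈ Finset.range (G.totalDegree + 1),
    Polynomial.C (eval v (homogeneousComponent i G)) * Polynomial.X ^ i with hR
  have hR0 : R = 0 := by
    apply Polynomial.zero_of_eval_zero
    intro l
    have h1 := h l
    rw [← sum_homogeneousComponent G, map_sum] at h1
    rw [hR, Polynomial.eval_finsetSum, ← h1]
    refine Finset.sum_congr rfl fun i _ => ?_
    rw [eval_smul_hom (homogeneousComponent_isHomogeneous i G) l v, Polynomial.eval_mul,
      Polynomial.eval_C, Polynomial.eval_pow, Polynomial.eval_X, mul_comm]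
  have hcoef := congrArg (fun p => p.coeff m) hR0
  simp only [hR, Polynomial.finsetSum_coeff, Polynomial.coeff_C_mul_X_pow,
    Polynomial.coeff_zero] at hcoef
  rw [Finset.sum_ite_eq] at hcoef
  split_ifs at hcoef with h2
  · exact hcoef
  · rw [homogeneousComponent_eq_zero, map_zero]
    rw [Finset.mem_range] at h2
    omega

omit [Algebra k K] in
theorem mem_van {U : Ultrafilter ℕ} {x : ℕ → Fin (ν + 1) → K}
    {G : MvPolynomial (Fin (ν + 1)) K} :
    G ∈ van U x ↔ ∀ᶠ n in (U : Filter ℕ), ∀ c : K, eval (c • x n) G = 0 := Iff.rfl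

theorem van_form [Infinite K] {U : Ultrafilter ℕ} {x : ℕ → Fin (ν + 1) → K}
    {G : MvPolynomial (Fin (ν + 1)) K} {e : ℕ} (hG : G.IsHomogeneous e) :
    G ∈ van U x ↔ ∀ᶠ n in (U : Filter ℕ), eval (x n) G = 0 := by
  rw [mem_van]
  constructor
  · intro h
    filter_upwards [h] with n hn
    have h1 := hn 1
    rwa [one_smul] at h1
  · intro h
    filter_upwards [h] with n hn c
    rw [eval_smul_hom hG c (x n), hn, mul_zero]

theorem van_hom [Infinite K] {U : Ultrafilter ℕ} {x : ℕ → Fin (ν + 1) → K}
    {G : MvPolynomial (Fin (ν + 1)) K} (hG : G ∈ van U x) (m : ℕ) :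
    homogeneousComponent m G ∈ van U x := by
  rw [van_form (homogeneousComponent_isHomogeneous m G)]
  filter_upwards [mem_van.1 hG] with n hn
  exact vanLine_hom hn m

theorem van_prime [Infinite K] {U : Ultrafilter ℕ} {x : ℕ → Fin (ν + 1) → K}
    (hx : ∀ n, x n ≠ 0) : (van U x).IsPrime := by
  rw [Ideal.isPrime_iff]
  constructor
  · intro h
    have h1 : (1 : MvPolynomial (Fin (ν + 1)) K) ∈ van U x := by
      rw [h]
      exact Submodule.mem_top
    obtain ⟨n, hn⟩ := (mem_van.1 h1).exists
    have h2 := hn 0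
    rw [map_one] at h2
    exact one_ne_zero h2
  · intro G H hGH
    have h1 : ∀ᶠ n in (U : Filter ℕ), (∀ c : K, eval (c • x n) G = 0) ∨
        ∀ c : K, eval (c • x n) H = 0 := by
      filter_upwards [mem_van.1 hGH] with n hn
      have h2 : vanLine (x n) G * vanLine (x n) H = 0 := by
        unfold vanLine
        rw [← map_mul]
        exact (vanLine_eq_zero (x n) (G * H)).2 hn
      rcases mul_eq_zero.1 h2 with h3 | h3
      · exact Or.inl ((vanLine_eq_zero _ _).1 h3)
      · exact Or.inr ((vanLine_eq_zero _ _).1 h3)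
    exact Ultrafilter.eventually_or.1 h1

theorem van_rel3 [Infinite K] {U : Ultrafilter ℕ} {x : ℕ → Fin (ν + 1) → K}
    (h : OnCurve U x) : Rel3 (van U x) := by
  intro m
  obtain ⟨P, e, hP, hP0, hPv⟩ := h m
  refine ⟨P, e, hP, hP0, ?_⟩
  have hhom : (aeval (fun j => ∑ i, C (m j i) * X i : Fin 3 → MvPolynomial (Fin (ν + 1)) K)
      P).IsHomogeneous (1 * e) := by
    apply hP.aeval
    intro j
    apply IsHomogeneous.sum
    intro i _
    exact isHomogeneous_C_mul_X _ _
  rw [van_form hhom]
  filter_upwards [hPv] with n hn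
  rw [← hn]
  have h3 : ∀ Q : MvPolynomial (Fin 3) K, eval (x n) (aeval
      (fun j => ∑ i, C (m j i) * X i : Fin 3 → MvPolynomial (Fin (ν + 1)) K) Q) =
      eval (fun j => ∑ i, m j i * x n i) Q := by
    intro Q
    induction Q using MvPolynomial.induction_on with
    | C a => simp
    | add p q hp hq => simp only [map_add, hp, hq]
    | mul_X p i hp =>
      rw [map_mul, map_mul, map_mul, hp, aeval_X, eval_X]
      congr 1
      simp
  exact h3 P

theorem van_curve [IsAlgClosed k] {U : Ultrafilter ℕ} {x : ℕ → Fin (ν + 1) → K}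
    (hx : ∀ n, x n ≠ 0) (h : OnCurve U x) : IsCurve (van U x) := by
  have h1 : Infinite k := IsAlgClosed.instInfinite
  have h2 : Infinite K := Infinite.of_injective (algebraMap k K) (algebraMap k K).injective
  refine ⟨van_prime hx, fun G hG m => van_hom hG m, ?_⟩
  obtain ⟨a₀, a₁, s, hs⟩ := fin_of_rel3 (k := k) (van_rel3 h)
  exact ⟨fun j => algebraMap k K (a₀ j), fun j => algebraMap k K (a₁ j), s, hs⟩

theorem van_on {U : Ultrafilter ℕ} {x : ℕ → Fin (ν + 1) → K} (hx : ∀ n, x n ≠ 0) :
    ∀ᶠ n in (U : Filter ℕ), OnI (van U x) (x n) := by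
  obtain ⟨s, hs⟩ := (isNoetherianRing_iff_ideal_fg _).1
    (inferInstance : IsNoetherianRing (MvPolynomial (Fin (ν + 1)) K)) (van U x)
  have h1 : ∀ᶠ n in (U : Filter ℕ), ∀ g ∈ s, eval (x n) g = 0 := by
    rw [Filter.eventually_all_finset]
    intro g hg
    have h2 : g ∈ van U x := by
      rw [← hs]
      exact Ideal.subset_span hg
    filter_upwards [mem_van.1 h2] with n hn
    have h3 := hn 1
    rwa [one_smul] at h3
  filter_upwards [h1] with n hn
  refine ⟨hx n, fun G hG => ?_⟩
  rw [← hs] at hG
  have h4 : ∀ G : MvPolynomial (Fin (ν + 1)) K, aeval (x n) G = eval (x n) G := fun G => by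
    rw [← MvPolynomial.coe_aeval_eq_eval]
    rfl
  induction hG using Submodule.span_induction with
  | mem g hg => rw [h4]; exact hn g hg
  | zero => rw [map_zero]
  | add a b _ _ ha hb => rw [map_add, ha, hb, add_zero]
  | smul a b _ hb => rw [smul_eq_mul, map_mul, hb, mul_zero]

end Pool.Agent.Helper63.TN

end
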