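import Pool.Agent.Helper29.MF.T03
import Pool.Agent.Helper29.MF.T12
import Pool.Agent.Helper29.MF.T06
import Pool.Agent.Helper29.MF.T13

section

set_option autoImplicit false
set_option linter.style.haveILetI false

namespace Pool.Agent.Helper16

open Polynomial IntermediateField IsDedekindDomain

/-- A proper `K`-scheme recorded through its functor of field-valued points together with the
specialisation maps `X(N) → X(κ(v))` at places `v` of `N/K` given by the valuative criterion. -/
structure PtFunctor (K : Type) [Field K] where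
  /-- field-valued points -/
  Pt : (N : Type) → [Field N] → [Algebra K N] → Type
  /-- functoriality -/
  map : {N N' : Type} → [Field N] → [Algebra K N] → [Field N'] → [Algebra K N'] →
    (N →ₐ[K] N') → Pt N → Pt N'
  /-- specialisation at a place -/
  sp : {N : Type} → [Field N] → [Algebra K N] → (v : Place K N) → Pt N → Pt v.resField
  /-- functoriality: composition -/
  map_comp : ∀ {N N' N'' : Type} [Field N] [Algebra K N] [Field N'] [Algebra K N'] [Field N'']
    [Algebra K N''] (φ : N →ₐ[K] N') (ψ : N' →ₐ[K] N'') (x : Pt N),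
    map (ψ.comp φ) x = map ψ (map φ x)

namespace PtFunctor

variable {K : Type} [Field K]

/-- Product of two schemes. -/
def prod (X Y : PtFunctor K) : PtFunctor K where
  Pt N _ _ := X.Pt N × Y.Pt N
  map φ p := (X.map φ p.1, Y.map φ p.2)
  sp v p := (X.sp v p.1, Y.sp v p.2)
  map_comp φ ψ p := by rw [X.map_comp, Y.map_comp]

end PtFunctor

end Pool.Agent.Helper16

end

section

set_option autoImplicit false
set_option linter.style.haveILetI false

namespace Pool.Agent.Helper16

open Polynomial IntermediateField IsDedekindDomain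

section trdeg

/-- Finite extensions of function fields are function fields. -/
theorem IsFunctionField.of_finite {k K L : Type} [Field k] [Field K] [Field L] [Algebra k K]
    [Algebra K L] [Algebra k L] [IsScalarTower k K L] (hK : IsFunctionField k K)
    [FiniteDimensional K L] : IsFunctionField k L := by
  haveI := hK.1
  refine ⟨Algebra.EssFiniteType.comp k K L, ?_⟩
  have h1 := trdeg_add_eq k K (A := L)
  rw [trdeg_eq_zero (R := K) (A := L), add_zero] at h1
  rw [← h1, hK.2]

end trdeg

section restr

variable {k K L N : Type} [Field k] [Field K] [Field L] [Field N] [Algebra k K] [Algebra k L]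
  [Algebra k N] [Algebra L N] [Algebra K N] [IsScalarTower k L N] [IsScalarTower k K N]

end restr

end Pool.Agent.Helper16

end

section

namespace Pool.Agent.Helper16
end Pool.Agent.Helper16
namespace Pool.Agent.Helper30.TP
end Pool.Agent.Helper30.TP
namespace Pool.Agent.Helper63.TK
end Pool.Agent.Helper63.TK

/-!
# The valuation ring of a place
-/

set_option autoImplicit false

namespace Pool.Agent.Helper63.TS

open MvPolynomial
open Pool.Agent.Helper16 (Place IsFunctionField)
open Pool.Agent.Helper30.TP
open Pool.Agent.Helper63.TK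

variable {k K : Type} [Field k] [Field K] [Algebra k K]

theorem RingR_le (b : Place k K) (r : b.ring) : b.val (r : K) ≤ 1 := r.2

theorem RingR_lt (b : Place k K) {x : K} (h : b.val x < 1) : b.val x ≤ WithZero.exp (-1 : ℤ) := by
  by_cases h0 : b.val x = 0
  · rw [h0]
    exact zero_le
  · rw [← WithZero.exp_log h0, ← WithZero.exp_zero, WithZero.exp_lt_exp] at h
    rw [← WithZero.exp_log h0, WithZero.exp_le_exp]
    omega

theorem exists_unif (b : Place k K) :
    ∃ π : b.ring, Unif π ∧ ∀ r : b.ring, π ∣ r ↔ b.val (r : K) < 1 := by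
  obtain ⟨f, hf0, hf⟩ := b.exists_uniformizer
  have hlt : WithZero.exp (-1 : ℤ) < (1 : WithZero (Multiplicative ℤ)) := by
    rw [← WithZero.exp_zero, WithZero.exp_lt_exp]
    omega
  obtain ⟨π, hπ⟩ : ∃ π : b.ring, (π : K) = f := ⟨⟨f, by
    show b.val f ≤ 1
    rw [hf]
    exact hlt.le⟩, rfl⟩
  have hdvd : ∀ r : b.ring, π ∣ r ↔ b.val (r : K) < 1 := by
    intro r
    constructor
    · rintro ⟨s, rfl⟩
      have h1 : ((π * s : b.ring) : K) = f * (s : K) := by rw [← hπ]; rfl
      rw [h1, map_mul, hf]
      exact mul_lt_one_of_lt_of_le hlt (RingR_le b s)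
    · intro h
      have h1 : b.val ((r : K) / f) ≤ 1 := by
        rw [map_div₀, hf, div_le_one₀ (by exact WithZero.exp_pos)]
        exact RingR_lt b h
      refine ⟨⟨(r : K) / f, h1⟩, Subtype.ext ?_⟩
      show (r : K) = (π : K) * ((r : K) / f)
      rw [hπ]
      field_simp
  have hunit : ∀ u : b.ring, ¬ π ∣ u → IsUnit u := by
    intro u hu
    rw [hdvd, not_lt] at hu
    have h1 : b.val (u : K) = 1 := le_antisymm (RingR_le b u) hu
    have hu0 : (u : K) ≠ 0 := by
      intro h
      rw [h, map_zero] at h1
      exact zero_ne_one h1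
    have h2 : b.val ((u : K)⁻¹) ≤ 1 := by rw [map_inv₀, h1, inv_one]
    refine IsUnit.of_mul_eq_one ⟨(u : K)⁻¹, h2⟩ (Subtype.ext ?_)
    show (u : K) * (u : K)⁻¹ = 1
    exact mul_inv_cancel₀ hu0
  have hπ0 : π ≠ 0 := by
    rintro rfl
    exact hf0 hπ.symm
  refine ⟨π, ⟨⟨hπ0, ?_, ?_⟩, hunit, ?_⟩, hdvd⟩
  · intro h
    have h1 : π ∣ 1 := h.dvd
    rw [hdvd] at h1
    have h2 : ((1 : b.ring) : K) = 1 := rfl
    rw [h2, map_one] at h1
    exact lt_irrefl _ h1
  · intro a c hac
    rw [hdvd] at hac
    rw [hdvd, hdvd]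
    by_contra hcon
    rw [not_or, not_lt, not_lt] at hcon
    have h1 : b.val (a : K) = 1 := le_antisymm (RingR_le b a) hcon.1
    have h2 : b.val (c : K) = 1 := le_antisymm (RingR_le b c) hcon.2
    have h3 : ((a * c : b.ring) : K) = (a : K) * (c : K) := rfl
    rw [h3, map_mul, h1, h2, one_mul] at hac
    exact lt_irrefl _ hac
  · intro r hr
    have hr0 : (r : K) ≠ 0 := by
      intro h
      exact hr (Subtype.ext h)
    have hv0 : b.val (r : K) ≠ 0 := by simpa using hr0
    have h1 := RingR_le b r
    rw [← WithZero.exp_log hv0, ← WithZero.exp_zero, WithZero.exp_le_exp] at h1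
    obtain ⟨e, he⟩ : ∃ e : ℕ, (e : ℤ) = - WithZero.log (b.val (r : K)) :=
      ⟨(- WithZero.log (b.val (r : K))).toNat, by omega⟩
    have h2 : b.val ((r : K) / f ^ e) = 1 := by
      rw [map_div₀, map_pow, hf, ← WithZero.exp_log hv0, ← WithZero.exp_nsmul,
        ← WithZero.exp_sub, ← WithZero.exp_zero]
      congr 1
      rw [nsmul_eq_mul]
      omega
    refine ⟨e, ⟨(r : K) / f ^ e, h2.le⟩, ?_, Subtype.ext ?_⟩
    · rw [hdvd]
      show ¬ b.val ((r : K) / f ^ e) < 1
      rw [h2]
      exact lt_irrefl _
    · show (r : K) = ((π ^ e : b.ring) : K) * ((r : K) / f ^ e)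
      rw [SubmonoidClass.coe_pow, hπ, mul_div_cancel₀]
      exact pow_ne_zero _ hf0

theorem RingR_uniq (b : Place k K) {x : K} {c c' : k} (h : b.val (x - algebraMap k K c) < 1)
    (h' : b.val (x - algebraMap k K c') < 1) : c = c' := by
  by_contra hne
  have h1 := b.triv (c' - c) (sub_ne_zero.2 (Ne.symm hne))
  have h2 : algebraMap k K (c' - c) = (x - algebraMap k K c) - (x - algebraMap k K c') := by
    rw [map_sub]
    ring
  have h3 : b.val (algebraMap k K (c' - c)) < 1 := by
    rw [h2]
    exact (b.val.map_sub _ _).trans_lt (max_lt h h')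
  rw [h1] at h3
  exact lt_irrefl _ h3

theorem exists_chi [IsAlgClosed k] (hK : IsFunctionField k K) (b : Place k K) :
    ∃ χ : b.ring →+* k, (∀ c : k, χ (algebraMap k b.ring c) = c) ∧
      ∀ r : b.ring, χ r = 0 ↔ b.val (r : K) < 1 := by
  have hex : ∀ r : b.ring, ∃ c : k, b.val ((r : K) - algebraMap k K c) < 1 :=
    fun r => exists_residue hK b (r : K) (RingR_le b r)
  choose χ hχ using hex
  have hu : ∀ (r : b.ring) (c : k), b.val ((r : K) - algebraMap k K c) < 1 → χ r = c :=
    fun r c h => RingR_uniq b (hχ r) h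
  have hc : ∀ c : k, χ (algebraMap k b.ring c) = c := by
    intro c
    apply hu
    have h1 : ((algebraMap k b.ring c : b.ring) : K) = algebraMap k K c := rfl
    rw [h1, sub_self, map_zero]
    exact zero_lt_one
  have hca : ∀ c : k, b.val (algebraMap k K c) ≤ 1 := fun c => b.val_algebraMap_le c
  refine ⟨{ toFun := χ, map_one' := ?_, map_mul' := ?_, map_zero' := ?_, map_add' := ?_ }, ?_, ?_⟩
  · apply hu
    have h1 : ((1 : b.ring) : K) = 1 := rfl
    rw [h1, map_one, sub_self, map_zero]
    exact zero_lt_one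
  · intro r s
    apply hu
    have h1 : ((r * s : b.ring) : K) - algebraMap k K (χ r * χ s) =
        ((r : K) - algebraMap k K (χ r)) * (s : K) +
          algebraMap k K (χ r) * ((s : K) - algebraMap k K (χ s)) := by
      have h2 : ((r * s : b.ring) : K) = (r : K) * (s : K) := rfl
      rw [h2, map_mul]
      ring
    rw [h1]
    refine (b.val.map_add _ _).trans_lt (max_lt ?_ ?_)
    · rw [map_mul]
      exact mul_lt_one_of_lt_of_le (hχ r) (RingR_le b s)
    · rw [map_mul, mul_comm]
      exact mul_lt_one_of_lt_of_le (hχ s) (hca _)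
  · apply hu
    have h1 : ((0 : b.ring) : K) = 0 := rfl
    rw [h1, map_zero, sub_self, map_zero]
    exact zero_lt_one
  · intro r s
    apply hu
    have h1 : ((r + s : b.ring) : K) - algebraMap k K (χ r + χ s) =
        ((r : K) - algebraMap k K (χ r)) + ((s : K) - algebraMap k K (χ s)) := by
      have h2 : ((r + s : b.ring) : K) = (r : K) + (s : K) := rfl
      rw [h2, map_add]
      ring
    rw [h1]
    exact (b.val.map_add _ _).trans_lt (max_lt (hχ r) (hχ s))
  · exact hc
  · intro r
    show χ r = 0 ↔ _
    constructor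
    · intro h
      have h1 := hχ r
      rw [h, map_zero, sub_zero] at h1
      exact h1
    · intro h
      apply hu
      rw [map_zero, sub_zero]
      exact h

end Pool.Agent.Helper63.TS

end

section

namespace Pool.Agent.Helper16
end Pool.Agent.Helper16
namespace Pool.Agent.Helper30.TP
end Pool.Agent.Helper30.TP
namespace Pool.Agent.Helper36
end Pool.Agent.Helper36
namespace Pool.Agent.Helper63.TK
end Pool.Agent.Helper63.TK

/-!
# Counting the places at which a value specialises to zero
-/

set_option autoImplicit false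

namespace Pool.Agent.Helper63.TS

open MvPolynomial
open Pool.Agent.Helper16 (Place IsFunctionField)
open Pool.Agent.Helper36 (step iter)
open Pool.Agent.Helper30.TP
open Pool.Agent.Helper63.TK

section aux

variable {k K : Type} [Field k] [Field K] [Algebra k K]

/-- The local contribution of a place. -/
noncomputable def countG (e : ℕ) (P : MvPolynomial (Fin 3) K) (y : Fin 3 → K) (b : Place k K) : ℤ :=
  (e : ℤ) * WithZero.log (nrm b y) + WithZero.log (gs b P) - WithZero.log (b.val (eval y P))

end aux

variable {k K : Type} [Field k] [IsAlgClosed k] [Field K] [Algebra k K]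

end Pool.Agent.Helper63.TS

end

section

namespace Pool.Agent.Helper16
end Pool.Agent.Helper16
namespace Pool.Agent.Helper36
end Pool.Agent.Helper36

/-!
# Limit fields
-/

set_option autoImplicit false

namespace Pool.Agent.Helper30.TP

open MvPolynomial
open Pool.Agent.Helper16 (Place IsFunctionField)
open Pool.Agent.Helper36 (step iter)

/-- Sequences which are bounded at `b`, along the ultrafilter. -/
def bddSub {k K : Type} [Field k] [Field K] [Algebra k K] (b : Place k K) (W : Ultrafilter ℕ) :
    Subring (ℕ → K) where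
  carrier := {u | ∃ c : ℕ, ∀ᶠ a in (W : Filter ℕ), b.val (u a) ≤ WithZero.exp (c : ℤ)}
  mul_mem' := by
    rintro u v ⟨c, hc⟩ ⟨c', hc'⟩
    refine ⟨c + c', ?_⟩
    filter_upwards [hc, hc'] with a h1 h2
    rw [Pi.mul_apply, map_mul, Nat.cast_add, WithZero.exp_add]
    exact mul_le_mul' h1 h2
  one_mem' := ⟨0, Filter.Eventually.of_forall fun a => by
    rw [Pi.one_apply, map_one, Nat.cast_zero, WithZero.exp_zero]⟩
  add_mem' := by
    rintro u v ⟨c, hc⟩ ⟨c', hc'⟩
    refine ⟨c + c', ?_⟩
    filter_upwards [hc, hc'] with a h1 h2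
    rw [Pi.add_apply]
    refine (b.val.map_add (u a) (v a)).trans (max_le (h1.trans ?_) (h2.trans ?_))
    · rw [WithZero.exp_le_exp]
      push_cast
      omega
    · rw [WithZero.exp_le_exp]
      push_cast
      omega
  zero_mem' := ⟨0, Filter.Eventually.of_forall fun a => by
    rw [Pi.zero_apply, map_zero]
    exact zero_le⟩
  neg_mem' := by
    rintro u ⟨c, hc⟩
    refine ⟨c, ?_⟩
    filter_upwards [hc] with a h1
    rw [Pi.neg_apply, Valuation.map_neg]
    exact h1

theorem const_mem_bddSub {k K : Type} [Field k] [Field K] [Algebra k K] (b : Place k K)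
    (W : Ultrafilter ℕ) (c : K) : (fun _ => c) ∈ bddSub b W := by
  by_cases hc : c = 0
  · subst hc
    exact (bddSub b W).zero_mem
  · refine ⟨(WithZero.log (b.val c)).toNat, Filter.Eventually.of_forall fun a => ?_⟩
    have h1 : b.val c ≠ 0 := (Valuation.ne_zero_iff _).2 hc
    show b.val c ≤ _
    rw [← WithZero.log_le_iff_le_exp h1]
    exact Int.self_le_toNat _

end Pool.Agent.Helper30.TP

end

section

namespace Pool.Agent.Helper16
end Pool.Agent.Helper16
namespace Pool.Agent.Helper30.TP
end Pool.Agent.Helper30.TP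
namespace Pool.Agent.Helper36
end Pool.Agent.Helper36
namespace Pool.Agent.Helper63.TK
end Pool.Agent.Helper63.TK
namespace Pool.Agent.Helper63.TS
end Pool.Agent.Helper63.TS

/-!
# Orbits along which the derivatives of the iterates collapse: definitions
-/

set_option autoImplicit false

namespace Pool.Agent.Helper89.TC

open MvPolynomial
open Pool.Agent.Helper16 (Place IsFunctionField)
open Pool.Agent.Helper36 (step iter)
open Pool.Agent.Helper30.TP
open Pool.Agent.Helper63.TK
open Pool.Agent.Helper63.TS

/-- A point with coordinates in a finite extension of `K`. -/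
structure FinPt (k K : Type) [Field k] [Field K] [Algebra k K] where
  /-- the field -/
  L : Type
  [fld : Field L]
  [algk : Algebra k L]
  [alg : Algebra K L]
  [tow : IsScalarTower k K L]
  [fin : FiniteDimensional K L]
  /-- the coordinates -/
  y : Fin 3 → L
  ne : y ≠ 0

attribute [instance] FinPt.fld FinPt.algk FinPt.alg FinPt.tow FinPt.fin

variable {k K L : Type} [Field k] [Field K] [Field L] [Algebra k K] [Algebra k L] [Algebra K L]

/-- The vector `x` with the coordinates considered as elements of `L`. -/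
def inc (L : Type) [Field L] [Algebra K L] (x : Fin 3 → K) : Fin 3 → L :=
  fun a => algebraMap K L (x a)

/-- A normalised sequence of representatives of the points `x_(i + N j)`, `j = 0, 1, ...`. -/
structure NSeq (b : Place k K) (F : Fin 3 → MvPolynomial (Fin 3) K) (x : Fin 3 → K) (i N : ℕ)
    (ρ : ℤ) (p : Fin 3) (u : ℕ → Fin 3 → K) : Prop where
  one : ∀ j, u j p = 1
  int : ∀ j a, b.val (u j a) ≤ 1
  prop : ∀ j, PEq (iter F x (i + N * j)) (u j)
  cauchy : ∀ (j : ℕ) (a : Fin 3), b.val (u (j + 1) a - u j a) ≤ WithZero.exp (-(ρ + j))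

/-- The vector `w` over `L` is periodic, close to the point `x_i` at the place `v`, which extends
`b`, and its orbit is close to the curve `h = 0` whenever the orbit of `x_i` is on the curve. -/
structure Est (b : Place k K) (v : Place k L) (F : Fin 3 → MvPolynomial (Fin 3) K)
    (h : MvPolynomial (Fin 3) K) (D : ℕ) (x : Fin 3 → K) (i N : ℕ) (w : Fin 3 → L) : Prop where
  ext : ∀ a : K, v.val (algebraMap K L a) = b.val a
  per : ∃ γ : L, iter F w N = γ • w
  est : ∀ l, eval (iter F x (i + l)) h = 0 → aeval (iter F w l) h ≠ 0 →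
    cl b (iter F x i) (iter F x (i + N)) ≤ countG D (map (algebraMap K L) h) (iter F w l) v
  con : ¬ PEq (inc L (iter F x i)) w →
    cl b (iter F x i) (iter F x (i + N)) ≤ cl v (inc L (iter F x i)) w

end Pool.Agent.Helper89.TC

end

section

namespace Pool.Agent.Helper16
end Pool.Agent.Helper16
namespace Pool.Agent.Helper30.TP
end Pool.Agent.Helper30.TP

/-!
# The place of the limit field
-/

set_option autoImplicit false

namespace Pool.Agent.Helper89.TC

open Pool.Agent.Helper16 (Place)
open Pool.Agent.Helper30.TP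

/-- the infinitesimal sequences -/
private def LimInf {k K : Type} [Field k] [Field K] [Algebra k K] (b : Place k K)
    (W : Ultrafilter ℕ) (u : ℕ → K) : Prop :=
  ∀ c : ℕ, ∀ᶠ a in (W : Filter ℕ), b.val (u a) < WithZero.exp (-(c : ℤ))

private theorem Lim_dich {k K : Type} [Field k] [Field K] [Algebra k K] {b : Place k K}
    {W : Ultrafilter ℕ} {u : ℕ → K} (hu : u ∈ bddSub b W) :
    LimInf b W u ∨ ∃ m : ℤ, ∀ᶠ a in (W : Filter ℕ), b.val (u a) = WithZero.exp m := by
  by_cases h : LimInf b W u
  · exact Or.inl h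
  right
  unfold LimInf at h
  push Not at h
  obtain ⟨c, hc⟩ := h
  have h1 : ∀ᶠ a in (W : Filter ℕ), WithZero.exp (-(c : ℤ)) ≤ b.val (u a) := hc
  obtain ⟨C, hC⟩ := hu
  have h2 : ∀ᶠ a in (W : Filter ℕ), ∃ m ∈ (Set.Icc (-(c : ℤ)) (C : ℤ)),
      b.val (u a) = WithZero.exp m := by
    filter_upwards [h1, hC] with a ha hb
    have h3 : b.val (u a) ≠ 0 := (WithZero.exp_pos.trans_le ha).ne'
    refine ⟨WithZero.log (b.val (u a)), ⟨?_, ?_⟩, (WithZero.exp_log h3).symm⟩
    · rwa [← WithZero.exp_le_exp, WithZero.exp_log h3]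
    · rwa [← WithZero.exp_le_exp, WithZero.exp_log h3]
  rw [Ultrafilter.eventually_exists_mem_iff (Set.finite_Icc _ _)] at h2
  obtain ⟨m, -, hm⟩ := h2
  exact ⟨m, hm⟩

open Classical in
/-- the limit of the values -/
private noncomputable def LimVal {k K : Type} [Field k] [Field K] [Algebra k K] (b : Place k K)
    (W : Ultrafilter ℕ) (u : ℕ → K) : WithZero (Multiplicative ℤ) :=
  if h : ∃ m : ℤ, ∀ᶠ a in (W : Filter ℕ), b.val (u a) = WithZero.exp m then
    WithZero.exp h.choose else 0

private theorem Lim_uniq {k K : Type} [Field k] [Field K] [Algebra k K] {b : Place k K}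
    {W : Ultrafilter ℕ} {u : ℕ → K} {m m' : ℤ}
    (h : ∀ᶠ a in (W : Filter ℕ), b.val (u a) = WithZero.exp m)
    (h' : ∀ᶠ a in (W : Filter ℕ), b.val (u a) = WithZero.exp m') : m = m' := by
  obtain ⟨a, h1, h2⟩ := (h.and h').exists
  have h3 : (WithZero.exp m : WithZero (Multiplicative ℤ)) = WithZero.exp m' := h1.symm.trans h2
  exact WithZero.exp_inj.1 h3

private theorem LimVal_eq {k K : Type} [Field k] [Field K] [Algebra k K] {b : Place k K}
    {W : Ultrafilter ℕ} {u : ℕ → K} {m : ℤ}
    (h : ∀ᶠ a in (W : Filter ℕ), b.val (u a) = WithZero.exp m) :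
    LimVal b W u = WithZero.exp m := by
  have h1 : ∃ m : ℤ, ∀ᶠ a in (W : Filter ℕ), b.val (u a) = WithZero.exp m := ⟨m, h⟩
  rw [LimVal, dif_pos h1, Lim_uniq h1.choose_spec h]

private theorem LimVal_inf {k K : Type} [Field k] [Field K] [Algebra k K] {b : Place k K}
    {W : Ultrafilter ℕ} {u : ℕ → K} (h : LimInf b W u) : LimVal b W u = 0 := by
  rw [LimVal, dif_neg]
  rintro ⟨m, hm⟩
  obtain ⟨a, h1, h2⟩ := (hm.and (h (-m).toNat)).exists
  rw [h1, WithZero.exp_lt_exp] at h2
  have := Int.self_le_toNat (-m)
  omega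

private theorem LimVal_zero {k K : Type} [Field k] [Field K] [Algebra k K] {b : Place k K}
    {W : Ultrafilter ℕ} {u : ℕ → K} (hu : u ∈ bddSub b W) (h : LimVal b W u = 0) :
    LimInf b W u := by
  rcases Lim_dich hu with h1 | ⟨m, h1⟩
  · exact h1
  · rw [LimVal_eq h1] at h
    exact absurd h WithZero.exp_ne_zero

private theorem LimVal_lt {k K : Type} [Field k] [Field K] [Algebra k K] {b : Place k K}
    {W : Ultrafilter ℕ} {u : ℕ → K} {m : ℤ} (hu : u ∈ bddSub b W)
    (h : LimVal b W u < WithZero.exp m) :
    ∀ᶠ a in (W : Filter ℕ), b.val (u a) < WithZero.exp m := by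
  rcases Lim_dich hu with h1 | ⟨m', h1⟩
  · filter_upwards [h1 (-m).toNat] with a ha
    refine ha.trans_le ?_
    rw [WithZero.exp_le_exp]
    have := Int.self_le_toNat (-m)
    omega
  · rw [LimVal_eq h1] at h
    filter_upwards [h1] with a ha
    rwa [ha]

private theorem LimVal_le {k K : Type} [Field k] [Field K] [Algebra k K] {b : Place k K}
    {W : Ultrafilter ℕ} {u : ℕ → K} {m : ℤ} (hu : u ∈ bddSub b W)
    (h : ∀ᶠ a in (W : Filter ℕ), b.val (u a) ≤ WithZero.exp m) :
    LimVal b W u ≤ WithZero.exp m := by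
  rcases Lim_dich hu with h1 | ⟨m', h1⟩
  · rw [LimVal_inf h1]
    exact zero_le
  · rw [LimVal_eq h1]
    obtain ⟨a, h2, h3⟩ := (h1.and h).exists
    rwa [← h2]

private theorem LimVal_ge {k K : Type} [Field k] [Field K] [Algebra k K] {b : Place k K}
    {W : Ultrafilter ℕ} {u : ℕ → K} {m : ℤ} (hu : u ∈ bddSub b W)
    (h : ∀ᶠ a in (W : Filter ℕ), WithZero.exp m ≤ b.val (u a)) :
    WithZero.exp m ≤ LimVal b W u := by
  by_contra h1
  obtain ⟨a, h2, h3⟩ := (h.and (LimVal_lt hu (not_le.1 h1))).exists
  exact absurd h3 (not_lt.2 h2)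

private theorem LimVal_const {k K : Type} [Field k] [Field K] [Algebra k K] (b : Place k K)
    (W : Ultrafilter ℕ) (c : K) : LimVal b W (fun _ => c) = b.val c := by
  by_cases hc : c = 0
  · subst hc
    rw [map_zero]
    refine LimVal_inf fun c => Filter.Eventually.of_forall fun a => ?_
    show b.val 0 < _
    rw [map_zero]
    exact WithZero.exp_pos
  · have h1 : b.val c ≠ 0 := (Valuation.ne_zero_iff _).2 hc
    rw [LimVal_eq (m := WithZero.log (b.val c)) (Filter.Eventually.of_forall fun a =>
      (WithZero.exp_log h1).symm), WithZero.exp_log h1]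

/-- the valuation on the bounded sequences -/
private noncomputable def LimValuation {k K : Type} [Field k] [Field K] [Algebra k K]
    (b : Place k K) (W : Ultrafilter ℕ) :
    Valuation (bddSub b W) (WithZero (Multiplicative ℤ)) where
  toFun u := LimVal b W u.1
  map_zero' := by
    have h := LimVal_const b W 0
    rw [map_zero] at h
    exact h
  map_one' := by
    have h := LimVal_const b W 1
    rw [map_one] at h
    exact h
  map_mul' := by
    intro u v
    show LimVal b W (fun a => u.1 a * v.1 a) = LimVal b W u.1 * LimVal b W v.1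
    have key : ∀ u v : bddSub b W, LimInf b W u.1 → LimInf b W (fun a => v.1 a * u.1 a) := by
      rintro u ⟨v, C, hC⟩ hu c
      filter_upwards [hC, hu (c + C)] with a h1 h2
      show b.val (v a * u.1 a) < _
      rw [map_mul]
      have h3 : (WithZero.exp (-(c : ℤ)) : WithZero (Multiplicative ℤ)) =
          WithZero.exp (C : ℤ) * WithZero.exp (-((c + C : ℕ) : ℤ)) := by
        rw [← WithZero.exp_add]
        congr 1
        push_cast
        ring
      rw [h3]
      exact (mul_le_mul_left h1 _).trans_lt (mul_lt_mul_of_pos_left h2 WithZero.exp_pos)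
    rcases Lim_dich u.2 with h1 | ⟨m, h1⟩
    · have h2 := key u v h1
      have h3 : (fun a => u.1 a * v.1 a) = fun a => v.1 a * u.1 a := by
        funext a
        exact mul_comm _ _
      rw [h3, LimVal_inf h2, LimVal_inf h1, zero_mul]
    · rcases Lim_dich v.2 with h2 | ⟨m', h2⟩
      · rw [LimVal_inf (key v u h2), LimVal_inf h2, mul_zero]
      · rw [LimVal_eq h1, LimVal_eq h2, ← WithZero.exp_add]
        refine LimVal_eq ?_
        filter_upwards [h1, h2] with a h3 h4
        rw [map_mul, h3, h4, ← WithZero.exp_add]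
  map_add_le_max' := by
    intro u v
    show LimVal b W (fun a => u.1 a + v.1 a) ≤ max (LimVal b W u.1) (LimVal b W v.1)
    have hm : (fun a => u.1 a + v.1 a) ∈ bddSub b W := (u + v).2
    rcases Lim_dich hm with h1 | ⟨m, h1⟩
    · rw [LimVal_inf h1]
      exact zero_le
    · rw [LimVal_eq h1]
      by_contra h2
      rw [not_le, max_lt_iff] at h2
      obtain ⟨a, ⟨h3, h4⟩, h5⟩ := ((h1.and (LimVal_lt u.2 h2.1)).and (LimVal_lt v.2 h2.2)).exists
      have h6 := b.val.map_add (u.1 a) (v.1 a)
      rw [h3] at h6
      exact absurd (h6.trans_lt (max_lt h4 h5)) (lt_irrefl _)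

theorem exists_limit_place {k K : Type} [Field k] [Field K] [Algebra k K] (b : Place k K)
    (W : Ultrafilter ℕ) :
    ∃ (K' : Type) (_ : Field K') (_ : Algebra k K') (_ : Algebra K K')
      (_ : IsScalarTower k K K') (b' : Place k K') (r : bddSub b W →+* K'),
      (∀ c : K, r ⟨fun _ => c, const_mem_bddSub b W c⟩ = algebraMap K K' c) ∧
      (∀ c : K, b'.val (algebraMap K K' c) = b.val c) ∧
      (∀ u : bddSub b W, r u = 0 ↔
        ∀ c : ℕ, ∀ᶠ a in (W : Filter ℕ), b.val (u.1 a) < WithZero.exp (-(c : ℤ))) ∧
      (∀ (u : bddSub b W) (m : ℤ), (∀ᶠ a in (W : Filter ℕ), b.val (u.1 a) ≤ WithZero.exp m) →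
        b'.val (r u) ≤ WithZero.exp m) ∧
      (∀ (u : bddSub b W) (m : ℤ), (∀ᶠ a in (W : Filter ℕ), WithZero.exp m ≤ b.val (u.1 a)) →
        WithZero.exp m ≤ b'.val (r u)) := by
  set V := LimValuation b W with hV
  have hVe : ∀ u : bddSub b W, V u = LimVal b W u.1 := fun u => rfl
  set I : Ideal (bddSub b W) := V.supp with hI
  have hmem : ∀ u : bddSub b W, u ∈ I ↔ LimInf b W u.1 := by
    intro u
    rw [hI, Valuation.mem_supp_iff, hVe]
    exact ⟨LimVal_zero u.2, LimVal_inf⟩
  have hmax : I.IsMaximal := by
    rw [Ideal.isMaximal_iff]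
    refine ⟨?_, fun J x hIJ hx hxJ => ?_⟩
    · rw [hI, Valuation.mem_supp_iff, map_one]
      exact one_ne_zero
    · have h0 : ∃ m : ℤ, ∀ᶠ a in (W : Filter ℕ), b.val (x.1 a) = WithZero.exp m := by
        rcases Lim_dich x.2 with h1 | h1
        · exact absurd ((hmem x).2 h1) hx
        · exact h1
      obtain ⟨m, hm⟩ := h0
      have hv : (fun a => (x.1 a)⁻¹) ∈ bddSub b W := by
        refine ⟨(-m).toNat, ?_⟩
        filter_upwards [hm] with a ha
        rw [map_inv₀, ha, ← WithZero.exp_neg, WithZero.exp_le_exp]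
        exact Int.self_le_toNat _
      have h2 : (1 - (⟨_, hv⟩ : bddSub b W) * x : bddSub b W) ∈ I := by
        rw [hmem]
        intro c
        filter_upwards [hm] with a ha
        have h3 : x.1 a ≠ 0 := by
          intro h4
          rw [h4, map_zero] at ha
          exact absurd ha.symm WithZero.exp_ne_zero
        show b.val (1 - (x.1 a)⁻¹ * x.1 a) < _
        rw [inv_mul_cancel₀ h3, sub_self, map_zero]
        exact WithZero.exp_pos
      have h3 : (1 : bddSub b W) = (1 - (⟨_, hv⟩ : bddSub b W) * x) + ⟨_, hv⟩ * x := by ring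
      rw [h3]
      exact J.add_mem (hIJ h2) (J.mul_mem_left _ hxJ)
  letI : Field (bddSub b W ⧸ I) := Ideal.Quotient.field I
  let φ : K →+* (bddSub b W ⧸ I) := (Ideal.Quotient.mk I).comp
    { toFun := fun c => ⟨fun _ => c, const_mem_bddSub b W c⟩
      map_one' := rfl
      map_mul' := fun _ _ => rfl
      map_zero' := rfl
      map_add' := fun _ _ => rfl }
  letI iK : Algebra K (bddSub b W ⧸ I) := φ.toAlgebra
  letI ik : Algebra k (bddSub b W ⧸ I) := (φ.comp (algebraMap k K)).toAlgebra
  have hT : IsScalarTower k K (bddSub b W ⧸ I) := IsScalarTower.of_algebraMap_eq fun x => rfl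
  let v' : Valuation (bddSub b W ⧸ I) (WithZero (Multiplicative ℤ)) := V.onQuot (le_refl _)
  have hv' : ∀ u : bddSub b W, v' (Ideal.Quotient.mk I u) = LimVal b W u.1 := fun u => rfl
  have hc : ∀ c : K, v' (φ c) = b.val c := fun c => by
    show v' (Ideal.Quotient.mk I _) = _
    rw [hv']
    exact LimVal_const b W c
  let b' : Place k (bddSub b W ⧸ I) :=
    { val := v'
      surj := fun γ => by
        obtain ⟨c, hcγ⟩ := b.surj γ
        exact ⟨φ c, (hc c).trans hcγ⟩
      triv := fun a ha => by
        show v' (φ (algebraMap k K a)) = 1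
        rw [hc]
        exact b.triv a ha }
  refine ⟨bddSub b W ⧸ I, inferInstance, ik, iK, hT, b', Ideal.Quotient.mk I, fun c => rfl,
    fun c => hc c, fun u => ?_, fun u m h => ?_, fun u m h => ?_⟩
  · rw [Ideal.Quotient.eq_zero_iff_mem]
    exact hmem u
  · exact LimVal_le u.2 h
  · exact LimVal_ge u.2 h

end Pool.Agent.Helper89.TC

end

section

namespace Pool.Agent.Helper16
end Pool.Agent.Helper16

/-!
# Finite extensions of function fields of one variable
-/

set_option autoImplicit false

namespace Pool.Agent.Helper89.TC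

open Pool.Agent.Helper16 (Place IsFunctionField)

/-- The number of poles of a transcendental function. -/
theorem Scale_finsum {k K : Type} [Field k] [Field K] [Algebra k K] [IsAlgClosed k]
    (hK : IsFunctionField k K) (a : K) (ha : Transcendental k a) :
    (Function.support fun b : Place k K => max 0 (WithZero.log (b.val a))).Finite ∧
    ∑ᶠ b : Place k K, max 0 (WithZero.log (b.val a)) =
      (Module.finrank (IntermediateField.adjoin k {a}) K : ℤ) := by
  have ha0 : a ≠ 0 := by
    rintro rfl
    exact ha isAlgebraic_zero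
  obtain ⟨S, h1, h2, -⟩ := hK.zeros a⁻¹ (Pool.Agent.Helper16.transcendental_inv ha)
  rw [Pool.Agent.Helper16.finrank_inv] at h2
  have hS : ∀ v : Place k K, v ∈ S ↔ 0 < WithZero.log (v.val a) := by
    intro v
    rw [h1, ← v.ord_pos_iff (inv_ne_zero ha0), v.ord_inv]
    show 0 < - -WithZero.log (v.val a) ↔ _
    rw [neg_neg]
  have h3 : Function.support (fun b : Place k K => max 0 (WithZero.log (b.val a))) ⊆
      (S : Set (Place k K)) := by
    intro b hb
    rw [Finset.mem_coe, hS]
    by_contra h
    exact hb (max_eq_left (not_lt.1 h))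
  refine ⟨S.finite_toSet.subset h3, ?_⟩
  rw [finsum_eq_sum_of_support_subset _ h3, ← h2]
  refine Finset.sum_congr rfl fun v hv => ?_
  have h4 : v.ord a⁻¹ = WithZero.log (v.val a) := by
    rw [v.ord_inv]
    show - -WithZero.log (v.val a) = _
    rw [neg_neg]
  rw [h4, max_eq_right ((hS v).1 hv).le, Pool.Agent.Helper30.TP.deg_eq_one hK v]
  simp

/-- Algebraic elements have no poles. -/
theorem Scale_alg {k K : Type} [Field k] [Field K] [Algebra k K]
    (a : K) (ha : IsAlgebraic k a) (b : Place k K) :
    max 0 (WithZero.log (b.val a)) = 0 := by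
  by_cases ha0 : a = 0
  · subst ha0
    simp
  · rw [b.val_eq_one_of_algebraic ha ha0]
    simp

variable {k K : Type} [Field k] [Field K] [Algebra k K] (L : Type) [Field L] [Algebra k L]
  [Algebra K L] [IsScalarTower k K L] [FiniteDimensional K L]

omit [FiniteDimensional K L] in
theorem Scale_finrank (a : K) :
    Module.finrank (IntermediateField.adjoin k {algebraMap K L a}) L =
      Module.finrank K L * Module.finrank (IntermediateField.adjoin k {a}) K := by
  let F := IntermediateField.adjoin k {a}
  have h1 : Module.finrank F K * Module.finrank K L = Module.finrank F L :=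
    Module.finrank_mul_finrank F K L
  have h2 : F.map (IsScalarTower.toAlgHom k K L) =
      IntermediateField.adjoin k {algebraMap K L a} := by
    rw [IntermediateField.adjoin_map, Set.image_singleton]
    rfl
  rw [← h2, mul_comm, h1]
  symm
  refine Algebra.finrank_eq_of_equiv_equiv
    (IntermediateField.equivMap F (IsScalarTower.toAlgHom k K L)).toRingEquiv
    (RingEquiv.refl L) ?_
  ext x
  rfl

theorem isFunctionField_of_finite (hK : IsFunctionField k K) : IsFunctionField k L := by
  exact Pool.Agent.Helper16.IsFunctionField.of_finite hK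

/-- The number of poles, with multiplicities, is multiplied by the degree. -/
theorem finsum_pos_log [IsAlgClosed k] (hK : IsFunctionField k K) (a : K) :
    (Function.support fun v : Place k L =>
      max 0 (WithZero.log (v.val (algebraMap K L a)))).Finite ∧
    ∑ᶠ v : Place k L, max 0 (WithZero.log (v.val (algebraMap K L a))) =
      (Module.finrank K L : ℤ) * ∑ᶠ b : Place k K, max 0 (WithZero.log (b.val a)) := by
  by_cases ha : IsAlgebraic k a
  · have h1 : IsAlgebraic k (algebraMap K L a) := ha.algebraMap
    have h2 : (fun v : Place k L => max 0 (WithZero.log (v.val (algebraMap K L a)))) =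
        fun _ => 0 := funext fun v => Scale_alg _ h1 v
    have h3 : (fun v : Place k K => max 0 (WithZero.log (v.val a))) =
        fun _ => 0 := funext fun v => Scale_alg _ ha v
    rw [h2, h3]
    simp
  · have h1 : Transcendental k (algebraMap K L a) := by
      intro h
      exact ha ((isAlgebraic_algebraMap_iff (algebraMap K L).injective).1 h)
    obtain ⟨h2, h3⟩ := Scale_finsum (isFunctionField_of_finite L hK) _ h1
    obtain ⟨-, h4⟩ := Scale_finsum hK a ha
    refine ⟨h2, ?_⟩
    rw [h3, h4, Scale_finrank]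
    push_cast
    rfl

end Pool.Agent.Helper89.TC

end
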