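import Pool.Agent.Helper29.MF.T26
import Pool.Agent.Helper29.MF.T19

section

/-!
# Geometric sums of a matrix whose eigenvalues generate a torsion free group
-/

set_option autoImplicit false

namespace Pool.Agent.Helper89.TNL

theorem det_geom_ne_zero {k : Type} [Field k] [IsAlgClosed k] [CharZero k] {G : Subgroup kˣ}
    (hG : TorsFree G) {α : Type} [Fintype α] [DecidableEq α] (M : Matrix α α k)
    (hM : EigIn G M) (t : ℕ) (ht : 0 < t) : (∑ i ∈ Finset.range t, M ^ i).det ≠ 0 := by
  intro h0
  by_cases ht1 : t = 1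
  · subst ht1
    simp at h0
  have h2 : 2 ≤ t := by omega
  -- the polynomial
  have hp : (Polynomial.aeval M) (∑ i ∈ Finset.range t, (Polynomial.X : Polynomial k) ^ i) =
      ∑ i ∈ Finset.range t, M ^ i := by
    simp [map_sum]
  have hu : ¬ IsUnit (∑ i ∈ Finset.range t, M ^ i) := by
    rw [Matrix.isUnit_iff_isUnit_det, h0]
    exact not_isUnit_zero
  have hz : (0 : k) ∈ spectrum k (∑ i ∈ Finset.range t, M ^ i) := by
    rw [spectrum.zero_mem_iff]
    exact hu
  have hdeg : 0 < (∑ i ∈ Finset.range t, (Polynomial.X : Polynomial k) ^ i).degree := by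
    have h1 : ((∑ i ∈ Finset.range t, (Polynomial.X : Polynomial k) ^ i)).coeff (t - 1) = 1 := by
      rw [Polynomial.finsetSum_coeff]
      rw [Finset.sum_eq_single (t - 1)]
      · simp
      · intro b _ hb
        rw [Polynomial.coeff_X_pow]
        rw [if_neg (fun h => hb h.symm)]
      · intro h
        exact absurd (Finset.mem_range.2 (by omega)) h
    have h3 : ((t - 1 : ℕ) : WithBot ℕ) ≤
        (∑ i ∈ Finset.range t, (Polynomial.X : Polynomial k) ^ i).degree :=
      Polynomial.le_degree_of_ne_zero (by rw [h1]; exact one_ne_zero)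
    refine lt_of_lt_of_le ?_ h3
    exact_mod_cast (by omega : 0 < t - 1)
  rw [← hp, spectrum.map_polynomial_aeval_of_degree_pos M _ hdeg] at hz
  obtain ⟨μ, hμ, hev⟩ := hz
  have hr : M.charpoly.IsRoot μ := Matrix.mem_spectrum_iff_isRoot_charpoly.1 hμ
  obtain ⟨u, huG, hu'⟩ := hM μ hr
  have hev' : ∑ i ∈ Finset.range t, μ ^ i = 0 := by
    simpa [Polynomial.eval_finsetSum] using hev
  have hpow : μ ^ t = 1 := by
    have := geom_sum_mul μ t
    rw [hev', zero_mul] at this
    exact (sub_eq_zero.1 this.symm)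
  have hu1 : u ^ t = 1 := by
    apply Units.ext
    rw [Units.val_pow_eq_pow_val, hu', hpow, Units.val_one]
  have h1 := hG u huG t ht hu1
  have hμ1 : μ = 1 := by rw [← hu', h1, Units.val_one]
  rw [hμ1] at hev'
  simp at hev'
  omega

end Pool.Agent.Helper89.TNL

end

section

/-!
# Either the orbit converges or its points are separated
-/

set_option autoImplicit false

namespace Pool.Agent.Helper89.TNL

open MvPolynomial

theorem dichotomy {R k : Type} [CommRing R] [IsDomain R] [Field k] [Algebra k R] {π : R}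
    {χ : R →+* k} (hR : Res π χ) {α β : Type} [Fintype α] [DecidableEq α] [Fintype β]
    [DecidableEq β] {M₁ : Matrix α α k} (hM₁ : M₁.det ≠ 0)
    (hgeo : ∀ t, 0 < t → (∑ i ∈ Finset.range t, M₁ ^ i).det ≠ 0) {p : ℕ → α ⊕ β → R}
    (hcontr : ∀ j j', ∃ N : α ⊕ β → α ⊕ β → R, ∀ i, p (j + 1) i - p (j' + 1) i =
      ∑ l, (algebraMap k R (Matrix.fromBlocks M₁ 0 0 0 i l) + π * N i l) * (p j l - p j' l)) :
    Conv π (fun s => p (s + 1)) p ∨
    ∃ (j₀ e : ℕ) (ξ : ℕ → α ⊕ β → R), (∀ t i, p (j₀ + t) i = p j₀ i + π ^ e * ξ t i) ∧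
      ∀ t t', t ≠ t' → ∃ a : α, ¬ π ∣ ξ t (Sum.inl a) - ξ t' (Sum.inl a) := by
  classical
  by_cases hc : Conv π (fun s => p (s + 1)) p
  · exact Or.inl hc
  right
  have hπ : π ≠ 0 := hR.unif.prime.ne_zero
  have hstep : ∀ s, ∃ N : α ⊕ β → α ⊕ β → R, ∀ i, p (s + 1 + 1) i - p (s + 1) i =
      ∑ l, (algebraMap k R (Matrix.fromBlocks M₁ 0 0 0 i l) + π * N i l) *
        (p (s + 1) l - p s l) := fun s => hcontr (s + 1) s
  have mono : ∀ e s, (∀ i, π ^ e ∣ p (s + 1) i - p s i) →
      ∀ i, π ^ e ∣ p (s + 1 + 1) i - p (s + 1) i := by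
    intro e s h i
    obtain ⟨N, hN⟩ := hstep s
    rw [hN i]
    exact Finset.dvd_sum fun l _ => Dvd.dvd.mul_left (h l) _
  have mono' : ∀ e s t, (∀ i, π ^ e ∣ p (s + 1) i - p s i) →
      ∀ i, π ^ e ∣ p (s + t + 1) i - p (s + t) i := by
    intro e s t h
    induction t with
    | zero => simpa using h
    | succ t ih => exact mono e (s + t) ih
  have hex : ∃ I, ∀ s, ¬ ∀ i, π ^ I ∣ p (s + 1) i - p s i := by
    by_contra hcon
    push Not at hcon
    apply hc
    intro I
    obtain ⟨s, hs⟩ := hcon I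
    refine ⟨s, fun s' hs' i => ?_⟩
    obtain ⟨t, rfl⟩ := Nat.exists_eq_add_of_le hs'
    exact mono' I s t hs i
  obtain ⟨e, j₀, hj₀, hmax⟩ : ∃ e j₀, (∀ i, π ^ e ∣ p (j₀ + 1) i - p j₀ i) ∧
      ∀ s, ¬ ∀ i, π ^ (e + 1) ∣ p (s + 1) i - p s i := by
    have h1 := Nat.find_spec hex
    have h2 : Nat.find hex ≠ 0 := by
      intro h0
      rw [h0] at h1
      exact h1 0 (fun i => by simp)
    obtain ⟨e, he⟩ := Nat.exists_eq_succ_of_ne_zero h2
    have h3 : ¬ ∀ s, ¬ ∀ i, π ^ e ∣ p (s + 1) i - p s i :=
      Nat.find_min hex (by omega)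
    push Not at h3
    obtain ⟨j₀, hj₀⟩ := h3
    rw [he] at h1
    exact ⟨e, j₀, hj₀, h1⟩
  have hu : ∀ t, ∃ u : α ⊕ β → R, ∀ i, p (j₀ + t + 1) i - p (j₀ + t) i = π ^ e * u i := by
    intro t
    choose u hu using mono' e j₀ t hj₀
    exact ⟨u, hu⟩
  choose u hu using hu
  have hpe : π ^ e ≠ 0 := pow_ne_zero _ hπ
  have hnz : ∀ t, ∃ i, χ (u t i) ≠ 0 := by
    intro t
    by_contra hcon
    push Not at hcon
    apply hmax (j₀ + t)
    intro i
    rw [hu t i, pow_succ]
    exact mul_dvd_mul_left _ ((hR.ker _).1 (hcon i))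
  have hχπ : χ π = 0 := (hR.ker π).2 dvd_rfl
  have hrec : ∀ t i, χ (u (t + 1) i) =
      ∑ l, Matrix.fromBlocks M₁ 0 0 0 i l * χ (u t l) := by
    intro t i
    obtain ⟨N, hN⟩ := hstep (j₀ + t)
    have h1 : u (t + 1) i = ∑ l, (algebraMap k R (Matrix.fromBlocks M₁ 0 0 0 i l) +
        π * N i l) * u t l := by
      apply mul_left_cancel₀ hpe
      have h2 := hu (t + 1) i
      have h3 := hN i
      rw [show j₀ + (t + 1) = j₀ + t + 1 by ring] at h2
      rw [← h2, h3, Finset.mul_sum]
      refine Finset.sum_congr rfl fun l _ => ?_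
      rw [hu t l]
      ring
    rw [h1, map_sum]
    refine Finset.sum_congr rfl fun l _ => ?_
    rw [map_mul, map_add, map_mul, hχπ, hR.sec]
    ring
  have hinl : ∀ t, (fun a => χ (u (t + 1) (Sum.inl a))) =
      M₁.mulVec (fun a => χ (u t (Sum.inl a))) := by
    intro t
    funext a
    rw [hrec t, Fintype.sum_sum_type]
    simp [Matrix.mulVec, dotProduct]
  have hinr : ∀ t b, χ (u (t + 1) (Sum.inr b)) = 0 := by
    intro t b
    rw [hrec t, Fintype.sum_sum_type]
    simp
  have hpow : ∀ t, (fun a => χ (u t (Sum.inl a))) =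
      (M₁ ^ t).mulVec (fun a => χ (u 0 (Sum.inl a))) := by
    intro t
    induction t with
    | zero => simp
    | succ t ih => rw [hinl t, ih, Matrix.mulVec_mulVec, pow_succ']
  have hw0 : (fun a => χ (u 0 (Sum.inl a))) ≠ 0 := by
    intro h0
    obtain ⟨i, hi⟩ := hnz 1
    rcases i with a | b
    · apply hi
      have := congrFun (hpow 1) a
      rw [h0, Matrix.mulVec_zero] at this
      exact this
    · exact hi (hinr 0 b)
  refine ⟨j₀, e, fun t i => ∑ s ∈ Finset.range t, u s i, ?_, ?_⟩
  · intro t i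
    induction t with
    | zero => simp
    | succ t ih =>
      have h7 := hu t i
      have ih' : p (j₀ + t) i = p j₀ i + π ^ e * ∑ s ∈ Finset.range t, u s i := ih
      show p (j₀ + (t + 1)) i = p j₀ i + π ^ e * ∑ s ∈ Finset.range (t + 1), u s i
      rw [Finset.sum_range_succ, show j₀ + (t + 1) = j₀ + t + 1 by ring]
      linear_combination h7 + ih'
  · have key : ∀ t m, 0 < m → ∃ a : α,
        χ (∑ s ∈ Finset.range (t + m), u s (Sum.inl a) -
          ∑ s ∈ Finset.range t, u s (Sum.inl a)) ≠ 0 := by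
      intro t m hm
      by_contra hcon
      push Not at hcon
      have h1 : (∑ i ∈ Finset.range m, M₁ ^ i).mulVec
          ((M₁ ^ t).mulVec (fun a => χ (u 0 (Sum.inl a)))) = 0 := by
        funext a
        have h2 := hcon a
        rw [Finset.sum_range_add, add_sub_cancel_left, map_sum] at h2
        rw [Matrix.mulVec_mulVec, Finset.sum_mul, Matrix.sum_mulVec, Finset.sum_apply,
          Pi.zero_apply, ← h2]
        refine Finset.sum_congr rfl fun s _ => ?_
        have h3 := congrFun (hpow (t + s)) a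
        rw [h3, add_comm t s, pow_add]
      have h4 := Matrix.eq_zero_of_mulVec_eq_zero (hgeo m hm) h1
      have h5 : (M₁ ^ t).det ≠ 0 := by
        rw [Matrix.det_pow]
        exact pow_ne_zero _ hM₁
      exact hw0 (Matrix.eq_zero_of_mulVec_eq_zero h5 h4)
    intro t t' htt
    rcases Nat.lt_or_gt_of_ne htt with h | h
    · obtain ⟨m, rfl⟩ := Nat.exists_eq_add_of_lt h
      obtain ⟨a, ha⟩ := key t (m + 1) (by omega)
      refine ⟨a, fun hd => ha ?_⟩
      have h6 := (hR.ker _).2 hd
      rw [← neg_sub, map_neg, neg_eq_zero]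
      exact h6
    · obtain ⟨m, rfl⟩ := Nat.exists_eq_add_of_lt h
      obtain ⟨a, ha⟩ := key t' (m + 1) (by omega)
      exact ⟨a, fun hd => ha ((hR.ker _).2 hd)⟩

end Pool.Agent.Helper89.TNL

end

section

namespace Pool.Agent.Helper16
end Pool.Agent.Helper16
namespace Pool.Agent.Helper30.TKN
end Pool.Agent.Helper30.TKN
namespace Pool.Agent.Helper36
end Pool.Agent.Helper36
namespace Pool.Agent.Helper38.TQ
end Pool.Agent.Helper38.TQ

/-!
# The polynomials which define the iterates
-/

set_option autoImplicit false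

namespace Pool.Agent.Helper89.TNL

open MvPolynomial
open Pool.Agent.Helper16 (Place IsFunctionField)
open Pool.Agent.Helper36 (step iter)
open Pool.Agent.Helper38.TQ
open Pool.Agent.Helper30.TKN

variable {ν : ℕ}

section iterN

variable {K : Type} [Field K]

theorem iterN_eval (F : Fin (ν + 1) → MvPolynomial (Fin (ν + 1)) K)
    (P : MvPolynomial (Fin (ν + 1)) K) (y : Fin (ν + 1) → K) (N : ℕ) :
    eval y ((fun P => aeval F P)^[N] P) = eval (iter F y N) P := by
  have h1 : ∀ (Q : MvPolynomial (Fin (ν + 1)) K) (z : Fin (ν + 1) → K),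
      eval z (aeval F Q) = eval (step F z) Q := by
    intro Q z
    rw [← coe_aeval_eq_eval, RingHom.coe_coe, comp_aeval_apply, ← coe_aeval_eq_eval,
      RingHom.coe_coe]
    rfl
  induction N generalizing P with
  | zero => rfl
  | succ N ih =>
    rw [Function.iterate_succ_apply, ih, h1, Pool.Agent.Helper36.iter_succ]

theorem iterN_eq (F : Fin (ν + 1) → MvPolynomial (Fin (ν + 1)) K)
    (P : MvPolynomial (Fin (ν + 1)) K) (N : ℕ) :
    (fun P => aeval F P)^[N] P = aeval (itN F N) P := by
  induction N with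
  | zero =>
    have h1 : itN F 0 = (X : Fin (ν + 1) → MvPolynomial (Fin (ν + 1)) K) := rfl
    rw [h1, aeval_X_left, AlgHom.id_apply]
    rfl
  | succ N ih =>
    have h1 : itN F (N + 1) =
        fun i => (aeval F : _ →ₐ[K] MvPolynomial (Fin (ν + 1)) K) (itN F N i) := by
      funext i
      unfold itN
      rw [Function.iterate_succ_apply']
    rw [Function.iterate_succ_apply', ih, h1]
    exact comp_aeval_apply _ _ _

theorem iterN_hom {d : ℕ} {F : Fin (ν + 1) → MvPolynomial (Fin (ν + 1)) K}
    (hF : ∀ i, (F i).IsHomogeneous d) {P : MvPolynomial (Fin (ν + 1)) K} {e : ℕ}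
    (hP : P.IsHomogeneous e) (N : ℕ) :
    ((fun P => aeval F P)^[N] P).IsHomogeneous (d ^ N * e) := by
  induction N with
  | zero => rw [pow_zero, one_mul]; exact hP
  | succ N ih =>
    rw [Function.iterate_succ_apply']
    have h1 := ih.aeval F hF
    have h2 : d ^ (N + 1) * e = d * (d ^ N * e) := by ring
    rw [h2]
    exact h1

theorem iterN_chain (g : Fin (ν + 1) → MvPolynomial (Fin (ν + 1)) K)
    (P : MvPolynomial (Fin (ν + 1)) K) (j : Fin (ν + 1)) :
    pderiv j (aeval g P) = ∑ l, aeval g (pderiv l P) * pderiv j (g l) := by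
  induction P using MvPolynomial.induction_on with
  | C a => simp
  | add p q hp hq =>
    simp only [map_add, hp, hq, add_mul, Finset.sum_add_distrib]
  | mul_X p n hp =>
    simp only [map_mul, aeval_X, Derivation.leibniz, hp, smul_eq_mul, map_add, add_mul,
      Finset.sum_add_distrib]
    congr 1
    · rw [Finset.sum_eq_single n]
      · simp
      · intro l _ hl
        rw [pderiv_X_of_ne hl.symm]
        simp
      · intro h
        exact absurd (Finset.mem_univ n) h
    · rw [Finset.mul_sum]
      exact Finset.sum_congr rfl fun l _ => by ring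

end iterN

theorem eval_itN {K : Type} [Field K] (F : Fin (ν + 1) → MvPolynomial (Fin (ν + 1)) K)
    (y : Fin (ν + 1) → K) (N : ℕ) (i : Fin (ν + 1)) : eval y (itN F N i) = iter F y N i := by
  unfold itN
  rw [iterN_eval, eval_X]

theorem itN_hom {K : Type} [Field K] {d : ℕ} {F : Fin (ν + 1) → MvPolynomial (Fin (ν + 1)) K}
    (hF : ∀ i, (F i).IsHomogeneous d) (N : ℕ) (i : Fin (ν + 1)) :
    (itN F N i).IsHomogeneous (d ^ N) := by
  have h1 := iterN_hom hF (isHomogeneous_X K i) N
  rwa [mul_one] at h1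

theorem pderiv_itN {K : Type} [Field K] (F : Fin (ν + 1) → MvPolynomial (Fin (ν + 1)) K)
    (y : Fin (ν + 1) → K) (N : ℕ) (i j : Fin (ν + 1)) :
    eval y (pderiv j (itN F N i)) = mult F y N i j := by
  induction N generalizing i with
  | zero =>
    have h1 : mult F y 0 = 1 := rfl
    have h2 : itN F 0 i = X i := rfl
    rw [h1, h2, pderiv_X, Matrix.one_apply]
    rcases eq_or_ne i j with h | h
    · subst h; simp
    · rw [Pi.single_eq_of_ne h, map_zero, if_neg h]
  | succ N ih =>
    have h1 : mult F y (N + 1) = jac F (iter F y N) * mult F y N := rfl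
    have h2 : itN F (N + 1) i = aeval (itN F N) (F i) := by
      have h3 : itN F (N + 1) i = (fun P => aeval F P)^[N] (F i) := by
        unfold itN
        rw [Function.iterate_succ_apply]
        simp only [aeval_X]
      rw [h3, iterN_eq]
    have h3 : ∀ P : MvPolynomial (Fin (ν + 1)) K,
        eval y (aeval (itN F N) P) = eval (iter F y N) P := by
      intro P
      rw [← iterN_eq, iterN_eval]
    rw [h1, h2, iterN_chain, map_sum, Matrix.mul_apply]
    refine Finset.sum_congr rfl fun l _ => ?_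
    rw [map_mul, ih, h3]
    rfl

theorem iterN_redP {k K : Type} [Field k] [Field K] [Algebra k K] {b : Place k K}
    {F : Fin (ν + 1) → MvPolynomial (Fin (ν + 1)) K}
    {f : Fin (ν + 1) → MvPolynomial (Fin (ν + 1)) k}
    (hf : ∀ i, RedP b (F i) (f i)) {P : MvPolynomial (Fin (ν + 1)) K}
    {p : MvPolynomial (Fin (ν + 1)) k} (hP : RedP b P p) :
    RedP b (aeval F P) (aeval f p) := by
  classical
  -- the polynomial `P - p` has coefficients in the maximal ideal
  have hC : ∀ (c : k), RedP b (C (algebraMap k K c) : MvPolynomial (Fin (ν + 1)) K) (C c) := by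
    intro c
    have h := redP_map b (C c : MvPolynomial (Fin (ν + 1)) k)
    rwa [map_C] at h
  have h0 : ∀ (q : MvPolynomial (Fin (ν + 1)) k),
      RedP b (aeval F (map (algebraMap k K) q)) (aeval f q) := by
    intro q
    induction q using MvPolynomial.induction_on with
    | C a => rw [map_C, aeval_C, aeval_C]; exact hC a
    | add p q hp hq => rw [map_add, map_add, map_add]; exact hp.add hq
    | mul_X p n hp => rw [map_mul, map_X, map_mul, map_mul, aeval_X, aeval_X]; exact hp.mul (hf n)
  -- small polynomials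
  have hs : ∀ Q : MvPolynomial (Fin (ν + 1)) K, RedP b Q 0 → RedP b (aeval F Q) 0 := by
    intro Q hQ
    rw [aeval_def, eval₂_eq']
    have hz : ∀ m : Fin (ν + 1) →₀ ℕ,
        RedP b (C (Q.coeff m) : MvPolynomial (Fin (ν + 1)) K) 0 := by
      intro m l
      rw [coeff_zero, map_zero, sub_zero, coeff_C]
      split_ifs with h
      · have h2 := hQ m
        rwa [coeff_zero, map_zero, sub_zero] at h2
      · rw [map_zero]
        exact zero_lt_one
    have h3 : RedP b (∑ m ∈ Q.support, C (Q.coeff m) * ∏ i, F i ^ m i)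
        (∑ m ∈ Q.support, 0 * ∏ i, f i ^ m i) :=
      RedP.sum _ fun m _ => (hz m).mul (RedP.prod _ fun i _ => (hf i).pow (m i))
    simp only [zero_mul, Finset.sum_const_zero] at h3
    exact h3
  have h1 : RedP b (P - map (algebraMap k K) p) 0 := by
    have h2 := hP.add (redP_map b p).neg
    rwa [add_neg_cancel, ← sub_eq_add_neg] at h2
  have h2 := (hs _ h1).add (h0 p)
  rw [zero_add] at h2
  have h3 : aeval F (P - map (algebraMap k K) p) + aeval F (map (algebraMap k K) p) =
      aeval F P := by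
    rw [map_sub, sub_add_cancel]
  rwa [h3] at h2

theorem redP_itN {k K : Type} [Field k] [Field K] [Algebra k K] {b : Place k K}
    {F : Fin (ν + 1) → MvPolynomial (Fin (ν + 1)) K}
    {f : Fin (ν + 1) → MvPolynomial (Fin (ν + 1)) k} (hf : ∀ i, RedP b (F i) (f i)) (N : ℕ)
    (i : Fin (ν + 1)) : RedP b (itN F N i) (itN f N i) := by
  unfold itN
  induction N with
  | zero => exact redP_C_X b i
  | succ N ih =>
    rw [Function.iterate_succ_apply', Function.iterate_succ_apply']
    exact iterN_redP hf ih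

theorem iterN_step_eq {k : Type} [Field k] (f : Fin (ν + 1) → MvPolynomial (Fin (ν + 1)) k)
    (z : Fin (ν + 1) → k) (i : Fin (ν + 1)) : step f z i = eval z (f i) := by
  change aeval z (f i) = _
  exact congrArg (fun φ => φ (f i)) (coe_aeval_eq_eval z)

theorem iterN_euler {k : Type} [Field k] {d : ℕ}
    {f : Fin (ν + 1) → MvPolynomial (Fin (ν + 1)) k}
    (hf : ∀ i, (f i).IsHomogeneous d) (z : Fin (ν + 1) → k) :
    (jac f z).mulVec z = (d : k) • step f z := by
  funext i
  have h1 := congrArg (eval z) (hf i).sum_X_mul_pderiv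
  rw [map_sum, map_nsmul, nsmul_eq_mul] at h1
  rw [Pi.smul_apply, smul_eq_mul, iterN_step_eq, ← h1, Matrix.mulVec, dotProduct]
  refine Finset.sum_congr rfl fun j _ => ?_
  rw [map_mul, eval_X, mul_comm]
  rfl

/-- The derivative of the iterate in the direction of the point itself. -/
theorem mult_mulVec_self {k : Type} [Field k] {d : ℕ}
    {f : Fin (ν + 1) → MvPolynomial (Fin (ν + 1)) k} (hf : ∀ i, (f i).IsHomogeneous d)
    (z : Fin (ν + 1) → k) (N : ℕ) :
    (mult f z N).mulVec z = ((d : k) ^ N) • iter f z N := by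
  induction N with
  | zero =>
    change (1 : Matrix (Fin (ν + 1)) (Fin (ν + 1)) k).mulVec z = (d : k) ^ 0 • z
    rw [Matrix.one_mulVec, pow_zero, one_smul]
  | succ N ih =>
    change (jac f (iter f z N) * mult f z N).mulVec z = _
    rw [← Matrix.mulVec_mulVec, ih, Matrix.mulVec_smul, iterN_euler hf, smul_smul,
      Pool.Agent.Helper36.iter_succ, pow_succ]

theorem iterN_iter_smul {k : Type} [Field k] {d : ℕ}
    {f : Fin (ν + 1) → MvPolynomial (Fin (ν + 1)) k}
    (hf : ∀ i, (f i).IsHomogeneous d) {s : k} (hs : s ≠ 0) (z : Fin (ν + 1) → k) (n : ℕ) :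
    ∃ c : k, c ≠ 0 ∧ iter f (s • z) n = c • iter f z n := by
  induction n with
  | zero => exact ⟨s, hs, rfl⟩
  | succ n ih =>
    obtain ⟨c, hc, h⟩ := ih
    refine ⟨c ^ d, pow_ne_zero _ hc, ?_⟩
    rw [Pool.Agent.Helper36.iter_succ, Pool.Agent.Helper36.iter_succ, h]
    funext i
    exact Pool.Agent.Helper36.aeval_smul_homogeneous (hf i) c _

theorem iterN_jac_smul {k : Type} [Field k] {d : ℕ}
    {f : Fin (ν + 1) → MvPolynomial (Fin (ν + 1)) k}
    (hf : ∀ i, (f i).IsHomogeneous d) (s : k) (z : Fin (ν + 1) → k) :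
    jac f (s • z) = s ^ (d - 1) • jac f z := by
  ext i j
  exact eval_smul_hom ((hf i).pderiv) s z

theorem mult_smul {k : Type} [Field k] {d : ℕ}
    {f : Fin (ν + 1) → MvPolynomial (Fin (ν + 1)) k} (hf : ∀ i, (f i).IsHomogeneous d)
    (z : Fin (ν + 1) → k) {c : k} (hc : c ≠ 0) (N : ℕ) :
    ∃ c' : k, c' ≠ 0 ∧ mult f (c • z) N = c' • mult f z N := by
  induction N with
  | zero => exact ⟨1, one_ne_zero, (one_smul k _).symm⟩
  | succ n ih =>
    obtain ⟨a, ha, h⟩ := ih
    obtain ⟨e, he, h'⟩ := iterN_iter_smul hf hc z n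
    refine ⟨e ^ (d - 1) * a, mul_ne_zero (pow_ne_zero _ he) ha, ?_⟩
    change jac f (iter f (c • z) n) * mult f (c • z) n = _ • (jac f (iter f z n) * mult f z n)
    rw [h, h', iterN_jac_smul hf, Matrix.smul_mul, Matrix.mul_smul, smul_smul]

theorem mult_addN {k : Type} [Field k] (f : Fin (ν + 1) → MvPolynomial (Fin (ν + 1)) k)
    (z : Fin (ν + 1) → k) (M N : ℕ) : mult f z (M + N) = mult f (iter f z M) N * mult f z M := by
  induction N with
  | zero =>
    change mult f z M = 1 * mult f z M
    rw [one_mul]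
  | succ N ih =>
    change jac f (iter f z (M + N)) * mult f z (M + N) =
      jac f (iter f (iter f z M) N) * mult f (iter f z M) N * mult f z M
    rw [ih, Matrix.mul_assoc, Nat.add_comm M N, Pool.Agent.Helper36.iter_add]

end Pool.Agent.Helper89.TNL

end

section

/-!
# Polynomials in a chart
-/

set_option autoImplicit false

namespace Pool.Agent.Helper89.TNL

open MvPolynomial

variable {ν : ℕ} {S : Type} [CommRing S] {ι : Type} [Fintype ι] [DecidableEq ι]

theorem eval_chN (e : Option ι → Fin (ν + 1) → S) (P : MvPolynomial (Fin (ν + 1)) S)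
    (q : ι → S) : eval q (chN e P) = eval (ptN e q) P := by
  unfold chN
  induction P using MvPolynomial.induction_on with
  | C a => simp
  | add p r hp hr => rw [map_add, map_add, hp, hr, map_add]
  | mul_X p i hp =>
    rw [map_mul, map_mul, hp, map_mul, aeval_X, eval_X]
    simp [ptN]

theorem coeff_chN_zero (e : Option ι → Fin (ν + 1) → S) (P : MvPolynomial (Fin (ν + 1)) S) :
    (chN e P).coeff 0 = eval (e none) P := by
  have h1 := eval_chN e P 0
  have h2 : ptN e 0 = e none := by
    funext i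
    simp [ptN]
  rw [h2] at h1
  rw [← h1, ← constantCoeff_eq]
  exact (congrArg (fun φ => φ (chN e P)) eval_zero).symm

theorem chartN_coeff_mul (a : ι) (A B : MvPolynomial ι S) :
    (A * B).coeff (Finsupp.single a 1) =
      A.coeff (Finsupp.single a 1) * B.coeff 0 + A.coeff 0 * B.coeff (Finsupp.single a 1) := by
  classical
  rw [coeff_mul, Finsupp.antidiagonal_single]
  simp [Finset.Nat.antidiagonal_succ]
  ring

theorem chartN_lin_coeff_zero (c : S) (w : ι → S) :
    (C c + ∑ i, X i * C (w i) : MvPolynomial ι S).coeff 0 = c := by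
  rw [coeff_add, coeff_sum, coeff_C, if_pos rfl, Finset.sum_eq_zero, add_zero]
  intro i _
  rw [mul_comm, coeff_C_mul]
  simp

theorem chartN_lin_coeff_single (c : S) (w : ι → S) (a : ι) :
    (C c + ∑ i, X i * C (w i) : MvPolynomial ι S).coeff (Finsupp.single a 1) = w a := by
  have z : ¬ (0 : ι →₀ ℕ) = Finsupp.single a 1 := by
    intro h
    have := DFunLike.congr_fun h a
    simp at this
  rw [coeff_add, coeff_sum, coeff_C, if_neg z, zero_add, Finset.sum_eq_single a]
  · rw [mul_comm, coeff_C_mul, coeff_X, if_pos rfl, mul_one]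
  · intro i _ hi
    rw [mul_comm, coeff_C_mul, coeff_X, if_neg, mul_zero]
    intro h
    exact hi ((Finsupp.single_left_inj one_ne_zero).1 h)
  · intro h
    exact absurd (Finset.mem_univ a) h

theorem coeff_chN_single (e : Option ι → Fin (ν + 1) → S) (P : MvPolynomial (Fin (ν + 1)) S)
    (i : ι) : (chN e P).coeff (Finsupp.single i 1) =
      ∑ j, eval (e none) (pderiv j P) * e (some i) j := by
  classical
  induction P using MvPolynomial.induction_on with
  | C c =>
    have h1 : chN e (C c) = C c := by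
      unfold chN
      rw [aeval_C, algebraMap_eq]
    rw [h1, coeff_C, if_neg (by
      intro h
      have := DFunLike.congr_fun h i
      simp at this)]
    simp
  | add p q hp hq =>
    have h1 : chN e (p + q) = chN e p + chN e q := by
      unfold chN
      rw [map_add]
    rw [h1, coeff_add, hp, hq, ← Finset.sum_add_distrib]
    refine Finset.sum_congr rfl fun j _ => ?_
    rw [map_add, map_add]
    ring
  | mul_X p m hp =>
    have h1 : chN e (p * X m) = chN e p *
        (C (e none m) + ∑ i, X i * C (e (some i) m)) := by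
      unfold chN
      rw [map_mul, aeval_X]
    rw [h1, chartN_coeff_mul, chartN_lin_coeff_zero, chartN_lin_coeff_single, hp,
      coeff_chN_zero, Finset.sum_mul]
    have h4 : eval (e none) p * e (some i) m =
        ∑ j, (if j = m then eval (e none) p * e (some i) j else 0) := by
      simp
    rw [h4, ← Finset.sum_add_distrib]
    refine Finset.sum_congr rfl fun j _ => ?_
    rw [Derivation.leibniz, map_add]
    simp only [smul_eq_mul, map_mul, eval_X]
    by_cases hj : j = m
    · subst hj
      rw [if_pos rfl, pderiv_X_self, map_one]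
      ring
    · rw [if_neg hj, pderiv_X_of_ne (Ne.symm hj), map_zero]
      ring

end Pool.Agent.Helper89.TNL

end
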