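import Pool.Agent.Helper29.MF.T26
import Pool.Agent.Helper29.MF.T24

section

/-!
# Taylor expansions of first order
-/

set_option autoImplicit false

namespace Pool.Agent.Helper89.TNL

open MvPolynomial

variable {R ι : Type} [CommRing R] [Fintype ι] [DecidableEq ι]

omit [Fintype ι] in
theorem Taylor_coeff_mul_X (P : MvPolynomial ι R) (i j : ι) :
    (P * X i).coeff (Finsupp.single j 1) = if i = j then P.coeff 0 else 0 := by
  rw [coeff_mul_X']
  by_cases h : i = j
  · subst h
    simp
  · rw [if_neg h, if_neg]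
    rw [Finsupp.mem_support_iff, Finsupp.single_apply, not_not, if_neg (Ne.symm h)]

omit [Fintype ι] [DecidableEq ι] in
theorem Taylor_coeff_zero_mul_X (P : MvPolynomial ι R) (i : ι) : (P * X i).coeff 0 = 0 := by
  classical
  rw [coeff_mul_X']
  simp

omit [Fintype ι] [DecidableEq ι] in
theorem Taylor_coeff_C (a : R) (j : ι) :
    (C a : MvPolynomial ι R).coeff (Finsupp.single j 1) = 0 := by
  classical
  rw [coeff_C, if_neg]
  intro h
  have := Finsupp.single_eq_zero.1 h.symm
  exact one_ne_zero this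

theorem eval_zero_congr {π : R} (P : MvPolynomial ι R) {v : ι → R} (hv : ∀ i, π ∣ v i) :
    π ∣ eval v P - P.coeff 0 := by
  induction P using MvPolynomial.induction_on with
  | C a => simp
  | add P Q hP hQ =>
    rw [map_add, coeff_add]
    have e : eval v P + eval v Q - (P.coeff 0 + Q.coeff 0) =
        (eval v P - P.coeff 0) + (eval v Q - Q.coeff 0) := by ring
    rw [e]
    exact dvd_add hP hQ
  | mul_X P i _ =>
    rw [Taylor_coeff_zero_mul_X, map_mul, eval_X, sub_zero]
    exact (hv i).mul_left _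

theorem taylor_n {π : R} (P : MvPolynomial ι R) {v w : ι → R} (hv : ∀ i, π ∣ v i)
    (hw : ∀ i, π ∣ w i) :
    ∃ r : ι → R, eval v P - eval w P = ∑ i, (P.coeff (Finsupp.single i 1) + π * r i) *
      (v i - w i) := by
  induction P using MvPolynomial.induction_on with
  | C a =>
    refine ⟨fun _ => 0, ?_⟩
    simp only [Taylor_coeff_C]
    simp
  | add P Q hP hQ =>
    obtain ⟨r, hr⟩ := hP
    obtain ⟨s, hs⟩ := hQ
    refine ⟨fun i => r i + s i, ?_⟩
    have e : eval v (P + Q) - eval w (P + Q) =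
        (eval v P - eval w P) + (eval v Q - eval w Q) := by
      rw [map_add, map_add]
      ring
    rw [e, hr, hs, ← Finset.sum_add_distrib]
    refine Finset.sum_congr rfl fun i _ => ?_
    rw [coeff_add]
    ring
  | mul_X P i hP =>
    obtain ⟨r, hr⟩ := hP
    obtain ⟨c, hc⟩ := eval_zero_congr P hv
    obtain ⟨t, ht⟩ := hw i
    refine ⟨fun j => (if i = j then c else 0) +
      t * (P.coeff (Finsupp.single j 1) + π * r j), ?_⟩
    have e : eval v (P * X i) - eval w (P * X i) =
        eval v P * (v i - w i) + w i * (eval v P - eval w P) := by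
      rw [map_mul, map_mul, eval_X, eval_X]
      ring
    have e2 : eval v P = P.coeff 0 + π * c := by rw [← hc]; ring
    have e3 : ∀ j, ((P * X i).coeff (Finsupp.single j 1) + π * ((if i = j then c else 0) +
        t * (P.coeff (Finsupp.single j 1) + π * r j))) * (v j - w j) =
        (if i = j then (P.coeff 0 + π * c) * (v j - w j) else 0) +
        π * t * ((P.coeff (Finsupp.single j 1) + π * r j) * (v j - w j)) := by
      intro j
      rw [Taylor_coeff_mul_X]
      split_ifs
      · ring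
      · ring
    rw [e, hr]
    simp only [e3]
    rw [Finset.sum_add_distrib, ← Finset.mul_sum, Finset.sum_ite_eq, if_pos (Finset.mem_univ i),
      e2, ht]

/-- The expansion at a point of the polydisc, in a rescaled variable. -/
theorem taylor_res {π : R} (P : MvPolynomial ι R) {v : ι → R} (hv : ∀ i, π ∣ v i) {e : ℕ}
    (he : 1 ≤ e) : ∃ Q : MvPolynomial ι R, ∀ u : ι → R,
      eval (fun i => v i + π ^ e * u i) P = eval v P +
        π ^ e * (∑ i, P.coeff (Finsupp.single i 1) * u i + π * eval u Q) := by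
  induction P using MvPolynomial.induction_on with
  | C a =>
    refine ⟨0, fun u => ?_⟩
    simp only [Taylor_coeff_C]
    simp
  | add P Q hP hQ =>
    obtain ⟨p, hp⟩ := hP
    obtain ⟨q, hq⟩ := hQ
    refine ⟨p + q, fun u => ?_⟩
    rw [map_add, map_add, map_add, hp, hq]
    simp only [coeff_add, add_mul, Finset.sum_add_distrib]
    ring
  | mul_X P i hP =>
    obtain ⟨q, hq⟩ := hP
    obtain ⟨c, hc⟩ := eval_zero_congr P hv
    obtain ⟨t, ht⟩ := hv i
    obtain ⟨f, rfl⟩ : ∃ f, e = f + 1 := ⟨e - 1, by omega⟩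
    obtain ⟨L, hL⟩ : ∃ L : MvPolynomial ι R,
        ∀ u, eval u L = ∑ j, P.coeff (Finsupp.single j 1) * u j :=
      ⟨∑ j, C (P.coeff (Finsupp.single j 1)) * X j, fun u => by simp⟩
    refine ⟨C c * X i + C t * (L + C π * q) + C (π ^ f) * (L + C π * q) * X i, fun u => ?_⟩
    have e2 : eval v P = P.coeff 0 + π * c := by rw [← hc]; ring
    have e3 : ∑ j, (P * X i).coeff (Finsupp.single j 1) * u j = P.coeff 0 * u i := by
      simp only [Taylor_coeff_mul_X, ite_mul, zero_mul]
      rw [Finset.sum_ite_eq, if_pos (Finset.mem_univ i)]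
    rw [e3, map_mul, map_mul, eval_X, eval_X, hq, ← hL]
    simp only [map_add, map_mul, eval_C, eval_X]
    rw [e2, ht]
    ring

/-- The restriction to a smaller polydisc is a polynomial. -/
theorem eval_resc (P : MvPolynomial ι R) (v : ι → R) (c : R) :
    ∃ Q : MvPolynomial ι R, ∀ u : ι → R, eval (fun i => v i + c * u i) P = eval u Q := by
  induction P using MvPolynomial.induction_on with
  | C a => exact ⟨C a, fun u => by simp⟩
  | add P Q hP hQ =>
    obtain ⟨p, hp⟩ := hP
    obtain ⟨q, hq⟩ := hQ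
    exact ⟨p + q, fun u => by rw [map_add, map_add, hp, hq]⟩
  | mul_X P i hP =>
    obtain ⟨p, hp⟩ := hP
    refine ⟨p * (C (v i) + C c * X i), fun u => ?_⟩
    rw [map_mul, eval_X, hp]
    simp

end Pool.Agent.Helper89.TNL

end

section

/-!
# Differences of the points of an orbit, and the recursion of the rescaled orbit
-/

set_option autoImplicit false

namespace Pool.Agent.Helper89.TNL

open MvPolynomial

section aux

variable {R ι : Type} [CommRing R]

theorem Contr_geo (π : R) (L W G : MvPolynomial ι R) (I : ℕ) :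
    ∃ P : MvPolynomial ι R, ∀ (u : ι → R) (y : R),
      y * (1 - π * eval u W) = eval u L + π * eval u G →
        π ^ I ∣ y - (eval u L + π * eval u P) := by
  induction I with
  | zero => exact ⟨0, fun u y _ => by simp⟩
  | succ I ih =>
    obtain ⟨P, hP⟩ := ih
    refine ⟨G + W * (L + C π * P), fun u y h => ?_⟩
    obtain ⟨z, hz⟩ := hP u y h
    refine ⟨eval u W * z, ?_⟩
    simp only [map_add, map_mul, eval_C]
    linear_combination h + π * eval u W * hz

variable [Fintype ι] [DecidableEq ι]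

theorem Contr_coord [IsDomain R] {π ω : R} (hπ0 : π ≠ 0) {v : ι → R}
    (hv : ∀ i, π ∣ v i) {e : ℕ} (he : 1 ≤ e) (B N : MvPolynomial ι R) (lam : ι → R)
    (hω : ω * B.coeff 0 ^ 2 = 1) (hN : π ∣ N.coeff 0)
    (hx : ∀ l, π ∣ N.coeff (Finsupp.single l 1) - B.coeff 0 * lam l) (I : ℕ) :
    ∃ P : MvPolynomial ι R, ∀ (u : ι → R) (y c : R), c * eval v B = eval v N →
      (c + π ^ e * y) * eval (fun i => v i + π ^ e * u i) B =
        eval (fun i => v i + π ^ e * u i) N →
      π ^ I ∣ y - (∑ l, lam l * u l + π * eval u P) := by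
  obtain ⟨QB, hQB⟩ := taylor_res B hv he
  obtain ⟨QN, hQN⟩ := taylor_res N hv he
  obtain ⟨m, hm⟩ := eval_zero_congr B hv
  obtain ⟨n₁, hn₁⟩ := eval_zero_congr N hv
  obtain ⟨n₂, hn₂⟩ := hN
  choose x hx using hx
  obtain ⟨e', rfl⟩ : ∃ e', e = e' + 1 := ⟨e - 1, by omega⟩
  set b₀ := B.coeff 0 with hb₀
  have hb : eval v B = b₀ + π * m := by linear_combination hm
  have hn : eval v N = π * (n₁ + n₂) := by linear_combination hn₁ + hn₂
  obtain ⟨L, hL⟩ : ∃ L : MvPolynomial ι R, ∀ u, eval u L = ∑ l, lam l * u l :=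
    ⟨∑ j, C (lam j) * X j, fun u => by simp⟩
  obtain ⟨Y, hY⟩ : ∃ Y : MvPolynomial ι R, ∀ u, eval u Y = ∑ l, x l * u l :=
    ⟨∑ j, C (x j) * X j, fun u => by simp⟩
  obtain ⟨TB, hTB⟩ : ∃ TB : MvPolynomial ι R, ∀ u, eval u TB =
      ∑ l, B.coeff (Finsupp.single l 1) * u l + π * eval u QB :=
    ⟨∑ j, C (B.coeff (Finsupp.single j 1)) * X j + C π * QB, fun u => by simp⟩
  obtain ⟨P, hP⟩ := Contr_geo π L
    (-(C ω * (C (2 * b₀ * m + π * m ^ 2) + C (π ^ e' * (b₀ + π * m)) * TB)))
    (C ω * (C (b₀ * m) * L + (Y + QN) * C (b₀ + π * m) - C (n₁ + n₂) * TB)) I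
  refine ⟨P, fun u y c hc h => ?_⟩
  rw [← hL]
  refine hP u y ?_
  rw [hQB, hQN, ← hTB] at h
  have hcN : ∑ l, N.coeff (Finsupp.single l 1) * u l = b₀ * eval u L + π * eval u Y := by
    rw [hL, hY, Finset.mul_sum, Finset.mul_sum, ← Finset.sum_add_distrib]
    refine Finset.sum_congr rfl fun l _ => ?_
    linear_combination u l * hx l
  rw [hcN] at h
  have hcan : y * (eval v B + π ^ (e' + 1) * eval u TB) + c * eval u TB =
      b₀ * eval u L + π * eval u Y + π * eval u QN := by
    have h0 : π ^ (e' + 1) ≠ 0 := pow_ne_zero _ hπ0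
    apply mul_left_cancel₀ h0
    linear_combination h - hc
  have hmul : y * ((eval v B + π ^ (e' + 1) * eval u TB) * eval v B) + eval v N * eval u TB =
      (b₀ * eval u L + π * eval u Y + π * eval u QN) * eval v B := by
    linear_combination eval v B * hcan - eval u TB * hc
  rw [hb, hn] at hmul
  simp only [map_neg, map_mul, map_add, map_sub, eval_C]
  rw [pow_succ] at hmul
  linear_combination ω * hmul + (eval u L - y) * hω

end aux

variable {R k : Type} [CommRing R] [IsDomain R] [Field k] [Algebra k R] {π : R} {χ : R →+* k}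
  {ι : Type} [Fintype ι] [DecidableEq ι] {A0 : MvPolynomial ι R} {A : ι → MvPolynomial ι R}

omit [IsDomain R] [Fintype ι] [DecidableEq ι] in
theorem Contr_lin (hR : Res π χ) {M : Matrix ι ι k} (hM : LinN χ A0 A M) (i l : ι) :
    π ∣ (A i).coeff (Finsupp.single l 1) - A0.coeff 0 * algebraMap k R (M i l) := by
  rw [← hR.ker, map_sub, map_mul, hR.sec, hM, sub_self]

omit [IsDomain R] in
theorem Contr_unit (hR : Res π χ) (hA : GermN π A0 A) {v : ι → R} (hv : ∀ i, π ∣ v i) :
    IsUnit (eval v A0) := by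
  refine hR.unif.unit _ fun hd => hA.c0 ?_
  exact (dvd_sub_right hd).1 (eval_zero_congr A0 hv)

/-- Differences of points of two orbits. -/
theorem germ_contr (hR : Res π χ) (hA : GermN π A0 A) {M : Matrix ι ι k} (hM : LinN χ A0 A M)
    {p q : ℕ → ι → R} (hp : OrbN π A0 A p) (hq : OrbN π A0 A q) (j j' : ℕ) :
    ∃ N : ι → ι → R, ∀ i, p (j + 1) i - q (j' + 1) i =
      ∑ l, (algebraMap k R (M i l) + π * N i l) * (p j l - q j' l) := by
  have hsu := hp.small j
  have hsv := hq.small j'
  obtain ⟨r0, h0⟩ := taylor_n A0 hsu hsv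
  choose r h using fun i => taylor_n (A i) hsu hsv
  obtain ⟨m, hm⟩ := eval_zero_congr A0 hsu
  choose n hn using fun i => eval_zero_congr (A i) hsv
  choose n' hn' using hA.c1
  choose x hx using fun i l => Contr_lin hR hM i l
  obtain ⟨u, hu⟩ := (Contr_unit hR hA hsu).exists_left_inv
  obtain ⟨v, hv⟩ := (Contr_unit hR hA hsv).exists_left_inv
  refine ⟨fun i l => -(u * m * algebraMap k R (M i l)) + u * (x i l + r i l) -
    u * v * (n i + n' i) * (A0.coeff (Finsupp.single l 1) + π * r0 l), fun i => ?_⟩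
  have e : p (j + 1) i - q (j' + 1) i = u * (eval (p j) (A i) - eval (q j') (A i)) -
      u * v * eval (q j') (A i) * (eval (p j) A0 - eval (q j') A0) := by
    rw [← hp.step, ← hq.step]
    linear_combination (-p (j + 1) i + q (j' + 1) i * eval (q j') A0 * v) * hu +
      (q (j' + 1) i - u * q (j' + 1) i * eval (q j') A0) * hv
  rw [e, h, h0, Finset.mul_sum, Finset.mul_sum, ← Finset.sum_sub_distrib]
  refine Finset.sum_congr rfl fun l _ => ?_
  have hN : eval (q j') (A i) = π * (n i + n' i) := by linear_combination hn i + hn' i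
  rw [hN]
  linear_combination u * (p j l - q j' l) * hx i l +
    algebraMap k R (M i l) * (p j l - q j' l) * (hu - u * hm)

/-- The recursion of the rescaled orbit. -/
theorem germ_rec (hR : Res π χ) (hA : GermN π A0 A) {M : Matrix ι ι k} (hM : LinN χ A0 A M)
    {p : ℕ → ι → R} (hp : OrbN π A0 A p) {j₀ e : ℕ} (he : 1 ≤ e) {ξ : ℕ → ι → R}
    (hξ : ∀ t i, p (j₀ + t) i = p j₀ i + π ^ e * ξ t i) :
    ∃ c : ι → R, ∀ I : ℕ, ∃ P : ι → MvPolynomial ι R, ∀ t i,
      π ^ I ∣ ξ (t + 1) i - (c i + ∑ l, algebraMap k R (M i l) * ξ t l +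
        π * eval (ξ t) (P i)) := by
  obtain ⟨ω₁, hω₁⟩ := (hR.unif.unit _ hA.c0).exists_left_inv
  have hω : ω₁ ^ 2 * A0.coeff 0 ^ 2 = 1 := by
    rw [← mul_pow, hω₁, one_pow]
  refine ⟨ξ 1, fun I => ?_⟩
  choose P hP using fun i => Contr_coord hR.unif.prime.ne_zero (hp.small j₀) he A0 (A i)
    (fun l => algebraMap k R (M i l)) hω (hA.c1 i) (fun l => Contr_lin hR hM i l) I
  refine ⟨P, fun t i => ?_⟩
  have hpt : p (j₀ + t) = fun i => p j₀ i + π ^ e * ξ t i := funext (hξ t)
  have ha := hξ (t + 1) i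
  have hb := hξ 1 i
  rw [← add_assoc] at ha
  have h := hP i (ξ t) (ξ (t + 1) i - ξ 1 i) (p (j₀ + 1) i) (hp.step j₀ i) (by
    rw [← hpt, ← hp.step]
    congr 1
    rw [ha, hb]; ring)
  convert h using 1
  ring

end Pool.Agent.Helper89.TNL

end

section

namespace Pool.Agent.Helper16
end Pool.Agent.Helper16

/-!
# The limit of a sequence of points
-/

set_option autoImplicit false

namespace Pool.Agent.Helper89.TNL

open MvPolynomial
open Pool.Agent.Helper16 (Place IsFunctionField)

section aux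

variable {k K : Type} [Field k] [Field K] [Algebra k K] (b : Place k K)

private theorem LimN_mul {x x' y y' : K} {ε : WithZero (Multiplicative ℤ)} (hx : b.val x ≤ 1)
    (hy' : b.val y' ≤ 1) (h1 : b.val (x - x') ≤ ε) (h2 : b.val (y - y') ≤ ε) :
    b.val (x * y - x' * y') ≤ ε := by
  have h3 : x * y - x' * y' = x * (y - y') + (x - x') * y' := by ring
  rw [h3]
  refine (b.val.map_add _ _).trans (max_le ?_ ?_)
  · rw [map_mul]
    calc _ ≤ 1 * ε := mul_le_mul' hx h2
      _ = ε := one_mul _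
  · rw [map_mul]
    calc _ ≤ ε * 1 := mul_le_mul' h1 hy'
      _ = ε := mul_one _

private theorem LimN_pow {x x' : K} {ε : WithZero (Multiplicative ℤ)} (hx : b.val x ≤ 1)
    (hx' : b.val x' ≤ 1) (h1 : b.val (x - x') ≤ ε) (n : ℕ) :
    b.val (x ^ n - x' ^ n) ≤ ε := by
  induction n with
  | zero => rw [pow_zero, pow_zero, sub_self, map_zero]; exact zero_le
  | succ n ih =>
    rw [pow_succ, pow_succ]
    refine LimN_mul b ?_ hx' ih h1
    rw [map_pow]
    exact pow_le_one' hx _

private theorem LimN_prod {ι : Type} (s : Finset ι) {x x' : ι → K}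
    {ε : WithZero (Multiplicative ℤ)} (hx : ∀ i, b.val (x i) ≤ 1)
    (hx' : ∀ i, b.val (x' i) ≤ 1) (h1 : ∀ i, b.val (x i - x' i) ≤ ε) :
    b.val (∏ i ∈ s, x i - ∏ i ∈ s, x' i) ≤ ε := by
  classical
  induction s using Finset.induction_on with
  | empty => rw [Finset.prod_empty, Finset.prod_empty, sub_self, map_zero]; exact zero_le
  | insert a s ha ih =>
    rw [Finset.prod_insert ha, Finset.prod_insert ha]
    refine LimN_mul b (hx a) ?_ (h1 a) ih
    rw [map_prod]
    exact Finset.prod_le_one' fun i _ => hx' i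

private theorem LimN_eval {n : ℕ} {P : MvPolynomial (Fin n) K} {D ε : WithZero (Multiplicative ℤ)}
    (hP : ∀ m, b.val (P.coeff m) ≤ D) {u u' : Fin n → K}
    (hu : ∀ a, b.val (u a) ≤ 1) (hu' : ∀ a, b.val (u' a) ≤ 1)
    (hd : ∀ a, b.val (u a - u' a) ≤ ε) :
    b.val (eval u P - eval u' P) ≤ D * ε := by
  rw [eval_eq, eval_eq, ← Finset.sum_sub_distrib]
  refine b.val.map_sum_le fun m _ => ?_
  rw [← mul_sub, map_mul]
  refine mul_le_mul' (hP m) (LimN_prod b _ ?_ ?_ ?_)
  · intro i
    rw [map_pow]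
    exact pow_le_one' (hu i) _
  · intro i
    rw [map_pow]
    exact pow_le_one' (hu' i) _
  · intro i
    exact LimN_pow b (hu i) (hu' i) (hd i) _

private theorem LimN_bound {n : ℕ} (P : MvPolynomial (Fin n) K) :
    ∃ D : ℕ, ∀ m, b.val (P.coeff m) ≤ WithZero.exp (D : ℤ) := by
  classical
  have h1 : ∀ c : K, ∃ D : ℕ, b.val c ≤ WithZero.exp (D : ℤ) := by
    intro c
    by_cases hc : b.val c = 0
    · exact ⟨0, by rw [hc]; exact zero_le⟩
    · refine ⟨(WithZero.log (b.val c)).toNat, ?_⟩
      rw [← WithZero.exp_log hc, WithZero.exp_le_exp, WithZero.log_exp]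
      exact Int.self_le_toNat _
  choose f hf using h1
  refine ⟨∑ m ∈ P.support, f (P.coeff m), fun m => ?_⟩
  by_cases hm : m ∈ P.support
  · refine (hf _).trans ?_
    rw [WithZero.exp_le_exp]
    exact_mod_cast Finset.single_le_sum (f := fun m => f (P.coeff m)) (fun _ _ => Nat.zero_le _) hm
  · rw [notMem_support_iff.1 hm, map_zero]
    exact zero_le

private theorem LimN_lt {x : WithZero (Multiplicative ℤ)} (h : x < 1) :
    x ≤ WithZero.exp (-1 : ℤ) := by
  rcases eq_or_ne x 0 with h0 | h0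
  · rw [h0]; exact zero_le
  · have h1 : WithZero.log x < 0 := (WithZero.log_lt_iff_lt_exp h0).2 (by simpa using h)
    exact WithZero.le_exp_of_log_le (by omega)

end aux

theorem exists_limitN {ν : ℕ} {k K : Type} [Field k] [Field K] [Algebra k K] (b : Place k K)
    {z : Fin (ν + 1) → k} {y : ℕ → Fin (ν + 1) → K}
    (hz : ∀ s j, b.val (y s j - algebraMap k K (z j)) < 1)
    (hc : ∀ I : ℕ, ∃ s₀, ∀ s, s₀ ≤ s → ∀ j, b.val (y (s + 1) j - y s j) ≤
      WithZero.exp (-(I : ℤ))) :
    ∃ (L : Type) (_ : Field L) (_ : Algebra k L) (_ : Algebra K L) (_ : IsScalarTower k K L)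
      (v : Place k L) (w : Fin (ν + 1) → L), (∀ a : K, v.val (algebraMap K L a) = b.val a) ∧
      (∀ j, v.val (w j - algebraMap k L (z j)) < 1) ∧
      ∀ P : MvPolynomial (Fin (ν + 1)) K,
        (∀ I : ℕ, {s | b.val (eval (y s) P) ≤ WithZero.exp (-(I : ℤ))}.Infinite) →
        aeval w P = 0 := by
  classical
  have hcon : ∀ a : k, b.val (algebraMap k K a) ≤ 1 := fun a => by
    by_cases ha : a = 0
    · rw [ha, map_zero, map_zero]; exact zero_le
    · exact (b.triv a ha).le
  have hint : ∀ s j, b.val (y s j) ≤ 1 := by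
    intro s j
    have h1 : y s j = (y s j - algebraMap k K (z j)) + algebraMap k K (z j) := by ring
    rw [h1]
    exact (b.val.map_add _ _).trans (max_le (hz s j).le (hcon _))
  have hdiff : ∀ I : ℕ, ∃ s₀, ∀ s s', s₀ ≤ s → s ≤ s' → ∀ j, b.val (y s' j - y s j) ≤
      WithZero.exp (-(I : ℤ)) := by
    intro I
    obtain ⟨s₀, hs₀⟩ := hc I
    refine ⟨s₀, fun s s' hs hss => ?_⟩
    induction s', hss using Nat.le_induction with
    | base =>
      intro j
      rw [sub_self, map_zero]
      exact zero_le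
    | succ n hn ih =>
      intro j
      have h1 : y (n + 1) j - y s j = (y (n + 1) j - y n j) + (y n j - y s j) := by ring
      rw [h1]
      exact (b.val.map_add _ _).trans (max_le (hs₀ n (hs.trans hn) j) (ih j))
  have hae : ∀ (x : Fin (ν + 1) → K) (Q : MvPolynomial (Fin (ν + 1)) K),
      aeval x Q = eval x Q := fun x Q => by
    rw [aeval_def, eval, eval₂_eq, coe_eval₂Hom, eval₂_eq]
    rfl
  set W : Ultrafilter ℕ := Filter.hyperfilter ℕ with hW
  have hev : ∀ c : ℕ, ∀ᶠ j in (W : Filter ℕ), c ≤ j := fun c =>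
    Nat.hyperfilter_le_atTop (Filter.eventually_ge_atTop c)
  obtain ⟨K', iF, ik, iK, iT, b', r, hrc, hext, hzero, hle, hge⟩ :=
    Pool.Agent.Helper89.TC.exists_limit_place b W
  letI algA : Algebra K (Pool.Agent.Helper30.TP.bddSub b W) := RingHom.toAlgebra
    { toFun := fun c => ⟨fun _ => c, Pool.Agent.Helper30.TP.const_mem_bddSub b W c⟩
      map_one' := rfl
      map_mul' := fun _ _ => rfl
      map_zero' := rfl
      map_add' := fun _ _ => rfl }
  let rA : Pool.Agent.Helper30.TP.bddSub b W →ₐ[K] K' := { r with commutes' := hrc }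
  let π : ℕ → (Pool.Agent.Helper30.TP.bddSub b W →ₐ[K] K) := fun j =>
    { toFun := fun y => y.1 j
      map_one' := rfl
      map_mul' := fun _ _ => rfl
      map_zero' := rfl
      map_add' := fun _ _ => rfl
      commutes' := fun _ => rfl }
  let U : Fin (ν + 1) → Pool.Agent.Helper30.TP.bddSub b W := fun a =>
    ⟨fun s => y s a, 0, Filter.Eventually.of_forall fun s => by
      rw [Nat.cast_zero, WithZero.exp_zero]
      exact hint s a⟩
  refine ⟨K', iF, ik, iK, iT, b', fun a => r (U a), hext, fun j => ?_, fun P hinf => ?_⟩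
  · have h1 : r (U j) - algebraMap k K' (z j) = r (U j - ⟨fun _ => algebraMap k K (z j),
        Pool.Agent.Helper30.TP.const_mem_bddSub b W (algebraMap k K (z j))⟩) := by
      rw [map_sub, hrc, ← IsScalarTower.algebraMap_apply]
    show b'.val (r (U j) - algebraMap k K' (z j)) < 1
    rw [h1]
    refine (hle _ (-1) (Filter.Eventually.of_forall fun s => LimN_lt (hz s j))).trans_lt ?_
    rw [← WithZero.exp_zero]
    exact WithZero.exp_lt_exp.2 (by norm_num)
  · have h1 : aeval (fun a => r (U a)) P = r (aeval U P) := (comp_aeval_apply U rA P).symm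
    rw [h1, hzero]
    intro c
    obtain ⟨D, hD⟩ := LimN_bound b P
    obtain ⟨s₀, hs₀⟩ := hdiff (D + c + 1)
    filter_upwards [hev s₀] with s hs
    have h2 : (aeval U P : Pool.Agent.Helper30.TP.bddSub b W).1 s = eval (y s) P := by
      have h3 := comp_aeval_apply U (π s) P
      have h4 : (fun a => π s (U a)) = y s := rfl
      rw [h4, hae] at h3
      exact h3
    rw [h2]
    obtain ⟨s', hs', hss⟩ := (hinf (c + 1)).exists_gt s
    have h5 : b.val (eval (y s') P) ≤ WithZero.exp (-((c + 1 : ℕ) : ℤ)) := hs'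
    have h6 := LimN_eval b hD (hint s') (hint s) (hs₀ s s' hs hss.le)
    have h7 : eval (y s) P = eval (y s') P - (eval (y s') P - eval (y s) P) := by ring
    rw [h7]
    refine (b.val.map_sub _ _).trans_lt (max_lt (h5.trans_lt ?_) (h6.trans_lt ?_))
    · exact WithZero.exp_lt_exp.2 (by push_cast; omega)
    · rw [← WithZero.exp_add]
      exact WithZero.exp_lt_exp.2 (by push_cast; omega)

end Pool.Agent.Helper89.TNL

end
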