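import Pool.Agent.Helper29.MF.T27
import Pool.Agent.Helper29.MF.T29
import Pool.Agent.Helper29.MF.T30
import Pool.Agent.Helper29.MF.T28

section

/-!
# The digits of the rescaled orbit are exponential polynomials
-/

set_option autoImplicit false

namespace Pool.Agent.Helper89.TNL

open MvPolynomial

variable {R k : Type} [CommRing R] [IsDomain R] [Field k] [Algebra k R] {π : R} {χ : R →+* k}
  {G : Subgroup kˣ}

omit [IsDomain R] in
theorem rec_zero (f : ℕ → R) : EPR G π 0 f :=
  ⟨0, fun _ => 0, fun _ => (EPol k G).zero_mem, fun _ _ => by simp⟩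

theorem epr_of_rec [IsAlgClosed k] [CharZero k] (hR : Res π χ) {α β : Type} [Fintype α]
    [DecidableEq α] [Fintype β] [DecidableEq β] (M₁ : Matrix α α k) (hM : EigIn G M₁)
    {ξ : ℕ → α ⊕ β → R}
    (hrec : ∃ c : α ⊕ β → R, ∀ I : ℕ, ∃ P : α ⊕ β → MvPolynomial (α ⊕ β) R, ∀ t i,
      π ^ I ∣ ξ (t + 1) i - (c i + ∑ l, algebraMap k R (Matrix.fromBlocks M₁ 0 0 0 i l) * ξ t l +
        π * eval (ξ t) (P i))) :
    ∀ I i, EPR G π I (fun t => ξ t i) := by
  obtain ⟨c, hc⟩ := hrec
  intro I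
  induction I with
  | zero => exact fun i => rec_zero _
  | succ I ih =>
    obtain ⟨P, hP⟩ := hc (I + 1)
    have hg : ∀ i, EPR G π (I + 1) (fun t => c i + π * eval (ξ t) (P i)) := fun i =>
      epr_add (epr_const hR (I + 1) (c i)) (epr_pi (epr_eval hR ih (P i)))
    rintro (a | b)
    · -- the unit part
      choose d hd using fun (t : ℕ) (a : α) => exists_digits hR (ξ t (Sum.inl a))
      choose T φ hφ hT using fun a : α => hg (Sum.inl a)
      set T₀ : ℕ := Finset.univ.sup T with hT₀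
      have hle : ∀ a, T a ≤ T₀ := fun a => Finset.le_sup (f := T) (Finset.mem_univ a)
      have hdig : ∀ t, T₀ ≤ t → ∀ a, ∀ j < I + 1,
          d (t + 1) a j = ∑ b, M₁ a b * d t b j + φ a j t := by
        intro t ht a
        refine digits_unique hR ?_
        have h1 := hd (t + 1) a (I + 1)
        have h2 := hP t (Sum.inl a)
        have h3 := hT a t ((hle a).trans ht)
        have h4 : π ^ (I + 1) ∣ ∑ b, algebraMap k R (M₁ a b) * (ξ t (Sum.inl b) -
            ∑ i ∈ Finset.range (I + 1), π ^ i * algebraMap k R (d t b i)) :=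
          Finset.dvd_sum fun b _ => Dvd.dvd.mul_left (hd t b (I + 1)) _
        have h5 := ((h2.sub h1).add h3).add h4
        convert h5 using 1
        rw [Fintype.sum_sum_type]
        simp only [Matrix.fromBlocks_apply₁₁, Matrix.fromBlocks_apply₁₂, Matrix.zero_apply,
          map_zero, zero_mul, Finset.sum_const_zero, add_zero, map_add, map_sum, map_mul, mul_add,
          mul_sub, Finset.sum_add_distrib, Finset.sum_sub_distrib, Finset.mul_sum]
        rw [Finset.sum_comm (s := (Finset.univ : Finset α))]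
        have e : ∀ x ∈ Finset.range (I + 1), ∀ y ∈ (Finset.univ : Finset α),
            algebraMap k R (M₁ a y) * (π ^ x * algebraMap k R (d t y x)) =
              π ^ x * (algebraMap k R (M₁ a y) * algebraMap k R (d t y x)) := fun x _ y _ => by
          ring
        rw [Finset.sum_congr rfl fun x hx => Finset.sum_congr rfl (e x hx)]
        ring
      have hw : ∀ j : ℕ, ∃ w : α → ℕ → k, (∀ a, w a ∈ EPol k G) ∧
          (j < I + 1 → ∀ t, T₀ ≤ t → ∀ a, d t a j = w a t) := by
        intro j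
        by_cases hj : j < I + 1
        · obtain ⟨w, h1, h2⟩ := epol_solve_late M₁ hM (f := fun a => φ a j)
            (v := fun a t => d t a j) (fun a => hφ a j) (T := T₀)
            (fun t ht a => hdig t ht a j hj)
          exact ⟨w, h1, fun _ => h2⟩
        · exact ⟨fun _ => 0, fun _ => (EPol k G).zero_mem, fun h => absurd h hj⟩
      choose w hw1 hw2 using hw
      refine ⟨T₀, fun j => w j a, fun j => hw1 j a, fun t ht => ?_⟩
      have h1 := hd t a (I + 1)
      have e : ∑ i ∈ Finset.range (I + 1), π ^ i * algebraMap k R (w i a t) =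
          ∑ i ∈ Finset.range (I + 1), π ^ i * algebraMap k R (d t a i) :=
        Finset.sum_congr rfl fun i hi => by
          rw [hw2 i (Finset.mem_range.1 hi) t ht a]
      rw [e]
      exact h1
    · -- the nilpotent part
      refine epr_unshift (epr_congr (hg (Sum.inr b)) (T := 0) fun t _ => ?_)
      have h := hP t (Sum.inr b)
      rw [Fintype.sum_sum_type] at h
      simpa using h

end Pool.Agent.Helper89.TNL

end

section

namespace Pool.Agent.Helper63.TS
end Pool.Agent.Helper63.TS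

/-!
# An orbit which meets a curve infinitely often, and the curve is not periodic
-/

set_option autoImplicit false

namespace Pool.Agent.Helper89.TNL

open MvPolynomial
open Pool.Agent.Helper63.TS (Unif)

/-- A polynomial over a discrete valuation ring which is not zero is a power of `π` times a
polynomial which is not zero modulo `π`. -/
theorem CaseR_poly {R : Type} [CommRing R] [IsDomain R] {π : R} (hπ : Unif π)
    {P : Polynomial R} (hP : P ≠ 0) :
    ∃ (m : ℕ) (Q : Polynomial R), P = Polynomial.C (π ^ m) * Q ∧ ∃ n, ¬ π ∣ Q.coeff n := by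
  classical
  -- the minimal order of the coefficients
  have h1 : ∃ m : ℕ, ∃ n, ¬ π ^ (m + 1) ∣ P.coeff n := by
    obtain ⟨n, hn⟩ : ∃ n, P.coeff n ≠ 0 := by
      by_contra h
      push Not at h
      exact hP (Polynomial.ext fun n => by rw [h n, Polynomial.coeff_zero])
    obtain ⟨e, u, hu, he⟩ := hπ.fact _ hn
    refine ⟨e, n, fun hdvd => hu ?_⟩
    rw [he, pow_succ] at hdvd
    exact (mul_dvd_mul_iff_left (pow_ne_zero _ hπ.prime.ne_zero)).1 hdvd
  obtain ⟨m, hm, hmin⟩ : ∃ m : ℕ, (∃ n, ¬ π ^ (m + 1) ∣ P.coeff n) ∧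
      ∀ m' < m, ¬ ∃ n, ¬ π ^ (m' + 1) ∣ P.coeff n :=
    ⟨Nat.find h1, Nat.find_spec h1, fun m' hm' => Nat.find_min h1 hm'⟩
  have h2 : ∀ n, π ^ m ∣ P.coeff n := by
    intro n
    rcases Nat.eq_zero_or_pos m with h0 | h0
    · rw [h0, pow_zero]
      exact one_dvd _
    · have h3 := hmin (m - 1) (by omega)
      push Not at h3
      have h4 := h3 n
      rwa [Nat.sub_add_cancel h0] at h4
  obtain ⟨Q, hQ⟩ := (Polynomial.C_dvd_iff_dvd_coeff _ _).2 h2
  refine ⟨m, Q, hQ, ?_⟩
  obtain ⟨n, hn⟩ := hm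
  refine ⟨n, fun hdvd => hn ?_⟩
  rw [hQ, Polynomial.coeff_C_mul, pow_succ]
  exact mul_dvd_mul_left _ hdvd

/-- The residues of the coordinate take finitely many values. -/
theorem CaseR_fin {R k : Type} [CommRing R] [IsDomain R] [Field k] [Algebra k R] {π : R}
    {χ : R →+* k} (hR : Res π χ) {ρ : Polynomial R} (hρ : ρ ≠ 0) (p₀ : R) (e : ℕ) {ξ : ℕ → R}
    (h : ∀ I : ℕ, ∃ T, ∀ t, T ≤ t → π ^ I ∣ ρ.eval (p₀ + π ^ e * ξ t)) :
    ∃ (T : ℕ) (S : Finset k), ∀ t, T ≤ t → χ (ξ t) ∈ S := by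
  classical
  set P : Polynomial R := ρ.comp (Polynomial.C p₀ + Polynomial.C (π ^ e) * Polynomial.X) with hP
  have hπ0 : π ≠ 0 := hR.unif.prime.ne_zero
  have hdeg : (Polynomial.C p₀ + Polynomial.C (π ^ e) * Polynomial.X).natDegree = 1 := by
    rw [Polynomial.natDegree_C_add, Polynomial.natDegree_C_mul_X _ (pow_ne_zero _ hπ0)]
  have hP0 : P ≠ 0 := by
    intro h0
    rw [hP, Polynomial.comp_eq_zero_iff] at h0
    rcases h0 with h0 | ⟨-, h0⟩
    · exact hρ h0
    · rw [h0, Polynomial.natDegree_C] at hdeg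
      exact absurd hdeg (by norm_num)
  obtain ⟨m, Q, hQ, n, hn⟩ := CaseR_poly hR.unif hP0
  obtain ⟨T, hT⟩ := h (m + 1)
  have hQ0 : Q.map χ ≠ 0 := by
    intro h0
    apply hn
    rw [← hR.ker, ← Polynomial.coeff_map, h0, Polynomial.coeff_zero]
  refine ⟨T, (Q.map χ).roots.toFinset, fun t ht => ?_⟩
  rw [Multiset.mem_toFinset, Polynomial.mem_roots hQ0, Polynomial.IsRoot.def,
    Polynomial.eval_map_apply, hR.ker]
  have h1 := hT t ht
  have h2 : ρ.eval (p₀ + π ^ e * ξ t) = π ^ m * Q.eval (ξ t) := by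
    have h3 : P.eval (ξ t) = ρ.eval (p₀ + π ^ e * ξ t) := by
      rw [hP, Polynomial.eval_comp]
      simp
    rw [← h3, hQ, Polynomial.eval_mul, Polynomial.eval_C]
  rw [h2, pow_succ] at h1
  exact (mul_dvd_mul_iff_left (pow_ne_zero _ hπ0)).1 h1

theorem case_R {R k : Type} [CommRing R] [IsDomain R] [Field k] [IsAlgClosed k] [CharZero k]
    [Algebra k ℂ] [Algebra k R] {π : R} {χ : R →+* k} (hR : Res π χ) {G : Subgroup kˣ}
    (hG : TorsFree G) {α β : Type} [Fintype α] [DecidableEq α] [Fintype β] [DecidableEq β]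
    {M₁ : Matrix α α k} (hM₁ : M₁.det ≠ 0) (hE : EigIn G M₁) {A0 : MvPolynomial (α ⊕ β) R}
    {A : α ⊕ β → MvPolynomial (α ⊕ β) R} (hA : GermN π A0 A)
    (hL : LinN χ A0 A (Matrix.fromBlocks M₁ 0 0 0)) {p : ℕ → α ⊕ β → R} (hp : OrbN π A0 A p)
    {σ : Type} [Finite σ] {H : σ → MvPolynomial (α ⊕ β) R}
    (hinf : {j | ∀ i, eval (p j) (H i) = 0}.Infinite)
    (hρ : ∀ a, ∃ ρ : Polynomial R, ρ ≠ 0 ∧ ∀ I j, (∀ i, π ^ I ∣ eval (p j) (H i)) →
      (∀ i, π ^ I ∣ eval (p (j + 1)) (H i)) → π ^ I ∣ ρ.eval (p j (Sum.inl a))) :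
    Conv π (fun s => p (s + 1)) p := by
  classical
  have hgeo := det_geom_ne_zero hG M₁ hE
  rcases dichotomy hR hM₁ hgeo (fun j j' => germ_contr hR hA hL hp hp j j') with
    h | ⟨j₀, e, ξ, hξ, hsep⟩
  · exact h
  exfalso
  -- the exponent is positive
  have he : 1 ≤ e := by
    by_contra he0
    have he1 : e = 0 := by omega
    obtain ⟨a, ha⟩ := hsep 0 1 (by norm_num)
    apply ha
    have h0 := hξ 0 (Sum.inl a)
    have h1 := hξ 1 (Sum.inl a)
    rw [he1, pow_zero, one_mul] at h0 h1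
    have h2 : ξ 0 (Sum.inl a) - ξ 1 (Sum.inl a) =
        p (j₀ + 0) (Sum.inl a) - p (j₀ + 1) (Sum.inl a) := by
      rw [h0, h1]
      ring
    rw [h2]
    exact dvd_sub (hp.small _ _) (hp.small _ _)
  -- the values of the equations tend to zero
  have hepr := epr_of_rec hR M₁ hE (germ_rec hR hA hL hp he hξ)
  have hval : ∀ i (I : ℕ), ∃ T, ∀ t, T ≤ t → π ^ I ∣ eval (p (j₀ + t)) (H i) := by
    intro i I
    obtain ⟨Q, hQ⟩ := eval_resc (H i) (p j₀) (π ^ e)
    have h1 : ∀ t, eval (p (j₀ + t)) (H i) = eval (ξ t) Q := by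
      intro t
      rw [← hQ]
      congr 1
      have h2 : p (j₀ + t) = fun i => p j₀ i + π ^ e * ξ t i := funext fun i => hξ t i
      rw [h2]
    have h3 : EPR G π I (fun t => eval (ξ t) Q) := epr_eval hR (hepr I) Q
    obtain ⟨T, hT⟩ := epr_zero hR hG h3 (by
      have h4 : ({j | ∀ i, eval (p j) (H i) = 0} \ {j | j < j₀}).Infinite :=
        hinf.sdiff (Set.finite_lt_nat j₀)
      have h5 : ((fun j => j - j₀) '' ({j | ∀ i, eval (p j) (H i) = 0} \ {j | j < j₀})).Infinite := by
        refine h4.image ?_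
        intro a ha b hb hab
        have ha1 : ¬ a < j₀ := ha.2
        have hb1 : ¬ b < j₀ := hb.2
        simp only at hab
        omega
      refine h5.mono ?_
      rintro _ ⟨j, ⟨hj, hj'⟩, rfl⟩
      have hj1 : ¬ j < j₀ := hj'
      show π ^ I ∣ eval (ξ (j - j₀)) Q
      rw [← h1]
      have h6 : j₀ + (j - j₀) = j := by omega
      rw [h6]
      have h7 := hj i
      rw [h7]
      exact dvd_zero _)
    exact ⟨T, fun t ht => by rw [h1]; exact hT t ht⟩
  have hval' : ∀ (I : ℕ), ∃ T, ∀ t, T ≤ t → ∀ i, π ^ I ∣ eval (p (j₀ + t)) (H i) := by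
    intro I
    have := Fintype.ofFinite σ
    choose T hT using fun i => hval i I
    refine ⟨Finset.univ.sup T, fun t ht i => hT i t (le_trans ?_ ht)⟩
    exact Finset.le_sup (f := T) (Finset.mem_univ i)
  -- the coordinates take finitely many values
  have hfin : ∀ a : α, ∃ (T : ℕ) (S : Finset k), ∀ t, T ≤ t → χ (ξ t (Sum.inl a)) ∈ S := by
    intro a
    obtain ⟨ρ, hρ0, hρ1⟩ := hρ a
    refine CaseR_fin hR hρ0 (p j₀ (Sum.inl a)) e fun I => ?_
    obtain ⟨T, hT⟩ := hval' I
    refine ⟨T, fun t ht => ?_⟩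
    rw [← hξ t (Sum.inl a)]
    exact hρ1 I (j₀ + t) (hT t ht) (hT (t + 1) (by omega))
  choose T S hTS using hfin
  set T₀ := Finset.univ.sup T with hT₀
  have hT1 : ∀ t a, χ (ξ (T₀ + t) (Sum.inl a)) ∈ S a := by
    intro t a
    exact hTS a _ (le_trans (Finset.le_sup (f := T) (Finset.mem_univ a)) (by omega))
  -- pigeonhole
  obtain ⟨t, t', hne, heq⟩ : ∃ t t' : ℕ, t ≠ t' ∧
      (fun a => (⟨χ (ξ (T₀ + t) (Sum.inl a)), hT1 t a⟩ : S a)) =
      (fun a => (⟨χ (ξ (T₀ + t') (Sum.inl a)), hT1 t' a⟩ : S a)) :=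
    Finite.exists_ne_map_eq_of_infinite
      (fun t : ℕ => fun a => (⟨χ (ξ (T₀ + t) (Sum.inl a)), hT1 t a⟩ : S a))
  obtain ⟨a, ha⟩ := hsep (T₀ + t) (T₀ + t') (by omega)
  apply ha
  rw [← hR.ker, map_sub, sub_eq_zero]
  exact congrArg Subtype.val (congrFun heq a)

end Pool.Agent.Helper89.TNL

end

section

namespace Pool.Agent.Helper16
end Pool.Agent.Helper16
namespace Pool.Agent.Helper30.TKN
end Pool.Agent.Helper30.TKN
namespace Pool.Agent.Helper36
end Pool.Agent.Helper36
namespace Pool.Agent.Helper38.TQ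
end Pool.Agent.Helper38.TQ

/-!
# The germ of the iterate in a chart
-/

set_option autoImplicit false

namespace Pool.Agent.Helper89.TNL

open MvPolynomial
open Pool.Agent.Helper16 (Place IsFunctionField)
open Pool.Agent.Helper36 (step iter)
open Pool.Agent.Helper38.TQ
open Pool.Agent.Helper30.TKN

variable {ν : ℕ} {k K : Type} [Field k] [Field K] [Algebra k K] {b : Place k K} {π : b.ring}
  {χ : b.ring →+* k} {ι : Type} [Fintype ι] [DecidableEq ι]

private theorem germP_chi_eval {S : Type} [CommRing S] [Algebra k S] (χ : S →+* k)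
    (hχ : ∀ c : k, χ (algebraMap k S c) = c)
    (v : Fin (ν + 1) → k) (P : MvPolynomial (Fin (ν + 1)) S) :
    χ (eval (fun i => algebraMap k S (v i)) P) = eval v (map χ P) := by
  rw [eval_map, ← coe_eval₂Hom, ← RingHom.comp_apply]
  congr 1
  refine MvPolynomial.ringHom_ext (fun r => ?_) (fun i => ?_)
  · simp
  · simp [hχ]

private theorem germP_pt {S : Type} [CommRing S] {e : Option ι → Fin (ν + 1) → S}
    {B : Fin (ν + 1) → Option ι → S}
    (h₁ : ∀ a a', ∑ i, e a i * B i a' = if a = a' then 1 else 0) (q : ι → S) :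
    ∑ i, B i none * ptN e q i = 1 ∧ ∀ l, ∑ i, B i (some l) * ptN e q i = q l := by
  have h : ∀ a, ∑ i, B i a * ptN e q i =
      (if none = a then 1 else 0) + ∑ l, q l * (if some l = a then 1 else 0) := by
    intro a
    have h2 : ∀ i, B i a * ptN e q i = e none i * B i a + ∑ l, q l * (e (some l) i * B i a) := by
      intro i
      unfold ptN
      rw [mul_add, Finset.mul_sum, mul_comm (B i a)]
      congr 1
      exact Finset.sum_congr rfl fun l _ => by ring
    rw [Finset.sum_congr rfl fun i _ => h2 i, Finset.sum_add_distrib, h₁, Finset.sum_comm]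
    congr 1
    refine Finset.sum_congr rfl fun l _ => ?_
    rw [← h₁, Finset.mul_sum]
  refine ⟨?_, fun l => ?_⟩
  · rw [h]; simp
  · rw [h]; simp

theorem exists_germ (hR : Res π χ)
    (hπ : ∀ (r : b.ring) (n : ℕ), π ^ n ∣ r ↔ b.val (r : K) ≤ WithZero.exp (-(n : ℤ)))
    {e : Option ι → Fin (ν + 1) → k} {B : Fin (ν + 1) → Option ι → k}
    (h₁ : ∀ a a', ∑ i, e a i * B i a' = if a = a' then 1 else 0)
    (h₂ : ∀ i i', ∑ a, B i a * e a i' = if i = i' then 1 else 0) {d : ℕ}
    {F : Fin (ν + 1) → MvPolynomial (Fin (ν + 1)) K}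
    {f : Fin (ν + 1) → MvPolynomial (Fin (ν + 1)) k} (hF : ∀ i, (F i).IsHomogeneous d)
    (hf : GoodRed d b F f) {N : ℕ} {γ : k} (hγ : γ ≠ 0)
    (hfix : iter f (e none) N = γ • e none) {M : Matrix ι ι k} {α : ι → k}
    (hlin : ∀ a, (mult f (e none) N).mulVec (e (some a)) =
      γ • ∑ i, M i a • e (some i) + α a • e none) :
    ∃ (A0 : MvPolynomial ι b.ring) (A : ι → MvPolynomial ι b.ring), GermN π A0 A ∧
      LinN χ A0 A M ∧ ∀ (y : ℕ → Fin (ν + 1) → K) (c : ℕ → K) (q : ℕ → ι → b.ring),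
        (∀ s, c s ≠ 0) → (∀ s i, π ∣ q s i) →
        (∀ s j, y s j = c s * algebraMap b.ring K (ptN (eR b e) (q s) j)) →
        (∀ s, y (s + 1) = iter F (y s) N) → OrbN π A0 A q := by
  classical
  choose Φ hΦK hΦχ using fun i => exists_liftN hR hπ (redP_itN hf.red N i)
  obtain ⟨BR, hBR⟩ : ∃ BR : Fin (ν + 1) → Option ι → b.ring,
      ∀ i a, BR i a = algebraMap k b.ring (B i a) := ⟨_, fun _ _ => rfl⟩
  have hBR1 : ∀ a a', ∑ i, eR b e a i * BR i a' = if a = a' then 1 else 0 := by
    intro a a'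
    have h := congrArg (algebraMap k b.ring) (h₁ a a')
    rw [map_sum] at h
    simp only [map_mul] at h
    have h2 : ∑ i, eR b e a i * BR i a' =
        ∑ i, algebraMap k b.ring (e a i) * algebraMap k b.ring (B i a') :=
      Finset.sum_congr rfl fun i _ => by rw [hBR]; rfl
    rw [h2, h]
    split_ifs <;> simp
  obtain ⟨A, hA⟩ : ∃ A : Option ι → MvPolynomial ι b.ring,
      ∀ a, A a = ∑ i, C (BR i a) * chN (eR b e) (Φ i) := ⟨_, fun _ => rfl⟩
  have hev : ∀ a (u : ι → b.ring),
      eval u (A a) = ∑ i, BR i a * eval (ptN (eR b e) u) (Φ i) := by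
    intro a u
    rw [hA, map_sum]
    refine Finset.sum_congr rfl fun i _ => ?_
    rw [map_mul, eval_C, eval_chN]
  have hco : ∀ a m, (A a).coeff m = ∑ i, BR i a * (chN (eR b e) (Φ i)).coeff m := by
    intro a m
    rw [hA, coeff_sum]
    refine Finset.sum_congr rfl fun i _ => ?_
    rw [coeff_C_mul]
  have hBχ : ∀ i a, χ (BR i a) = B i a := by
    intro i a
    rw [hBR, hR.sec]
  have hc0 : ∀ a, χ ((A a).coeff 0) = γ * if none = a then 1 else 0 := by
    intro a
    rw [hco, map_sum, ← h₁, Finset.mul_sum]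
    refine Finset.sum_congr rfl fun i _ => ?_
    have h2 : χ (eval (eR b e none) (Φ i)) = γ * e none i := by
      have h3 := germP_chi_eval χ hR.sec (e none) (Φ i)
      rw [hΦχ, eval_itN, hfix] at h3
      exact h3
    rw [map_mul, hBχ, coeff_chN_zero, h2]
    ring
  have hc1 : ∀ a j, χ ((A a).coeff (Finsupp.single j 1)) =
      γ * ∑ i, M i j * (if some i = a then 1 else 0) + α j * if none = a then 1 else 0 := by
    intro a j
    have h2 : ∀ l, χ ((chN (eR b e) (Φ l)).coeff (Finsupp.single j 1)) =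
        γ * ∑ i, M i j * e (some i) l + α j * e none l := by
      intro l
      have h4 := congrFun (hlin j) l
      rw [Pi.add_apply, Pi.smul_apply, Finset.sum_apply, Pi.smul_apply, smul_eq_mul,
        smul_eq_mul] at h4
      simp only [Pi.smul_apply, smul_eq_mul] at h4
      rw [← h4, coeff_chN_single, map_sum, Matrix.mulVec, dotProduct]
      refine Finset.sum_congr rfl fun m _ => ?_
      have h5 := germP_chi_eval χ hR.sec (e none) (pderiv m (Φ l))
      rw [← pderiv_map, hΦχ, pderiv_itN] at h5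
      have h6 : χ (eR b e (some j) m) = e (some j) m := hR.sec _
      rw [map_mul, h6, ← h5]
      rfl
    rw [hco, map_sum]
    have h3 : ∀ l, χ (BR l a * (chN (eR b e) (Φ l)).coeff (Finsupp.single j 1)) =
        γ * ∑ i, M i j * (e (some i) l * B l a) + α j * (e none l * B l a) := by
      intro l
      rw [map_mul, hBχ, h2, mul_add, Finset.mul_sum, Finset.mul_sum, Finset.mul_sum]
      congr 1
      · exact Finset.sum_congr rfl fun i _ => by ring
      · ring
    rw [Finset.sum_congr rfl fun l _ => h3 l, Finset.sum_add_distrib, ← Finset.mul_sum,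
      ← Finset.mul_sum, Finset.sum_comm, h₁]
    congr 2
    refine Finset.sum_congr rfl fun i _ => ?_
    rw [← h₁, Finset.mul_sum]
  refine ⟨A none, fun i => A (some i), ⟨?_, ?_⟩, ?_, ?_⟩
  · rw [← hR.ker, hc0]
    simpa using hγ
  · intro i
    rw [← hR.ker, hc0]
    simp
  · intro i j
    show χ ((A (some i)).coeff (Finsupp.single j 1)) = χ ((A none).coeff 0) * M i j
    rw [hc0, hc1]
    simp
  · intro y c q hc hq hy hstep
    refine ⟨hq, fun s l => ?_⟩
    have hinj : Function.Injective (algebraMap b.ring K) := Subtype.val_injective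
    have h2 : ∀ j, c (s + 1) * algebraMap b.ring K (ptN (eR b e) (q (s + 1)) j) =
        c s ^ (d ^ N) * algebraMap b.ring K (eval (ptN (eR b e) (q s)) (Φ j)) := by
      intro j
      have h3 : y s = c s • fun j => algebraMap b.ring K (ptN (eR b e) (q s) j) := by
        funext j
        exact hy s j
      rw [← hy, hstep, ← eval_itN, h3, eval_smul_hom (itN_hom hF N j), ← hΦK j]
      congr 1
      rw [eval_map, ← coe_eval₂Hom, ← RingHom.comp_apply]
      congr 1
      refine MvPolynomial.ringHom_ext (fun r => ?_) (fun i => ?_)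
      · simp
      · simp
    have h3 : ∀ a, c (s + 1) * algebraMap b.ring K
        (∑ i, BR i a * ptN (eR b e) (q (s + 1)) i) =
        c s ^ (d ^ N) * algebraMap b.ring K (eval (q s) (A a)) := by
      intro a
      rw [hev, map_sum, map_sum, Finset.mul_sum, Finset.mul_sum]
      refine Finset.sum_congr rfl fun i _ => ?_
      rw [map_mul, map_mul, mul_left_comm, h2, mul_left_comm]
    obtain ⟨g1, g2⟩ := germP_pt hBR1 (q (s + 1))
    have h4 := h3 none
    have h5 := h3 (some l)
    rw [g1, map_one, mul_one] at h4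
    rw [g2, h4, mul_assoc] at h5
    have h6 := mul_left_cancel₀ (pow_ne_zero _ (hc s)) h5
    rw [← map_mul] at h6
    rw [mul_comm]
    exact hinj h6

end Pool.Agent.Helper89.TNL

end
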