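import Pool.Agent.Helper29.MF.T31
import Pool.Agent.Helper29.MF.T33
import Pool.Agent.Helper29.MF.T30
import Pool.Agent.Helper29.MF.T21

section

namespace Pool.Agent.Helper16
end Pool.Agent.Helper16
namespace Pool.Agent.Helper30.TKN
end Pool.Agent.Helper30.TKN
namespace Pool.Agent.Helper36
end Pool.Agent.Helper36
namespace Pool.Agent.Helper38.TQ
end Pool.Agent.Helper38.TQ
namespace Pool.Agent.Helper63.TN
end Pool.Agent.Helper63.TN

/-!
# The local theorem
-/

set_option autoImplicit false

namespace Pool.Agent.Helper89.TNL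

open MvPolynomial
open Pool.Agent.Helper16 (Place IsFunctionField)
open Pool.Agent.Helper36 (step iter iter_zero iter_succ iter_succ' iter_add)
open Pool.Agent.Helper38.TQ
open Pool.Agent.Helper30.TKN
open Pool.Agent.Helper63.TN (OnI IsCurve NonPer NearPt IsPer pull)

variable {ν : ℕ} {k K : Type} [Field k] [Field K] [Algebra k K] {b : Place k K}

theorem Place_map_eval {σ : Type} (u : σ → b.ring) (Q : MvPolynomial σ b.ring) :
    algebraMap b.ring K (eval u Q) =
      eval (fun j => algebraMap b.ring K (u j)) (map (algebraMap b.ring K) Q) := by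
  rw [eval_map]
  exact (eval₂_comp (algebraMap b.ring K) u Q)

theorem Place_val_le (r : b.ring) : b.val (algebraMap b.ring K r) ≤ 1 := r.2

theorem Place_le_exp (w : WithZero (Multiplicative ℤ)) :
    w ≤ WithZero.exp ((WithZero.log w).toNat : ℤ) := by
  by_cases h : w = 0
  · rw [h]
    exact zero_le
  · conv_lhs => rw [← WithZero.exp_log h]
    rw [WithZero.exp_le_exp]
    exact Int.self_le_toNat _

/-- The values of a polynomial at integral points are bounded. -/
theorem Place_bound (b : Place k K) (P : MvPolynomial (Fin (ν + 1)) K) :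
    ∃ D : ℕ, ∀ u : Fin (ν + 1) → b.ring,
      b.val (eval (fun j => algebraMap b.ring K (u j)) P) ≤ WithZero.exp (D : ℤ) := by
  obtain ⟨c, Q, hc, hQ⟩ := exists_integral b P
  refine ⟨(WithZero.log (b.val c⁻¹)).toNat, fun u => ?_⟩
  have h1 : eval (fun j => algebraMap b.ring K (u j)) P =
      c⁻¹ * algebraMap b.ring K (eval u Q) := by
    rw [Place_map_eval, hQ, map_mul, eval_C, ← mul_assoc, inv_mul_cancel₀ hc, one_mul]
  rw [h1, map_mul]
  calc b.val c⁻¹ * b.val (algebraMap b.ring K (eval u Q)) ≤ b.val c⁻¹ * 1 :=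
        mul_le_mul' le_rfl (Place_val_le _)
    _ = b.val c⁻¹ := mul_one _
    _ ≤ _ := Place_le_exp _

/-- A small multiple with integral coefficients. -/
theorem Place_integral_poly (b : Place k K) (P : Polynomial K) (D : ℕ) :
    ∃ (c : K) (Q : Polynomial b.ring), c ≠ 0 ∧ b.val c ≤ WithZero.exp (-(D : ℤ)) ∧
      Q.map (algebraMap b.ring K) = Polynomial.C c * P := by
  classical
  obtain ⟨f, hf0, hf⟩ := b.exists_uniformizer
  set E := P.support.sup fun n => (WithZero.log (b.val (P.coeff n))).toNat with hE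
  have hpow : b.val (f ^ (D + E)) = WithZero.exp (-((D + E : ℕ) : ℤ)) := by
    rw [map_pow, hf, ← WithZero.exp_nsmul]
    congr 1
    rw [nsmul_eq_mul]
    ring
  have hmem : Polynomial.C (f ^ (D + E)) * P ∈ Polynomial.lifts (algebraMap b.ring K) := by
    rw [Polynomial.lifts_iff_coeff_lifts]
    intro n
    have h1 : b.val ((Polynomial.C (f ^ (D + E)) * P).coeff n) ≤ 1 := by
      rw [Polynomial.coeff_C_mul, map_mul, hpow]
      by_cases hn : n ∈ P.support
      · have h2 : (WithZero.log (b.val (P.coeff n))).toNat ≤ E :=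
          Finset.le_sup (f := fun n => (WithZero.log (b.val (P.coeff n))).toNat) hn
        calc WithZero.exp (-((D + E : ℕ) : ℤ)) * b.val (P.coeff n) ≤
            WithZero.exp (-((D + E : ℕ) : ℤ)) *
              WithZero.exp ((WithZero.log (b.val (P.coeff n))).toNat : ℤ) :=
              mul_le_mul' le_rfl (Place_le_exp _)
          _ = WithZero.exp (-((D + E : ℕ) : ℤ) +
              ((WithZero.log (b.val (P.coeff n))).toNat : ℤ)) := (WithZero.exp_add _ _).symm
          _ ≤ WithZero.exp 0 := by
              rw [WithZero.exp_le_exp]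
              push_cast
              omega
          _ = 1 := WithZero.exp_zero
      · rw [Polynomial.notMem_support_iff.1 hn, map_zero, mul_zero]
        exact zero_le
    exact ⟨⟨_, h1⟩, rfl⟩
  obtain ⟨Q, hQ⟩ := (Polynomial.mem_lifts _).1 hmem
  refine ⟨f ^ (D + E), Q, pow_ne_zero _ hf0, ?_, hQ⟩
  rw [hpow, WithZero.exp_le_exp]
  push_cast
  omega

theorem Place_dehom_eval (P : MvPolynomial (Fin 2) K) (t : K) :
    Polynomial.eval t (aeval (![1, Polynomial.X] : Fin 2 → Polynomial K) P) =
      eval ![1, t] P := by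
  induction P using MvPolynomial.induction_on with
  | C a => simp
  | add p q hp hq => rw [map_add, map_add, Polynomial.eval_add, hp, hq]
  | mul_X p i hp =>
    rw [map_mul, map_mul, Polynomial.eval_mul, hp, aeval_X, eval_X]
    congr 1
    fin_cases i
    · simp
    · simp

/-- The dehomogenisation of a binary form is not zero. -/
theorem Place_dehom [Infinite K] {P : MvPolynomial (Fin 2) K} {e : ℕ} (hP : P.IsHomogeneous e)
    (h0 : P ≠ 0) : aeval (![1, Polynomial.X] : Fin 2 → Polynomial K) P ≠ 0 := by
  intro h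
  refine h0 (form_two_eq_zero hP fun t => ?_)
  rw [← Place_dehom_eval, h, Polynomial.eval_zero]

/-- The polynomials whose values at the points `U s` are small whenever the values of the
equations at `U s` and at `U (s + 1)` are small. -/
def PlaceJ (b : Place k K) {π : b.ring} {τ σ : Type} (p : ℕ → τ → b.ring)
    (H : σ → MvPolynomial τ b.ring) (u : ℕ → Fin (ν + 1) → b.ring) :
    Ideal (MvPolynomial (Fin (ν + 1)) K) where
  carrier := {P | ∃ D : ℕ, ∀ I s : ℕ, (∀ i, π ^ I ∣ eval (p s) (H i)) →
    (∀ i, π ^ I ∣ eval (p (s + 1)) (H i)) →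
      b.val (eval (fun j => algebraMap b.ring K (u s j)) P) ≤ WithZero.exp ((D : ℤ) - I)}
  zero_mem' := ⟨0, fun I s _ _ => by rw [map_zero, map_zero]; exact zero_le⟩
  add_mem' := by
    rintro P Q ⟨D, hD⟩ ⟨D', hD'⟩
    refine ⟨max D D', fun I s h h' => ?_⟩
    rw [map_add]
    refine (b.val.map_add _ _).trans (max_le ((hD I s h h').trans ?_) ((hD' I s h h').trans ?_))
    · rw [WithZero.exp_le_exp]
      have := le_max_left D D'
      omega
    · rw [WithZero.exp_le_exp]
      have := le_max_right D D'
      omega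
  smul_mem' := by
    rintro P Q ⟨D, hD⟩
    obtain ⟨D', hD'⟩ := Place_bound b P
    refine ⟨D' + D, fun I s h h' => ?_⟩
    rw [smul_eq_mul, map_mul, map_mul]
    calc b.val (eval (fun j => algebraMap b.ring K (u s j)) P) *
        b.val (eval (fun j => algebraMap b.ring K (u s j)) Q) ≤
        WithZero.exp (D' : ℤ) * WithZero.exp ((D : ℤ) - I) := mul_le_mul' (hD' _) (hD I s h h')
      _ = WithZero.exp (((D' + D : ℕ) : ℤ) - I) := by
          rw [← WithZero.exp_add]
          congr 1
          push_cast
          ring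

theorem Place_aeval_self {σ : Type} (y : σ → K) (P : MvPolynomial σ K) :
    aeval y P = eval y P :=
  congrArg (fun φ => φ P) (coe_aeval_eq_eval y)

theorem Place_eval_aeval {σ τ : Type} (v : τ → K) (g : σ → MvPolynomial τ K)
    (P : MvPolynomial σ K) : eval v (aeval g P) = eval (fun i => eval v (g i)) P := by
  rw [← Place_aeval_self, ← Place_aeval_self, comp_aeval_apply]
  congr 2

/-- The coordinates of the chart are linear forms. -/
theorem Place_form {ι : Type} [Fintype ι] [DecidableEq ι] {e : Option ι → Fin (ν + 1) → k}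
    {B : Fin (ν + 1) → Option ι → k}
    (h₁ : ∀ a a', ∑ i, e a i * B i a' = if a = a' then 1 else 0) (q : ι → b.ring)
    (a : Option ι) : ∑ j, algebraMap k b.ring (B j a) * ptN (eR b e) q j =
      (if none = a then 1 else 0) + ∑ i, q i * (if some i = a then 1 else 0) := by
  have h2 : ∀ a', ∑ j, algebraMap k b.ring (B j a) * algebraMap k b.ring (e a' j) =
      if a' = a then 1 else 0 := by
    intro a'
    have h3 := congrArg (algebraMap k b.ring) (h₁ a' a)
    rw [map_sum] at h3
    simp only [map_mul] at h3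
    rw [apply_ite (algebraMap k b.ring), map_one, map_zero] at h3
    rw [← h3]
    exact Finset.sum_congr rfl fun j _ => mul_comm _ _
  unfold ptN eR
  simp only [mul_add, Finset.sum_add_distrib, Finset.mul_sum]
  rw [h2, Finset.sum_comm]
  congr 1
  refine Finset.sum_congr rfl fun i _ => ?_
  rw [← h2 (some i), Finset.mul_sum]
  exact Finset.sum_congr rfl fun j _ => by ring

/-- The iterate of a point of the chart. -/
theorem Place_step {ι : Type} [Fintype ι] [DecidableEq ι] {e : Option ι → Fin (ν + 1) → k}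
    {B : Fin (ν + 1) → Option ι → k} {π : b.ring} {χ : b.ring →+* k} (hR : Res π χ)
    (hπ : ∀ (r : b.ring) (n : ℕ), π ^ n ∣ r ↔ b.val (r : K) ≤ WithZero.exp (-(n : ℤ)))
    (h₁ : ∀ a a', ∑ i, e a i * B i a' = if a = a' then 1 else 0) {d : ℕ}
    {F : Fin (ν + 1) → MvPolynomial (Fin (ν + 1)) K}
    {f : Fin (ν + 1) → MvPolynomial (Fin (ν + 1)) k} (hF : ∀ i, (F i).IsHomogeneous d)
    (hf : GoodRed d b F f) {M : ℕ} {y y' : Fin (ν + 1) → K} {c c' : K} {q q' : ι → b.ring}
    (hc : c ≠ 0) (hy : ∀ j, y j = c * algebraMap b.ring K (ptN (eR b e) q j))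
    (hy' : ∀ j, y' j = c' * algebraMap b.ring K (ptN (eR b e) q' j))
    (hyy : y' = iter F y M) :
    ∃ l : K, b.val l ≤ 1 ∧ ∀ j, iter F (fun j => algebraMap b.ring K (ptN (eR b e) q j)) M j =
      l * algebraMap b.ring K (ptN (eR b e) q' j) := by
  set U : Fin (ν + 1) → K := fun j => algebraMap b.ring K (ptN (eR b e) q j) with hU
  have hyU : y = c • U := funext fun j => hy j
  have h2 : ∀ j, iter F y M j = c ^ d ^ M * iter F U M j := by
    intro j
    rw [← eval_itN, ← eval_itN, hyU, eval_smul_hom (itN_hom hF M j)]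
  have h3 : ∀ j, iter F U M j = c' / c ^ d ^ M * algebraMap b.ring K (ptN (eR b e) q' j) := by
    intro j
    have h4 := h2 j
    rw [← hyy, hy' j] at h4
    field_simp
    rw [mul_comm, ← h4]
  refine ⟨c' / c ^ d ^ M, ?_, h3⟩
  choose Qj hQj1 hQj2 using fun j => exists_liftN hR hπ (redP_itN hf.red M j)
  have h5 : ∀ j, iter F U M j = algebraMap b.ring K (eval (ptN (eR b e) q) (Qj j)) := by
    intro j
    rw [Place_map_eval, hQj1, ← eval_itN]
  have h6 : c' / c ^ d ^ M = algebraMap b.ring K
      (∑ j, algebraMap k b.ring (B j none) * eval (ptN (eR b e) q) (Qj j)) := by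
    rw [map_sum]
    simp only [map_mul]
    have h7 := congrArg (algebraMap b.ring K) (Place_form (b := b) h₁ q' none)
    rw [map_sum] at h7
    simp only [map_mul] at h7
    have h8 : ∑ j, algebraMap b.ring K (algebraMap k b.ring (B j none)) *
        algebraMap b.ring K (eval (ptN (eR b e) q) (Qj j)) =
        c' / c ^ d ^ M * ∑ j, algebraMap b.ring K (algebraMap k b.ring (B j none)) *
          algebraMap b.ring K (ptN (eR b e) q' j) := by
      rw [Finset.mul_sum]
      refine Finset.sum_congr rfl fun j _ => ?_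
      rw [← h5, h3]
      ring
    rw [h8, h7]
    simp
  rw [h6]
  exact Place_val_le _

theorem local_per [IsAlgClosed k] [CharZero k] [Algebra k ℂ] (hK : IsFunctionField k K) {d : ℕ}
    {F : Fin (ν + 1) → MvPolynomial (Fin (ν + 1)) K}
    {f : Fin (ν + 1) → MvPolynomial (Fin (ν + 1)) k} (hF : ∀ i, (F i).IsHomogeneous d)
    (hf : GoodRed d b F f) {I : Ideal (MvPolynomial (Fin (ν + 1)) K)} (hI : IsCurve I)
    (hnp : NonPer I F) {x : Fin (ν + 1) → K} {c N : ℕ} (hN : 0 < N)
    (hret : {j : ℕ | OnI I (iter F x (c + N * j))}.Infinite) {z : Fin (ν + 1) → k}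
    (hred : Red b (iter F x c) z) (hfix : PEq z (iter f z N)) :
    NearPt I b z (fun _ _ _ w => IsPer F w) := by
  classical
  have : CharZero K := charZero_of_injective_algebraMap (algebraMap k K).injective
  obtain ⟨π, χ, hR, hπ⟩ := exists_res hK b
  have hz : z ≠ 0 := hred.1
  obtain ⟨Q, m, m', e, B, M₁, G, γ, α, hQ, he0, h₁, h₂, hγ, hfixQ, hlin, hM₁, hG, hE⟩ :=
    exists_adapted hf.endo hz hN hfix
  -- a class with infinitely many returns
  obtain ⟨r, hr⟩ := Place_class hret hQ
  set y : ℕ → Fin (ν + 1) → K := fun s => iter F x (c + N * (r + Q * s)) with hy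
  have hyN : ∀ s, y (s + 1) = iter F (y s) (N * Q) := by
    intro s
    rw [hy]
    simp only
    rw [← iter_add]
    congr 1
    ring
  have hyred : ∀ s, Red b (y s) (e none) := by
    intro s
    rw [he0]
    have h3 : y s = iter F (iter F x c) (N * (r + Q * s)) := by
      rw [hy]
      simp only
      rw [← iter_add]
      congr 1
      ring
    rw [h3]
    exact Place_red_peq (hf.iter hF hred _) (Place_per hf.endo hfix _).symm
  -- the chart
  have hchart := fun s => exists_chart hR hπ h₁ h₂ (hyred s)
  choose cs q hcs hq hyq using hchart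
  obtain ⟨A0, A, hA, hL, horb⟩ := exists_germ hR hπ h₁ h₂ hF hf hγ
    (by rw [he0]; exact hfixQ) (by rw [he0]; exact hlin)
  have hp : OrbN π A0 A q := horb y cs q hcs hq hyq hyN
  set u : ℕ → Fin (ν + 1) → b.ring := fun s => ptN (eR b e) (q s) with hu
  set U : ℕ → Fin (ν + 1) → K := fun s j => algebraMap b.ring K (u s j) with hU
  have hyU : ∀ s, y s = cs s • U s := fun s => funext fun j => hyq s j
  have hstep : ∀ s, ∃ l : K, b.val l ≤ 1 ∧ ∀ j, iter F (U s) (N * Q) j = l * U (s + 1) j :=
    fun s => Place_step hR hπ h₁ hF hf (hcs s) (hyq s) (hyq (s + 1)) (hyN s)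
  -- the equations
  obtain ⟨σ, hσ, h, n, hhom, hmem, hspan⟩ := Place_gens hI.hom
  choose cc H hcc hH using fun i => exists_integral b (h i)
  have hval : ∀ i s, eval (U s) (h i) =
      (cc i)⁻¹ * algebraMap b.ring K (eval (q s) (chN (eR b e) (H i))) := by
    intro i s
    rw [eval_chN, Place_map_eval, hH, map_mul, eval_C, ← mul_assoc, inv_mul_cancel₀ (hcc i),
      one_mul]
  have hzero : ∀ s, OnI I (y s) → ∀ g ∈ I, eval (U s) g = 0 := by
    intro s hs g hg
    have h3 : Ideal.span (Set.range h) ≤ RingHom.ker (eval (U s)) := by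
      rw [Ideal.span_le]
      rintro _ ⟨i, rfl⟩
      rw [SetLike.mem_coe, RingHom.mem_ker]
      have h4 := hs.2 (h i) (hmem i)
      rw [Place_aeval_self, hyU, eval_smul_hom (hhom i)] at h4
      exact (mul_eq_zero.1 h4).resolve_left (pow_ne_zero _ (hcs s))
    rw [hspan] at h3
    exact h3 hg
  have hinf : {s | ∀ i, eval (q s) (chN (eR b e) (H i)) = 0}.Infinite := by
    refine hr.mono fun s hs i => ?_
    have h3 := hzero s hs (h i) (hmem i)
    rw [hval] at h3
    have h4 := (mul_eq_zero.1 h3).resolve_left (inv_ne_zero (hcc i))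
    exact Subtype.ext h4
  -- the coordinates satisfy equations
  obtain ⟨h0, hh0, e0, hh0hom, hh0not⟩ := hnp (N * Q) (Nat.mul_pos hN hQ)
  have hρ : ∀ a : Fin m, ∃ ρ : Polynomial b.ring, ρ ≠ 0 ∧ ∀ I' j,
      (∀ i, π ^ I' ∣ eval (q j) (chN (eR b e) (H i))) →
      (∀ i, π ^ I' ∣ eval (q (j + 1)) (chN (eR b e) (H i))) →
        π ^ I' ∣ ρ.eval (q j (Sum.inl a)) := by
    intro a
    obtain ⟨ρ₂, mm, hρ0, hρhom, hρmem⟩ := zeroDim hI.prime hI.hom hI.fin
      (Place_pull_hom hF hh0hom (N * Q)) hh0not (fun j => algebraMap k K (B j none))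
      (fun j => algebraMap k K (B j (some (Sum.inl a))))
    have hJ1 : ∀ i, h i ∈ PlaceJ b (π := π) q (fun i => chN (eR b e) (H i)) u := by
      intro i
      refine ⟨(WithZero.log (b.val (cc i)⁻¹)).toNat, fun I' s h3 _ => ?_⟩
      have h4 : eval (fun j => algebraMap b.ring K (u s j)) (h i) =
        (cc i)⁻¹ * algebraMap b.ring K (eval (q s) (chN (eR b e) (H i))) := hval i s
      rw [h4, map_mul, sub_eq_add_neg, WithZero.exp_add]
      exact mul_le_mul' (Place_le_exp _) ((hπ _ _).1 (h3 i))
    have hJ2 : ∀ i, pull F (N * Q) (h i) ∈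
        PlaceJ b (π := π) q (fun i => chN (eR b e) (H i)) u := by
      intro i
      obtain ⟨D, hD⟩ := hJ1 i
      refine ⟨(WithZero.log (b.val (cc i)⁻¹)).toNat, fun I' s _ h3 => ?_⟩
      obtain ⟨l, hl, hl'⟩ := hstep s
      have h4 : eval (U s) (pull F (N * Q) (h i)) = l ^ n i * eval (U (s + 1)) (h i) := by
        rw [← Place_aeval_self, Place_aeval_pull, Place_aeval_self]
        have h5 : iter F (U s) (N * Q) = l • U (s + 1) := funext fun j => hl' j
        rw [h5, eval_smul_hom (hhom i)]
      have h5 : eval (fun j => algebraMap b.ring K (u s j)) (pull F (N * Q) (h i)) =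
        l ^ n i * eval (U (s + 1)) (h i) := h4
      rw [h5, hval, map_mul, map_mul, map_pow, sub_eq_add_neg, WithZero.exp_add]
      calc b.val l ^ n i * (b.val (cc i)⁻¹ *
          b.val (algebraMap b.ring K (eval (q (s + 1)) (chN (eR b e) (H i))))) ≤
          1 * (b.val (cc i)⁻¹ *
            b.val (algebraMap b.ring K (eval (q (s + 1)) (chN (eR b e) (H i))))) :=
            mul_le_mul' (pow_le_one' hl _) le_rfl
        _ ≤ _ := by
          rw [one_mul]
          exact mul_le_mul' (Place_le_exp _) ((hπ _ _).1 (h3 i))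
    have hJ : I ⊔ Ideal.span {pull F (N * Q) h0} ≤
        PlaceJ b (π := π) q (fun i => chN (eR b e) (H i)) u := by
      refine sup_le ?_ ?_
      · rw [← hspan, Ideal.span_le]
        rintro _ ⟨i, rfl⟩
        exact hJ1 i
      · rw [Ideal.span_singleton_le_iff_mem, Place_pull]
        have h3 : Ideal.span (Set.range h) ≤
            (PlaceJ b (π := π) q (fun i => chN (eR b e) (H i)) u).comap
              (aeval (itN F (N * Q)) : _ →ₐ[K] MvPolynomial (Fin (ν + 1)) K) := by
          rw [Ideal.span_le]
          rintro _ ⟨i, rfl⟩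
          rw [SetLike.mem_coe, Ideal.mem_comap, ← Place_pull]
          exact hJ2 i
        rw [hspan] at h3
        exact h3 hh0
    obtain ⟨D, hD⟩ := hJ hρmem
    obtain ⟨c₀, ρ, hc₀, hc₀v, hρmap⟩ := Place_integral_poly b
      (aeval (![1, Polynomial.X] : Fin 2 → Polynomial K) ρ₂) D
    refine ⟨ρ, ?_, fun I' s h3 h4 => ?_⟩
    · rintro rfl
      rw [Polynomial.map_zero] at hρmap
      exact mul_ne_zero (Polynomial.C_ne_zero.2 hc₀) (Place_dehom hρhom hρ0) hρmap.symm
    · rw [hπ]
      have h5 := hD I' s h3 h4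
      have h6 : eval (fun j => algebraMap b.ring K (u s j))
          (aeval ![∑ j, C (algebraMap k K (B j none)) * X j,
            ∑ j, C (algebraMap k K (B j (some (Sum.inl a)))) * X j] ρ₂) =
          eval ![1, algebraMap b.ring K (q s (Sum.inl a))] ρ₂ := by
        rw [Place_eval_aeval]
        congr 2
        funext i
        have hB : ∀ a', eval (fun j => algebraMap b.ring K (u s j))
            (∑ j, C (algebraMap k K (B j a')) * X j) = algebraMap b.ring K
              ((if none = a' then 1 else 0) + ∑ i, q s i * (if some i = a' then 1 else 0)) := by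
          intro a'
          rw [← Place_form (b := b) h₁ (q s) a', map_sum, map_sum]
          refine Finset.sum_congr rfl fun j _ => ?_
          rw [map_mul, map_mul, eval_C, eval_X]
          rfl
        fin_cases i
        · have h7 := hB none
          simpa using h7
        · have h7 := hB (some (Sum.inl a))
          simpa using h7
      have h7 : ((ρ.eval (q s (Sum.inl a)) : b.ring) : K) =
          c₀ * eval ![1, algebraMap b.ring K (q s (Sum.inl a))] ρ₂ := by
        rw [← Place_dehom_eval, ← Polynomial.eval_C_mul, ← hρmap, Polynomial.eval_map_apply]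
        rfl
      rw [h7, map_mul]
      rw [h6] at h5
      calc b.val c₀ * b.val (eval ![1, algebraMap b.ring K (q s (Sum.inl a))] ρ₂) ≤
          WithZero.exp (-(D : ℤ)) * WithZero.exp ((D : ℤ) - I') := mul_le_mul' hc₀v h5
        _ = WithZero.exp (-(I' : ℤ)) := by
          rw [← WithZero.exp_add]
          congr 1
          ring
  have hconv := case_R hR hG hM₁ hE hA hL hp hinf hρ
  -- the limit
  have hU0 : ∀ s j, b.val (U s j - algebraMap k K (z j)) < 1 := by
    intro s j
    have h3 : U s j - algebraMap k K (z j) =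
        ((∑ i, q s i * algebraMap k b.ring (e (some i) j) : b.ring) : K) := by
      have h4 : U s j = algebraMap b.ring K (algebraMap k b.ring (e none j) +
        ∑ i, q s i * algebraMap k b.ring (e (some i) j)) := rfl
      have h5 : algebraMap k K (z j) = algebraMap b.ring K (algebraMap k b.ring (e none j)) := by
        rw [he0]
        rfl
      rw [h4, h5, map_add, add_sub_cancel_left]
      rfl
    rw [h3]
    have h4 : π ^ 1 ∣ ∑ i, q s i * algebraMap k b.ring (e (some i) j) := by
      rw [pow_one]
      exact Finset.dvd_sum fun i _ => Dvd.dvd.mul_right (hq s i) _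
    refine ((hπ _ _).1 h4).trans_lt ?_
    rw [← WithZero.exp_zero, WithZero.exp_lt_exp]
    norm_num
  have hUc : ∀ I' : ℕ, ∃ s₀, ∀ s, s₀ ≤ s → ∀ j, b.val (U (s + 1) j - U s j) ≤
      WithZero.exp (-(I' : ℤ)) := by
    intro I'
    obtain ⟨s₀, hs₀⟩ := hconv I'
    refine ⟨s₀, fun s hs j => ?_⟩
    have h3 : U (s + 1) j - U s j =
        ((∑ i, (q (s + 1) i - q s i) * algebraMap k b.ring (e (some i) j) : b.ring) : K) := by
      have h4 : ∀ t, U t j = algebraMap b.ring K (algebraMap k b.ring (e none j) +
        ∑ i, q t i * algebraMap k b.ring (e (some i) j)) := fun t => rfl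
      rw [h4, h4, ← map_sub]
      have h5 : (algebraMap k b.ring (e none j) +
          ∑ i, q (s + 1) i * algebraMap k b.ring (e (some i) j)) -
          (algebraMap k b.ring (e none j) + ∑ i, q s i * algebraMap k b.ring (e (some i) j)) =
          ∑ i, (q (s + 1) i - q s i) * algebraMap k b.ring (e (some i) j) := by
        rw [add_sub_add_left_eq_sub, ← Finset.sum_sub_distrib]
        exact Finset.sum_congr rfl fun i _ => by ring
      rw [h5]
      rfl
    rw [h3]
    exact (hπ _ _).1 (Finset.dvd_sum fun i _ => Dvd.dvd.mul_right (hs₀ s hs i) _)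
  obtain ⟨L, _, _, _, _, v, w, hv, hwz, hw⟩ := exists_limitN b hU0 hUc
  have hw0 : w ≠ 0 := by
    rintro rfl
    apply hz
    funext j
    by_contra hj
    have h3 := hwz j
    rw [Pi.zero_apply, zero_sub, Valuation.map_neg, v.triv _ hj] at h3
    exact lt_irrefl _ h3
  obtain ⟨p, hwp⟩ : ∃ p, w p ≠ 0 := Function.ne_iff.1 hw0
  have hon : OnI I w := by
    refine ⟨hw0, fun g hg => hw g fun I' => ?_⟩
    refine hr.mono fun s hs => ?_
    have h3 := hzero s hs g hg
    show b.val (eval (U s) g) ≤ _
    rw [h3, map_zero]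
    exact zero_le
  have hper : IsPer F w := by
    refine ⟨N * Q, Nat.mul_pos hN hQ, iter F w (N * Q) p / w p, ?_⟩
    funext i
    have h3 := hw (itN F (N * Q) i * X p - itN F (N * Q) p * X i) (fun I' => by
      obtain ⟨s₀, hs₀⟩ := hUc I'
      refine (Set.Ici_infinite s₀).mono fun s hs => ?_
      obtain ⟨l, hl, hl'⟩ := hstep s
      show b.val (eval (U s) _) ≤ _
      have h4 : eval (U s) (itN F (N * Q) i * X p - itN F (N * Q) p * X i) =
          l * ((U (s + 1) i - U s i) * U s p - (U (s + 1) p - U s p) * U s i) := by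
        rw [map_sub, map_mul, map_mul, eval_itN, eval_itN, eval_X, eval_X, hl', hl']
        ring
      rw [h4, map_mul]
      calc b.val l * b.val ((U (s + 1) i - U s i) * U s p - (U (s + 1) p - U s p) * U s i) ≤
          1 * WithZero.exp (-(I' : ℤ)) := by
            refine mul_le_mul' hl ((b.val.map_sub _ _).trans (max_le ?_ ?_))
            · rw [map_mul]
              calc _ ≤ WithZero.exp (-(I' : ℤ)) * 1 :=
                    mul_le_mul' (hs₀ s hs i) (Place_val_le _)
                _ = _ := mul_one _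
            · rw [map_mul]
              calc _ ≤ WithZero.exp (-(I' : ℤ)) * 1 :=
                    mul_le_mul' (hs₀ s hs p) (Place_val_le _)
                _ = _ := mul_one _
        _ = _ := one_mul _)
    rw [map_sub, map_mul, map_mul, Place_aeval_itN, Place_aeval_itN, aeval_X, aeval_X,
      sub_eq_zero] at h3
    rw [Pi.smul_apply, smul_eq_mul, div_mul_eq_mul_div, eq_div_iff hwp]
    exact h3
  exact ⟨L, inferInstance, inferInstance, inferInstance, inferInstance, v, w, hv, hon,
    ⟨hz, 1, one_ne_zero, fun i => by rw [one_mul]; exact hwz i⟩, hper⟩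

end Pool.Agent.Helper89.TNL

end

section

namespace Pool.Agent.Helper16
end Pool.Agent.Helper16
namespace Pool.Agent.Helper30.TKN
end Pool.Agent.Helper30.TKN
namespace Pool.Agent.Helper36
end Pool.Agent.Helper36
namespace Pool.Agent.Helper38.TQ
end Pool.Agent.Helper38.TQ
namespace Pool.Agent.Helper63.TN
end Pool.Agent.Helper63.TN

/-!
# The local statement
-/

set_option autoImplicit false

namespace Pool.Agent.Helper89.TNL

open MvPolynomial
open Pool.Agent.Helper16 (Place IsFunctionField)
open Pool.Agent.Helper36 (step iter)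
open Pool.Agent.Helper38.TQ
open Pool.Agent.Helper30.TKN
open Pool.Agent.Helper63.TN (OnI IsCurve NonPer NearPt IsPer pull)

variable {ν : ℕ} {k K : Type} [Field k] [Field K] [Algebra k K]

/-- At a place of good reduction at which the reduction of the orbit is periodic, the periodic
class of times containing infinitely many returns, there is a periodic point of the curve
nearby. -/
theorem local_main [IsAlgClosed k] [CharZero k] [Algebra K ℂ] (hK : IsFunctionField k K) {d : ℕ}
    {F : Fin (ν + 1) → MvPolynomial (Fin (ν + 1)) K}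
    (hF : IsEndo d fun i => map (algebraMap K ℂ) (F i))
    {I : Ideal (MvPolynomial (Fin (ν + 1)) K)} (hI : IsCurve I)
    (hnp : NonPer I F) {x : Fin (ν + 1) → K} (_hx : x ≠ 0)
    (_hdist : ∀ n n', n ≠ n' → ¬ PEq (iter F x n) (iter F x n')) {b : Place k K} {c N : ℕ}
    (hN : 0 < N) (hret : {j : ℕ | OnI I (iter F x (c + N * j))}.Infinite)
    {z : Fin (ν + 1) → k} (hred : Red b (iter F x c) z)
    {f : Fin (ν + 1) → MvPolynomial (Fin (ν + 1)) k} (hf : GoodRed d b F f)
    (hfix : PEq z (iter f z N)) :
    NearPt I b z (fun _ _ _ w => IsPer F w) := by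
  letI : Algebra k ℂ := ((algebraMap K ℂ).comp (algebraMap k K)).toAlgebra
  exact local_per hK (homog_of_endo hF) hf hI hnp hN hret hred hfix

end Pool.Agent.Helper89.TNL

end
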