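import Pool.Agent.Helper29.MF.T35

section

/-!
# The change of the linear form in the determinants
-/

set_option autoImplicit false

namespace Pool.Agent.Helper30.ZB

open MvPolynomial

variable {ν : ℕ} {k K : Type} [Field k] [Field K] [Algebra k K]

/-- The forms of degree `m₂ - e + N e` used in the determinants. -/
private noncomputable def gfam {q s : ℕ} (h : MvPolynomial (Fin (ν + 1)) K) (e : ℕ)
    (qa : Fin q → MvPolynomial (Fin (ν + 1)) K) (pc : Fin s → MvPolynomial (Fin (ν + 1)) K)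
    (N : ℕ) (c : Fin (ν + 1) → k) :
    (Fin N × Fin q) ⊕ Fin s → MvPolynomial (Fin (ν + 1)) K
  | Sum.inl (j, a) => h ^ (j : ℕ) * lf K c ^ ((N - 1 - j) * e) * qa a
  | Sum.inr i => h ^ N * pc i

private def eqv (N q s : ℕ) :
    Fin q ⊕ ((Fin N × Fin q) ⊕ Fin s) ≃ (Fin (N + 1) × Fin q) ⊕ Fin s where
  toFun
    | Sum.inl a => Sum.inl (0, a)
    | Sum.inr (Sum.inl (j, a)) => Sum.inl (j.succ, a)
    | Sum.inr (Sum.inr i) => Sum.inr i
  invFun
    | Sum.inl (j, a) => Fin.cases (Sum.inl a) (fun j' => Sum.inr (Sum.inl (j', a))) j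
    | Sum.inr i => Sum.inr (Sum.inr i)
  left_inv := by
    rintro (a | (⟨j, a⟩ | i)) <;> simp
  right_inv := by
    rintro (⟨j, a⟩ | i)
    · refine Fin.cases ?_ (fun j' => ?_) j <;> simp
    · simp

section

variable {J : Ideal (MvPolynomial (Fin (ν + 1)) K)} {h : MvPolynomial (Fin (ν + 1)) K}
  {e : ℕ} {c : Fin (ν + 1) → k} {m₂ q s : ℕ} {qa : Fin q → MvPolynomial (Fin (ν + 1)) K}
  {pc : Fin s → MvPolynomial (Fin (ν + 1)) K}

private theorem gfam_zero (N : ℕ) (a : Fin q) :
    gfam h e qa pc (N + 1) c (eqv N q s (Sum.inl a)) = lf K c ^ (N * e) * qa a := by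
  simp [gfam, eqv]

private theorem gfam_succ (N : ℕ) (κ : (Fin N × Fin q) ⊕ Fin s) :
    gfam h e qa pc (N + 1) c (eqv N q s (Sum.inr κ)) = h * gfam h e qa pc N c κ := by
  rcases κ with (⟨j, a⟩ | i)
  · simp only [gfam, eqv, Equiv.coe_fn_mk, Fin.val_succ]
    rw [show N + 1 - 1 - ((j : ℕ) + 1) = N - 1 - j by omega]
    ring
  · simp only [gfam, eqv, Equiv.coe_fn_mk]
    ring

private theorem sum_succ (N : ℕ) (a : (Fin (N + 1) × Fin q) ⊕ Fin s → K) :
    ∑ κ, C (a κ) * gfam h e qa pc (N + 1) c κ =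
      ∑ b, C (a (eqv N q s (Sum.inl b))) * (lf K c ^ (N * e) * qa b) +
        h * ∑ κ, C (a (eqv N q s (Sum.inr κ))) * gfam h e qa pc N c κ := by
  rw [← Equiv.sum_comp (eqv N q s), Fintype.sum_sum_type]
  congr 1
  · exact Finset.sum_congr rfl fun b _ => by rw [gfam_zero]
  · rw [Finset.mul_sum]
    exact Finset.sum_congr rfl fun κ _ => by rw [gfam_succ]; ring

private theorem cls_C_mul (I : Ideal (MvPolynomial (Fin (ν + 1)) K)) (α : K)
    (p : MvPolynomial (Fin (ν + 1)) K) : cls I c (C α * p) = α • cls I c p := by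
  rw [Algebra.smul_def, cls, cls, map_mul]
  rfl

private theorem cls_lf (I : Ideal (MvPolynomial (Fin (ν + 1)) K)) :
    cls I c (lf K c) = 1 := by
  have h1 : cls I c (lf K c - 1) = 0 :=
    Ideal.Quotient.eq_zero_iff_mem.2 (Ideal.mem_sup_right (Ideal.mem_span_singleton_self _))
  have h2 : cls I c (lf K c - 1) = cls I c (lf K c) - 1 := by
    rw [cls, map_sub, map_one]
  rw [h2] at h1
  exact sub_eq_zero.1 h1

private theorem cls_mem {I : Ideal (MvPolynomial (Fin (ν + 1)) K)}
    {p : MvPolynomial (Fin (ν + 1)) K} (hp : p ∈ I) : cls I c p = 0 :=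
  Ideal.Quotient.eq_zero_iff_mem.2 (Ideal.mem_sup_left hp)

private theorem gfam_ind (D : Data J h e c m₂ q s qa pc) (N : ℕ)
    (a : (Fin N × Fin q) ⊕ Fin s → K)
    (ha : ∑ κ, C (a κ) * gfam h e qa pc N c κ ∈ J) : a = 0 := by
  induction N with
  | zero =>
    rw [Fintype.sum_sum_type] at ha
    have h1 : ∑ i, C (a (Sum.inr i)) * pc i ∈ J := by
      simpa [gfam] using ha
    have h2 := D.pc_ind _ h1
    funext κ
    rcases κ with (⟨j, b⟩ | i)
    · exact j.elim0
    · exact congrFun h2 i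
  | succ N ih =>
    rw [sum_succ] at ha
    have h1 : ∑ b, a (eqv N q s (Sum.inl b)) • cls (J ⊔ Ideal.span {h}) c (qa b) = 0 := by
      have h2 := cls_mem (c := c) (show _ ∈ J ⊔ Ideal.span {h} from Ideal.mem_sup_left ha)
      rw [cls, map_add, map_mul, map_sum] at h2
      have h3 : (Ideal.Quotient.mk (J ⊔ Ideal.span {h} ⊔ Ideal.span {lf K c - 1})) h = 0 :=
        cls_mem (c := c) (Ideal.mem_sup_right (Ideal.mem_span_singleton_self h))
      rw [h3, zero_mul, add_zero] at h2
      rw [← h2]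
      refine Finset.sum_congr rfl fun b _ => ?_
      have h4 := cls_C_mul (c := c) (J ⊔ Ideal.span {h}) (a (eqv N q s (Sum.inl b)))
        (lf K c ^ (N * e) * qa b)
      have h5 : cls (J ⊔ Ideal.span {h}) c (lf K c ^ (N * e) * qa b) =
          cls (J ⊔ Ideal.span {h}) c (qa b) := by
        rw [cls, map_mul, map_pow]
        have h6 := cls_lf (c := c) (J ⊔ Ideal.span {h})
        rw [cls] at h6
        rw [h6, one_pow, one_mul]
      rw [h5] at h4
      exact h4.symm
    have h2 := (Fintype.linearIndependent_iff.1 D.qa_ind) _ h1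
    have h3 : h * ∑ κ, C (a (eqv N q s (Sum.inr κ))) * gfam h e qa pc N c κ ∈ J := by
      have h4 : ∑ b, C (a (eqv N q s (Sum.inl b))) * (lf K c ^ (N * e) * qa b) = 0 := by
        refine Finset.sum_eq_zero fun b _ => ?_
        rw [h2 b, C_0, zero_mul]
      rwa [h4, zero_add] at ha
    have h4 := ih _ ((D.prime.mem_or_mem h3).resolve_left D.h_not)
    funext κ
    obtain ⟨κ', rfl⟩ := (eqv N q s).surjective κ
    rcases κ' with (b | κ')
    · exact h2 b
    · exact congrFun h4 κ'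

private theorem lf_hom (c : Fin (ν + 1) → k) : (lf K c).IsHomogeneous 1 := by
  refine IsHomogeneous.sum _ _ _ fun i _ => ?_
  simpa using (isHomogeneous_C (Fin (ν + 1)) (algebraMap k K (c i))).mul (isHomogeneous_X K i)

/-- A form in `J + (h)` is a multiple of `h` by a form, modulo `J`. -/
private theorem exists_mul (hJ : Hom J) (hh : h.IsHomogeneous e) {m : ℕ}
    {G : MvPolynomial (Fin (ν + 1)) K} (hG : G.IsHomogeneous (m + e))
    (hGI : G ∈ J ⊔ Ideal.span {h}) : ∃ w : MvPolynomial (Fin (ν + 1)) K,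
      w.IsHomogeneous m ∧ G - h * w ∈ J := by
  obtain ⟨g₁, hg₁, g₂, hg₂, rfl⟩ := Submodule.mem_sup.1 hGI
  obtain ⟨w, rfl⟩ := Ideal.mem_span_singleton'.1 hg₂
  refine ⟨homogeneousComponent m w, homogeneousComponent_isHomogeneous m w, ?_⟩
  have h1 : homogeneousComponent (m + e) (g₁ + w * h) = g₁ + w * h := by
    rw [homogeneousComponent_of_mem (show g₁ + w * h ∈ homogeneousSubmodule _ K (m + e) from hG),
      if_pos rfl]
  rw [map_add, Pool.Agent.Helper36.homogeneousComponent_mul_of_homogeneous hh] at h1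
  have h2 : g₁ + w * h - h * homogeneousComponent m w = homogeneousComponent (m + e) g₁ := by
    rw [← h1]; ring
  rw [h2]
  exact hJ _ hg₁ _

private theorem gfam_step (D : Data J h e c m₂ q s qa pc) (N : ℕ)
    (B : Module.Basis (Fin q) K (Qo (J ⊔ Ideal.span {h}) c))
    (hB : ∀ a, B a = cls (J ⊔ Ideal.span {h}) c (qa a))
    {G : MvPolynomial (Fin (ν + 1)) K} (hG : G.IsHomogeneous (m₂ + N * e)) :
    ∃ w : MvPolynomial (Fin (ν + 1)) K, w.IsHomogeneous (m₂ - e + N * e) ∧
      G - (∑ b, C (B.repr (cls (J ⊔ Ideal.span {h}) c G) b) * (lf K c ^ (N * e) * qa b) +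
        h * w) ∈ J := by
  set G' := G - ∑ b, C (B.repr (cls (J ⊔ Ideal.span {h}) c G) b) *
    (lf K c ^ (N * e) * qa b) with hG'
  have h1 : G'.IsHomogeneous (m₂ + N * e) := by
    refine hG.sub (IsHomogeneous.sum _ _ _ fun b _ => ?_)
    have h2 := (isHomogeneous_C (Fin (ν + 1)) (B.repr (cls (J ⊔ Ideal.span {h}) c G) b)).mul
      (((lf_hom (K := K) c).pow (N * e)).mul (D.qa_hom b))
    rwa [show 0 + (1 * (N * e) + m₂) = m₂ + N * e by ring] at h2
  have h2 : cls (J ⊔ Ideal.span {h}) c G' = 0 := by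
    have h3 : cls (J ⊔ Ideal.span {h}) c G' = cls (J ⊔ Ideal.span {h}) c G - ∑ b, cls (J ⊔ Ideal.span {h}) c
        (C (B.repr (cls (J ⊔ Ideal.span {h}) c G) b) * (lf K c ^ (N * e) * qa b)) := by
      rw [hG', cls, map_sub, map_sum]
    have h4 : ∀ b, cls (J ⊔ Ideal.span {h}) c (C (B.repr (cls (J ⊔ Ideal.span {h}) c G) b) * (lf K c ^ (N * e) * qa b)) =
        B.repr (cls (J ⊔ Ideal.span {h}) c G) b • B b := by
      intro b
      rw [cls_C_mul, hB b]
      congr 1
      rw [cls, map_mul, map_pow]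
      have h6 := cls_lf (c := c) (J ⊔ Ideal.span {h})
      rw [cls] at h6
      rw [h6, one_pow, one_mul]
    rw [h3, Finset.sum_congr rfl fun b _ => h4 b, B.sum_repr, sub_self]
  have h3 := D.qa_gen (m₂ + N * e) (Nat.le_add_right _ _) G' h1 h2
  have h4 : m₂ + N * e = m₂ - e + N * e + e := by
    have := D.e_le
    omega
  rw [h4] at h1
  obtain ⟨w, hw, hw'⟩ := exists_mul D.hom D.h_hom h1 h3
  refine ⟨w, hw, ?_⟩
  rwa [hG', sub_sub] at hw'

private theorem gfam_span (D : Data J h e c m₂ q s qa pc) (N : ℕ)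
    {G : MvPolynomial (Fin (ν + 1)) K} (hG : G.IsHomogeneous (m₂ - e + N * e)) :
    ∃ a : (Fin N × Fin q) ⊕ Fin s → K, G - ∑ κ, C (a κ) * gfam h e qa pc N c κ ∈ J := by
  induction N generalizing G with
  | zero =>
    rw [zero_mul, add_zero] at hG
    obtain ⟨a, ha⟩ := D.pc_span G hG
    refine ⟨Sum.elim (fun _ => 0) a, ?_⟩
    rw [Fintype.sum_sum_type]
    simpa [gfam] using ha
  | succ N ih =>
    have h1 : m₂ - e + (N + 1) * e = m₂ + N * e := by
      have := D.e_le
      have h2 : (N + 1) * e = N * e + e := by ring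
      omega
    rw [h1] at hG
    obtain ⟨w, hw, hw'⟩ := gfam_step D N (Module.Basis.mk D.qa_ind D.qa_span)
      (fun a => by rw [Module.Basis.mk_apply]) hG
    obtain ⟨a, ha⟩ := ih hw
    set β := (Module.Basis.mk D.qa_ind D.qa_span).repr (cls (J ⊔ Ideal.span {h}) c G) with hβ
    refine ⟨fun κ => Sum.elim (fun b => β b) a ((eqv N q s).symm κ), ?_⟩
    rw [sum_succ]
    simp only [Equiv.symm_apply_apply, Sum.elim_inl, Sum.elim_inr]
    have h2 : G - (∑ b, C (β b) * (lf K c ^ (N * e) * qa b) +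
        h * ∑ κ, C (a κ) * gfam h e qa pc N c κ) =
        (G - (∑ b, C (β b) * (lf K c ^ (N * e) * qa b) + h * w)) +
          h * (w - ∑ κ, C (a κ) * gfam h e qa pc N c κ) := by ring
    rw [h2]
    exact J.add_mem hw' (J.mul_mem_left _ ha)

private theorem gfam_change (D : Data J h e c m₂ q s qa pc) (N : ℕ) (c' : Fin (ν + 1) → k) :
    ∃ T : Matrix ((Fin N × Fin q) ⊕ Fin s) ((Fin N × Fin q) ⊕ Fin s) K,
      (∀ κ, gfam h e qa pc N c' κ - ∑ κ', C (T κ κ') * gfam h e qa pc N c κ' ∈ J) ∧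
      T.det = (Algebra.norm K (cls (J ⊔ Ideal.span {h}) c (lf K c'))) ^
        (e * (N * (N - 1) / 2)) := by
  classical
  induction N with
  | zero =>
    refine ⟨1, fun κ => ?_, ?_⟩
    · rcases κ with (⟨j, b⟩ | i)
      · exact j.elim0
      · have h1 : ∑ κ', C ((1 : Matrix ((Fin 0 × Fin q) ⊕ Fin s) ((Fin 0 × Fin q) ⊕ Fin s) K)
            (Sum.inr i) κ') * gfam h e qa pc 0 c κ' = gfam h e qa pc 0 c (Sum.inr i) := by
          rw [Finset.sum_eq_single (Sum.inr i)]
          · rw [Matrix.one_apply_eq, C_1, one_mul]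
          · intro κ' _ hκ'
            rw [Matrix.one_apply_ne (Ne.symm hκ'), C_0, zero_mul]
          · intro h1
            exact absurd (Finset.mem_univ _) h1
        rw [h1]
        simp [gfam]
    · simp
  | succ N ih =>
    obtain ⟨T, hT1, hT2⟩ := ih
    set I : Ideal (MvPolynomial (Fin (ν + 1)) K) := J ⊔ Ideal.span {h} with hI
    set B := Module.Basis.mk D.qa_ind D.qa_span with hB
    have hBa : ∀ a, B a = cls I c (qa a) := fun a => by rw [hB, Module.Basis.mk_apply]
    have hdeg : ∀ a, (lf K c' ^ (N * e) * qa a).IsHomogeneous (m₂ + N * e) := by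
      intro a
      have h2 := ((lf_hom (K := K) c').pow (N * e)).mul (D.qa_hom a)
      rwa [show 1 * (N * e) + m₂ = m₂ + N * e by ring] at h2
    choose w hw1 hw2 using fun a => gfam_step D N B hBa (hdeg a)
    choose b hb using fun a => gfam_span D N (hw1 a)
    set M : Matrix (Fin q) (Fin q) K :=
      (Algebra.leftMulMatrix B (cls I c (lf K c') ^ (N * e))).transpose with hM
    have hMr : ∀ a a', B.repr (cls I c (lf K c' ^ (N * e) * qa a)) a' = M a a' := by
      intro a a'
      rw [hM, Matrix.transpose_apply, Algebra.leftMulMatrix_eq_repr_mul, hBa, cls, map_mul,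
        map_pow]
    set T' := Matrix.fromBlocks M (Matrix.of b) 0 T with hT'
    refine ⟨Matrix.reindex (eqv N q s) (eqv N q s) T', fun κ => ?_, ?_⟩
    · obtain ⟨κ₀, rfl⟩ := (eqv N q s).surjective κ
      rw [sum_succ]
      simp only [Matrix.reindex_apply, Matrix.submatrix_apply, Equiv.symm_apply_apply]
      rcases κ₀ with (a | κ₁)
      · rw [gfam_zero]
        simp only [hT', Matrix.fromBlocks_apply₁₁, Matrix.fromBlocks_apply₁₂, Matrix.of_apply]
        have h1 := hw2 a
        have h2 : lf K c' ^ (N * e) * qa a -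
            (∑ x, C (M a x) * (lf K c ^ (N * e) * qa x) +
              h * ∑ x, C (b a x) * gfam h e qa pc N c x) =
            (lf K c' ^ (N * e) * qa a - (∑ x, C (B.repr (cls I c (lf K c' ^ (N * e) * qa a)) x) *
              (lf K c ^ (N * e) * qa x) + h * w a)) +
            h * (w a - ∑ x, C (b a x) * gfam h e qa pc N c x) := by
          simp only [hMr]
          ring
        rw [h2]
        exact J.add_mem h1 (J.mul_mem_left _ (hb a))
      · rw [gfam_succ]
        simp only [hT', Matrix.fromBlocks_apply₂₁, Matrix.fromBlocks_apply₂₂, Matrix.zero_apply,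
          C_0, zero_mul, Finset.sum_const_zero, zero_add]
        rw [← mul_sub]
        exact J.mul_mem_left _ (hT1 κ₁)
    · rw [Matrix.det_reindex_self, hT', Matrix.det_fromBlocks_zero₂₁, hT2, hM,
        Matrix.det_transpose, ← Algebra.norm_eq_matrix_det, map_pow, ← pow_add]
      congr 1
      rw [Nat.add_sub_cancel]
      have h2 : (N + 1) * N / 2 = N * (N - 1) / 2 + N := by
        rcases N with _ | N
        · simp
        · have h3 : (N + 1 + 1) * (N + 1) = (N + 1) * (N + 1 - 1) + (N + 1) * 2 := by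
            rw [Nat.add_sub_cancel]; ring
          rw [h3, Nat.add_mul_div_right _ _ (by norm_num)]
      rw [h2]
      ring

end

/-- The family is linearly independent modulo `J`. -/
theorem Det_ind {J : Ideal (MvPolynomial (Fin (ν + 1)) K)} {h : MvPolynomial (Fin (ν + 1)) K}
    {e : ℕ} {c : Fin (ν + 1) → k} {m₂ q s : ℕ} {qa : Fin q → MvPolynomial (Fin (ν + 1)) K}
    {pc : Fin s → MvPolynomial (Fin (ν + 1)) K} (D : Data J h e c m₂ q s qa pc) (n : ℕ)
    (a : (Fin (n + 1) × Fin q) ⊕ Fin s → K)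
    (ha : ∑ κ, C (a κ) * fam h e qa pc n c κ ∈ J) : a = 0 := by
  have h1 : fam h e qa pc n c = gfam h e qa pc (n + 1) c := by
    funext κ
    rcases κ with (⟨j, b⟩ | i) <;> rfl
  rw [h1] at ha
  exact gfam_ind D (n + 1) a ha

/-- The family for another linear form `l'` is obtained from the family for `l` by a matrix over
`K` (modulo `J`) with determinant `N(l')^(e n (n+1) / 2)`. -/
theorem Det_change {J : Ideal (MvPolynomial (Fin (ν + 1)) K)} {h : MvPolynomial (Fin (ν + 1)) K}
    {e : ℕ} {c : Fin (ν + 1) → k} {m₂ q s : ℕ} {qa : Fin q → MvPolynomial (Fin (ν + 1)) K}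
    {pc : Fin s → MvPolynomial (Fin (ν + 1)) K} (D : Data J h e c m₂ q s qa pc) (n : ℕ)
    (c' : Fin (ν + 1) → k) :
    ∃ T : Matrix ((Fin (n + 1) × Fin q) ⊕ Fin s) ((Fin (n + 1) × Fin q) ⊕ Fin s) K,
      (∀ κ, fam h e qa pc n c' κ - ∑ κ', C (T κ κ') * fam h e qa pc n c κ' ∈ J) ∧
      T.det = (Algebra.norm K (cls (J ⊔ Ideal.span {h}) c (lf K c'))) ^ (e * (n * (n + 1) / 2)) := by
  have h1 : ∀ c : Fin (ν + 1) → k, fam h e qa pc n c = gfam h e qa pc (n + 1) c := by
    intro c
    funext κ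
    rcases κ with (⟨j, b⟩ | i) <;> rfl
  obtain ⟨T, hT1, hT2⟩ := gfam_change D (n + 1) c'
  refine ⟨T, fun κ => ?_, ?_⟩
  · rw [h1, h1]
    exact hT1 κ
  · rw [hT2, Nat.add_sub_cancel, mul_comm (n + 1) n]

end Pool.Agent.Helper30.ZB

end
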