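import Pool.Agent.Helper29.MF.T35

section

namespace Pool.Agent.Helper16
end Pool.Agent.Helper16
namespace Pool.Agent.Helper30.TKN
end Pool.Agent.Helper30.TKN
namespace Pool.Agent.Helper38.TQ
end Pool.Agent.Helper38.TQ

/-!
# The ultrametric bound for determinants
-/

set_option autoImplicit false

namespace Pool.Agent.Helper30.ZB

open MvPolynomial
open Pool.Agent.Helper16 (Place IsFunctionField)
open Pool.Agent.Helper38.TQ
open Pool.Agent.Helper30.TKN

variable {ν : ℕ} {k K : Type} [Field k] [Field K] [Algebra k K]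

theorem UDet_gs_mul (b : Place k K) (P Q : MvPolynomial (Fin (ν + 1)) K) :
    gs b (P * Q) ≤ gs b P * gs b Q := by
  classical
  refine formHeight_gs_le fun m => ?_
  rw [coeff_mul]
  refine b.val.map_sum_le fun p _ => ?_
  rw [map_mul]
  exact mul_le_mul' (formHeight_le b P _) (formHeight_le b Q _)

theorem UDet_triv (b : Place k K) (a : k) : b.val (algebraMap k K a) ≤ 1 := by
  by_cases h : a = 0
  · rw [h, map_zero, map_zero]
    exact zero_le
  · exact (b.triv a h).le

theorem UDet_gs_lf (b : Place k K) (c : Fin (ν + 1) → k) : gs b (lf K c) ≤ 1 := by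
  classical
  refine formHeight_gs_le fun m => ?_
  unfold lf
  rw [coeff_sum]
  refine b.val.map_sum_le fun i _ => ?_
  rw [coeff_C_mul, map_mul, coeff_X]
  refine mul_le_one' (UDet_triv b _) ?_
  split_ifs
  · rw [map_one]
  · rw [map_zero]
    exact zero_le

theorem UDet_gs_one (b : Place k K) : gs b (1 : MvPolynomial (Fin (ν + 1)) K) ≤ 1 := by
  classical
  refine formHeight_gs_le fun m => ?_
  rw [coeff_one]
  split_ifs
  · rw [map_one]
  · rw [map_zero]
    exact zero_le

theorem UDet_gs_pow (b : Place k K) (P : MvPolynomial (Fin (ν + 1)) K) (n : ℕ) :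
    gs b (P ^ n) ≤ gs b P ^ n := by
  induction n with
  | zero =>
    rw [pow_zero, pow_zero]
    exact UDet_gs_one b
  | succ n ih =>
    rw [pow_succ, pow_succ]
    exact (UDet_gs_mul b _ _).trans (mul_le_mul' ih le_rfl)

theorem UDet_le (b : Place k K) {ι : Type} [Fintype ι] [DecidableEq ι]
    (P : ι → Fin (ν + 1) → K) (g : ι → MvPolynomial (Fin (ν + 1)) K) {m : ℕ}
    (hg : ∀ κ, (g κ).IsHomogeneous m) :
    b.val (Matrix.of fun i κ => eval (P i) (g κ)).det ≤
      (∏ i, nrm b (P i) ^ m) * ∏ κ, gs b (g κ) := by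
  rw [Matrix.det_apply]
  refine b.val.map_sum_le fun σ _ => ?_
  have h1 : b.val (Equiv.Perm.sign σ • ∏ i, (Matrix.of fun i κ => eval (P i) (g κ)) (σ i) i) =
      b.val (∏ i, eval (P (σ i)) (g i)) := by
    rcases Int.units_eq_one_or (Equiv.Perm.sign σ) with h | h
    · rw [h, one_smul]
      rfl
    · rw [h, Units.neg_smul, one_smul, Valuation.map_neg]
      rfl
  rw [h1, map_prod, ← Equiv.prod_comp σ fun i => nrm b (P i) ^ m, ← Finset.prod_mul_distrib]
  refine Finset.prod_le_prod' fun i _ => ?_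
  rw [mul_comm]
  exact low_val_eval_le b (hg i) _

/-- The forms of the family. -/
theorem UDet_fam {M : Type} [Field M] [Algebra k M] [Algebra K M] [IsScalarTower k K M]
    (v : Place k M) {q s : ℕ} {h : MvPolynomial (Fin (ν + 1)) K} {e : ℕ}
    {qa : Fin q → MvPolynomial (Fin (ν + 1)) K} {pc : Fin s → MvPolynomial (Fin (ν + 1)) K}
    (n : ℕ) (c : Fin (ν + 1) → k) :
    ∏ κ, gs v (map (algebraMap K M) (fam h e qa pc n c κ)) ≤
      gs v (map (algebraMap K M) h) ^ (q * (n * (n + 1) / 2) + (n + 1) * s) *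
        (∏ a, gs v (map (algebraMap K M) (qa a))) ^ (n + 1) *
          ∏ i, gs v (map (algebraMap K M) (pc i)) := by
  set H := gs v (map (algebraMap K M) h) with hH
  have hl : map (algebraMap K M) (lf K c) = lf M c := by
    unfold lf
    rw [map_sum]
    refine Finset.sum_congr rfl fun i _ => ?_
    rw [map_mul, map_C, map_X, ← IsScalarTower.algebraMap_apply]
  have h1 : ∀ (j : Fin (n + 1)) (a : Fin q),
      gs v (map (algebraMap K M) (fam h e qa pc n c (Sum.inl (j, a)))) ≤
        H ^ (j : ℕ) * gs v (map (algebraMap K M) (qa a)) := by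
    intro j a
    show gs v (map (algebraMap K M) (h ^ (j : ℕ) * lf K c ^ ((n - j) * e) * qa a)) ≤ _
    rw [map_mul, map_mul, map_pow, map_pow, hl]
    refine (UDet_gs_mul v _ _).trans (mul_le_mul' ?_ le_rfl)
    refine (UDet_gs_mul v _ _).trans ?_
    have h2 : gs v (lf M c ^ ((n - (j : ℕ)) * e)) ≤ 1 :=
      (UDet_gs_pow v _ _).trans (pow_le_one₀ zero_le (UDet_gs_lf v c))
    calc _ ≤ H ^ (j : ℕ) * 1 := mul_le_mul' (UDet_gs_pow v _ _) h2
      _ = _ := mul_one _
  have h2 : ∀ i : Fin s,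
      gs v (map (algebraMap K M) (fam h e qa pc n c (Sum.inr i))) ≤
        H ^ (n + 1) * gs v (map (algebraMap K M) (pc i)) := by
    intro i
    show gs v (map (algebraMap K M) (h ^ (n + 1) * pc i)) ≤ _
    rw [map_mul, map_pow]
    exact (UDet_gs_mul v _ _).trans (mul_le_mul' (UDet_gs_pow v _ _) le_rfl)
  have h3 : ∑ j : Fin (n + 1), (j : ℕ) = n * (n + 1) / 2 := by
    rw [Fin.sum_univ_eq_sum_range fun i => i, Finset.sum_range_id, Nat.add_sub_cancel, mul_comm]
  rw [Fintype.prod_sum_type, Fintype.prod_prod_type]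
  calc _ ≤ (∏ j : Fin (n + 1), ∏ a, (H ^ (j : ℕ) * gs v (map (algebraMap K M) (qa a)))) *
        ∏ i, (H ^ (n + 1) * gs v (map (algebraMap K M) (pc i))) :=
        mul_le_mul' (Finset.prod_le_prod' fun j _ => Finset.prod_le_prod' fun a _ => h1 j a)
          (Finset.prod_le_prod' fun i _ => h2 i)
    _ = _ := by
        simp only [Finset.prod_mul_distrib, Finset.prod_const, Finset.card_univ, Fintype.card_fin]
        rw [Finset.prod_pow, Finset.prod_pow_eq_pow_sum, h3, ← pow_mul, ← pow_mul, pow_add H,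
          mul_comm q, mul_mul_mul_comm, ← mul_assoc]

end Pool.Agent.Helper30.ZB

end

section

/-!
# The points of a finite scheme
-/

set_option autoImplicit false

namespace Pool.Agent.Helper30.ZB

open MvPolynomial

variable {ν : ℕ} {k K : Type} [Field k] [Field K] [Algebra k K]

/-- Zeros of `I` are given by algebra homomorphisms. -/
theorem Pts_zero {I : Ideal (MvPolynomial (Fin (ν + 1)) K)} (hI : Hom I) {c : Fin (ν + 1) → k}
    {m₁ : ℕ} (hm : Misses I c m₁) (K' : Type) [Field K'] [Algebra K K']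
    (u : Fin (ν + 1) → K') (hu : u ≠ 0) (hz : ∀ g ∈ I, aeval u g = 0) :
    ∃ (ψ : Qo I c →ₐ[K] K') (a : K'), a ≠ 0 ∧ u = fun i => a * ψ (cls I c (X i)) := by
  set a : K' := aeval u (lf K c) with ha
  have ha0 : a ≠ 0 := by
    intro h0
    obtain ⟨i, hi⟩ := Function.ne_iff.1 hu
    have h1 := hm m₁ le_rfl (X i ^ m₁) (by
      have h := (isHomogeneous_X K i).pow m₁
      rwa [one_mul] at h)
    have h2 : I ⊔ Ideal.span {lf K c} ≤ RingHom.ker (aeval u : _ →ₐ[K] K').toRingHom := by
      rw [sup_le_iff, Ideal.span_singleton_le_iff_mem]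
      exact ⟨fun g hg => hz g hg, h0⟩
    have h3 : aeval u (X i ^ m₁ : MvPolynomial (Fin (ν + 1)) K) = 0 := h2 h1
    rw [map_pow, aeval_X] at h3
    exact hi (eq_zero_of_pow_eq_zero h3)
  -- scaling a form
  have hscale : ∀ (n : ℕ) (p : MvPolynomial (Fin (ν + 1)) K), p.IsHomogeneous n →
      aeval (fun i => a⁻¹ * u i) p = a⁻¹ ^ n * aeval u p := by
    intro n p hp
    rw [aeval_def, aeval_def, eval₂_eq, eval₂_eq, Finset.mul_sum]
    refine Finset.sum_congr rfl fun m hmem => ?_
    have h1 : ∑ i ∈ m.support, m i = n := by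
      have h := hp (mem_support_iff.1 hmem)
      rw [← h, Finsupp.weight_apply, Finsupp.sum]
      simp
    have h2 : ∏ i ∈ m.support, (a⁻¹ * u i) ^ m i = a⁻¹ ^ n * ∏ i ∈ m.support, u i ^ m i := by
      rw [← h1, ← Finset.prod_pow_eq_pow_sum, ← Finset.prod_mul_distrib]
      exact Finset.prod_congr rfl fun i _ => mul_pow _ _ _
    rw [h2]
    ring
  have hker : I ⊔ Ideal.span {lf K c - 1} ≤
      RingHom.ker (aeval (fun i => a⁻¹ * u i) : _ →ₐ[K] K').toRingHom := by
    rw [sup_le_iff, Ideal.span_singleton_le_iff_mem]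
    constructor
    · intro g hg
      show aeval (fun i => a⁻¹ * u i) g = 0
      rw [← sum_homogeneousComponent g, map_sum]
      refine Finset.sum_eq_zero fun n _ => ?_
      rw [hscale n _ (homogeneousComponent_isHomogeneous n g), hz _ (hI g hg n), mul_zero]
    · show aeval (fun i => a⁻¹ * u i) (lf K c - 1) = 0
      have h1 : (lf K c).IsHomogeneous 1 := by
        unfold lf
        refine IsHomogeneous.sum _ _ _ fun i _ => ?_
        have h := (isHomogeneous_C (Fin (ν + 1)) (algebraMap k K (c i))).mul (isHomogeneous_X K i)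
        rwa [zero_add] at h
      rw [map_sub, hscale 1 _ h1, map_one, pow_one, ← ha, inv_mul_cancel₀ ha0, sub_self]
  have hker' : ∀ p ∈ I ⊔ Ideal.span {lf K c - 1}, (aeval (fun i => a⁻¹ * u i) : _ →ₐ[K] K') p = 0 :=
    fun p hp => hker hp
  refine ⟨Ideal.Quotient.liftₐ (I ⊔ Ideal.span {lf K c - 1})
    (aeval (fun i => a⁻¹ * u i) : _ →ₐ[K] K') hker', a, ha0, ?_⟩
  funext i
  have h1 : (Ideal.Quotient.liftₐ (I ⊔ Ideal.span {lf K c - 1})
      (aeval (fun i => a⁻¹ * u i) : _ →ₐ[K] K') hker') (cls I c (X i)) = a⁻¹ * u i :=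
    aeval_X _ i
  rw [h1, mul_inv_cancel_left₀ ha0]

/-- Algebra homomorphisms give zeros of `I`. -/
theorem Pts_of_hom {I : Ideal (MvPolynomial (Fin (ν + 1)) K)} {c : Fin (ν + 1) → k}
    (K' : Type) [Field K'] [Algebra K K'] (ψ : Qo I c →ₐ[K] K') :
    (∀ g ∈ I, aeval (fun i => ψ (cls I c (X i))) g = 0) ∧
      (fun i => ψ (cls I c (X i))) ≠ 0 ∧
      ∀ p, aeval (fun i => ψ (cls I c (X i))) p = ψ (cls I c p) := by
  have h3 : ∀ p, aeval (fun i => ψ (cls I c (X i))) p = ψ (cls I c p) := by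
    have h := MvPolynomial.algHom_ext (A := K') (f := aeval (fun i => ψ (cls I c (X i))))
      (g := ψ.comp (Ideal.Quotient.mkₐ K (I ⊔ Ideal.span {lf K c - 1}))) (fun i => by
        rw [aeval_X]
        rfl)
    intro p
    exact congrArg (fun f : MvPolynomial (Fin (ν + 1)) K →ₐ[K] K' => f p) h
  refine ⟨fun g hg => ?_, fun h0 => ?_, h3⟩
  · rw [h3]
    have h1 : cls I c g = 0 := Ideal.Quotient.eq_zero_iff_mem.2 (Ideal.mem_sup_left hg)
    rw [h1, map_zero]
  · have h1 : cls I c (lf K c - 1) = 0 :=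
      Ideal.Quotient.eq_zero_iff_mem.2 (Ideal.mem_sup_right (Ideal.mem_span_singleton_self _))
    have h2 := h3 (lf K c - 1)
    rw [h1, map_zero, h0, map_sub, map_one] at h2
    have h4 : aeval (0 : Fin (ν + 1) → K') (lf K c) = 0 := by
      unfold lf
      rw [map_sum]
      refine Finset.sum_eq_zero fun i _ => ?_
      rw [map_mul, aeval_X, Pi.zero_apply, mul_zero]
    rw [h4, zero_sub, neg_eq_zero] at h2
    exact one_ne_zero h2

end Pool.Agent.Helper30.ZB

end
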