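import Pool.Agent.Helper29.MF.T35
import Pool.Agent.Helper29.MF.T20
import Pool.Agent.Helper29.MF.T39
import Pool.Agent.Helper29.MF.T19
import Pool.Agent.Helper29.MF.T42

section

namespace Pool.Agent.Helper30.ZB
end Pool.Agent.Helper30.ZB
namespace Pool.Agent.Helper36
end Pool.Agent.Helper36
namespace Pool.Agent.Helper63.TN
end Pool.Agent.Helper63.TN

/-!
# Dimensions of the spaces of forms on a curve and on its images
-/

set_option autoImplicit false

namespace Pool.Agent.Helper38.TNA

open MvPolynomial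
open Pool.Agent.Helper36 (step iter)
open Pool.Agent.Helper63.TN
open Pool.Agent.Helper30.ZB

variable {ν : ℕ} {K : Type} [Field K]

/-- The composition with the `r`-th iterate of `F`, as a homomorphism. -/
noncomputable def pullHom (F : Fin (ν + 1) → MvPolynomial (Fin (ν + 1)) K) (r : ℕ) :
    MvPolynomial (Fin (ν + 1)) K →ₐ[K] MvPolynomial (Fin (ν + 1)) K :=
  (aeval F : MvPolynomial (Fin (ν + 1)) K →ₐ[K] MvPolynomial (Fin (ν + 1)) K) ^ r

theorem pullHom_apply (F : Fin (ν + 1) → MvPolynomial (Fin (ν + 1)) K) (r : ℕ)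
    (G : MvPolynomial (Fin (ν + 1)) K) : pullHom F r G = pull F r G := by
  unfold pullHom pull
  induction r generalizing G with
  | zero => rfl
  | succ r ih =>
    rw [pow_succ, Function.iterate_succ_apply, ← ih]
    rfl

/-- The ideal of the image of the zero set of `I` under the `r`-th iterate. -/
noncomputable def img (F : Fin (ν + 1) → MvPolynomial (Fin (ν + 1)) K) (r : ℕ)
    (I : Ideal (MvPolynomial (Fin (ν + 1)) K)) : Ideal (MvPolynomial (Fin (ν + 1)) K) :=
  I.comap (pullHom F r)

theorem mem_img {F : Fin (ν + 1) → MvPolynomial (Fin (ν + 1)) K} {r : ℕ}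
    {I : Ideal (MvPolynomial (Fin (ν + 1)) K)} {G : MvPolynomial (Fin (ν + 1)) K} :
    G ∈ img F r I ↔ pull F r G ∈ I := by
  rw [← pullHom_apply]
  exact Iff.rfl

theorem pull_isHomogeneous {d : ℕ} {F : Fin (ν + 1) → MvPolynomial (Fin (ν + 1)) K}
    (hF : ∀ i, (F i).IsHomogeneous d) {G : MvPolynomial (Fin (ν + 1)) K} {m : ℕ}
    (hG : G.IsHomogeneous m) (r : ℕ) : (pull F r G).IsHomogeneous (m * d ^ r) := by
  unfold pull
  induction r generalizing G m with
  | zero => simpa using hG
  | succ r ih =>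
    rw [Function.iterate_succ_apply]
    have h1 : (aeval F G : MvPolynomial (Fin (ν + 1)) K).IsHomogeneous (m * d) := by
      rw [mul_comm]
      exact hG.aeval F hF
    have h2 := ih h1
    rwa [mul_assoc, ← pow_succ'] at h2

theorem img_prime {F : Fin (ν + 1) → MvPolynomial (Fin (ν + 1)) K} {r : ℕ}
    {I : Ideal (MvPolynomial (Fin (ν + 1)) K)} (hI : I.IsPrime) : (img F r I).IsPrime :=
  Ideal.IsPrime.comap (pullHom F r)

theorem homogeneousComponent_pull {d : ℕ} (hd : 0 < d)
    {F : Fin (ν + 1) → MvPolynomial (Fin (ν + 1)) K}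
    (hF : ∀ i, (F i).IsHomogeneous d) (G : MvPolynomial (Fin (ν + 1)) K) (m r : ℕ) :
    homogeneousComponent (m * d ^ r) (pull F r G) = pull F r (homogeneousComponent m G) := by
  classical
  rw [← pullHom_apply, ← pullHom_apply]
  conv_lhs => rw [← sum_homogeneousComponent G, map_sum, map_sum]
  by_cases hm : m ∈ Finset.range (G.totalDegree + 1)
  · rw [Finset.sum_eq_single_of_mem m hm]
    · rw [homogeneousComponent_of_mem (by
        rw [mem_homogeneousSubmodule, pullHom_apply]
        exact pull_isHomogeneous hF (homogeneousComponent_isHomogeneous _ _) r), if_pos rfl]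
    · intro j _ hj
      rw [homogeneousComponent_of_mem (by
        rw [mem_homogeneousSubmodule, pullHom_apply]
        exact pull_isHomogeneous hF (homogeneousComponent_isHomogeneous _ _) r), if_neg]
      intro h
      exact hj (Nat.eq_of_mul_eq_mul_right (pow_pos hd r) h).symm
  · rw [Finset.sum_eq_zero, homogeneousComponent_eq_zero, map_zero]
    · rw [Finset.mem_range] at hm
      omega
    · intro j hj
      rw [homogeneousComponent_of_mem (by
        rw [mem_homogeneousSubmodule, pullHom_apply]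
        exact pull_isHomogeneous hF (homogeneousComponent_isHomogeneous _ _) r), if_neg]
      intro h
      apply hm
      rwa [Nat.eq_of_mul_eq_mul_right (pow_pos hd r) h]

theorem img_hom {d : ℕ} (hd : 0 < d) {F : Fin (ν + 1) → MvPolynomial (Fin (ν + 1)) K}
    (hF : ∀ i, (F i).IsHomogeneous d) {I : Ideal (MvPolynomial (Fin (ν + 1)) K)}
    (hI : Hom I) (r : ℕ) : Hom (img F r I) := by
  intro p hp m
  rw [mem_img] at hp ⊢
  rw [← homogeneousComponent_pull hd hF]
  exact hI _ hp _

/-- The dimensions for the image. -/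
theorem R_img_le {d : ℕ} {F : Fin (ν + 1) → MvPolynomial (Fin (ν + 1)) K}
    (hF : ∀ i, (F i).IsHomogeneous d) (I : Ideal (MvPolynomial (Fin (ν + 1)) K)) (r m : ℕ) :
    R (img F r I) m ≤ R I (m * d ^ r) := by
  let φ : (MvPolynomial (Fin (ν + 1)) K ⧸ img F r I) →ₐ[K] (MvPolynomial (Fin (ν + 1)) K ⧸ I) :=
    Ideal.quotientMapₐ I (pullHom F r) le_rfl
  have hφ : Function.Injective φ := by
    intro x y hxy
    obtain ⟨x, rfl⟩ := Ideal.Quotient.mk_surjective x
    obtain ⟨y, rfl⟩ := Ideal.Quotient.mk_surjective y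
    have h1 : Ideal.Quotient.mk I (pullHom F r x) = Ideal.Quotient.mk I (pullHom F r y) := hxy
    rw [Ideal.Quotient.eq] at h1 ⊢
    rw [← map_sub] at h1
    exact h1
  have := Dim_finite I (m * d ^ r)
  have h1 : (W (img F r I) m).map φ.toLinearMap ≤ W I (m * d ^ r) := by
    rintro _ ⟨_, ⟨G, hG, rfl⟩, rfl⟩
    refine ⟨pullHom F r G, ?_, rfl⟩
    rw [SetLike.mem_coe, mem_homogeneousSubmodule, pullHom_apply]
    exact pull_isHomogeneous hF hG r
  have h2 := Submodule.finrank_mono h1
  have h3 : Module.finrank K ((W (img F r I) m).map φ.toLinearMap) = R (img F r I) m :=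
    (LinearEquiv.finrank_eq (Submodule.equivMapOfInjective φ.toLinearMap hφ _)).symm
  rw [h3] at h2
  exact h2

/-- The monomial `m` times powers of two forms, of total degree `n`. -/
noncomputable def gen (l₀ l₁ : MvPolynomial (Fin (ν + 1)) K) (n a : ℕ) (m : Fin (ν + 1) →₀ ℕ) :
    MvPolynomial (Fin (ν + 1)) K :=
  l₀ ^ a * l₁ ^ (n - m.degree - a) * monomial m 1

/-- The index set of the generators. -/
def idx (ν S n : ℕ) : Set (ℕ × (Fin (ν + 1) →₀ ℕ)) :=
  {p | p.2.degree < S ∧ p.1 + p.2.degree ≤ n}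

theorem exists_large {m : Fin (ν + 1) →₀ ℕ} {s : ℕ} (h : s * (ν + 1) ≤ m.degree) :
    ∃ i, s ≤ m i := by
  by_contra hcon
  push Not at hcon
  have h1 : m.degree < s * (ν + 1) := by
    rw [Finsupp.degree_eq_sum]
    calc ∑ i, m i < ∑ _i : Fin (ν + 1), s :=
          Finset.sum_lt_sum_of_nonempty ⟨0, Finset.mem_univ _⟩ fun i _ => hcon i
      _ = s * (ν + 1) := by simp [mul_comm]
  omega

theorem degree_eq {G : MvPolynomial (Fin (ν + 1)) K} {n : ℕ} (hG : G.IsHomogeneous n)
    {m : Fin (ν + 1) →₀ ℕ} (hm : m ∈ G.support) : m.degree = n := by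
  rw [Finsupp.degree_eq_weight_one]
  exact hG (mem_support_iff.1 hm)

theorem mem_sup_of_large {I : Ideal (MvPolynomial (Fin (ν + 1)) K)}
    {l₀ l₁ : MvPolynomial (Fin (ν + 1)) K} {s : ℕ}
    (h : ∀ i, (X i ^ s : MvPolynomial (Fin (ν + 1)) K) ∈ I ⊔ Ideal.span {l₀, l₁}) {n : ℕ}
    (hn : s * (ν + 1) ≤ n) {G : MvPolynomial (Fin (ν + 1)) K} (hG : G.IsHomogeneous n) :
    G ∈ I ⊔ Ideal.span {l₀, l₁} := by
  classical
  rw [G.as_sum]
  refine Ideal.sum_mem _ fun m hm => ?_
  have hdeg : m.degree = n := degree_eq hG hm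
  obtain ⟨i, hi⟩ := exists_large (m := m) (s := s) (by omega)
  have h1 : monomial m (G.coeff m) =
      (X i ^ s : MvPolynomial (Fin (ν + 1)) K) *
        monomial (m - Finsupp.single i s) (G.coeff m) := by
    rw [X_pow_eq_monomial, monomial_mul, one_mul]
    congr 1
    rw [add_tsub_cancel_of_le]
    rw [Finsupp.single_le_iff]
    exact hi
  rw [h1]
  exact Ideal.mul_mem_right _ _ (h i)

theorem exists_span {I : Ideal (MvPolynomial (Fin (ν + 1)) K)} (hI : Hom I)
    {l₀ l₁ : MvPolynomial (Fin (ν + 1)) K} (h₀ : l₀.IsHomogeneous 1) (h₁ : l₁.IsHomogeneous 1)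
    {s : ℕ} (h : ∀ i, (X i ^ s : MvPolynomial (Fin (ν + 1)) K) ∈ I ⊔ Ideal.span {l₀, l₁}) (n : ℕ) :
    ∀ G : MvPolynomial (Fin (ν + 1)) K, G.IsHomogeneous n →
      ∃ G' ∈ Submodule.span K ((fun p => gen l₀ l₁ n p.1 p.2) '' idx ν (s * (ν + 1)) n),
        G - G' ∈ I := by
  classical
  induction n with
  | zero =>
    intro G hG
    by_cases hs : s * (ν + 1) = 0
    · have h1 := mem_sup_of_large h (by omega) hG
      obtain ⟨ι, hι, y, hy, hxy⟩ := Submodule.mem_sup.1 h1
      obtain ⟨A, B, hAB⟩ := Ideal.mem_span_pair.1 hy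
      refine ⟨0, Submodule.zero_mem _, ?_⟩
      have h2 : G = homogeneousComponent 0 ι := by
        have h3 : homogeneousComponent 0 G = G := by
          rw [homogeneousComponent_of_mem hG, if_pos rfl]
        have h4 : homogeneousComponent 0 y = 0 := by
          rw [← hAB, homogeneousComponent_zero, coeff_add]
          have h5 : ∀ (A l : MvPolynomial (Fin (ν + 1)) K), l.IsHomogeneous 1 →
              coeff 0 (A * l) = 0 := by
            intro A l hl
            have h6 : coeff 0 l = 0 := by
              by_contra hne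
              have := hl hne
              simp at this
            have h7 : constantCoeff (A * l) = constantCoeff A * constantCoeff l := map_mul _ _ _
            have h8 : constantCoeff l = 0 := h6
            rw [h8, mul_zero] at h7
            exact h7
          rw [h5 A l₀ h₀, h5 B l₁ h₁, add_zero, C_0]
        conv_lhs => rw [← h3, ← hxy, map_add, h4, add_zero]
      rw [sub_zero, h2]
      exact hI _ hι 0
    · refine ⟨G, ?_, by rw [sub_self]; exact I.zero_mem⟩
      have h1 : G = C (coeff 0 G) := by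
        have h3 : homogeneousComponent 0 G = G := by
          rw [homogeneousComponent_of_mem hG, if_pos rfl]
        rw [homogeneousComponent_zero] at h3
        exact h3.symm
      have h2 : G = (coeff 0 G) • gen l₀ l₁ 0 0 0 := by
        conv_lhs => rw [h1]
        unfold gen
        simp [smul_eq_C_mul]
      rw [h2]
      refine Submodule.smul_mem _ _ (Submodule.subset_span ⟨(0, 0), ?_, rfl⟩)
      refine ⟨?_, ?_⟩
      · simp only [map_zero]
        omega
      · simp
  | succ n ih =>
    intro G hG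
    by_cases hs : s * (ν + 1) ≤ n + 1
    · have h1 := mem_sup_of_large h hs hG
      obtain ⟨ι, hι, y, hy, hxy⟩ := Submodule.mem_sup.1 h1
      obtain ⟨A, B, hAB⟩ := Ideal.mem_span_pair.1 hy
      have h3 : homogeneousComponent (n + 1) G = G := by
        rw [homogeneousComponent_of_mem hG, if_pos rfl]
      have h4 : ∀ (A l : MvPolynomial (Fin (ν + 1)) K), l.IsHomogeneous 1 →
          homogeneousComponent (n + 1) (A * l) = homogeneousComponent n A * l := by
        intro A l hl
        rw [mul_comm]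
        have h9 : ∀ j, homogeneousComponent (n + 1) (l * homogeneousComponent j A) =
            if j = n then l * homogeneousComponent n A else 0 := by
          intro j
          have h10 : (l * homogeneousComponent j A).IsHomogeneous (1 + j) :=
            hl.mul (homogeneousComponent_isHomogeneous j A)
          rw [homogeneousComponent_of_mem h10]
          by_cases hj : j = n
          · subst hj
            rw [if_pos (by omega), if_pos rfl]
          · rw [if_neg (by omega), if_neg hj]
        conv_lhs => rw [← sum_homogeneousComponent A, Finset.mul_sum, map_sum]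
        rw [Finset.sum_congr rfl fun j _ => h9 j, Finset.sum_ite_eq', mul_comm]
        split_ifs with hn
        · rfl
        · rw [homogeneousComponent_eq_zero, zero_mul]
          rw [Finset.mem_range] at hn
          omega
      have h5 : G = homogeneousComponent (n + 1) ι + (homogeneousComponent n A * l₀ +
          homogeneousComponent n B * l₁) := by
        conv_lhs => rw [← h3, ← hxy, map_add, ← hAB, map_add, h4 A l₀ h₀, h4 B l₁ h₁]
      obtain ⟨A', hA', hA''⟩ := ih _ (homogeneousComponent_isHomogeneous n A)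
      obtain ⟨B', hB', hB''⟩ := ih _ (homogeneousComponent_isHomogeneous n B)
      refine ⟨A' * l₀ + B' * l₁, ?_, ?_⟩
      · refine Submodule.add_mem _ ?_ ?_
        · refine Submodule.span_induction (p := fun x _ => x * l₀ ∈ _) ?_ ?_ ?_ ?_ hA'
          · rintro _ ⟨p, hp, rfl⟩
            refine Submodule.subset_span ⟨(p.1 + 1, p.2), ⟨hp.1, ?_⟩, ?_⟩
            · have := hp.2
              simp only
              omega
            · unfold gen
              have := hp.2
              simp only
              rw [show n + 1 - p.2.degree - (p.1 + 1) = n - p.2.degree - p.1 by omega]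
              ring
          · rw [zero_mul]; exact Submodule.zero_mem _
          · intro x y _ _ hx hy
            rw [add_mul]; exact Submodule.add_mem _ hx hy
          · intro a x _ hx
            rw [smul_mul_assoc]; exact Submodule.smul_mem _ _ hx
        · refine Submodule.span_induction (p := fun x _ => x * l₁ ∈ _) ?_ ?_ ?_ ?_ hB'
          · rintro _ ⟨p, hp, rfl⟩
            refine Submodule.subset_span ⟨(p.1, p.2), ⟨hp.1, ?_⟩, ?_⟩
            · have := hp.2
              simp only
              omega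
            · unfold gen
              have := hp.2
              simp only
              rw [show n + 1 - p.2.degree - p.1 = n - p.2.degree - p.1 + 1 by omega]
              ring
          · rw [zero_mul]; exact Submodule.zero_mem _
          · intro x y _ _ hx hy
            rw [add_mul]; exact Submodule.add_mem _ hx hy
          · intro a x _ hx
            rw [smul_mul_assoc]; exact Submodule.smul_mem _ _ hx
      · rw [h5]
        have h6 : homogeneousComponent (n + 1) ι + (homogeneousComponent n A * l₀ +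
            homogeneousComponent n B * l₁) - (A' * l₀ + B' * l₁) =
            homogeneousComponent (n + 1) ι + ((homogeneousComponent n A - A') * l₀ +
              (homogeneousComponent n B - B') * l₁) := by ring
        rw [h6]
        exact I.add_mem (hI _ hι _) (I.add_mem (I.mul_mem_right _ hA'') (I.mul_mem_right _ hB''))
    · refine ⟨G, ?_, by rw [sub_self]; exact I.zero_mem⟩
      rw [G.as_sum]
      refine Submodule.sum_mem _ fun m hm => ?_
      have hdeg : m.degree = n + 1 := degree_eq hG hm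
      have h2 : monomial m (G.coeff m) = (G.coeff m) • gen l₀ l₁ (n + 1) 0 m := by
        unfold gen
        rw [hdeg]
        simp [smul_monomial]
      rw [h2]
      refine Submodule.smul_mem _ _ (Submodule.subset_span ⟨(0, m), ⟨?_, ?_⟩, rfl⟩)
      · simp only
        omega
      · simp only
        omega

/-- The dimensions of the spaces of forms on a curve are bounded by a linear function. -/
theorem hilb {I : Ideal (MvPolynomial (Fin (ν + 1)) K)} (hI : IsCurve I) :
    ∃ R₀ : ℕ, ∀ n, R I n ≤ R₀ * n + R₀ := by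
  classical
  obtain ⟨a₀, a₁, s, hs⟩ := hI.fin
  set l₀ : MvPolynomial (Fin (ν + 1)) K := ∑ j, C (a₀ j) * X j with hl₀
  set l₁ : MvPolynomial (Fin (ν + 1)) K := ∑ j, C (a₁ j) * X j with hl₁
  have hlin : ∀ a : Fin (ν + 1) → K,
      (∑ j, C (a j) * X j : MvPolynomial (Fin (ν + 1)) K).IsHomogeneous 1 := by
    intro a
    refine IsHomogeneous.sum _ _ _ fun j _ => ?_
    have := (isHomogeneous_C (Fin (ν + 1)) (a j)).mul (isHomogeneous_X K j)
    simpa using this
  set S := s * (ν + 1) with hS
  have hfin : {m : Fin (ν + 1) →₀ ℕ | m.degree < S}.Finite := by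
    refine (Set.finite_Iic (Finsupp.equivFunOnFinite.symm fun _ => S)).subset fun m hm => ?_
    rw [Set.mem_Iic]
    intro i
    have h1 : m i ≤ m.degree := Finsupp.le_degree i m
    have h2 : m.degree < S := hm
    have h3 : (Finsupp.equivFunOnFinite.symm fun _ : Fin (ν + 1) => S) i = S := rfl
    rw [h3]
    omega
  refine ⟨hfin.toFinset.card, fun n => ?_⟩
  have hidx : (idx ν S n).Finite := by
    refine ((Set.finite_Iic n).prod hfin).subset fun p hp => ?_
    refine ⟨?_, hp.1⟩
    have := hp.2
    rw [Set.mem_Iic]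
    omega
  have hcard : hidx.toFinset.card ≤ (n + 1) * hfin.toFinset.card := by
    have h1 : hidx.toFinset ⊆ Finset.range (n + 1) ×ˢ hfin.toFinset := by
      intro p hp
      rw [Set.Finite.mem_toFinset] at hp
      rw [Finset.mem_product, Set.Finite.mem_toFinset, Finset.mem_range]
      have := hp.2
      exact ⟨by omega, hp.1⟩
    have h2 := Finset.card_le_card h1
    rwa [Finset.card_product, Finset.card_range] at h2
  have h1 : W I n ≤ Submodule.span K (((fun p : ℕ × (Fin (ν + 1) →₀ ℕ) =>
      Ideal.Quotient.mk I (gen l₀ l₁ n p.1 p.2)) '' idx ν S n)) := by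
    rintro _ ⟨G, hG, rfl⟩
    obtain ⟨G', hG', hGG'⟩ := exists_span hI.hom (hlin a₀) (hlin a₁) hs n G hG
    have h2 : (Ideal.Quotient.mkₐ K I).toLinearMap G = Ideal.Quotient.mk I G' := by
      show Ideal.Quotient.mk I G = _
      rw [Ideal.Quotient.eq]
      exact hGG'
    rw [h2]
    have h3 := Submodule.mem_map_of_mem (f := (Ideal.Quotient.mkₐ K I).toLinearMap) hG'
    rw [Submodule.map_span, Set.image_image] at h3
    exact h3
  have hf2 := hidx.image (fun p : ℕ × (Fin (ν + 1) →₀ ℕ) =>
      Ideal.Quotient.mk I (gen l₀ l₁ n p.1 p.2))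
  have h2 : R I n ≤ Module.finrank K (Submodule.span K (((fun p : ℕ × (Fin (ν + 1) →₀ ℕ) =>
      Ideal.Quotient.mk I (gen l₀ l₁ n p.1 p.2)) '' idx ν S n))) := by
    have : FiniteDimensional K (Submodule.span K (((fun p : ℕ × (Fin (ν + 1) →₀ ℕ) =>
      Ideal.Quotient.mk I (gen l₀ l₁ n p.1 p.2)) '' idx ν S n))) :=
      FiniteDimensional.span_of_finite K hf2
    exact Submodule.finrank_mono h1
  refine h2.trans ?_
  letI : Fintype (((fun p : ℕ × (Fin (ν + 1) →₀ ℕ) =>
      Ideal.Quotient.mk I (gen l₀ l₁ n p.1 p.2)) '' idx ν S n)) := hf2.fintype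
  have h4 := finrank_span_le_card (R := K) (((fun p : ℕ × (Fin (ν + 1) →₀ ℕ) =>
      Ideal.Quotient.mk I (gen l₀ l₁ n p.1 p.2)) '' idx ν S n))
  refine h4.trans ?_
  have h5 : (((fun p : ℕ × (Fin (ν + 1) →₀ ℕ) =>
      Ideal.Quotient.mk I (gen l₀ l₁ n p.1 p.2)) '' idx ν S n)).toFinset ⊆
      hidx.toFinset.image (fun p : ℕ × (Fin (ν + 1) →₀ ℕ) =>
      Ideal.Quotient.mk I (gen l₀ l₁ n p.1 p.2)) := by
    intro x hx
    rw [Set.mem_toFinset] at hx
    obtain ⟨p, hp, rfl⟩ := hx
    exact Finset.mem_image.2 ⟨p, hidx.mem_toFinset.2 hp, rfl⟩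
  calc _ ≤ _ := Finset.card_le_card h5
    _ ≤ hidx.toFinset.card := Finset.card_image_le
    _ ≤ (n + 1) * hfin.toFinset.card := hcard
    _ = _ := by ring

end Pool.Agent.Helper38.TNA

end

section

namespace Pool.Agent.Helper16
end Pool.Agent.Helper16
namespace Pool.Agent.Helper30.TKN
end Pool.Agent.Helper30.TKN
namespace Pool.Agent.Helper30.ZB
end Pool.Agent.Helper30.ZB
namespace Pool.Agent.Helper36
end Pool.Agent.Helper36
namespace Pool.Agent.Helper38.TQ
end Pool.Agent.Helper38.TQ

/-!
# Heights of periodic points in finite extensions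
-/

set_option autoImplicit false

namespace Pool.Agent.Helper38.TNA

open MvPolynomial
open Pool.Agent.Helper16 (Place IsFunctionField)
open Pool.Agent.Helper36 (step iter exists_nullstellensatz)
open Pool.Agent.Helper38.TQ
open Pool.Agent.Helper30.TKN
open Pool.Agent.Helper30.ZB

variable {ν : ℕ}

section

variable {K : Type} [Field K] [Algebra K ℂ]

omit [Algebra K ℂ] in
/-- The certificate at a point over an extension. -/
theorem Periodic_cert {d : ℕ} {F : Fin (ν + 1) → MvPolynomial (Fin (ν + 1)) K} {M : ℕ}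
    {q : Fin (ν + 1) × Fin (ν + 1) → MvPolynomial (Fin (ν + 1)) K}
    (h : ∀ a, ∑ j, q (a, j) * F j = MvPolynomial.X a ^ (M + d)) {L : Type} [Field L] [Algebra K L]
    (y : Fin (ν + 1) → L) (a : Fin (ν + 1)) :
    y a ^ (M + d) = ∑ j, eval y (map (algebraMap K L) (q (a, j))) * step F y j := by
  have h2 := congrArg (aeval y) (h a)
  rw [map_pow, aeval_X, map_sum] at h2
  rw [← h2]
  refine Finset.sum_congr rfl fun j _ => ?_
  rw [map_mul, eval_map, aeval_def, aeval_def]
  rfl

theorem step_ne_zeroL {d : ℕ} {F : Fin (ν + 1) → MvPolynomial (Fin (ν + 1)) K}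
    (hF : IsEndo d fun i => map (algebraMap K ℂ) (F i)) {L : Type} [Field L] [Algebra K L]
    {y : Fin (ν + 1) → L} (hy : y ≠ 0) : step F y ≠ 0 := by
  obtain ⟨M, q, hq, h⟩ := exists_nullstellensatz (L := ℂ) F (fun i => homog_of_endo hF i)
    (growth_aeval_zero hF)
  intro h0
  apply hy
  funext a
  have h1 := Periodic_cert h y a
  rw [h0] at h1
  simp only [Pi.zero_apply, mul_zero, Finset.sum_const_zero] at h1
  exact (pow_eq_zero_iff (by have := hF.two_le; omega)).1 h1

theorem iter_ne_zeroL {d : ℕ} {F : Fin (ν + 1) → MvPolynomial (Fin (ν + 1)) K}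
    (hF : IsEndo d fun i => map (algebraMap K ℂ) (F i)) {L : Type} [Field L] [Algebra K L]
    {y : Fin (ν + 1) → L} (hy : y ≠ 0) (n : ℕ) : iter F y n ≠ 0 := by
  induction n with
  | zero => exact hy
  | succ n ih =>
    rw [Pool.Agent.Helper36.iter_succ]
    exact step_ne_zeroL hF ih

theorem iter_smulL {d : ℕ} {F : Fin (ν + 1) → MvPolynomial (Fin (ν + 1)) K}
    (hF : ∀ i, (F i).IsHomogeneous d) {L : Type} [Field L] [Algebra K L]
    (c : L) (y : Fin (ν + 1) → L) (n : ℕ) : iter F (c • y) n = c ^ d ^ n • iter F y n := by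
  induction n with
  | zero => simp [Pool.Agent.Helper36.iter_zero]
  | succ n ih =>
    rw [Pool.Agent.Helper36.iter_succ, Pool.Agent.Helper36.iter_succ, ih]
    funext i
    rw [Pi.smul_apply, smul_eq_mul, pow_succ, pow_mul]
    exact Pool.Agent.Helper36.aeval_smul_homogeneous (hF i) (c ^ d ^ n) (iter F y n)

end

variable {k K : Type} [Field k] [IsAlgClosed k] [Field K] [Algebra k K] [Algebra K ℂ]

theorem growthL (hK : IsFunctionField k K) {d : ℕ} {F : Fin (ν + 1) → MvPolynomial (Fin (ν + 1)) K}
    (hF : IsEndo d fun i => map (algebraMap K ℂ) (F i)) :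
    ∃ C : ℤ, 0 ≤ C ∧ ∀ (L : Type) [Field L] [Algebra k L] [Algebra K L] [IsScalarTower k K L]
      [FiniteDimensional K L] (y : Fin (ν + 1) → L), y ≠ 0 →
      (d : ℤ) * ht k y ≤ ht k (step F y) + C * (Module.finrank K L : ℤ) := by
  classical
  obtain ⟨M, q, hq, h⟩ := exists_nullstellensatz (L := ℂ) F (fun i => homog_of_endo hF i)
    (growth_aeval_zero hF)
  choose C hC0 hC using fun a : Fin (ν + 1) × Fin (ν + 1) => Scale_gs hK (q a)
  refine ⟨∑ a, C a, Finset.sum_nonneg fun a _ => hC0 a, ?_⟩
  intro L _ _ _ _ _ y hy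
  have hL := Pool.Agent.Helper89.TC.isFunctionField_of_finite L hK
  set c : Place k L → ℤ := fun v =>
    ∑ a : Fin (ν + 1) × Fin (ν + 1), max 0 (WithZero.log (gs v (map (algebraMap K L) (q a)))) with hc
  have hcs : (Function.support c).Finite := by
    refine (Set.finite_iUnion fun a : Fin (ν + 1) × Fin (ν + 1) => (hC a L).1).subset fun v hv => ?_
    rw [Function.mem_support] at hv
    by_contra hcon
    apply hv
    simp only [Set.mem_iUnion, Function.mem_support, not_exists, not_not] at hcon
    simp only [hc]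
    exact Finset.sum_eq_zero fun a _ => hcon a
  have hsum : ∑ᶠ v : Place k L, c v ≤ (∑ a, C a) * (Module.finrank K L : ℤ) := by
    rw [hc, finsum_sum_comm _ _ fun a _ => (hC a L).1, Finset.sum_mul]
    exact Finset.sum_le_sum fun a _ => (hC a L).2
  have hcq : ∀ (v : Place k L) a, gs v (map (algebraMap K L) (q a)) ≤ WithZero.exp (c v) := by
    intro v a
    apply WithZero.le_exp_of_log_le
    have h1 : max 0 (WithZero.log (gs v (map (algebraMap K L) (q a)))) ≤ c v :=
      Finset.single_le_sum
        (f := fun a => max 0 (WithZero.log (gs v (map (algebraMap K L) (q a)))))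
        (fun i _ => le_max_left _ _) (Finset.mem_univ a)
    exact (le_max_right 0 _).trans h1
  have hs := step_ne_zeroL hF hy
  have hloc : ∀ v : Place k L, (d : ℤ) * WithZero.log (nrm v y) ≤
      WithZero.log (nrm v (step F y)) + c v := by
    intro v
    have hn0 := nrm_ne_zero (b := v) hy
    have hs0 := nrm_ne_zero (b := v) hs
    have he0 : WithZero.exp (c v) ≠ 0 := WithZero.exp_ne_zero
    obtain ⟨i, hi⟩ := exists_val_eq_nrm v y
    have h1 : v.val (y i ^ (M + d)) ≤
        WithZero.exp (c v) * nrm v y ^ M * nrm v (step F y) := by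
      rw [Periodic_cert h y i]
      refine v.val.map_sum_le fun j _ => ?_
      rw [map_mul]
      exact mul_le_mul' ((low_val_eval_le v ((hq _).map _) y).trans
        (mul_le_mul' (hcq v _) le_rfl)) (val_le_nrm v (step F y) j)
    rw [map_pow, hi, ← WithZero.log_le_log (pow_ne_zero _ hn0)
      (mul_ne_zero (mul_ne_zero he0 (pow_ne_zero _ hn0)) hs0),
      WithZero.log_mul (mul_ne_zero he0 (pow_ne_zero _ hn0)) hs0,
      WithZero.log_mul he0 (pow_ne_zero _ hn0), WithZero.log_exp, WithZero.log_pow,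
      WithZero.log_pow, nsmul_eq_mul, nsmul_eq_mul] at h1
    push_cast at h1
    linarith
  have h1 := nrm_support hL y hy
  have h2 := nrm_support hL _ hs
  have h3 : (Function.support fun v : Place k L => (d : ℤ) * WithZero.log (nrm v y)).Finite := by
    refine h1.subset fun b hb => ?_
    rw [Function.mem_support] at hb ⊢
    exact right_ne_zero_of_mul hb
  have h4 : ∑ᶠ v : Place k L, (d : ℤ) * WithZero.log (nrm v y) ≤
      ∑ᶠ v : Place k L, (WithZero.log (nrm v (step F y)) + c v) :=
    finsum_le_finsum' h3 ((h2.union hcs).subset (Function.support_add _ _)) hloc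
  rw [finsum_add_distrib h2 hcs, ← mul_finsum] at h4
  unfold ht
  linarith

theorem exists_ht_bound (hK : IsFunctionField k K) {d : ℕ} {F : Fin (ν + 1) → MvPolynomial (Fin (ν + 1)) K}
    (hF : IsEndo d fun i => map (algebraMap K ℂ) (F i)) :
    ∃ C : ℤ, 0 ≤ C ∧ ∀ (L : Type) [Field L] [Algebra k L] [Algebra K L] [IsScalarTower k K L]
      [FiniteDimensional K L] (w : Fin (ν + 1) → L) (N : ℕ) (γ : L), w ≠ 0 → 0 < N →
      iter F w N = γ • w → ht k w ≤ C * (Module.finrank K L : ℤ) := by
  obtain ⟨C, hC0, hC⟩ := growthL hK hF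
  refine ⟨C, hC0, ?_⟩
  intro L _ _ _ _ _ w N γ hw hN hiter
  have hL := Pool.Agent.Helper89.TC.isFunctionField_of_finite L hK
  have hd : (2 : ℤ) ≤ d := by exact_mod_cast hF.two_le
  set f : ℤ := C * (Module.finrank K L : ℤ) with hf
  have hf0 : 0 ≤ f := mul_nonneg hC0 (by positivity)
  have key : ∀ n : ℕ, (d : ℤ) ^ n * (ht k w - f) ≤ ht k (iter F w n) - f := by
    intro n
    induction n with
    | zero => simp [Pool.Agent.Helper36.iter_zero]
    | succ n ih =>
      have h1 := hC L (iter F w n) (iter_ne_zeroL hF hw n)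
      rw [← Pool.Agent.Helper36.iter_succ, ← hf] at h1
      have h2 : (d : ℤ) * ((d : ℤ) ^ n * (ht k w - f)) ≤ d * (ht k (iter F w n) - f) :=
        mul_le_mul_of_nonneg_left ih (by linarith)
      have h3 : 2 * f ≤ d * f := mul_le_mul_of_nonneg_right hd hf0
      rw [pow_succ]
      linarith
  have hγ : γ ≠ 0 := by
    rintro rfl
    rw [zero_smul] at hiter
    exact iter_ne_zeroL hF hw N hiter
  have h1 := key N
  rw [hiter, ht_smul hL hγ hw] at h1
  by_contra hcon
  push Not at hcon
  have h2 : (2 : ℤ) ≤ (d : ℤ) ^ N := by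
    calc (2 : ℤ) ≤ d := hd
      _ = (d : ℤ) ^ 1 := (pow_one _).symm
      _ ≤ (d : ℤ) ^ N := pow_le_pow_right₀ (by linarith) hN
  nlinarith

end Pool.Agent.Helper38.TNA

end

section

namespace Pool.Agent.Helper16
end Pool.Agent.Helper16
namespace Pool.Agent.Helper30.TKN
end Pool.Agent.Helper30.TKN
namespace Pool.Agent.Helper30.ZB
end Pool.Agent.Helper30.ZB
namespace Pool.Agent.Helper36
end Pool.Agent.Helper36
namespace Pool.Agent.Helper38.TQ
end Pool.Agent.Helper38.TQ
namespace Pool.Agent.Helper63.TN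
end Pool.Agent.Helper63.TN

/-!
# Curves with infinitely many periodic points
-/

set_option autoImplicit false

namespace Pool.Agent.Helper38.TNA

open MvPolynomial
open Pool.Agent.Helper16 (Place IsFunctionField)
open Pool.Agent.Helper36 (step iter)
open Pool.Agent.Helper38.TQ
open Pool.Agent.Helper30.TKN
open Pool.Agent.Helper63.TN
open Pool.Agent.Helper30.ZB

variable {ν : ℕ}

section

variable {K : Type} [Field K]

/-- Values of the composition with an iterate. -/
theorem aeval_pull {L : Type} [Field L] [Algebra K L]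
    (F : Fin (ν + 1) → MvPolynomial (Fin (ν + 1)) K)
    (G : MvPolynomial (Fin (ν + 1)) K) (N : ℕ) (y : Fin (ν + 1) → L) :
    aeval y (pull F N G) = aeval (iter F y N) G := by
  unfold pull
  induction N generalizing G with
  | zero => rfl
  | succ N ih =>
    rw [Function.iterate_succ_apply, ih, Pool.Agent.Helper36.iter_succ]
    exact comp_aeval_apply (R := K) F (aeval (iter F y N)) G

/-- There is a generator which does not vanish identically on the image. -/
theorem exists_gens {I : Ideal (MvPolynomial (Fin (ν + 1)) K)} (hp : I.IsPrime) (hI : Hom I)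
    {F : Fin (ν + 1) → MvPolynomial (Fin (ν + 1)) K} (hnp : NonPer I F) :
    ∃ S : Finset (MvPolynomial (Fin (ν + 1)) K), (∀ h ∈ S, h ∈ I ∧ ∃ e, 0 < e ∧
      h.IsHomogeneous e) ∧ ∀ N, 0 < N → ∃ h ∈ S, h ∉ img F N I := by
  classical
  obtain ⟨T, hT⟩ : I.FG := IsNoetherian.noetherian I
  refine ⟨(T.biUnion fun g => (Finset.range (g.totalDegree + 1)).image
    fun n => homogeneousComponent n g).filter fun h => ∃ e, 0 < e ∧ h.IsHomogeneous e, ?_, ?_⟩
  · intro h hh
    rw [Finset.mem_filter] at hh
    refine ⟨?_, hh.2⟩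
    obtain ⟨g, hg, hh1⟩ := Finset.mem_biUnion.1 hh.1
    obtain ⟨n, -, rfl⟩ := Finset.mem_image.1 hh1
    exact hI g (hT ▸ Ideal.subset_span hg) n
  · intro N hN
    by_contra hcon
    push Not at hcon
    obtain ⟨h, hhI, e, hhe, hh⟩ := hnp N hN
    apply hh
    have hle : I ≤ img F N I := by
      rw [← hT, Ideal.span_le]
      intro g hg
      have hgI : g ∈ I := hT ▸ Ideal.subset_span hg
      rw [SetLike.mem_coe, ← sum_homogeneousComponent g, hT]
      refine Ideal.sum_mem _ fun n hn => ?_
      rcases Nat.eq_zero_or_pos n with rfl | hn0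
      · have h1 := hI g hgI 0
        rw [homogeneousComponent_zero] at h1 ⊢
        have h2 : coeff 0 g = 0 := by
          by_contra hne
          exact hp.ne_top (Ideal.eq_top_of_isUnit_mem _ h1 ((isUnit_iff_ne_zero.2 hne).map C))
        rw [h2, C_0]
        exact Ideal.zero_mem _
      · refine hcon _ (Finset.mem_filter.2 ⟨Finset.mem_biUnion.2 ⟨g, hg,
          Finset.mem_image_of_mem _ hn⟩, n, hn0, homogeneousComponent_isHomogeneous n g⟩)
    exact mem_img.1 (hle hhI)

end

section

variable {k K : Type} [Field k] [Field K] [Algebra k K]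

/-- A form which vanishes at too many points of the curve belongs to the ideal. -/
theorem bound_points [Infinite k] {I : Ideal (MvPolynomial (Fin (ν + 1)) K)} (hI : IsCurve I)
    {h : MvPolynomial (Fin (ν + 1)) K} {e : ℕ} (hh : h.IsHomogeneous e) (hhI : h ∉ I) :
    ∃ B : ℕ, ∀ (L : Type) [Field L] [Algebra K L] (s : ℕ) (w : Fin s → Fin (ν + 1) → L),
      (∀ j, OnI I (w j) ∧ aeval (w j) h = 0) → (∀ i j, i ≠ j → ¬ PEq (w i) (w j)) → s ≤ B := by
  classical
  rcases Nat.eq_zero_or_pos e with rfl | he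
  · -- a constant form
    refine ⟨0, fun L _ _ s w hw _ => ?_⟩
    by_contra hs
    push Not at hs
    have h1 : h = C (coeff 0 h) := by
      have h3 : homogeneousComponent 0 h = h := by
        rw [homogeneousComponent_of_mem hh, if_pos rfl]
      rw [homogeneousComponent_zero] at h3
      exact h3.symm
    have h2 := (hw ⟨0, hs⟩).2
    rw [h1, aeval_C] at h2
    have h3 : coeff 0 h = 0 := (map_eq_zero_iff _ (algebraMap K L).injective).1 h2
    rw [h3, C_0] at h1
    exact hhI (h1 ▸ I.zero_mem)
  · obtain ⟨R₀, hR⟩ := hilb hI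
    obtain ⟨c, m₁, hmiss⟩ := Lin_exists (k := k) (I := I ⊔ Ideal.span {h}) (B := e * R₀)
      (fun m₀ => Main_bounded hI.prime hI.hom hR he hh hhI m₀)
    have hIh : Hom (I ⊔ Ideal.span {h}) := Dim_hom_sup hI.hom hh
    obtain ⟨hfin, -⟩ := Quot_main hIh hmiss
    refine ⟨Module.finrank K (Qo (I ⊔ Ideal.span {h}) c), fun L _ _ s w hw hne => ?_⟩
    have hz : ∀ j, ∃ (ψ : Qo (I ⊔ Ideal.span {h}) c →ₐ[K] L) (a : L), a ≠ 0 ∧
        w j = fun i => a * ψ (cls (I ⊔ Ideal.span {h}) c (X i)) := by
      intro j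
      refine Pts_zero hIh hmiss L (w j) (hw j).1.1 ?_
      intro g hg
      obtain ⟨g₁, hg₁, g₂, hg₂, rfl⟩ := Submodule.mem_sup.1 hg
      obtain ⟨u, rfl⟩ := Ideal.mem_span_singleton'.1 hg₂
      rw [map_add, (hw j).1.2 g₁ hg₁, map_mul, (hw j).2, mul_zero, add_zero]
    choose ψ a ha hψ using hz
    have hinj : Function.Injective ψ := by
      intro i j hij
      by_contra hne'
      apply hne i j hne'
      refine ⟨a j * (a i)⁻¹, mul_ne_zero (ha j) (inv_ne_zero (ha i)), ?_⟩
      rw [hψ j, hψ i, hij]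
      funext l
      simp only [Pi.smul_apply, smul_eq_mul]
      field_simp [ha i]
    have hli := linearIndependent_toLinearMap K (Qo (I ⊔ Ideal.span {h}) c) L
    have hli2 := hli.comp ψ hinj
    have h1 := hli2.fintype_card_le_finrank
    rw [Fintype.card_fin] at h1
    have h2 : Module.finrank L (Qo (I ⊔ Ideal.span {h}) c →ₗ[K] L) =
        Module.finrank K (Qo (I ⊔ Ideal.span {h}) c) := by
      rw [Module.finrank_linearMap_self]
    rwa [h2] at h1

/-- **Curves with infinitely many periodic points**: the heights of the returns which are not the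
last one are bounded. -/
theorem ht_return_le [IsAlgClosed k] [CharZero k] [Algebra K ℂ] (hK : IsFunctionField k K) {d : ℕ}
    {F : Fin (ν + 1) → MvPolynomial (Fin (ν + 1)) K}
    (hF : IsEndo d fun i => map (algebraMap K ℂ) (F i))
    {I : Ideal (MvPolynomial (Fin (ν + 1)) K)} (hI : IsCurve I)
    (hnp : NonPer I F) (hmany : ManyPer k I F) (x : Fin (ν + 1) → K) :
    ∃ B : ℤ, ∀ i n, i < n → OnI I (iter F x i) → OnI I (iter F x n) →
      ht k (iter F x i) ≤ B := by
  classical
  have : Infinite k := IsAlgClosed.instInfinite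
  have hFh := fun i => homog_of_endo hF i
  have hd : 0 < d := by have := hF.two_le; omega
  obtain ⟨S, hS1, hS2⟩ := exists_gens hI.prime hI.hom hnp
  obtain ⟨R₀, hR⟩ := hilb hI
  obtain ⟨C₁, hC₁, hper⟩ := exists_ht_bound (k := k) hK hF
  obtain ⟨C₂, hC₂, hgr⟩ := growth (k := k) hK hF
  choose Ch hCh0 hCh using fun h : MvPolynomial (Fin (ν + 1)) K => Scale_gs (k := k) hK h
  choose e he hhe using fun h : S => (hS1 h.1 h.2).2
  -- the bound for the point on the image
  have key : ∀ N, 0 < N → ∀ y : Fin (ν + 1) → K, OnI I y → OnI I (iter F y N) →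
      ht k (iter F y N) ≤ (d : ℤ) ^ N * ∑ h : S, R₀ * (2 * e h * C₁ + Ch h) := by
    intro N hN y hy hyN
    obtain ⟨h, hhS, hhJ⟩ := hS2 N hN
    let J := img F N I
    have hJp : J.IsPrime := img_prime hI.prime
    have hJh : Hom J := img_hom hd hFh hI.hom N
    let T : Set (FPt ν k K) := {P | ∃ w : Fin (ν + 1) → P.L, OnI I w ∧ IsPer F w ∧
      P.y = iter F w N}
    have hdense : Dense J T := by
      intro g m hg hgJ
      by_contra hcon
      push Not at hcon
      have h1 : pull F N g ∉ I := fun h => hgJ (mem_img.2 h)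
      obtain ⟨B, hB⟩ := bound_points (k := k) hI (pull_isHomogeneous hFh hg N) h1
      obtain ⟨L, i1, i2, i3, i4, i5, w, hw, hne⟩ := hmany (B + 1)
      have h2 := hB L (B + 1) w (fun j => ⟨(hw j).1, ?_⟩) hne
      · omega
      · rw [aeval_pull]
        exact hcon { L := L, y := iter F (w j) N, ne := iter_ne_zeroL hF (hw j).1.1 N }
          ⟨w j, (hw j).1, (hw j).2, rfl⟩
    have hTJ : ∀ P ∈ T, ∀ g ∈ J, aeval P.y g = 0 := by
      rintro P ⟨w, hw, -, hP⟩ g hg
      rw [hP, ← aeval_pull]
      exact hw.2 _ (mem_img.1 hg)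
    have hTs : ∀ P ∈ T, ht k P.y ≤ C₁ * Module.finrank K P.L := by
      rintro P ⟨w, hw, ⟨M, hM, γ, hγ⟩, hP⟩
      rw [hP]
      have h2 : iter F (iter F w N) M = (γ ^ d ^ N) • iter F w N := by
        rw [← Pool.Agent.Helper36.iter_add, Nat.add_comm M N, Pool.Agent.Helper36.iter_add, hγ,
          iter_smulL hFh]
      exact hper P.L (iter F w N) M _ (iter_ne_zeroL hF hw.1 N) hM h2
    have hRJ : ∀ m, R J m ≤ R₀ * d ^ N * m + R₀ := by
      intro m
      calc R J m ≤ R I (m * d ^ N) := R_img_le hFh I N m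
        _ ≤ R₀ * (m * d ^ N) + R₀ := hR _
        _ = _ := by ring
    have h3 := zhang_bezout hK hJp hJh hRJ (he ⟨h, hhS⟩) (hhe ⟨h, hhS⟩) hhJ (hCh0 h) (hCh h)
      hC₁ hdense hTJ hTs (y := iter F y N) hyN.1 (fun g hg => by
        have h4 := aeval_pull (L := K) F g N y
        rw [← h4]
        exact hy.2 _ (mem_img.1 hg)) (hyN.2 h (hS1 h hhS).1)
    refine h3.trans ?_
    have h5 : (R₀ : ℤ) * (2 * e ⟨h, hhS⟩ * C₁ + Ch h) ≤
        ∑ h : S, (R₀ : ℤ) * (2 * e h * C₁ + Ch h) :=
      Finset.single_le_sum (f := fun h : S => (R₀ : ℤ) * (2 * e h * C₁ + Ch h))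
        (fun i _ => by
          have := hCh0 i.1
          positivity) (Finset.mem_univ (⟨h, hhS⟩ : S))
    push_cast
    calc (R₀ : ℤ) * (d : ℤ) ^ N * (2 * e ⟨h, hhS⟩ * C₁ + Ch h) =
        (d : ℤ) ^ N * (R₀ * (2 * e ⟨h, hhS⟩ * C₁ + Ch h)) := by ring
      _ ≤ _ := mul_le_mul_of_nonneg_left h5 (by positivity)
  -- the growth
  have hlow : ∀ (y : Fin (ν + 1) → K), y ≠ 0 → ∀ N : ℕ,
      (d : ℤ) ^ N * (ht k y - C₂) ≤ ht k (iter F y N) - C₂ := by
    intro y hy N
    have hd2 : (2 : ℤ) ≤ d := by exact_mod_cast hF.two_le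
    induction N with
    | zero => simp [Pool.Agent.Helper36.iter_zero]
    | succ N ih =>
      have h1 := hgr (iter F y N) (iter_ne_zeroK hF hy N)
      rw [← Pool.Agent.Helper36.iter_succ] at h1
      have h2 := (abs_le.1 h1).1
      have h3 : (d : ℤ) * ((d : ℤ) ^ N * (ht k y - C₂)) ≤ d * (ht k (iter F y N) - C₂) :=
        mul_le_mul_of_nonneg_left ih (by linarith)
      have h4 : 2 * C₂ ≤ d * C₂ := mul_le_mul_of_nonneg_right hd2 hC₂
      rw [pow_succ]
      linarith
  refine ⟨(∑ h : S, R₀ * (2 * e h * C₁ + Ch h)) + C₂, fun i n hin hi hn => ?_⟩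
  obtain ⟨N, rfl⟩ : ∃ N, n = i + N := ⟨n - i, by omega⟩
  have hN : 0 < N := by omega
  have h1 : iter F x (i + N) = iter F (iter F x i) N := by
    rw [Nat.add_comm i N, Pool.Agent.Helper36.iter_add]
  rw [h1] at hn
  have h2 := key N hN _ hi hn
  have h3 := hlow _ hi.1 N
  have h4 : (d : ℤ) ^ N * (ht k (iter F x i) - C₂) ≤
      (d : ℤ) ^ N * ∑ h : S, R₀ * (2 * e h * C₁ + Ch h) := by linarith
  have h5 := le_of_mul_le_mul_left h4 (by positivity)
  linarith

/-- On a curve which is not periodic but contains many periodic points there are only finitely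
many points of an orbit of unbounded height. -/
theorem caseA [IsAlgClosed k] [CharZero k] [Algebra K ℂ] (hK : IsFunctionField k K) {d : ℕ}
    {F : Fin (ν + 1) → MvPolynomial (Fin (ν + 1)) K}
    (hF : IsEndo d fun i => map (algebraMap K ℂ) (F i))
    {I : Ideal (MvPolynomial (Fin (ν + 1)) K)} (hI : IsCurve I)
    (hnp : NonPer I F) (hmany : ManyPer k I F) {x : Fin (ν + 1) → K} (hx : x ≠ 0)
    (hunb : ∀ B : ℤ, ∃ n, B < ht k (iter F x n)) :
    {n | OnI I (iter F x n)}.Finite := by
  obtain ⟨B, hB⟩ := ht_return_le hK hF hI hnp hmany x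
  obtain ⟨n₁, hn₁⟩ := ht_growth hK hF hx hunb |B|
  by_cases h : ∃ i, n₁ ≤ i ∧ OnI I (iter F x i)
  · obtain ⟨i, hi, hiI⟩ := h
    refine (Set.finite_Iic i).subset fun n hn => ?_
    rw [Set.mem_Iic]
    by_contra hcon
    push Not at hcon
    have h1 := hB i n hcon hiI hn
    have h2 := hn₁ i hi
    have h3 : |B| ≤ |B| * ((i : ℤ) + 1) := by
      have := abs_nonneg B
      nlinarith
    have h4 := le_abs_self B
    linarith
  · push Not at h
    refine (Set.finite_Iio n₁).subset fun n hn => ?_
    rw [Set.mem_Iio]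
    by_contra hcon
    push Not at hcon
    exact h n hcon hn

end

end Pool.Agent.Helper38.TNA

end
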