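import Pool.Agent.Helper29.MF.T45
import Pool.Agent.Helper29.MF.T46
import Pool.Agent.Helper29.MF.T17
import Pool.Agent.Helper29.MF.T04
import Pool.Agent.Helper29.MF.T18
import Pool.Agent.Helper29.MF.T05
import Pool.Agent.Helper29.MF.T11
import Pool.Agent.Helper29.MF.T06
import Pool.Agent.Helper29.MF.T16
import Pool.Agent.Helper29.MF.T15

section

namespace Pool.Agent.Helper16
end Pool.Agent.Helper16
namespace Pool.Agent.Helper30.TKN
end Pool.Agent.Helper30.TKN
namespace Pool.Agent.Helper36
end Pool.Agent.Helper36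
namespace Pool.Agent.Helper38.PC
end Pool.Agent.Helper38.PC
namespace Pool.Agent.Helper38.TQ
end Pool.Agent.Helper38.TQ

/-!
# Specialisation of the algebraic data of a post-critically finite map
-/

set_option autoImplicit false

namespace Pool.Agent.Helper30.RED

open MvPolynomial
open Pool.Agent.Helper16 (Place IsFunctionField)
open Pool.Agent.Helper36 (step iter iter_zero iter_succ iter_succ' iter_add iter_map)
open Pool.Agent.Helper38.TQ
open Pool.Agent.Helper30.TKN
open Pool.Agent.Helper38.PC (Data)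

variable {ν : ℕ} {k K : Type} [Field k] [Field K] [Algebra k K]

/-- Specialisations of homogeneous polynomials are homogeneous. -/
theorem redP_hom {b : Place k K} {P : MvPolynomial (Fin (ν + 1)) K}
    {p : MvPolynomial (Fin (ν + 1)) k} (hP : RedP b P p) {e : ℕ} (he : P.IsHomogeneous e) :
    p.IsHomogeneous e := by
  intro m hm
  refine he ?_
  intro h0
  have h1 := hP m
  rw [h0, zero_sub, Valuation.map_neg, b.triv _ hm] at h1
  exact lt_irrefl _ h1

theorem hom_of_map {R S : Type} [Field R] [Field S] (φ : R →+* S)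
    {P : MvPolynomial (Fin (ν + 1)) R} {n : ℕ} (h : (map φ P).IsHomogeneous n) :
    P.IsHomogeneous n := by
  intro m hm
  apply h
  rw [coeff_map]
  exact (map_ne_zero φ).2 hm

end Pool.Agent.Helper30.RED

end

section

namespace Pool.Agent.Helper16
end Pool.Agent.Helper16
namespace Pool.Agent.Helper30.TKN
end Pool.Agent.Helper30.TKN
namespace Pool.Agent.Helper30.TP
end Pool.Agent.Helper30.TP
namespace Pool.Agent.Helper36
end Pool.Agent.Helper36
namespace Pool.Agent.Helper38.TQ
end Pool.Agent.Helper38.TQ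

/-!
# Induction on the transcendence degree: classes which depend on the point, several forms
-/

set_option autoImplicit false

namespace Pool.Agent.Helper30.RED

open MvPolynomial
open Pool.Agent.Helper16 (Place IsFunctionField)
open Pool.Agent.Helper36 (step iter iter_zero iter_succ iter_succ' iter_add iter_map)
open Pool.Agent.Helper38.TQ
open Pool.Agent.Helper30.TKN
open Pool.Agent.Helper30.TP (emb_mem_range emb_trdeg_le)

variable {ν : ℕ}

/-- A finite intersection. -/
theorem iInter_closed {R : Set ℕ → Prop} (hRu : R Set.univ)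
    (hRi : ∀ S T, R S → R T → R (S ∩ T)) {κ : Type} [Finite κ] (X : κ → Set ℕ)
    (h : ∀ s, R (X s)) : R (⋂ s, X s) := by
  classical
  haveI := Fintype.ofFinite κ
  have h1 : ∀ s : Finset κ, R (⋂ i ∈ s, X i) := by
    intro s
    induction s using Finset.induction_on with
    | empty => simpa using hRu
    | insert a s _ ih =>
      rw [Finset.set_biInter_insert]
      exact hRi _ _ (h a) ih
  have h2 := h1 Finset.univ
  simpa using h2

/-- Several forms: if the heights of the points of an orbit are bounded, then the return set is a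
finite intersection of return sets of specialisations. -/
theorem exists_specialisationsN {k K : Type} [Field k] [IsAlgClosed k] [Field K] [Algebra k K]
    [Algebra K ℂ] (hK : IsFunctionField k K) {d : ℕ}
    {F : Fin (ν + 1) → MvPolynomial (Fin (ν + 1)) K}
    (hF : IsEndo d fun i => map (algebraMap K ℂ) (F i)) {x : Fin (ν + 1) → K} (hx : x ≠ 0)
    (B : ℤ) (hB : ∀ n, ht k (iter F x n) ≤ B) {N r : ℕ} (ι : Fin r → Fin N) (e : Fin r → ℕ)
    (W : Fin N → MvPolynomial (Fin (ν + 1)) K) (hW : ∀ j, (W (ι j)).IsHomogeneous (e j))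
    (A : Set (Place k K)) (hA : A.Finite) :
    ∃ (κ : Type) (_ : Finite κ) (b : κ → Place k K)
      (f : κ → Fin (ν + 1) → MvPolynomial (Fin (ν + 1)) k) (z : κ → Fin (ν + 1) → k)
      (w : κ → Fin N → MvPolynomial (Fin (ν + 1)) k),
      (∀ s, b s ∉ A ∧ GoodRed d (b s) F (f s) ∧ Red (b s) x (z s) ∧
        ∀ j, RedP (b s) (W j) (w s j)) ∧
      ∀ n, (∀ j, eval (iter F x n) (W (ι j)) = 0) ↔
        ∀ s, ∀ j, eval (iter (f s) (z s) n) (w s (ι j)) = 0 := by
  classical
  have hhom : ∀ i, (F i).IsHomogeneous d := by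
    intro i m hm
    refine hF.hom i ?_
    rw [coeff_map]
    simpa using hm
  have hA2 : (⋃ j, {b : Place k K | ¬ ∀ m, b.val ((W j).coeff m) ≤ 1}).Finite :=
    Set.finite_iUnion fun j => Good2_fin hK (W j)
  set A' : Set (Place k K) := A ∪ ⋃ j, {b : Place k K | ¬ ∀ m, b.val ((W j).coeff m) ≤ 1} with hA'
  have hint : ∀ b ∉ A', ∀ j m, b.val ((W j).coeff m) ≤ 1 := by
    intro b hb j
    by_contra hcon
    exact hb (Or.inr (Set.mem_iUnion.2 ⟨j, hcon⟩))
  have hone : ∀ j : Fin r, ∃ (r : ℕ) (b : Fin r → Place k K)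
      (f : Fin r → Fin (ν + 1) → MvPolynomial (Fin (ν + 1)) k)
      (z : Fin r → Fin (ν + 1) → k) (γ : Fin r → MvPolynomial (Fin (ν + 1)) k),
      (∀ s, b s ∉ A' ∧ GoodRed d (b s) F (f s) ∧ Red (b s) x (z s) ∧
        RedP (b s) (W (ι j)) (γ s)) ∧
      ∀ n, (∀ s, eval (iter (f s) (z s) n) (γ s) = 0) → eval (iter F x n) (W (ι j)) = 0 := by
    intro j
    by_cases h0 : W (ι j) = 0
    · refine ⟨0, Fin.elim0, Fin.elim0, Fin.elim0, Fin.elim0, fun s => s.elim0, fun n _ => ?_⟩
      rw [h0, map_zero]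
    · obtain ⟨r, b, f, z, γ, h1, h2⟩ := exists_specialisations hK hF hx B hB (hW j) h0 A'
        (hA.union hA2)
      exact ⟨r, b, f, z, γ, fun s => ⟨(h1 s).1, (h1 s).2.1, (h1 s).2.2.1, (h1 s).2.2.2.1⟩,
        fun n => (h2 n).2⟩
  choose rr b f z γ h1 h2 using hone
  have h3 : ∀ (j : Fin r) (s : Fin (rr j)), ∃ w : Fin N → MvPolynomial (Fin (ν + 1)) k,
      ∀ j', RedP (b j s) (W j') (w j') := by
    intro j s
    choose w hw using fun j' => redP_exists' hK (b j s) (hint _ (h1 j s).1 j')
    exact ⟨w, hw⟩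
  choose w hw using h3
  refine ⟨Σ j : Fin r, Fin (rr j), inferInstance, fun p => b p.1 p.2, fun p => f p.1 p.2,
    fun p => z p.1 p.2, fun p => w p.1 p.2, fun p => ⟨fun h => (h1 p.1 p.2).1 (Or.inl h),
      (h1 p.1 p.2).2.1, (h1 p.1 p.2).2.2.1, hw p.1 p.2⟩, fun n => ⟨fun h p j => ?_, fun h j => ?_⟩⟩
  · have hred : Red (b p.1 p.2) (iter F x n) (iter (f p.1 p.2) (z p.1 p.2) n) :=
      (h1 p.1 p.2).2.1.iter hhom (h1 p.1 p.2).2.2.1 n
    have hne : iter F x n ≠ 0 := by
      intro h0
      obtain ⟨hw, c, hc, h4⟩ := hred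
      apply hw
      funext i
      by_contra h5
      have h6 := h4 i
      rw [h0, Pi.zero_apply, mul_zero, zero_sub, Valuation.map_neg, (b p.1 p.2).triv _ h5] at h6
      exact lt_irrefl _ h6
    rw [red_eval_iff (hW j) (hw p.1 p.2 (ι j)) hred, h j, map_zero]
    exact zero_lt_iff.2 (pow_ne_zero _ (nrm_ne_zero hne))
  · refine h2 j n fun s => ?_
    have h4 : γ j s = w j s (ι j) := RedP.unique (h1 j s).2.2.2 (hw j s (ι j))
    rw [h4]
    exact h ⟨j, s⟩ j

/-- **Induction on the transcendence degree**, for classes which depend on the point. -/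
theorem inductN {d N r : ℕ} (ι : Fin r → Fin N) (e : Fin r → ℕ)
    (Cl : (Fin (ν + 1) → MvPolynomial (Fin (ν + 1)) ℂ) →
      (Fin N → MvPolynomial (Fin (ν + 1)) ℂ) → (Fin (ν + 1) → ℂ) → Prop)
    (R : Set ℕ → Prop) (hRu : R Set.univ) (hRi : ∀ S T, R S → R T → R (S ∩ T))
    (hspec : ∀ (k : Type) [Field k] [IsAlgClosed k] [Algebra k ℂ] (K : IntermediateField k ℂ),
      IsFunctionField k K → ∀ (F : Fin (ν + 1) → MvPolynomial (Fin (ν + 1)) K)
      (W : Fin N → MvPolynomial (Fin (ν + 1)) K) (x : Fin (ν + 1) → K),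
      (IsEndo d fun i => map (algebraMap K ℂ) (F i)) →
      Cl (fun i => map (algebraMap K ℂ) (F i)) (fun j => map (algebraMap K ℂ) (W j))
        (fun i => algebraMap K ℂ (x i)) → x ≠ 0 →
      ∀ B : ℤ, (∀ n, ht k (iter F x n) ≤ B) →
      ∃ A : Set (Place k K), A.Finite ∧ ∀ b ∉ A,
        ∀ (f : Fin (ν + 1) → MvPolynomial (Fin (ν + 1)) k)
        (w : Fin N → MvPolynomial (Fin (ν + 1)) k) (z : Fin (ν + 1) → k), GoodRed d b F f →
          (∀ j, RedP b (W j) (w j)) → Red b x z →
          Cl (fun i => map (algebraMap k ℂ) (f i)) (fun j => map (algebraMap k ℂ) (w j))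
            (fun i => algebraMap k ℂ (z i)))
    (hunb : ∀ (k : Type) [Field k] [IsAlgClosed k] [Algebra k ℂ] (K : IntermediateField k ℂ),
      IsFunctionField k K → ∀ (F : Fin (ν + 1) → MvPolynomial (Fin (ν + 1)) K)
      (W : Fin N → MvPolynomial (Fin (ν + 1)) K) (x : Fin (ν + 1) → K),
      (IsEndo d fun i => map (algebraMap K ℂ) (F i)) →
      Cl (fun i => map (algebraMap K ℂ) (F i)) (fun j => map (algebraMap K ℂ) (W j))
        (fun i => algebraMap K ℂ (x i)) →
      x ≠ 0 → (∀ B : ℤ, ∃ n, B < ht k (iter F x n)) → (∀ j, (W (ι j)).IsHomogeneous (e j)) →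
      R {n | ∀ j, eval (iter F x n) (W (ι j)) = 0})
    (halg : ∀ (f : Fin (ν + 1) → MvPolynomial (Fin (ν + 1)) ℂ)
      (w : Fin N → MvPolynomial (Fin (ν + 1)) ℂ) (a : Fin (ν + 1) → ℂ),
      (∀ i m, IsAlgebraic ℚ ((f i).coeff m)) →
      (∀ j m, IsAlgebraic ℚ ((w j).coeff m)) → (∀ i, IsAlgebraic ℚ (a i)) →
      IsEndo d f → Cl f w a → a ≠ 0 → (∀ j, (w (ι j)).IsHomogeneous (e j)) →
      R {n | ∀ j, eval (iter f a n) (w (ι j)) = 0})
    (f : Fin (ν + 1) → MvPolynomial (Fin (ν + 1)) ℂ)
    (w : Fin N → MvPolynomial (Fin (ν + 1)) ℂ) (a : Fin (ν + 1) → ℂ) (hf : IsEndo d f)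
    (hcl : Cl f w a) (ha : a ≠ 0) (hg : ∀ j, (w (ι j)).IsHomogeneous (e j)) :
    R {n | ∀ j, eval (iter f a n) (w (ι j)) = 0} := by
  classical
  have key : ∀ s : Finset ℂ, ∀ (f : Fin (ν + 1) → MvPolynomial (Fin (ν + 1)) ℂ)
      (w : Fin N → MvPolynomial (Fin (ν + 1)) ℂ) (a : Fin (ν + 1) → ℂ),
      (∀ i m, IsAlgebraic (IntermediateField.adjoin ℚ (s : Set ℂ)) ((f i).coeff m)) →
      (∀ j m, IsAlgebraic (IntermediateField.adjoin ℚ (s : Set ℂ)) ((w j).coeff m)) →
      (∀ i, IsAlgebraic (IntermediateField.adjoin ℚ (s : Set ℂ)) (a i)) →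
      IsEndo d f → Cl f w a → a ≠ 0 → (∀ j, (w (ι j)).IsHomogeneous (e j)) →
      R {n | ∀ j, eval (iter f a n) (w (ι j)) = 0} := by
    intro s
    induction s using Finset.induction_on with
    | empty =>
      intro f w a hf1 hw1 ha1 hf hcl ha hg
      have h1 : ∀ c : ℂ, IsAlgebraic (IntermediateField.adjoin ℚ ((∅ : Finset ℂ) : Set ℂ)) c →
          IsAlgebraic ℚ c := by
        intro c hc
        refine alg_mono ?_ hc
        have h3 : IntermediateField.adjoin ℚ ((∅ : Finset ℂ) : Set ℂ) = ⊥ := by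
          rw [Finset.coe_empty, IntermediateField.adjoin_empty]
        have h4 : ∀ z : ℂ, z ∈ IntermediateField.adjoin ℚ ((∅ : Finset ℂ) : Set ℂ) →
            z ∈ Set.range (algebraMap ℚ ℂ) := by
          intro z hz
          rw [h3] at hz
          exact IntermediateField.mem_bot.1 hz
        exact fun y => h4 _ y.2
      exact halg f w a (fun i m => h1 _ (hf1 i m)) (fun j m => h1 _ (hw1 j m))
        (fun i => h1 _ (ha1 i)) hf hcl ha hg
    | insert t s hts ih =>
      intro f w a hf1 hw1 ha1 hf hcl ha hg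
      set Q₀ := IntermediateField.adjoin ℚ (s : Set ℂ) with hQ₀
      set Q₁ := IntermediateField.adjoin ℚ ((insert t s : Finset ℂ) : Set ℂ) with hQ₁
      let k : IntermediateField Q₀ ℂ := algebraicClosure Q₀ ℂ
      haveI hkcl : IsAlgClosed k := IsAlgClosure.isAlgClosed Q₀
      have hmemk : ∀ c : ℂ, c ∈ k ↔ IsAlgebraic Q₀ c := fun c => mem_algebraicClosure_iff
      by_cases htk : t ∈ k
      · -- `t` is algebraic
        have h1 : ∀ c : ℂ, IsAlgebraic Q₁ c → IsAlgebraic Q₀ c := by
          intro c hc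
          have h2 : IsAlgebraic k c := by
            refine alg_mono ?_ hc
            intro y
            have hle : Q₁ ≤ k.restrictScalars ℚ := by
              rw [hQ₁, IntermediateField.adjoin_le_iff]
              intro z hz
              rw [Finset.coe_insert] at hz
              rcases hz with rfl | hz
              · exact htk
              · change z ∈ k
                rw [hmemk]
                exact isAlgebraic_algebraMap (R := Q₀) (A := ℂ)
                  (⟨z, IntermediateField.subset_adjoin ℚ _ hz⟩ : Q₀)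
            exact ⟨⟨(y : ℂ), hle y.2⟩, rfl⟩
          obtain ⟨c', hc'⟩ := emb_mem_range h2
          rw [← hmemk, ← hc']
          exact c'.2
        exact ih f w a (fun i m => h1 _ (hf1 i m)) (fun j m => h1 _ (hw1 j m))
          (fun i => h1 _ (ha1 i)) hf hcl ha hg
      · -- `t` is transcendental
        have htk' : t ∉ Set.range (algebraMap k ℂ) := by
          rintro ⟨c, rfl⟩
          exact htk c.2
        have h1 : ∀ c : ℂ, IsAlgebraic Q₁ c →
            IsAlgebraic (IntermediateField.adjoin k {t}) c := by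
          intro c hc
          refine alg_mono ?_ hc
          intro y
          have hle : (Q₁ : Set ℂ) ⊆ (IntermediateField.adjoin k ({t} : Set ℂ) : Set ℂ) := by
            have h2 : Q₁ ≤ ((IntermediateField.adjoin k ({t} : Set ℂ)).restrictScalars
                Q₀).restrictScalars ℚ := by
              rw [hQ₁, IntermediateField.adjoin_le_iff]
              intro z hz
              rw [Finset.coe_insert] at hz
              rcases hz with rfl | hz
              · exact IntermediateField.subset_adjoin k _ rfl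
              · have h3 : z ∈ k := by
                  rw [hmemk]
                  exact isAlgebraic_algebraMap (R := Q₀) (A := ℂ)
                    (⟨z, IntermediateField.subset_adjoin ℚ _ hz⟩ : Q₀)
                exact (IntermediateField.adjoin k ({t} : Set ℂ)).algebraMap_mem ⟨z, h3⟩
            exact h2
          exact ⟨⟨(y : ℂ), hle y.2⟩, rfl⟩
        set S : Set ℂ := ((⋃ i, ((f i).coeffs : Set ℂ)) ∪ ⋃ j, ((w j).coeffs : Set ℂ)) ∪
          Set.range a with hS
        have hSf : S.Finite := ((Set.finite_iUnion fun i => (f i).coeffs.finite_toSet).union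
          (Set.finite_iUnion fun j => (w j).coeffs.finite_toSet)).union
          (Set.finite_range a)
        have hSa : ∀ c ∈ S, IsAlgebraic (IntermediateField.adjoin k {t}) c := by
          rintro c ((hc | hc) | ⟨i, rfl⟩)
          · obtain ⟨i, hi⟩ := Set.mem_iUnion.1 hc
            obtain ⟨m, hm⟩ := mem_coeffs_iff.1 hi
            rw [hm.2]
            exact h1 _ (hf1 i m)
          · obtain ⟨i, hi⟩ := Set.mem_iUnion.1 hc
            obtain ⟨m, hm⟩ := mem_coeffs_iff.1 hi
            rw [hm.2]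
            exact h1 _ (hw1 i m)
          · exact h1 _ (ha1 i)
        set K := IntermediateField.adjoin k (insert t S) with hKdef
        have hK : IsFunctionField k K := isFunctionField_adjoin htk' hSf hSa
        have hmem : ∀ c ∈ S, c ∈ K := fun c hc =>
          IntermediateField.subset_adjoin k _ (Set.mem_insert_of_mem _ hc)
        choose F hF using fun i => exists_lift K (p := f i) fun c hc =>
          hmem c (Or.inl (Or.inl (Set.mem_iUnion.2 ⟨i, hc⟩)))
        choose W hW using fun j => exists_lift K (p := w j) fun c hc =>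
          hmem c (Or.inl (Or.inr (Set.mem_iUnion.2 ⟨j, hc⟩)))
        let x : Fin (ν + 1) → K := fun i => ⟨a i, hmem _ (Or.inr ⟨i, rfl⟩)⟩
        have hxa : (fun i => algebraMap K ℂ (x i)) = a := rfl
        have hFf : (fun i => map (algebraMap K ℂ) (F i)) = f := funext hF
        have hWw : (fun j => map (algebraMap K ℂ) (W j)) = w := funext hW
        have hx : x ≠ 0 := by
          intro h
          apply ha
          funext i
          exact congrArg (algebraMap K ℂ) (congrFun h i)
        have hGh : ∀ j, (W (ι j)).IsHomogeneous (e j) := by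
          intro j m hm
          refine hg j ?_
          rw [← hW, coeff_map]
          simpa using hm
        have hset : {n | ∀ j, eval (iter f a n) (w (ι j)) = 0} =
            {n | ∀ j, eval (iter F x n) (W (ι j)) = 0} := by
          ext n
          refine forall_congr' fun j => ?_
          rw [← eval_iter_map F x (W (ι j)) n, hFf, hxa, hW]
        rw [hset]
        have hFe : IsEndo d fun i => map (algebraMap K ℂ) (F i) := by rw [hFf]; exact hf
        have hclK : Cl (fun i => map (algebraMap K ℂ) (F i)) (fun j => map (algebraMap K ℂ) (W j))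
            (fun i => algebraMap K ℂ (x i)) := by
          rw [hFf, hWw, hxa]
          exact hcl
        by_cases hu : ∀ B : ℤ, ∃ n, B < ht k (iter F x n)
        · exact hunb k K hK F W x hFe hclK hx hu hGh
        push Not at hu
        obtain ⟨B, hB⟩ := hu
        obtain ⟨A, hA, hAb⟩ := hspec k K hK F W x hFe hclK hx B hB
        obtain ⟨κ, hκ, b, φ, z, ω, hall, hiff⟩ := exists_specialisationsN hK hFe hx B hB ι e W
          hGh A hA
        have hone : ∀ s : κ, R {n | ∀ j, eval (iter (φ s) (z s) n) (ω s (ι j)) = 0} := by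
          intro s
          obtain ⟨hb, hgr, hred, hω⟩ := hall s
          have hcl' := hAb (b s) hb (φ s) (ω s) (z s) hgr hω hred
          have halgk : ∀ c : k, IsAlgebraic Q₀ (algebraMap k ℂ c) := fun c =>
            (hmemk _).1 c.2
          have h5 := ih (fun i => map (algebraMap k ℂ) (φ s i))
            (fun j => map (algebraMap k ℂ) (ω s j)) (fun i => algebraMap k ℂ (z s i))
            (fun i m => by rw [coeff_map]; exact halgk _)
            (fun j m => by rw [coeff_map]; exact halgk _)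
            (fun i => halgk _)
            hgr.endo.map hcl' (by
              intro h
              apply hred.1
              funext i
              exact (algebraMap k ℂ).injective ((congrFun h i).trans (map_zero _).symm))
            (fun j => (redP_hom (hω (ι j)) (hGh j)).map _)
          have h6 : {n | ∀ j, eval (iter (fun i => map (algebraMap k ℂ) (φ s i))
              (fun i => algebraMap k ℂ (z s i)) n) (map (algebraMap k ℂ) (ω s (ι j))) = 0} =
              {n | ∀ j, eval (iter (φ s) (z s) n) (ω s (ι j)) = 0} := by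
            ext n
            exact forall_congr' fun j => eval_iter_map (φ s) (z s) (ω s (ι j)) n
          rwa [h6] at h5
        have h7 : {n | ∀ j, eval (iter F x n) (W (ι j)) = 0} =
            ⋂ s : κ, {n | ∀ j, eval (iter (φ s) (z s) n) (ω s (ι j)) = 0} := by
          ext n
          rw [Set.mem_iInter]
          exact hiff n
        rw [h7]
        exact iInter_closed hRu hRi _ hone
  -- the finite set of all the coefficients
  set s : Finset ℂ := ((Finset.univ.biUnion fun i => (f i).coeffs) ∪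
    (Finset.univ.biUnion fun j => (w j).coeffs)) ∪ Finset.univ.image a with hs
  have hmem : ∀ c ∈ s, IsAlgebraic (IntermediateField.adjoin ℚ (s : Set ℂ)) c := fun c hc =>
    isAlgebraic_algebraMap (R := IntermediateField.adjoin ℚ (s : Set ℂ)) (A := ℂ)
      (⟨c, IntermediateField.subset_adjoin ℚ _ hc⟩ : IntermediateField.adjoin ℚ (s : Set ℂ))
  have hcoef : ∀ p : MvPolynomial (Fin (ν + 1)) ℂ, (p.coeffs ⊆ s) → ∀ m,
      IsAlgebraic (IntermediateField.adjoin ℚ (s : Set ℂ)) (p.coeff m) := by
    intro p hp m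
    by_cases h0 : p.coeff m = 0
    · rw [h0]
      exact isAlgebraic_zero
    · exact hmem _ (hp (coeff_mem_coeffs m h0))
  refine key s f w a (fun i => hcoef _ ?_) (fun j => hcoef _ ?_) (fun i => hmem _ ?_)
    hf hcl ha hg
  · intro c hc
    exact Finset.mem_union_left _ (Finset.mem_union_left _
      (Finset.mem_biUnion.2 ⟨i, Finset.mem_univ _, hc⟩))
  · intro c hc
    exact Finset.mem_union_left _ (Finset.mem_union_right _
      (Finset.mem_biUnion.2 ⟨j, Finset.mem_univ _, hc⟩))
  · exact Finset.mem_union_right _ (Finset.mem_image.2 ⟨i, Finset.mem_univ _, rfl⟩)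

end Pool.Agent.Helper30.RED

end

section

namespace Pool.Agent.Helper16
end Pool.Agent.Helper16
namespace Pool.Agent.Helper30.TKN
end Pool.Agent.Helper30.TKN
namespace Pool.Agent.Helper36
end Pool.Agent.Helper36
namespace Pool.Agent.Helper38.PC
end Pool.Agent.Helper38.PC
namespace Pool.Agent.Helper38.TQ
end Pool.Agent.Helper38.TQ

/-!
# Curves in projective space over the complex numbers: specialisation
-/

set_option autoImplicit false

namespace Pool.Agent.Helper30.RED

open MvPolynomial
open Pool.Agent.Helper16 (Place IsFunctionField)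
open Pool.Agent.Helper36 (step iter iter_zero iter_succ iter_succ' iter_add iter_map)
open Pool.Agent.Helper38.TQ
open Pool.Agent.Helper30.TKN
open Pool.Agent.Helper38.PC (Data)

variable {ν : ℕ}

/-- A nonzero form in three variables does not vanish at some point `(l, m, 1)`. -/
theorem exists_affine_point {e : ℕ} {Q : MvPolynomial (Fin 3) ℂ} (hQ : Q.IsHomogeneous e)
    (hQ0 : Q ≠ 0) : ∃ l m : ℂ, eval ![l, m, 1] Q ≠ 0 := by
  have h1 : Q * X 2 ≠ 0 := mul_ne_zero hQ0 (X_ne_zero 2)
  obtain ⟨p, hp⟩ : ∃ p, eval p (Q * X 2) ≠ 0 := by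
    by_contra hcon
    push Not at hcon
    exact h1 (MvPolynomial.funext fun p => by rw [hcon p, map_zero])
  rw [map_mul, eval_X] at hp
  have h2 : eval p Q ≠ 0 := left_ne_zero_of_mul hp
  have h3 : p 2 ≠ 0 := right_ne_zero_of_mul hp
  refine ⟨p 0 / p 2, p 1 / p 2, ?_⟩
  intro h4
  apply h2
  have h5 : p = fun i => p 2 * (![p 0 / p 2, p 1 / p 2, 1] : Fin 3 → ℂ) i := by
    funext i
    fin_cases i
    · change p 0 = p 2 * (p 0 / p 2)
      rw [mul_div_cancel₀ _ h3]
    · change p 1 = p 2 * (p 1 / p 2)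
      rw [mul_div_cancel₀ _ h3]
    · change p 2 = p 2 * 1
      rw [mul_one]
  rw [h5]
  have h6 := eval_smul_hom (ν := 2) hQ (p 2) (![p 0 / p 2, p 1 / p 2, 1] : Fin 3 → ℂ)
  rw [h4, mul_zero] at h6
  exact h6

/-- A closed set of dimension at most one does not meet a suitable linear subspace of codimension
two. -/
theorem exists_two_forms {S : Set (MvPolynomial (Fin (ν + 1)) ℂ)}
    (hS : ∀ g ∈ S, ∃ e, g.IsHomogeneous e)
    (hdim : ringKrullDim (MvPolynomial (Fin (ν + 1)) ℂ ⧸ Ideal.span S) ≤ 2) :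
    ∃ c : ℕ → Fin (ν + 1) → ℂ, ∀ x : Fin (ν + 1) → ℂ, (∀ g ∈ S, eval x g = 0) →
      (∀ j < 2, ∑ i, c j i * x i = 0) → x = 0 := by
  classical
  have hstart : ∃ c : ℕ → Fin (ν + 1) → ℂ, ∀ x : Fin (ν + 1) → ℂ, (∀ g ∈ S, eval x g = 0) →
      (∀ j < ν + 1 + 2, ∑ i, c j i * x i = 0) → x = 0 := by
    refine ⟨fun j i => if j = i.val then 1 else 0, fun x _ hx => ?_⟩
    funext i
    have h1 := hx i.val (by omega)
    rw [Finset.sum_eq_single i] at h1
    · simpa using h1
    · intro j _ hj
      have h2 : ¬ i.val = j.val := fun h => hj (Fin.ext h.symm)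
      simp only [h2, if_false, zero_mul]
    · intro h
      exact absurd (Finset.mem_univ i) h
  have hdesc : ∀ m : ℕ, (∃ c : ℕ → Fin (ν + 1) → ℂ, ∀ x : Fin (ν + 1) → ℂ,
      (∀ g ∈ S, eval x g = 0) → (∀ j < m + 3, ∑ i, c j i * x i = 0) → x = 0) →
      ∃ c : ℕ → Fin (ν + 1) → ℂ, ∀ x : Fin (ν + 1) → ℂ,
        (∀ g ∈ S, eval x g = 0) → (∀ j < m + 2, ∑ i, c j i * x i = 0) → x = 0 := by
    rintro m ⟨c, hc⟩
    obtain ⟨e, Q, hQ, hQ0, hQv⟩ := exists_relation_linear hS hdim ![c m, c (m + 1), c (m + 2)]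
    obtain ⟨l, l', hl⟩ := exists_affine_point hQ hQ0
    refine ⟨fun j i => if j < m then c j i else if j = m then c m i - l * c (m + 2) i
      else c (m + 1) i - l' * c (m + 2) i, fun x hx hj => hc x hx ?_⟩
    set t : ℂ := ∑ i, c (m + 2) i * x i with ht
    have h0 : ∑ i, c m i * x i = l * t := by
      have h1 := hj m (by omega)
      simp only [lt_irrefl, if_false, if_true, sub_mul, Finset.sum_sub_distrib] at h1
      rw [sub_eq_zero] at h1
      rw [h1, ht, Finset.mul_sum]
      exact Finset.sum_congr rfl fun i _ => by ring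
    have h1 : ∑ i, c (m + 1) i * x i = l' * t := by
      have h1 := hj (m + 1) (by omega)
      have h2 : ¬ m + 1 < m := by omega
      have h3 : ¬ m + 1 = m := by omega
      simp only [h2, h3, if_false, sub_mul, Finset.sum_sub_distrib] at h1
      rw [sub_eq_zero] at h1
      rw [h1, ht, Finset.mul_sum]
      exact Finset.sum_congr rfl fun i _ => by ring
    have ht0 : t = 0 := by
      have h2 := hQv x hx
      have h3 : (fun j => ∑ i, (![c m, c (m + 1), c (m + 2)] : Fin 3 → Fin (ν + 1) → ℂ) j i * x i)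
          = fun j => t * (![l, l', 1] : Fin 3 → ℂ) j := by
        funext j
        fin_cases j
        · change ∑ i, c m i * x i = t * l
          rw [h0, mul_comm]
        · change ∑ i, c (m + 1) i * x i = t * l'
          rw [h1, mul_comm]
        · change ∑ i, c (m + 2) i * x i = t * 1
          rw [mul_one]
      rw [h3] at h2
      have h4 := eval_smul_hom (ν := 2) hQ t (![l, l', 1] : Fin 3 → ℂ)
      have h6 : eval (t • (![l, l', 1] : Fin 3 → ℂ)) Q = 0 := h2
      rw [h6] at h4
      have h5 := (mul_eq_zero.1 h4.symm).resolve_right hl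
      exact eq_zero_of_pow_eq_zero h5
    intro j hjm
    rcases lt_or_ge j m with h | h
    · have h2 := hj j (by omega)
      simp only [h, if_true] at h2
      exact h2
    · have h2 : j = m ∨ j = m + 1 ∨ j = m + 2 := by omega
      rcases h2 with rfl | rfl | rfl
      · rw [h0, ht0, mul_zero]
      · rw [h1, ht0, mul_zero]
      · exact ht0
  have hall : ∀ m : ℕ, (∃ c : ℕ → Fin (ν + 1) → ℂ, ∀ x : Fin (ν + 1) → ℂ,
      (∀ g ∈ S, eval x g = 0) → (∀ j < m + 2, ∑ i, c j i * x i = 0) → x = 0) →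
      ∃ c : ℕ → Fin (ν + 1) → ℂ, ∀ x : Fin (ν + 1) → ℂ,
        (∀ g ∈ S, eval x g = 0) → (∀ j < 2, ∑ i, c j i * x i = 0) → x = 0 := by
    intro m
    induction m with
    | zero =>
      intro h
      rwa [zero_add] at h
    | succ m ih =>
      intro h
      exact ih (hdesc m h)
  exact hall (ν + 1) hstart

/-- Forms without common zero specialise to forms without common zero, outside a finite set of
places. -/
theorem noz_spec {k K : Type} [Field k] [IsAlgClosed k] [Algebra k ℂ] [Field K] [Algebra k K]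
    [Algebra K ℂ] (hK : IsFunctionField k K) {κ : Type} [Finite κ]
    (H : κ → MvPolynomial (Fin (ν + 1)) K)
    (hH : ∀ z : Fin (ν + 1) → ℂ, (∀ j, eval z (map (algebraMap K ℂ) (H j)) = 0) → z = 0) :
    ∃ A : Set (Place k K), A.Finite ∧ ∀ b ∉ A, ∀ h : κ → MvPolynomial (Fin (ν + 1)) k,
      (∀ j, RedP b (H j) (h j)) →
      ∀ z : Fin (ν + 1) → ℂ, (∀ j, eval z (map (algebraMap k ℂ) (h j)) = 0) → z = 0 := by
  classical
  haveI := Fintype.ofFinite κ
  have h1 : ∀ i : Fin (ν + 1), ∃ (r : ℕ) (q : κ → MvPolynomial (Fin (ν + 1)) K),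
      ∑ j, q j * H j = X i ^ r := by
    intro i
    have h2 : (X i : MvPolynomial (Fin (ν + 1)) K) ∈ (Ideal.span (Set.range H)).radical := by
      rw [← MvPolynomial.vanishingIdeal_zeroLocus_eq_radical (K := ℂ),
        MvPolynomial.mem_vanishingIdeal_iff]
      intro x hx
      rw [MvPolynomial.mem_zeroLocus_iff] at hx
      have : x = 0 := hH x fun j => by
        have h3 := hx _ (Ideal.subset_span ⟨j, rfl⟩)
        rw [eval_map]
        exact h3
      rw [this]
      simp
    obtain ⟨r, hr⟩ := h2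
    obtain ⟨q, hq⟩ := (Submodule.mem_span_range_iff_exists_fun _).1 hr
    exact ⟨r, q, by simpa only [smul_eq_mul] using hq⟩
  choose r q hq using h1
  refine ⟨⋃ p : Fin (ν + 1) × κ, {b : Place k K | ¬ ∀ m, b.val ((q p.1 p.2).coeff m) ≤ 1},
    Set.finite_iUnion fun p => Good2_fin hK (q p.1 p.2), fun b hb h hh z hz => ?_⟩
  rw [Set.mem_iUnion, not_exists] at hb
  have hint : ∀ i j m, b.val ((q i j).coeff m) ≤ 1 := fun i j => not_not.1 (hb (i, j))
  choose q' hq' using fun i j => redP_exists' hK b (hint i j)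
  funext i
  have h3 : ∑ j, q' i j * h j = X i ^ r i := by
    refine RedP.unique (P := X i ^ r i) ?_ ((redP_C_X b i).pow _)
    rw [← hq i]
    exact RedP.sum _ fun j _ => (hq' i j).mul (hh j)
  have h4 := congrArg (fun p => eval z (map (algebraMap k ℂ) p)) h3
  simp only [map_sum, map_mul, map_pow, map_X, eval_X, hz, mul_zero,
    Finset.sum_const_zero] at h4
  exact eq_zero_of_pow_eq_zero h4.symm

end Pool.Agent.Helper30.RED

end

section

namespace Pool.Agent.Helper16
end Pool.Agent.Helper16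
namespace Pool.Agent.Helper30.TKN
end Pool.Agent.Helper30.TKN
namespace Pool.Agent.Helper33.GC
end Pool.Agent.Helper33.GC
namespace Pool.Agent.Helper36
end Pool.Agent.Helper36
namespace Pool.Agent.Helper38.TQ
end Pool.Agent.Helper38.TQ

/-!
# Curves in projective space: reduction to the algebraic numbers
-/

set_option autoImplicit false

namespace Pool.Agent.Helper30.RED

open MvPolynomial
open Pool.Agent.Helper16 (Place IsFunctionField)
open Pool.Agent.Helper36 (step iter iter_zero iter_succ iter_succ' iter_add iter_map APSet APSet_univ)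
open Pool.Agent.Helper38.TQ
open Pool.Agent.Helper30.TKN
open Pool.Agent.Helper33.GC (APSet_inter)

variable {ν : ℕ}

/-- The closed set defined by the forms `w 0, …, w (r - 1)` does not meet `l₀ = l₁ = 0`, where
`l₀ = w r` and `l₁ = w (r + 1)` are linear forms. -/
structure LData (r : ℕ) (e' : Fin r → ℕ) (w : Fin (r + 2) → MvPolynomial (Fin (ν + 1)) ℂ) :
    Prop where
  hom : ∀ j, (w (Fin.castAdd 2 j)).IsHomogeneous (e' j)
  hom0 : (w (Fin.natAdd r 0)).IsHomogeneous 1
  hom1 : (w (Fin.natAdd r 1)).IsHomogeneous 1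
  noz : ∀ z : Fin (ν + 1) → ℂ, (∀ j : Fin r, eval z (w (Fin.castAdd 2 j)) = 0) →
    eval z (w (Fin.natAdd r 0)) = 0 → eval z (w (Fin.natAdd r 1)) = 0 → z = 0

/-- Specialisation. -/
theorem ldata_spec {k : Type} [Field k] [IsAlgClosed k] [Algebra k ℂ] (K : IntermediateField k ℂ)
    (hK : IsFunctionField k K) {r : ℕ} {e' : Fin r → ℕ}
    {W : Fin (r + 2) → MvPolynomial (Fin (ν + 1)) K}
    (hC : LData r e' (fun j => map (algebraMap K ℂ) (W j))) :
    ∃ A : Set (Place k K), A.Finite ∧ ∀ b ∉ A,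
      ∀ (w : Fin (r + 2) → MvPolynomial (Fin (ν + 1)) k),
        (∀ j, RedP b (W j) (w j)) → LData r e' (fun j => map (algebraMap k ℂ) (w j)) := by
  obtain ⟨A₃, hA₃, h3⟩ := noz_spec (k := k) hK (κ := Fin r ⊕ Fin 2)
    (Sum.elim (fun j => W (Fin.castAdd 2 j)) (fun j => W (Fin.natAdd r j))) (by
      intro z hz
      refine hC.noz z (fun j => hz (Sum.inl j)) (hz (Sum.inr 0)) (hz (Sum.inr 1)))
  refine ⟨A₃, hA₃, fun b hb w hw => ⟨fun j => ?_, ?_, ?_, ?_⟩⟩
  · exact (redP_hom (hw _) (hom_of_map (algebraMap K ℂ) (hC.hom j))).map _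
  · exact (redP_hom (hw _) (hom_of_map (algebraMap K ℂ) hC.hom0)).map _
  · exact (redP_hom (hw _) (hom_of_map (algebraMap K ℂ) hC.hom1)).map _
  · intro y hy h0 h1
    refine h3 b hb (Sum.elim (fun j => w (Fin.castAdd 2 j)) (fun j => w (Fin.natAdd r j))) ?_ y ?_
    · rintro (j | j)
      · exact hw _
      · exact hw _
    · rintro (j | j)
      · exact hy j
      · fin_cases j
        · exact h0
        · exact h1

/-- The data of a return set for a closed set of dimension at most one, over the algebraic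
numbers. -/
structure AlgCurve (d : ℕ) (φ : Fin (ν + 1) → MvPolynomial (Fin (ν + 1)) ℂ) (z : Fin (ν + 1) → ℂ)
    (S : Finset (MvPolynomial (Fin (ν + 1)) ℂ)) : Prop where
  endo : IsEndo d φ
  ne : z ≠ 0
  algf : ∀ i m, IsAlgebraic ℚ ((φ i).coeff m)
  algz : ∀ i, IsAlgebraic ℚ (z i)
  hom : ∀ g ∈ S, ∃ e, g.IsHomogeneous e
  algg : ∀ g ∈ S, ∀ m, IsAlgebraic ℚ (g.coeff m)
  dim : ringKrullDim (MvPolynomial (Fin (ν + 1)) ℂ ⧸
    Ideal.span (S : Set (MvPolynomial (Fin (ν + 1)) ℂ))) ≤ 2

/-- The statement for function fields and unbounded heights. -/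
def UnbC (ν d : ℕ) : Prop :=
  ∀ (k : Type) [Field k] [IsAlgClosed k] [Algebra k ℂ] (K : IntermediateField k ℂ),
    IsFunctionField k K → ∀ (F : Fin (ν + 1) → MvPolynomial (Fin (ν + 1)) K)
    (x : Fin (ν + 1) → K), (IsEndo d fun i => map (algebraMap K ℂ) (F i)) → x ≠ 0 →
    (∀ B : ℤ, ∃ n, B < ht k (iter F x n)) → ∀ (r : ℕ) (W : Fin r → MvPolynomial (Fin (ν + 1)) K),
    (∀ j, ∃ e, (W j).IsHomogeneous e) →
    CurveSet (Set.range fun j => map (algebraMap K ℂ) (W j)) →
    ∃ A, {n | ∀ j, eval (iter F x n) (W j) = 0} = APSet A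

/-- **Induction for curves.** A property of sets which holds for finite unions of progressions
and for the return sets of closed sets of dimension at most one over the algebraic numbers, and
which is closed under intersections, holds for the return sets of all closed sets of dimension at
most one over `ℂ`. -/
theorem curveN_induct {d : ℕ} (R : Set ℕ → Prop) (hRa : ∀ A, R (APSet A))
    (hRi : ∀ S T, R S → R T → R (S ∩ T)) (hunb : UnbC ν d)
    (halg : ∀ (f : Fin (ν + 1) → MvPolynomial (Fin (ν + 1)) ℂ) (a : Fin (ν + 1) → ℂ)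
      (S : Finset (MvPolynomial (Fin (ν + 1)) ℂ)), AlgCurve d f a S →
      R {n | ∀ g ∈ S, eval (iter f a n) g = 0})
    {f : Fin (ν + 1) → MvPolynomial (Fin (ν + 1)) ℂ} (hf : IsEndo d f) {a : Fin (ν + 1) → ℂ}
    (ha : a ≠ 0) {S : Set (MvPolynomial (Fin (ν + 1)) ℂ)} (hS : ∀ g ∈ S, ∃ e, g.IsHomogeneous e)
    (hdim : ringKrullDim (MvPolynomial (Fin (ν + 1)) ℂ ⧸ Ideal.span S) ≤ 2) :
    R {n | ∀ g ∈ S, eval (iter f a n) g = 0} := by
  classical
  obtain ⟨S₀, hS₀, hS₀v⟩ := exists_finite_subfamily S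
  obtain ⟨l, hl⟩ := exists_two_forms hS hdim
  set r : ℕ := S₀.card with hr
  let p : Fin r → MvPolynomial (Fin (ν + 1)) ℂ := fun j => (S₀.equivFin.symm j : _)
  have hpS : ∀ j, p j ∈ S₀ := fun j => (S₀.equivFin.symm j).2
  have hpsurj : ∀ s ∈ S₀, ∃ j, p j = s := by
    intro s hs
    refine ⟨S₀.equivFin ⟨s, hs⟩, ?_⟩
    change ((S₀.equivFin.symm (S₀.equivFin ⟨s, hs⟩) : S₀) : MvPolynomial (Fin (ν + 1)) ℂ) = s
    rw [Equiv.symm_apply_apply]
  choose e' he' using fun j => hS (p j) (hS₀ (hpS j))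
  let L : ℕ → MvPolynomial (Fin (ν + 1)) ℂ := fun j => ∑ i, C (l j i) * X i
  have hL : ∀ j, (L j).IsHomogeneous 1 := by
    intro j
    refine IsHomogeneous.sum _ _ _ fun i _ => ?_
    have := (isHomogeneous_C (Fin (ν + 1)) (l j i)).mul (isHomogeneous_X ℂ i)
    simpa using this
  have hLe : ∀ j z, eval z (L j) = ∑ i, l j i * z i := by
    intro j z
    simp [L]
  let w : Fin (r + 2) → MvPolynomial (Fin (ν + 1)) ℂ := Fin.append p ![L 0, L 1]
  have hw1 : ∀ j, w (Fin.castAdd 2 j) = p j := fun j => Fin.append_left _ _ j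
  have hw2 : ∀ j, w (Fin.natAdd r j) = ![L 0, L 1] j := fun j => Fin.append_right _ _ j
  have hset : {n | ∀ g ∈ S, eval (iter f a n) g = 0} =
      {n | ∀ j : Fin r, eval (iter f a n) (w (Fin.castAdd 2 j)) = 0} := by
    ext n
    constructor
    · intro hn j
      rw [hw1]
      exact hn _ (hS₀ (hpS j))
    · intro hn
      refine hS₀v _ fun s hs => ?_
      obtain ⟨j, rfl⟩ := hpsurj s hs
      rw [← hw1]
      exact hn j
  have hRu : R Set.univ := by
    obtain ⟨T, hT⟩ := APSet_univ
    rw [hT]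
    exact hRa T
  rw [hset]
  refine inductN (d := d) (Fin.castAdd 2) e' (fun _ w _ => LData r e' w) R hRu hRi ?_ ?_ ?_
    f w a hf ?_ ha ?_
  · intro k _ _ _ K hK F W x hF hC hx B hB
    obtain ⟨A, hA, h⟩ := ldata_spec K hK hC
    exact ⟨A, hA, fun b hb f w z _ hw _ => h b hb w hw⟩
  · intro k _ _ _ K hK F W x hF hC hx hub hWh
    obtain ⟨A, hA⟩ := hunb k K hK F x hF hx hub r (fun j => W (Fin.castAdd 2 j))
      (fun j => ⟨_, hWh j⟩) (by
        refine curveSet_of_forms ?_ hC.hom0 hC.hom1 fun z hz h0 h1 =>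
          hC.noz z (fun j => ?_) h0 h1
        · rintro g ⟨j, rfl⟩
          exact ⟨_, hC.hom j⟩
        · exact hz _ ⟨j, rfl⟩)
    rw [hA]
    exact hRa A
  · intro f w a hfa hwa haa hf hC ha hwh
    have hSw : {n | ∀ j : Fin r, eval (iter f a n) (w (Fin.castAdd 2 j)) = 0} =
        {n | ∀ g ∈ Finset.univ.image fun j : Fin r => w (Fin.castAdd 2 j),
          eval (iter f a n) g = 0} := by
      ext n
      simp
    rw [hSw]
    refine halg f a _ ⟨hf, ha, hfa, haa, ?_, ?_, ?_⟩
    · intro g hg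
      obtain ⟨j, -, rfl⟩ := Finset.mem_image.1 hg
      exact ⟨_, hwh j⟩
    · intro g hg
      obtain ⟨j, -, rfl⟩ := Finset.mem_image.1 hg
      exact hwa _
    · refine krull_le_two (K := ℂ) ?_ hC.hom0 hC.hom1 ?_
      · intro g hg
        obtain ⟨j, -, rfl⟩ := Finset.mem_image.1 (Finset.mem_coe.1 hg)
        exact ⟨_, hwh j⟩
      · intro z hz h0 h1
        have hev : ∀ p : MvPolynomial (Fin (ν + 1)) ℂ, aeval z p = eval z p := fun p => by
          rw [aeval_def, Algebra.algebraMap_self, eval₂_id]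
        refine hC.noz z (fun j => ?_) ((hev _).symm.trans h0) ((hev _).symm.trans h1)
        exact (hev _).symm.trans
          (hz _ (Finset.mem_coe.2 (Finset.mem_image_of_mem _ (Finset.mem_univ j))))
  · refine ⟨fun j => ?_, ?_, ?_, ?_⟩
    · rw [hw1]
      exact he' j
    · rw [hw2]
      exact hL 0
    · rw [hw2]
      exact hL 1
    · intro z hz h0 h1
      refine hl z (hS₀v z fun s hs => ?_) ?_
      · obtain ⟨j, rfl⟩ := hpsurj s hs
        rw [← hw1]
        exact hz j
      · intro j hj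
        have h2 : j = 0 ∨ j = 1 := by omega
        rcases h2 with rfl | rfl
        · rw [← hLe, ← h0, hw2]
          rfl
        · rw [← hLe, ← h1, hw2]
          rfl
  · intro j
    rw [hw1]
    exact he' j

/-- The set is the intersection of a finite union of progressions and of finitely many return
sets of closed sets of dimension at most one over the algebraic numbers. -/
def RedCurve (ν d : ℕ) (T : Set ℕ) : Prop :=
  ∃ (A : Finset (ℕ × ℕ)) (r : ℕ) (φ : Fin r → Fin (ν + 1) → MvPolynomial (Fin (ν + 1)) ℂ)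
    (z : Fin r → Fin (ν + 1) → ℂ) (S : Fin r → Finset (MvPolynomial (Fin (ν + 1)) ℂ)),
    (∀ s, AlgCurve d (φ s) (z s) (S s)) ∧
      T = APSet A ∩ {n | ∀ s, ∀ g ∈ S s, eval (iter (φ s) (z s) n) g = 0}

theorem redCurve_AP (ν d : ℕ) (A : Finset (ℕ × ℕ)) : RedCurve ν d (APSet A) := by
  refine ⟨A, 0, Fin.elim0, Fin.elim0, Fin.elim0, fun s => s.elim0, ?_⟩
  ext n
  constructor
  · intro h
    exact ⟨h, fun s => s.elim0⟩
  · intro h
    exact h.1

theorem RedCurve.inter {d : ℕ} {S T : Set ℕ} (hS : RedCurve ν d S) (hT : RedCurve ν d T) :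
    RedCurve ν d (S ∩ T) := by
  obtain ⟨A, r, φ, z, γ, h1, rfl⟩ := hS
  obtain ⟨A', r', φ', z', γ', h1', rfl⟩ := hT
  obtain ⟨U, hU⟩ := APSet_inter A A'
  refine ⟨U, r + r', Fin.append φ φ', Fin.append z z', Fin.append γ γ', ?_, ?_⟩
  · intro s
    refine Fin.addCases (fun i => ?_) (fun i => ?_) s
    · simp only [Fin.append_left]
      exact h1 i
    · simp only [Fin.append_right]
      exact h1' i
  · rw [← hU]
    ext n
    constructor
    · rintro ⟨⟨h2, h3⟩, ⟨h4, h5⟩⟩
      refine ⟨⟨h2, h4⟩, fun s => ?_⟩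
      refine Fin.addCases (fun i => ?_) (fun i => ?_) s
      · simp only [Fin.append_left]
        exact h3 i
      · simp only [Fin.append_right]
        exact h5 i
    · rintro ⟨⟨h2, h4⟩, h⟩
      refine ⟨⟨h2, fun i => ?_⟩, ⟨h4, fun i => ?_⟩⟩
      · have := h (Fin.castAdd r' i)
        simpa only [Fin.append_left] using this
      · have := h (Fin.natAdd r i)
        simpa only [Fin.append_right] using this

/-- **Reduction to the algebraic numbers.** -/
theorem redCurve_of_unb {d : ℕ} (hunb : UnbC ν d)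
    {f : Fin (ν + 1) → MvPolynomial (Fin (ν + 1)) ℂ} (hf : IsEndo d f) {a : Fin (ν + 1) → ℂ}
    (ha : a ≠ 0) {S : Set (MvPolynomial (Fin (ν + 1)) ℂ)} (hS : ∀ g ∈ S, ∃ e, g.IsHomogeneous e)
    (hdim : ringKrullDim (MvPolynomial (Fin (ν + 1)) ℂ ⧸ Ideal.span S) ≤ 2) :
    RedCurve ν d {n | ∀ g ∈ S, eval (iter f a n) g = 0} := by
  refine curveN_induct (RedCurve ν d) (redCurve_AP ν d) (fun S T => RedCurve.inter) hunb ?_ hf ha
    hS hdim
  intro f a S hC
  obtain ⟨U, hU⟩ := APSet_univ
  refine ⟨U, 1, fun _ => f, fun _ => a, fun _ => S, fun _ => hC, ?_⟩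
  rw [← hU, Set.univ_inter]
  ext n
  exact ⟨fun h _ => h, fun h => h 0⟩

end Pool.Agent.Helper30.RED

end

section

namespace Pool.Agent.Helper16
end Pool.Agent.Helper16
namespace Pool.Agent.Helper30.TKN
end Pool.Agent.Helper30.TKN
namespace Pool.Agent.Helper36
end Pool.Agent.Helper36
namespace Pool.Agent.Helper38.PC
end Pool.Agent.Helper38.PC
namespace Pool.Agent.Helper38.TQ
end Pool.Agent.Helper38.TQ

/-!
# Post-critically finite endomorphisms of projective space over the complex numbers: curves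
-/

set_option autoImplicit false

namespace Pool.Agent.Helper30.RED

open MvPolynomial
open Pool.Agent.Helper16 (Place IsFunctionField)
open Pool.Agent.Helper36 (step iter iter_zero iter_succ iter_succ' iter_add iter_map APSet APSet_univ)
open Pool.Agent.Helper38.TQ
open Pool.Agent.Helper30.TKN
open Pool.Agent.Helper38.PC (Data)

variable {ν : ℕ}

/-- The closed set defined by the forms `w 0, …, w (r - 1)` does not meet `l₀ = l₁ = 0`, the map is
post-critically finite and the orbit is outside the post-critical hypersurface. -/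
structure CData (r e E : ℕ) (e' : Fin r → ℕ) (f : Fin (ν + 1) → MvPolynomial (Fin (ν + 1)) ℂ)
    (w : Fin (r + 5) → MvPolynomial (Fin (ν + 1)) ℂ) (a : Fin (ν + 1) → ℂ) : Prop where
  hom : ∀ j, (w (Fin.castAdd 5 j)).IsHomogeneous (e' j)
  hom0 : (w (Fin.natAdd r 0)).IsHomogeneous 1
  hom1 : (w (Fin.natAdd r 1)).IsHomogeneous 1
  noz : ∀ z : Fin (ν + 1) → ℂ, (∀ j : Fin r, eval z (w (Fin.castAdd 5 j)) = 0) →
    eval z (w (Fin.natAdd r 0)) = 0 → eval z (w (Fin.natAdd r 1)) = 0 → z = 0
  data : Data f e E (w (Fin.natAdd r 2)) (w (Fin.natAdd r 3)) (w (Fin.natAdd r 4))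
  out : ∀ n, eval (iter f a n) (w (Fin.natAdd r 2)) ≠ 0

/-- The return set in the form of the induction. -/
theorem ap_of_dml {K : Type} [Field K] [Algebra K ℂ]
    {F : Fin (ν + 1) → MvPolynomial (Fin (ν + 1)) K} {x : Fin (ν + 1) → K} {r : ℕ}
    {w : Fin r → MvPolynomial (Fin (ν + 1)) K}
    (h : ∃ T : Finset (ℕ × ℕ), {n : ℕ | ∀ g ∈ Set.range fun j => map (algebraMap K ℂ) (w j),
        eval ((fun (x : Fin (ν + 1) → ℂ) (i : Fin (ν + 1)) =>
        eval x (map (algebraMap K ℂ) (F i)))^[n] (fun i => 1 * algebraMap K ℂ (x i))) g = 0} =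
      {n : ℕ | ∃ q ∈ T, ∃ m : ℕ, n = q.1 * m + q.2}) :
    ∃ A, {n | ∀ j, eval (iter F x n) (w j) = 0} = APSet A := by
  obtain ⟨T, hT⟩ := h
  refine ⟨T, ?_⟩
  have h1 : {n : ℕ | ∃ q ∈ T, ∃ k : ℕ, n = q.1 * k + q.2} = APSet T := rfl
  rw [← h1, ← hT]
  ext n
  have h3 : (fun i => (1 : ℂ) * algebraMap K ℂ (x i)) = fun i => algebraMap K ℂ (x i) := by
    funext i
    rw [one_mul]
  simp only [Set.mem_ofPred_eq, Set.forall_mem_range, h3]
  refine forall_congr' fun j => ?_
  rw [← eval_iter_map F x (w j) n]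
  exact Iff.rfl

end Pool.Agent.Helper30.RED

end
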